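import Mathlib.Algebra.BigOperators.Group.Finset.Powerset
import Mathlib.Analysis.MeanInequalities
import Mathlib.Combinatorics.Enumerative.DoubleCounting
import Mathlib.Tactic.Algebra.Basic

/-! General finite counting lemmas. -/

namespace Pool.Agent.MP_c3fbfc_co

open Finset

theorem card_le_mul_of_rel {X Y : Type*} (S : Finset X) (T : Finset Y) (R : X → Y → Prop)
    [∀ x y, Decidable (R x y)]
    (B : ℝ) (h1 : ∀ x ∈ S, ∃ y ∈ T, R x y)
    (h2 : ∀ y ∈ T, ((S.filter (fun x => R x y)).card : ℝ) ≤ B) :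
    (S.card : ℝ) ≤ T.card * B := by
  classical
  have h : S ⊆ T.biUnion (fun y => S.filter (fun x => R x y)) := by
    intro x hx
    obtain ⟨y, hy, hR⟩ := h1 x hx
    exact Finset.mem_biUnion.2 ⟨y, hy, Finset.mem_filter.2 ⟨hx, hR⟩⟩
  have h3 := (Finset.card_le_card h).trans Finset.card_biUnion_le
  have h4 : (S.card : ℝ) ≤ ∑ y ∈ T, ((S.filter (fun x => R x y)).card : ℝ) := by
    exact_mod_cast h3
  refine h4.trans ((Finset.sum_le_sum h2).trans ?_)
  simp

theorem mul_card_le_of_rel {X Y : Type*} (S : Finset X) (T : Finset Y) (R : X → Y → Prop)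
    [∀ x y, Decidable (R x y)]
    (s : ℝ) (h1 : ∀ x ∈ S, s ≤ ((T.filter (fun y => R x y)).card : ℝ))
    (h2 : ∀ x ∈ S, ∀ x' ∈ S, ∀ y ∈ T, R x y → R x' y → x = x') :
    (S.card : ℝ) * s ≤ T.card := by
  classical
  have h : S.biUnion (fun x => T.filter (fun y => R x y)) ⊆ T := by
    intro y hy
    obtain ⟨x, _, hy⟩ := Finset.mem_biUnion.1 hy
    exact (Finset.mem_filter.1 hy).1
  have h3 := Finset.card_le_card h
  rw [Finset.card_biUnion] at h3
  · have h4 : (∑ x ∈ S, ((T.filter (fun y => R x y)).card : ℝ)) ≤ T.card := by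
      exact_mod_cast h3
    refine le_trans ?_ h4
    calc (S.card : ℝ) * s = ∑ _x ∈ S, s := by simp
      _ ≤ _ := Finset.sum_le_sum h1
  · intro x hx x' hx' hne
    refine Finset.disjoint_left.2 ?_
    intro y hy hy'
    rw [Finset.mem_filter] at hy hy'
    exact hne (h2 x hx x' hx' y hy.1 hy.2 hy'.2)

theorem card_le_of_rel {X Y : Type*} (S : Finset X) (T : Finset Y) (R : X → Y → Prop)
    (h1 : ∀ x ∈ S, ∃ y ∈ T, R x y)
    (h2 : ∀ x ∈ S, ∀ x' ∈ S, ∀ y ∈ T, R x y → R x' y → x = x') :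
    S.card ≤ T.card := by
  classical
  have h := mul_card_le_of_rel S T R 1 (fun x hx => by
    obtain ⟨y, hy, hR⟩ := h1 x hx
    have : 0 < (T.filter (fun y => R x y)).card :=
      Finset.card_pos.2 ⟨y, Finset.mem_filter.2 ⟨hy, hR⟩⟩
    exact_mod_cast this) h2
  rw [mul_one] at h
  exact_mod_cast h

/-- double counting inequality -/
theorem double_count {X Y : Type*} (S : Finset X) (T : Finset Y) (R : X → Y → Prop)
    [∀ x y, Decidable (R x y)]
    (a b : ℝ) (h1 : ∀ x ∈ S, a ≤ ((T.filter (fun y => R x y)).card : ℝ))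
    (h2 : ∀ y ∈ T, ((S.filter (fun x => R x y)).card : ℝ) ≤ b) :
    (S.card : ℝ) * a ≤ T.card * b := by
  have h := Finset.sum_card_bipartiteAbove_eq_sum_card_bipartiteBelow (s := S) (t := T) R
  simp only [Finset.bipartiteAbove, Finset.bipartiteBelow] at h
  have h' : (∑ x ∈ S, ((T.filter (fun y => R x y)).card : ℝ)) =
      ∑ y ∈ T, ((S.filter (fun x => R x y)).card : ℝ) := by
    exact_mod_cast h
  calc (S.card : ℝ) * a = ∑ _x ∈ S, a := by simp
    _ ≤ _ := Finset.sum_le_sum h1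
    _ = _ := h'
    _ ≤ ∑ _y ∈ T, b := Finset.sum_le_sum h2
    _ = _ := by simp

theorem card_weighted_subsets {ι : Type*} (Y : Finset ι) (w : ι → ℝ) (hw : ∀ i, 0 < w i)
    (β : ℝ) :
    ((Y.powerset.filter (fun S => ∑ i ∈ S, -Real.log (w i) ≤ β)).card : ℝ) ≤
      Real.exp (β + ∑ i ∈ Y, w i) := by
  classical
  have h1 : ∑ S ∈ Y.powerset, ∏ i ∈ S, w i = ∏ i ∈ Y, (1 + w i) := by
    rw [Finset.prod_one_add]
  have h2 : ∏ i ∈ Y, (1 + w i) ≤ Real.exp (∑ i ∈ Y, w i) := by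
    rw [Real.exp_sum]
    refine Finset.prod_le_prod (fun i _ => by linarith [hw i]) (fun i _ => ?_)
    linarith [Real.add_one_le_exp (w i)]
  have h3 : ∀ S ∈ Y.powerset.filter (fun S => ∑ i ∈ S, -Real.log (w i) ≤ β),
      Real.exp (-β) ≤ ∏ i ∈ S, w i := by
    intro S hS
    have := (Finset.mem_filter.1 hS).2
    have h4 : ∏ i ∈ S, w i = Real.exp (∑ i ∈ S, Real.log (w i)) := by
      rw [Real.exp_sum]
      exact Finset.prod_congr rfl (fun i _ => (Real.exp_log (hw i)).symm)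
    rw [h4, Real.exp_le_exp]
    rw [Finset.sum_neg_distrib] at this
    linarith
  have h5 : ((Y.powerset.filter (fun S => ∑ i ∈ S, -Real.log (w i) ≤ β)).card : ℝ) *
      Real.exp (-β) ≤ ∑ S ∈ Y.powerset, ∏ i ∈ S, w i := by
    calc _ = ∑ _S ∈ Y.powerset.filter (fun S => ∑ i ∈ S, -Real.log (w i) ≤ β),
          Real.exp (-β) := by simp
      _ ≤ _ := Finset.sum_le_sum h3
      _ ≤ _ := Finset.sum_le_sum_of_subset_of_nonneg (Finset.filter_subset _ _)
          (fun S _ _ => Finset.prod_nonneg (fun i _ => (hw i).le))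
  have h6 := h5.trans (h1.le.trans h2)
  rw [Real.exp_add]
  have h7 : Real.exp β * Real.exp (-β) = 1 := by rw [← Real.exp_add]; simp
  have h8 := mul_le_mul_of_nonneg_left h6 (Real.exp_pos β).le
  calc _ = Real.exp β * (((Y.powerset.filter
        (fun S => ∑ i ∈ S, -Real.log (w i) ≤ β)).card : ℝ) * Real.exp (-β)) := by
        rw [mul_comm _ (Real.exp (-β)), ← mul_assoc, h7, one_mul]
    _ ≤ _ := h8

theorem card_small_subsets {ι : Type*} (Y : Finset ι) (u : ℝ) (hu : 1 ≤ u) (q : ℝ) :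
    ((Y.powerset.filter (fun S => (S.card : ℝ) ≤ q)).card : ℝ) ≤
      Real.exp (q * Real.log u + Y.card / u) := by
  have hu0 : 0 < u := by linarith
  have h := card_weighted_subsets Y (fun _ => u⁻¹) (fun _ => inv_pos.2 hu0) (q * Real.log u)
  simp only [Finset.sum_const, nsmul_eq_mul, Real.log_inv, neg_neg] at h
  refine le_trans ?_ (h.trans (le_of_eq ?_))
  · refine Nat.cast_le.2 (Finset.card_le_card ?_)
    intro S hS
    rw [Finset.mem_filter] at hS ⊢
    exact ⟨hS.1, mul_le_mul_of_nonneg_right hS.2 (Real.log_nonneg hu)⟩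
  · rw [div_eq_mul_inv]

theorem mahler {τ : Type*} (S : Finset τ) (t : ℕ) (ht : 0 < t) (hS : S.card = t)
    (a b : τ → ℝ) (ha : ∀ T, 0 ≤ a T) (hb : ∀ T, 0 ≤ b T) :
    ∏ T ∈ S, a T ^ (1 / t : ℝ) + ∏ T ∈ S, b T ^ (1 / t : ℝ) ≤
      ∏ T ∈ S, (a T + b T) ^ (1 / t : ℝ) := by
  have ht' : (0 : ℝ) < t := by exact_mod_cast ht
  have hw : (1 / t : ℝ) ≠ 0 := by positivity
  by_cases h0 : ∃ T ∈ S, a T + b T = 0
  · obtain ⟨T, hT, h0⟩ := h0
    have h1 : a T = 0 := by linarith [ha T, hb T]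
    have h2 : b T = 0 := by linarith [ha T, hb T]
    rw [Finset.prod_eq_zero hT (by rw [h1, Real.zero_rpow hw]),
      Finset.prod_eq_zero hT (by rw [h2, Real.zero_rpow hw]), add_zero]
    exact Finset.prod_nonneg (fun T _ => Real.rpow_nonneg (add_nonneg (ha T) (hb T)) _)
  push Not at h0
  have hpos : ∀ T ∈ S, 0 < a T + b T := fun T hT =>
    lt_of_le_of_ne (add_nonneg (ha T) (hb T)) (h0 T hT).symm
  have hsum : ∑ _T ∈ S, (1 / t : ℝ) = 1 := by
    rw [Finset.sum_const, hS, nsmul_eq_mul]; field_simp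
  have key : ∀ c : τ → ℝ, (∀ T, 0 ≤ c T) → ∏ T ∈ S, c T ^ (1 / t : ℝ) ≤
      (∑ T ∈ S, (1 / t : ℝ) * (c T / (a T + b T))) * ∏ T ∈ S, (a T + b T) ^ (1 / t : ℝ) := by
    intro c hc
    have h1 := Real.geom_mean_le_arith_mean_weighted S (fun _ => (1 / t : ℝ))
      (fun T => c T / (a T + b T)) (fun _ _ => by positivity) hsum
      (fun T hT => div_nonneg (hc T) (hpos T hT).le)
    have h2 : ∏ T ∈ S, c T ^ (1 / t : ℝ) =
        (∏ T ∈ S, (c T / (a T + b T)) ^ (1 / t : ℝ)) * ∏ T ∈ S, (a T + b T) ^ (1 / t : ℝ) := by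
      rw [← Finset.prod_mul_distrib]
      refine Finset.prod_congr rfl (fun T hT => ?_)
      rw [← Real.mul_rpow (div_nonneg (hc T) (hpos T hT).le) (hpos T hT).le,
        div_mul_cancel₀ _ (hpos T hT).ne']
    rw [h2]
    exact mul_le_mul_of_nonneg_right h1
      (Finset.prod_nonneg (fun T hT => Real.rpow_nonneg (hpos T hT).le _))
  have h3 : (∑ T ∈ S, (1 / t : ℝ) * (a T / (a T + b T))) +
      (∑ T ∈ S, (1 / t : ℝ) * (b T / (a T + b T))) = 1 := by
    rw [← Finset.sum_add_distrib]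
    refine Eq.trans (Finset.sum_congr rfl (fun T hT => ?_)) hsum
    have := (hpos T hT).ne'
    field_simp
  have h4 := add_le_add (key a ha) (key b hb)
  rw [← add_mul, h3, one_mul] at h4
  exact h4

/-- Finner's inequality (weighted form of Shearer's lemma) on the discrete cube. -/
theorem finner {ι τ : Type*} [DecidableEq ι] (𝒯 : Finset τ) (J : τ → Finset ι) (t : ℕ) (ht : 0 < t)
    (V : Finset ι) (hV : ∀ j ∈ V, (𝒯.filter (fun T => j ∈ J T)).card = t)
    (f : τ → Finset ι → ℝ) (hf : ∀ T z, 0 ≤ f T z) :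
    ∑ x ∈ V.powerset, ∏ T ∈ 𝒯, (f T (x ∩ J T)) ^ (1 / t : ℝ) ≤
      ∏ T ∈ 𝒯, (∑ z ∈ (V ∩ J T).powerset, f T z) ^ (1 / t : ℝ) := by
  induction V using Finset.induction_on generalizing f with
  | empty => simp
  | insert j V hj ih =>
    set f' : τ → Finset ι → ℝ := fun T z => if j ∈ J T then f T z + f T (insert j z) else f T z
      with hf'
    have hf'0 : ∀ T z, 0 ≤ f' T z := by
      intro T z
      simp only [hf']
      split_ifs
      · exact add_nonneg (hf _ _) (hf _ _)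
      · exact hf _ _
    have ih' := ih (fun i hi => hV i (Finset.mem_insert_of_mem hi)) f' hf'0
    rw [Finset.sum_powerset_insert hj, ← Finset.sum_add_distrib]
    refine le_trans (Finset.sum_le_sum ?_) (ih'.trans (le_of_eq ?_))
    · intro x _
      rw [← Finset.prod_filter_mul_prod_filter_not 𝒯 (fun T => j ∈ J T),
        ← Finset.prod_filter_mul_prod_filter_not 𝒯 (fun T => j ∈ J T)
          (fun T => f T (insert j x ∩ J T) ^ (1 / t : ℝ)),
        ← Finset.prod_filter_mul_prod_filter_not 𝒯 (fun T => j ∈ J T)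
          (fun T => f' T (x ∩ J T) ^ (1 / t : ℝ))]
      have e1 : ∏ T ∈ 𝒯.filter (fun T => ¬ j ∈ J T), f T (insert j x ∩ J T) ^ (1 / t : ℝ) =
          ∏ T ∈ 𝒯.filter (fun T => ¬ j ∈ J T), f T (x ∩ J T) ^ (1 / t : ℝ) := by
        refine Finset.prod_congr rfl (fun T hT => ?_)
        rw [Finset.insert_inter_of_notMem (Finset.mem_filter.1 hT).2]
      have e2 : ∏ T ∈ 𝒯.filter (fun T => ¬ j ∈ J T), f' T (x ∩ J T) ^ (1 / t : ℝ) =
          ∏ T ∈ 𝒯.filter (fun T => ¬ j ∈ J T), f T (x ∩ J T) ^ (1 / t : ℝ) := by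
        refine Finset.prod_congr rfl (fun T hT => ?_)
        simp only [hf', if_neg (Finset.mem_filter.1 hT).2]
      have e3 : ∏ T ∈ 𝒯.filter (fun T => j ∈ J T), f T (insert j x ∩ J T) ^ (1 / t : ℝ) =
          ∏ T ∈ 𝒯.filter (fun T => j ∈ J T), f T (insert j (x ∩ J T)) ^ (1 / t : ℝ) := by
        refine Finset.prod_congr rfl (fun T hT => ?_)
        rw [Finset.insert_inter_of_mem (Finset.mem_filter.1 hT).2]
      have e4 : ∏ T ∈ 𝒯.filter (fun T => j ∈ J T), f' T (x ∩ J T) ^ (1 / t : ℝ) =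
          ∏ T ∈ 𝒯.filter (fun T => j ∈ J T),
            (f T (x ∩ J T) + f T (insert j (x ∩ J T))) ^ (1 / t : ℝ) := by
        refine Finset.prod_congr rfl (fun T hT => ?_)
        simp only [hf', if_pos (Finset.mem_filter.1 hT).2]
      rw [e1, e2, e3, e4, ← add_mul]
      refine mul_le_mul_of_nonneg_right ?_
        (Finset.prod_nonneg (fun T _ => Real.rpow_nonneg (hf _ _) _))
      exact mahler _ t ht (hV j (Finset.mem_insert_self _ _)) _ _ (fun T => hf _ _)
        (fun T => hf _ _)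
    · refine Finset.prod_congr rfl (fun T _ => ?_)
      congr 1
      by_cases h : j ∈ J T
      · rw [Finset.insert_inter_of_mem h, Finset.sum_powerset_insert
          (fun h' => hj (Finset.mem_inter.1 h').1), ← Finset.sum_add_distrib]
        simp only [hf', if_pos h]
      · rw [Finset.insert_inter_of_notMem h]
        simp only [hf', if_neg h]

end Pool.Agent.MP_c3fbfc_co
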