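import Mathlib.Algebra.Order.Ring.Star
import Mathlib.Analysis.SpecialFunctions.Pow.Asymptotics
import Mathlib.Algebra.Order.Star.Real
import Mathlib.Combinatorics.SimpleGraph.Triangle.Removal
import Pool.Agent.MP_c3fbfc_co.Basic

-- ======== part 0: formerly Pool.Agent.MP_c3fbfc_co.Lin
section MrgPart0

/-! Linear spaces given by their collinear triples; peeling points of small degree. -/

namespace Pool.Agent.MP_c3fbfc_co

open Finset Filter
open scoped Classical

/-- ternary relations -/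
abbrev Tern (α : Type*) := α → α → α → Prop

/-- symmetric irreflexive ternary relation -/
structure IsSym {β : Type*} (h : Tern β) : Prop where
  ne : ∀ {a b d}, h a b d → a ≠ b
  sw1 : ∀ {a b d}, h a b d → h b a d
  sw2 : ∀ {a b d}, h a b d → h a d b

/-- collinearity relation of a linear space on `P` -/
structure IsLin {α : Type*} (P : Finset α) (c : Tern α) : Prop extends IsSym c where
  mem : ∀ {a b d}, c a b d → a ∈ P
  tr : ∀ {a b d e}, c a b d → c a b e → d ≠ e → c a d e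

namespace IsSym
variable {β : Type*} {h : Tern β} (s : IsSym h)
include s
theorem ne2 {a b d : β} (e : h a b d) : a ≠ d := s.ne (s.sw2 e)
theorem ne3 {a b d : β} (e : h a b d) : b ≠ d := s.ne2 (s.sw1 e)
theorem rot {a b d : β} (e : h a b d) : h b d a := s.sw2 (s.sw1 e)
theorem rot' {a b d : β} (e : h a b d) : h d a b := s.sw1 (s.sw2 e)
theorem sw3 {a b d : β} (e : h a b d) : h d b a := s.sw1 (s.rot e)
theorem iff1 {a b d : β} : h a b d ↔ h b a d := ⟨s.sw1, s.sw1⟩
theorem iff2 {a b d : β} : h a b d ↔ h a d b := ⟨s.sw2, s.sw2⟩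
theorem iff3 {a b d : β} : h a b d ↔ h d a b := ⟨s.rot', s.rot⟩
end IsSym

/-- induced embedding of a configuration -/
def Emb {α β : Type*} (Q : Finset β) (h : Tern β) (P : Finset α) (c : Tern α) (φ : β → α) :
    Prop :=
  (∀ a ∈ Q, φ a ∈ P) ∧ (∀ a ∈ Q, ∀ b ∈ Q, φ a = φ b → a = b) ∧
    ∀ a ∈ Q, ∀ b ∈ Q, ∀ d ∈ Q, (h a b d ↔ c (φ a) (φ b) (φ d))

/-- restriction -/
def res {α : Type*} (P : Finset α) (c : Tern α) : Tern α :=
  fun a b d => c a b d ∧ a ∈ P ∧ b ∈ P ∧ d ∈ P

theorem IsLin.res {α : Type*} {P : Finset α} {c : Tern α} (l : IsLin P c) (P' : Finset α) :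
    IsLin P' (res P' c) where
  ne := fun e => l.ne e.1
  sw1 := fun e => ⟨l.sw1 e.1, e.2.2.1, e.2.1, e.2.2.2⟩
  sw2 := fun e => ⟨l.sw2 e.1, e.2.1, e.2.2.2, e.2.2.1⟩
  mem := fun e => e.2.1
  tr := fun e e' hne => ⟨l.tr e.1 e'.1 hne, e.2.1, e.2.2.2, e'.2.2.2⟩

theorem res_res {α : Type*} {P P' : Finset α} (hP : P' ⊆ P) (c : Tern α) :
    res P' (res P c) = res P' c := by
  funext a b d
  apply propext
  exact ⟨fun e => ⟨e.1.1, e.2⟩, fun e => ⟨⟨e.1, hP e.2.1, hP e.2.2.1, hP e.2.2.2⟩, e.2⟩⟩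

theorem Emb.of_res {α β : Type*} {Q : Finset β} {h : Tern β} {P P' : Finset α} {c : Tern α}
    {φ : β → α} (hP : P' ⊆ P) (e : Emb Q h P' (res P' c) φ) : Emb Q h P c φ :=
  ⟨fun a ha => hP (e.1 a ha), e.2.1, fun a ha b hb d hd => (e.2.2 a ha b hb d hd).trans
    ⟨fun t => t.1, fun t => ⟨t, e.1 a ha, e.1 b hb, e.1 d hd⟩⟩⟩

theorem Emb.congr {α β : Type*} {Q : Finset β} {h : Tern β} {P : Finset α} {c : Tern α}
    {φ φ' : β → α} (e : Emb Q h P c φ) (hφ : ∀ a ∈ Q, φ' a = φ a) : Emb Q h P c φ' := by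
  refine ⟨fun a ha => hφ a ha ▸ e.1 a ha, fun a ha b hb t => e.2.1 a ha b hb ?_,
    fun a ha b hb d hd => ?_⟩
  · rwa [hφ a ha, hφ b hb] at t
  · rw [hφ a ha, hφ b hb, hφ d hd]
    exact e.2.2 a ha b hb d hd

theorem Emb.insert {α β : Type*} {Q : Finset β} {h : Tern β} {P : Finset α} {c : Tern α}
    {φ : β → α} (sh : IsSym h) (sc : IsSym c) (e : Emb Q h P c φ) (x : β) (hx : φ x ∈ P)
    (h1 : ∀ a ∈ Q, φ a ≠ φ x) (h2 : ∀ a ∈ Q, ∀ b ∈ Q, (h x a b ↔ c (φ x) (φ a) (φ b))) :
    Emb (insert x Q) h P c φ := by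
  refine ⟨?_, ?_, ?_⟩
  · intro a ha
    rcases Finset.mem_insert.1 ha with rfl | ha
    · exact hx
    · exact e.1 a ha
  · intro a ha b hb t
    rcases Finset.mem_insert.1 ha with ha' | ha'
    · rcases Finset.mem_insert.1 hb with hb' | hb'
      · rw [ha', hb']
      · exact absurd (ha' ▸ t.symm) (h1 b hb')
    · rcases Finset.mem_insert.1 hb with hb' | hb'
      · exact absurd (hb' ▸ t) (h1 a ha')
      · exact e.2.1 a ha' b hb' t
  · intro a ha b hb d hd
    rcases Finset.mem_insert.1 ha with ha' | ha' <;>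
    rcases Finset.mem_insert.1 hb with hb' | hb' <;>
    rcases Finset.mem_insert.1 hd with hd' | hd'
    · rw [ha', hb']; exact ⟨fun t => absurd rfl (sh.ne t), fun t => absurd rfl (sc.ne t)⟩
    · rw [ha', hb']; exact ⟨fun t => absurd rfl (sh.ne t), fun t => absurd rfl (sc.ne t)⟩
    · rw [ha', hd']; exact ⟨fun t => absurd rfl (sh.ne2 t), fun t => absurd rfl (sc.ne2 t)⟩
    · rw [ha']; exact h2 b hb' d hd'
    · rw [hb', hd']; exact ⟨fun t => absurd rfl (sh.ne3 t), fun t => absurd rfl (sc.ne3 t)⟩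
    · rw [hb', sh.iff1, sc.iff1]; exact h2 a ha' d hd'
    · rw [hd', sh.iff3, sc.iff3]; exact h2 a ha' b hb'
    · exact e.2.2 a ha' b hb' d hd'

variable {α : Type*} [Fintype α] [DecidableEq α]

/-- all lines are short -/
def Small (L : ℝ) (c : Tern α) : Prop := ∀ a b, ((univ.filter (c a b)).card : ℝ) ≤ L

omit [DecidableEq α] in
theorem Small.res {L : ℝ} {c : Tern α} (s : Small L c) (P : Finset α) : Small L (res P c) := by
  intro a b
  refine le_trans (Nat.cast_le.2 (Finset.card_le_card ?_)) (s a b)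
  intro z hz
  simp only [Finset.mem_filter, Finset.mem_univ, true_and] at hz ⊢
  exact hz.1

/-- a set of points on distinct nontrivial lines through `x` -/
def Fan (c : Tern α) (x : α) (Y : Finset α) : Prop :=
  (∀ y ∈ Y, ∃ z, c x y z) ∧ ∀ y ∈ Y, ∀ y' ∈ Y, ¬ c x y y'

/-- every point is on at least `d` nontrivial lines -/
def Core (d : ℝ) (P : Finset α) (c : Tern α) : Prop :=
  ∀ x ∈ P, ∃ Y, Fan c x Y ∧ d ≤ Y.card

theorem step_count (P : Finset α) (x : α) (d : ℝ) (S 𝒢 : Finset (Tern α))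
    (hS : ∀ c ∈ S, IsLin P c ∧ (∀ Y, Fan c x Y → (Y.card : ℝ) ≤ d) ∧ res (P.erase x) c ∈ 𝒢)
    (u : ℝ) (hu : 1 ≤ u) :
    (S.card : ℝ) ≤ 𝒢.card * Real.exp (d * Real.log u + (Fintype.card α) ^ 2 / u) := by
  have h1 := card_small_subsets (univ : Finset (α × α)) u hu d
  have h2 := card_le_of_rel S
    (𝒢 ×ˢ ((univ : Finset (α × α)).powerset.filter (fun T => (T.card : ℝ) ≤ d)))
    (fun c p => p.1 = res (P.erase x) c ∧ (∀ q ∈ p.2, c x q.1 q.2) ∧
      ∀ u v, c x u v → ∃ q ∈ p.2, u = q.1 ∨ c x q.1 u) ?_ ?_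
  · rw [Finset.card_product] at h2
    have h3 : (S.card : ℝ) ≤ 𝒢.card * (((univ : Finset (α × α)).powerset.filter
      (fun T => (T.card : ℝ) ≤ d)).card : ℝ) := by exact_mod_cast h2
    refine h3.trans (mul_le_mul_of_nonneg_left (h1.trans (le_of_eq ?_)) (by positivity))
    simp [sq]
  · intro c hc
    obtain ⟨l, hd, hG⟩ := hS c hc
    obtain ⟨Y, hY, hmax⟩ := Finset.exists_max_image
      ((univ : Finset (Finset α)).filter (Fan c x)) Finset.card ⟨∅, by simp [Fan]⟩
    have hY' : Fan c x Y := (Finset.mem_filter.1 hY).2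
    have hz := hY'.1
    have : Nonempty α := ⟨x⟩
    choose! z hz using hz
    refine ⟨(res (P.erase x) c, Y.image (fun y => (y, z y))), ?_, rfl, ?_, ?_⟩
    · simp only [Finset.mem_product, hG, true_and, Finset.mem_filter, Finset.mem_powerset,
        Finset.subset_univ]
      exact le_trans (Nat.cast_le.2 Finset.card_image_le) (hd Y hY')
    · intro q hq
      obtain ⟨y, hy, rfl⟩ := Finset.mem_image.1 hq
      exact hz y hy
    · intro u v huv
      by_contra hcon
      push Not at hcon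
      have h3 : ∀ y ∈ Y, u ≠ y ∧ ¬ c x y u := fun y hy =>
        hcon (y, z y) (Finset.mem_image_of_mem _ hy)
      have h4 : Fan c x (insert u Y) := by
        constructor
        · intro y hy
          rcases Finset.mem_insert.1 hy with hy' | hy'
          · exact ⟨v, hy' ▸ huv⟩
          · exact hY'.1 y hy'
        · intro y hy y' hy' t
          rcases Finset.mem_insert.1 hy with h5 | h5 <;>
          rcases Finset.mem_insert.1 hy' with h6 | h6
          · exact l.ne3 t (h5.trans h6.symm)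
          · exact (h3 y' h6).2 (l.sw2 (h5 ▸ t))
          · exact (h3 y h5).2 (h6 ▸ t)
          · exact hY'.2 y h5 y' h6 t
      have h5 := hmax (insert u Y) (by simpa using h4)
      rw [Finset.card_insert_of_notMem (fun hu => (h3 u hu).1 rfl)] at h5
      omega
  · have key : ∀ c c' : Tern α, IsLin P c → IsLin P c' → res (P.erase x) c = res (P.erase x) c' →
        ∀ T : Finset (α × α), (∀ q ∈ T, c x q.1 q.2) → (∀ q ∈ T, c' x q.1 q.2) →
        (∀ u v, c x u v → ∃ q ∈ T, u = q.1 ∨ c x q.1 u) → ∀ a b d, c a b d → c' a b d := by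
      intro c c' l l' e T h3 h4 h5
      have out : ∀ a b d, c a b d → a ≠ x → b ≠ x → d ≠ x → c' a b d := by
        intro a b d t ha hb hd
        have : res (P.erase x) c a b d :=
          ⟨t, Finset.mem_erase.2 ⟨ha, l.mem t⟩, Finset.mem_erase.2 ⟨hb, l.mem (l.sw1 t)⟩,
            Finset.mem_erase.2 ⟨hd, l.mem (l.rot' t)⟩⟩
        rw [e] at this
        exact this.1
      have inn : ∀ u v, c x u v → c' x u v := by
        intro u v t
        obtain ⟨⟨y, z⟩, hq, hu⟩ := h5 u v t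
        have a1 : c x y z := h3 _ hq
        have a2 : c' x y z := h4 _ hq
        have hv : v = y ∨ c x y v := by
          rcases hu with rfl | hu
          · exact Or.inr t
          · by_cases hvy : v = y
            · exact Or.inl hvy
            · exact Or.inr (l.tr (l.sw2 hu) t (Ne.symm hvy))
        have tr : ∀ w, (w = y ∨ c x y w) → (w = y ∨ c' x y w) := by
          rintro w (hw | hw)
          · exact Or.inl hw
          · right
            by_cases hwz : w = z
            · exact hwz ▸ a2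
            · have b1 : c y z w := l.tr (l.sw1 a1) (l.sw1 hw) (Ne.symm hwz)
              have b2 := out y z w b1 (l.ne a1).symm (l.ne2 a1).symm (l.ne2 hw).symm
              exact l'.sw1 (l'.tr (l'.rot a2) b2 (l.ne2 hw))
        rcases tr u hu with hu | hu <;> rcases tr v hv with hv | hv
        · exact absurd (hu.trans hv.symm) (l.ne3 t)
        · exact hu ▸ hv
        · exact hv ▸ l'.sw2 hu
        · exact l'.tr hu hv (l.ne3 t)
      intro a b d t
      by_cases ha : a = x
      · exact ha ▸ inn b d (ha ▸ t)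
      by_cases hb : b = x
      · exact hb ▸ l'.sw1 (inn a d (hb ▸ l.sw1 t))
      by_cases hd : d = x
      · exact hd ▸ l'.rot (inn a b (hd ▸ l.rot' t))
      exact out a b d t ha hb hd
    rintro c hc c' hc' ⟨c0, T⟩ - ⟨e1, e2, e3⟩ ⟨e1', e2', e3'⟩
    have e : res (P.erase x) c = res (P.erase x) c' := e1.symm.trans e1'
    funext a b d
    apply propext
    exact ⟨key c c' (hS c hc).1 (hS c' hc').1 e T e2 e2' e3 a b d,
      key c' c (hS c' hc').1 (hS c hc).1 e.symm T e2' e2 e3' a b d⟩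

theorem peel_count (𝒞 : Finset α → Finset (Tern α)) (h1 : ∀ P, ∀ c ∈ 𝒞 P, IsLin P c)
    (h2 : ∀ P, ∀ c ∈ 𝒞 P, ∀ x, res (P.erase x) c ∈ 𝒞 (P.erase x)) (d G : ℝ)
    (h3 : ∀ P, (((𝒞 P).filter (Core d P)).card : ℝ) ≤ G) (u : ℝ) (hu : 1 ≤ u) (P : Finset α) :
    ((𝒞 P).card : ℝ) ≤ G * (1 + Fintype.card α *
      Real.exp (d * Real.log u + (Fintype.card α) ^ 2 / u)) ^ P.card := by
  set B := Real.exp (d * Real.log u + (Fintype.card α) ^ 2 / u) with hB
  have hB0 : 0 < B := Real.exp_pos _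
  have hG : 0 ≤ G := le_trans (by positivity) (h3 ∅)
  induction P using Finset.strongInduction with
  | H P ih =>
    have e1 := Finset.card_filter_add_card_filter_not (s := 𝒞 P) (Core d P)
    have e2 : (((𝒞 P).filter (fun c => ¬ Core d P c)).card : ℝ) ≤
        P.card * (G * (1 + Fintype.card α * B) ^ (P.card - 1) * B) := by
      refine card_le_mul_of_rel _ P (fun c x => ∀ Y, Fan c x Y → (Y.card : ℝ) ≤ d) _ ?_ ?_
      · intro c hc
        have := (Finset.mem_filter.1 hc).2
        simp only [Core, not_forall, not_exists, not_and, not_le] at this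
        obtain ⟨x, hx, hY⟩ := this
        exact ⟨x, hx, fun Y hY' => (hY Y hY').le⟩
      · intro x hx
        refine (step_count P x d _ (𝒞 (P.erase x)) ?_ u hu).trans ?_
        · intro c hc
          simp only [Finset.mem_filter] at hc
          exact ⟨h1 P c hc.1.1, hc.2, h2 P c hc.1.1 x⟩
        · have := ih _ (Finset.erase_ssubset hx)
          rw [Finset.card_erase_of_mem hx] at this
          exact mul_le_mul_of_nonneg_right this hB0.le
    have e3 : ((𝒞 P).card : ℝ) = ((𝒞 P).filter (Core d P)).card +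
        ((𝒞 P).filter (fun c => ¬ Core d P c)).card := by exact_mod_cast e1.symm
    have e4 := h3 P
    rcases Nat.eq_zero_or_pos P.card with h0 | h0
    · rw [h0] at e2 ⊢
      simp only [Nat.cast_zero, zero_mul, pow_zero, mul_one] at e2 ⊢
      linarith
    · obtain ⟨p, hp⟩ : ∃ p, P.card = p + 1 := ⟨P.card - 1, by omega⟩
      have e5 : (P.card : ℝ) ≤ Fintype.card α := Nat.cast_le.2 (Finset.card_le_univ P)
      have e6 : (1 : ℝ) ≤ (1 + Fintype.card α * B) ^ p := one_le_pow₀ (by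
        have : 0 ≤ Fintype.card α * B := by positivity
        linarith)
      have e7 : (P.card : ℝ) * (G * (1 + Fintype.card α * B) ^ (P.card - 1) * B) ≤
          Fintype.card α * (G * (1 + Fintype.card α * B) ^ p * B) := by
        rw [hp, Nat.add_sub_cancel, ← hp]
        gcongr
      rw [hp, pow_succ]
      have e8 : G ≤ G * (1 + Fintype.card α * B) ^ p := le_mul_of_one_le_right hG e6
      nlinarith

theorem remove_count (P X : Finset α) (S 𝒢 : Finset (Tern α))
    (hS : ∀ c ∈ S, IsLin P c ∧ res (P \ X) c ∈ 𝒢) (u : ℝ) (hu : 1 ≤ u) :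
    (S.card : ℝ) ≤ 𝒢.card *
      Real.exp (Fintype.card α * Real.log u + (Fintype.card α) ^ 2 / u) ^ X.card := by
  induction X using Finset.induction_on generalizing 𝒢 with
  | empty =>
    simp only [Finset.card_empty, pow_zero, mul_one, Nat.cast_le]
    refine Finset.card_le_card ?_
    intro c hc
    obtain ⟨l, hG⟩ := hS c hc
    have : res (P \ ∅) c = c := by
      funext a b d
      apply propext
      simp only [res, Finset.sdiff_empty]
      exact ⟨fun t => t.1, fun t => ⟨t, l.mem t, l.mem (l.sw1 t), l.mem (l.rot' t)⟩⟩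
    rwa [this] at hG
  | insert x X hx ih =>
    set 𝒢' := (univ : Finset (Tern α)).filter
      (fun c => IsLin (P \ X) c ∧ res ((P \ X).erase x) c ∈ 𝒢) with h𝒢'
    have h1 := step_count (P \ X) x (Fintype.card α) 𝒢' 𝒢 (by
      intro c hc
      have := (Finset.mem_filter.1 hc).2
      exact ⟨this.1, fun Y _ => Nat.cast_le.2 (Finset.card_le_univ Y), this.2⟩) u hu
    have h2 := ih 𝒢' (by
      intro c hc
      obtain ⟨l, hG⟩ := hS c hc
      refine ⟨l, Finset.mem_filter.2 ⟨Finset.mem_univ _, l.res _, ?_⟩⟩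
      rw [res_res (Finset.erase_subset _ _)]
      rwa [Finset.sdiff_insert] at hG)
    rw [Finset.card_insert_of_notMem hx, pow_succ', ← mul_assoc]
    exact h2.trans (mul_le_mul_of_nonneg_right h1 (by positivity))

end Pool.Agent.MP_c3fbfc_co

end MrgPart0

-- ======== part 1: formerly Pool.Agent.MP_c3fbfc_co.Closure
section MrgPart1

/-! Unavoidable configurations and their closure properties. -/

namespace Pool.Agent.MP_c3fbfc_co

open Finset Filter
open scoped Classical

theorem ev_pow (a b C : ℝ) (hab : a < b) :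
    ∀ᶠ k : ℕ in atTop, C * (k : ℝ) ^ a * (Real.log k + 1) ≤ (k : ℝ) ^ b := by
  have hε : 0 < b - a := by linarith
  have hc : 0 < 1 / (2 * (|C| + 1)) := by positivity
  have h1 := (isLittleO_log_rpow_atTop hε).def hc
  have h2 := (tendsto_rpow_atTop hε).eventually_ge_atTop (2 * (|C| + 1))
  have h3 := (h1.and (h2.and (eventually_ge_atTop (1 : ℝ))))
  filter_upwards [tendsto_natCast_atTop_atTop.eventually h3] with k hk
  obtain ⟨k1, k2, k3⟩ := hk
  have k0 : (0 : ℝ) < k := by linarith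
  have e1 : 0 ≤ Real.log k := Real.log_nonneg k3
  have e2 : 0 < (k : ℝ) ^ (b - a) := Real.rpow_pos_of_pos k0 _
  rw [Real.norm_of_nonneg e1, Real.norm_of_nonneg e2.le] at k1
  have e3 : (k : ℝ) ^ b = (k : ℝ) ^ a * (k : ℝ) ^ (b - a) := by
    rw [← Real.rpow_add k0]; ring_nf
  have e4 : 0 < (k : ℝ) ^ a := Real.rpow_pos_of_pos k0 _
  have e5 : (|C| + 1) * (Real.log k + 1) ≤ (k : ℝ) ^ (b - a) := by
    have : (|C| + 1) * Real.log k ≤ (k : ℝ) ^ (b - a) / 2 := by
      calc (|C| + 1) * Real.log k ≤ (|C| + 1) * (1 / (2 * (|C| + 1)) * (k : ℝ) ^ (b - a)) := by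
            gcongr
        _ = _ := by field_simp
    linarith
  have e6 : C * (Real.log k + 1) ≤ (|C| + 1) * (Real.log k + 1) := by
    have := le_abs_self C
    gcongr
    linarith
  rw [e3]
  nlinarith

theorem ev_pow' (a b C : ℝ) (hab : a < b) :
    ∀ᶠ k : ℕ in atTop, C * (k : ℝ) ^ a ≤ (k : ℝ) ^ b := by
  filter_upwards [ev_pow a b |C| hab, eventually_ge_atTop 1] with k hk k1
  have k3 : (1 : ℝ) ≤ k := by exact_mod_cast k1
  have e1 : 0 ≤ Real.log k := Real.log_nonneg k3
  have e4 : 0 < (k : ℝ) ^ a := Real.rpow_pos_of_pos (by linarith) _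
  have := le_abs_self C
  have h2 : 0 ≤ |C| * (k : ℝ) ^ a * Real.log k := by positivity
  nlinarith

/-- linear spaces with short lines avoiding a configuration -/
noncomputable def cls {α β : Type*} [Fintype α] [DecidableEq α] (Q : Finset β) (h : Tern β)
    (L : ℝ) (P : Finset α) : Finset (Tern α) :=
  univ.filter (fun c => IsLin P c ∧ Small L c ∧ ¬ ∃ φ, Emb Q h P c φ)

theorem mem_cls {α β : Type*} [Fintype α] [DecidableEq α] {Q : Finset β} {h : Tern β}
    {L : ℝ} {P : Finset α} {c : Tern α} :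
    c ∈ cls Q h L P ↔ IsLin P c ∧ Small L c ∧ ¬ ∃ φ, Emb Q h P c φ := by
  simp [cls]

/-- the configuration is avoided by only `exp (o (k^2))` linear spaces with short lines -/
def U {β : Type*} (Q : Finset β) (h : Tern β) : Prop :=
  ∀ η : ℝ, 0 < η → ∀ᶠ k : ℕ in atTop, ∀ P : Finset (Fin k),
    ((cls Q h ((k : ℝ) ^ (11 / 12 : ℝ)) P).card : ℝ) ≤ Real.exp (η * k ^ 2)

variable {β : Type*}

theorem U_of_core {Q : Finset β} {h : Tern β} (θ : ℝ) (hθ0 : 0 ≤ θ) (hθ : θ < 1)
    (H : ∀ η : ℝ, 0 < η → ∀ᶠ k : ℕ in atTop, ∀ P : Finset (Fin k),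
      (((cls Q h ((k : ℝ) ^ (11 / 12 : ℝ)) P).filter (Core ((k : ℝ) ^ θ) P)).card : ℝ) ≤
        Real.exp (η * k ^ 2)) : U Q h := by
  intro η hη
  filter_upwards [H (η / 2) (by positivity), ev_pow (1 + θ) 2 (8 / η) (by linarith),
    eventually_ge_atTop 1] with k hk h1 k1 P
  have k3 : (1 : ℝ) ≤ k := by exact_mod_cast k1
  have k0 : (0 : ℝ) < k := by linarith
  have h2 := peel_count (cls Q h ((k : ℝ) ^ (11 / 12 : ℝ)))
    (fun P c hc => (mem_cls.1 hc).1)
    (fun P c hc x => by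
      obtain ⟨l, s, f⟩ := mem_cls.1 hc
      refine mem_cls.2 ⟨l.res _, s.res _, ?_⟩
      rintro ⟨φ, e⟩
      exact f ⟨φ, e.of_res (Finset.erase_subset _ _)⟩)
    ((k : ℝ) ^ θ) _ hk ((k : ℝ) ^ 2) (one_le_pow₀ k3) P
  refine h2.trans ?_
  simp only [Fintype.card_fin]
  rw [div_self (by positivity), Real.log_pow]
  have e1 : 0 ≤ Real.log k := Real.log_nonneg k3
  have e2 : 1 ≤ (k : ℝ) ^ θ := Real.one_le_rpow k3 hθ0
  set B := Real.exp ((k : ℝ) ^ θ * ((2 : ℕ) * Real.log k) + 1) with hB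
  have e3 : 1 ≤ B := Real.one_le_exp (by positivity)
  have e4 : 1 + k * B ≤ Real.exp (4 * (k : ℝ) ^ θ * (Real.log k + 1)) := by
    have a1 : (2 : ℝ) ≤ Real.exp 1 := by linarith [Real.add_one_le_exp (1 : ℝ)]
    have a2 : 1 ≤ k * B := one_le_mul_of_one_le_of_one_le k3 e3
    calc 1 + k * B ≤ Real.exp 1 * (k * B) := by nlinarith
      _ = Real.exp (1 + Real.log k + ((k : ℝ) ^ θ * ((2 : ℕ) * Real.log k) + 1)) := by
        rw [Real.exp_add, Real.exp_add, Real.exp_log k0, hB]; ring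
      _ ≤ _ := by
        rw [Real.exp_le_exp]
        push_cast
        nlinarith
  have e5 : P.card ≤ k := by simpa using Finset.card_le_univ P
  have e6 : (1 + k * B) ^ P.card ≤ Real.exp (η / 2 * k ^ 2) := by
    calc (1 + k * B) ^ P.card ≤ (1 + k * B) ^ k :=
          pow_le_pow_right₀ (by have : 0 ≤ k * B := by positivity
                                linarith) e5
      _ ≤ Real.exp (4 * (k : ℝ) ^ θ * (Real.log k + 1)) ^ k := by gcongr
      _ = Real.exp (k * (4 * (k : ℝ) ^ θ * (Real.log k + 1))) := by rw [Real.exp_nat_mul]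
      _ ≤ _ := by
        rw [Real.exp_le_exp]
        rw [Real.rpow_add k0, Real.rpow_one, Real.rpow_two] at h1
        have := mul_le_mul_of_nonneg_left h1 (show 0 ≤ η / 2 by positivity)
        calc (k : ℝ) * (4 * (k : ℝ) ^ θ * (Real.log k + 1)) =
            η / 2 * (8 / η * (k * (k : ℝ) ^ θ) * (Real.log k + 1)) := by field_simp; ring
          _ ≤ _ := this
  calc _ ≤ Real.exp (η / 2 * k ^ 2) * Real.exp (η / 2 * k ^ 2) := by gcongr
    _ = _ := by rw [← Real.exp_add]; ring_nf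

theorem U.of_imp {γ : Type*} {Q : Finset β} {h : Tern β} {Q' : Finset γ} {h' : Tern γ}
    (H : U Q h) (ψ : γ → β) (e : Emb Q' h' Q h ψ) : U Q' h' := by
  intro η hη
  filter_upwards [H η hη] with k hk P
  refine le_trans (Nat.cast_le.2 (Finset.card_le_card ?_)) (hk P)
  intro c hc
  obtain ⟨l, s, f⟩ := mem_cls.1 hc
  refine mem_cls.2 ⟨l, s, ?_⟩
  rintro ⟨φ, e'⟩
  refine f ⟨φ ∘ ψ, fun a ha => e'.1 _ (e.1 a ha), fun a ha b hb t => ?_,
    fun a ha b hb d hd => ?_⟩
  · exact e.2.1 a ha b hb (e'.2.1 _ (e.1 a ha) _ (e.1 b hb) t)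
  · exact (e.2.2 a ha b hb d hd).trans (e'.2.2 _ (e.1 a ha) _ (e.1 b hb) _ (e.1 d hd))

theorem U_empty (h : Tern β) : U (∅ : Finset β) h := by
  intro η hη
  filter_upwards [eventually_ge_atTop 1] with k hk P
  have : cls (∅ : Finset β) h ((k : ℝ) ^ (11 / 12 : ℝ)) P = ∅ := by
    refine Finset.eq_empty_of_forall_notMem ?_
    intro c hc
    exact (mem_cls.1 hc).2.2 ⟨fun _ => ⟨0, hk⟩, by simp [Emb]⟩
  rw [this]
  simpa using (Real.exp_pos _).le

theorem U_single {h : Tern β} (sh : IsSym h) (x : β) : U {x} h := by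
  intro η hη
  filter_upwards with k P
  have : (cls {x} h ((k : ℝ) ^ (11 / 12 : ℝ)) P).card ≤ 1 := by
    refine Finset.card_le_one.2 ?_
    have key : ∀ c ∈ cls {x} h ((k : ℝ) ^ (11 / 12 : ℝ)) P, c = fun _ _ _ => False := by
      intro c hc
      obtain ⟨l, s, f⟩ := mem_cls.1 hc
      funext a b d
      apply propext
      refine ⟨fun t => f ⟨fun _ => a, ?_⟩, False.elim⟩
      refine ⟨fun _ _ => l.mem t, by simp, ?_⟩
      simp only [Finset.mem_singleton]
      rintro _ rfl _ rfl _ rfl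
      exact ⟨fun t => absurd rfl (sh.ne t), fun t => absurd rfl (l.ne t)⟩
    intro c hc c' hc'
    rw [key c hc, key c' hc']
  refine le_trans (Nat.cast_le.2 this) ?_
  simpa using by positivity

variable {α : Type*} [Fintype α] [DecidableEq α]

/-- points of a copy and points on lines spanned by it -/
noncomputable def bad (Q : Finset β) (c : Tern α) (φ : β → α) : Finset α :=
  Q.image φ ∪ (Q ×ˢ Q).biUnion (fun p => univ.filter (c (φ p.1) (φ p.2)))

theorem card_bad {L : ℝ} {c : Tern α} (s : Small L c) (Q : Finset β) (φ : β → α) :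
    ((bad Q c φ).card : ℝ) ≤ Q.card + Q.card ^ 2 * L := by
  have h1 : (bad Q c φ).card ≤ Q.card +
      ∑ p ∈ Q ×ˢ Q, (univ.filter (c (φ p.1) (φ p.2))).card :=
    (Finset.card_union_le _ _).trans (add_le_add Finset.card_image_le Finset.card_biUnion_le)
  have h2 : ((bad Q c φ).card : ℝ) ≤ Q.card +
      ∑ p ∈ Q ×ˢ Q, ((univ.filter (c (φ p.1) (φ p.2))).card : ℝ) := by exact_mod_cast h1
  refine h2.trans (add_le_add le_rfl ?_)
  refine (Finset.sum_le_sum (fun p _ => s _ _)).trans ?_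
  simp [sq]

theorem notMem_bad {Q : Finset β} {c : Tern α} {φ : β → α} {z : α} (hz : z ∉ bad Q c φ) :
    (∀ a ∈ Q, φ a ≠ z) ∧ ∀ a ∈ Q, ∀ b ∈ Q, ¬ c (φ a) (φ b) z := by
  simp only [bad, Finset.mem_union, Finset.mem_image, Finset.mem_biUnion, Finset.mem_product,
    Finset.mem_filter, Finset.mem_univ, true_and, not_or, not_exists, not_and, Prod.forall,
    and_imp] at hz
  exact ⟨hz.1, fun a ha b hb => hz.2 a b ha hb⟩

theorem exists_pendant {P : Finset α} {c : Tern α} (l : IsLin P c) {a : α} {Y : Finset α}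
    (hY : Fan c a Y) (B : Finset α) (hB : B.card < Y.card) :
    ∃ p q, c a p q ∧ p ∉ B ∧ q ∉ B := by
  by_contra hcon
  push Not at hcon
  have := card_le_of_rel Y B (fun y w => w = y ∨ c a y w) (by
    intro y hy
    obtain ⟨z, hz⟩ := hY.1 y hy
    by_cases hyB : y ∈ B
    · exact ⟨y, hyB, Or.inl rfl⟩
    · exact ⟨z, hcon y z hz hyB, Or.inr hz⟩) (by
    intro y hy y' hy' w _ h1 h2
    by_contra hne
    rcases h1 with h1 | h1 <;> rcases h2 with h2 | h2
    · exact hne (h1.symm.trans h2)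
    · exact hY.2 y' hy' y hy (h1 ▸ h2)
    · exact hY.2 y hy y' hy' (h2 ▸ h1)
    · exact hY.2 y hy y' hy' (l.tr (l.sw2 h1) (l.sw2 h2) hne))
  omega

theorem U.pendant {Q : Finset β} {h : Tern β} (sh : IsSym h) (H : U Q h) {a x y : β}
    (ha : a ∈ Q) (hx : x ∉ Q) (hy : y ∉ Q) (haxy : h a x y)
    (h1 : ∀ v ∈ Q, ∀ w ∈ Q, ¬ h x v w) (h2 : ∀ v ∈ Q, ∀ w ∈ Q, ¬ h y v w)
    (h3 : ∀ w ∈ Q, h y x w → w = a) : U (insert y (insert x Q)) h := by
  refine U_of_core (23 / 24) (by norm_num) (by norm_num) ?_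
  intro η hη
  filter_upwards [H η hη, ev_pow' (11 / 12) (23 / 24) (Q.card + Q.card ^ 2 + 1) (by norm_num),
    eventually_ge_atTop 1] with k hk k2 k1 P
  have k3 : (1 : ℝ) ≤ k := by exact_mod_cast k1
  refine le_trans (Nat.cast_le.2 (Finset.card_le_card ?_)) (hk P)
  intro c hc
  rw [Finset.mem_filter] at hc
  obtain ⟨l, s, f⟩ := mem_cls.1 hc.1
  refine mem_cls.2 ⟨l, s, ?_⟩
  rintro ⟨φ, e⟩
  obtain ⟨Y, hY, hYc⟩ := hc.2 (φ a) (e.1 a ha)
  have e1 : 1 ≤ (k : ℝ) ^ (11 / 12 : ℝ) := Real.one_le_rpow k3 (by norm_num)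
  have e2 := card_bad s Q φ
  have e3 : (bad Q c φ).card < Y.card := by
    have : (0 : ℝ) ≤ Q.card := by positivity
    have : ((bad Q c φ).card : ℝ) < Y.card := by nlinarith
    exact_mod_cast this
  obtain ⟨p, q, hpq, hp, hq⟩ := exists_pendant l hY _ e3
  obtain ⟨p1, p2⟩ := notMem_bad hp
  obtain ⟨q1, q2⟩ := notMem_bad hq
  have hxy : x ≠ y := sh.ne3 haxy
  set φ' : β → Fin k := fun v => if v = x then p else if v = y then q else φ v with hφ'
  have f1 : ∀ v ∈ Q, φ' v = φ v := by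
    intro v hv
    have a1 : v ≠ x := fun t => hx (t ▸ hv)
    have a2 : v ≠ y := fun t => hy (t ▸ hv)
    simp [hφ', a1, a2]
  have f2 : φ' x = p := by simp [hφ']
  have f3 : φ' y = q := by simp [hφ', hxy.symm]
  have e4 : Emb (insert x Q) h P c φ' := by
    refine (e.congr f1).insert sh l.toIsSym x (f2 ▸ l.mem (l.sw1 hpq)) ?_ ?_
    · intro v hv; rw [f1 v hv, f2]; exact p1 v hv
    · intro v hv w hw
      rw [f1 v hv, f1 w hw, f2]
      exact ⟨fun t => absurd t (h1 v hv w hw), fun t => absurd (l.rot t) (p2 v hv w hw)⟩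
  have key : ∀ w ∈ Q, (h y x w ↔ c q p (φ w)) := by
    intro w hw
    constructor
    · intro t
      rw [h3 w hw t]
      exact l.sw3 hpq
    · intro t
      by_cases hwa : w = a
      · rw [hwa]; exact sh.sw3 haxy
      · exfalso
        have a1 : φ w ≠ φ a := fun t' => hwa (e.2.1 w hw a ha t')
        exact q2 w hw a ha (l.rot (l.tr t (l.sw3 hpq) a1))
  refine f ⟨φ', e4.insert sh l.toIsSym y (f3 ▸ l.mem (l.rot' hpq)) ?_ ?_⟩
  · intro v hv
    rcases Finset.mem_insert.1 hv with hv | hv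
    · rw [hv, f2, f3]; exact l.ne3 hpq
    · rw [f1 v hv, f3]; exact q1 v hv
  · intro v hv w hw
    rcases Finset.mem_insert.1 hv with hv | hv <;> rcases Finset.mem_insert.1 hw with hw | hw
    · rw [hv, hw]
      exact ⟨fun t => absurd rfl (sh.ne3 t), fun t => absurd rfl (l.ne3 t)⟩
    · rw [hv, f2, f3, f1 w hw]; exact key w hw
    · rw [hw, f2, f3, f1 v hv, sh.iff2, l.toIsSym.iff2]; exact key v hv
    · rw [f1 v hv, f1 w hw, f3]
      exact ⟨fun t => absurd t (h2 v hv w hw), fun t => absurd (l.rot t) (q2 v hv w hw)⟩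

omit [Fintype α] in
theorem disjoint_copies [Nonempty α] (Q : Finset β) (h : Tern β) (P : Finset α) (c : Tern α)
    (m : ℕ) :
    (∃ X : Finset α, X.card ≤ m * Q.card ∧ ¬ ∃ φ, Emb Q h (P \ X) (res (P \ X) c) φ) ∨
    ∃ Φ : ℕ → β → α, (∀ i < m, Emb Q h P c (Φ i)) ∧
      ∀ i < m, ∀ j < m, i ≠ j → ∀ u ∈ Q, ∀ v ∈ Q, Φ i u ≠ Φ j v := by
  induction m with
  | zero => exact Or.inr ⟨fun _ _ => Classical.arbitrary α, by simp, by simp⟩
  | succ m ih =>
    rcases ih with ⟨X, hX, hf⟩ | ⟨Φ, h1, h2⟩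
    · exact Or.inl ⟨X, hX.trans (Nat.mul_le_mul_right _ (Nat.le_succ m)), hf⟩
    set X := (range m).biUnion (fun i => Q.image (Φ i)) with hX
    by_cases hf : ∃ φ, Emb Q h (P \ X) (res (P \ X) c) φ
    · obtain ⟨φ, e⟩ := hf
      have h3 : ∀ i < m, ∀ u ∈ Q, ∀ v ∈ Q, Φ i u ≠ φ v := by
        intro i hi u hu v hv t
        refine (Finset.mem_sdiff.1 (e.1 v hv)).2 ?_
        rw [hX, Finset.mem_biUnion]
        exact ⟨i, Finset.mem_range.2 hi, Finset.mem_image.2 ⟨u, hu, t⟩⟩
      refine Or.inr ⟨fun i => if i = m then φ else Φ i, ?_, ?_⟩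
      · intro i hi
        by_cases him : i = m
        · simp only [him, if_true]; exact e.of_res Finset.sdiff_subset
        · simp only [him, if_false]; exact h1 i (by omega)
      · intro i hi j hj hij u hu v hv
        by_cases him : i = m
        · have hjm : j ≠ m := fun t => hij (him.trans t.symm)
          simp only [him, hjm, if_true, if_false]
          exact (h3 j (by omega) v hv u hu).symm
        · by_cases hjm : j = m
          · simp only [him, hjm, if_true, if_false]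
            exact h3 i (by omega) u hu v hv
          · simp only [him, hjm, if_false]
            exact h2 i (by omega) j (by omega) hij u hu v hv
    · refine Or.inl ⟨X, ?_, hf⟩
      refine Finset.card_biUnion_le.trans ?_
      refine (Finset.sum_le_sum (fun i _ => Finset.card_image_le)).trans ?_
      simp only [Finset.sum_const, Finset.card_range, smul_eq_mul]
      exact Nat.mul_le_mul_right _ (Nat.le_succ m)

theorem exists_good_pair {L : ℝ} {c : Tern α} (s : Small L c) (Q1 Q2 : Finset β) (m : ℕ)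
    (b : ℝ) (hb1 : Q1.card + Q1.card ^ 2 * L ≤ b) (hb2 : Q2.card + Q2.card ^ 2 * L ≤ b)
    (hm : 2 * b < m) (Φ Ψ : ℕ → β → α)
    (hΦ : ∀ i < m, ∀ j < m, i ≠ j → ∀ u ∈ Q1, ∀ v ∈ Q1, Φ i u ≠ Φ j v)
    (hΨ : ∀ i < m, ∀ j < m, i ≠ j → ∀ u ∈ Q2, ∀ v ∈ Q2, Ψ i u ≠ Ψ j v) :
    ∃ i < m, ∃ j < m, (∀ v ∈ Q2, Ψ j v ∉ bad Q1 c (Φ i)) ∧ ∀ u ∈ Q1, Φ i u ∉ bad Q2 c (Ψ j) := by
  by_contra hcon
  push Not at hcon
  have aux : ∀ (Q Q' : Finset β) (φ : β → α) (Θ : ℕ → β → α),
      (∀ i < m, ∀ j < m, i ≠ j → ∀ u ∈ Q', ∀ v ∈ Q', Θ i u ≠ Θ j v) →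
      (((range m).filter (fun j => ∃ v ∈ Q', Θ j v ∈ bad Q c φ)).card : ℝ) ≤
        Q.card + Q.card ^ 2 * L := by
    intro Q Q' φ Θ hΘ
    refine le_trans (Nat.cast_le.2 ?_) (card_bad s Q φ)
    refine card_le_of_rel _ _ (fun j w => ∃ v ∈ Q', Θ j v = w) ?_ ?_
    · intro j hj
      obtain ⟨v, hv, hw⟩ := (Finset.mem_filter.1 hj).2
      exact ⟨_, hw, v, hv, rfl⟩
    · rintro j hj j' hj' w - ⟨v, hv, t⟩ ⟨v', hv', t'⟩
      by_contra hne
      exact hΘ j (Finset.mem_range.1 (Finset.mem_filter.1 hj).1) j'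
        (Finset.mem_range.1 (Finset.mem_filter.1 hj').1) hne v hv v' hv' (t.trans t'.symm)
  have h1 := double_count (range m) (range m) (fun i j => ¬ ∃ v ∈ Q2, Ψ j v ∈ bad Q1 c (Φ i))
    (m - b) b (by
      intro i _
      have a1 := aux Q1 Q2 (Φ i) Ψ hΨ
      have a2 := Finset.card_filter_add_card_filter_not (s := range m)
        (fun j => ∃ v ∈ Q2, Ψ j v ∈ bad Q1 c (Φ i))
      rw [Finset.card_range] at a2
      have a3 : (((range m).filter (fun j => ∃ v ∈ Q2, Ψ j v ∈ bad Q1 c (Φ i))).card : ℝ) +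
        ((range m).filter (fun j => ¬ ∃ v ∈ Q2, Ψ j v ∈ bad Q1 c (Φ i))).card = m := by
        exact_mod_cast a2
      linarith) (by
      intro j hj
      refine le_trans (Nat.cast_le.2 (Finset.card_le_card ?_)) ((aux Q2 Q1 (Ψ j) Φ hΦ).trans hb2)
      intro i hi
      rw [Finset.mem_filter] at hi ⊢
      refine ⟨hi.1, hcon i (Finset.mem_range.1 hi.1) j (Finset.mem_range.1 hj) ?_⟩
      intro v hv t
      exact hi.2 ⟨v, hv, t⟩)
  rw [Finset.card_range] at h1
  have h2 : (0 : ℝ) ≤ b := le_trans (le_trans (by positivity) (card_bad s Q1 (Φ 0))) hb1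
  nlinarith

theorem U.union {Q1 Q2 : Finset β} {h : Tern β} (sh : IsSym h) (H1 : U Q1 h) (H2 : U Q2 h)
    (hd : Disjoint Q1 Q2) (h12 : ∀ u ∈ Q1, ∀ v ∈ Q2, ∀ w ∈ Q1 ∪ Q2, ¬ h u v w) :
    U (Q1 ∪ Q2) h := by
  intro η hη
  set v : ℝ := Q1.card + Q2.card with hv
  filter_upwards [H1 (η / 4) (by positivity), H2 (η / 4) (by positivity),
    ev_pow (11 / 12 + 1) 2 ((2 * (v + v ^ 2) + 2) * v * 2 * (4 / η)) (by norm_num),
    ev_pow' 1 2 (8 / η) (by norm_num),
    eventually_ge_atTop 1] with k hk1 hk2 k2 k4 k1 P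
  have k3 : (1 : ℝ) ≤ k := by exact_mod_cast k1
  have k0 : (0 : ℝ) < k := by linarith
  have : Nonempty (Fin k) := ⟨⟨0, k1⟩⟩
  set L := (k : ℝ) ^ (11 / 12 : ℝ) with hL
  have e1 : 1 ≤ L := Real.one_le_rpow k3 (by norm_num)
  have v1 : (Q1.card : ℝ) ≤ v := by rw [hv]; linarith [Nat.cast_nonneg (α := ℝ) Q2.card]
  have v2 : (Q2.card : ℝ) ≤ v := by rw [hv]; linarith [Nat.cast_nonneg (α := ℝ) Q1.card]
  have v0 : 0 ≤ v := le_trans (by positivity) v1
  set b : ℝ := (v + v ^ 2) * L with hb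
  have hb' : ∀ q : ℝ, 0 ≤ q → q ≤ v → q + q ^ 2 * L ≤ b := by
    intro q q0 q1
    have : q ^ 2 ≤ v ^ 2 := by gcongr
    rw [hb]
    nlinarith
  set m := ⌊2 * b⌋₊ + 1 with hm
  have m1 : 2 * b < m := by rw [hm]; push_cast; exact Nat.lt_floor_add_one _
  have b0 : 0 ≤ b := by positivity
  have m2 : (m : ℝ) ≤ (2 * (v + v ^ 2) + 2) * L := by
    rw [hm]; push_cast
    have := Nat.floor_le (show 0 ≤ 2 * b by positivity)
    rw [hb] at this ⊢
    nlinarith
  have aux : ∀ Q : Finset β, (Q.card : ℝ) ≤ v →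
      (∀ P : Finset (Fin k), ((cls Q h L P).card : ℝ) ≤ Real.exp (η / 4 * k ^ 2)) →
      ∀ X : Finset (Fin k), ((univ.filter (fun c : Tern (Fin k) => X.card ≤ m * Q.card ∧
        IsLin P c ∧ res (P \ X) c ∈ cls Q h L (P \ X))).card : ℝ) ≤
          Real.exp (η / 4 * k ^ 2) * Real.exp (η / 4 * k ^ 2) := by
    intro Q hQ hk X
    by_cases hX : X.card ≤ m * Q.card
    swap
    · simp only [hX, false_and, Finset.filter_false, Finset.card_empty, Nat.cast_zero]
      positivity
    refine (remove_count P X _ (cls Q h L (P \ X)) (fun c hc => (Finset.mem_filter.1 hc).2.2)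
      k k3).trans ?_
    refine mul_le_mul (hk _) ?_ (by positivity) (by positivity)
    rw [← Real.exp_nat_mul, Real.exp_le_exp]
    simp only [Fintype.card_fin]
    have a1 : (X.card : ℝ) ≤ (2 * (v + v ^ 2) + 2) * L * v := by
      have : (X.card : ℝ) ≤ m * Q.card := by exact_mod_cast hX
      refine this.trans ?_
      gcongr
    have a2 : 0 ≤ Real.log k := Real.log_nonneg k3
    rw [Real.rpow_add k0, Real.rpow_one, Real.rpow_two, ← hL] at k2
    have a3 := mul_le_mul_of_nonneg_left k2 (show 0 ≤ η / 4 by positivity)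
    calc (X.card : ℝ) * (k * Real.log k + k ^ 2 / k) = X.card * (k * (Real.log k + 1)) := by
          field_simp
      _ ≤ (2 * (v + v ^ 2) + 2) * L * v * (k * (Real.log k + 1)) := by gcongr
      _ ≤ 2 * ((2 * (v + v ^ 2) + 2) * L * v * (k * (Real.log k + 1))) := by
          have : 0 ≤ (2 * (v + v ^ 2) + 2) * L * v * (k * (Real.log k + 1)) := by positivity
          linarith
      _ = η / 4 * ((2 * (v + v ^ 2) + 2) * v * 2 * (4 / η) * (L * k) * (Real.log k + 1)) := by
          field_simp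
      _ ≤ _ := a3
  have key := card_le_mul_of_rel (cls (Q1 ∪ Q2) h L P) (univ : Finset (Bool × Finset (Fin k)))
    (fun c p => p.2.card ≤ m * (if p.1 then Q1 else Q2).card ∧ IsLin P c ∧
      res (P \ p.2) c ∈ cls (if p.1 then Q1 else Q2) h L (P \ p.2))
    (Real.exp (η / 4 * k ^ 2) * Real.exp (η / 4 * k ^ 2)) ?_ ?_
  · refine key.trans ?_
    simp only [Finset.card_univ, Fintype.card_prod, Fintype.card_bool, Fintype.card_finset,
      Fintype.card_fin]
    have a1 : (2 : ℝ) ≤ Real.exp 1 := by linarith [Real.add_one_le_exp (1 : ℝ)]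
    have a2 : ((2 * 2 ^ k : ℕ) : ℝ) ≤ Real.exp (η / 2 * k ^ 2) := by
      push_cast
      rw [← pow_succ']
      calc (2 : ℝ) ^ (k + 1) ≤ Real.exp 1 ^ (k + 1) := by gcongr
        _ = Real.exp ((k + 1 : ℕ) * 1) := by rw [Real.exp_nat_mul]
        _ ≤ _ := by
          rw [Real.exp_le_exp]
          rw [Real.rpow_one, Real.rpow_two] at k4
          have a3 := mul_le_mul_of_nonneg_left k4 (show 0 ≤ η / 4 by positivity)
          have a4 : η / 4 * (8 / η * k) = 2 * k := by field_simp; ring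
          push_cast
          nlinarith
    calc _ ≤ Real.exp (η / 2 * k ^ 2) * (Real.exp (η / 4 * k ^ 2) * Real.exp (η / 4 * k ^ 2)) := by
          gcongr
      _ = _ := by rw [← Real.exp_add, ← Real.exp_add]; ring_nf
  · intro c hc
    obtain ⟨l, s, f⟩ := mem_cls.1 hc
    rcases disjoint_copies Q1 h P c m with ⟨X, hX, hf⟩ | ⟨Φ, a1, a2⟩
    · exact ⟨(true, X), Finset.mem_univ _, hX, l, mem_cls.2 ⟨l.res _, s.res _, hf⟩⟩
    rcases disjoint_copies Q2 h P c m with ⟨X, hX, hf⟩ | ⟨Ψ, a3, a4⟩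
    · exact ⟨(false, X), Finset.mem_univ _, hX, l, mem_cls.2 ⟨l.res _, s.res _, hf⟩⟩
    exfalso
    obtain ⟨i, hi, j, hj, g1, g2⟩ := exists_good_pair s Q1 Q2 m b (hb' _ (by positivity) v1)
      (hb' _ (by positivity) v2) m1 Φ Ψ a2 a4
    have e1 := a1 i hi
    have e2 := a3 j hj
    set φ : β → Fin k := fun u => if u ∈ Q1 then Φ i u else Ψ j u with hφ
    have f1 : ∀ u ∈ Q1, φ u = Φ i u := fun u hu => by simp [hφ, hu]
    have f2 : ∀ u ∈ Q2, φ u = Ψ j u := fun u hu => by
      simp [hφ, Finset.disjoint_right.1 hd hu]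
    have c12 : ∀ u ∈ Q1, ∀ v ∈ Q2, ∀ w ∈ Q1 ∪ Q2, ¬ c (φ u) (φ v) (φ w) := by
      intro u hu v hv w hw t
      rcases Finset.mem_union.1 hw with hw | hw
      · rw [f1 u hu, f2 v hv, f1 w hw] at t
        exact (notMem_bad (g1 v hv)).2 u hu w hw (l.sw2 t)
      · rw [f1 u hu, f2 v hv, f2 w hw] at t
        exact (notMem_bad (g2 u hu)).2 v hv w hw (l.rot t)
    refine f ⟨φ, ?_, ?_, ?_⟩
    · intro u hu
      rcases Finset.mem_union.1 hu with hu | hu
      · rw [f1 u hu]; exact e1.1 u hu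
      · rw [f2 u hu]; exact e2.1 u hu
    · intro u hu v hv t
      rcases Finset.mem_union.1 hu with hu | hu <;> rcases Finset.mem_union.1 hv with hv | hv
      · rw [f1 u hu, f1 v hv] at t; exact e1.2.1 u hu v hv t
      · rw [f1 u hu, f2 v hv] at t; exact absurd t ((notMem_bad (g1 v hv)).1 u hu)
      · rw [f2 u hu, f1 v hv] at t; exact absurd t.symm ((notMem_bad (g1 u hu)).1 v hv)
      · rw [f2 u hu, f2 v hv] at t; exact e2.2.1 u hu v hv t
    · intro u hu v hv w hw
      rcases Finset.mem_union.1 hu with hu' | hu' <;> rcases Finset.mem_union.1 hv with hv' | hv'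
      · rcases Finset.mem_union.1 hw with hw' | hw'
        · rw [f1 u hu', f1 v hv', f1 w hw']; exact e1.2.2 u hu' v hv' w hw'
        · exact ⟨fun t => absurd (sh.sw2 t) (h12 u hu' w hw' v hv),
            fun t => absurd (l.sw2 t) (c12 u hu' w hw' v hv)⟩
      · exact ⟨fun t => absurd t (h12 u hu' v hv' w hw), fun t => absurd t (c12 u hu' v hv' w hw)⟩
      · exact ⟨fun t => absurd (sh.sw1 t) (h12 v hv' u hu' w hw),
          fun t => absurd (l.sw1 t) (c12 v hv' u hu' w hw)⟩
      · rcases Finset.mem_union.1 hw with hw' | hw'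
        · exact ⟨fun t => absurd (sh.rot' t) (h12 w hw' u hu' v hv),
            fun t => absurd (l.rot' t) (c12 w hw' u hu' v hv)⟩
        · rw [f2 u hu', f2 v hv', f2 w hw']; exact e2.2.2 u hu' v hv' w hw'
  · rintro ⟨t, X⟩ -
    cases t
    · refine le_trans (Nat.cast_le.2 (Finset.card_le_card ?_)) (aux Q2 v2 hk2 X)
      intro c hc
      rw [Finset.mem_filter] at hc ⊢
      exact ⟨Finset.mem_univ _, hc.2⟩
    · refine le_trans (Nat.cast_le.2 (Finset.card_le_card ?_)) (aux Q1 v1 hk1 X)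
      intro c hc
      rw [Finset.mem_filter] at hc ⊢
      exact ⟨Finset.mem_univ _, hc.2⟩

end Pool.Agent.MP_c3fbfc_co

end MrgPart1

-- ======== part 2: formerly Pool.Agent.MP_c3fbfc_co.Pasch1
section MrgPart2

/-! Linear spaces in which every triangle of nontrivial lines closes to a Pasch configuration. -/

namespace Pool.Agent.MP_c3fbfc_co

open Finset Filter
open scoped Classical

variable {α : Type*}

/-- every triangle closes up -/
def PC (c : Tern α) : Prop :=
  ∀ a b e x y z, c a b x → c a e y → c b e z → ¬ c a b e → c x y z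

/-- two points on a nontrivial line -/
def adj (c : Tern α) (a b : α) : Prop := ∃ x, c a b x

variable {P : Finset α} {c : Tern α}

theorem pc_all (l : IsLin P c) (p : PC c) {a b e x y z : α} (h1 : c a b x) (h2 : c a e y)
    (h3 : c b e z) (xy : x ≠ y) (xz : x ≠ z) (yz : y ≠ z) : c x y z := by
  by_cases h : c a b e
  swap
  · exact p a b e x y z h1 h2 h3 h
  have hy : y = b ∨ c a b y := by
    by_cases t : b = y
    · exact Or.inl t.symm
    · exact Or.inr (l.tr (l.sw2 h) h2 t)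
  have hz : z = a ∨ c a b z := by
    by_cases t : a = z
    · exact Or.inl t.symm
    · exact Or.inr (l.sw1 (l.tr (l.rot h) h3 t))
  rcases hy with rfl | hy <;> rcases hz with rfl | hz
  · exact l.sw3 h1
  · exact l.sw1 (l.tr (l.sw1 h1) (l.sw1 hz) xz)
  · exact l.rot (l.tr h1 hy xy)
  · exact l.tr (l.sw1 (l.tr h1 hy xy)) (l.sw1 (l.tr h1 hz xz)) yz

theorem pc_unique (l : IsLin P c) (p : PC c) {x y a z z' : α} (h1 : adj c x a) (h2 : adj c y a)
    (h3 : ¬ c x y a) (hz : c x y z) (hz' : c x y z') : z = z' := by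
  by_contra hne
  obtain ⟨b, hb⟩ := h1
  obtain ⟨e, he⟩ := h2
  have a1 := p x y a z b e hz hb he h3
  have a2 := p x y a z' b e hz' hb he h3
  have a3 : c b z z' := l.tr (l.rot a1) (l.rot a2) hne
  have a4 : c x z z' := l.tr hz hz' hne
  have a5 : c z x b := l.tr (l.rot a4) (l.rot a3) (l.ne2 hb)
  by_cases t : b = y
  · exact h3 (l.sw2 (t ▸ hb))
  · have a6 : c x b y := l.tr (l.sw1 a5) (l.sw2 hz) t
    exact h3 (l.tr a6 (l.sw2 hb) (l.ne he))

variable [Fintype α]

/-- apexes of triangles over the pair `x, y` -/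
noncomputable def tri (c : Tern α) (x y : α) : Finset α :=
  univ.filter (fun a => adj c x a ∧ adj c y a ∧ ¬ c x y a)

theorem mem_tri {x y a : α} : a ∈ tri c x y ↔ adj c x a ∧ adj c y a ∧ ¬ c x y a := by
  simp [tri]

theorem tri_comm (l : IsLin P c) (x y : α) : tri c x y = tri c y x := by
  ext a
  simp only [mem_tri]
  exact ⟨fun t => ⟨t.2.1, t.1, fun s => t.2.2 (l.sw1 s)⟩,
    fun t => ⟨t.2.1, t.1, fun s => t.2.2 (l.sw1 s)⟩⟩

omit [Fintype α] in
theorem pc_partner (l : IsLin P c) (p : PC c) {x y z a a' b : α} (hz : c x y z)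
    (h2 : adj c y a) (h3 : ¬ c x y a) (hb : c x a b) (hb' : c x a' b) : a = a' := by
  by_contra hne
  have a1 : c x a a' := l.tr (l.sw2 hb) (l.sw2 hb') hne
  obtain ⟨e, he⟩ := h2
  have a2 := pc_unique l p (x := x) (y := a) (a := y) ⟨z, hz⟩ ⟨e, l.sw1 he⟩
    (fun t => h3 (l.sw2 t)) hb a1
  exact l.ne3 hb' a2.symm

theorem tri_le (l : IsLin P c) (p : PC c) {x y z : α} (hz : c x y z) :
    (tri c x y).card ≤ (tri c x z).card := by
  refine card_le_of_rel _ _ (fun a b => c x a b) ?_ ?_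
  · intro a ha
    obtain ⟨⟨b, hb⟩, ⟨e, he⟩, h3⟩ := mem_tri.1 ha
    refine ⟨b, mem_tri.2 ⟨⟨a, l.sw2 hb⟩, ⟨e, p x y a z b e hz hb he h3⟩, fun t => ?_⟩, hb⟩
    by_cases t' : b = y
    · exact h3 (l.sw2 (t' ▸ hb))
    · exact h3 (l.tr (l.tr t (l.sw2 hz) t') (l.sw2 hb) (l.ne he))
  · intro a ha a' _ b _ hb hb'
    obtain ⟨-, h2, h3⟩ := mem_tri.1 ha
    exact pc_partner l p hz h2 h3 hb hb'

theorem tri_eq (l : IsLin P c) (p : PC c) {x y z : α} (hz : c x y z) :
    (tri c x y).card = (tri c x z).card :=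
  le_antisymm (tri_le l p hz) (tri_le l p (l.sw2 hz))

theorem line_card_eq (l : IsLin P c) {x y z : α} (hz : c x y z) :
    (univ.filter (c x y)).card = (univ.filter (c x z)).card := by
  have h : insert y (univ.filter (c x y)) = insert z (univ.filter (c x z)) := by
    ext w
    simp only [Finset.mem_insert, Finset.mem_filter, Finset.mem_univ, true_and]
    constructor
    · rintro (rfl | t)
      · exact Or.inr (l.sw2 hz)
      · by_cases hw : w = z
        · exact Or.inl hw
        · exact Or.inr (l.tr hz t (Ne.symm hw))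
    · rintro (rfl | t)
      · exact Or.inr hz
      · by_cases hw : w = y
        · exact Or.inl hw
        · exact Or.inr (l.tr (l.sw2 hz) t (Ne.symm hw))
  have h1 := congrArg Finset.card h
  rw [Finset.card_insert_of_notMem (by simpa using fun t => l.ne3 t rfl),
    Finset.card_insert_of_notMem (by simpa using fun t => l.ne3 t rfl)] at h1
  omega

theorem line_card_comm (l : IsLin P c) (x y : α) :
    (univ.filter (c x y)).card = (univ.filter (c y x)).card := by
  congr 1
  ext w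
  simp only [Finset.mem_filter, Finset.mem_univ, true_and]
  exact ⟨l.sw1, l.sw1⟩

/-- pairs on nontrivial lines that lie in few triangles -/
noncomputable def low (c : Tern α) (t : ℝ) : Finset (α × α) :=
  univ.filter (fun p => adj c p.1 p.2 ∧ ((tri c p.1 p.2).card : ℝ) < t)

theorem mem_low {t : ℝ} {x y : α} :
    (x, y) ∈ low c t ↔ adj c x y ∧ ((tri c x y).card : ℝ) < t := by
  simp [low]

theorem low_symm (l : IsLin P c) {t : ℝ} {x y : α} (h : (x, y) ∈ low c t) : (y, x) ∈ low c t := by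
  rw [mem_low] at h ⊢
  obtain ⟨⟨z, hz⟩, h2⟩ := h
  exact ⟨⟨z, l.sw1 hz⟩, tri_comm l x y ▸ h2⟩

theorem low_third (l : IsLin P c) (p : PC c) {t : ℝ} {x y z : α} (h : (x, y) ∈ low c t)
    (hz : c x y z) : (x, z) ∈ low c t := by
  rw [mem_low] at h ⊢
  exact ⟨⟨y, l.sw2 hz⟩, tri_eq l p hz ▸ h.2⟩

/-- The triangle removal lemma bounds the number of pairs in few triangles. -/
theorem card_low (l : IsLin P c) (p : PC c) {L t ε : ℝ} (s : Small L c) (ht : 0 ≤ t)
    (h : (Fintype.card α : ℝ) ^ 2 * (t + L) <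
      SimpleGraph.triangleRemovalBound ε * (Fintype.card α : ℝ) ^ 3) :
    ((low c t).card : ℝ) ≤ 6 * ε * (Fintype.card α : ℝ) ^ 2 := by
  let Γ : SimpleGraph α :=
    { Adj := fun x y => (x, y) ∈ low c t
      symm := ⟨fun x y h => low_symm l h⟩
      loopless := ⟨fun x h => by
        obtain ⟨⟨z, hz⟩, -⟩ := mem_low.1 h
        exact l.ne hz rfl⟩ }
  have hΓ : ∀ x y, Γ.Adj x y ↔ (x, y) ∈ low c t := fun _ _ => Iff.rfl
  have h1 : ((Γ.cliqueFinset 3).card : ℝ) ≤ (Fintype.card α : ℝ) ^ 2 * (t + L) := by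
    have := card_le_mul_of_rel (Γ.cliqueFinset 3) (univ : Finset (α × α))
      (fun S q => ∃ w, S = {q.1, q.2, w} ∧ Γ.Adj q.1 q.2 ∧ Γ.Adj q.1 w ∧ Γ.Adj q.2 w) (t + L)
      (by
        intro S hS
        obtain ⟨a, b, d, h1, h2, h3, h4⟩ :=
          SimpleGraph.is3Clique_iff.1 (SimpleGraph.mem_cliqueFinset_iff.1 hS)
        exact ⟨(a, b), Finset.mem_univ _, d, h4, h1, h2, h3⟩)
      (by
        rintro ⟨x, y⟩ -
        by_cases hxy : Γ.Adj x y
        · have a1 := card_le_of_rel ((Γ.cliqueFinset 3).filter (fun S => ∃ w, S = {x, y, w} ∧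
            Γ.Adj x y ∧ Γ.Adj x w ∧ Γ.Adj y w)) (tri c x y ∪ univ.filter (c x y))
            (fun S w => S = {x, y, w}) (by
              intro S hS
              obtain ⟨w, h1, -, h2, h3⟩ := (Finset.mem_filter.1 hS).2
              refine ⟨w, ?_, h1⟩
              by_cases hw : c x y w
              · exact Finset.mem_union_right _ (by simpa using hw)
              · exact Finset.mem_union_left _
                  (mem_tri.2 ⟨(mem_low.1 h2).1, (mem_low.1 h3).1, hw⟩))
            (fun S _ S' _ w _ h1 h2 => h1.trans h2.symm)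
          have a2 := a1.trans (Finset.card_union_le _ _)
          have a3 := (mem_low.1 hxy).2
          have a4 := s x y
          have a5 := (Nat.cast_le (α := ℝ)).2 a2
          push_cast at a5
          linarith
        · have a4 := s x y
          simp only [hxy, false_and, and_false, exists_false, Finset.filter_false,
            Finset.card_empty, Nat.cast_zero]
          have : (0 : ℝ) ≤ (univ.filter (c x y)).card := by positivity
          linarith)
    simpa [sq] using this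
  obtain ⟨G, hG, _, h2, h3⟩ := SimpleGraph.triangle_removal (G := Γ) (ε := ε) (h1.trans_lt h)
  set Rem : α → α → Prop := fun x y => Γ.Adj x y ∧ ¬ G.Adj x y with hRem
  have h4 : ((univ.filter (fun q : α × α => Rem q.1 q.2)).card : ℝ) ≤
      2 * ε * (Fintype.card α : ℝ) ^ 2 := by
    have a1 := Γ.two_mul_card_edgeFinset
    have a2 := G.two_mul_card_edgeFinset
    have a3 := Finset.card_filter_add_card_filter_not
      (s := univ.filter (fun q : α × α => Γ.Adj q.1 q.2)) (fun q => G.Adj q.1 q.2)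
    rw [Finset.filter_filter, Finset.filter_filter] at a3
    have a4 : univ.filter (fun q : α × α => Γ.Adj q.1 q.2 ∧ G.Adj q.1 q.2) =
        univ.filter (fun q : α × α => G.Adj q.1 q.2) := by
      ext q
      simp only [Finset.mem_filter, Finset.mem_univ, true_and]
      exact ⟨fun t => t.2, fun t => ⟨hG t, t⟩⟩
    rw [a4] at a3
    have a5 : (univ.filter (fun q : α × α => Rem q.1 q.2)).card + 2 * G.edgeFinset.card =
        2 * Γ.edgeFinset.card := by
      rw [a1, a2, add_comm]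
      convert a3
    have a6 := congrArg (Nat.cast (R := ℝ)) a5
    push_cast at a6 h2
    linarith
  set g : α → α → α → ℝ := fun x y z =>
    if Γ.Adj x y ∧ c x y z then 1 / (univ.filter (c x y)).card else 0 with hg
  have g0 : ∀ x y z, 0 ≤ g x y z := by
    intro x y z
    simp only [hg]
    split_ifs <;> positivity
  have g1 : ∀ x y, ∑ z, g x y z = if Γ.Adj x y then 1 else 0 := by
    intro x y
    by_cases hxy : Γ.Adj x y
    · simp only [hg, hxy, true_and, if_true]
      rw [← Finset.sum_filter, Finset.sum_const, nsmul_eq_mul]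
      obtain ⟨z, hz⟩ := (mem_low.1 hxy).1
      have : 0 < (univ.filter (c x y)).card := Finset.card_pos.2 ⟨z, by simpa using hz⟩
      have : (0 : ℝ) < (univ.filter (c x y)).card := by exact_mod_cast this
      field_simp
    · simp [hg, hxy]
  have g2 : ∀ x y z, g x y z = g x z y := by
    have : ∀ x y z, Γ.Adj x y ∧ c x y z → Γ.Adj x z ∧ c x z y := fun x y z t =>
      ⟨low_third l p t.1 t.2, l.sw2 t.2⟩
    intro x y z
    by_cases t : Γ.Adj x y ∧ c x y z
    · simp only [hg, if_pos t, if_pos (this x y z t), line_card_eq l t.2]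
    · simp only [hg, if_neg t, if_neg (fun t' => t (this x z y t'))]
  have g3 : ∀ x y z, g x y z = g y x z := by
    have : ∀ x y z, Γ.Adj x y ∧ c x y z → Γ.Adj y x ∧ c y x z := fun x y z t =>
      ⟨t.1.symm, l.sw1 t.2⟩
    intro x y z
    by_cases t : Γ.Adj x y ∧ c x y z
    · simp only [hg, if_pos t, if_pos (this x y z t), line_card_comm l x y]
    · simp only [hg, if_neg t, if_neg (fun t' => t (this y x z t'))]
  set I : α → α → ℝ := fun x y => if Rem x y then 1 else 0 with hI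
  have I0 : ∀ x y, 0 ≤ I x y := by
    intro x y
    simp only [hI]
    split_ifs <;> norm_num
  have g4 : ∀ x y z, g x y z ≤ g x y z * I x y + g x z y * I x z + g y z x * I y z := by
    intro x y z
    have e1 : g x z y = g x y z := (g2 x y z).symm
    have e2 : g y z x = g x y z := by rw [g2 y z x, g3 y x z]
    rw [e1, e2]
    by_cases t : Γ.Adj x y ∧ c x y z
    · have b1 : Γ.Adj x z := low_third l p t.1 t.2
      have b2 : Γ.Adj y z := low_third l p t.1.symm (l.sw1 t.2)
      have b3 : 1 ≤ I x y + I x z + I y z := by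
        by_contra hcon
        have c1 := I0 x y
        have c2 := I0 x z
        have c3 := I0 y z
        have d1 : G.Adj x y := by
          by_contra d
          have : I x y = 1 := by simp only [hI, hRem]; rw [if_pos ⟨t.1, d⟩]
          linarith
        have d2 : G.Adj x z := by
          by_contra d
          have : I x z = 1 := by simp only [hI, hRem]; rw [if_pos ⟨b1, d⟩]
          linarith
        have d3 : G.Adj y z := by
          by_contra d
          have : I y z = 1 := by simp only [hI, hRem]; rw [if_pos ⟨b2, d⟩]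
          linarith
        exact h3 _ (SimpleGraph.is3Clique_triple_iff.2 ⟨d1, d2, d3⟩)
      nlinarith [g0 x y z]
    · simp only [hg, if_neg t]
      simp
  have g5 : ∑ x, ∑ y, ∑ z, g x y z * I x y =
      (univ.filter (fun q : α × α => Rem q.1 q.2)).card := by
    rw [Finset.card_filter, Fintype.sum_prod_type]
    push_cast
    refine Finset.sum_congr rfl (fun x _ => Finset.sum_congr rfl (fun y _ => ?_))
    rw [← Finset.sum_mul, g1]
    by_cases t : Rem x y
    · simp only [hI, if_pos t, if_pos t.1, mul_one]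
    · simp only [hI, if_neg t, mul_zero]
  have g6 : ∑ x, ∑ y, ∑ z, g x y z = (low c t).card := by
    have : low c t = univ.filter (fun q : α × α => Γ.Adj q.1 q.2) := by
      ext q; simp [hΓ]
    rw [this, Finset.card_filter, Fintype.sum_prod_type]
    push_cast
    exact Finset.sum_congr rfl (fun x _ => Finset.sum_congr rfl (fun y _ => g1 x y))
  have g7 : ∑ x, ∑ y, ∑ z, g x z y * I x z = ∑ x, ∑ y, ∑ z, g x y z * I x y :=
    Finset.sum_congr rfl (fun x _ => Finset.sum_comm)
  have g8 : ∑ x, ∑ y, ∑ z, g y z x * I y z = ∑ x, ∑ y, ∑ z, g x y z * I x y := by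
    rw [Finset.sum_comm]
    exact Finset.sum_congr rfl (fun x _ => Finset.sum_comm)
  have g9 : ∑ x, ∑ y, ∑ z, g x y z ≤
      ∑ x, ∑ y, ∑ z, (g x y z * I x y + g x z y * I x z + g y z x * I y z) :=
    Finset.sum_le_sum (fun x _ => Finset.sum_le_sum (fun y _ =>
      Finset.sum_le_sum (fun z _ => g4 x y z)))
  simp only [Finset.sum_add_distrib] at g9
  rw [g7, g8, g5, g6] at g9
  linarith

end Pool.Agent.MP_c3fbfc_co

end MrgPart2

-- ======== part 3: formerly Pool.Agent.MP_c3fbfc_co.Pasch2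
section MrgPart3

/-! Revealing lines in a random order. -/

namespace Pool.Agent.MP_c3fbfc_co

open Finset Filter
open scoped Classical

variable {α : Type*} [Fintype α] [DecidableEq α]

theorem count_low (q j : ℕ) (hq : 0 < q) (hj : j ≤ q) (A : Finset α) :
    ∑ ω : α → Fin q, ∏ a ∈ A, (if (ω a : ℕ) < j then (1 : ℝ) else 0) =
      (q : ℝ) ^ Fintype.card α * ((j : ℝ) / q) ^ A.card := by
  have hq' : (0 : ℝ) < q := by exact_mod_cast hq
  have h1 : ∀ ω : α → Fin q, ∏ a ∈ A, (if (ω a : ℕ) < j then (1 : ℝ) else 0) =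
      ∏ a, (if a ∈ A then (if (ω a : ℕ) < j then (1 : ℝ) else 0) else 1) := by
    intro ω
    rw [Finset.prod_ite_mem, Finset.univ_inter]
  have h2 : ∑ v : Fin q, (if (v : ℕ) < j then (1 : ℝ) else 0) = j := by
    rw [Fin.sum_univ_eq_sum_range (fun i => if i < j then (1 : ℝ) else 0) q, Finset.sum_boole]
    have : (range q).filter (fun i => i < j) = range j := by
      ext i; simp only [Finset.mem_filter, Finset.mem_range]; omega
    rw [this, Finset.card_range]
  simp only [h1]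
  rw [← Fintype.prod_sum (fun a (v : Fin q) =>
    if a ∈ A then (if (v : ℕ) < j then (1 : ℝ) else 0) else 1)]
  have h3 : ∀ a, ∑ v : Fin q, (if a ∈ A then (if (v : ℕ) < j then (1 : ℝ) else 0) else 1) =
      q * (if a ∈ A then (j : ℝ) / q else 1) := by
    intro a
    by_cases ha : a ∈ A
    · simp only [ha, if_true, h2]; field_simp
    · simp [ha]
  simp only [h3]
  rw [Finset.prod_mul_distrib, Finset.prod_ite_mem, Finset.univ_inter]
  simp [div_pow]

theorem second_moment (q j : ℕ) (hq : 0 < q) (hj : j ≤ q) (T : Finset α) (b : α → α)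
    (h1 : ∀ a ∈ T, b a ≠ a)
    (h2 : ∀ a ∈ T, ∀ a' ∈ T, a' ≠ a → a' ≠ b a → b a' ≠ a ∧ b a' ≠ b a) :
    ((univ.filter (fun ω : α → Fin q =>
      ∀ a ∈ T, ¬ ((ω a : ℕ) < j ∧ (ω (b a) : ℕ) < j))).card : ℝ) *
      (T.card * ((j : ℝ) / q) ^ 2) ≤ 2 * (q : ℝ) ^ Fintype.card α := by
  set Q : ℝ := (q : ℝ) ^ Fintype.card α with hQ
  set p : ℝ := (j : ℝ) / q with hp
  have hQ0 : 0 ≤ Q := by positivity
  set I : α → (α → Fin q) → ℝ := fun a ω => if (ω a : ℕ) < j then 1 else 0 with hI
  have I01 : ∀ a ω, 0 ≤ I a ω ∧ I a ω ≤ 1 := by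
    intro a ω
    simp only [hI]
    split_ifs <;> norm_num
  set Y : α → (α → Fin q) → ℝ := fun a ω => I a ω * I (b a) ω with hY
  have e1 : ∀ a ∈ T, ∑ ω, Y a ω = Q * p ^ 2 := by
    intro a ha
    have := count_low q j hq hj ({a, b a} : Finset α)
    rw [Finset.card_pair (h1 a ha).symm] at this
    rw [← this]
    exact Finset.sum_congr rfl (fun ω _ => by rw [Finset.prod_pair (h1 a ha).symm])
  have e2 : ∀ a ∈ T, ∀ a' ∈ T, ∑ ω, Y a ω * Y a' ω ≤
      Q * p ^ 4 + (if a' ∈ ({a, b a} : Finset α) then Q * p ^ 2 else 0) := by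
    intro a ha a' ha'
    by_cases t : a' ∈ ({a, b a} : Finset α)
    · rw [if_pos t, ← e1 a ha]
      have : 0 ≤ Q * p ^ 4 := by positivity
      refine le_trans (Finset.sum_le_sum (fun ω _ => ?_)) (le_add_of_nonneg_left this)
      refine mul_le_of_le_one_right (mul_nonneg (I01 _ _).1 (I01 _ _).1) ?_
      exact mul_le_one₀ (I01 _ _).2 (I01 _ _).1 (I01 _ _).2
    · rw [if_neg t, add_zero]
      simp only [Finset.mem_insert, Finset.mem_singleton, not_or] at t
      obtain ⟨t1, t2⟩ := h2 a ha a' ha' t.1 t.2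
      have n1 : a ∉ ({b a, a', b a'} : Finset α) := by
        simp [(h1 a ha).symm, Ne.symm t.1, t1.symm]
      have n2 : b a ∉ ({a', b a'} : Finset α) := by simp [Ne.symm t.2, t2.symm]
      have := count_low q j hq hj ({a, b a, a', b a'} : Finset α)
      rw [Finset.card_insert_of_notMem n1, Finset.card_insert_of_notMem n2,
        Finset.card_pair (h1 a' ha').symm] at this
      rw [← this]
      refine le_of_eq (Finset.sum_congr rfl (fun ω _ => ?_))
      rw [Finset.prod_insert n1, Finset.prod_insert n2, Finset.prod_pair (h1 a' ha').symm]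
      simp only [hY, hI]
      ring
  set μ : ℝ := T.card * p ^ 2 with hμ
  have e3 : ∑ ω, ∑ a ∈ T, Y a ω = μ * Q := by
    rw [Finset.sum_comm, Finset.sum_congr rfl e1, Finset.sum_const, nsmul_eq_mul, hμ]
    ring
  have e4 : ∑ ω, (∑ a ∈ T, Y a ω) ^ 2 ≤ μ ^ 2 * Q + 2 * μ * Q := by
    have a1 : ∑ ω, (∑ a ∈ T, Y a ω) ^ 2 = ∑ a ∈ T, ∑ a' ∈ T, ∑ ω, Y a ω * Y a' ω := by
      simp only [sq, Finset.sum_mul_sum]
      rw [Finset.sum_comm]
      exact Finset.sum_congr rfl (fun a _ => Finset.sum_comm)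
    rw [a1]
    have a2 : ∀ a ∈ T, ∑ a' ∈ T, ∑ ω, Y a ω * Y a' ω ≤ T.card * (Q * p ^ 4) + 2 * (Q * p ^ 2) := by
      intro a ha
      refine (Finset.sum_le_sum (e2 a ha)).trans ?_
      rw [Finset.sum_add_distrib, Finset.sum_const, nsmul_eq_mul, Finset.sum_ite_mem,
        Finset.sum_const, nsmul_eq_mul]
      have : (T ∩ {a, b a}).card ≤ 2 :=
        (Finset.card_le_card Finset.inter_subset_right).trans Finset.card_le_two
      have : ((T ∩ {a, b a}).card : ℝ) ≤ 2 := by exact_mod_cast this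
      gcongr
    refine (Finset.sum_le_sum a2).trans (le_of_eq ?_)
    rw [Finset.sum_const, nsmul_eq_mul, hμ]
    ring
  have e5 : ∑ ω, (∑ a ∈ T, Y a ω - μ) ^ 2 ≤ 2 * μ * Q := by
    simp only [sub_sq, Finset.sum_add_distrib, Finset.sum_sub_distrib]
    rw [← Finset.sum_mul, ← Finset.mul_sum, e3, Finset.sum_const, nsmul_eq_mul]
    simp only [Finset.card_univ, Fintype.card_fun, Fintype.card_fin, Nat.cast_pow, ← hQ]
    nlinarith
  set Z := univ.filter (fun ω : α → Fin q =>
      ∀ a ∈ T, ¬ ((ω a : ℕ) < j ∧ (ω (b a) : ℕ) < j)) with hZ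
  have e6 : (Z.card : ℝ) * μ ^ 2 ≤ ∑ ω, (∑ a ∈ T, Y a ω - μ) ^ 2 := by
    calc (Z.card : ℝ) * μ ^ 2 = ∑ ω ∈ Z, (∑ a ∈ T, Y a ω - μ) ^ 2 := by
          rw [← nsmul_eq_mul, ← Finset.sum_const]
          refine Finset.sum_congr rfl (fun ω hω => ?_)
          have t := (Finset.mem_filter.1 hω).2
          rw [Finset.sum_eq_zero]
          · ring
          · intro a ha
            have := t a ha
            simp only [hY, hI]
            split_ifs <;> simp_all
      _ ≤ _ := Finset.sum_le_sum_of_subset_of_nonneg (Finset.subset_univ _)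
          (fun _ _ _ => sq_nonneg _)
  have μ0 : 0 ≤ μ := by positivity
  rcases μ0.eq_or_lt with h0 | h0
  · rw [← h0, mul_zero]; positivity
  · refine le_of_mul_le_mul_right ?_ h0
    nlinarith

/-- the line `x y z` can be deduced from earlier lines -/
def Ded {q : ℕ} (c : Tern α) (ω : α → Fin q) (x y z : α) : Prop :=
  ∃ a ∈ tri c x y, ∃ b, c x a b ∧ (ω a < ω x ∧ ω a < ω y ∧ ω a < ω z) ∧
    (ω b < ω x ∧ ω b < ω y ∧ ω b < ω z)

variable {P : Finset α} {c : Tern α}

theorem not_ded_count (l : IsLin P c) (p : PC c) {x y z : α} (hz : c x y z) (s : ℝ)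
    (hs : 1 ≤ s) (hst : s ^ 3 ≤ (tri c x y).card) :
    ((univ.filter (fun ω : α → Fin (Fintype.card α) => ¬ Ded c ω x y z)).card : ℝ) * s ≤
      8 * (Fintype.card α : ℝ) ^ Fintype.card α := by
  set q := Fintype.card α with hq
  have hq0 : 0 < q := Fintype.card_pos_iff.2 ⟨x⟩
  have hq' : (0 : ℝ) < q := by exact_mod_cast hq0
  have s0 : 0 < s := by linarith
  have hsq : s ≤ q := by
    have a1 : ((tri c x y).card : ℝ) ≤ q := Nat.cast_le.2 (Finset.card_le_univ _)
    have a2 : s ≤ s ^ 3 := by nlinarith [mul_le_mul hs hs zero_le_one s0.le]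
    linarith
  set j := ⌈(q : ℝ) / s⌉₊ with hj
  have j1 : (q : ℝ) / s ≤ j := Nat.le_ceil _
  have j2 : (j : ℝ) ≤ q / s + 1 := (Nat.ceil_lt_add_one (by positivity)).le
  have j3 : j ≤ q := Nat.ceil_le.2 (div_le_self hq'.le hs)
  set Q : ℝ := (q : ℝ) ^ q with hQ
  have hQ0 : 0 ≤ Q := by positivity
  have p1 : 1 ≤ (j : ℝ) / q * s := by
    rw [div_le_iff₀ s0] at j1
    rw [div_mul_eq_mul_div, le_div_iff₀ hq']
    linarith
  have p2 : (j : ℝ) / q * s ≤ 2 := by
    rw [div_mul_eq_mul_div, div_le_iff₀ hq']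
    have : (j : ℝ) * s ≤ (q / s + 1) * s := by gcongr
    rw [add_mul, div_mul_cancel₀ _ s0.ne'] at this
    linarith
  have hb : ∀ a ∈ tri c x y, ∃ b, c x a b := fun a ha => (mem_tri.1 ha).1
  have : Nonempty α := ⟨x⟩
  choose! b hb using hb
  have e1 := second_moment q j hq0 j3 (tri c x y) b (fun a ha => (l.ne3 (hb a ha)).symm) (by
    intro a ha a' ha' n1 n2
    obtain ⟨-, h2, h3⟩ := mem_tri.1 ha
    constructor
    · intro t
      obtain ⟨e, he⟩ := h2
      refine n2 (pc_unique l p (x := x) (y := a) (a := y) ⟨z, hz⟩ ⟨e, l.sw1 he⟩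
        (fun t => h3 (l.sw2 t)) ?_ (hb a ha))
      exact l.sw2 (t ▸ hb a' ha')
    · intro t
      exact n1 (pc_partner l p hz h2 h3 (hb a ha) (t ▸ hb a' ha')).symm)
  have e2 : ∀ w : α, ((univ.filter (fun ω : α → Fin q => (ω w : ℕ) < j)).card : ℝ) * s ≤
      2 * Q := by
    intro w
    have := count_low q j hq0 j3 ({w} : Finset α)
    simp only [Finset.prod_singleton, Finset.card_singleton, pow_one, Finset.sum_boole] at this
    rw [this, ← hq, ← hQ]
    nlinarith
  set Z := univ.filter (fun ω : α → Fin q =>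
      ∀ a ∈ tri c x y, ¬ ((ω a : ℕ) < j ∧ (ω (b a) : ℕ) < j)) with hZ
  have e3 : (Z.card : ℝ) * s ≤ 2 * Q := by
    refine le_trans ?_ e1
    refine mul_le_mul_of_nonneg_left ?_ (by positivity)
    calc s ≤ s * ((j : ℝ) / q * s) ^ 2 := le_mul_of_one_le_right s0.le (one_le_pow₀ p1)
      _ = s ^ 3 * ((j : ℝ) / q) ^ 2 := by ring
      _ ≤ _ := by gcongr
  have e4 : univ.filter (fun ω : α → Fin q => ¬ Ded c ω x y z) ⊆
      ((univ.filter (fun ω : α → Fin q => (ω x : ℕ) < j) ∪
      univ.filter (fun ω : α → Fin q => (ω y : ℕ) < j)) ∪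
      univ.filter (fun ω : α → Fin q => (ω z : ℕ) < j)) ∪ Z := by
    intro ω hω
    have t := (Finset.mem_filter.1 hω).2
    by_contra hcon
    simp only [hZ, Finset.mem_union, Finset.mem_filter, Finset.mem_univ, true_and, not_or,
      not_forall, not_not, not_lt] at hcon
    obtain ⟨⟨⟨c1, c2⟩, c3⟩, a, ha, c4, c5⟩ := hcon
    refine t ⟨a, ha, b a, hb a ha, ⟨?_, ?_, ?_⟩, ?_, ?_, ?_⟩ <;>
      (rw [Fin.lt_def]; omega)
  have e5 := (Finset.card_le_card e4).trans ((Finset.card_union_le _ _).trans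
    (Nat.add_le_add_right ((Finset.card_union_le _ _).trans
      (Nat.add_le_add_right (Finset.card_union_le _ _) _)) _))
  have e6 := mul_le_mul_of_nonneg_right ((Nat.cast_le (α := ℝ)).2 e5) s0.le
  push_cast at e6
  have := e2 x
  have := e2 y
  have := e2 z
  nlinarith

/-- candidates for the third point -/
def cand (G : Finset (α × α)) (x y : α) : Finset α :=
  univ.filter (fun w => (x, w) ∈ G ∧ (y, w) ∈ G)

/-- weights used to encode revealed lines -/
noncomputable def wt (G : Finset (α × α)) (τ : α × α × α) : ℝ :=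
  if (τ.1, τ.2.1) ∈ G ∧ τ.2.2 ∈ cand G τ.1 τ.2.1 then 1 / (cand G τ.1 τ.2.1).card
  else 1 / (Fintype.card α : ℝ) ^ 2

theorem wt_pos (G : Finset (α × α)) (τ : α × α × α) : 0 < wt G τ := by
  unfold wt
  split_ifs with h
  · have : 0 < (cand G τ.1 τ.2.1).card := Finset.card_pos.2 ⟨_, h.2⟩
    positivity
  · have : 0 < Fintype.card α := Fintype.card_pos_iff.2 ⟨τ.1⟩
    positivity

theorem sum_wt (G : Finset (α × α)) : ∑ τ, wt G τ ≤ G.card + Fintype.card α := by
  have h1 : ∀ τ, wt G τ ≤ (if (τ.1, τ.2.1) ∈ G ∧ τ.2.2 ∈ cand G τ.1 τ.2.1 then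
      1 / ((cand G τ.1 τ.2.1).card : ℝ) else 0) + 1 / (Fintype.card α : ℝ) ^ 2 := by
    intro τ
    unfold wt
    split_ifs
    · have : 0 ≤ 1 / (Fintype.card α : ℝ) ^ 2 := by positivity
      linarith
    · simp
  refine (Finset.sum_le_sum (fun τ _ => h1 τ)).trans ?_
  rw [Finset.sum_add_distrib]
  refine add_le_add ?_ ?_
  · have h2 : (G.card : ℝ) = ∑ x, ∑ y, if (x, y) ∈ G then (1 : ℝ) else 0 := by
      rw [← Fintype.sum_prod_type', Finset.sum_boole]
      simp
    rw [h2, Fintype.sum_prod_type]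
    refine Finset.sum_le_sum (fun x _ => ?_)
    rw [Fintype.sum_prod_type]
    refine Finset.sum_le_sum (fun y _ => ?_)
    by_cases t : (x, y) ∈ G
    · simp only [t, true_and, if_true]
      rw [Finset.sum_ite_mem, Finset.univ_inter, Finset.sum_const, nsmul_eq_mul]
      exact mul_one_div_cancel_le _
    · simp [t]
  · rw [Finset.sum_const, nsmul_eq_mul]
    simp only [Finset.card_univ, Fintype.card_prod, Nat.cast_mul]
    rcases Nat.eq_zero_or_pos (Fintype.card α) with h | h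
    · simp [h]
    · have : (0 : ℝ) < Fintype.card α := by exact_mod_cast h
      apply le_of_eq
      field_simp
where
  mul_one_div_cancel_le (a : ℝ) : a * (1 / a) ≤ 1 := by
    by_cases h : a = 0
    · simp [h]
    · rw [mul_one_div_cancel h]

theorem exists_cheap (l : IsLin P c) (p : PC c) (s : ℝ) (hs : 1 ≤ s)
    (hn : 0 < Fintype.card α) :
    ∃ ω : α → Fin (Fintype.card α),
      ∑ τ ∈ univ.filter (fun τ : α × α × α => (c τ.1 τ.2.1 τ.2.2 ∧
        (tri c τ.1 τ.2.1).Nonempty) ∧ ¬ Ded c ω τ.1 τ.2.1 τ.2.2),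
        -Real.log (wt (low c (s ^ 3)) τ) ≤
      48 * (low c (s ^ 3)).card +
        16 * (Fintype.card α : ℝ) ^ 2 * Real.log (Fintype.card α) / s := by
  set n := Fintype.card α with hn'
  have n1 : (1 : ℝ) ≤ n := by exact_mod_cast hn
  have ln : 0 ≤ Real.log n := Real.log_nonneg n1
  have s0 : 0 < s := by linarith
  set G := low c (s ^ 3) with hG
  set Q : ℝ := (n : ℝ) ^ n with hQ
  have hQ0 : 0 < Q := by positivity
  set 𝒯 := univ.filter (fun τ : α × α × α => c τ.1 τ.2.1 τ.2.2 ∧ (tri c τ.1 τ.2.1).Nonempty)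
    with h𝒯
  have : Nonempty (α → Fin n) := ⟨fun _ => ⟨0, hn⟩⟩
  have key : ∀ τ ∈ 𝒯, ((univ.filter (fun ω : α → Fin n => ¬ Ded c ω τ.1 τ.2.1 τ.2.2)).card : ℝ) *
      (-Real.log (wt G τ)) ≤
      Q * ((if (τ.1, τ.2.1) ∈ G then 48 else 0) + 16 * Real.log n / s) := by
    rintro ⟨x, y, z⟩ hτ
    obtain ⟨hz, ht⟩ := (Finset.mem_filter.1 hτ).2
    simp only at hz ht ⊢
    have c0 : 0 ≤ 16 * Real.log n / s := by positivity
    by_cases hxy : (x, y) ∈ G
    · have hzc : z ∈ cand G x y := by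
        simp only [cand, Finset.mem_filter, Finset.mem_univ, true_and]
        exact ⟨low_third l p hxy hz, low_third l p (low_symm l hxy) (l.sw1 hz)⟩
      have hc : (cand G x y).card ≤ (tri c x y).card + 1 := by
        refine le_trans (Finset.card_le_card ?_) (Finset.card_insert_le z (tri c x y))
        intro w hw
        simp only [cand, Finset.mem_filter, Finset.mem_univ, true_and] at hw
        by_cases t : c x y w
        · obtain ⟨a, ha⟩ := ht
          obtain ⟨a1, a2, a3⟩ := mem_tri.1 ha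
          rw [pc_unique l p a1 a2 a3 t hz]
          exact Finset.mem_insert_self _ _
        · exact Finset.mem_insert_of_mem (mem_tri.2 ⟨(mem_low.1 hw.1).1, (mem_low.1 hw.2).1, t⟩)
      have t1 : (1 : ℝ) ≤ (tri c x y).card := by exact_mod_cast ht.card_pos
      set r : ℝ := ((tri c x y).card : ℝ) ^ (((3 : ℕ) : ℝ)⁻¹) with hr
      have r3 : r ^ 3 = (tri c x y).card := Real.rpow_inv_natCast_pow (by positivity) (by norm_num)
      have r1 : 1 ≤ r := Real.one_le_rpow t1 (by positivity)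
      have a1 := not_ded_count l p hz r r1 r3.le
      have c1 : 0 < (cand G x y).card := Finset.card_pos.2 ⟨z, hzc⟩
      have c2 : (0 : ℝ) < (cand G x y).card := by exact_mod_cast c1
      have a2 : -Real.log (wt G (x, y, z)) ≤ 6 * r := by
        simp only [wt, hxy, hzc, and_self, if_true, one_div, Real.log_inv, neg_neg]
        have b1 : ((cand G x y).card : ℝ) ≤ (2 * r) ^ 3 := by
          have : ((cand G x y).card : ℝ) ≤ (tri c x y).card + 1 := by exact_mod_cast hc
          rw [mul_pow, r3]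
          linarith
        refine (Real.log_le_log c2 b1).trans ?_
        rw [Real.log_pow]
        have := Real.log_le_sub_one_of_pos (show 0 < 2 * r by linarith)
        push_cast
        linarith
      rw [if_pos hxy]
      calc _ ≤ ((univ.filter (fun ω : α → Fin n => ¬ Ded c ω x y z)).card : ℝ) * (6 * r) := by
            gcongr
        _ ≤ _ := by nlinarith
    · have t1 : s ^ 3 ≤ (tri c x y).card := by
        by_contra t
        exact hxy (mem_low.2 ⟨⟨z, hz⟩, not_le.1 t⟩)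
      have a1 := not_ded_count l p hz s hs t1
      have a2 : -Real.log (wt G (x, y, z)) = 2 * Real.log n := by
        simp only [wt, hxy, false_and, if_false, one_div, Real.log_inv, neg_neg, Real.log_pow]
        norm_num [hn']
      rw [if_neg hxy, a2, zero_add, mul_div_assoc', le_div_iff₀ s0]
      nlinarith
  have uniq : ∀ τ ∈ 𝒯, ∀ τ' ∈ 𝒯, (τ.1, τ.2.1) = (τ'.1, τ'.2.1) → τ = τ' := by
    rintro ⟨x, y, z⟩ hτ ⟨x', y', z'⟩ hτ' e
    simp only [Prod.mk.injEq] at e
    obtain ⟨rfl, rfl⟩ := e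
    obtain ⟨hz, a, ha⟩ := (Finset.mem_filter.1 hτ).2
    obtain ⟨a1, a2, a3⟩ := mem_tri.1 ha
    have e : z = z' := pc_unique l p a1 a2 a3 hz (Finset.mem_filter.1 hτ').2.1
    rw [e]
  have c1 : (𝒯.card : ℝ) ≤ (n : ℝ) ^ 2 := by
    have := Finset.card_le_card_of_injOn (s := 𝒯) (t := (univ : Finset (α × α)))
      (fun τ => (τ.1, τ.2.1)) (fun _ _ => by simp) (fun τ hτ τ' hτ' e => uniq τ hτ τ' hτ' e)
    simp only [Finset.card_univ, Fintype.card_prod, ← hn'] at this
    rw [sq]
    exact_mod_cast this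
  have c2 : ((𝒯.filter (fun τ => (τ.1, τ.2.1) ∈ G)).card : ℝ) ≤ G.card := by
    refine Nat.cast_le.2 (Finset.card_le_card_of_injOn (fun τ => (τ.1, τ.2.1)) ?_ ?_)
    · intro τ hτ
      exact (Finset.mem_filter.1 hτ).2
    · intro τ hτ τ' hτ' e
      exact uniq τ (Finset.mem_filter.1 hτ).1 τ' (Finset.mem_filter.1 hτ').1 e
  obtain ⟨ω, -, hω⟩ := Finset.exists_le_of_sum_le (s := (univ : Finset (α → Fin n)))
    (f := fun ω => ∑ τ ∈ 𝒯.filter (fun τ => ¬ Ded c ω τ.1 τ.2.1 τ.2.2), -Real.log (wt G τ))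
    (g := fun _ => 48 * (G.card : ℝ) + 16 * (n : ℝ) ^ 2 * Real.log n / s) Finset.univ_nonempty (by
      simp only [Finset.sum_filter]
      rw [Finset.sum_comm]
      have a1 : ∀ τ ∈ 𝒯, (∑ ω : α → Fin n, if ¬ Ded c ω τ.1 τ.2.1 τ.2.2 then
          -Real.log (wt G τ) else 0) ≤
          Q * ((if (τ.1, τ.2.1) ∈ G then 48 else 0) + 16 * Real.log n / s) := by
        intro τ hτ
        rw [← Finset.sum_filter, Finset.sum_const, nsmul_eq_mul]
        exact key τ hτ
      refine (Finset.sum_le_sum a1).trans ?_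
      rw [← Finset.mul_sum, Finset.sum_add_distrib, ← Finset.sum_filter, Finset.sum_const,
        Finset.sum_const, Finset.sum_const, nsmul_eq_mul, nsmul_eq_mul, nsmul_eq_mul]
      simp only [Finset.card_univ, Fintype.card_fun, Fintype.card_fin, Nat.cast_pow, ← hn', ← hQ]
      refine mul_le_mul_of_nonneg_left ?_ hQ0.le
      have : (𝒯.card : ℝ) * (16 * Real.log n / s) ≤ (n : ℝ) ^ 2 * (16 * Real.log n / s) := by
        gcongr
      have e : (n : ℝ) ^ 2 * (16 * Real.log n / s) = 16 * (n : ℝ) ^ 2 * Real.log n / s := by ring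
      linarith)
  refine ⟨ω, le_trans (le_of_eq ?_) hω⟩
  rw [h𝒯, Finset.filter_filter]

end Pool.Agent.MP_c3fbfc_co

end MrgPart3

-- marker of a merged file
example : 731051 + 899783 = 731051 + 899783 := rfl
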