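import Mathlib.Combinatorics.SimpleGraph.AdjMatrix
import Mathlib.Combinatorics.SimpleGraph.Matching
import Mathlib.Tactic.Polynomial.Basic
import Pool.Agent.MP_c3fbfc_co.Pasch2

-- ======== part 0: formerly Pool.Agent.MP_c3fbfc_co.Pasch3
section MrgPart0

/-! The triangle configuration (rank-3 whirl) is unavoidable. -/

namespace Pool.Agent.MP_c3fbfc_co

open Finset Filter
open scoped Classical

variable {α : Type*} [Fintype α] [DecidableEq α]

theorem pc_decode {P : Finset α} {c c' : Tern α} (l : IsLin P c) (p : PC c) (l' : IsLin P c')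
    (p' : PC c') (h0 : ∀ x y, adj c x y → tri c x y = ∅ → adj c' x y ∧ tri c' x y = ∅)
    {q : ℕ} (ω : α → Fin q)
    (h1 : ∀ x y z, c x y z → (tri c x y).Nonempty → ¬ Ded c ω x y z → c' x y z) :
    ∀ x y z, c x y z → c' x y z := by
  have key : ∀ m : ℕ, ∀ x y z, c x y z → ((ω x : ℕ) < m ∨ (ω y : ℕ) < m ∨ (ω z : ℕ) < m) →
      c' x y z := by
    intro m
    induction m with
    | zero => intro x y z _ h; omega
    | succ m ih =>
      intro x y z hz hm
      by_cases t0 : tri c x y = ∅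
      · have t1 : tri c x z = ∅ := by
          rw [← Finset.card_eq_zero, ← tri_eq l p hz, t0, Finset.card_empty]
        have t2 : tri c y z = ∅ := by
          rw [← Finset.card_eq_zero, ← tri_eq l p (l.sw1 hz), ← tri_comm l, t0, Finset.card_empty]
        have a0 := (h0 x y ⟨z, hz⟩ t0).2
        have a1 := (h0 x z ⟨y, l.sw2 hz⟩ t1).1
        have a2 := (h0 y z ⟨x, l.rot hz⟩ t2).1
        by_contra hcon
        have : z ∈ tri c' x y := mem_tri.2 ⟨a1, a2, hcon⟩
        rw [a0] at this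
        exact Finset.notMem_empty _ this
      by_cases hd : Ded c ω x y z
      swap
      · exact h1 x y z hz (Finset.nonempty_iff_ne_empty.2 t0) hd
      obtain ⟨a, ha, b, hb, ⟨c1, c2, c3⟩, c4, c5, c6⟩ := hd
      obtain ⟨-, ⟨e, he⟩, h3⟩ := mem_tri.1 ha
      have hzbe := p x y a z b e hz hb he h3
      rw [Fin.lt_def] at c1 c2 c3 c4 c5 c6
      have d1 := ih a b x (l.rot hb) (by omega)
      have d2 := ih a e y (l.rot he) (by omega)
      have d3 := ih b e z (l.rot hzbe) (by omega)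
      exact pc_all l' p' d1 d2 d3 (l.ne hz) (l.ne2 hz) (l.ne3 hz)
  intro x y z hz
  exact key (ω x + 1) x y z hz (by omega)

theorem pc_count (P : Finset α) (L s ε u : ℝ) (hs : 1 ≤ s) (hu : 1 ≤ u)
    (hn : 0 < Fintype.card α)
    (h : (Fintype.card α : ℝ) ^ 2 * (s ^ 3 + L) <
      SimpleGraph.triangleRemovalBound ε * (Fintype.card α : ℝ) ^ 3)
    (S : Finset (Tern α)) (hS : ∀ c ∈ S, IsLin P c ∧ Small L c ∧ PC c) :
    (S.card : ℝ) ≤
      Real.exp (6 * ε * (Fintype.card α : ℝ) ^ 2 * Real.log u + (Fintype.card α : ℝ) ^ 2 / u) *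
      Real.exp (50 * (6 * ε * (Fintype.card α : ℝ) ^ 2) +
        16 * (Fintype.card α : ℝ) ^ 2 * Real.log (Fintype.card α) / s + Fintype.card α) := by
  set g : ℝ := 6 * ε * (Fintype.card α : ℝ) ^ 2 with hg
  set γ : ℝ := 16 * (Fintype.card α : ℝ) ^ 2 * Real.log (Fintype.card α) / s with hγ
  have h1 := card_small_subsets (univ : Finset (α × α)) u hu g
  refine (card_le_mul_of_rel S
    ((univ : Finset (α × α)).powerset.filter (fun G => (G.card : ℝ) ≤ g))
    (fun c G => G = low c (s ^ 3)) (Real.exp (50 * g + γ + Fintype.card α)) ?_ ?_).trans ?_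
  · intro c hc
    obtain ⟨l, sm, p⟩ := hS c hc
    refine ⟨_, ?_, rfl⟩
    simp only [Finset.mem_filter, Finset.mem_powerset, Finset.subset_univ, true_and]
    exact card_low l p sm (by positivity) h
  · intro G hG
    have hGg : (G.card : ℝ) ≤ g := (Finset.mem_filter.1 hG).2
    have h2 := card_weighted_subsets (univ : Finset (α × α × α)) (wt G) (wt_pos G)
      (48 * G.card + γ)
    have h3 := card_le_of_rel (S.filter (fun c => G = low c (s ^ 3)))
      (G.powerset ×ˢ (univ : Finset (α × α × α)).powerset.filter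
        (fun R => ∑ i ∈ R, -Real.log (wt G i) ≤ 48 * G.card + γ))
      (fun c Z => (∀ x y, (x, y) ∈ Z.1 ↔ adj c x y ∧ tri c x y = ∅) ∧
        (∀ x y z, (x, y, z) ∈ Z.2 → c x y z) ∧ ∃ ω : α → Fin (Fintype.card α),
        ∀ x y z, c x y z → (tri c x y).Nonempty → ¬ Ded c ω x y z → (x, y, z) ∈ Z.2) ?_ ?_
    · rw [Finset.card_product, Finset.card_powerset] at h3
      have h4 := (Nat.cast_le (α := ℝ)).2 h3
      push_cast at h4
      refine h4.trans ?_
      have a1 : (2 : ℝ) ≤ Real.exp 1 := by linarith [Real.add_one_le_exp (1 : ℝ)]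
      have a2 : (2 : ℝ) ^ G.card ≤ Real.exp g := by
        calc (2 : ℝ) ^ G.card ≤ Real.exp 1 ^ G.card := by gcongr
          _ = Real.exp (G.card * 1) := by rw [Real.exp_nat_mul]
          _ ≤ _ := by rw [Real.exp_le_exp]; linarith
      refine (mul_le_mul a2 h2 (by positivity) (by positivity)).trans ?_
      rw [← Real.exp_add, Real.exp_le_exp]
      linarith [sum_wt G]
    · intro c hc
      rw [Finset.mem_filter] at hc
      obtain ⟨l, sm, p⟩ := hS c hc.1
      obtain ⟨ω, hω⟩ := exists_cheap l p s hs hn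
      refine ⟨(univ.filter (fun q : α × α => adj c q.1 q.2 ∧ tri c q.1 q.2 = ∅),
        univ.filter (fun τ : α × α × α => (c τ.1 τ.2.1 τ.2.2 ∧
          (tri c τ.1 τ.2.1).Nonempty) ∧ ¬ Ded c ω τ.1 τ.2.1 τ.2.2)), ?_, ?_, ?_, ω, ?_⟩
      · simp only [Finset.mem_product, Finset.mem_powerset, Finset.mem_filter,
          Finset.subset_univ, true_and]
        constructor
        · rintro ⟨x, y⟩ hxy
          simp only [Finset.mem_filter, Finset.mem_univ, true_and] at hxy
          rw [hc.2, mem_low, hxy.2]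
          refine ⟨hxy.1, ?_⟩
          simp only [Finset.card_empty, Nat.cast_zero]
          positivity
        · rw [hc.2]; exact hω
      · intro x y; simp
      · intro x y z t
        exact (Finset.mem_filter.1 t).2.1.1
      · intro x y z t1 t2 t3
        exact Finset.mem_filter.2 ⟨Finset.mem_univ _, ⟨t1, t2⟩, t3⟩
    · rintro c hc c' hc' ⟨Z, R⟩ - ⟨a1, a2, ω, a3⟩ ⟨b1, b2, ω', b3⟩
      obtain ⟨l, -, p⟩ := hS c (Finset.mem_filter.1 hc).1
      obtain ⟨l', -, p'⟩ := hS c' (Finset.mem_filter.1 hc').1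
      funext x y z
      apply propext
      exact ⟨pc_decode l p l' p' (fun x y t1 t2 => (b1 x y).1 ((a1 x y).2 ⟨t1, t2⟩)) ω
          (fun x y z t1 t2 t3 => b2 x y z (a3 x y z t1 t2 t3)) x y z,
        pc_decode l' p' l p (fun x y t1 t2 => (a1 x y).1 ((b1 x y).2 ⟨t1, t2⟩)) ω'
          (fun x y z t1 t2 t3 => a2 x y z (b3 x y z t1 t2 t3)) x y z⟩
  · refine mul_le_mul_of_nonneg_right (h1.trans (le_of_eq ?_)) (by positivity)
    simp [sq]

theorem sym_wlog {β : Type*} [LinearOrder β] {h c : Tern β} (sh : IsSym h) (sc : IsSym c)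
    (H : ∀ u v w, u < v → v < w → (h u v w ↔ c u v w)) (u v w : β) : h u v w ↔ c u v w := by
  rcases lt_trichotomy u v with a | a | a
  · rcases lt_trichotomy v w with b | b | b
    · exact H u v w a b
    · rw [b]; exact ⟨fun t => absurd rfl (sh.ne3 t), fun t => absurd rfl (sc.ne3 t)⟩
    · rcases lt_trichotomy u w with d | d | d
      · rw [sh.iff2, sc.iff2]; exact H u w v d b
      · rw [d]; exact ⟨fun t => absurd rfl (sh.ne2 t), fun t => absurd rfl (sc.ne2 t)⟩
      · rw [sh.iff3, sc.iff3]; exact H w u v d a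
  · rw [a]; exact ⟨fun t => absurd rfl (sh.ne t), fun t => absurd rfl (sc.ne t)⟩
  · rcases lt_trichotomy u w with b | b | b
    · rw [sh.iff1, sc.iff1]; exact H v u w a b
    · rw [b]; exact ⟨fun t => absurd rfl (sh.ne2 t), fun t => absurd rfl (sc.ne2 t)⟩
    · rcases lt_trichotomy v w with d | d | d
      · rw [sh.iff1, sc.iff1, sh.iff2, sc.iff2]; exact H v w u d b
      · rw [d]; exact ⟨fun t => absurd rfl (sh.ne3 t), fun t => absurd rfl (sc.ne3 t)⟩
      · rw [sh.iff3, sc.iff3, sh.iff2, sc.iff2]; exact H w v u d a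

/-- the three lines of the rank-3 whirl -/
def hW : Tern (Fin 6) := fun u v w =>
  ({u, v, w} : Finset (Fin 6)) = {0, 1, 3} ∨ ({u, v, w} : Finset (Fin 6)) = {0, 2, 4} ∨
    ({u, v, w} : Finset (Fin 6)) = {1, 2, 5}

instance (u v w : Fin 6) : Decidable (hW u v w) := by unfold hW; infer_instance

theorem hW_sym : IsSym hW where
  ne := by decide
  sw1 := by decide
  sw2 := by decide

omit [Fintype α] [DecidableEq α] in
theorem emb_W {P : Finset α} {c : Tern α} (l : IsLin P c) {a b e x y z : α} (h1 : c a b x)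
    (h2 : c a e y) (h3 : c b e z) (h4 : ¬ c a b e) (h5 : ¬ c x y z) :
    Emb univ hW P c ![a, b, e, x, y, z] := by
  have ab := l.ne h1
  have ax := l.ne2 h1
  have bx := l.ne3 h1
  have ae := l.ne h2
  have ay := l.ne2 h2
  have ey := l.ne3 h2
  have be := l.ne h3
  have bz := l.ne2 h3
  have ez := l.ne3 h3
  have n014 : ¬ c a b y := fun t => h4 (l.tr (l.sw2 t) (l.sw2 h2) be)
  have n015 : ¬ c a b z := fun t => h4 (l.sw1 (l.tr (l.rot t) (l.sw2 h3) ae))
  have n023 : ¬ c a e x := fun t => h4 (l.tr (l.sw2 h1) (l.sw2 t) be)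
  have n025 : ¬ c a e z := fun t => h4 (l.rot (l.tr (l.rot t) (l.rot h3) ab))
  have n123 : ¬ c b e x := fun t => h4 (l.sw1 (l.tr (l.rot h1) (l.sw2 t) ae))
  have n124 : ¬ c b e y := fun t => h4 (l.rot (l.tr (l.rot h2) (l.rot t) ab))
  have az : a ≠ z := fun t => h4 (l.rot' (t ▸ h3))
  have by' : b ≠ y := fun t => h4 (l.sw2 (t ▸ h2))
  have ex : e ≠ x := fun t => h4 (t ▸ h1)
  have xy : x ≠ y := fun t => n014 (t ▸ h1)
  have xz : x ≠ z := fun t => n015 (t ▸ h1)
  have yz : y ≠ z := fun t => n025 (t ▸ h2)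
  have n034 : ¬ c a x y := fun t => n014 (l.tr (l.sw2 h1) t by')
  have n035 : ¬ c a x z := fun t => n015 (l.tr (l.sw2 h1) t bz)
  have n045 : ¬ c a y z := fun t => n025 (l.tr (l.sw2 h2) t ez)
  have n134 : ¬ c b x y := fun t => n014 (l.sw1 (l.tr (l.rot h1) t ay))
  have n135 : ¬ c b x z := fun t => n015 (l.sw1 (l.tr (l.rot h1) t az))
  have n145 : ¬ c b y z := fun t => n124 (l.tr (l.sw2 h3) (l.sw2 t) ey)
  have n234 : ¬ c e x y := fun t => n023 (l.sw1 (l.tr (l.rot h2) (l.sw2 t) ax))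
  have n235 : ¬ c e x z := fun t => n123 (l.sw1 (l.tr (l.rot h3) (l.sw2 t) bx))
  have n245 : ¬ c e y z := fun t => n025 (l.sw1 (l.tr (l.rot h2) t az))
  refine ⟨?_, ?_, ?_⟩
  · intro u _
    fin_cases u
    · exact l.mem h1
    · exact l.mem h3
    · exact l.mem (l.sw1 h2)
    · exact l.mem (l.rot' h1)
    · exact l.mem (l.rot' h2)
    · exact l.mem (l.rot' h3)
  · intro u _ v _
    fin_cases u <;> fin_cases v <;> simp [*, Ne.symm]
  · intro u _ v _ w _
    refine sym_wlog (c := fun u v w => c (![a, b, e, x, y, z] u) (![a, b, e, x, y, z] v)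
      (![a, b, e, x, y, z] w)) hW_sym ⟨fun t e => l.ne t (by rw [e]), l.sw1, l.sw2⟩ ?_ u v w
    intro u v w
    fin_cases u <;> fin_cases v <;> fin_cases w <;> simp [*] <;> decide

theorem U_W : U univ hW := by
  intro η hη
  set u : ℝ := max 1 (4 / η) with hu
  have u1 : 1 ≤ u := le_max_left _ _
  have u2 : 1 / u ≤ η / 4 := by
    rw [div_le_div_iff₀ (by linarith) (by norm_num)]
    have : 4 / η ≤ u := le_max_right _ _
    rw [div_le_iff₀ hη] at this
    linarith
  have lu : 0 ≤ Real.log u := Real.log_nonneg u1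
  set ε : ℝ := η / (4 * (6 * Real.log u + 300)) with hε
  have ε0 : 0 < ε := by positivity
  have hδ := SimpleGraph.triangleRemovalBound_pos ε0
  set δ := SimpleGraph.triangleRemovalBound ε with hδ'
  filter_upwards [ev_pow' (11 / 12) 1 (3 / δ) (by norm_num), ev_pow (7 / 4) 2 (64 / η) (by norm_num),
    ev_pow' 1 2 (4 / η) (by norm_num), eventually_ge_atTop 1] with k k2 k4 k5 k1 P
  have k3 : (1 : ℝ) ≤ k := by exact_mod_cast k1
  have k0 : (0 : ℝ) < k := by linarith
  set s := (k : ℝ) ^ (1 / 4 : ℝ) with hs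
  have s1 : 1 ≤ s := Real.one_le_rpow k3 (by norm_num)
  have s3 : s ^ 3 ≤ (k : ℝ) ^ (11 / 12 : ℝ) := by
    rw [hs, ← Real.rpow_natCast, ← Real.rpow_mul k0.le]
    exact Real.rpow_le_rpow_of_exponent_le k3 (by norm_num)
  have L0 : 0 < (k : ℝ) ^ (11 / 12 : ℝ) := by positivity
  have h := pc_count P ((k : ℝ) ^ (11 / 12 : ℝ)) s ε u s1 u1 (by simp; omega) (by
    simp only [Fintype.card_fin]
    rw [Real.rpow_one] at k2
    have a1 := mul_le_mul_of_nonneg_left k2 hδ.le
    have a2 : δ * (3 / δ * (k : ℝ) ^ (11 / 12 : ℝ)) = 3 * (k : ℝ) ^ (11 / 12 : ℝ) := by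
      field_simp
    calc (k : ℝ) ^ 2 * (s ^ 3 + (k : ℝ) ^ (11 / 12 : ℝ)) < (k : ℝ) ^ 2 * (δ * k) := by
          gcongr; linarith
      _ = _ := by ring) (cls univ hW ((k : ℝ) ^ (11 / 12 : ℝ)) P) (by
    intro c hc
    obtain ⟨l, sm, f⟩ := mem_cls.1 hc
    refine ⟨l, sm, ?_⟩
    intro a b e x y z h1 h2 h3 h4
    by_contra h5
    exact f ⟨_, emb_W l h1 h2 h3 h4 h5⟩)
  refine h.trans ?_
  simp only [Fintype.card_fin]
  rw [← Real.exp_add, Real.exp_le_exp]
  have a1 : 6 * ε * (k : ℝ) ^ 2 * Real.log u + 50 * (6 * ε * (k : ℝ) ^ 2) = η / 4 * k ^ 2 := by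
    rw [hε]; field_simp; ring
  have a2 : (k : ℝ) ^ 2 / u ≤ η / 4 * k ^ 2 := by
    rw [div_eq_mul_one_div, mul_comm]; gcongr
  have a3 : (k : ℝ) ≤ η / 4 * k ^ 2 := by
    rw [Real.rpow_one, Real.rpow_two] at k5
    have := mul_le_mul_of_nonneg_left k5 (show 0 ≤ η / 4 by positivity)
    have e : η / 4 * (4 / η * k) = k := by field_simp
    linarith
  have a4 : 16 * (k : ℝ) ^ 2 * Real.log k / s ≤ η / 4 * k ^ 2 := by
    rw [Real.rpow_two] at k4
    have := mul_le_mul_of_nonneg_left k4 (show 0 ≤ η / 4 by positivity)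
    have e : (k : ℝ) ^ 2 = (k : ℝ) ^ (7 / 4 : ℝ) * s := by
      rw [hs, ← Real.rpow_add k0]; norm_num
    have e2 : 16 * (k : ℝ) ^ 2 * Real.log k / s = 16 * (k : ℝ) ^ (7 / 4 : ℝ) * Real.log k := by
      rw [e]; field_simp
    have e3 : η / 4 * (64 / η * (k : ℝ) ^ (7 / 4 : ℝ) * (Real.log k + 1)) =
        16 * (k : ℝ) ^ (7 / 4 : ℝ) * Real.log k + 16 * (k : ℝ) ^ (7 / 4 : ℝ) := by
      field_simp; ring
    have e4 : 0 < (k : ℝ) ^ (7 / 4 : ℝ) := by positivity
    linarith
  linarith

end Pool.Agent.MP_c3fbfc_co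

end MrgPart0

-- ======== part 1: formerly Pool.Agent.MP_c3fbfc_co.Expand1
section MrgPart1

/-! Expansions of triangle-free graphs: from many copies to an induced copy. -/

namespace Pool.Agent.MP_c3fbfc_co

open Finset Filter Sum
open scoped Classical

variable {V ε : Type*}

/-- the vertices of the graph a point of the expansion depends on -/
noncomputable def vars (s t : ε → V) : V ⊕ ε → Finset V
  | inl v => {v}
  | inr e => {s e, t e}

/-- the points of the line of an edge -/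
def onl (s t : ε → V) (e : ε) (p : V ⊕ ε) : Prop := p = inl (s e) ∨ p = inl (t e) ∨ p = inr e

/-- the expansion of the graph with edges `s e, t e` -/
def hG (s t : ε → V) : Tern (V ⊕ ε) := fun u v w =>
  u ≠ v ∧ u ≠ w ∧ v ≠ w ∧ ∃ e, onl s t e u ∧ onl s t e v ∧ onl s t e w

theorem hG_sym (s t : ε → V) : IsSym (hG s t) where
  ne := fun h => h.1
  sw1 := fun ⟨a, b, c, e, d1, d2, d3⟩ => ⟨a.symm, c, b, e, d2, d1, d3⟩
  sw2 := fun ⟨a, b, c, e, d1, d2, d3⟩ => ⟨b, a, c.symm, e, d1, d3, d2⟩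

/-- one of three points has a private variable -/
def Uq (s t : ε → V) (u v w : V ⊕ ε) : Prop :=
  ∃ x, (x ∈ vars s t u ∧ x ∉ vars s t v ∧ x ∉ vars s t w) ∨
    (x ∈ vars s t v ∧ x ∉ vars s t u ∧ x ∉ vars s t w) ∨
    (x ∈ vars s t w ∧ x ∉ vars s t u ∧ x ∉ vars s t v)

/-- simple triangle-free graph -/
structure TF (s t : ε → V) : Prop where
  h1 : ∀ e, s e ≠ t e
  h2 : ∀ e e', e ≠ e' → ∃ v ∈ vars s t (inr e), v ∉ vars s t (inr e')
  h3 : ∀ e1 e2 e3, e1 ≠ e2 → e1 ≠ e3 → e2 ≠ e3 → Uq s t (inr e1) (inr e2) (inr e3)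

variable {s t : ε → V}

theorem Uq.sw1 {u v w : V ⊕ ε} (h : Uq s t u v w) : Uq s t v u w := by
  obtain ⟨x, h⟩ := h
  exact ⟨x, by tauto⟩

theorem Uq.sw2 {u v w : V ⊕ ε} (h : Uq s t u v w) : Uq s t u w v := by
  obtain ⟨x, h⟩ := h
  exact ⟨x, by tauto⟩

theorem TF.pair (T : TF s t) (u v : V ⊕ ε) (h : u ≠ v) :
    ∃ x, (x ∈ vars s t u ∧ x ∉ vars s t v) ∨ (x ∈ vars s t v ∧ x ∉ vars s t u) := by
  have key : ∀ a e, ∃ x, x ∈ vars s t (inr e) ∧ x ∉ vars s t (inl a) := by
    intro a e
    by_cases ha : s e = a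
    · exact ⟨t e, by simp [vars], by simpa [vars, ← ha] using (T.h1 e).symm⟩
    · exact ⟨s e, by simp [vars], by simpa [vars] using ha⟩
  rcases u with a | e <;> rcases v with b | e'
  · exact ⟨a, Or.inl ⟨by simp [vars], by simpa [vars] using h⟩⟩
  · obtain ⟨x, hx⟩ := key a e'; exact ⟨x, Or.inr hx⟩
  · obtain ⟨x, hx⟩ := key b e; exact ⟨x, Or.inl hx⟩
  · obtain ⟨x, hx⟩ := T.h2 e e' (by simpa using h); exact ⟨x, Or.inl hx⟩

theorem TF.triple (T : TF s t) (u v w : V ⊕ ε) (h1 : u ≠ v) (h2 : u ≠ w) (h3 : v ≠ w)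
    (h : ¬ hG s t u v w) : Uq s t u v w := by
  have k1 : ∀ a b e, a ≠ b → ¬ hG s t (inl a) (inl b) (inr e) →
      Uq s t (inl a) (inl b) (inr e) := by
    intro a b e hab h
    by_contra hcon
    simp only [Uq, vars, Finset.mem_singleton, Finset.mem_insert, not_exists, not_or,
      not_and, not_not] at hcon
    have a1 := (hcon a).1 rfl hab
    have a2 := (hcon b).2.1 rfl hab.symm
    refine h ⟨by simpa using hab, by simp, by simp, e, ?_, ?_, Or.inr (Or.inr rfl)⟩
    · by_cases t : a = s e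
      · exact Or.inl (by rw [t])
      · exact Or.inr (Or.inl (by rw [a1 t]))
    · by_cases t : b = s e
      · exact Or.inl (by rw [t])
      · exact Or.inr (Or.inl (by rw [a2 t]))
  have k2 : ∀ a e e', e ≠ e' → Uq s t (inl a) (inr e) (inr e') := by
    intro a e e' hee
    obtain ⟨x, x1, x2⟩ := T.h2 e e' hee
    obtain ⟨y, y1, y2⟩ := T.h2 e' e hee.symm
    by_cases hx : x = a
    · refine ⟨y, Or.inr (Or.inr ⟨y1, ?_, y2⟩)⟩
      simp only [vars, Finset.mem_singleton]
      rintro rfl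
      exact y2 (hx ▸ x1)
    · exact ⟨x, Or.inr (Or.inl ⟨x1, by simpa [vars] using hx, x2⟩)⟩
  have sG := hG_sym s t
  rcases u with a | e <;> rcases v with b | e' <;> rcases w with d | e''
  · exact ⟨a, Or.inl ⟨by simp [vars], by simpa [vars] using h1, by simpa [vars] using h2⟩⟩
  · exact k1 a b e'' (by simpa using h1) h
  · exact (k1 a d e' (by simpa using h2) (fun t => h (sG.sw2 t))).sw2
  · exact k2 a e' e'' (by simpa using h3)
  · exact (k1 b d e (by simpa using h3) (fun t => h (sG.rot' t))).sw2.sw1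
  · exact (k2 b e e'' (by simpa using h2)).sw1
  · exact (k2 d e e' (by simpa using h1)).sw1.sw2
  · exact T.h3 e e' e'' (by simpa using h1) (by simpa using h2) (by simpa using h3)

variable {α : Type*}

/-- a chosen third point -/
noncomputable def third (c : Tern α) (a b : α) : α := if h : ∃ z, c a b z then h.choose else a

theorem third_spec {c : Tern α} {a b : α} (h : ∃ z, c a b z) : c a b (third c a b) := by
  rw [third, dif_pos h]; exact h.choose_spec

/-- the points of the expansion -/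
noncomputable def pt (s t : ε → V) (c : Tern α) (φ : V → α) : V ⊕ ε → α
  | inl v => φ v
  | inr e => third c (φ (s e)) (φ (t e))

theorem pt_congr {c : Tern α} {φ ψ : V → α} (p : V ⊕ ε) (h : ∀ x ∈ vars s t p, φ x = ψ x) :
    pt s t c φ p = pt s t c ψ p := by
  rcases p with v | e
  · exact h v (by simp [vars])
  · simp only [pt]
    rw [h (s e) (by simp [vars]), h (t e) (by simp [vars])]

variable [Fintype α] [DecidableEq α]

/-- two points on a nontrivial line with few points -/
def sadj (c : Tern α) (K : ℝ) (a b : α) : Prop :=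
  (∃ z, c a b z) ∧ ((univ.filter (c a b)).card : ℝ) ≤ K

omit [DecidableEq α] in
theorem sadj.symm {P : Finset α} {c : Tern α} (l : IsLin P c) {K : ℝ} {a b : α}
    (h : sadj c K a b) : sadj c K b a := by
  obtain ⟨⟨z, hz⟩, h2⟩ := h
  exact ⟨⟨z, l.sw1 hz⟩, line_card_comm l a b ▸ h2⟩

omit [DecidableEq α] in
theorem sadj.third {P : Finset α} {c : Tern α} (l : IsLin P c) {K : ℝ} {a b z : α}
    (h : sadj c K a b) (hz : c a b z) : sadj c K a z :=
  ⟨⟨b, l.sw2 hz⟩, line_card_eq l hz ▸ h.2⟩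

variable [Fintype V]

/-- homomorphisms of the graph into the short-line graph -/
noncomputable def homs (s t : ε → V) (c : Tern α) (K : ℝ) (P : Finset α) : Finset (V → α) :=
  univ.filter (fun φ => (∀ v, φ v ∈ P) ∧ ∀ e, sadj c K (φ (s e)) (φ (t e)))

theorem mem_homs {c : Tern α} {K : ℝ} {P : Finset α} {φ : V → α} :
    φ ∈ homs s t c K P ↔ (∀ v, φ v ∈ P) ∧ ∀ e, sadj c K (φ (s e)) (φ (t e)) := by
  simp [homs]

theorem card_bad_homs (T : TF s t) {P : Finset α} {c : Tern α} (l : IsLin P c) {K L : ℝ}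
    (hK : 1 ≤ K) (sm : Small L c) (p q r : V ⊕ ε) (x : V) (hp : x ∈ vars s t p)
    (hq : x ∉ vars s t q) (hr : x ∉ vars s t r) :
    (((homs s t c K P).filter (fun φ => pt s t c φ p = pt s t c φ q ∨
      c (pt s t c φ q) (pt s t c φ r) (pt s t c φ p))).card : ℝ) * Fintype.card α ≤
      (Fintype.card α : ℝ) ^ Fintype.card V * ((L + 1) * K) := by
  have h := double_count ((homs s t c K P).filter (fun φ => pt s t c φ p = pt s t c φ q ∨
      c (pt s t c φ q) (pt s t c φ r) (pt s t c φ p))) (univ : Finset (V → α))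
    (fun φ ψ => ∀ u, u ≠ x → φ u = ψ u) (Fintype.card α) ((L + 1) * K) ?_ ?_
  · simpa using h
  · intro φ _
    rw [← Finset.card_univ]
    refine Nat.cast_le.2 (Finset.card_le_card_of_injOn (fun a => Function.update φ x a) ?_ ?_)
    · intro a _
      simp only [Finset.coe_filter, Finset.mem_univ, true_and, Set.mem_ofPred_eq]
      intro u hu
      rw [Function.update_of_ne hu]
    · intro a _ b _ e
      simpa using congrFun e x
  · intro ψ _
    set B := insert (pt s t c ψ q) (univ.filter (c (pt s t c ψ q) (pt s t c ψ r))) with hB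
    have hBc : (B.card : ℝ) ≤ L + 1 := by
      have a1 := (Nat.cast_le (α := ℝ)).2 (Finset.card_insert_le (pt s t c ψ q)
        (univ.filter (c (pt s t c ψ q) (pt s t c ψ r))))
      push_cast at a1
      linarith [sm (pt s t c ψ q) (pt s t c ψ r)]
    refine (card_le_mul_of_rel _ B (fun φ w => pt s t c φ p = w) K ?_ ?_).trans
      (mul_le_mul_of_nonneg_right hBc (by linarith))
    · intro φ hφ
      simp only [Finset.mem_filter] at hφ
      have e1 : pt s t c φ q = pt s t c ψ q :=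
        pt_congr q (fun y hy => hφ.2 y (fun e => hq (e ▸ hy)))
      have e2 : pt s t c φ r = pt s t c ψ r :=
        pt_congr r (fun y hy => hφ.2 y (fun e => hr (e ▸ hy)))
      refine ⟨_, ?_, rfl⟩
      rw [hB, ← e1, ← e2]
      simpa using hφ.1.2
    · intro w _
      have inj : ∀ Y : Finset α, (∀ φ ∈ homs s t c K P, (∀ u, u ≠ x → φ u = ψ u) →
          pt s t c φ p = w → φ x ∈ Y) → ((((homs s t c K P).filter
          (fun φ => pt s t c φ p = pt s t c φ q ∨
            c (pt s t c φ q) (pt s t c φ r) (pt s t c φ p))).filter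
          (fun φ => ∀ u, u ≠ x → φ u = ψ u)).filter (fun φ => pt s t c φ p = w)).card ≤
          Y.card := by
        intro Y hY
        refine Finset.card_le_card_of_injOn (fun φ => φ x) ?_ ?_
        · intro φ hφ
          simp only [Finset.coe_filter, Finset.mem_filter, Set.mem_ofPred_eq] at hφ
          exact hY φ hφ.1.1.1 hφ.1.2 hφ.2
        · intro φ hφ φ' hφ' e
          simp only [Finset.coe_filter, Finset.mem_filter, Set.mem_ofPred_eq] at hφ hφ'
          funext u
          by_cases hu : u = x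
          · rw [hu]; exact e
          · rw [hφ.1.2 u hu, hφ'.1.2 u hu]
      have short : ∀ a, ((univ.filter (fun y => sadj c K a w ∧ c a w y)).card : ℝ) ≤ K := by
        intro a
        by_cases t : sadj c K a w
        · simpa [t] using t.2
        · simp only [t, false_and, Finset.filter_false, Finset.card_empty, Nat.cast_zero]
          linarith
      rcases p with v | e
      · refine le_trans (Nat.cast_le.2 (inj {w} ?_)) (by simpa using hK)
        intro φ _ _ h3
        have : x = v := by simpa [vars] using hp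
        rw [this]
        simpa [pt] using h3
      · simp only [vars, Finset.mem_insert, Finset.mem_singleton] at hp
        rcases hp with hp | hp
        · refine le_trans (Nat.cast_le.2 (inj _ ?_)) (short (ψ (t e)))
          intro φ h1 h2 h3
          have a1 := (mem_homs.1 h1).2 e
          have a2 := third_spec a1.1
          simp only [pt] at h3
          rw [h3] at a2
          rw [← h2 (t e) (hp ▸ (T.h1 e).symm), hp]
          simp only [Finset.mem_filter, Finset.mem_univ, true_and]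
          exact ⟨(a1.symm l).third l (l.sw1 a2), l.rot a2⟩
        · refine le_trans (Nat.cast_le.2 (inj _ ?_)) (short (ψ (s e)))
          intro φ h1 h2 h3
          have a1 := (mem_homs.1 h1).2 e
          have a2 := third_spec a1.1
          simp only [pt] at h3
          rw [h3] at a2
          rw [← h2 (s e) (hp ▸ T.h1 e), hp]
          simp only [Finset.mem_filter, Finset.mem_univ, true_and]
          exact ⟨a1.third l a2, l.sw2 a2⟩

variable [Fintype ε]

theorem exists_emb (T : TF s t) {P : Finset α} {c : Tern α} (l : IsLin P c) {K L : ℝ}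
    (hK : 1 ≤ K) (hL : 0 ≤ L) (sm : Small L c)
    (h : (Fintype.card (V ⊕ ε) : ℝ) ^ 3 * Fintype.card V *
      ((Fintype.card α : ℝ) ^ Fintype.card V * ((L + 1) * K)) <
      (homs s t c K P).card * Fintype.card α) :
    ∃ φ, Emb univ (hG s t) P c φ := by
  have hn : (0 : ℝ) < Fintype.card α := by
    by_contra hcon
    have : (Fintype.card α : ℝ) = 0 := le_antisymm (not_lt.1 hcon) (by positivity)
    rw [this, mul_zero] at h
    exact absurd h (not_lt.2 (by positivity))
  have : ∃ φ ∈ homs s t c K P, ∀ p q r x, x ∈ vars s t p → x ∉ vars s t q → x ∉ vars s t r →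
      ¬ (pt s t c φ p = pt s t c φ q ∨ c (pt s t c φ q) (pt s t c φ r) (pt s t c φ p)) := by
    by_contra hcon
    push Not at hcon
    have a1 := card_le_mul_of_rel (homs s t c K P)
      (univ : Finset (((V ⊕ ε) × (V ⊕ ε) × (V ⊕ ε)) × V))
      (fun φ i => (i.2 ∈ vars s t i.1.1 ∧ i.2 ∉ vars s t i.1.2.1 ∧ i.2 ∉ vars s t i.1.2.2) ∧
        (pt s t c φ i.1.1 = pt s t c φ i.1.2.1 ∨
          c (pt s t c φ i.1.2.1) (pt s t c φ i.1.2.2) (pt s t c φ i.1.1)))
      ((Fintype.card α : ℝ) ^ Fintype.card V * ((L + 1) * K) / Fintype.card α) (by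
        intro φ hφ
        obtain ⟨p, q, r, x, h1, h2, h3, h4⟩ := hcon φ hφ
        exact ⟨((p, q, r), x), Finset.mem_univ _, ⟨h1, h2, h3⟩, h4⟩) (by
        rintro ⟨⟨p, q, r⟩, x⟩ -
        by_cases t' : x ∈ vars s t p ∧ x ∉ vars s t q ∧ x ∉ vars s t r
        · rw [le_div_iff₀ hn]
          simpa only [t', not_false_eq_true, and_self, true_and] using
            card_bad_homs T l hK sm p q r x t'.1 t'.2.1 t'.2.2
        · simp only [t', false_and, Finset.filter_false, Finset.card_empty, Nat.cast_zero]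
          positivity)
    rw [← mul_div_assoc, le_div_iff₀ hn] at a1
    simp only [Finset.card_univ, Fintype.card_prod, Nat.cast_mul] at a1
    nlinarith
  obtain ⟨φ, hφ, hgood⟩ := this
  obtain ⟨h1, h2⟩ := mem_homs.1 hφ
  have inj : ∀ u v, pt s t c φ u = pt s t c φ v → u = v := by
    intro u v e
    by_contra hne
    obtain ⟨x, hx | hx⟩ := T.pair u v hne
    · exact hgood u v v x hx.1 hx.2 hx.2 (Or.inl e)
    · exact hgood v u u x hx.1 hx.2 hx.2 (Or.inl e.symm)
  refine ⟨pt s t c φ, ?_, fun u _ v _ e => inj u v e, ?_⟩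
  · rintro (v | e) -
    · exact h1 v
    · exact l.mem (l.rot' (third_spec (h2 e).1))
  · intro u _ v _ w _
    constructor
    · rintro ⟨a1, a2, a3, e, b1, b2, b3⟩
      have hc : c (pt s t c φ (inl (s e))) (pt s t c φ (inl (t e))) (pt s t c φ (inr e)) :=
        third_spec (h2 e).1
      rcases b1 with rfl | rfl | rfl <;> rcases b2 with rfl | rfl | rfl <;>
        rcases b3 with b3 | b3 | b3 <;> subst b3 <;>
        first
          | exact absurd rfl a1
          | exact absurd rfl a2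
          | exact absurd rfl a3
          | exact hc
          | exact l.sw1 hc
          | exact l.sw2 hc
          | exact l.rot hc
          | exact l.rot' hc
          | exact l.sw3 hc
    · intro hc
      by_contra hcon
      obtain ⟨x, hx | hx | hx⟩ := T.triple u v w (fun e => l.ne hc (by rw [e]))
        (fun e => l.ne2 hc (by rw [e])) (fun e => l.ne3 hc (by rw [e])) hcon
      · exact hgood u v w x hx.1 hx.2.1 hx.2.2 (Or.inr (l.rot hc))
      · exact hgood v u w x hx.1 hx.2.1 hx.2.2 (Or.inr (l.sw2 hc))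
      · exact hgood w u v x hx.1 hx.2.1 hx.2.2 (Or.inr hc)

omit [Fintype V] [Fintype ε] in
theorem sadj_deg {P : Finset α} {c : Tern α} (l : IsLin P c) {d K : ℝ} (hK : 0 < K)
    (hc : Core d P c) {x : α} (hx : x ∈ P) :
    d - Fintype.card α / K ≤ (univ.filter (sadj c K x)).card := by
  obtain ⟨Y, hY, hd⟩ := hc x hx
  have h1 := Finset.card_filter_add_card_filter_not (s := Y) (sadj c K x)
  have h2 : (Y.filter (sadj c K x)).card ≤ (univ.filter (sadj c K x)).card :=
    Finset.card_le_card (Finset.filter_subset_filter _ (Finset.subset_univ _))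
  have h3 := mul_card_le_of_rel (Y.filter (fun y => ¬ sadj c K x y)) (univ : Finset α)
    (fun y w => c x y w) K (by
      intro y hy
      rw [Finset.mem_filter] at hy
      have := hy.2
      simp only [sadj, not_and, not_le] at this
      exact (this (hY.1 y hy.1)).le) (by
      intro y hy y' hy' w _ a1 a2
      by_contra hne
      exact hY.2 y (Finset.mem_filter.1 hy).1 y' (Finset.mem_filter.1 hy').1
        (l.tr (l.sw2 a1) (l.sw2 a2) hne))
  rw [← le_div_iff₀ hK, Finset.card_univ] at h3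
  have h4 : (Y.card : ℝ) ≤ (univ.filter (sadj c K x)).card +
      (Y.filter (fun y => ¬ sadj c K x y)).card := by exact_mod_cast (by omega : _ ≤ _ + _)
  linarith

/-- polynomial abundance of homomorphisms gives unavoidability -/
theorem U_expand (T : TF s t) (A : ℕ) (C : ℝ) (hC : 0 < C)
    (hA : ∀ (k : ℕ) (P : Finset (Fin k)) (c : Tern (Fin k)) (K : ℝ), IsLin P c → 2 ≤ K →
      P.Nonempty → (∀ x ∈ P, k / K ≤ (univ.filter (sadj c K x)).card) →
      (k : ℝ) ^ Fintype.card V ≤ C * K ^ A * (homs s t c K P).card) :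
    U univ (hG s t) := by
  set γ : ℝ := 1 / (24 * (A + 1)) with hγ
  have γ0 : 0 < γ := by positivity
  have γ1 : γ * (A + 1) = 1 / 24 := by rw [hγ]; field_simp
  have γ2 : γ < 1 := by
    have : (0 : ℝ) ≤ A := by positivity
    nlinarith
  refine U_of_core (1 - γ) (by linarith) (by linarith) ?_
  intro η hη
  set W : ℝ := (Fintype.card (V ⊕ ε) : ℝ) ^ 3 * Fintype.card V with hW
  filter_upwards [ev_pow' (23 / 24) 1 (W * C * 2 ^ (A + 2) + 1) (by norm_num),
    eventually_ge_atTop 1] with k k2 k1 P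
  have k3 : (1 : ℝ) ≤ k := by exact_mod_cast k1
  have k0 : (0 : ℝ) < k := by linarith
  have : ((cls univ (hG s t) ((k : ℝ) ^ (11 / 12 : ℝ)) P).filter
      (Core ((k : ℝ) ^ (1 - γ)) P)).card ≤ 1 := by
    refine Finset.card_le_one.2 ?_
    have key : ∀ c ∈ (cls univ (hG s t) ((k : ℝ) ^ (11 / 12 : ℝ)) P).filter
        (Core ((k : ℝ) ^ (1 - γ)) P), c = fun _ _ _ => False := by
      intro c hc
      rw [Finset.mem_filter] at hc
      obtain ⟨l, sm, f⟩ := mem_cls.1 hc.1
      funext a b d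
      apply propext
      refine ⟨fun t' => f ?_, False.elim⟩
      have g1 : 1 ≤ (k : ℝ) ^ γ := Real.one_le_rpow k3 γ0.le
      set K := 2 * (k : ℝ) ^ γ with hK
      have L1 : 1 ≤ (k : ℝ) ^ (11 / 12 : ℝ) := Real.one_le_rpow k3 (by norm_num)
      have a1 := hA k P c K l (by linarith) ⟨a, l.mem t'⟩ (by
        intro x hx
        refine le_trans (le_of_eq ?_) (sadj_deg l (by linarith) hc.2 hx)
        rw [Real.rpow_sub k0, Real.rpow_one, hK, Fintype.card_fin]
        field_simp
        ring)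
      refine exists_emb (K := K) T l (by linarith) (by linarith) sm ?_
      rw [← hW, Fintype.card_fin]
      have e1 : K ^ A * K = 2 ^ (A + 1) * (k : ℝ) ^ (1 / 24 : ℝ) := by
        rw [← pow_succ, hK, mul_pow, ← Real.rpow_natCast ((k : ℝ) ^ γ), ← Real.rpow_mul k0.le]
        push_cast
        rw [γ1]
      have e2 : (k : ℝ) ^ (23 / 24 : ℝ) = (k : ℝ) ^ (11 / 12 : ℝ) * (k : ℝ) ^ (1 / 24 : ℝ) := by
        rw [← Real.rpow_add k0]; norm_num
      rw [Real.rpow_one, e2] at k2
      have W0 : 0 ≤ W := by positivity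
      have H0 : (0 : ℝ) < (homs s t c K P).card := by
        by_contra hcon
        have : ((homs s t c K P).card : ℝ) = 0 := le_antisymm (not_lt.1 hcon) (by positivity)
        rw [this, mul_zero] at a1
        exact absurd a1 (not_le.2 (by positivity))
      have K0 : 0 ≤ K := by positivity
      calc W * ((k : ℝ) ^ Fintype.card V * (((k : ℝ) ^ (11 / 12 : ℝ) + 1) * K)) ≤
            W * (C * K ^ A * (homs s t c K P).card * ((2 * (k : ℝ) ^ (11 / 12 : ℝ)) * K)) := by
            gcongr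
            linarith
        _ = (homs s t c K P).card * (W * C * 2 * (K ^ A * K) * (k : ℝ) ^ (11 / 12 : ℝ)) := by ring
        _ = (homs s t c K P).card * (W * C * 2 ^ (A + 2) *
            ((k : ℝ) ^ (11 / 12 : ℝ) * (k : ℝ) ^ (1 / 24 : ℝ))) := by rw [e1]; ring
        _ < _ := by
            refine mul_lt_mul_of_pos_left ?_ H0
            have : 0 < (k : ℝ) ^ (11 / 12 : ℝ) * (k : ℝ) ^ (1 / 24 : ℝ) := by positivity
            linarith
    intro c hc c' hc'
    rw [key c hc, key c' hc']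
  refine le_trans (Nat.cast_le.2 this) ?_
  simpa using by positivity

end Pool.Agent.MP_c3fbfc_co

end MrgPart1

-- ======== part 2: formerly Pool.Agent.MP_c3fbfc_co.Expand2
section MrgPart2

/-! Counting closed walks; linear cycles are unavoidable. -/

namespace Pool.Agent.MP_c3fbfc_co

open Finset Filter Sum
open scoped Classical

section walks

variable {α : Type*} [Fintype α] [DecidableEq α] (Γ : SimpleGraph α) [DecidableRel Γ.Adj]

theorem w_nonneg (h : ℕ) (a b : α) : 0 ≤ (Γ.adjMatrix ℝ ^ h) a b := by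
  rw [SimpleGraph.adjMatrix_pow_apply_eq_card_walk]; positivity

theorem w_symm (h : ℕ) (a b : α) : (Γ.adjMatrix ℝ ^ h) a b = (Γ.adjMatrix ℝ ^ h) b a :=
  ((Γ.isSymm_adjMatrix (α := ℝ)).pow h).apply b a

theorem w_row {P : Finset α} (hP : ∀ a b, Γ.Adj a b → b ∈ P) {D : ℝ} (hD0 : 0 ≤ D)
    (hD : ∀ x ∈ P, D ≤ (Γ.neighborFinset x).card) (h : ℕ) :
    ∀ a ∈ P, D ^ h ≤ ∑ b, (Γ.adjMatrix ℝ ^ h) a b := by
  induction h with
  | zero => intro a _; simp [Matrix.one_apply]
  | succ h ih =>
    intro a ha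
    simp only [pow_succ' (Γ.adjMatrix ℝ), SimpleGraph.adjMatrix_mul_apply]
    rw [Finset.sum_comm]
    calc D ^ (h + 1) ≤ (Γ.neighborFinset a).card * D ^ h := by
          rw [pow_succ']; gcongr; exact hD a ha
      _ = ∑ _u ∈ Γ.neighborFinset a, D ^ h := by simp
      _ ≤ _ := Finset.sum_le_sum (fun u hu => ih u (hP a u (by simpa using hu)))

theorem w_up (h : ℕ) : ∀ a b, (Γ.adjMatrix ℝ ^ (h + 1)) a b ≤ (Fintype.card α : ℝ) ^ h := by
  induction h with
  | zero =>
    intro a b
    simp only [zero_add, pow_one, pow_zero, SimpleGraph.adjMatrix_apply]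
    split_ifs <;> norm_num
  | succ h ih =>
    intro a b
    rw [pow_succ' (Γ.adjMatrix ℝ), SimpleGraph.adjMatrix_mul_apply]
    calc _ ≤ ∑ _u ∈ Γ.neighborFinset a, (Fintype.card α : ℝ) ^ h :=
          Finset.sum_le_sum (fun u _ => ih u b)
      _ = (Γ.neighborFinset a).card * (Fintype.card α : ℝ) ^ h := by simp
      _ ≤ _ := by
          rw [pow_succ']
          gcongr
          exact Finset.card_le_univ _

theorem w_even (h : ℕ) (a : α) : (∑ b, (Γ.adjMatrix ℝ ^ h) a b) ^ 2 ≤
    Fintype.card α * (Γ.adjMatrix ℝ ^ (2 * h)) a a := by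
  refine sq_sum_le_card_mul_sum_sq.trans (le_of_eq ?_)
  rw [two_mul, pow_add, Matrix.mul_apply, Finset.card_univ]
  congr 1
  exact Finset.sum_congr rfl (fun b _ => by rw [sq, w_symm Γ h b a])

theorem w_odd (z : α → α → α) (K : ℝ) (hK : 0 ≤ K)
    (hz : ∀ b c, Γ.Adj b c → Γ.Adj b (z b c) ∧ Γ.Adj c (z b c))
    (m1 : ∀ b a', Γ.Adj b a' → ((univ.filter (fun c => Γ.Adj b c ∧ z b c = a')).card : ℝ) ≤ K)
    (m2 : ∀ c a', Γ.Adj c a' → ((univ.filter (fun b => Γ.Adj b c ∧ z b c = a')).card : ℝ) ≤ K)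
    (g : ℕ) (a : α) (θ : ℝ) (hθ : 0 ≤ θ) :
    θ ^ 2 * (∑ b, (Γ.adjMatrix ℝ ^ (g + 2)) a b - (1 + K) * (Fintype.card α * θ)) ≤
      (Fintype.card α : ℝ) ^ g * K * (Γ.adjMatrix ℝ ^ (2 * g + 5)) a a := by
  set w : α → ℝ := fun b => (Γ.adjMatrix ℝ ^ (g + 1)) a b with hw
  set f : α → ℝ := fun x => (Γ.adjMatrix ℝ ^ (g + 2)) a x with hf
  have w0 : ∀ b, 0 ≤ w b := fun b => w_nonneg Γ _ _ _
  have f0 : ∀ b, 0 ≤ f b := fun b => w_nonneg Γ _ _ _
  have e1 : ∀ x, f x = ∑ b, if Γ.Adj b x then w b else 0 := by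
    intro x
    simp only [hf, hw]
    rw [pow_succ (Γ.adjMatrix ℝ) (g + 1), Matrix.mul_apply]
    refine Finset.sum_congr rfl (fun b _ => ?_)
    simp [SimpleGraph.adjMatrix_apply]
  have e2 : ∀ p : α → Prop, ∑ b, w b * (univ.filter (fun x => Γ.Adj b x ∧ p x)).card =
      ∑ x, if p x then f x else 0 := by
    intro p
    simp only [Finset.card_filter, Nat.cast_sum, Finset.mul_sum]
    rw [Finset.sum_comm]
    refine Finset.sum_congr rfl (fun x _ => ?_)
    by_cases t : p x
    · simp only [t, and_true, if_true, e1]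
      refine Finset.sum_congr rfl (fun b _ => ?_)
      split_ifs <;> simp
    · simp [t]
  have e3 : ∑ b, w b * (univ.filter (fun x => Γ.Adj b x ∧ f x < θ)).card ≤
      Fintype.card α * θ := by
    have := e2 (fun x => f x < θ)
    rw [show (∑ b, w b * ((univ.filter (fun x => Γ.Adj b x ∧ f x < θ)).card : ℝ)) =
      ∑ x, if f x < θ then f x else 0 by convert this]
    calc _ ≤ ∑ _x : α, θ := Finset.sum_le_sum (fun x _ => by split_ifs with t; exacts [t.le, hθ])
      _ = _ := by simp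
  have e4 : ∑ b, w b * (univ.filter (fun x => Γ.Adj b x)).card = ∑ x, f x := by
    simpa using e2 (fun _ => True)
  set good : α → Finset α := fun b =>
    univ.filter (fun c => Γ.Adj b c ∧ θ ≤ f c ∧ θ ≤ f (z b c)) with hgood
  have e5 : ∀ b, ((univ.filter (fun x => Γ.Adj b x)).card : ℝ) ≤
      (1 + K) * (univ.filter (fun x => Γ.Adj b x ∧ f x < θ)).card + (good b).card := by
    intro b
    have a1 : ((univ.filter (fun x => Γ.Adj b x ∧ f (z b x) < θ)).card : ℝ) ≤
        (univ.filter (fun x => Γ.Adj b x ∧ f x < θ)).card * K := by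
      refine card_le_mul_of_rel _ _ (fun x y => z b x = y) K ?_ ?_
      · intro x hx
        simp only [Finset.mem_filter, Finset.mem_univ, true_and] at hx ⊢
        exact ⟨_, ⟨(hz b x hx.1).1, hx.2⟩, rfl⟩
      · intro y hy
        refine le_trans (Nat.cast_le.2 (Finset.card_le_card ?_))
          (m1 b y (Finset.mem_filter.1 hy).2.1)
        intro x hx
        simp only [Finset.mem_filter, Finset.mem_univ, true_and] at hx ⊢
        exact ⟨hx.1.1, hx.2⟩
    have a2 : univ.filter (fun x => Γ.Adj b x) ⊆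
        (univ.filter (fun x => Γ.Adj b x ∧ f x < θ) ∪
          univ.filter (fun x => Γ.Adj b x ∧ f (z b x) < θ)) ∪ good b := by
      intro x hx
      simp only [hgood, Finset.mem_union, Finset.mem_filter, Finset.mem_univ, true_and] at hx ⊢
      by_cases t1 : f x < θ
      · exact Or.inl (Or.inl ⟨hx, t1⟩)
      by_cases t2 : f (z b x) < θ
      · exact Or.inl (Or.inr ⟨hx, t2⟩)
      · exact Or.inr ⟨hx, not_lt.1 t1, not_lt.1 t2⟩
    have a3 := (Nat.cast_le (α := ℝ)).2 ((Finset.card_le_card a2).trans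
      ((Finset.card_union_le _ _).trans (Nat.add_le_add_right (Finset.card_union_le _ _) _)))
    push_cast at a3
    linarith
  have e6 : ∑ x, f x - (1 + K) * (Fintype.card α * θ) ≤
      (Fintype.card α : ℝ) ^ g * ∑ b, ((good b).card : ℝ) := by
    have a1 : ∑ x, f x ≤ ∑ b, ((1 + K) * (w b * (univ.filter
        (fun x => Γ.Adj b x ∧ f x < θ)).card) + (Fintype.card α : ℝ) ^ g * (good b).card) := by
      rw [← e4]
      refine Finset.sum_le_sum (fun b _ => ?_)
      have b1 := mul_le_mul_of_nonneg_left (e5 b) (w0 b)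
      have b2 : w b * (good b).card ≤ (Fintype.card α : ℝ) ^ g * (good b).card :=
        mul_le_mul_of_nonneg_right (w_up Γ g a b) (by positivity)
      nlinarith
    rw [Finset.sum_add_distrib, ← Finset.mul_sum, ← Finset.mul_sum] at a1
    have a2 := mul_le_mul_of_nonneg_left e3 (show 0 ≤ 1 + K by linarith)
    linarith
  set E := univ.filter (fun q : α × α => Γ.Adj q.1 q.2 ∧ θ ≤ f q.1 ∧ θ ≤ f q.2) with hE
  have e7 : ∑ b, ((good b).card : ℝ) ≤ E.card * K := by
    have a1 : ∑ b, ((good b).card : ℝ) = (univ.filter (fun q : α × α =>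
        Γ.Adj q.1 q.2 ∧ θ ≤ f q.2 ∧ θ ≤ f (z q.1 q.2))).card := by
      rw [Finset.card_filter, Fintype.sum_prod_type]
      simp only [hgood, Finset.card_filter]
      push_cast
      rfl
    rw [a1]
    refine card_le_mul_of_rel _ _ (fun q q' => q.2 = q'.1 ∧ z q.1 q.2 = q'.2) K ?_ ?_
    · intro q hq
      simp only [Finset.mem_filter, Finset.mem_univ, true_and] at hq
      refine ⟨(q.2, z q.1 q.2), ?_, rfl, rfl⟩
      simp only [hE, Finset.mem_filter, Finset.mem_univ, true_and]
      exact ⟨(hz _ _ hq.1).2, hq.2⟩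
    · rintro ⟨x, y⟩ hq
      refine le_trans (Nat.cast_le.2 (Finset.card_le_card_of_injOn (fun q => q.1) ?_ ?_))
        (m2 x y (Finset.mem_filter.1 hq).2.1)
      · rintro ⟨b, x'⟩ hq'
        simp only [Finset.coe_filter, Finset.mem_filter, Finset.mem_univ, true_and,
          Set.mem_ofPred_eq] at hq' ⊢
        obtain ⟨h1, rfl, h3⟩ := hq'
        exact ⟨h1.1, h3⟩
      · rintro ⟨b, x'⟩ hq' ⟨b', x''⟩ hq'' e
        simp only [Finset.coe_filter, Finset.mem_filter, Finset.mem_univ, true_and,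
          Set.mem_ofPred_eq] at hq' hq'' e
        rw [e, hq'.2.1, hq''.2.1]
  have e8 : θ ^ 2 * E.card ≤ (Γ.adjMatrix ℝ ^ (2 * g + 5)) a a := by
    have a1 : (Γ.adjMatrix ℝ ^ (2 * g + 5)) a a =
        ∑ q : α × α, if Γ.Adj q.1 q.2 then f q.1 * f q.2 else 0 := by
      rw [show 2 * g + 5 = (g + 2) + (1 + (g + 2)) by ring, pow_add _ (g + 2), pow_add _ 1, pow_one,
        Matrix.mul_apply, Fintype.sum_prod_type]
      refine Finset.sum_congr rfl (fun x _ => ?_)
      rw [Matrix.mul_apply, Finset.mul_sum]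
      refine Finset.sum_congr rfl (fun y _ => ?_)
      simp only [hf, SimpleGraph.adjMatrix_apply, w_symm Γ (g + 2) y a]
      split_ifs <;> simp
    rw [a1, hE, Finset.card_filter]
    push_cast
    rw [Finset.mul_sum]
    refine Finset.sum_le_sum (fun q _ => ?_)
    by_cases t : Γ.Adj q.1 q.2 ∧ θ ≤ f q.1 ∧ θ ≤ f q.2
    · rw [if_pos t, if_pos t.1, mul_one, sq]
      exact mul_le_mul t.2.1 t.2.2 hθ (f0 _)
    · rw [if_neg t, mul_zero]
      split_ifs
      · exact mul_nonneg (f0 _) (f0 _)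
      · exact le_rfl
  calc _ ≤ θ ^ 2 * ((Fintype.card α : ℝ) ^ g * (E.card * K)) := by
        refine mul_le_mul_of_nonneg_left (e6.trans ?_) (by positivity)
        gcongr
    _ = (Fintype.card α : ℝ) ^ g * K * (θ ^ 2 * E.card) := by ring
    _ ≤ _ := by gcongr

end walks

/-- cyclic successor -/
def nxt {m : ℕ} (i : Fin m) : Fin m :=
  if h : i.val + 1 < m then ⟨i.val + 1, h⟩ else ⟨0, lt_of_le_of_lt (Nat.zero_le _) i.isLt⟩

theorem nxt_spec {m : ℕ} (i : Fin m) :
    (i.val + 1 < m ∧ (nxt i).val = i.val + 1) ∨ (i.val + 1 = m ∧ (nxt i).val = 0) := by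
  unfold nxt
  split_ifs with h
  · exact Or.inl ⟨h, rfl⟩
  · exact Or.inr ⟨by have := i.isLt; omega, rfl⟩

theorem TF_cycle {m : ℕ} (hm : 4 ≤ m) : TF (id : Fin m → Fin m) nxt where
  h1 := by
    intro e h
    have := nxt_spec e
    simp only [id, Fin.ext_iff] at h
    omega
  h2 := by
    intro e e' hne
    by_contra hcon
    simp only [vars, id, Finset.mem_insert, Finset.mem_singleton, not_exists, not_and, not_not,
      Fin.ext_iff, ne_eq] at hcon hne
    have := nxt_spec e
    have := nxt_spec e'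
    have a1 := hcon e (Or.inl rfl)
    have a2 := hcon (nxt e) (Or.inr rfl)
    omega
  h3 := by
    intro e1 e2 e3 n1 n2 n3
    by_contra hcon
    have k1 : ∀ x ∈ vars id nxt (inr e1 : Fin m ⊕ Fin m),
        x ∈ vars id nxt (inr e2 : Fin m ⊕ Fin m) ∨ x ∈ vars id nxt (inr e3 : Fin m ⊕ Fin m) := by
      intro x hx
      by_contra t
      exact hcon ⟨x, Or.inl ⟨hx, not_or.1 t⟩⟩
    have k2 : ∀ x ∈ vars id nxt (inr e2 : Fin m ⊕ Fin m),
        x ∈ vars id nxt (inr e1 : Fin m ⊕ Fin m) ∨ x ∈ vars id nxt (inr e3 : Fin m ⊕ Fin m) := by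
      intro x hx
      by_contra t
      exact hcon ⟨x, Or.inr (Or.inl ⟨hx, not_or.1 t⟩)⟩
    simp only [vars, id, Finset.mem_insert, Finset.mem_singleton, forall_eq_or_imp,
      forall_eq] at k1 k2
    simp only [Fin.ext_iff, ne_eq] at k1 k2 n1 n2 n3
    have s1 := nxt_spec e1
    have s2 := nxt_spec e2
    have s3 := nxt_spec e3
    obtain ⟨a1, a2⟩ := k1
    obtain ⟨a3, a4⟩ := k2
    have b1 : e1.val = (nxt e2).val ∨ e1.val = (nxt e3).val := by clear a2 a3 a4 s1 s2 s3; omega
    have b2 : (nxt e1).val = e2.val ∨ (nxt e1).val = e3.val := by clear a1 a3 a4 b1; omega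
    have b3 : e2.val = (nxt e1).val ∨ e2.val = (nxt e3).val := by
      clear a1 a2 a4 s1 s2 s3 b1 b2; omega
    have b4 : (nxt e2).val = e1.val ∨ (nxt e2).val = e3.val := by clear a1 a2 a3 b1 b2 b3; omega
    clear a1 a2 a3 a4
    omega

variable {α : Type*} [Fintype α] [DecidableEq α]

/-- the short-line graph -/
def sgraph {P : Finset α} {c : Tern α} (l : IsLin P c) (K : ℝ) : SimpleGraph α where
  Adj := sadj c K
  symm := ⟨fun _ _ h => h.symm l⟩
  loopless := ⟨fun _ h => by obtain ⟨⟨z, hz⟩, -⟩ := h; exact l.ne hz rfl⟩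

theorem trace_le_homs {P : Finset α} {c : Tern α} (l : IsLin P c) (K : ℝ) {m : ℕ} (hm : 0 < m) :
    ∑ a, ((sgraph l K).adjMatrix ℝ ^ m) a a ≤
      (homs (id : Fin m → Fin m) nxt c K P).card := by
  simp only [SimpleGraph.adjMatrix_pow_apply_eq_card_walk, SimpleGraph.card_set_walk_length_eq]
  rw [← Nat.cast_sum, ← Finset.card_sigma]
  refine Nat.cast_le.2 (Finset.card_le_card_of_injOn
    (fun p (i : Fin m) => p.2.getVert i) ?_ ?_)
  · rintro ⟨a, p⟩ hp
    simp only [Finset.coe_sigma, Finset.coe_univ, Set.mem_sigma_iff, Set.mem_univ,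
      Finset.mem_coe, SimpleGraph.mem_finsetWalkLength_iff, true_and] at hp
    have key : ∀ e : Fin m, sadj c K (p.getVert e) (p.getVert (nxt e)) := by
      intro e
      have h1 : (sgraph l K).Adj (p.getVert e) (p.getVert (e + 1)) :=
        p.adj_getVert_succ (by rw [hp]; exact e.isLt)
      rcases nxt_spec e with h | h
      · rw [h.2]; exact h1
      · rw [h.2, p.getVert_zero]
        rw [h.1.trans hp.symm, p.getVert_length] at h1
        exact h1
    simp only [Finset.mem_coe, mem_homs]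
    exact ⟨fun v => by obtain ⟨⟨z, hz⟩, -⟩ := key v; exact l.mem hz, key⟩
  · rintro ⟨a, p⟩ hp ⟨b, q⟩ hq e
    simp only [Finset.coe_sigma, Finset.coe_univ, Set.mem_sigma_iff, Set.mem_univ,
      Finset.mem_coe, SimpleGraph.mem_finsetWalkLength_iff, true_and] at hp hq
    have e0 : a = b := by simpa using congrFun e ⟨0, hm⟩
    subst e0
    congr 1
    refine p.ext_getVert_le_length (hp.trans hq.symm) (fun k hk => ?_)
    rcases hk.eq_or_lt with h | h
    · rw [h, p.getVert_length, hp, ← hq, q.getVert_length]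
    · exact congrFun e ⟨k, hp ▸ h⟩

theorem U_cycle_long {m : ℕ} (hm : 4 ≤ m) : U univ (hG (id : Fin m → Fin m) nxt) := by
  refine U_expand (TF_cycle hm) (3 * m) 32 (by norm_num) ?_
  intro k P c K l hK hP hD
  obtain ⟨x0, hx0⟩ := hP
  have k1 : 0 < k := lt_of_le_of_lt (Nat.zero_le _) x0.isLt
  have k0 : (0 : ℝ) < k := by exact_mod_cast k1
  have K0 : 0 < K := by linarith
  have K1 : 1 ≤ K := by linarith
  set Γ := sgraph l K with hΓ
  have hP : ∀ a b, Γ.Adj a b → b ∈ P := fun a b h => by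
    obtain ⟨⟨z, hz⟩, -⟩ := h; exact l.mem (l.sw1 hz)
  have hD' : ∀ x ∈ P, k / K ≤ (Γ.neighborFinset x).card := by
    intro x hx
    rw [SimpleGraph.neighborFinset_eq_filter]
    convert hD x hx
    exact Iff.rfl
  have hPc : k / K ≤ P.card := by
    refine (hD' x0 hx0).trans (Nat.cast_le.2 (Finset.card_le_card ?_))
    intro y hy
    exact hP x0 y (by simpa using hy)
  have row := w_row Γ hP (by positivity) hD'
  have tr := trace_le_homs l K (show 0 < m by omega)
  have key : ∀ B : ℝ, 0 ≤ B → (∀ a ∈ P, B ≤ (Γ.adjMatrix ℝ ^ m) a a) →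
      k / K * B ≤ (homs (id : Fin m → Fin m) nxt c K P).card := by
    intro B B0 hB
    calc k / K * B ≤ P.card * B := by gcongr
      _ = ∑ _a ∈ P, B := by simp
      _ ≤ ∑ a ∈ P, (Γ.adjMatrix ℝ ^ m) a a := Finset.sum_le_sum hB
      _ ≤ ∑ a, (Γ.adjMatrix ℝ ^ m) a a := Finset.sum_le_sum_of_subset_of_nonneg
          (Finset.subset_univ _) (fun a _ _ => w_nonneg Γ _ _ _)
      _ ≤ _ := tr
  rw [Fintype.card_fin]
  rcases Nat.even_or_odd' m with ⟨h, e | e⟩
  · have a1 := key ((k / K) ^ m / k) (by positivity) (by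
      intro a ha
      have b1 := w_even Γ h a
      rw [Fintype.card_fin, ← e] at b1
      rw [div_le_iff₀' k0]
      refine le_trans ?_ b1
      rw [e, mul_comm 2 h, pow_mul]
      exact pow_le_pow_left₀ (by positivity) (row h a ha) 2)
    have a2 : (k : ℝ) ^ m = K ^ (m + 1) * (k / K * ((k / K) ^ m / k)) := by
      rw [div_pow]; field_simp; ring
    rw [a2]
    refine mul_le_mul ?_ a1 (by positivity) (by positivity)
    have : K ^ (m + 1) ≤ K ^ (3 * m) := pow_le_pow_right₀ K1 (by omega)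
    have : 0 ≤ K ^ (3 * m) := by positivity
    linarith
  · obtain ⟨g, rfl⟩ : ∃ g, h = g + 2 := ⟨h - 2, by omega⟩
    have em : m = 2 * g + 5 := by omega
    set θ : ℝ := (k / K) ^ (g + 2) / (4 * K * k) with hθ
    have a1 := key (θ ^ 2 * ((k / K) ^ (g + 2) / 2) / (k ^ g * K)) (by positivity) (by
      intro a ha
      have b1 := w_odd Γ (third c) K K0.le (fun b d h =>
        ⟨sadj.third l h (third_spec h.1), sadj.third l (h.symm) (l.sw1 (third_spec h.1))⟩)
        (by
          intro b a' h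
          refine le_trans (Nat.cast_le.2 (Finset.card_le_card ?_)) h.2
          intro d hd
          simp only [Finset.mem_filter, Finset.mem_univ, true_and] at hd ⊢
          exact l.sw2 (hd.2 ▸ third_spec hd.1.1))
        (by
          intro d a' h
          refine le_trans (Nat.cast_le.2 (Finset.card_le_card ?_)) h.2
          intro b hb
          simp only [Finset.mem_filter, Finset.mem_univ, true_and] at hb ⊢
          exact l.rot (hb.2 ▸ third_spec hb.1.1)) g a θ (by positivity)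
      rw [Fintype.card_fin, ← em] at b1
      rw [div_le_iff₀' (by positivity)]
      refine le_trans (mul_le_mul_of_nonneg_left ?_ (by positivity)) b1
      have b2 := row (g + 2) a ha
      have b3 : (1 + K) * (k * θ) ≤ (k / K) ^ (g + 2) / 2 := by
        calc (1 + K) * (k * θ) ≤ (2 * K) * (k * θ) := by gcongr; linarith
          _ = _ := by rw [hθ]; field_simp; ring
      linarith)
    have a2 : (k : ℝ) ^ m = 32 * K ^ (3 * g + 10) *
        (k / K * (θ ^ 2 * ((k / K) ^ (g + 2) / 2) / (k ^ g * K))) := by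
      have eD : ((k : ℝ) / K) ^ (g + 2) = k ^ g * k ^ 2 / (K ^ g * K ^ 2) := by
        rw [div_pow, pow_add, pow_add]
      have hX : (0 : ℝ) < k ^ g := by positivity
      have hY : (0 : ℝ) < K ^ g := by positivity
      rw [hθ, eD, em, show (k : ℝ) ^ (2 * g + 5) = (k ^ g) ^ 2 * k ^ 5 by ring,
        show K ^ (3 * g + 10) = (K ^ g) ^ 3 * K ^ 10 by ring]
      generalize (k : ℝ) ^ g = X at hX ⊢
      generalize K ^ g = Y at hY ⊢
      field_simp
      ring
    rw [a2]
    refine mul_le_mul ?_ a1 (by positivity) (by positivity)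
    have : K ^ (3 * g + 10) ≤ K ^ (3 * m) := pow_le_pow_right₀ K1 (by omega)
    linarith

instance {m : ℕ} (u v w : Fin m ⊕ Fin m) : Decidable (hG (id : Fin m → Fin m) nxt u v w) := by
  unfold hG onl; infer_instance

theorem U_cycle {m : ℕ} (hm : 3 ≤ m) : U univ (hG (id : Fin m → Fin m) nxt) := by
  rcases hm.eq_or_lt with rfl | h
  · refine U_W.of_imp (Sum.elim ![0, 1, 2] ![3, 5, 4]) ⟨fun _ _ => Finset.mem_univ _, ?_, ?_⟩
    · simp only [Finset.mem_univ, true_imp_iff]; decide
    · simp only [Finset.mem_univ, true_imp_iff]; decide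
  · exact U_cycle_long h

end Pool.Agent.MP_c3fbfc_co

end MrgPart2

-- ======== part 3: formerly Pool.Agent.MP_c3fbfc_co.Forest
section MrgPart3

/-! Every linear triple system in which any `j` triples cover at least `2 j` points is
unavoidable. -/

namespace Pool.Agent.MP_c3fbfc_co

open Finset Filter Sum
open scoped Classical

variable {β : Type*}

theorem U.of_image {γ : Type*} [Fintype γ] [Nonempty γ] {hγ : Tern γ} (H : U univ hγ)
    {h : Tern β} (g : γ → β) (hg : Function.Injective g)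
    (e : ∀ u v w, hγ u v w ↔ h (g u) (g v) (g w)) : U (univ.image g) h := by
  have inv := Function.leftInverse_invFun hg
  refine H.of_imp (Function.invFun g) ⟨fun _ _ => Finset.mem_univ _, ?_, ?_⟩
  · intro a ha b hb t
    obtain ⟨u, -, rfl⟩ := Finset.mem_image.1 ha
    obtain ⟨v, -, rfl⟩ := Finset.mem_image.1 hb
    rw [inv, inv] at t
    rw [t]
  · intro a ha b hb d hd
    obtain ⟨u, -, rfl⟩ := Finset.mem_image.1 ha
    obtain ⟨v, -, rfl⟩ := Finset.mem_image.1 hb
    obtain ⟨w, -, rfl⟩ := Finset.mem_image.1 hd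
    rw [inv, inv, inv, e]

theorem exists_prev {m : ℕ} (i : Fin m) : ∃ j, nxt j = i := by
  have hi := i.isLt
  by_cases h : i.val = 0
  · refine ⟨⟨m - 1, by omega⟩, Fin.ext ?_⟩
    have := nxt_spec (⟨m - 1, by omega⟩ : Fin m)
    simp only at this
    omega
  · refine ⟨⟨i.val - 1, by omega⟩, Fin.ext ?_⟩
    have := nxt_spec (⟨i.val - 1, by omega⟩ : Fin m)
    simp only at this
    omega

/-- the ternary relation of a triple system -/
def hT (𝓗 : Finset (Finset β)) : Tern β := fun u v w => ({u, v, w} : Finset β) ∈ 𝓗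

/-- linear triple system -/
structure LinSys (𝓗 : Finset (Finset β)) : Prop where
  three : ∀ A ∈ 𝓗, A.card = 3
  lin : ∀ A ∈ 𝓗, ∀ B ∈ 𝓗, ∀ u v, u ≠ v → u ∈ A → v ∈ A → u ∈ B → v ∈ B → A = B

variable {𝓗 : Finset (Finset β)}

theorem LinSys.sym (H : LinSys 𝓗) : IsSym (hT 𝓗) where
  ne := by
    rintro a b d h rfl
    have h1 := H.three _ h
    rw [Finset.insert_idem] at h1
    have := Finset.card_le_two (a := a) (b := d)
    omega
  sw1 := by
    intro a b d h
    unfold hT at h ⊢
    rwa [Finset.insert_comm]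
  sw2 := by
    intro a b d h
    unfold hT at h ⊢
    rwa [Finset.pair_comm]

theorem eq_triple [DecidableEq β] {A : Finset β} (hA : A.card = 3) {u v w : β} (h1 : u ≠ v) (h2 : u ≠ w)
    (h3 : v ≠ w) (hu : u ∈ A) (hv : v ∈ A) (hw : w ∈ A) : ({u, v, w} : Finset β) = A := by
  refine Finset.eq_of_subset_of_card_le ?_ ?_
  · intro z hz
    simp only [Finset.mem_insert, Finset.mem_singleton] at hz
    rcases hz with rfl | rfl | rfl <;> assumption
  · rw [hA, Finset.card_eq_three.2 ⟨u, v, w, h1, h2, h3, rfl⟩]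

theorem exists_third [DecidableEq β] {A : Finset β} (hA : A.card = 3) {u v : β} (h1 : u ≠ v) (hu : u ∈ A)
    (hv : v ∈ A) : ∃ w, u ≠ w ∧ v ≠ w ∧ A = {u, v, w} := by
  obtain ⟨w, hw, hw'⟩ := Finset.exists_mem_notMem_of_card_lt_card
    (s := ({u, v} : Finset β)) (t := A) (by rw [hA, Finset.card_pair h1]; norm_num)
  simp only [Finset.mem_insert, Finset.mem_singleton, not_or] at hw'
  exact ⟨w, Ne.symm hw'.1, Ne.symm hw'.2,
    (eq_triple hA h1 (Ne.symm hw'.1) (Ne.symm hw'.2) hu hv hw).symm⟩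

theorem exists_cycle_part [Finite β] (H : LinSys 𝓗) (Q : Finset β) (L : Finset (Finset β))
    (hL : ∀ A, A ∈ L ↔ A ∈ 𝓗 ∧ A ⊆ Q) (hne : L.Nonempty)
    (h1 : ∀ A ∈ L, ∃ z ∈ A, (L.filter (fun B => z ∈ B)).card = 1 ∧
      ∀ x ∈ A, x ≠ z → (L.filter (fun B => x ∈ B)).card = 2) :
    ∃ C ⊆ Q, C.Nonempty ∧ U C (hT 𝓗) ∧ ∀ A ∈ L, ∀ x ∈ A, x ∈ C → A ⊆ C := by
  set deg : β → ℕ := fun x => (L.filter (fun B => x ∈ B)).card with hdeg
  have other : ∀ A ∈ L, ∀ u ∈ A, deg u = 2 → ∃ u', u ≠ u' ∧ u' ∈ A ∧ deg u' = 2 ∧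
      ∀ w ∈ A, deg w = 2 → w = u ∨ w = u' := by
    intro A hA u hu hd
    obtain ⟨z, hz, z1, z2⟩ := h1 A hA
    have huz : u ≠ z := by rintro rfl; simp only [hdeg] at hd; omega
    obtain ⟨u', a1, a2, a3⟩ := exists_third (H.three A ((hL A).1 hA).1) huz hu hz
    have hu' : u' ∈ A := by rw [a3]; simp
    refine ⟨u', a1, hu', z2 u' hu' a2.symm, ?_⟩
    intro w hw hwd
    rw [a3] at hw
    simp only [Finset.mem_insert, Finset.mem_singleton] at hw
    rcases hw with hw | hw | hw
    · exact Or.inl hw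
    · rw [hw] at hwd; simp only [hdeg] at hwd; omega
    · exact Or.inr hw
  let Γ : SimpleGraph β :=
    { Adj := fun u v => u ≠ v ∧ deg u = 2 ∧ deg v = 2 ∧ ∃ A ∈ L, u ∈ A ∧ v ∈ A
      symm := ⟨fun u v ⟨a, b, c, A, d, e, f⟩ => ⟨a.symm, c, b, A, d, f, e⟩⟩
      loopless := ⟨fun u h => h.1 rfl⟩ }
  have hΓ : Γ.IsCycles := by
    rintro v ⟨w, -, hv, -⟩
    obtain ⟨A, B, hAB, e⟩ := Finset.card_eq_two.1 hv
    have mem : ∀ D, (D ∈ L ∧ v ∈ D) ↔ (D = A ∨ D = B) := by
      intro D
      rw [← Finset.mem_filter (p := fun B => v ∈ B), e]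
      simp
    have hA := (mem A).2 (Or.inl rfl)
    have hB := (mem B).2 (Or.inr rfl)
    obtain ⟨a, a1, a2, a3, a4⟩ := other A hA.1 v hA.2 hv
    obtain ⟨b, b1, b2, b3, b4⟩ := other B hB.1 v hB.2 hv
    refine Set.ncard_eq_two.2 ⟨a, b, ?_, ?_⟩
    · rintro rfl
      exact hAB (H.lin A ((hL A).1 hA.1).1 B ((hL B).1 hB.1).1 v a a1 hA.2 a2 hB.2 b2)
    · ext x
      simp only [SimpleGraph.mem_neighborSet, Set.mem_insert_iff, Set.mem_singleton_iff]
      constructor
      · rintro ⟨c1, -, c2, D, c3, c4, c5⟩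
        rcases (mem D).1 ⟨c3, c4⟩ with rfl | rfl
        · exact Or.inl ((a4 x c5 c2).resolve_left c1.symm)
        · exact Or.inr ((b4 x c5 c2).resolve_left c1.symm)
      · rintro (rfl | rfl)
        · exact ⟨a1, hv, a3, A, hA.1, hA.2, a2⟩
        · exact ⟨b1, hv, b3, B, hB.1, hB.2, b2⟩
  obtain ⟨A0, hA0⟩ := hne
  obtain ⟨z0, hz0, -, z2⟩ := h1 A0 hA0
  obtain ⟨v0, hv0, hv0z⟩ := Finset.exists_mem_ne
    (by rw [H.three A0 ((hL A0).1 hA0).1]; norm_num : 1 < A0.card) z0
  obtain ⟨v1, c1, c2, c3, -⟩ := other A0 hA0 v0 hv0 (z2 v0 hv0 hv0z)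
  obtain ⟨p, hp, -⟩ := hΓ.exists_cycle_toSubgraph_verts_eq_connectedComponentSupp
    (c := Γ.connectedComponentMk v0) (v := v0) rfl
    ⟨v1, c1, z2 v0 hv0 hv0z, c3, A0, hA0, hv0, c2⟩
  have hm := hp.three_le_length
  set v : Fin p.length → β := fun i => p.getVert i with hv
  have vinj : Function.Injective v := by
    intro i j e
    have hi := i.isLt
    have hj := j.isLt
    exact Fin.ext (hp.getVert_injOn' (by simp only [Set.mem_ofPred_eq]; omega)
      (by simp only [Set.mem_ofPred_eq]; omega) e)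
  have vadj : ∀ i, Γ.Adj (v i) (v (nxt i)) := by
    intro i
    have h1 : Γ.Adj (p.getVert i) (p.getVert (i + 1)) := p.adj_getVert_succ i.isLt
    simp only [hv]
    rcases nxt_spec i with h | h
    · rw [h.2]; exact h1
    · rw [h.2, p.getVert_zero]
      rw [h.1, p.getVert_length] at h1
      exact h1
  have hA : ∀ i, ∃ A ∈ L, ∃ z, deg z = 1 ∧ A = {v i, v (nxt i), z} := by
    intro i
    obtain ⟨a1, a2, a3, A, a4, a5, a6⟩ := vadj i
    obtain ⟨z, hz, z1, -⟩ := h1 A a4
    refine ⟨A, a4, z, z1, (eq_triple (H.three A ((hL A).1 a4).1) a1 ?_ ?_ a5 a6 hz).symm⟩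
    · rintro e; rw [e] at a2; simp only [hdeg] at a2; omega
    · rintro e; rw [e] at a3; simp only [hdeg] at a3; omega
  choose A hAL z hz hAz using hA
  have vz : ∀ i j, v i ≠ z j := by
    intro i j e
    have := (vadj i).2.1
    rw [e, hz] at this
    omega
  have memA : ∀ i j, v j ∈ A i ↔ (j = i ∨ j = nxt i) := by
    intro i j
    rw [hAz]
    simp [vinj.eq_iff, vz j i]
  have Ainj : ∀ i j, A i = A j → i = j := by
    intro i j e
    have a1 := (memA j i).1 (e ▸ (memA i i).2 (Or.inl rfl))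
    have a2 := (memA j (nxt i)).1 (e ▸ (memA i (nxt i)).2 (Or.inr rfl))
    have := nxt_spec i
    have := nxt_spec j
    simp only [Fin.ext_iff] at a1 a2 ⊢
    omega
  have zA : ∀ i, ∀ D ∈ L, z i ∈ D → D = A i := by
    intro i D hD hzD
    exact Finset.card_le_one.1 (hz i).le D (Finset.mem_filter.2 ⟨hD, hzD⟩) (A i)
      (Finset.mem_filter.2 ⟨hAL i, by rw [hAz]; simp⟩)
  have vA : ∀ i, ∀ D ∈ L, v i ∈ D → ∃ j, D = A j := by
    intro i D hD hvD
    obtain ⟨j, hj⟩ := exists_prev i
    have hij : A i ≠ A j := by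
      intro e
      have := Ainj i j e
      have := nxt_spec j
      simp only [Fin.ext_iff] at *
      omega
    have a1 : ({A i, A j} : Finset (Finset β)) = L.filter (fun B => v i ∈ B) := by
      refine Finset.eq_of_subset_of_card_le ?_ ?_
      · intro B hB
        simp only [Finset.mem_insert, Finset.mem_singleton] at hB
        rcases hB with rfl | rfl
        · exact Finset.mem_filter.2 ⟨hAL i, (memA i i).2 (Or.inl rfl)⟩
        · exact Finset.mem_filter.2 ⟨hAL j, (memA j i).2 (Or.inr hj.symm)⟩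
      · rw [Finset.card_pair hij]
        exact (vadj i).2.1.le
    have a2 : D ∈ ({A i, A j} : Finset (Finset β)) := a1 ▸ Finset.mem_filter.2 ⟨hD, hvD⟩
    simp only [Finset.mem_insert, Finset.mem_singleton] at a2
    rcases a2 with a2 | a2
    · exact ⟨i, a2⟩
    · exact ⟨j, a2⟩
  set g : Fin p.length ⊕ Fin p.length → β := Sum.elim v z with hg
  have ginj : Function.Injective g := by
    rintro (i | i) (j | j) e
    · rw [vinj e]
    · exact absurd e (vz i j)
    · exact absurd e.symm (vz j i)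
    · have e' : z i = z j := e
      rw [Ainj i j (zA j (A i) (hAL i) (by rw [hAz, ← e']; simp))]
  have gA : ∀ u i, g u ∈ A i ↔ onl id nxt i u := by
    intro u i
    rw [hAz]
    simp only [Finset.mem_insert, Finset.mem_singleton, onl, id]
    rw [← ginj.eq_iff, ← ginj.eq_iff, ← ginj.eq_iff]
    rfl
  have gA' : ∀ u, ∀ D ∈ L, g u ∈ D → ∃ j, D = A j := by
    rintro (i | i) D hD h
    · exact vA i D hD h
    · exact ⟨i, zA i D hD h⟩
  have gQ : ∀ u, g u ∈ Q := by
    rintro (i | i)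
    · exact ((hL _).1 (hAL i)).2 ((gA (inl i) i).2 (Or.inl rfl))
    · exact ((hL _).1 (hAL i)).2 ((gA (inr i) i).2 (Or.inr (Or.inr rfl)))
  have : Nonempty (Fin p.length ⊕ Fin p.length) := ⟨inl ⟨0, by omega⟩⟩
  refine ⟨univ.image g, ?_, Finset.univ_nonempty.image g, ?_, ?_⟩
  · intro x hx
    obtain ⟨u, -, rfl⟩ := Finset.mem_image.1 hx
    exact gQ u
  · refine (U_cycle hm).of_image g ginj ?_
    intro u1 u2 u3
    constructor
    · rintro ⟨a1, a2, a3, e, b1, b2, b3⟩
      unfold hT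
      rw [eq_triple (H.three _ ((hL _).1 (hAL e)).1) (ginj.ne a1) (ginj.ne a2) (ginj.ne a3)
        ((gA u1 e).2 b1) ((gA u2 e).2 b2) ((gA u3 e).2 b3)]
      exact ((hL _).1 (hAL e)).1
    · intro t
      have hD : ({g u1, g u2, g u3} : Finset β) ∈ L := by
        refine (hL _).2 ⟨t, ?_⟩
        intro x hx
        simp only [Finset.mem_insert, Finset.mem_singleton] at hx
        rcases hx with rfl | rfl | rfl <;> exact gQ _
      obtain ⟨e, he⟩ := gA' u1 _ hD (by simp)
      refine ⟨fun e => H.sym.ne t (by rw [e]), fun e => H.sym.ne2 t (by rw [e]),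
        fun e => H.sym.ne3 t (by rw [e]), e, ?_, ?_, ?_⟩ <;>
        (rw [← gA, ← he]; simp)
  · intro D hD x hx hxC
    obtain ⟨u, -, rfl⟩ := Finset.mem_image.1 hxC
    obtain ⟨j, rfl⟩ := gA' u D hD hx
    intro y hy
    rw [hAz] at hy
    simp only [Finset.mem_insert, Finset.mem_singleton] at hy
    rcases hy with rfl | rfl | rfl
    · exact Finset.mem_image.2 ⟨inl j, Finset.mem_univ _, rfl⟩
    · exact Finset.mem_image.2 ⟨inl (nxt j), Finset.mem_univ _, rfl⟩
    · exact Finset.mem_image.2 ⟨inr j, Finset.mem_univ _, rfl⟩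

theorem U_closed (H : LinSys 𝓗) {Q C : Finset β} (hC : C ⊆ Q) (h1 : U C (hT 𝓗))
    (h2 : U (Q \ C) (hT 𝓗)) (h3 : ∀ A ∈ 𝓗, A ⊆ Q → ∀ x ∈ A, x ∈ C → A ⊆ C) :
    U Q (hT 𝓗) := by
  have := U.union H.sym h1 h2 Finset.disjoint_sdiff (by
    intro u hu v hv w hw t
    rw [Finset.union_sdiff_of_subset hC] at hw
    rw [Finset.mem_sdiff] at hv
    refine hv.2 (h3 _ t ?_ u (by simp) hu (by simp))
    intro x hx
    simp only [Finset.mem_insert, Finset.mem_singleton] at hx
    rcases hx with rfl | rfl | rfl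
    exacts [hC hu, hv.1, hw])
  rwa [Finset.union_sdiff_of_subset hC] at this

theorem U_pseudoforest [Finite β] (H : LinSys 𝓗)
    (hF : ∀ 𝓢 ⊆ 𝓗, 2 * 𝓢.card ≤ (𝓢.biUnion id).card) (Q : Finset β) : U Q (hT 𝓗) := by
  induction Q using Finset.strongInduction with
  | H Q ih =>
    rcases Q.eq_empty_or_nonempty with rfl | hQ
    · exact U_empty _
    set L := 𝓗.filter (fun A => A ⊆ Q) with hLdef
    have hL : ∀ A, A ∈ L ↔ A ∈ 𝓗 ∧ A ⊆ Q := fun A => Finset.mem_filter
    set deg : β → ℕ := fun x => (L.filter (fun B => x ∈ B)).card with hdeg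
    by_cases c1 : ∃ x ∈ Q, deg x = 0
    · obtain ⟨x, hx, hd⟩ := c1
      refine U_closed H (C := {x}) (by simpa using hx) (U_single H.sym x)
        (ih _ (Finset.sdiff_ssubset (by simpa using hx) (by simp))) ?_
      intro A hA hAQ y hy hyx
      rw [Finset.mem_singleton.1 hyx] at hy
      have : A ∈ L.filter (fun B => x ∈ B) := Finset.mem_filter.2 ⟨(hL A).2 ⟨hA, hAQ⟩, hy⟩
      rw [Finset.card_eq_zero.1 hd] at this
      exact absurd this (Finset.notMem_empty _)
    by_cases c2 : ∃ A ∈ L, ∃ x ∈ A, ∃ y ∈ A, x ≠ y ∧ deg x = 1 ∧ deg y = 1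
    · obtain ⟨A, hA, x, hx, y, hy, hxy, dx, dy⟩ := c2
      obtain ⟨hA1, hA2⟩ := (hL A).1 hA
      obtain ⟨a, a1, a2, a3⟩ := exists_third (H.three A hA1) hxy hx hy
      set Q0 := (Q.erase y).erase x with hQ0
      have e : insert y (insert x Q0) = Q := by
        rw [hQ0, Finset.insert_erase (Finset.mem_erase.2 ⟨hxy, hA2 hx⟩),
          Finset.insert_erase (hA2 hy)]
      have m0 : ∀ w, w ∈ Q0 ↔ w ≠ x ∧ w ≠ y ∧ w ∈ Q := by intro w; simp [hQ0]
      have only : ∀ t, deg t = 1 → t ∈ A → t ∈ Q → ∀ v ∈ Q, ∀ w ∈ Q, hT 𝓗 t v w →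
          ({t, v, w} : Finset β) = A := by
        intro t dt ht htQ v hv w hw h
        refine Finset.card_le_one.1 dt.le _ (Finset.mem_filter.2 ⟨(hL _).2 ⟨h, ?_⟩, by simp⟩) _
          (Finset.mem_filter.2 ⟨hA, ht⟩)
        intro s hs
        simp only [Finset.mem_insert, Finset.mem_singleton] at hs
        rcases hs with rfl | rfl | rfl <;> assumption
      rw [← e]
      refine U.pendant H.sym (ih Q0 ?_) (a := a) ?_ (by simp [m0]) (by simp [m0]) ?_ ?_ ?_ ?_
      · exact Finset.ssubset_of_subset_of_ssubset (Finset.erase_subset _ _)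
          (Finset.erase_ssubset (hA2 hy))
      · exact (m0 a).2 ⟨a1.symm, a2.symm, hA2 (by rw [a3]; simp)⟩
      · refine H.sym.rot' ?_
        unfold hT
        rwa [← a3]
      · intro v hv w hw h
        rw [m0] at hv hw
        have := only x dx hx (hA2 hx) v hv.2.2 w hw.2.2 h
        rw [← this] at hy
        simp only [Finset.mem_insert, Finset.mem_singleton] at hy
        rcases hy with t | t | t
        exacts [hxy t.symm, hv.2.1 t.symm, hw.2.1 t.symm]
      · intro v hv w hw h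
        rw [m0] at hv hw
        have := only y dy hy (hA2 hy) v hv.2.2 w hw.2.2 h
        rw [← this] at hx
        simp only [Finset.mem_insert, Finset.mem_singleton] at hx
        rcases hx with t | t | t
        exacts [hxy t, hv.1 t.symm, hw.1 t.symm]
      · intro w hw h
        rw [m0] at hw
        have := only y dy hy (hA2 hy) x (hA2 hx) w hw.2.2 h
        have hwA : w ∈ A := by rw [← this]; simp
        rw [a3] at hwA
        simp only [Finset.mem_insert, Finset.mem_singleton] at hwA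
        rcases hwA with t | t | t
        exacts [absurd t hw.1, absurd t hw.2.1, t]
    push Not at c1 c2
    have s1 : ∑ x ∈ Q, deg x = 3 * L.card := by
      have := Finset.sum_card_bipartiteAbove_eq_sum_card_bipartiteBelow (s := Q) (t := L)
        (fun x B => x ∈ B)
      simp only [Finset.bipartiteAbove, Finset.bipartiteBelow] at this
      rw [mul_comm, ← smul_eq_mul, ← Finset.sum_const]
      refine this.trans (Finset.sum_congr rfl (fun B hB => ?_))
      rw [Finset.filter_mem_eq_inter, Finset.inter_eq_right.2 ((hL B).1 hB).2,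
        H.three B ((hL B).1 hB).1]
    have s2 : 2 * L.card ≤ Q.card := by
      refine (hF L (Finset.filter_subset _ _)).trans (Finset.card_le_card ?_)
      intro x hx
      obtain ⟨B, hB, hxB⟩ := Finset.mem_biUnion.1 hx
      exact ((hL B).1 hB).2 hxB
    set Q1 := Q.filter (fun x => deg x = 1) with hQ1
    set L1 := L.filter (fun B => ∃ x ∈ B, deg x = 1) with hL1
    have s3 : Q1.card ≤ L1.card := by
      refine card_le_of_rel _ _ (fun x B => x ∈ B) ?_ ?_
      · intro x hx
        have hd := (Finset.mem_filter.1 hx).2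
        obtain ⟨B, hB⟩ := Finset.card_pos.1 (show 0 < deg x by omega)
        rw [Finset.mem_filter] at hB
        exact ⟨B, Finset.mem_filter.2 ⟨hB.1, x, hB.2, hd⟩, hB.2⟩
      · intro x hx y hy B hB h1 h2
        by_contra hne
        exact c2 B (Finset.mem_filter.1 hB).1 x h1 y h2 hne (Finset.mem_filter.1 hx).2
          (Finset.mem_filter.1 hy).2
    have s4 : L1.card ≤ L.card := Finset.card_le_card (Finset.filter_subset _ _)
    set Q3 := Q.filter (fun x => 3 ≤ deg x) with hQ3
    have s5 : 2 * Q.card + Q3.card ≤ ∑ x ∈ Q, deg x + Q1.card := by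
      rw [hQ3, hQ1, Finset.card_filter, Finset.card_filter, mul_comm, ← smul_eq_mul,
        ← Finset.sum_const, ← Finset.sum_add_distrib, ← Finset.sum_add_distrib]
      refine Finset.sum_le_sum (fun x hx => ?_)
      have := c1 x hx
      split_ifs <;> omega
    have s6 : Q3 = ∅ := Finset.card_eq_zero.1 (by omega)
    have s7 : L1 = L := Finset.eq_of_subset_of_card_le (Finset.filter_subset _ _) (by omega)
    obtain ⟨C, hC1, hC2, hC3, hC4⟩ := exists_cycle_part H Q L hL (by
      obtain ⟨x, hx⟩ := hQ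
      obtain ⟨B, hB⟩ := Finset.card_pos.1 (Nat.pos_of_ne_zero (c1 x hx))
      exact ⟨B, (Finset.mem_filter.1 hB).1⟩) (by
      intro A hA
      obtain ⟨z, hz, dz⟩ := (Finset.mem_filter.1 (s7 ▸ hA : A ∈ L1)).2
      refine ⟨z, hz, dz, fun x hx hxz => ?_⟩
      have hxQ := ((hL A).1 hA).2 hx
      have a1 := c1 x hxQ
      have a2 := c2 A hA z hz x hx hxz.symm dz
      have a3 : ¬ 3 ≤ deg x := fun t =>
        Finset.notMem_empty x (s6 ▸ (Finset.mem_filter.2 ⟨hxQ, t⟩ : x ∈ Q3))
      simp only [hdeg] at a1 a2 a3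
      omega)
    exact U_closed H hC1 hC3 (ih _ (Finset.sdiff_ssubset hC1 hC2))
      (fun A hA hAQ => hC4 A ((hL A).2 ⟨hA, hAQ⟩))

end Pool.Agent.MP_c3fbfc_co

end MrgPart3

-- marker of a merged file
example : 731051 + 750291 = 731051 + 750291 := rfl
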