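import Pool.Agent.MP_c3fbfc_co.ThmB1

/-! Few rank functions have many non-bases spanning hyperplanes of medium size. -/

namespace Pool.Agent.MP_c3fbfc_co

open Finset

variable {α : Type*} [Fintype α] [DecidableEq α]

theorem exists_max_stable (T : Finset (Finset α)) :
    ∃ I ⊆ T, Stable I ∧ ∀ X ∈ T, X ∈ I ∨ ∃ Y ∈ I, Adj Y X := by
  obtain ⟨I, hI, hmax⟩ := Finset.exists_max_image (T.powerset.filter Stable) Finset.card
    ⟨∅, by simp [Stable]⟩
  rw [Finset.mem_filter, Finset.mem_powerset] at hI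
  refine ⟨I, hI.1, hI.2, ?_⟩
  intro X hX
  by_contra hcon
  push Not at hcon
  have h1 : insert X I ∈ T.powerset.filter Stable := by
    rw [Finset.mem_filter, Finset.mem_powerset]
    refine ⟨Finset.insert_subset hX hI.1, ?_⟩
    intro A hA B hB hAB
    rcases Finset.mem_insert.1 hA with hA' | hA'
    · rcases Finset.mem_insert.1 hB with hB' | hB'
      · exact hAB.ne (hB'.trans hA'.symm)
      · exact hcon.2 B hB' (hA' ▸ hAB.symm)
    · rcases Finset.mem_insert.1 hB with hB' | hB'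
      · exact hcon.2 A hA' (hB' ▸ hAB)
      · exact hI.2 A hA' B hB' hAB
  have h2 := hmax _ h1
  rw [Finset.card_insert_of_notMem hcon.1] at h2
  omega

theorem johnson_container (r j Δ : ℕ) (hr : 0 < r) (hj : 0 < j) (hΔ : 0 < Δ) (u : ℝ)
    (hu : 1 ≤ u) (q : ℝ)
    (hq : 2 * ((Fintype.card α).choose r : ℝ) / (j * r) +
      2 * j * ((Fintype.card α).choose (r - 1) : ℝ) / (r * Δ) ≤ q) :
    ∃ 𝓕 : Finset (Finset (Finset α)),
      (𝓕.card : ℝ) ≤ Real.exp (((Fintype.card α).choose r : ℝ) / u + q * Real.log u) ∧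
      (∀ A ∈ 𝓕, A ⊆ Vr α r ∧ ∀ X ∈ A, (A.filter (Adj X)).card < Δ) ∧
      ∀ K : Finset (Finset α), ∃ A ∈ 𝓕, ∃ S ⊆ K, (S.card : ℝ) ≤ q ∧
        ∀ X ∈ K, X ∈ Vr α r → X ∈ A ∨ ∃ v ∈ S, X = v ∨ Adj v X := by
  have hr' : (0 : ℝ) < r := by exact_mod_cast hr
  have hj' : (0 : ℝ) < j := by exact_mod_cast hj
  have hΔ' : (0 : ℝ) < Δ := by exact_mod_cast hΔ
  have hu0 : 0 < u := by linarith
  set b : ℝ := 2 * j * ((Fintype.card α).choose (r - 1) : ℝ) / r with hb
  have hb0 : 0 ≤ b := by positivity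
  set ψ : Finset (Finset α) → ℝ := fun B => 2 * B.card / (j * r) + min (B.card : ℝ) b / Δ with hψ
  have hrem : ∀ (B : Finset (Finset α)) (v : Finset α),
      (((B.erase v).filter (fun X => ¬ Adj v X)).card : ℝ) + (B.filter (Adj v)).card ≤ B.card := by
    intro B v
    have h1 := Finset.card_filter_add_card_filter_not (s := B) (fun X => Adj v X)
    have h2 := Finset.card_le_card
      (Finset.filter_subset_filter (fun X => ¬ Adj v X) (Finset.erase_subset v B))
    have h3 : (B.filter (Adj v)).card = (B.filter (fun X => Adj v X)).card := rfl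
    exact_mod_cast (by omega : _ + _ ≤ _)
  obtain ⟨𝓕, h1, h2, h3⟩ := container Adj (Vr α r)
    (fun B => ∀ X ∈ B, (B.filter (Adj X)).card < Δ) ψ
    (fun B => by simp only [hψ]; have : 0 ≤ min (B.card : ℝ) b := le_min (by positivity) hb0
                 positivity)
    (fun A B hAB => by
      have : (A.card : ℝ) ≤ B.card := Nat.cast_le.2 (Finset.card_le_card hAB)
      simp only [hψ]
      gcongr)
    (fun B hB => by
      by_cases hBb : b < B.card
      · right
        have : ∃ X ∈ B, j * r < 2 * (B.filter (Adj X)).card := by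
          by_contra hcon
          push Not at hcon
          have h4 := card_le_of_deg B hB hcon hj
          rw [hb, div_lt_iff₀ hr'] at hBb
          linarith
        obtain ⟨v, hv, hd⟩ := this
        refine ⟨v, hv, ?_⟩
        have h4 := hrem B v
        have h5 : (j * r : ℝ) < 2 * (B.filter (Adj v)).card := by exact_mod_cast hd
        simp only [hψ]
        set c : ℝ := (((B.erase v).filter (fun X => ¬ Adj v X)).card : ℝ) with hc
        have h6 : min c b / Δ ≤ min (B.card : ℝ) b / Δ := by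
          have : (0 : ℝ) ≤ (B.filter (Adj v)).card := by positivity
          gcongr
          linarith
        have h7 : 2 * c / (j * r) + 1 ≤ 2 * B.card / (j * r) := by
          rw [div_add_one (by positivity)]
          gcongr
          linarith
        linarith
      · by_cases hs : ∀ X ∈ B, (B.filter (Adj X)).card < Δ
        · exact Or.inl hs
        right
        push Not at hs hBb
        obtain ⟨v, hv, hd⟩ := hs
        refine ⟨v, hv, ?_⟩
        have h4 := hrem B v
        have h5 : (Δ : ℝ) ≤ (B.filter (Adj v)).card := by exact_mod_cast hd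
        simp only [hψ]
        set c : ℝ := (((B.erase v).filter (fun X => ¬ Adj v X)).card : ℝ) with hc
        have h6 : min c b / Δ + 1 ≤ min (B.card : ℝ) b / Δ := by
          rw [div_add_one hΔ'.ne', min_eq_left hBb, min_eq_left (by linarith)]
          gcongr
          linarith
        have h7 : 2 * c / (j * r) ≤ 2 * B.card / (j * r) := by
          gcongr
          linarith
        linarith)
    u hu (Vr α r) (Finset.Subset.refl _)
  have hψq : ψ (Vr α r) ≤ q := by
    refine le_trans ?_ hq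
    simp only [hψ, card_Vr]
    have : min (((Fintype.card α).choose r : ℕ) : ℝ) b / Δ ≤ b / Δ := by
      gcongr; exact min_le_right _ _
    have e : b / Δ = 2 * j * ((Fintype.card α).choose (r - 1) : ℝ) / (r * Δ) := by
      rw [hb, div_div]
    linarith
  refine ⟨𝓕, h1.trans ?_, fun A hA => ⟨(h2 A hA).2, (h2 A hA).1⟩, ?_⟩
  · rw [Real.exp_add, card_Vr]
    refine mul_le_mul ?_ ?_ (by positivity) (by positivity)
    · rw [div_eq_mul_one_div (((Fintype.card α).choose r : ℕ) : ℝ) u, Real.exp_nat_mul]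
      refine pow_le_pow_left₀ (by positivity) ?_ _
      linarith [Real.add_one_le_exp (1 / u)]
    · rw [mul_comm, ← Real.rpow_def_of_pos hu0]
      exact Real.rpow_le_rpow_of_exponent_le hu hψq
  · intro K
    obtain ⟨A, hA, S, hS, hSc, hX⟩ := h3 K
    exact ⟨A, hA, S, hS, hSc.trans hψq, hX⟩

/-- the code of a rank function -/
def Coded (ρ : Finset α → ℕ) (r Δ : ℕ) (A : Finset (Finset α)) (Z : Finset (Finset α × ℕ))
    (D D' I : Finset (Finset α)) : Prop :=
  (∀ X ∈ Vr α r, X ∉ A → (ρ X < r ↔ ∃ p ∈ Z, p.2 < (X ∩ p.1).card)) ∧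
  (∀ S : Finset α, S.card ≤ Δ → (ρ S < S.card ↔ S ∈ D)) ∧
  (∀ S : Finset α, S.card ≤ Δ → (ρ Sᶜ < r ↔ S ∈ D')) ∧
  (∀ X ∈ I, X ∈ A → ρ X < r ∧ ¬ Dec ρ r Δ X) ∧
  (∀ X ∈ A, ρ X < r → Dec ρ r Δ X ∨ X ∈ I ∨ ∃ Y ∈ I, Y ∈ A ∧ Adj Y X)

theorem Coded.imp {ρ ρ' : Finset α → ℕ} {r Δ : ℕ} {A : Finset (Finset α)}
    {Z : Finset (Finset α × ℕ)} {D D' I : Finset (Finset α)} (h : IsRk ρ r) (h' : IsRk ρ' r)
    (hΔ : 0 < Δ) (hA : A ⊆ Vr α r) (hdeg : ∀ X ∈ A, (A.filter (Adj X)).card < Δ)
    (c : Coded ρ r Δ A Z D D' I) (c' : Coded ρ' r Δ A Z D D' I) {X : Finset α}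
    (hX : X ∈ Vr α r) (hXr : ρ X < r) : ρ' X < r := by
  have g : Agree ρ ρ' r Δ A :=
    ⟨hA, hdeg, fun X hX hXA => (c.1 X hX hXA).trans (c'.1 X hX hXA).symm,
      fun S hS => (c.2.1 S hS).trans (c'.2.1 S hS).symm,
      fun S hS => (c.2.2.1 S hS).trans (c'.2.2.1 S hS).symm⟩
  by_cases hXA : X ∈ A
  · rcases c.2.2.2.2 X hXA hXr with h1 | h1 | ⟨Y, hY, hYA, h1⟩
    · exact g.dec_imp h h' hΔ hXA h1
    · exact (c'.2.2.2.1 X h1 hXA).1
    · exact g.adj_imp h h' hYA (c.2.2.2.1 Y hY hYA).1 (c'.2.2.2.1 Y hY hYA).1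
        (c'.2.2.2.1 Y hY hYA).2 h1 hXr
  · exact (g.out X hX hXA).1 hXr

theorem thmB (r m Δ j : ℕ) (hΔ : 0 < Δ) (hm : 2 * Δ ≤ m) (hΔr : 2 * Δ ≤ r) (hj : 0 < j)
    (hn : 0 < Fintype.card α) (u : ℝ) (hu : 1 ≤ u) (q : ℝ)
    (hq : 2 * ((Fintype.card α).choose r : ℝ) / (j * r) +
      2 * j * ((Fintype.card α).choose (r - 1) : ℝ) / (r * Δ) ≤ q)
    (w : ℝ) (𝓜 : Finset (Finset (Finset α)))
    (h𝓜 : ∀ ℬ ∈ 𝓜, ∃ ρ, IsRk ρ r ∧ ℬ = bases ρ r ∧ w ≤ (Wm ρ r m Δ).card) :
    (𝓜.card : ℝ) * 2 ^ ((w - 2 * ((Fintype.card α).choose (r - 1) : ℝ) / r) / Fintype.card α) ≤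
      Real.exp (((Fintype.card α).choose r : ℝ) / u + q * Real.log u) *
      Real.exp (2 * q * Real.log u + (2 ^ Fintype.card α * (r + 1) : ℝ) / u) *
      (2 ^ ((univ : Finset (Finset α)).filter (fun S => S.card ≤ Δ)).card *
      2 ^ ((univ : Finset (Finset α)).filter (fun S => S.card ≤ Δ)).card) *
      (stabs α r).card := by
  classical
  have hr : 0 < r := by omega
  have hr' : (0 : ℝ) < r := by exact_mod_cast hr
  have hn' : (0 : ℝ) < Fintype.card α := by exact_mod_cast hn
  obtain ⟨𝓕, hF1, hF2, hF3⟩ := johnson_container (α := α) r j Δ hr hj hΔ u hu q hq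
  set Zs := ((univ : Finset (Finset α)) ×ˢ range (r + 1)).powerset.filter
    (fun S => (S.card : ℝ) ≤ 2 * q) with hZs
  set Ds := ((univ : Finset (Finset α)).filter (fun S => S.card ≤ Δ)).powerset with hDs
  have hZc : (Zs.card : ℝ) ≤
      Real.exp (2 * q * Real.log u + (2 ^ Fintype.card α * (r + 1) : ℝ) / u) := by
    have := card_small_subsets ((univ : Finset (Finset α)) ×ˢ range (r + 1)) u hu (2 * q)
    simpa using this
  have key := mul_card_le_of_rel 𝓜 ((𝓕 ×ˢ Zs ×ˢ Ds ×ˢ Ds) ×ˢ stabs α r)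
    (fun ℬ c => ∃ ρ, IsRk ρ r ∧ ℬ = bases ρ r ∧
      Coded ρ r Δ c.1.1 c.1.2.1 c.1.2.2.1 c.1.2.2.2 c.2)
    (2 ^ ((w - 2 * ((Fintype.card α).choose (r - 1) : ℝ) / r) / Fintype.card α)) ?_ ?_
  · refine key.trans ?_
    simp only [Finset.card_product, hDs, Finset.card_powerset]
    push_cast
    rw [← mul_assoc (𝓕.card : ℝ)]
    gcongr
  · intro ℬ hℬ
    obtain ⟨ρ, h, rfl, hw⟩ := h𝓜 ℬ hℬ
    obtain ⟨A, hA, S, hS, hSc, hcov⟩ := hF3 ((Vr α r).filter (fun X => ρ X < r))
    obtain ⟨hAV, hAdeg⟩ := hF2 A hA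
    have hloc : ∀ v ∈ S, ∃ p1 p2 : Finset α × ℕ, (ρ p1.1 ≤ p1.2 ∧ p1.2 ≤ r) ∧
        (ρ p2.1 ≤ p2.2 ∧ p2.2 ≤ r) ∧ ∀ X, (X = v ∨ Adj v X) → ρ X < r →
          p1.2 < (X ∩ p1.1).card ∨ p2.2 < (X ∩ p2.1).card := by
      intro v hv
      have := Finset.mem_filter.1 (hS hv)
      exact h.local_cover (mem_Vr.1 this.1) this.2
    choose! p1 p2 hp1 hp2 hp using hloc
    set Z := S.image p1 ∪ S.image p2 with hZ
    have hZv : ∀ p ∈ Z, ρ p.1 ≤ p.2 ∧ p.2 ≤ r := by
      intro p hp
      rcases Finset.mem_union.1 hp with hp | hp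
      · obtain ⟨v, hv, rfl⟩ := Finset.mem_image.1 hp
        exact hp1 v hv
      · obtain ⟨v, hv, rfl⟩ := Finset.mem_image.1 hp
        exact hp2 v hv
    have hZZ : Z ∈ Zs := by
      rw [hZs, Finset.mem_filter, Finset.mem_powerset]
      constructor
      · intro p hp
        simp only [Finset.mem_product, Finset.mem_univ, true_and, Finset.mem_range]
        have := (hZv p hp).2
        omega
      · have h1 : Z.card ≤ _ := Finset.card_union_le (S.image p1) (S.image p2)
        have h2 : (S.image p1).card ≤ S.card := Finset.card_image_le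
        have h3 : (S.image p2).card ≤ S.card := Finset.card_image_le
        have h4 : (Z.card : ℝ) ≤ S.card + S.card := by exact_mod_cast (by omega : Z.card ≤ _)
        linarith
    set D := ((univ : Finset (Finset α)).filter (fun S => S.card ≤ Δ)).filter
      (fun S => ρ S < S.card) with hD
    set D' := ((univ : Finset (Finset α)).filter (fun S => S.card ≤ Δ)).filter
      (fun S => ρ Sᶜ < r) with hD'
    obtain ⟨I, hI1, hI2, hI3⟩ := exists_max_stable (A.filter (fun X => ρ X < r ∧ ¬ Dec ρ r Δ X))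
    obtain ⟨W, hW1, hW2, hW3⟩ := exists_stable (Wm ρ r m Δ \ A) hn
    have hAc := card_le_of_deg (j := 1) A hAV (fun X hX => by have := hAdeg X hX; omega) one_pos
    have hWc : (w - 2 * ((Fintype.card α).choose (r - 1) : ℝ) / r) / Fintype.card α ≤ W.card := by
      rw [div_le_iff₀ hn']
      have h1 : ((Wm ρ r m Δ).card : ℝ) ≤ (Wm ρ r m Δ \ A).card + A.card := by
        exact_mod_cast Finset.card_le_card_sdiff_add_card
      have h2 : (A.card : ℝ) ≤ 2 * ((Fintype.card α).choose (r - 1) : ℝ) / r := by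
        rw [le_div_iff₀ hr']
        simp only [Nat.cast_one, mul_one] at hAc
        linarith
      linarith
    refine (Real.rpow_le_rpow_of_exponent_le one_le_two hWc).trans ?_
    rw [Real.rpow_natCast]
    have hIA : ∀ X ∈ I, X ∈ A ∧ ρ X < r ∧ ¬ Dec ρ r Δ X := fun X hX =>
      Finset.mem_filter.1 (hI1 hX)
    have hWA : ∀ X ∈ W, X ∈ Wm ρ r m Δ ∧ X ∉ A := fun X hX => Finset.mem_sdiff.1 (hW1 hX)
    have hcard : W.powerset.card ≤ (((𝓕 ×ˢ Zs ×ˢ Ds ×ˢ Ds) ×ˢ stabs α r).filter
        (fun c => ∃ ρ', IsRk ρ' r ∧ bases ρ r = bases ρ' r ∧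
          Coded ρ' r Δ c.1.1 c.1.2.1 c.1.2.2.1 c.1.2.2.2 c.2)).card := by
      refine Finset.card_le_card_of_injOn (fun S' => ((A, Z, D, D'), I ∪ S')) ?_ ?_
      · intro S' hS'
        have hS'W : S' ⊆ W := by simpa using hS'
        simp only [Finset.coe_filter, Set.mem_ofPred_eq, Finset.mem_product]
        refine ⟨⟨⟨hA, hZZ, ?_, ?_⟩, ?_⟩, ρ, h, rfl, ?_, ?_, ?_, ?_, ?_⟩
        · exact Finset.mem_powerset.2 (Finset.filter_subset _ _)
        · exact Finset.mem_powerset.2 (Finset.filter_subset _ _)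
        · rw [stabs, Finset.mem_filter, Finset.mem_powerset]
          constructor
          · intro X hX
            rcases Finset.mem_union.1 hX with hX | hX
            · exact hAV (hIA X hX).1
            · exact (Finset.mem_filter.1 (hWA X (hS'W hX)).1).1
          · intro X hX Y hY hXY
            rcases Finset.mem_union.1 hX with hX | hX
            · rcases Finset.mem_union.1 hY with hY | hY
              · exact hI2 X hX Y hY hXY
              · exact (hIA X hX).2.2 (h.dec_of_adj hΔ hm (hIA X hX).2.1 (hWA Y (hS'W hY)).1 hXY)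
            · rcases Finset.mem_union.1 hY with hY | hY
              · exact (hIA Y hY).2.2
                  (h.dec_of_adj hΔ hm (hIA Y hY).2.1 (hWA X (hS'W hX)).1 hXY.symm)
              · exact hW2 X (hS'W hX) Y (hS'W hY) hXY
        · intro X hX hXA
          constructor
          · intro hXr
            rcases hcov X (Finset.mem_filter.2 ⟨hX, hXr⟩) hX with h1 | ⟨v, hv, h1⟩
            · exact absurd h1 hXA
            · rcases hp v hv X h1 hXr with h2 | h2
              · exact ⟨p1 v, Finset.mem_union_left _ (Finset.mem_image_of_mem _ hv), h2⟩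
              · exact ⟨p2 v, Finset.mem_union_right _ (Finset.mem_image_of_mem _ hv), h2⟩
          · rintro ⟨p, hp, h1⟩
            exact h.cover_valid (mem_Vr.1 hX) (hZv p hp).1 h1
        · intro S hS
          simp [hD, hS]
        · intro S hS
          simp [hD', hS]
        · intro X hX hXA
          rcases Finset.mem_union.1 hX with hX | hX
          · exact (hIA X hX).2
          · exact absurd hXA (hWA X (hS'W hX)).2
        · intro X hXA hXr
          by_cases hd : Dec ρ r Δ X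
          · exact Or.inl hd
          rcases hI3 X (Finset.mem_filter.2 ⟨hXA, hXr, hd⟩) with h1 | ⟨Y, hY, h1⟩
          · exact Or.inr (Or.inl (Finset.mem_union_left _ h1))
          · exact Or.inr (Or.inr ⟨Y, Finset.mem_union_left _ hY, (hIA Y hY).1, h1⟩)
      · intro S1 hS1 S2 hS2 e
        have hS1W : S1 ⊆ W := by simpa using hS1
        have hS2W : S2 ⊆ W := by simpa using hS2
        have e' : I ∪ S1 = I ∪ S2 := (Prod.ext_iff.1 e).2
        ext X
        constructor
        · intro hX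
          have : X ∈ I ∪ S2 := e' ▸ Finset.mem_union_right _ hX
          rcases Finset.mem_union.1 this with h1 | h1
          · exact absurd (hIA X h1).1 (hWA X (hS1W hX)).2
          · exact h1
        · intro hX
          have : X ∈ I ∪ S1 := e' ▸ Finset.mem_union_right _ hX
          rcases Finset.mem_union.1 this with h1 | h1
          · exact absurd (hIA X h1).1 (hWA X (hS2W hX)).2
          · exact h1
    rw [Finset.card_powerset] at hcard
    exact_mod_cast hcard
  · rintro ℬ - ℬ' - c hc ⟨ρ, h, rfl, c1⟩ ⟨ρ', h', rfl, c2⟩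
    simp only [Finset.mem_product] at hc
    obtain ⟨hAV, hAdeg⟩ := hF2 _ hc.1.1
    ext X
    simp only [bases, Finset.mem_filter]
    refine and_congr_right (fun hX => ?_)
    have h1 := c1.imp h h' hΔ hAV hAdeg c2 hX
    have h2 := c2.imp h' h hΔ hAV hAdeg c1 hX
    have h3 := h.le_top X
    have h4 := h'.le_top X
    omega

end Pool.Agent.MP_c3fbfc_co
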