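import Mathlib.Data.Int.Star
import Mathlib.Analysis.Complex.ExponentialBounds
import Pool.Agent.MP_c3fbfc_co.Forest
import Pool.Agent.MP_c3fbfc_co.ThmB2

-- ======== part 0: formerly Pool.Agent.MP_c3fbfc_co.Rank3
section MrgPart0

/-! Counting rank-3 rank functions. -/

namespace Pool.Agent.MP_c3fbfc_co

open Finset Filter
open scoped Classical

theorem exists_rep {α : Type*} (E : α → α → Prop) (hs : ∀ y z, E y z → E z y)
    (ht : ∀ y z w, E y z → E z w → E y w) :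
    ∃ rep : α → Option α, (∀ y, E y y → ∃ w, rep y = some w) ∧
      (∀ y w, rep y = some w → E y w) ∧ ∀ y z, E y z → rep y = rep z := by
  refine ⟨fun y => if h : ∃ w, E y w then some h.choose else none, ?_, ?_, ?_⟩
  · intro y hy
    have h : ∃ w, E y w := ⟨y, hy⟩
    exact ⟨h.choose, by simp only [dif_pos h]⟩
  · intro y w hw
    by_cases h : ∃ w, E y w
    · simp only [dif_pos h, Option.some.injEq] at hw
      exact hw ▸ h.choose_spec
    · simp [dif_neg h] at hw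
  · intro y z h
    have e : E y = E z := by
      funext w
      exact propext ⟨fun t => ht _ _ _ (hs _ _ h) t, fun t => ht _ _ _ h t⟩
    simp only [e]

variable {α : Type*} [Fintype α] [DecidableEq α]

omit [DecidableEq α] in
theorem mem_bases {ρ : Finset α → ℕ} {r : ℕ} {X : Finset α} :
    X ∈ bases ρ r ↔ X.card = r ∧ ρ X = r := by
  simp [bases]

omit [DecidableEq α] in
theorem bases_ext {ρ ρ' : Finset α → ℕ} {r : ℕ}
    (h1 : ∀ X, X.card = r → ρ X = r → ρ' X = r) (h2 : ∀ X, X.card = r → ρ' X = r → ρ X = r) :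
    bases ρ r = bases ρ' r := by
  ext X
  simp only [mem_bases]
  exact ⟨fun t => ⟨t.1, h1 X t.1 t.2⟩, fun t => ⟨t.1, h2 X t.1 t.2⟩⟩

theorem count_meet (D : Finset α) (S : Finset (Finset (Finset α)))
    (hS : ∀ ℬ ∈ S, ∃ σ, IsRk σ 3 ∧ ℬ = bases σ 3 ∧ ∀ τ ∈ ℬ, ¬ Disjoint D τ) :
    S.card ≤ (Fintype.card α + 1) ^ (Fintype.card α * D.card) := by
  have := card_le_of_rel S (univ : Finset (D → α → Option α))
    (fun ℬ ψ => ∃ σ, IsRk σ 3 ∧ ℬ = bases σ 3 ∧ (∀ τ ∈ ℬ, ¬ Disjoint D τ) ∧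
      ∀ (x : D) y z, σ {x.1, y, z} = 3 ↔ (ψ x y ≠ none ∧ ψ x z ≠ none ∧ ψ x y ≠ ψ x z)) ?_ ?_
  · simpa [← pow_mul] using this
  · intro ℬ hℬ
    obtain ⟨σ, h, e, hD⟩ := hS ℬ hℬ
    have key : ∀ x : α, ∃ ψ : α → Option α,
        ∀ y z, σ {x, y, z} = 3 ↔ (ψ y ≠ none ∧ ψ z ≠ none ∧ ψ y ≠ ψ z) := by
      intro x
      have le2 : ∀ y, σ {x, y} ≤ 2 := fun y => (h.le_card _).trans Finset.card_le_two
      obtain ⟨ψ, p1, p2, p3⟩ := exists_rep
        (fun y z => σ {x, y} = 2 ∧ σ {x, z} = 2 ∧ σ {x, y, z} ≤ 2)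
        (fun y z t => ⟨t.2.1, t.1, by rw [Finset.pair_comm z y]; exact t.2.2⟩)
        (fun y z w t t' => ⟨t.1, t'.2.1, by
          have := h.sub' {x, y, z} {x, z, w} {x, y, w} {x, z}
            (by intro s; simp; tauto) (by intro s; simp; tauto) (by intro s; simp; tauto)
          omega⟩)
      refine ⟨ψ, fun y z => ⟨fun t => ?_, fun t => ?_⟩⟩
      · have a1 := h.le_add_card {x, y, z} {x, y} {z} (by intro s; simp)
        have a2 := h.le_add_card {x, y, z} {x, z} {y} (by intro s; simp; tauto)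
        simp only [Finset.card_singleton] at a1 a2
        have a3 := le2 y
        have a4 := le2 z
        obtain ⟨w, hw⟩ := p1 y ⟨by omega, by omega, by simpa using a3⟩
        obtain ⟨w', hw'⟩ := p1 z ⟨by omega, by omega, by simpa using a4⟩
        refine ⟨by simp [hw], by simp [hw'], fun e => ?_⟩
        have b1 := p2 y w hw
        have b2 := p2 z w (e ▸ hw)
        have := h.sub' {x, y, w} {x, z, w} {x, y, z} {x, w}
          (by intro s; simp; tauto) (by intro s; simp; tauto) (by intro s; simp; tauto)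
        omega
      · obtain ⟨w, hw⟩ := Option.ne_none_iff_exists'.1 t.1
        obtain ⟨w', hw'⟩ := Option.ne_none_iff_exists'.1 t.2.1
        by_contra hcon
        have := h.le_top {x, y, z}
        exact t.2.2 (p3 y z ⟨(p2 y w hw).1, (p2 z w' hw').1, by omega⟩)
    choose ψ hψ using key
    exact ⟨fun x => ψ x.1, Finset.mem_univ _, σ, h, e, hD, fun x => hψ x.1⟩
  · have key : ∀ (σ σ' : Finset α → ℕ) (ψ : D → α → Option α),
        (∀ τ ∈ bases σ 3, ¬ Disjoint D τ) →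
        (∀ (x : D) y z, σ {x.1, y, z} = 3 ↔ (ψ x y ≠ none ∧ ψ x z ≠ none ∧ ψ x y ≠ ψ x z)) →
        (∀ (x : D) y z, σ' {x.1, y, z} = 3 ↔ (ψ x y ≠ none ∧ ψ x z ≠ none ∧ ψ x y ≠ ψ x z)) →
        ∀ X, X.card = 3 → σ X = 3 → σ' X = 3 := by
      intro σ σ' ψ h1 h2 h3 X hX hr
      obtain ⟨x, hxD, hxX⟩ := Finset.not_disjoint_iff.1 (h1 X (mem_bases.2 ⟨hX, hr⟩))
      obtain ⟨y, hy, hyx⟩ := Finset.exists_mem_ne (by omega : 1 < X.card) x
      obtain ⟨z, -, -, rfl⟩ := exists_third hX hyx.symm hxX hy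
      exact (h3 ⟨x, hxD⟩ y z).2 ((h2 ⟨x, hxD⟩ y z).1 hr)
    rintro ℬ - ℬ' - ψ - ⟨σ, -, rfl, h1, h2⟩ ⟨σ', -, rfl, h1', h2'⟩
    exact bases_ext (key σ σ' ψ h1 h2 h2') (key σ' σ ψ h1' h2' h2)

/-- lines of a rank-3 rank function have few points -/
def SmallRk (σ : Finset α → ℕ) (L : ℕ) : Prop :=
  ∀ Λ : Finset α, (∀ x ∈ Λ, ∀ y ∈ Λ, x ≠ y → σ {x, y} = 2) → σ Λ ≤ 2 → Λ.card ≤ L

/-- induced copy of a configuration in a rank-3 rank function -/
def EmbRk {β : Type*} (σ : Finset α → ℕ) (Q : Finset β) (h : Tern β) (φ : β → α) : Prop :=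
  (∀ a ∈ Q, ∀ b ∈ Q, φ a = φ b → a = b) ∧
    ∀ a ∈ Q, ∀ b ∈ Q, ∀ d ∈ Q, a ≠ b → a ≠ d → b ≠ d → (h a b d ↔ σ {φ a, φ b, φ d} ≤ 2)

theorem count_small {β : Type*} (Q : Finset β) (h : Tern β) (L : ℕ) (L' G : ℝ)
    (hL : (L : ℝ) ≤ L') (hG : ∀ P : Finset α, ((cls Q h L' P).card : ℝ) ≤ G)
    (S : Finset (Finset (Finset α)))
    (hS : ∀ ℬ ∈ S, ∃ σ, IsRk σ 3 ∧ ℬ = bases σ 3 ∧ SmallRk σ L ∧ ¬ ∃ φ, EmbRk σ Q h φ) :
    (S.card : ℝ) ≤ (Fintype.card α + 1) ^ Fintype.card α * G := by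
  set R : Finset (Finset α) → (α → Option α) → Tern α → Prop := fun ℬ rep c =>
    ∀ x y z, x ≠ y → x ≠ z → y ≠ z → (({x, y, z} : Finset α) ∈ ℬ ↔
      ∃ a b d, rep x = some a ∧ rep y = some b ∧ rep z = some d ∧ a ≠ b ∧ a ≠ d ∧ b ≠ d ∧
        ¬ c a b d) with hR
  have := card_le_mul_of_rel S (univ : Finset (α → Option α))
    (fun ℬ rep => ∃ c ∈ cls Q h L' (univ.filter (fun w => rep w = some w)), R ℬ rep c) G ?_ ?_
  · simpa using this
  · intro ℬ hℬ
    obtain ⟨σ, hσ, rfl, sm, fr⟩ := hS ℬ hℬ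
    obtain ⟨rep, p1, p2, p3⟩ := exists_rep (fun y z => σ {y} = 1 ∧ σ {z} = 1 ∧ σ {y, z} ≤ 1)
      (fun y z t => ⟨t.2.1, t.1, by rw [Finset.pair_comm z y]; exact t.2.2⟩)
      (fun y z w t t' => ⟨t.1, t'.2.1, by
        have := hσ.sub' {y, z} {z, w} {y, w} {z}
          (by intro s; simp; tauto) (by intro s; simp; tauto) (by intro s; simp; tauto)
        omega⟩)
    set P := univ.filter (fun w => rep w = some w) with hP
    have mP : ∀ w, w ∈ P ↔ rep w = some w := by intro w; simp [hP]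
    have repP : ∀ x a, rep x = some a → a ∈ P := fun x a t =>
      (mP a).2 ((p3 x a (p2 x a t)).symm.trans t)
    have two : ∀ a ∈ P, ∀ b ∈ P, a ≠ b → σ {a, b} = 2 := by
      intro a ha b hb hab
      have a1 := p2 a a ((mP a).1 ha)
      have a2 := p2 b b ((mP b).1 hb)
      have a3 : σ {a, b} ≤ 2 := (hσ.le_card _).trans Finset.card_le_two
      by_contra hcon
      have := p3 a b ⟨a1.1, a2.1, by omega⟩
      rw [(mP a).1 ha, (mP b).1 hb] at this
      exact hab (Option.some.inj this)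
    have par : ∀ x a, rep x = some a → ∀ Y, σ (insert x Y) = σ (insert a Y) := by
      intro x a t Y
      obtain ⟨b1, b2, b3⟩ := p2 x a t
      have a1 := hσ.sub' (insert a Y) {x, a} (insert x Y) {a}
        (by intro s; simp; tauto) (by simp) (by simp)
      have a2 := hσ.sub' (insert x Y) {x, a} (insert a Y) {x}
        (by intro s; simp; tauto) (by simp) (by simp)
      omega
    have par3 : ∀ x y z a b d, rep x = some a → rep y = some b → rep z = some d →
        σ {x, y, z} = σ {a, b, d} := by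
      intro x y z a b d t1 t2 t3
      rw [par x a t1, Finset.insert_comm a y, par y b t2, Finset.insert_comm b a,
        show ({a, b, z} : Finset α) = {z, a, b} by ext; simp; tauto, par z d t3]
      congr 1
      ext; simp; tauto
    set c : Tern α := fun a b d => a ∈ P ∧ b ∈ P ∧ d ∈ P ∧ a ≠ b ∧ a ≠ d ∧ b ≠ d ∧
      σ {a, b, d} ≤ 2 with hc
    refine ⟨rep, Finset.mem_univ _, c, mem_cls.2 ⟨?_, ?_, ?_⟩, ?_⟩
    · exact
      { ne := fun t => t.2.2.2.1
        sw1 := fun ⟨a1, a2, a3, a4, a5, a6, a7⟩ =>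
          ⟨a2, a1, a3, a4.symm, a6, a5, by rwa [Finset.insert_comm]⟩
        sw2 := fun ⟨a1, a2, a3, a4, a5, a6, a7⟩ =>
          ⟨a1, a3, a2, a5, a4, a6.symm, by rwa [Finset.pair_comm]⟩
        mem := fun t => t.1
        tr := by
          rintro a b d e ⟨a1, a2, a3, a4, a5, a6, a7⟩ ⟨-, -, b3, -, b5, b6, b7⟩ hne
          refine ⟨a1, a3, b3, a5, b5, hne, ?_⟩
          have := hσ.sub' {a, b, d} {a, b, e} {a, d, e} {a, b}
            (by intro s; simp; tauto) (by intro s; simp; tauto) (by intro s; simp; tauto)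
          have := two a a1 b a2 a4
          omega }
    · intro a b
      have gen : ∀ Λ : Finset α, (∀ x ∈ Λ, c a b x) → (Λ.card : ℝ) ≤ L' := by
        intro Λ hΛ
        refine le_trans (Nat.cast_le.2 (sm _ ?_ ?_)) hL
        · intro x hx y hy hxy
          exact two x (hΛ x hx).2.2.1 y (hΛ y hy).2.2.1 hxy
        · rcases Λ.eq_empty_or_nonempty with e | ⟨z, hz⟩
          · rw [e, hσ.empty]; omega
          · obtain ⟨a1, a2, -, a4, -⟩ := hΛ z hz
            have b1 := two a a1 b a2 a4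
            have b2 := hσ.closure {a, b} Λ (by
              intro y hy
              have := (hΛ y hy).2.2.2.2.2.2
              rw [show (insert y {a, b} : Finset α) = {a, b, y} by ext; simp; tauto]
              omega)
            have b3 := hσ.mono (Finset.subset_union_right (s₁ := {a, b}) (s₂ := Λ))
            omega
      exact gen _ (fun x hx => (@Finset.mem_filter _ _ (_) _ _ |>.1 hx).2)
    · rintro ⟨φ, e⟩
      refine fr ⟨φ, e.2.1, fun a ha b hb d hd n1 n2 n3 => (e.2.2 a ha b hb d hd).trans ?_⟩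
      exact ⟨fun t => t.2.2.2.2.2.2, fun t => ⟨e.1 a ha, e.1 b hb, e.1 d hd,
        fun t => n1 (e.2.1 a ha b hb t), fun t => n2 (e.2.1 a ha d hd t),
        fun t => n3 (e.2.1 b hb d hd t), t⟩⟩
    · intro x y z n1 n2 n3
      rw [mem_bases]
      constructor
      · rintro ⟨h1, h2⟩
        have one : ∀ w ∈ ({x, y, z} : Finset α), ∃ a, rep w = some a := by
          intro w hw
          have := hσ.indep_subset (X := {x, y, z}) (Y := {w}) (by omega) (by simpa using hw)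
          simp only [Finset.card_singleton] at this
          exact p1 w ⟨this, this, by simpa using this.le⟩
        obtain ⟨a, ha⟩ := one x (by simp)
        obtain ⟨b, hb⟩ := one y (by simp)
        obtain ⟨d, hd⟩ := one z (by simp)
        have e := par3 x y z a b d ha hb hd
        have h3 := hσ.le_card {a, b, d}
        have h4 : ({a, b, d} : Finset α).card = 3 := le_antisymm Finset.card_le_three (by omega)
        rw [Finset.card_triple_eq_three_iff] at h4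
        exact ⟨a, b, d, ha, hb, hd, h4.1, h4.2.1, h4.2.2, fun t => by
          have := t.2.2.2.2.2.2; omega⟩
      · rintro ⟨a, b, d, ha, hb, hd, m1, m2, m3, t⟩
        refine ⟨Finset.card_eq_three.2 ⟨x, y, z, n1, n2, n3, rfl⟩, ?_⟩
        rw [par3 x y z a b d ha hb hd]
        have := hσ.le_top {a, b, d}
        by_contra hcon
        exact t ⟨repP x a ha, repP y b hb, repP z d hd, m1, m2, m3, by omega⟩
  · intro rep _
    refine le_trans (Nat.cast_le.2 (card_le_of_rel _ _ (fun ℬ c => R ℬ rep c) ?_ ?_))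
      (hG (univ.filter (fun w => rep w = some w)))
    · intro ℬ hℬ
      exact (@Finset.mem_filter _ _ (_) _ _ |>.1 hℬ).2
    · intro ℬ hℬ ℬ' hℬ' c _ h1 h2
      obtain ⟨σ, -, e, -⟩ := hS ℬ (@Finset.mem_filter _ _ (_) _ _ |>.1 hℬ).1
      obtain ⟨σ', -, e', -⟩ := hS ℬ' (@Finset.mem_filter _ _ (_) _ _ |>.1 hℬ').1
      ext X
      by_cases hX : X.card = 3
      · obtain ⟨x, y, z, n1, n2, n3, rfl⟩ := Finset.card_eq_three.1 hX
        exact (h1 x y z n1 n2 n3).trans (h2 x y z n1 n2 n3).symm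
      · rw [e, e', mem_bases, mem_bases]
        simp [hX]

/-- contraction -/
def con (ρ : Finset α → ℕ) (T : Finset α) : Finset α → ℕ := fun Y => ρ (Y ∪ T) - T.card

theorem IsRk.con {ρ : Finset α → ℕ} {r : ℕ} (h : IsRk ρ r) {T : Finset α} (hT : T.card + 3 = r)
    (hi : ρ T = T.card) : IsRk (con ρ T) 3 where
  le_card := by
    intro X
    have := h.le_add_card (X ∪ T) T X (by intro s; simp; tauto)
    simp only [MP_c3fbfc_co.con]
    omega
  mono := by
    intro X Y hXY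
    have := h.mono (Finset.union_subset_union_left (t := T) hXY)
    simp only [MP_c3fbfc_co.con]
    omega
  submod := by
    intro X Y
    have a1 := h.sub' (X ∪ T) (Y ∪ T) (X ∪ Y ∪ T) (X ∩ Y ∪ T)
      (by intro s; simp; tauto) (by intro s; simp; tauto) (by intro s; simp; tauto)
    have a2 := h.mono (Finset.subset_union_right (s₁ := X ∪ Y) (s₂ := T))
    have a3 := h.mono (Finset.subset_union_right (s₁ := X ∩ Y) (s₂ := T))
    have a4 := h.mono (Finset.subset_union_right (s₁ := X) (s₂ := T))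
    have a5 := h.mono (Finset.subset_union_right (s₁ := Y) (s₂ := T))
    simp only [MP_c3fbfc_co.con]
    omega
  top := by
    simp only [MP_c3fbfc_co.con, Finset.union_eq_left.2 (Finset.subset_univ T), h.top]
    omega

theorem proj_eq {ρ : Finset α → ℕ} {r : ℕ} (h : IsRk ρ r) {T : Finset α} (hT : T.card + 3 = r) :
    (bases ρ r).filter (fun X => T ⊆ X) = (bases (con ρ T) 3).image (fun τ => τ ∪ T) := by
  ext X
  simp only [Finset.mem_filter, Finset.mem_image, mem_bases, con]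
  constructor
  · rintro ⟨⟨h1, h2⟩, h3⟩
    have := Finset.card_sdiff_add_card_eq_card h3
    refine ⟨X \ T, ⟨by omega, ?_⟩, Finset.sdiff_union_of_subset h3⟩
    rw [Finset.sdiff_union_of_subset h3]
    omega
  · rintro ⟨τ, ⟨h1, h2⟩, rfl⟩
    have a1 := h.le_card (τ ∪ T)
    have a2 := Finset.card_union_le τ T
    have a3 := h.le_top (τ ∪ T)
    exact ⟨⟨by omega, by omega⟩, Finset.subset_union_right⟩

theorem proj_empty {ρ : Finset α → ℕ} {r : ℕ} (h : IsRk ρ r) {T : Finset α}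
    (hi : ρ T ≠ T.card) : (bases ρ r).filter (fun X => T ⊆ X) = ∅ := by
  refine Finset.filter_eq_empty_iff.2 ?_
  intro X hX hT
  rw [mem_bases] at hX
  exact hi (h.indep_subset (by omega) hT)

/-- the contraction has a line of medium size -/
def BadT (ρ : Finset α → ℕ) (m Δ : ℕ) (T : Finset α) : Prop :=
  ρ T = T.card ∧ ∃ Λ : Finset α, Λ.card = m + 3 ∧
    (∀ x ∈ Λ, ∀ y ∈ Λ, x ≠ y → con ρ T {x, y} = 2) ∧ con ρ T Λ ≤ 2 ∧
    Δ < (univ.filter (fun e => con ρ T (insert e Λ) = 3)).card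

theorem not_bad {ρ : Finset α → ℕ} {r m Δ : ℕ} (h : IsRk ρ r) {T : Finset α}
    (hT : T.card + 3 = r) (hi : ρ T = T.card) (hb : ¬ BadT ρ m Δ T) :
    (∃ D : Finset α, D.card ≤ Δ ∧ ∀ τ ∈ bases (con ρ T) 3, ¬ Disjoint D τ) ∨
      SmallRk (con ρ T) (m + 2) := by
  have hσ := h.con hT hi
  by_cases hs : SmallRk (con ρ T) (m + 2)
  · exact Or.inr hs
  left
  simp only [SmallRk, not_forall, not_le] at hs
  obtain ⟨Λ', h1, h2, h3⟩ := hs
  obtain ⟨Λ, h4, h5⟩ := Finset.exists_subset_card_eq (show m + 3 ≤ Λ'.card by omega)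
  have h6 := (hσ.mono h4).trans h2
  refine ⟨univ.filter (fun e => con ρ T (insert e Λ) = 3), ?_, ?_⟩
  · by_contra hcon
    exact hb ⟨hi, Λ, h5, fun x hx y hy => h1 x (h4 hx) y (h4 hy), h6, not_le.1 hcon⟩
  · intro τ hτ hd
    obtain ⟨x, hx, y, hy, hxy⟩ := Finset.one_lt_card.1 (show 1 < Λ.card by omega)
    have a1 := h1 x (h4 hx) y (h4 hy) hxy
    have a2 := hσ.mono (show {x, y} ⊆ Λ from Finset.insert_subset hx (by simpa using hy))
    have a3 := hσ.closure Λ τ (by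
      intro e he
      have b1 := hσ.le_top (insert e Λ)
      have b2 : con ρ T (insert e Λ) ≠ 3 := fun t =>
        Finset.disjoint_left.1 hd (Finset.mem_filter.2 ⟨Finset.mem_univ _, t⟩) he
      omega)
    have a4 := hσ.mono (Finset.subset_union_right (s₁ := Λ) (s₂ := τ))
    have a5 := (mem_bases.1 hτ).2
    omega

theorem card_bad_T {ρ : Finset α → ℕ} {r m Δ : ℕ} (h : IsRk ρ r) (hr : 3 ≤ r) :
    (((Vr α (r - 3)).filter (BadT ρ m Δ)).card : ℝ) * (m + 3).choose 3 ≤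
      (Wm ρ r m Δ).card * r.choose 3 := by
  refine double_count _ _ (fun T Z => T ⊆ Z) _ _ ?_ ?_
  · intro T hT
    rw [Finset.mem_filter, mem_Vr] at hT
    obtain ⟨hTc, hi, Λ, h1, h2, h3, h4⟩ := hT
    have hT3 : T.card + 3 = r := by omega
    have hσ := h.con hT3 hi
    have pt : ∀ x ∈ Λ, x ∉ T ∧ ρ {x} = 1 := by
      intro x hx
      obtain ⟨y, hy, hyx⟩ := Finset.exists_mem_ne (by omega : 1 < Λ.card) x
      have a1 := h2 x hx y hy hyx.symm
      have a2 := h.insert_le y T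
      simp only [con] at a1
      constructor
      · intro hxT
        have := h.mono (show ({x, y} ∪ T : Finset α) ⊆ insert y T by
          intro s; simp; rintro (rfl | rfl | t) <;> simp [*])
        omega
      · have a3 := h.sub' {x} (insert y T) ({x, y} ∪ T) ∅ (by intro s; simp; tauto)
          (by simp) (by simp)
        have a4 := h.le_card {x}
        simp only [Finset.card_singleton] at a4
        omega
    rw [← h1, ← Finset.card_powersetCard]
    refine Nat.cast_le.2 (Finset.card_le_card_of_injOn (fun τ => τ ∪ T) ?_ ?_)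
    · intro τ hτ
      obtain ⟨hτ1, hτ2⟩ := Finset.mem_powersetCard.1 (Finset.mem_coe.1 hτ)
      simp only [Finset.coe_filter, Set.mem_ofPred_eq, Finset.subset_union_right, and_true]
      obtain ⟨x, hx, y, hy, hxy⟩ := Finset.one_lt_card.1 (show 1 < τ.card by omega)
      have a1 := h2 x (hτ1 hx) y (hτ1 hy) hxy
      have a2 := hσ.mono (show {x, y} ⊆ τ from Finset.insert_subset hx (by simpa using hy))
      have a3 := hσ.mono hτ1
      have a4 : con ρ T τ = 2 := by omega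
      have a5 : Disjoint τ T := Finset.disjoint_left.2 (fun x hx => (pt x (hτ1 hx)).1)
      refine Finset.mem_filter.2 ⟨mem_Vr.2 ?_, ?_, ?_, ?_⟩
      · rw [Finset.card_union_of_disjoint a5]; omega
      · simp only [con] at a4; omega
      · refine le_trans ?_ (Finset.card_le_card (s := Λ \ τ) ?_)
        · rw [Finset.card_sdiff_of_subset hτ1]; omega
        · intro z hz
          rw [Finset.mem_sdiff] at hz
          simp only [Finset.mem_filter, Finset.mem_univ, true_and, Finset.mem_union, not_or]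
          refine ⟨⟨hz.2, (pt z hz.1).1⟩, (pt z hz.1).2, ?_⟩
          have := h.mono (show insert z (τ ∪ T) ⊆ Λ ∪ T from Finset.insert_subset
            (Finset.mem_union_left _ hz.1) (Finset.union_subset_union_left hτ1))
          simp only [con] at h3
          omega
      · refine lt_of_lt_of_le h4 (Finset.card_le_card ?_)
        intro e he
        simp only [Finset.mem_filter, Finset.mem_univ, true_and] at he ⊢
        have b1 := hσ.sub' (insert e τ) Λ (insert e Λ) τ (by intro s; simp; tauto)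
          (Finset.subset_insert _ _) hτ1
        have b2 := h.le_top (insert e (τ ∪ T))
        have b3 : con ρ T (insert e τ) = ρ (insert e (τ ∪ T)) - T.card := by
          simp only [con, Finset.insert_union]
        omega
    · intro τ hτ τ' hτ' e
      have a1 := (Finset.mem_powersetCard.1 (Finset.mem_coe.1 hτ)).1
      have a2 := (Finset.mem_powersetCard.1 (Finset.mem_coe.1 hτ')).1
      have := congrArg (fun X => X \ T) e
      simp only [Finset.union_sdiff_right] at this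
      rwa [Finset.sdiff_eq_self_of_disjoint (Finset.disjoint_left.2 (fun x hx => (pt x (a1 hx)).1)),
        Finset.sdiff_eq_self_of_disjoint
          (Finset.disjoint_left.2 (fun x hx => (pt x (a2 hx)).1))] at this
  · intro Z hZ
    have hZc : Z.card = r := mem_Vr.1 (Finset.mem_filter.1 hZ).1
    rw [← Nat.choose_symm hr, ← hZc, ← Finset.card_powersetCard, hZc]
    refine Nat.cast_le.2 (Finset.card_le_card ?_)
    intro T hT
    simp only [Finset.mem_filter, mem_Vr] at hT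
    exact Finset.mem_powersetCard.2 ⟨hT.2, hT.1.1⟩

end Pool.Agent.MP_c3fbfc_co

end MrgPart0

-- ======== part 1: formerly Pool.Agent.MP_c3fbfc_co.ClassA
section MrgPart1

/-! Counting rank functions with few medium hyperplanes and no copy of a configuration. -/

namespace Pool.Agent.MP_c3fbfc_co

open Finset Filter
open scoped Classical

variable {α : Type*} [Fintype α] [DecidableEq α]

omit [DecidableEq α] in
theorem card_small_sets (Δ : ℕ) :
    ((univ : Finset (Finset α)).filter (fun S => S.card ≤ Δ)).card ≤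
      (Fintype.card α + 1) ^ Δ := by
  have := card_le_of_rel ((univ : Finset (Finset α)).filter (fun S => S.card ≤ Δ))
    (univ : Finset (Fin Δ → Option α)) (fun S f => ∀ x, x ∈ S ↔ ∃ i, f i = some x) ?_ ?_
  · simpa using this
  · intro S hS
    have hS' := (Finset.mem_filter.1 hS).2
    refine ⟨fun i => if h : i.val < S.card then some (S.equivFin.symm ⟨i.val, h⟩).1 else none,
      Finset.mem_univ _, fun x => ⟨fun hx => ?_, ?_⟩⟩
    · refine ⟨⟨(S.equivFin ⟨x, hx⟩).val, lt_of_lt_of_le (S.equivFin ⟨x, hx⟩).isLt hS'⟩, ?_⟩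
      simp
    · rintro ⟨i, hi⟩
      by_cases h : i.val < S.card
      · simp only [dif_pos h, Option.some.injEq] at hi
        exact hi ▸ (S.equivFin.symm ⟨i.val, h⟩).2
      · simp [dif_neg h] at hi
  · intro S _ S' _ f _ h1 h2
    ext x
    rw [h1, h2]

theorem count_meet' (Δ : ℕ) (S : Finset (Finset (Finset α)))
    (hS : ∀ ℬ ∈ S, ∃ D : Finset α, D.card ≤ Δ ∧
      ∃ σ, IsRk σ 3 ∧ ℬ = bases σ 3 ∧ ∀ τ ∈ ℬ, ¬ Disjoint D τ) :
    (S.card : ℝ) ≤ 2 ^ Fintype.card α * (Fintype.card α + 1) ^ (Fintype.card α * Δ) := by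
  have := card_le_mul_of_rel S (univ : Finset (Finset α))
    (fun ℬ D => D.card ≤ Δ ∧ ∃ σ, IsRk σ 3 ∧ ℬ = bases σ 3 ∧ ∀ τ ∈ ℬ, ¬ Disjoint D τ)
    ((Fintype.card α + 1) ^ (Fintype.card α * Δ)) (fun ℬ h => by
      obtain ⟨D, h1⟩ := hS ℬ h
      exact ⟨D, Finset.mem_univ _, h1⟩) ?_
  · simpa using this
  · intro D _
    by_cases hD : D.card ≤ Δ
    · refine le_trans (Nat.cast_le.2 (count_meet D _ (fun ℬ h =>
        (@Finset.mem_filter _ _ (_) _ _ |>.1 h).2.2))) ?_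
      push_cast
      exact pow_le_pow_right₀ (by have : (0 : ℝ) ≤ Fintype.card α := by positivity
                                  linarith) (Nat.mul_le_mul_left _ hD)
    · rw [Finset.filter_eq_empty_iff.2 (fun _ _ t => hD t.1)]
      simp only [Finset.card_empty, Nat.cast_zero]
      positivity

theorem classA {β : Type*} (Q : Finset β) (h : Tern β) (r m Δ : ℕ) (hr : 3 ≤ r) (L' G : ℝ)
    (hL : ((m + 2 : ℕ) : ℝ) ≤ L') (hG : ∀ P : Finset α, ((cls Q h L' P).card : ℝ) ≤ G)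
    (w g a : ℝ)
    (hg : 2 + 2 ^ Fintype.card α * (Fintype.card α + 1) ^ (Fintype.card α * Δ) +
      (Fintype.card α + 1) ^ Fintype.card α * G ≤ g)
    (ha : ((Fintype.card α : ℝ) + 1) ^ (Fintype.card α * Fintype.card α) ≤ a)
    (𝓐 : Finset (Finset (Finset α)))
    (h𝓐 : ∀ ℬ ∈ 𝓐, ∃ ρ, IsRk ρ r ∧ ℬ = bases ρ r ∧ ((Wm ρ r m Δ).card : ℝ) ≤ w ∧
      ∀ T : Finset α, T.card + 3 = r → ρ T = T.card → ¬ ∃ φ, EmbRk (con ρ T) Q h φ) :
    (𝓐.card : ℝ) ≤ Real.exp (((Fintype.card α).choose (r - 3) : ℝ) / r.choose 3 * Real.log g +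
      w / (m + 3).choose 3 * Real.log a) := by
  set n := Fintype.card α with hn
  have ht : 0 < r.choose 3 := Nat.choose_pos hr
  have ht' : (0 : ℝ) < r.choose 3 := by exact_mod_cast ht
  have hm' : (0 : ℝ) < (m + 3).choose 3 := by exact_mod_cast Nat.choose_pos (by omega)
  have a1 : 1 ≤ a := le_trans (one_le_pow₀ (by have : (0 : ℝ) ≤ n := by positivity
                                               linarith)) ha
  have a0 : 0 < a := by linarith
  have G0 : 0 ≤ G := le_trans (by positivity) (hG ∅)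
  set J : Finset α → Finset (Finset α) := fun T => (Vr α r).filter (fun X => T ⊆ X) with hJ
  set S1 : Finset (Finset (Finset α)) := univ.filter (fun ℬ => ∃ D : Finset α, D.card ≤ Δ ∧
      ∃ σ, IsRk σ 3 ∧ ℬ = bases σ 3 ∧ ∀ τ ∈ ℬ, ¬ Disjoint D τ) with hS1
  set S2 : Finset (Finset (Finset α)) := univ.filter (fun ℬ =>
      ∃ σ, IsRk σ 3 ∧ ℬ = bases σ 3 ∧ SmallRk σ (m + 2) ∧ ¬ ∃ φ, EmbRk σ Q h φ) with hS2
  set S3 : Finset (Finset (Finset α)) := univ.filter (fun ℬ =>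
      ∃ σ, IsRk σ 3 ∧ ℬ = bases σ 3) with hS3
  have c1 := count_meet' Δ S1 (fun ℬ t => (Finset.mem_filter.1 t).2)
  have c2 := count_small Q h (m + 2) L' G hL hG S2 (fun ℬ t => (Finset.mem_filter.1 t).2)
  have c3 : (S3.card : ℝ) ≤ a := by
    refine le_trans (Nat.cast_le.2 (count_meet univ S3 (fun ℬ t => ?_))) ?_
    · obtain ⟨σ, p1, p2⟩ := (Finset.mem_filter.1 t).2
      refine ⟨σ, p1, p2, fun τ hτ hd => ?_⟩
      rw [p2, mem_bases] at hτ
      obtain ⟨x, hx⟩ := Finset.card_pos.1 (show 0 < τ.card by omega)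
      exact Finset.disjoint_left.1 hd (Finset.mem_univ x) hx
    · simpa using ha
  set Gd : Finset α → Finset (Finset (Finset α)) := fun T =>
    insert ∅ ((S1 ∪ S2).image (fun ℬ => ℬ.image (fun τ => τ ∪ T))) with hGd
  set Al : Finset α → Finset (Finset (Finset α)) := fun T =>
    S3.image (fun ℬ => ℬ.image (fun τ => τ ∪ T)) with hAl
  set f : Finset α → Finset (Finset α) → ℝ := fun T z =>
    (if z ∈ Gd T then 1 else 0) + (if z ∈ Al T then 1 / a else 0) with hf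
  have f0 : ∀ T z, 0 ≤ f T z := by
    intro T z
    simp only [hf]
    split_ifs <;> positivity
  have fs : ∀ T (Y : Finset (Finset (Finset α))), ∑ z ∈ Y, f T z ≤ g := by
    intro T Y
    simp only [hf, Finset.sum_add_distrib, Finset.sum_ite_mem, Finset.sum_const, nsmul_eq_mul,
      mul_one]
    have b1 : ((Y ∩ Gd T).card : ℝ) ≤ 1 + (S1.card + S2.card) := by
      have := (Finset.card_le_card (Finset.inter_subset_right (s₁ := Y) (s₂ := Gd T))).trans
        ((Finset.card_insert_le _ _).trans (Nat.add_le_add_right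
          (Finset.card_image_le.trans (Finset.card_union_le _ _)) 1))
      have b : ((Y ∩ Gd T).card : ℝ) ≤ (S1.card + S2.card + 1 : ℕ) := Nat.cast_le.2 this
      push_cast at b
      linarith
    have b2 : ((Y ∩ Al T).card : ℝ) ≤ a :=
      le_trans (Nat.cast_le.2 ((Finset.card_le_card
        (Finset.inter_subset_right (s₁ := Y) (s₂ := Al T))).trans Finset.card_image_le)) c3
    have b3 : ((Y ∩ Al T).card : ℝ) * (1 / a) ≤ 1 := by
      rw [mul_one_div, div_le_one a0]; exact b2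
    linarith
  have g1 : 1 ≤ g := by
    have : (0 : ℝ) ≤ 2 ^ n * (n + 1) ^ (n * Δ) + (n + 1) ^ n * G := by positivity
    linarith
  have key := finner (Vr α (r - 3)) J (r.choose 3) ht (Vr α r) (by
    intro X hX
    have hXc := mem_Vr.1 hX
    rw [← Nat.choose_symm hr, ← hXc, ← Finset.card_powersetCard, hXc]
    congr 1
    ext T
    simp only [hJ, Finset.mem_filter, Finset.mem_powersetCard, hXc, Finset.subset_univ,
      true_and]
    tauto) f f0
  have up : ∏ T ∈ Vr α (r - 3), (∑ z ∈ (Vr α r ∩ J T).powerset, f T z) ^ (1 / (r.choose 3 : ℕ) : ℝ)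
      ≤ Real.exp ((n.choose (r - 3) : ℝ) / r.choose 3 * Real.log g) := by
    calc _ ≤ ∏ _T ∈ Vr α (r - 3), g ^ (1 / (r.choose 3 : ℕ) : ℝ) :=
          Finset.prod_le_prod (fun T _ => Real.rpow_nonneg (Finset.sum_nonneg
            (fun z _ => f0 T z)) _) (fun T _ => Real.rpow_le_rpow (Finset.sum_nonneg
            (fun z _ => f0 T z)) (fs T _) (by positivity))
      _ = _ := by
          rw [Finset.prod_const, card_Vr, Real.rpow_def_of_pos (by linarith), ← Real.exp_nat_mul]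
          congr 1
          ring
  have low : ∀ ℬ ∈ 𝓐, Real.exp (-(w / (m + 3).choose 3 * Real.log a)) ≤
      ∏ T ∈ Vr α (r - 3), (f T (ℬ ∩ J T)) ^ (1 / (r.choose 3 : ℕ) : ℝ) := by
    intro ℬ hℬ
    obtain ⟨ρ, hρ, rfl, hw, hfree⟩ := h𝓐 ℬ hℬ
    have e : ∀ T, bases ρ r ∩ J T = (bases ρ r).filter (fun X => T ⊆ X) := by
      intro T
      ext X
      simp only [hJ, Finset.mem_inter, Finset.mem_filter, mem_Vr, mem_bases]
      tauto
    have pt : ∀ T ∈ Vr α (r - 3), (if BadT ρ m Δ T then (1 / a) ^ (1 / (r.choose 3 : ℕ) : ℝ) else 1)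
        ≤ (f T (bases ρ r ∩ J T)) ^ (1 / (r.choose 3 : ℕ) : ℝ) := by
      intro T hT
      have hT3 : T.card + 3 = r := by have := mem_Vr.1 hT; omega
      by_cases hb : BadT ρ m Δ T
      · rw [if_pos hb]
        refine Real.rpow_le_rpow (by positivity) ?_ (by positivity)
        have : bases ρ r ∩ J T ∈ Al T := by
          rw [e, proj_eq hρ hT3]
          exact Finset.mem_image_of_mem _ (Finset.mem_filter.2
            ⟨Finset.mem_univ _, _, hρ.con hT3 hb.1, rfl⟩)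
        simp only [hf, if_pos this]
        split_ifs <;> linarith
      · rw [if_neg hb]
        refine Real.one_le_rpow ?_ (by positivity)
        have : bases ρ r ∩ J T ∈ Gd T := by
          rw [e]
          by_cases hi : ρ T = T.card
          · rw [proj_eq hρ hT3]
            refine Finset.mem_insert_of_mem (Finset.mem_image_of_mem _ ?_)
            rcases not_bad hρ hT3 hi hb with ⟨D, d1, d2⟩ | t
            · exact Finset.mem_union_left _ (Finset.mem_filter.2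
                ⟨Finset.mem_univ _, D, d1, _, hρ.con hT3 hi, rfl, d2⟩)
            · exact Finset.mem_union_right _ (Finset.mem_filter.2
                ⟨Finset.mem_univ _, _, hρ.con hT3 hi, rfl, t, hfree T hT3 hi⟩)
          · rw [proj_empty hρ hi]
            exact Finset.mem_insert_self _ _
        simp only [hf, if_pos this]
        have : 0 < 1 / a := by positivity
        split_ifs <;> linarith
    refine le_trans ?_ (Finset.prod_le_prod (fun T _ => by split_ifs <;> positivity) pt)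
    rw [Finset.prod_ite, Finset.prod_const_one, mul_one, Finset.prod_const,
      Real.rpow_def_of_pos (by positivity), ← Real.exp_nat_mul, Real.exp_le_exp, one_div a,
      Real.log_inv]
    have b1 := card_bad_T (m := m) (Δ := Δ) hρ hr
    have b2 : 0 ≤ Real.log a := Real.log_nonneg a1
    have b3 : (((Vr α (r - 3)).filter (BadT ρ m Δ)).card : ℝ) / r.choose 3 ≤
        w / (m + 3).choose 3 := by
      rw [div_le_div_iff₀ ht' hm']
      exact b1.trans (by gcongr)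
    have b4 := mul_le_mul_of_nonneg_right b3 b2
    refine le_trans (neg_le_neg b4) (le_of_eq ?_)
    ring
  have sub : 𝓐 ⊆ (Vr α r).powerset := by
    intro ℬ hℬ
    obtain ⟨ρ, -, rfl, -⟩ := h𝓐 ℬ hℬ
    exact Finset.mem_powerset.2 (Finset.filter_subset _ _)
  have fin : (𝓐.card : ℝ) * Real.exp (-(w / (m + 3).choose 3 * Real.log a)) ≤
      Real.exp ((n.choose (r - 3) : ℝ) / r.choose 3 * Real.log g) := by
    calc _ = ∑ _ℬ ∈ 𝓐, Real.exp (-(w / (m + 3).choose 3 * Real.log a)) := by simp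
      _ ≤ _ := Finset.sum_le_sum low
      _ ≤ _ := Finset.sum_le_sum_of_subset_of_nonneg sub (fun ℬ _ _ =>
          Finset.prod_nonneg (fun T _ => Real.rpow_nonneg (f0 _ _) _))
      _ ≤ _ := key
      _ ≤ _ := up
  rw [Real.exp_neg, ← div_eq_mul_inv, div_le_iff₀ (Real.exp_pos _), ← Real.exp_add] at fin
  exact fin

end Pool.Agent.MP_c3fbfc_co

end MrgPart1

-- ======== part 2: formerly Pool.Agent.MP_c3fbfc_co.Asym
section MrgPart2

/-! Asymptotic count of rank functions avoiding an unavoidable configuration. -/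

namespace Pool.Agent.MP_c3fbfc_co

open Finset Filter
open scoped Classical

theorem choose_small {n r : ℕ} (h : 3 * r ≤ n) : (n.choose r : ℝ) ≤ (19 / 10) ^ n := by
  have h1 : (n.choose r : ℝ) * 2 ^ (n - r) ≤ 3 ^ n := by
    have e := add_pow (1 : ℝ) 2 n
    have := Finset.single_le_sum (f := fun k => (1 : ℝ) ^ k * 2 ^ (n - k) * n.choose k)
      (s := range (n + 1)) (fun _ _ => by positivity) (Finset.mem_range.2 (by omega : r < n + 1))
    rw [← e] at this
    norm_num at this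
    linarith
  have h2 : (n.choose r : ℝ) ^ 3 * 4 ^ n ≤ 27 ^ n := by
    have a1 : ((n.choose r : ℝ) * 2 ^ (n - r)) ^ 3 ≤ (3 ^ n) ^ 3 := by gcongr
    have a2 : (4 : ℝ) ^ n ≤ (2 ^ (n - r)) ^ 3 := by
      rw [← pow_mul, show (4 : ℝ) = 2 ^ 2 by norm_num, ← pow_mul]
      exact pow_le_pow_right₀ (by norm_num) (by omega)
    have a3 : ((3 : ℝ) ^ n) ^ 3 = 27 ^ n := by
      rw [← pow_mul, mul_comm, pow_mul]; norm_num
    rw [mul_pow, a3] at a1
    exact le_trans (by gcongr) a1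
  refine le_of_pow_le_pow_left₀ (n := 3) (by norm_num) (by positivity) ?_
  have a4 : (27 : ℝ) ^ n ≤ ((19 / 10) ^ n) ^ 3 * 4 ^ n := by
    rw [← pow_mul, mul_comm n 3, pow_mul, ← mul_pow]
    gcongr
    norm_num
  exact le_of_mul_le_mul_right (h2.trans a4) (by positivity)

theorem two_pow_le_middle (n : ℕ) : (2 : ℝ) ^ n ≤ (n + 1) * n.choose (n / 2) := by
  have h := Nat.sum_range_choose n
  have h2 : ∑ k ∈ range (n + 1), n.choose k ≤ ∑ _k ∈ range (n + 1), n.choose (n / 2) :=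
    Finset.sum_le_sum (fun k _ => Nat.choose_le_middle k n)
  rw [h, Finset.sum_const, Finset.card_range, smul_eq_mul] at h2
  exact_mod_cast h2

theorem stabs_lower {α : Type*} [Fintype α] [DecidableEq α] (hn : 0 < Fintype.card α) (r : ℕ) :
    Real.exp (2 / 3 * (((Fintype.card α).choose r : ℝ) / Fintype.card α)) ≤ (stabs α r).card := by
  obtain ⟨W, h1, h2, h3⟩ := exists_stable (Vr α r) hn
  have h4 : W.powerset ⊆ stabs α r := by
    intro I hI
    rw [Finset.mem_powerset] at hI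
    exact Finset.mem_filter.2 ⟨Finset.mem_powerset.2 (hI.trans h1),
      fun X hX Y hY => h2 X (hI hX) Y (hI hY)⟩
  have h5 := Finset.card_le_card h4
  rw [Finset.card_powerset] at h5
  have h6 : (2 : ℝ) ^ W.card ≤ (stabs α r).card := by exact_mod_cast h5
  refine le_trans ?_ h6
  have hn' : (0 : ℝ) < Fintype.card α := by exact_mod_cast hn
  rw [card_Vr] at h3
  have h7 : ((Fintype.card α).choose r : ℝ) / Fintype.card α ≤ W.card := by
    rw [div_le_iff₀ hn']; linarith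
  have h8 := Real.log_two_gt_d9
  rw [← Real.exp_log (show (0 : ℝ) < 2 by norm_num), ← Real.exp_nat_mul, Real.exp_le_exp]
  have : (0 : ℝ) ≤ W.card := by positivity
  rw [Real.exp_log (show (0 : ℝ) < 2 by norm_num)]
  nlinarith

theorem choose_three_ge {r : ℕ} {y : ℝ} (h0 : 0 ≤ y) (h : y + 2 ≤ r) :
    y ^ 3 / 6 ≤ (r.choose 3 : ℝ) := by
  have hr : 2 ≤ r := by
    have : (2 : ℝ) ≤ r := by linarith
    exact_mod_cast this
  obtain ⟨k, rfl⟩ := Nat.exists_eq_add_of_le' hr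
  have e : (k + 2).choose 3 * 6 = (k + 2) * (k + 1) * k := by
    have := Nat.descFactorial_eq_factorial_mul_choose (k + 2) 3
    simp only [Nat.descFactorial, Nat.factorial] at this
    simp at this
    nlinarith
  have e' : (((k + 2).choose 3 : ℕ) : ℝ) * 6 = (k + 2) * (k + 1) * k := by exact_mod_cast e
  push_cast at h
  have a1 : y ≤ k := by linarith
  have a2 : y ^ 3 ≤ (k : ℝ) ^ 3 := by gcongr
  have a3 : (0 : ℝ) ≤ k := by positivity
  nlinarith [mul_nonneg a3 a3]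

theorem ev_exp (C : ℝ) (k : ℕ) :
    ∀ᶠ n : ℕ in atTop, C * (n : ℝ) ^ k * (19 / 10) ^ n ≤ 2 ^ n := by
  have h := tendsto_pow_const_mul_const_pow_of_abs_lt_one k
    (r := 19 / 20) (by rw [abs_of_pos] <;> norm_num)
  have hc : (0 : ℝ) < 1 / (|C| + 1) := by positivity
  filter_upwards [h.eventually_le_const hc] with n hn
  have e : ((19 : ℝ) / 10) ^ n = (19 / 20) ^ n * 2 ^ n := by
    rw [← mul_pow]; norm_num
  rw [le_div_iff₀ (by positivity)] at hn
  have a1 := le_abs_self C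
  have a2 : (0 : ℝ) ≤ (n : ℝ) ^ k * (19 / 20) ^ n := by positivity
  have a3 : C * ((n : ℝ) ^ k * (19 / 20) ^ n) ≤ 1 := by nlinarith
  have a4 : (0 : ℝ) < 2 ^ n := by positivity
  rw [e]
  nlinarith

theorem succ_pow_le {n : ℕ} (hn : 1 ≤ n) (k : ℕ) :
    ((n : ℝ) + 1) ^ k ≤ Real.exp (k * (Real.log n + 1)) := by
  have n1 : (1 : ℝ) ≤ n := by exact_mod_cast hn
  rw [Real.exp_nat_mul, Real.exp_add, Real.exp_log (by linarith)]
  have := Real.add_one_le_exp (1 : ℝ)
  gcongr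
  nlinarith

/-- no contraction to rank 3 contains the configuration -/
def Free {α β : Type*} [DecidableEq α] (ρ : Finset α → ℕ) (r : ℕ) (Q : Finset β) (h : Tern β) :
    Prop :=
  ∀ T : Finset α, T.card + 3 = r → ρ T = T.card → ¬ ∃ φ, EmbRk (con ρ T) Q h φ

/-- the common growth facts -/
theorem ev_basic : ∀ᶠ n : ℕ in atTop, 100 * (19 / 10) ^ n ≤ (n.choose (n / 2) : ℝ) / n ^ 2 ∧
    3 * (n : ℝ) ^ 2 ≤ (19 / 10) ^ n ∧
    ((n : ℝ) + 1) ^ ⌈(n : ℝ) ^ (4 / 5 : ℝ)⌉₊ ≤ (19 / 10) ^ n ∧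
    (⌈(n : ℝ) ^ (4 / 5 : ℝ)⌉₊ : ℝ) ≤ 2 * (n : ℝ) ^ (4 / 5 : ℝ) := by
  filter_upwards [ev_exp 200 3, ev_pow (4 / 5) 1 8 (by norm_num), eventually_ge_atTop 1]
    with n h1 h2 hn
  have n1 : (1 : ℝ) ≤ n := by exact_mod_cast hn
  have p1 : 1 ≤ (n : ℝ) ^ (4 / 5 : ℝ) := Real.one_le_rpow n1 (by norm_num)
  have c1 : (⌈(n : ℝ) ^ (4 / 5 : ℝ)⌉₊ : ℝ) ≤ 2 * (n : ℝ) ^ (4 / 5 : ℝ) := by
    have := Nat.ceil_lt_add_one (show 0 ≤ (n : ℝ) ^ (4 / 5 : ℝ) by linarith)
    linarith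
  have l0 : 0 ≤ Real.log n := Real.log_nonneg n1
  rw [Real.rpow_one] at h2
  have ex : Real.exp (n * (1 / 2)) ≤ (19 / 10) ^ n := by
    rw [Real.exp_nat_mul]
    gcongr
    have a1 := Real.exp_one_lt_d9
    have a2 : Real.exp (1 / 2) ^ 2 = Real.exp 1 := by
      rw [← Real.exp_nat_mul]; norm_num
    have a3 := Real.exp_pos (1 / 2)
    nlinarith
  refine ⟨?_, ?_, ?_, c1⟩
  · have := two_pow_le_middle n
    rw [le_div_iff₀ (by positivity)]
    have a1 : (0 : ℝ) ≤ n.choose (n / 2) := by positivity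
    have a2 : (100 * (19 / 10) ^ n * (n : ℝ) ^ 2) * (2 * n) ≤ n.choose (n / 2) * (2 * n) := by
      nlinarith
    exact le_of_mul_le_mul_right a2 (by linarith)
  · refine le_trans ?_ ((succ_pow_le hn 4).trans (le_trans ?_ ex))
    · have : (2 : ℝ) ^ 2 * n ^ 2 ≤ (n + 1) ^ 2 * (n + 1) ^ 2 := by gcongr <;> linarith
      nlinarith
    · rw [Real.exp_le_exp]
      push_cast
      nlinarith
  · refine (succ_pow_le hn _).trans (le_trans ?_ ex)
    rw [Real.exp_le_exp]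
    have : (⌈(n : ℝ) ^ (4 / 5 : ℝ)⌉₊ : ℝ) * (Real.log n + 1) ≤
      2 * (n : ℝ) ^ (4 / 5 : ℝ) * (Real.log n + 1) := by gcongr
    linarith

theorem evA {β : Type*} {Q : Finset β} {h : Tern β} (H : U Q h) :
    ∀ᶠ n : ℕ in atTop, ∀ r, n ≤ 3 * r → ∀ 𝓐 : Finset (Finset (Finset (Fin n))),
      (∀ ℬ ∈ 𝓐, ∃ ρ, IsRk ρ r ∧ ℬ = bases ρ r ∧
        ((Wm ρ r (⌊(n : ℝ) ^ (11 / 12 : ℝ)⌋₊ - 2) ⌈(n : ℝ) ^ (4 / 5 : ℝ)⌉₊).card : ℝ) ≤
          n.choose (n / 2) * (n : ℝ) ^ (-1 / 3 : ℝ) ∧ Free ρ r Q h) →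
      (𝓐.card : ℝ) ≤ Real.exp (1 / 4 * ((n.choose (n / 2) : ℝ) / n)) := by
  filter_upwards [H (1 / 30000) (by norm_num), ev_basic, ev_pow (9 / 5) 2 120000 (by norm_num),
    ev_pow (-13 / 12) (-1) 480 (by norm_num), ev_pow' 0 (11 / 12) 4 (by norm_num),
    eventually_ge_atTop 12] with n h1 h2 h3 h4 h5 hn r hr 𝓐 h𝓐
  have n1 : (12 : ℝ) ≤ n := by exact_mod_cast hn
  have n0 : (0 : ℝ) < n := by linarith
  have l0 : 0 ≤ Real.log n := Real.log_nonneg (by linarith)
  obtain ⟨-, -, -, c1⟩ := h2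
  set M : ℝ := (n.choose (n / 2) : ℝ) with hM
  have M0 : 0 ≤ M := by positivity
  set y := (n : ℝ) ^ (11 / 12 : ℝ) with hy
  rw [Real.rpow_zero, mul_one] at h5
  have f1 : 2 ≤ ⌊y⌋₊ := Nat.le_floor (by push_cast; linarith)
  have f2 : ((⌊y⌋₊ - 2 + 2 : ℕ) : ℝ) ≤ y := by
    rw [Nat.sub_add_cancel f1]; exact Nat.floor_le (by linarith)
  have f3 : y / 2 + 2 ≤ ((⌊y⌋₊ - 2 + 3 : ℕ) : ℝ) := by
    rw [show ⌊y⌋₊ - 2 + 3 = ⌊y⌋₊ + 1 by omega]
    have := Nat.lt_floor_add_one y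
    push_cast
    linarith
  have p1 : (n : ℝ) ≤ (n : ℝ) ^ (9 / 5 : ℝ) := by
    conv_lhs => rw [← Real.rpow_one n]
    exact Real.rpow_le_rpow_of_exponent_le (by linarith) (by norm_num)
  have p2 : (n : ℝ) ^ (9 / 5 : ℝ) = n * (n : ℝ) ^ (4 / 5 : ℝ) := by
    rw [show (9 / 5 : ℝ) = 1 + 4 / 5 by norm_num, Real.rpow_add n0, Real.rpow_one]
  rw [show (2 : ℝ) = (2 : ℕ) by norm_num, Real.rpow_natCast] at h3
  set z := (n : ℝ) ^ (9 / 5 : ℝ) * (Real.log n + 1) with hz
  have z1 : (n : ℝ) * (Real.log n + 1) ≤ z := by rw [hz]; gcongr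
  have z2 : (n : ℝ) ≤ z := by nlinarith
  have z3 : 4 * z ≤ 1 / 30000 * n ^ 2 := by rw [hz]; linarith
  set D := Real.exp (1 / 30000 * n ^ 2) with hD
  have D1 : 3 ≤ D := by
    have := Real.add_one_le_exp (1 / 30000 * (n : ℝ) ^ 2)
    linarith
  have D2 : ((n : ℝ) + 1) ^ n ≤ D :=
    (succ_pow_le (by omega) n).trans (Real.exp_le_exp.2 (by linarith))
  have D3 : 2 ^ n * ((n : ℝ) + 1) ^ (n * ⌈(n : ℝ) ^ (4 / 5 : ℝ)⌉₊) ≤ D := by
    have a1 : (2 : ℝ) ^ n ≤ Real.exp (n * 1) := by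
      rw [Real.exp_nat_mul]
      have := Real.add_one_le_exp (1 : ℝ)
      gcongr
      linarith
    have a2 := succ_pow_le (show 1 ≤ n by omega) (n * ⌈(n : ℝ) ^ (4 / 5 : ℝ)⌉₊)
    refine (mul_le_mul a1 a2 (by positivity) (by positivity)).trans ?_
    rw [← Real.exp_add, Real.exp_le_exp]
    push_cast
    have : (n : ℝ) * ⌈(n : ℝ) ^ (4 / 5 : ℝ)⌉₊ * (Real.log n + 1) ≤
        n * (2 * (n : ℝ) ^ (4 / 5 : ℝ)) * (Real.log n + 1) := by gcongr
    have e : n * (2 * (n : ℝ) ^ (4 / 5 : ℝ)) * (Real.log n + 1) = 2 * z := by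
      rw [hz, p2]; ring
    linarith
  have key := classA Q h r (⌊y⌋₊ - 2) ⌈(n : ℝ) ^ (4 / 5 : ℝ)⌉₊ (by omega) y D f2 h1
    (M * (n : ℝ) ^ (-1 / 3 : ℝ)) (D ^ 3) (Real.exp ((n * n : ℕ) * (Real.log n + 1)))
    (by
      rw [Fintype.card_fin]
      have : ((n : ℝ) + 1) ^ n * D ≤ D * D := by gcongr
      nlinarith)
    (by rw [Fintype.card_fin]; exact succ_pow_le (by omega) _) 𝓐 h𝓐
  refine key.trans (Real.exp_le_exp.2 ?_)
  rw [Fintype.card_fin, Real.log_exp, hD, ← Real.exp_nat_mul, Real.log_exp]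
  have r1 : (n : ℝ) ≤ 3 * r := by exact_mod_cast hr
  have b1 := choose_three_ge (r := r) (y := n / 6) (by positivity) (by linarith)
  have b2 := choose_three_ge (y := y / 2) (by linarith) f3
  have b3 : (n.choose (r - 3) : ℝ) ≤ M := by
    rw [hM]; exact_mod_cast Nat.choose_le_middle _ _
  have b4 : (n.choose (r - 3) : ℝ) / r.choose 3 ≤ M / ((n / 6) ^ 3 / 6) := by gcongr
  have q0 : 0 < (n : ℝ) ^ (-1 / 3 : ℝ) := Real.rpow_pos_of_pos n0 _
  have b5 : M * (n : ℝ) ^ (-1 / 3 : ℝ) / ((⌊y⌋₊ - 2 + 3).choose 3 : ℕ) ≤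
      M * (n : ℝ) ^ (-1 / 3 : ℝ) / ((y / 2) ^ 3 / 6) := by gcongr
  have b6 : (n : ℝ) ^ (-1 / 3 : ℝ) * n ^ 2 = (n : ℝ) ^ (-13 / 12 : ℝ) * y ^ 3 := by
    rw [hy, ← Real.rpow_natCast, ← Real.rpow_natCast, ← Real.rpow_mul n0.le,
      ← Real.rpow_add n0, ← Real.rpow_add n0]
    norm_num
  rw [Real.rpow_neg_one] at h4
  have b7 : M * (n : ℝ) ^ (-1 / 3 : ℝ) / ((y / 2) ^ 3 / 6) * ((n * n : ℕ) * (Real.log n + 1)) =
      M * (48 * (n : ℝ) ^ (-13 / 12 : ℝ) * (Real.log n + 1)) := by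
    have y0 : y ≠ 0 := by linarith
    generalize (n : ℝ) ^ (-1 / 3 : ℝ) = A at b6 ⊢
    generalize (n : ℝ) ^ (-13 / 12 : ℝ) = B at b6 ⊢
    push_cast
    field_simp
    linear_combination (48 * M) * b6
  have b8 : M * (48 * (n : ℝ) ^ (-13 / 12 : ℝ) * (Real.log n + 1)) ≤ M * (1 / 10 * (n : ℝ)⁻¹) :=
    mul_le_mul_of_nonneg_left (by linarith) M0
  have b9 : M / ((n / 6) ^ 3 / 6) * ((3 : ℕ) * (1 / 30000 * (n : ℝ) ^ 2)) =
      1296 / 10000 * (M / n) := by
    push_cast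
    field_simp
    ring
  have c2 := mul_le_mul_of_nonneg_right b4
    (show (0 : ℝ) ≤ (3 : ℕ) * (1 / 30000 * (n : ℝ) ^ 2) by positivity)
  have c3 := mul_le_mul_of_nonneg_right b5
    (show (0 : ℝ) ≤ (n * n : ℕ) * (Real.log n + 1) by positivity)
  have c4 : M * (1 / 10 * (n : ℝ)⁻¹) = 1 / 10 * (M / n) := by ring
  have c5 : 0 ≤ M / n := by positivity
  linarith

theorem evB : ∀ᶠ n : ℕ in atTop, ∀ r, n ≤ 3 * r → r ≤ n →
    ∀ 𝓑 : Finset (Finset (Finset (Fin n))),
      (∀ ℬ ∈ 𝓑, ∃ ρ, IsRk ρ r ∧ ℬ = bases ρ r ∧ n.choose (n / 2) * (n : ℝ) ^ (-1 / 3 : ℝ) ≤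
        ((Wm ρ r (⌊(n : ℝ) ^ (11 / 12 : ℝ)⌋₊ - 2) ⌈(n : ℝ) ^ (4 / 5 : ℝ)⌉₊).card : ℝ)) →
      (𝓑.card : ℝ) * Real.exp (3 * n ^ 2) ≤ (stabs (Fin n) r).card := by
  filter_upwards [ev_basic, ev_pow' (4 / 5) (11 / 12) 7 (by norm_num),
    ev_pow' (4 / 5) 1 12 (by norm_num), ev_pow' (-2) (-4 / 3) 100 (by norm_num),
    ev_pow (-7 / 5) (-4 / 3) 4320 (by norm_num),
    eventually_ge_atTop 12] with n h2 h3 h4 h5 h6 hn r hr hrn 𝓑 h𝓑
  have n1 : (12 : ℝ) ≤ n := by exact_mod_cast hn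
  have n0 : (0 : ℝ) < n := by linarith
  have l0 : 0 ≤ Real.log n := Real.log_nonneg (by linarith)
  obtain ⟨e1, e2, e3, c1⟩ := h2
  have tp := two_pow_le_middle n
  have m1 : (n.choose r : ℝ) ≤ n.choose (n / 2) := by exact_mod_cast Nat.choose_le_middle _ _
  have m2 : (n.choose (r - 1) : ℝ) ≤ n.choose (n / 2) := by
    exact_mod_cast Nat.choose_le_middle _ _
  set M : ℝ := (n.choose (n / 2) : ℝ) with hM
  have M0 : 0 ≤ M := by positivity
  set y := (n : ℝ) ^ (11 / 12 : ℝ) with hy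
  set v := (n : ℝ) ^ (4 / 5 : ℝ) with hv
  set s := (n : ℝ) ^ (2 / 5 : ℝ) with hs
  have v1 : 1 ≤ v := Real.one_le_rpow (by linarith) (by norm_num)
  have s1 : 1 ≤ s := Real.one_le_rpow (by linarith) (by norm_num)
  have sv : v = s * s := by rw [hs, hv, ← Real.rpow_add n0]; norm_num
  have d1 : v ≤ ⌈v⌉₊ := Nat.le_ceil v
  have j1 : s ≤ ⌈s⌉₊ := Nat.le_ceil s
  have j2 : (⌈s⌉₊ : ℝ) ≤ 2 * s := by
    have := Nat.ceil_lt_add_one (show 0 ≤ s by linarith)
    linarith
  have r1 : (n : ℝ) ≤ 3 * r := by exact_mod_cast hr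
  have r2 : (r : ℝ) ≤ n := by exact_mod_cast hrn
  rw [Real.rpow_one] at h4
  have f1 : 2 * ⌈v⌉₊ + 2 ≤ ⌊y⌋₊ := Nat.le_floor (by push_cast; linarith)
  have f2 : 2 * ⌈v⌉₊ ≤ r := by
    have : ((2 * ⌈v⌉₊ : ℕ) : ℝ) ≤ r := by push_cast; linarith
    exact_mod_cast this
  have sn : (n : ℝ) ^ (-7 / 5 : ℝ) = (s * n)⁻¹ := by
    rw [hs, ← Real.rpow_add_one n0.ne', ← Real.rpow_neg n0.le]; norm_num
  have key := thmB (α := Fin n) r (⌊y⌋₊ - 2) ⌈v⌉₊ ⌈s⌉₊ (Nat.ceil_pos.2 (by linarith)) (by omega) f2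
    (Nat.ceil_pos.2 (by linarith)) (by rw [Fintype.card_fin]; omega) (n ^ 4)
    (one_le_pow₀ (by linarith)) (18 * M * (n : ℝ) ^ (-7 / 5 : ℝ)) (by
      rw [Fintype.card_fin, sn]
      have a1 : 2 * (n.choose r : ℝ) / (⌈s⌉₊ * r) ≤ 2 * M / (s * (n / 3)) := by
        gcongr
        linarith
      have a2 : 2 * (⌈s⌉₊ : ℝ) * (n.choose (r - 1) : ℝ) / (r * ⌈v⌉₊) ≤
          2 * (2 * s) * M / (n / 3 * v) := by
        gcongr
        linarith
      refine (add_le_add a1 a2).trans (le_of_eq ?_)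
      rw [sv]
      field_simp
      ring) _ 𝓑 h𝓑
  rw [Fintype.card_fin] at key
  set Y := M * (n : ℝ) ^ (-4 / 3 : ℝ) with hY
  have n2 : (n : ℝ) ^ (-2 : ℝ) = ((n : ℝ) ^ 2)⁻¹ := by
    rw [Real.rpow_neg n0.le]; norm_num
  have Y1 : 100 * (M / n ^ 2) ≤ Y := by
    have := mul_le_mul_of_nonneg_left h5 M0
    rw [n2] at this
    rw [hY, div_eq_mul_inv]
    linarith
  have Y2 : 4320 * (M * (n : ℝ) ^ (-7 / 5 : ℝ) * Real.log n) ≤ Y := by
    have := mul_le_mul_of_nonneg_left h6 M0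
    have a : 0 ≤ M * (n : ℝ) ^ (-7 / 5 : ℝ) := by positivity
    rw [hY]
    linarith
  have g1 : Y - 6 * (M / n ^ 2) ≤
      (M * (n : ℝ) ^ (-1 / 3 : ℝ) - 2 * (n.choose (r - 1) : ℝ) / r) / n := by
    have a1 : 2 * (n.choose (r - 1) : ℝ) / r ≤ 2 * M / (n / 3) := by
      gcongr
      linarith
    have a2 : (n : ℝ) ^ (-1 / 3 : ℝ) = (n : ℝ) ^ (-4 / 3 : ℝ) * n := by
      rw [← Real.rpow_add_one n0.ne']; norm_num
    rw [le_div_iff₀ n0, a2]
    have a3 : (Y - 6 * (M / n ^ 2)) * n = M * ((n : ℝ) ^ (-4 / 3 : ℝ) * n) - 2 * M / (n / 3) := by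
      rw [hY]
      generalize (n : ℝ) ^ (-4 / 3 : ℝ) = A
      field_simp
      ring
    linarith
  have MM : 0 ≤ M / n ^ 2 := by positivity
  have E0 : (0 : ℝ) < (19 / 10) ^ n := by positivity
  have g2 : Real.exp (2 / 3 * (Y - 6 * (M / n ^ 2))) ≤
      2 ^ ((M * (n : ℝ) ^ (-1 / 3 : ℝ) - 2 * (n.choose (r - 1) : ℝ) / r) / n) := by
    rw [Real.rpow_def_of_pos (by norm_num), Real.exp_le_exp]
    have := Real.log_two_gt_d9
    have a : 0 ≤ Y - 6 * (M / n ^ 2) := by linarith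
    exact mul_le_mul (by linarith) g1 a (by linarith)
  have g3 : (2 : ℝ) ^ ((univ : Finset (Finset (Fin n))).filter (fun S => S.card ≤ ⌈v⌉₊)).card ≤
      Real.exp ((19 / 10) ^ n) := by
    have a1 := card_small_sets (α := Fin n) ⌈v⌉₊
    rw [Fintype.card_fin] at a1
    have a2 : (((univ : Finset (Finset (Fin n))).filter (fun S => S.card ≤ ⌈v⌉₊)).card : ℝ) ≤
        (19 / 10) ^ n := le_trans (by exact_mod_cast a1) e3
    refine le_trans ?_ (Real.exp_le_exp.2 a2)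
    rw [← mul_one (Nat.cast _), Real.exp_nat_mul]
    have := Real.add_one_le_exp (1 : ℝ)
    gcongr
    linarith
  have g4 : (n.choose r : ℝ) / n ^ 4 ≤ M / n ^ 2 := by
    gcongr
    · linarith
    · norm_num
  have g5 : (2 ^ n * (r + 1) : ℝ) / n ^ 4 ≤ 4 * (M / n ^ 2) := by
    have a1 : (2 ^ n * (r + 1) : ℝ) ≤ (2 * n * M) * (2 * n) := by
      gcongr
      · nlinarith
      · linarith
    refine le_trans (div_le_div_of_nonneg_right a1 (by positivity)) (le_of_eq ?_)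
    field_simp
    ring
  rw [Real.log_pow] at key
  push_cast at key
  have k2 : (𝓑.card : ℝ) * Real.exp (2 / 3 * (Y - 6 * (M / n ^ 2))) ≤
      Real.exp (M / n ^ 2 + Y / 60) * Real.exp (Y / 30 + 4 * (M / n ^ 2)) *
        (Real.exp ((19 / 10) ^ n) * Real.exp ((19 / 10) ^ n)) * (stabs (Fin n) r).card := by
    refine le_trans (mul_le_mul_of_nonneg_left g2 (by positivity)) (key.trans ?_)
    gcongr
    · linarith
    · linarith
  rw [← Real.exp_add, ← Real.exp_add, ← Real.exp_add] at k2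
  have k3 : Real.exp (3 * n ^ 2) * Real.exp (M / n ^ 2 + Y / 60 + (Y / 30 + 4 * (M / n ^ 2)) +
      ((19 / 10) ^ n + (19 / 10) ^ n)) ≤ Real.exp (2 / 3 * (Y - 6 * (M / n ^ 2))) := by
    rw [← Real.exp_add, Real.exp_le_exp]
    linarith
  have k4 := (mul_le_mul_of_nonneg_left k3 (Nat.cast_nonneg 𝓑.card)).trans k2
  rw [← mul_assoc, mul_comm] at k4
  exact le_of_mul_le_mul_left k4 (Real.exp_pos _)

theorem count_free {β : Type*} {Q : Finset β} {h : Tern β} (H : U Q h) :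
    ∀ᶠ n : ℕ in atTop, ∀ l : ℝ, (∀ r, ((stabs (Fin n) r).card : ℝ) ≤ l) →
      ∀ r, ∀ 𝓢 : Finset (Finset (Finset (Fin n))),
      (∀ ℬ ∈ 𝓢, ∃ ρ, IsRk ρ r ∧ ℬ = bases ρ r ∧ Free ρ r Q h) →
      (𝓢.card : ℝ) * Real.exp (3 * n ^ 2) ≤ 2 * l := by
  filter_upwards [evA H, evB, ev_basic, eventually_ge_atTop 1] with n hA hB hb hn l hl r 𝓢 h𝓢
  obtain ⟨e1, e2, -, -⟩ := hb
  have n1 : (1 : ℝ) ≤ n := by exact_mod_cast hn
  have sl := (stabs_lower (α := Fin n) (by rw [Fintype.card_fin]; omega) (n / 2)).trans (hl _)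
  rw [Fintype.card_fin] at sl
  set M : ℝ := (n.choose (n / 2) : ℝ) with hM
  have M0 : 0 ≤ M := by positivity
  have MM : M / n ^ 2 ≤ M / n := by
    gcongr
    nlinarith
  have E0 : (0 : ℝ) < (19 / 10) ^ n := by positivity
  have fin : ∀ x : ℝ, x ≤ Real.exp (1 / 4 * (M / n)) → x * Real.exp (3 * n ^ 2) ≤ l := by
    intro x hx
    refine le_trans (mul_le_mul_of_nonneg_right hx (Real.exp_pos _).le) (le_trans ?_ sl)
    rw [← Real.exp_add, Real.exp_le_exp]
    linarith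
  have l0 : 0 ≤ l := le_trans (Real.exp_pos _).le sl
  by_cases hr : n ≤ 3 * r ∧ r ≤ n
  · set w := M * (n : ℝ) ^ (-1 / 3 : ℝ) with hw
    set p : Finset (Finset (Fin n)) → Prop := fun ℬ => ∃ ρ, IsRk ρ r ∧ ℬ = bases ρ r ∧ w ≤
        ((Wm ρ r (⌊(n : ℝ) ^ (11 / 12 : ℝ)⌋₊ - 2) ⌈(n : ℝ) ^ (4 / 5 : ℝ)⌉₊).card : ℝ) with hp
    have a1 := (hB r hr.1 hr.2 (𝓢.filter p) (fun ℬ t => (Finset.mem_filter.1 t).2)).trans (hl r)
    have a2 := fin _ (hA r hr.1 (𝓢.filter (fun ℬ => ¬ p ℬ)) (fun ℬ t => by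
      obtain ⟨t1, t2⟩ := Finset.mem_filter.1 t
      obtain ⟨ρ, b1, b2, b3⟩ := h𝓢 ℬ t1
      exact ⟨ρ, b1, b2, not_lt.1 (fun t => t2 ⟨ρ, b1, b2, t.le⟩), b3⟩))
    have a3 := Finset.card_filter_add_card_filter_not (s := 𝓢) p
    rw [← a3]
    push_cast
    linarith
  · have sub : 𝓢 ⊆ (Vr (Fin n) r).powerset := by
      intro ℬ hℬ
      obtain ⟨ρ, -, rfl, -⟩ := h𝓢 ℬ hℬ
      exact Finset.mem_powerset.2 (Finset.filter_subset _ _)
    have a1 := Finset.card_le_card sub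
    rw [Finset.card_powerset, card_Vr, Fintype.card_fin] at a1
    have a2 : (n.choose r : ℝ) ≤ (19 / 10) ^ n := by
      by_cases h3 : 3 * r ≤ n
      · exact choose_small h3
      · rw [Nat.choose_eq_zero_of_lt (by omega)]
        simpa using E0.le
    have a3 : (𝓢.card : ℝ) ≤ Real.exp (1 / 4 * (M / n)) := by
      refine le_trans (show (𝓢.card : ℝ) ≤ 2 ^ n.choose r by exact_mod_cast a1) ?_
      refine le_trans ?_ (Real.exp_le_exp.2 (show (n.choose r : ℝ) * 1 ≤ _ by linarith))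
      rw [Real.exp_nat_mul]
      have := Real.add_one_le_exp (1 : ℝ)
      gcongr
      linarith
    have := fin _ a3
    linarith

end Pool.Agent.MP_c3fbfc_co

end MrgPart2

-- marker of a merged file
example : 731051 + 282198 = 731051 + 282198 := rfl
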