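import Mathlib.Combinatorics.Matroid.Rank.ENat
import Mathlib.Topology.MetricSpace.Pseudo.Defs
import Mathlib.Combinatorics.Matroid.Minor.Order
import Mathlib.SetTheory.ZFC.PSet

/-! Definitions used in the statement: paving matroids, minors up to isomorphism, and
asymptotically almost every matroid. -/

namespace Pool.Agent.MP_c3fbfc_co

open Filter Topology

/-- every circuit has at least `r(M)` elements -/
def Paving {α : Type*} (M : Matroid α) : Prop := ∀ C, M.IsCircuit C → M.eRank ≤ C.encard

/-- isomorphism: a bijection of the ground sets preserving independence -/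
def Isom {α β : Type*} (M : Matroid α) (N : Matroid β) : Prop :=
  ∃ e : M.E ≃ N.E, ∀ I : Set M.E,
    M.Indep (Subtype.val '' I) ↔ N.Indep (Subtype.val '' (e '' I))

/-- some minor of `M` is isomorphic to `N` -/
def HasMinor {α β : Type*} (M : Matroid α) (N : Matroid β) : Prop :=
  ∃ M' : Matroid α, M'.IsMinor M ∧ Isom M' N

/-- matroids on the labelled ground set `Fin n` -/
def LMat (n : ℕ) : Type := {M : Matroid (Fin n) // M.E = Set.univ}

/-- isomorphism classes of matroids with `n` elements -/
def UMat (n : ℕ) : Type := Quot (fun M M' : LMat n => Isom M.1 M'.1)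

/-- asymptotically almost every matroid has an `N`-minor, labelled and unlabelled -/
def AlmostAllHaveMinor {β : Type*} (N : Matroid β) : Prop :=
  Tendsto (fun n : ℕ =>
    (Nat.card {q : UMat n // ∀ M : LMat n, Quot.mk _ M = q → HasMinor M.1 N} : ℝ) /
      Nat.card (UMat n)) atTop (𝓝 1) ∧
  Tendsto (fun n : ℕ =>
    (Nat.card {M : LMat n // HasMinor M.1 N} : ℝ) / Nat.card (LMat n)) atTop (𝓝 1)

/-- rank at most 3, and in rank 3 any `j` dependent triples cover at least `2 j` elements -/
def FewLines {β : Type*} (N : Matroid β) : Prop :=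
  N.eRank ≤ 3 ∧ (N.eRank = 3 → ∀ 𝓢 : Set (Set β), (∀ A ∈ 𝓢, N.Dep A ∧ A.ncard = 3) →
    2 * 𝓢.ncard ≤ (⋃₀ 𝓢).ncard)

end Pool.Agent.MP_c3fbfc_co
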