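import Mathlib.Algebra.Order.Chebyshev
import Mathlib.Combinatorics.SimpleGraph.Triangle.Removal
import Mathlib.Combinatorics.SimpleGraph.Triangle.Tripartite
import Mathlib.Data.Fintype.CardEmbedding
import Mathlib.Data.Set.Card

/-! Counting lemmas: boxes in dense sets, triangles in the shadow of a dense linear system. -/

namespace Pool.Agent.MP_c3fbfc_co.V.G.Bx

open Finset

/-- the number of solutions -/
noncomputable def cnt {X : Type} (p : X → Prop) : ℕ := {x | p x}.ncard

theorem cnt_eq {X : Type} [Fintype X] (p : X → Prop) [DecidablePred p] :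
    cnt p = (univ.filter p).card := by
  rw [cnt, ← Set.ncard_coe_finset]
  congr 1
  ext x
  simp

theorem cnt_le {X Y : Type} [Finite Y] {p : X → Prop} {q : Y → Prop} (f : X → Y)
    (h : ∀ x, p x → q (f x)) (hi : ∀ x y, p x → p y → f x = f y → x = y) : cnt p ≤ cnt q :=
  Set.ncard_le_ncard_of_injOn f h (fun x hx y hy e => hi x y hx hy e) (Set.toFinite _)

theorem cnt_mono {X : Type} [Finite X] {p q : X → Prop} (h : ∀ x, p x → q x) : cnt p ≤ cnt q :=
  cnt_le id h fun _ _ _ _ e => e

theorem cnt_prod {X Y : Type} [Finite X] [Fintype Y] (p : X → Y → Prop) :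
    cnt (fun q : X × Y => p q.1 q.2) = ∑ y, cnt fun x => p x y := by
  classical
  have := Fintype.ofFinite X
  simp only [cnt_eq, card_filter]
  rw [Fintype.sum_prod_type_right]

theorem cnt_pi {α V : Type} [Finite α] [Fintype V] (p : α → Prop) :
    cnt (fun g : V → α => ∀ v, p (g v)) = cnt p ^ Fintype.card V := by
  classical
  have := Fintype.ofFinite α
  have e : (univ.filter fun g : V → α => ∀ v, p (g v)) =
      Fintype.piFinset fun _ : V => univ.filter p := by
    ext g; simp
  rw [cnt_eq, cnt_eq, e, Fintype.card_piFinset, prod_const, card_univ]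

variable {α V : Type} [Fintype α] [Fintype V]

theorem one (Y : Type) [Fintype Y] (p : α → Y → Prop) {d : ℝ} (hd : 0 ≤ d)
    (h : d * (Fintype.card α * Fintype.card Y) ≤ cnt fun q : α × Y => p q.1 q.2) :
    d ^ Fintype.card V * ((Fintype.card α : ℝ) ^ Fintype.card V * Fintype.card Y) ≤
      cnt fun q : (V → α) × Y => ∀ v, p (q.1 v) q.2 := by
  rw [cnt_prod (fun (g : V → α) y => ∀ v, p (g v) y)]
  rw [cnt_prod p] at h
  have e : ∀ y, cnt (fun g : V → α => ∀ v, p (g v) y) = cnt (fun a => p a y) ^ Fintype.card V :=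
    fun y => cnt_pi fun a => p a y
  simp only [e]
  push_cast at h ⊢
  rcases Nat.eq_zero_or_pos (Fintype.card Y) with hY | hY
  · rw [hY]
    simp only [Nat.cast_zero, mul_zero]
    positivity
  cases hv : Fintype.card V with
  | zero => simp
  | succ k =>
    have h1 := pow_sum_le_card_mul_sum_pow (s := (univ : Finset Y))
      (f := fun y => (cnt (fun a => p a y) : ℝ)) (fun _ _ => Nat.cast_nonneg _) k
    have h2 := (pow_le_pow_left₀ (by positivity) h (k + 1)).trans h1
    rw [card_univ] at h2
    have y0 : (0 : ℝ) < Fintype.card Y := by exact_mod_cast hY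
    refine le_of_mul_le_mul_left (le_trans (le_of_eq ?_) h2) (pow_pos y0 k)
    ring

theorem box (ρ : ℕ) : ∀ (Y : Type) [Fintype Y] (p : (Fin ρ → α) → Y → Prop) {d : ℝ}, 0 ≤ d →
    d * ((Fintype.card α : ℝ) ^ ρ * Fintype.card Y) ≤
      cnt (fun q : (Fin ρ → α) × Y => p q.1 q.2) →
    d ^ Fintype.card V ^ ρ * ((Fintype.card α : ℝ) ^ (ρ * Fintype.card V) * Fintype.card Y) ≤
      cnt fun q : (Fin ρ → V → α) × Y => ∀ w : Fin ρ → V, p (fun k => q.1 k (w k)) q.2 := by
  classical
  induction ρ with
  | zero =>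
    intro Y _ p d hd h
    simp only [pow_zero, pow_one, zero_mul] at h ⊢
    refine h.trans (Nat.cast_le.2 (cnt_le (fun q => (fun k => k.elim0, q.2))
      (fun q hq w => ?_) fun q q' _ _ e => ?_))
    · rwa [Subsingleton.elim q.1 _] at hq
    · exact Prod.ext (Subsingleton.elim _ _) (Prod.mk.inj e).2
  | succ ρ ih =>
    intro Y _ p d hd h
    have h1 := one (V := V) ((Fin ρ → α) × Y) (fun a z => p (Fin.cons a z.1) z.2) hd (by
      refine le_trans (le_of_eq ?_) (h.trans (Nat.cast_le.2 (cnt_le
        (fun q => (q.1 0, Fin.tail q.1, q.2)) (fun q hq => ?_) fun q q' _ _ e => ?_)))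
      · simp only [Fintype.card_prod, Fintype.card_fun, Fintype.card_fin]
        push_cast
        ring
      · simpa only [Fin.cons_self_tail] using hq
      · simp only [Prod.mk.injEq] at e
        refine Prod.ext ?_ e.2.2
        rw [← Fin.cons_self_tail q.1, ← Fin.cons_self_tail q'.1, e.1, e.2.1])
    have h2 := ih ((V → α) × Y) (fun x z => ∀ v, p (Fin.cons (z.1 v) x) z.2)
      (pow_nonneg hd (Fintype.card V)) (by
      refine le_trans (le_of_eq ?_) (h1.trans (Nat.cast_le.2 (cnt_le
        (fun q => (q.2.1, q.1, q.2.2)) (fun q hq => hq) fun q q' _ _ e => ?_)))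
      · simp only [Fintype.card_prod, Fintype.card_fun, Fintype.card_fin]
        push_cast
        ring
      · simp only [Prod.mk.injEq] at e
        exact Prod.ext e.2.1 (Prod.ext e.1 e.2.2))
    refine le_trans (le_of_eq ?_) (h2.trans (Nat.cast_le.2 (cnt_le
      (fun q => (Fin.cons q.2.1 q.1, q.2.2)) (fun q hq w => ?_) fun q q' _ _ e => ?_)))
    · simp only [Fintype.card_prod, Fintype.card_fun]
      push_cast
      rw [← pow_mul, pow_succ' (Fintype.card V)]
      ring
    · refine (congrArg (fun x => p x q.2.2) (funext fun k => ?_)).mp (hq (Fin.tail w) (w 0))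
      refine Fin.cases ?_ (fun k => ?_) k
      · simp only [Fin.cons_zero]
      · simp only [Fin.cons_succ, Fin.tail]
    · have := Fin.cons_inj.1 (Prod.mk.inj e).1
      exact Prod.ext this.2 (Prod.ext this.1 (Prod.mk.inj e).2)

open SimpleGraph SimpleGraph.TripartiteFromTriangles in
theorem tri {ε : ℝ} (hε : 0 < ε) (p : α → α → α → Prop)
    (h0 : ∀ a b c a', p a b c → p a' b c → a = a') (h1 : ∀ a b c b', p a b c → p a b' c → b = b')
    (h2 : ∀ a b c c', p a b c → p a b c' → c = c')
    (ht : 9 * ε * (Fintype.card α : ℝ) ^ 2 ≤ cnt fun x : α × α × α => p x.1 x.2.1 x.2.2) :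
    triangleRemovalBound ε * (Fintype.card α : ℝ) ^ 3 ≤
      cnt fun x : α × α × α => (∃ z, p z x.2.1 x.2.2) ∧ (∃ z, p x.1 z x.2.2) ∧
        ∃ z, p x.1 x.2.1 z := by
  classical
  rw [cnt_eq] at ht
  set t := univ.filter fun x : α × α × α => p x.1 x.2.1 x.2.2 with hT
  have m : ∀ a b c, (a, b, c) ∈ t ↔ p a b c := fun a b c => by simp [hT]
  have : ExplicitDisjoint t := ⟨fun a b c z u v => h0 a b c z ((m ..).1 u) ((m ..).1 v),
    fun a b c z u v => h1 a b c z ((m ..).1 u) ((m ..).1 v),
    fun a b c z u v => h2 a b c z ((m ..).1 u) ((m ..).1 v)⟩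
  have h3 := (farFromTriangleFree t (ε := ε) (le_trans (le_of_eq (by push_cast; ring))
    ht)).le_card_cliqueFinset
  have h4 := (triangleRemovalBound_pos hε).le
  rw [cnt_eq]
  refine le_trans (le_trans ?_ h3) (Nat.cast_le.2 (card_le_card_of_surjOn toTriangle
    fun s hs => ?_))
  · refine mul_le_mul_of_nonneg_left (pow_le_pow_left₀ (Nat.cast_nonneg _) ?_ 3) h4
    rw [Fintype.card_sum]
    exact_mod_cast Nat.le_add_right _ _
  · obtain ⟨x, y, z, a1, a2, a3, rfl⟩ := is3Clique_iff.1 (mem_cliqueFinset_iff.1 (mem_coe.1 hs))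
    obtain ⟨a, b, c, e, b1, b2, b3⟩ := graph_triple a1 a2 a3
    exact ⟨(a, b, c), mem_coe.2 (mem_filter.2 ⟨mem_univ _,
      (Graph.in₁₂_iff.1 b3).imp fun _ => (m ..).1, (Graph.in₀₂_iff.1 b2).imp fun _ => (m ..).1,
      (Graph.in₀₁_iff.1 b1).imp fun _ => (m ..).1⟩), e⟩

/-- objects that are determined by the values of a function on `D` -/
theorem cnt_det {X T : Type} (p : X → Prop) (f : X → T → α) (D : Finset T)
    (h : ∀ x y, p x → p y → (∀ t ∈ D, f x t = f y t) → x = y) :
    cnt p ≤ Fintype.card α ^ D.card := by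
  classical
  have := cnt_le (p := p) (q := fun _ : D → α => True) (fun x t => f x t.1) (fun _ _ => trivial)
    fun x y hx hy e => h x y hx hy fun t ht => congrFun e ⟨t, ht⟩
  rwa [cnt_eq (fun _ : D → α => True), filter_true, card_univ, Fintype.card_fun,
    Fintype.card_coe] at this

/-- injective tuples in a set -/
theorem cnt_inj (X : Finset α) (m : ℕ) : (X.card + 1 - m) ^ m ≤
    cnt fun y : Fin m → α => Function.Injective y ∧ ∀ k, y k ∈ X := by
  classical
  have := cnt_le (p := fun _ : Fin m ↪ X => True)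
    (q := fun y : Fin m → α => Function.Injective y ∧ ∀ k, y k ∈ X)
    (fun f k => (f k).1) (fun f _ => ⟨Subtype.val_injective.comp f.injective, fun k => (f k).2⟩)
    fun f g _ _ e => Function.Embedding.ext fun k => Subtype.ext (congrFun e k)
  rw [cnt_eq (fun _ : Fin m ↪ X => True), filter_true, card_univ, Fintype.card_embedding_eq,
    Fintype.card_coe, Fintype.card_fin] at this
  exact (Nat.pow_sub_le_descFactorial _ _).trans this

theorem choose_le {n r : ℕ} (h : 3 * r ≤ 2 * n) (j : ℕ) :
    n.choose (r - j) ≤ 2 ^ j * n.choose r := by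
  induction j with
  | zero => simp
  | succ j ih =>
    rw [pow_succ, mul_right_comm]
    rcases le_or_gt r j with t | t
    · rw [show r - (j + 1) = r - j by omega]
      omega
    obtain ⟨k, hk⟩ : ∃ k, r - j = k + 1 := ⟨r - j - 1, by omega⟩
    rw [show r - (j + 1) = k by omega]
    rw [hk] at ih
    have e := Nat.choose_succ_right_eq n k
    have : n.choose k ≤ 2 * n.choose (k + 1) := by
      refine Nat.le_of_mul_le_mul_right (c := n - k) ?_ (by omega)
      rw [← e, mul_comm 2, mul_assoc]
      exact Nat.mul_le_mul_left _ (by omega)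
    omega

end Pool.Agent.MP_c3fbfc_co.V.G.Bx
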