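import Pool.Agent.MP_c3fbfc_co.VTools

/-! Patterns with an arbitrary base: definitions and statements. -/

namespace Pool.Agent.MP_c3fbfc_co.V.G

open Finset Filter
open scoped symmDiff

variable {α : Type*} [Fintype α] [DecidableEq α]

section Pattern

variable {T ι : Type} [Fintype T] [DecidableEq T] [Fintype ι] [DecidableEq ι]

/-- a pattern: base sets `H i` and two defects -/
structure Pat (T ι : Type) [Fintype T] [DecidableEq T] [Fintype ι] [DecidableEq ι] where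
  /-- the rank -/
  ρ : ℕ
  /-- the base sets -/
  H : ι → Finset T
  /-- the first defect -/
  X1 : Finset T
  /-- the second defect -/
  X2 : Finset T
  cH : ∀ i, (H i).card = ρ
  c1 : X1.card = ρ
  c2 : X2.card = ρ
  fHH : ∀ i j, i ≠ j → 4 ≤ sd (H i) (H j)
  fH1 : ∀ i, 4 ≤ sd (H i) X1
  fH2 : ∀ i, 4 ≤ sd (H i) X2
  f12 : 4 ≤ sd X1 X2
  p1 : Peel H X1 univ ∅
  p2 : ∃ t ∈ X1 ∆ X2, Peel H X2 univ {t}
  p3 : sd X1 X2 = 4 → ∀ t ∈ X1 ∆ X2, Peel H X2 univ {t}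
  p4 : ∀ B : Finset T, B.card = ρ → (∀ i, B ≠ H i) → ∃ i, Peel H B (univ.erase i) ∅

open Classical in
/-- the sites whose base points lie in `U` -/
noncomputable def sites (r : ℕ) (P : Pat T ι) (U : Finset (Finset α)) :
    Finset (Finset α × (T → α)) :=
  univ.filter (fun σ => Site r P.ρ σ ∧ ∀ i, pt σ (P.H i) ∈ U)

/-- the family of a pattern -/
def Pat.fam (P : Pat T ι) (B : Finset T) : Prop := (∃ i, B = P.H i) ∨ B = P.X1 ∨ B = P.X2

/-- good pairs -/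
structure Good (r : ℕ) (P : Pat T ι) (C j : ℕ) (K : Finset (Finset α))
    (σ : Finset α × (T → α)) : Prop where
  g0 : ∀ B : Finset T, B.card = P.ρ → pt σ B ∈ K → pt σ B ∈ UU K
  n1 : pt σ P.X1 ∉ K
  n2 : pt σ P.X2 ∉ K
  ok1 : OK r K (pt σ P.X1)
  ok2 : OK r K (pt σ P.X2)
  b1 : bet r K (pt σ P.X1) ≤ C
  b2 : bet r K (pt σ P.X2) ≤ C
  o1 : om r K (pt σ P.X1) ≤ C
  o2 : om r K (pt σ P.X2) ≤ C
  ex : sd P.X1 P.X2 = 4 → ∀ t ∈ P.X1 ∆ P.X2,
    (∀ Z ∈ ln r (tg (pt σ P.X2) (σ.2 t)), Z ∈ K → Z ∈ UU K) ∧ bet5 r K (pt σ P.X2) (σ.2 t) ≤ C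
  dl : ∀ A ∈ UU K, sd (pt σ P.X1) A ≤ 6 * P.ρ + 4 → ¬ DL r K A j

end Pattern

/-- MARG: few sites through a given point. -/
def MargStmt : Prop :=
  ∀ (T ι : Type) [Fintype T] [DecidableEq T] [Fintype ι] [DecidableEq ι] (P : Pat T ι)
    (n r : ℕ) (U : Finset (Finset (Fin n))), U ∈ SS (Fin n) r →
    ∀ (B : Finset T) (I : Finset ι) (F : Finset T), B.card = P.ρ → Peel P.H B I F →
    ∀ (X : Finset (Fin n)) (f : T → Fin n),
      ((sites r P U).filter (fun σ => pt σ B = X ∧ ∀ t ∈ F, σ.2 t = f t)).card *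
        n ^ (I.card + F.card) ≤ n ^ Fintype.card T

open Classical in
/-- PLANT (from MARG): the number of good pairs without the pattern. -/
def PlantStmt : Prop :=
  ∀ (T ι : Type) [Fintype T] [DecidableEq T] [Fintype ι] [DecidableEq ι] (P : Pat T ι) (C : ℕ),
    ∃ D : ℕ, ∀ n r j : ℕ, 24 ≤ n → n ≤ 3 * r → 3 * r ≤ 2 * n →
      ((((MM (Fin n) r).filter (fun K => ¬ Occ r P.ρ P.fam K)).sigma
        (fun K => (sites r P (UU K)).filter (Good r P C j K))).card : ℝ) ≤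
      (MM (Fin n) r).card * (D * 4 ^ min r (n - r) * n ^ Fintype.card T / n ^ (Fintype.card ι + 1) +
        (n + 1) ^ D * 2 ^ min r (n - r) *
          (((range (min r (n - r) + D)).powerset.filter (fun S => S.card ≤ j + D)).card : ℝ))

/-- many sites in every dense stable family -/
def SiteOK {T ι : Type} [Fintype T] [DecidableEq T] [Fintype ι] [DecidableEq ι] (P : Pat T ι) :
    Prop :=
  ∀ c : ℝ, 0 < c → ∃ c' : ℝ, 0 < c' ∧ ∀ᶠ n : ℕ in atTop, ∀ r, n ≤ 3 * r → 3 * r ≤ 2 * n →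
    ∀ U ∈ SS (Fin n) r, c * n.choose r / n ≤ U.card →
      c' * n.choose r * n ^ Fintype.card T ≤ (sites r P U).card * n ^ Fintype.card ι

open Classical in
/-- FIN: almost all matroids of rank `r` contain the pattern. -/
def FinStmt : Prop :=
  ∀ (T ι : Type) [Fintype T] [DecidableEq T] [Fintype ι] [DecidableEq ι] (P : Pat T ι),
    SiteOK P → ∀ η : ℝ, 0 < η → ∀ᶠ n : ℕ in atTop, ∀ r, Win n r →
      (((MM (Fin n) r).filter (fun K => ¬ Occ r P.ρ P.fam K)).card : ℝ) ≤ η * (MM (Fin n) r).card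

end Pool.Agent.MP_c3fbfc_co.V.G
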