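import Mathlib.Data.Nat.Choose.Central
import Mathlib.Tactic.IntervalCases
import Mathlib.Data.Int.Star
import Mathlib.Algebra.Order.Ring.Star
import Pool.Agent.MP_c3fbfc_co.GDefs

/-! The planting argument for patterns with an arbitrary base (port of the modules MARG, PLANT
and FIN). -/

section MrgPart11

/-! MARG: few sites through a given point. -/

namespace Pool.Agent.MP_c3fbfc_co.V.G

open Finset
open scoped symmDiff

namespace Marg

variable {α : Type*} [DecidableEq α] {T : Type} [DecidableEq T]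

/-- the points of a site differ by the image of the symmetric difference -/
theorem pt_symmDiff {σ : Finset α × (T → α)} (h1 : Function.Injective σ.2)
    (h2 : ∀ t, σ.2 t ∉ σ.1) (A B : Finset T) : pt σ A ∆ pt σ B = (A ∆ B).image σ.2 := by
  rw [image_symmDiff _ _ h1]
  ext x
  simp only [pt, mem_symmDiff, mem_union, mem_image]
  constructor
  · rintro (⟨h | h, h'⟩ | ⟨h | h, h'⟩)
    · exact absurd (Or.inl h) h'
    · exact Or.inl ⟨h, fun k => h' (Or.inr k)⟩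
    · exact absurd (Or.inl h) h'
    · exact Or.inr ⟨h, fun k => h' (Or.inr k)⟩
  · rintro (⟨⟨t, ht, rfl⟩, h'⟩ | ⟨⟨t, ht, rfl⟩, h'⟩)
    · exact Or.inl ⟨Or.inr ⟨t, ht, rfl⟩, fun k => k.elim (h2 t) h'⟩
    · exact Or.inr ⟨Or.inr ⟨t, ht, rfl⟩, fun k => k.elim (h2 t) h'⟩

omit [DecidableEq T] in
theorem fst_eq {σ : Finset α × (T → α)} (h2 : ∀ t, σ.2 t ∉ σ.1) (B : Finset T) :
    σ.1 = pt σ B \ B.image σ.2 := by
  ext x
  simp only [pt, mem_sdiff, mem_union, mem_image]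
  constructor
  · exact fun h => ⟨Or.inl h, fun ⟨t, _, e⟩ => h2 t (e ▸ h)⟩
  · rintro ⟨h | h, h'⟩
    · exact h
    · exact absurd h h'

/-- two injective maps that agree on `M` outside `e` and differ at `e` -/
theorem image_symmDiff_image {φ ψ : T → α} (h1 : Function.Injective φ)
    (h2 : Function.Injective ψ) {M : Finset T} {e : T} (he : e ∈ M)
    (h : ∀ t ∈ M, t ≠ e → φ t = ψ t) (hne : φ e ≠ ψ e) :
    M.image φ ∆ M.image ψ = {φ e, ψ e} := by
  ext x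
  simp only [mem_symmDiff, mem_image, mem_insert, mem_singleton]
  constructor
  · rintro (⟨⟨t, ht, rfl⟩, h'⟩ | ⟨⟨t, ht, rfl⟩, h'⟩)
    · by_cases k : t = e
      · exact Or.inl (k ▸ rfl)
      · exact absurd ⟨t, ht, (h t ht k).symm⟩ h'
    · by_cases k : t = e
      · exact Or.inr (k ▸ rfl)
      · exact absurd ⟨t, ht, h t ht k⟩ h'
  · rintro (rfl | rfl)
    · refine Or.inl ⟨⟨e, he, rfl⟩, ?_⟩
      rintro ⟨t, ht, k⟩
      by_cases k' : t = e
      · exact hne (k' ▸ k.symm)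
      · exact k' (h1 ((h t ht k').trans k))
    · refine Or.inr ⟨⟨e, he, rfl⟩, ?_⟩
      rintro ⟨t, ht, k⟩
      by_cases k' : t = e
      · exact hne (k' ▸ k)
      · exact k' (h2 ((h t ht k').symm.trans k))

end Marg

open Marg in
theorem marg : MargStmt := by
  classical
  intro T ι _ _ _ _ P n r U hU B I F _ hP X f
  obtain ⟨e, ord, he⟩ := hP
  have hinj : Set.InjOn e I := by
    intro i hi j hj hij
    by_contra hne
    have a1 := (he i hi).2.2 j hj (Ne.symm hne) (hij ▸ (he j hj).1)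
    have a2 := (he j hj).2.2 i hi hne (hij ▸ (he i hi).1)
    omega
  set E : Finset T := I.image e ∪ F with hE
  have hEc : E.card = I.card + F.card := by
    rw [hE, card_union_of_disjoint, card_image_of_injOn hinj]
    refine disjoint_left.2 fun t ht hF => ?_
    obtain ⟨i, hi, rfl⟩ := mem_image.1 ht
    exact (he i hi).2.1 hF
  have hSt := (mem_SS.1 hU).2
  have key : ((sites r P U).filter (fun σ => pt σ B = X ∧ ∀ t ∈ F, σ.2 t = f t)).card ≤
      (univ : Finset ({t : T // t ∉ E} → Fin n)).card := by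
    refine card_le_card_of_injOn (fun σ t => σ.2 t.1) (fun _ _ => mem_coe.2 (mem_univ _)) ?_
    intro σ hσ τ hτ hστ
    obtain ⟨hσ1, hσ2, hσ3⟩ := mem_filter.1 (mem_coe.1 hσ)
    obtain ⟨hτ1, hτ2, hτ3⟩ := mem_filter.1 (mem_coe.1 hτ)
    obtain ⟨-, ⟨a1, a2, -⟩, a4⟩ := mem_filter.1 hσ1
    obtain ⟨-, ⟨b1, b2, -⟩, b4⟩ := mem_filter.1 hτ1
    have hout : ∀ t, t ∉ I.image e → σ.2 t = τ.2 t := by
      intro t ht
      by_cases hF : t ∈ F
      · rw [hσ3 t hF, hτ3 t hF]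
      · exact congrFun hστ ⟨t, fun k => (mem_union.1 k).elim ht hF⟩
    have hin : ∀ i ∈ I, σ.2 (e i) = τ.2 (e i) := by
      by_contra hcon
      push Not at hcon
      obtain ⟨i0, hi0, hne0⟩ := hcon
      obtain ⟨i, hi, hmax⟩ := exists_max_image (I.filter (fun i => σ.2 (e i) ≠ τ.2 (e i))) ord
        ⟨i0, mem_filter.2 ⟨hi0, hne0⟩⟩
      obtain ⟨hiI, hne⟩ := mem_filter.1 hi
      have hag : ∀ t ∈ P.H i ∆ B, t ≠ e i → σ.2 t = τ.2 t := by
        intro t ht hte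
        by_cases k : t ∈ I.image e
        · obtain ⟨j, hj, rfl⟩ := mem_image.1 k
          by_contra hj'
          have c1 := hmax j (mem_filter.2 ⟨hj, hj'⟩)
          have c2 := (he j hj).2.2 i hiI (fun k => hte (k ▸ rfl)) ht
          omega
        · exact hout t k
      have h3 := image_symmDiff_image a1 b1 (he i hiI).1 hag hne
      rw [← pt_symmDiff a1 a2, ← pt_symmDiff b1 b2, hσ2, hτ2, symmDiff_comm (pt τ _),
        symmDiff_assoc, symmDiff_symmDiff_cancel_left] at h3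
      refine hSt _ (a4 i) _ (b4 i) ?_
      rw [sd, h3, card_pair hne]
    have h2 : σ.2 = τ.2 := by
      funext t
      by_cases k : t ∈ I.image e
      · obtain ⟨j, hj, rfl⟩ := mem_image.1 k
        exact hin j hj
      · exact hout t k
    refine Prod.ext ?_ h2
    rw [fst_eq a2 B, fst_eq b2 B, hσ2, hτ2, h2]
  rw [card_univ, Fintype.card_fun, Fintype.card_fin, Fintype.card_subtype_compl,
    Fintype.card_coe] at key
  have hle : E.card ≤ Fintype.card T := card_le_univ E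
  calc _ ≤ n ^ (Fintype.card T - E.card) * n ^ (I.card + F.card) := Nat.mul_le_mul_right _ key
    _ = n ^ Fintype.card T := by rw [← pow_add, ← hEc, Nat.sub_add_cancel hle]

end Pool.Agent.MP_c3fbfc_co.V.G

end MrgPart11

section MrgPart0

/-! PLANT, part 1: planting one point. -/

namespace Pool.Agent.MP_c3fbfc_co.V.G.Pl

open Finset
open scoped symmDiff

variable {α : Type*} [Fintype α] [DecidableEq α]

/-- plant the point `X` -/
noncomputable def pl (r : ℕ) (K : Finset (Finset α)) (X : Finset α) : Finset (Finset α) :=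
  insert X (K \ RX r K X)

/-- the rank is in the middle range -/
structure Wn (n r : ℕ) : Prop where
  w1 : n ≤ 3 * r
  w2 : 3 * r ≤ 2 * n
  w3 : 24 ≤ n

/-- the point `X` can be planted -/
structure Ok1 (r : ℕ) (K : Finset (Finset α)) (X : Finset α) : Prop where
  w : Wn (Fintype.card α) r
  mm : K ∈ MM α r
  cX : X.card = r
  nX : X ∉ K
  ok : OK r K X

variable {r : ℕ} {K K' R : Finset (Finset α)} {X X' Y Z A : Finset α}

theorem mem_RX : Z ∈ RX r K X ↔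
    Z ∈ K ∧ (sd X Z = 2 ∨ ∃ Y, KL r K Y ∧ sd X Y = 3 ∧ Z ∈ ln r Y) := by
  simp [RX]

theorem mem_Gam : Z ∈ Gam r K X ↔ Z ∈ nb r X ∧ cn K Z ⊆ RX r K X := by
  simp [Gam]

theorem mem_St : Z ∈ St r K X ↔ Z ∈ nb r X ∧
    (Z ∈ UU K ∨ (Z ∈ Fr r K ∧ ∀ Z' ∈ nb r X, Z' ∈ Fr r K → sd Z Z' ≠ 2)) := by
  simp [St]

theorem mem_pl : Z ∈ pl r K X ↔ Z = X ∨ (Z ∈ K ∧ Z ∉ RX r K X) := by
  simp [pl]

theorem Wn.card_ln (w : Wn (Fintype.card α) r) (hY : Ctr r Y) : 9 ≤ (ln r Y).card := by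
  have := card_ln_ge w.w1 w.w2 hY
  have := w.w3
  omega

theorem not_UU (w : Wn (Fintype.card α) r) (hY : KL r K Y) (hA : A ∈ ln r Y) : A ∉ UU K := by
  intro h
  obtain ⟨B, hB, hne⟩ := exists_mem_ne (s := ln r Y) (by have := w.card_ln hY.1; omega) A
  exact (mem_UU.1 h).2 B (hY.2 hB) ((ln_clique hA hB).resolve_left hne.symm)

theorem KL_mono (h : K ⊆ K') (hY : KL r K Y) : KL r K' Y := ⟨hY.1, hY.2.trans h⟩

theorem RX_mono (h : K ⊆ K') : RX r K X ⊆ RX r K' X := fun Z hZ => by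
  obtain ⟨h1, h2⟩ := mem_RX.1 hZ
  exact mem_RX.2 ⟨h h1, h2.imp_right fun ⟨Y, y1, y2⟩ => ⟨Y, KL_mono h y1, y2⟩⟩

theorem RX_subset : RX r K X ⊆ K := fun _ hZ => (mem_RX.1 hZ).1

theorem sd_RX (hZ : Z ∈ RX r K X) : sd X Z ≤ 4 := by
  obtain ⟨-, h | ⟨Y, -, y2, y3⟩⟩ := mem_RX.1 hZ
  · omega
  · have := sd_triangle X Y Z
    have := (mem_ln.1 y3).2
    omega

theorem UU_notMem_RX (w : Wn (Fintype.card α) r) (hA : A ∈ UU K) (h : sd X A ≠ 2) :
    A ∉ RX r K X := fun hZ => by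
  obtain ⟨-, h1 | ⟨Y, y1, -, y3⟩⟩ := mem_RX.1 hZ
  exacts [h h1, not_UU w y1 y3 hA]

theorem mem_UU_insert (hX : X' ∈ Fr r K) : X' ∈ UU (insert X' K) :=
  mem_UU.2 ⟨mem_insert_self _ _, fun B hB => by
    rcases mem_insert.1 hB with rfl | hB
    · simp
    · exact ((mem_Fr.1 hX).2 B hB).ne'⟩

theorem UU_insert (hX : X' ∈ Fr r K) (hA : A ∈ UU K) : A ∈ UU (insert X' K) :=
  mem_UU.2 ⟨mem_insert_of_mem (UU_subset K hA), fun B hB => by
    rcases mem_insert.1 hB with rfl | hB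
    · rw [sd_comm]; exact ((mem_Fr.1 hX).2 A (UU_subset K hA)).ne'
    · exact (mem_UU.1 hA).2 B hB⟩

theorem UU_sdiff (hA : A ∈ UU K) (hR : A ∉ R) : A ∈ UU (K \ R) :=
  mem_UU.2 ⟨mem_sdiff.2 ⟨UU_subset K hA, hR⟩, fun B hB => (mem_UU.1 hA).2 B (mem_sdiff.1 hB).1⟩

theorem KL_insert (w : Wn (Fintype.card α) r) (hX : X' ∈ Fr r K) (hY : KL r (insert X' K) Y) :
    KL r K Y :=
  ⟨hY.1, fun _ hZ => (mem_insert.1 (hY.2 hZ)).resolve_left fun e =>
    not_UU w hY hZ (by rw [e]; exact mem_UU_insert hX)⟩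

theorem RX_insert (w : Wn (Fintype.card α) r) (hX : X' ∈ Fr r K) (h : sd X X' ≠ 2) :
    RX r (insert X' K) X ⊆ RX r K X := fun Z hZ => by
  have h0 : Z ≠ X' := fun e => UU_notMem_RX w (mem_UU_insert hX) h (e ▸ hZ)
  obtain ⟨h1, h2⟩ := mem_RX.1 hZ
  exact mem_RX.2 ⟨(mem_insert.1 h1).resolve_left h0,
    h2.imp_right fun ⟨Y, y1, y2⟩ => ⟨Y, KL_insert w hX y1, y2⟩⟩

theorem OK_sdiff (hR : Clo K R) (h : OK r K X) : OK r (K \ R) X := fun A hA e => by
  obtain ⟨a1, a2⟩ := mem_sdiff.1 hA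
  rcases h A a1 e with h1 | ⟨Y, y1, y2⟩
  · exact Or.inl (UU_sdiff h1 a2)
  · refine Or.inr ⟨Y, ⟨⟨y1.1.1, fun Z hZ => mem_sdiff.2 ⟨y1.1.2 hZ, fun hZR => ?_⟩⟩,
      fun Z hZ => y1.2 Z (mem_sdiff.1 hZ).1⟩, y2⟩
    exact a2 (hR.ln_subset y1.1 hZ hZR y2)

theorem OK_insert (hX : X' ∈ Fr r K) (hd : sd X X' ≠ 2) (h : OK r K X) :
    OK r (insert X' K) X := fun A hA e => by
  rcases mem_insert.1 hA with rfl | hA
  · exact absurd e hd
  rcases h A hA e with h1 | ⟨Y, y1, y2⟩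
  · exact Or.inl (UU_insert hX h1)
  · refine Or.inr ⟨Y, ⟨KL_mono (subset_insert _ _) y1.1, fun Z hZ h3 => ?_⟩, y2⟩
    rcases mem_insert.1 hZ with rfl | hZ
    · obtain ⟨c1, c2⟩ := mem_Fr.1 hX
      have := sd_odd y1.1.1 c1
      by_contra hc
      obtain ⟨B, b1, b2⟩ := exists_adj_on_ln c1 y1.1.1 (by omega)
      exact absurd (c2 B (y1.1.2 b1)) (by omega)
    · exact y1.2 Z hZ h3

theorem stb_St : Stb (St r K X) := fun Z hZ Z' hZ' => by
  obtain ⟨a1, a2 | a2⟩ := mem_St.1 hZ <;> obtain ⟨b1, b2 | b2⟩ := mem_St.1 hZ'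
  · exact stb_UU K Z a2 Z' b2
  · rw [sd_comm]; exact ((mem_Fr.1 b2.1).2 Z (UU_subset K a2)).ne'
  · exact ((mem_Fr.1 a2.1).2 Z' (UU_subset K b2)).ne'
  · exact a2.2 Z' b1 b2.1

theorem card_Gam (hX : X.card = r) :
    (Gam r K X).card ≤ min r (Fintype.card α - r) + bet r K X := by
  have h1 := (stb_St (r := r) (K := K) (X := X)).card_le_min hX fun Z hZ => (mem_St.1 hZ).1
  have h2 := le_card_sdiff (St r K X) (Gam r K X)
  rw [bet]; omega

/-- a triangle lies in a line -/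
theorem tri {Y' B : Finset α} (hX : X.card = r) (hA : A ∈ ln r Y) (hB : B ∈ ln r Y)
    (hA' : A ∈ ln r Y') (hB' : B ∈ ln r Y') (hne : A ≠ B) (h1 : sd X A = 2) (h2 : sd X B = 2)
    (hY : Y ≠ Y') : X ∈ ln r Y ∨ X ∈ ln r Y' := by
  obtain ⟨a, -, rfl⟩ := ln_pair hA hB hne
  obtain ⟨b, hb, rfl⟩ := ln_pair hA' hB' hne
  obtain ⟨c, rfl⟩ := sd_eq_one.1 (mem_ln.1 hB).2
  have hac : a ≠ c := fun e => hne (by rw [← e, tg_tg])
  rw [symmDiff_tg_tg hac, mem_insert, mem_singleton] at hb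
  obtain rfl : b = c := hb.resolve_left fun e => hY (by rw [e])
  have h3 := sd_tg_tg A X hac
  rw [sd_comm] at h1
  by_cases ha : a ∈ X ∆ A
  · exact Or.inl (mem_ln_tg hX h1 (by rwa [symmDiff_comm]))
  · refine Or.inr (mem_ln_tg hX h1 ?_)
    by_contra hb
    rw [symmDiff_comm] at hb
    rw [if_neg ha, if_neg hb, sd_comm X A] at h3
    omega

namespace Ok1

variable (h : Ok1 r K X)
include h

theorem sl (hY : KL r K Y) (h3 : sd X Y = 3) : SL r K Y := by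
  obtain ⟨A, a1, a2⟩ := exists_adj_on_ln h.cX hY.1 (by rwa [sd_comm])
  obtain ⟨Y', y1, y2⟩ := (h.ok A (hY.2 a1) a2).resolve_left (not_UU h.w hY a1)
  by_cases e : Y = Y'
  · exact e ▸ y1
  have h1 := card_ln_inter (r := r) e
  rw [inter_eq_left.2 ((y1.clo h.mm).ln_subset hY a1 y2)] at h1
  have := h.w.card_ln hY.1
  omega

theorem three (hY : KL r K Y) (h3 : sd Y X ≤ 3) : sd X Y = 3 := by
  have h1 := sd_odd hY.1 h.cX
  have h2 : sd Y X ≠ 1 := fun e => h.nX (hY.2 (mem_ln.2 ⟨h.cX, e⟩))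
  rw [sd_comm]; omega

theorem clo : Clo K (RX r K X) := ⟨RX_subset, fun A hA B hB e => by
  obtain ⟨a1, a2 | ⟨Y, y1, y2, y3⟩⟩ := mem_RX.1 hA
  · obtain ⟨Y, y1, y2⟩ := (h.ok A a1 a2).resolve_left fun hU => (mem_UU.1 hU).2 B hB e
    exact mem_RX.2 ⟨hB, Or.inr ⟨Y, y1.1, h.three y1.1 (sd_le_three y2 a2.le),
      (y1.clo h.mm).2 A y2 B hB e⟩⟩
  · exact mem_RX.2 ⟨hB, Or.inr ⟨Y, y1, y2, ((h.sl y1 y2).clo h.mm).2 A y3 B hB e⟩⟩⟩

theorem free : X ∈ Fr r (K \ RX r K X) := mem_Fr.2 ⟨h.cX, fun A hA => by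
  obtain ⟨a1, a2⟩ := mem_sdiff.1 hA
  by_contra hc
  rcases (sd_le_two (h.cX.trans (card_of_MM h.mm a1).symm)).1 (not_lt.1 hc) with e | e
  · exact h.nX (e ▸ a1)
  · exact a2 (mem_RX.2 ⟨a1, Or.inl e⟩)⟩

theorem pl_mem : pl r K X ∈ MM α r := by
  have := h.w.w1; have := h.w.w2; have := h.w.w3
  exact add_free (relax h.mm h.clo) (by omega) (by omega) h.free

theorem self_UU : X ∈ UU (pl r K X) := mem_UU_insert h.free

theorem keep (hA : A ∈ UU K) (hd : sd X A ≠ 2) : A ∈ UU (pl r K X) :=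
  UU_insert h.free (UU_sdiff hA (UU_notMem_RX h.w hA hd))

theorem back (hA : A ∈ UU (pl r K X)) (hne : A ≠ X) : A ∈ UU K := by
  obtain ⟨a1, a2⟩ := mem_UU.1 hA
  obtain ⟨a3, a4⟩ := (mem_pl.1 a1).resolve_left hne
  refine mem_UU.2 ⟨a3, fun B hB e => ?_⟩
  by_cases hR : B ∈ RX r K X
  · exact a4 (h.clo.2 B hR A a3 (by rwa [sd_comm]))
  · exact a2 B (mem_pl.2 (Or.inr ⟨hB, hR⟩)) e

/-- a second point -/
theorem next (hX : X'.card = r) (hd : 4 ≤ sd X X') (h1 : X' ∉ K) (h2 : OK r K X') :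
    Ok1 r (pl r K X) X' where
  w := h.w
  mm := h.pl_mem
  cX := hX
  nX := fun hc => by
    rcases mem_pl.1 hc with e | e
    · rw [e] at hd; simp at hd
    · exact h1 e.1
  ok := OK_insert h.free (by rw [sd_comm]; omega) (OK_sdiff h.clo h2)

theorem RX_pl (hd : 4 ≤ sd X X') : RX r (pl r K X) X' ⊆ RX r K X' :=
  (RX_insert h.w h.free (by rw [sd_comm]; omega)).trans (RX_mono sdiff_subset)

theorem rest_sub (e : pl r K X = pl r K' X) : K \ RX r K X ⊆ K' \ RX r K' X := fun Z hZ => by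
  have : Z ∈ pl r K' X := e ▸ mem_insert_of_mem hZ
  exact (mem_insert.1 this).resolve_left fun e => h.nX (e ▸ (mem_sdiff.1 hZ).1)

/-- the trace lies in a set that depends only on the image -/
theorem trace (h' : Ok1 r K' X) (e : pl r K X = pl r K' X) : K' ∩ nb r X ⊆ Gam r K X := by
  intro Z hZ
  obtain ⟨z1, z2⟩ := mem_inter.1 hZ
  have h1 := h'.clo.subset_Fr h'.mm (mem_RX.2 ⟨z1, Or.inl (mem_nb.1 z2).2⟩)
  refine mem_Gam.2 ⟨z2, fun A hA => ?_⟩
  by_contra hc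
  obtain ⟨a1, a2⟩ := mem_cn.1 hA
  exact absurd ((mem_Fr.1 h1).2 A (h.rest_sub e (mem_sdiff.2 ⟨a1, hc⟩))) (by omega)

theorem det_sub (h' : Ok1 r K' X) (e : pl r K X = pl r K' X) (e' : K ∩ nb r X = K' ∩ nb r X) :
    K ⊆ K' := fun Z hZ => by
  have hT : ∀ A ∈ K, sd X A = 2 → A ∈ K' := fun A a1 a2 => by
    have : A ∈ K' ∩ nb r X := e' ▸ mem_inter.2 ⟨a1, mem_nb.2 ⟨card_of_MM h.mm a1, a2⟩⟩
    exact (mem_inter.1 this).1
  by_cases hR : Z ∈ RX r K X
  swap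
  · exact (mem_sdiff.1 (h.rest_sub e (mem_sdiff.2 ⟨hZ, hR⟩))).1
  obtain ⟨-, h1 | ⟨Y, y1, y2, y3⟩⟩ := mem_RX.1 hR
  · exact hT Z hZ h1
  have hXY : X ∉ ln r Y := fun hc => h.nX (y1.2 hc)
  obtain ⟨A, a1, a2⟩ := exists_adj_on_ln h.cX y1.1 (by rwa [sd_comm])
  obtain ⟨B, b1, b2, b3⟩ := exists_second h.cX hXY a1 a2
  obtain ⟨Y', z1, z2, z3⟩ := share h'.mm (hT A (y1.2 a1) a2) (hT B (y1.2 b1) b3)
    ((ln_clique a1 b1).resolve_left b2.symm)
  by_cases eY : Y = Y'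
  · exact z1.2 (eY ▸ y3)
  · exact absurd (z1.2 ((tri h.cX a1 b1 z2 z3 b2.symm a2 b3 eY).resolve_left hXY)) h'.nX

theorem det (h' : Ok1 r K' X) (e : pl r K X = pl r K' X) (e' : K ∩ nb r X = K' ∩ nb r X) :
    K = K' := Subset.antisymm (h.det_sub h' e e') (h'.det_sub h e.symm e'.symm)

/-- most points of the trace are isolated -/
theorem card_trace : ((K ∩ nb r X) \ UU K).card ≤ bet r K X := by
  refine card_le_card fun Z hZ => ?_
  obtain ⟨z1, z2⟩ := mem_sdiff.1 hZ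
  refine mem_sdiff.2 ⟨h.trace h rfl z1, fun hc => ?_⟩
  exact notMem_of_mem_Fr ((mem_St.1 hc).2.resolve_left z2).1 (mem_inter.1 z1).1

end Ok1

/-- few points of a stable set of neighbours of `A` are near a far centre -/
theorem card_near {S : Finset (Finset α)} {W : Finset α} {e : ℕ} (hA : A.card = r) (hS : Stb S)
    (he : e ≤ sd W A) (h : ∀ Z ∈ S, Z ∈ nb r A ∧ sd W Z ≤ e) : S.card ≤ e + 2 := by
  rcases S.eq_empty_or_nonempty with rfl | ⟨Z, hZ⟩
  · simp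
  have h1 := hS.card_not_farther (Y := W) hA fun Z hZ => ⟨(h Z hZ).1, (h Z hZ).2.trans he⟩
  have h2 := sd_triangle W Z A
  have h3 := (mem_nb.1 (h Z hZ).1).2
  have h4 := (h Z hZ).2
  rw [sd_comm] at h3
  omega

omit [Fintype α] in
/-- two non-adjacent common neighbours of `X1` and `Z`: one of them is adjacent to `X2` -/
theorem antipodal {X1 X2 A' : Finset α} (h1 : sd X1 X2 = 4) (h2 : sd X1 Z = 4) (h3 : sd X2 Z = 2)
    (a1 : sd X1 A = 2) (a2 : sd Z A ≤ 2) (b1 : sd X1 A' = 2) (b2 : sd Z A' ≤ 2)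
    (hAA : 4 ≤ sd A A') : sd X2 A = 2 ∨ sd X2 A' = 2 := by
  have key : ∀ U W : Finset α, sd U W = sd (X1 ∆ U) (X1 ∆ W) := fun U W => by
    rw [sd, sd, symmDiff_symmDiff_symmDiff_comm, symmDiff_self, bot_symmDiff]
  rw [key] at h3 a2 b2 hAA
  rw [key X2 A, key X2 A']
  simp only [sd] at h1 h2 a1 b1
  generalize X1 ∆ X2 = x at *
  generalize X1 ∆ Z = z at *
  generalize X1 ∆ A = a at *
  generalize X1 ∆ A' = b at *
  have sub : ∀ u : Finset α, u.card = 2 → sd z u ≤ 2 → u ⊆ z := fun u c1 c2 => by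
    have := card_add_sdiff z u
    rw [sd_eq] at c2
    exact sdiff_eq_empty_iff_subset.1 (card_eq_zero.1 (by omega))
  have sub' : ∀ u : Finset α, u.card = 2 → sd x u ≠ 2 → 1 ≤ (u \ x).card := fun u c1 c2 => by
    have := card_add_sdiff x u
    rw [sd_eq] at c2
    omega
  by_contra hc
  push Not at hc
  have d1 : Disjoint a b := by
    have := card_sdiff_add_card_inter a b
    have := card_sdiff_add_card_inter b a
    rw [sd_eq] at hAA
    exact disjoint_iff_inter_eq_empty.2 (card_eq_zero.1 (by omega))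
  have d2 : a \ x ∪ b \ x ⊆ z \ x := union_subset (sdiff_subset_sdiff (sub a a1 a2) Subset.rfl)
    (sdiff_subset_sdiff (sub b b1 b2) Subset.rfl)
  have d3 := card_le_card d2
  rw [card_union_of_disjoint (d1.mono sdiff_subset sdiff_subset)] at d3
  have := sub' a a1 hc.1
  have := sub' b b1 hc.2
  have := card_add_sdiff x z
  rw [sd_eq] at h3
  omega

end Pool.Agent.MP_c3fbfc_co.V.G.Pl

end MrgPart0

section MrgPart1

/-! PLANT, part 2: planting two points at a good site. -/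

namespace Pool.Agent.MP_c3fbfc_co.V.G.Pl

open Finset
open scoped symmDiff

variable {α : Type*} [Fintype α] [DecidableEq α]
variable {T ι : Type} [Fintype T] [DecidableEq T] [Fintype ι] [DecidableEq ι]

open Classical in
/-- the points of the site outside the pattern -/
noncomputable def NP (P : Pat T ι) (σ : Finset α × (T → α)) : Finset (Finset α) :=
  (univ.filter (fun B : Finset T => B.card = P.ρ ∧ ¬ P.fam B)).image (pt σ)

/-- the matroid after the first planting -/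
noncomputable def K1 (r : ℕ) (P : Pat T ι) (K : Finset (Finset α)) (σ : Finset α × (T → α)) :
    Finset (Finset α) := pl r (K \ NP P σ) (pt σ P.X1)

/-- the matroid after the second planting -/
noncomputable def K2 (r : ℕ) (P : Pat T ι) (K : Finset (Finset α)) (σ : Finset α × (T → α)) :
    Finset (Finset α) := pl r (K1 r P K σ) (pt σ P.X2)

/-- good pairs -/
structure GP (r : ℕ) (P : Pat T ι) (C j : ℕ) (K : Finset (Finset α))
    (σ : Finset α × (T → α)) : Prop where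
  w : Wn (Fintype.card α) r
  mm : K ∈ MM α r
  site : Site r P.ρ σ
  hH : ∀ i, pt σ (P.H i) ∈ UU K
  good : Good r P C j K σ

variable {r ρ C j : ℕ} {P : Pat T ι} {K : Finset (Finset α)} {σ : Finset α × (T → α)}
  {Z A X : Finset α}

omit [Fintype α] [Fintype T] in
theorem pt_symmDiff (h : Site r ρ σ) (B B' : Finset T) :
    pt σ B ∆ pt σ B' = (B ∆ B').image σ.2 := by
  rw [image_symmDiff _ _ h.1]
  ext z
  simp only [pt, mem_symmDiff, mem_union]
  have : ∀ D : Finset T, z ∈ D.image σ.2 → z ∉ σ.1 := fun D hz => by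
    obtain ⟨t, -, rfl⟩ := mem_image.1 hz
    exact h.2.1 t
  have h1 := this B
  have h2 := this B'
  tauto

omit [Fintype α] [Fintype T] in
theorem sd_pt (h : Site r ρ σ) (B B' : Finset T) : sd (pt σ B) (pt σ B') = sd B B' := by
  rw [sd, pt_symmDiff h, card_image_of_injective _ h.1, sd]

omit [Fintype α] [Fintype T] [DecidableEq T] in
theorem card_pt (h : Site r ρ σ) {B : Finset T} (hB : B.card = ρ) : (pt σ B).card = r := by
  rw [pt, card_union_of_disjoint, card_image_of_injective _ h.1, hB, h.2.2]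
  refine disjoint_right.2 fun z hz => ?_
  obtain ⟨t, -, rfl⟩ := mem_image.1 hz
  exact h.2.1 t

omit [Fintype α] [Fintype T] in
theorem sd_pt_le (h : Site r ρ σ) {B B' : Finset T} (hB : B.card = ρ) (hB' : B'.card = ρ) :
    sd (pt σ B) (pt σ B') ≤ 2 * ρ := by
  have := card_le_card (sdiff_subset (s := B) (t := B'))
  rw [sd_pt h, sd_of_card_eq (hB.trans hB'.symm)]
  omega

omit [Fintype α] in
theorem mem_NP : Z ∈ NP P σ ↔ ∃ B : Finset T, (B.card = P.ρ ∧ ¬ P.fam B) ∧ pt σ B = Z := by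
  simp [NP]

omit [Fintype α] in
theorem card_NP : (NP P σ).card ≤ 2 ^ Fintype.card T :=
  card_image_le.trans ((card_le_univ _).trans (Fintype.card_finset (α := T)).le)

theorem card_om {S : Finset (Finset α)} {k : ℕ} (f : Finset α → Finset (Finset α))
    (h : S ⊆ ((SLs r K).filter (fun Y => sd X Y = 3)).biUnion f) (hC : om r K X ≤ C)
    (hf : ∀ Y, SL r K Y → sd X Y = 3 → (f Y).card ≤ k) : S.card ≤ C * k :=
  (card_le_card h).trans ((card_biUnion_le_card_mul _ _ k fun Y hY =>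
    hf Y (mem_SLs.1 (mem_filter.1 hY).1) (mem_filter.1 hY).2).trans (Nat.mul_le_mul_right _ hC))

/-- neighbours of `X` near a far point of the site -/
theorem card_far (hX : X.card = r) (hσ : Site r P.ρ σ) :
    ((nb r X).filter (fun Z => ∃ A ∈ NP P σ, 4 ≤ sd X A ∧ sd Z A ≤ 2)).card ≤
      4 * 2 ^ Fintype.card T := by
  have : (nb r X).filter (fun Z => ∃ A ∈ NP P σ, 4 ≤ sd X A ∧ sd Z A ≤ 2) ⊆ (NP P σ).biUnion
      (fun A => (nb r X).filter (fun Z => 4 ≤ sd X A ∧ sd Z A ≤ 2)) := fun Z hZ => by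
    obtain ⟨z1, A, a1, a2⟩ := mem_filter.1 hZ
    exact mem_biUnion.2 ⟨A, a1, mem_filter.2 ⟨z1, a2⟩⟩
  refine (card_le_card this).trans ((card_biUnion_le_card_mul _ _ 4 fun A hA => ?_).trans ?_)
  · obtain ⟨B, hB, rfl⟩ := mem_NP.1 hA
    by_cases h4 : 4 ≤ sd X (pt σ B)
    · exact card_common_far hX (card_pt hσ hB.1) h4 _ fun Z hZ =>
        ⟨(mem_filter.1 hZ).1, by rw [sd_comm]; exact (mem_filter.1 hZ).2.2⟩
    · simp [h4]
  · rw [mul_comm]; exact Nat.mul_le_mul_left _ card_NP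

namespace GP

variable (h : GP r P C j K σ)
include h

theorem c1 : (pt σ P.X1).card = r := card_pt h.site P.c1

theorem c2 : (pt σ P.X2).card = r := card_pt h.site P.c2

theorem d12 : 4 ≤ sd (pt σ P.X1) (pt σ P.X2) := by rw [sd_pt h.site]; exact P.f12

theorem a1 : Ok1 r K (pt σ P.X1) := ⟨h.w, h.mm, h.c1, h.good.n1, h.good.ok1⟩

theorem a2 : Ok1 r K (pt σ P.X2) := ⟨h.w, h.mm, h.c2, h.good.n2, h.good.ok2⟩

theorem np_UU (hA : A ∈ NP P σ) (hK : A ∈ K) : A ∈ UU K := by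
  obtain ⟨B, hB, rfl⟩ := mem_NP.1 hA
  exact h.good.g0 B hB.1 hK

theorem clo0 : Clo K (K ∩ NP P σ) :=
  clo_of_UU fun _ hA => h.np_UU (mem_inter.1 hA).2 (mem_inter.1 hA).1

theorem ok0 (hX : OK r K X) : OK r (K \ NP P σ) X := by
  rw [← sdiff_inter_self_left]; exact OK_sdiff h.clo0 hX

theorem b1 : Ok1 r (K \ NP P σ) (pt σ P.X1) :=
  ⟨h.w, by rw [← sdiff_inter_self_left]; exact relax h.mm h.clo0, h.c1,
    fun hc => h.good.n1 (mem_sdiff.1 hc).1, h.ok0 h.good.ok1⟩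

theorem b2 : Ok1 r (K1 r P K σ) (pt σ P.X2) :=
  h.b1.next h.c2 h.d12 (fun hc => h.good.n2 (mem_sdiff.1 hc).1) (h.ok0 h.good.ok2)

theorem mm2 : K2 r P K σ ∈ MM α r := h.b2.pl_mem

theorem u2 : pt σ P.X2 ∈ UU (K2 r P K σ) := h.b2.self_UU

theorem u1 : pt σ P.X1 ∈ UU (K2 r P K σ) :=
  h.b2.keep h.b1.self_UU (by have := h.d12; rw [sd_comm]; omega)

theorem uH (i : ι) : pt σ (P.H i) ∈ UU (K2 r P K σ) := by
  refine h.b2.keep (h.b1.keep (UU_sdiff (h.hH i) fun hc => ?_) ?_) ?_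
  · obtain ⟨B, hB, e⟩ := mem_NP.1 hc
    have := sd_pt h.site B (P.H i)
    rw [e, sd_self] at this
    exact hB.2 (Or.inl ⟨i, sd_eq_zero.1 this.symm⟩)
  · have := P.fH1 i
    rw [sd_pt h.site, sd_comm]; omega
  · have := P.fH2 i
    rw [sd_pt h.site, sd_comm]; omega

theorem RX2 : RX r (K1 r P K σ) (pt σ P.X2) ⊆ RX r K (pt σ P.X2) :=
  (h.b1.RX_pl h.d12).trans (RX_mono sdiff_subset)

omit h in
theorem mem1 (hZ : Z ∈ K1 r P K σ) : Z = pt σ P.X1 ∨ (Z ∈ K ∧ Z ∉ NP P σ) :=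
  (mem_pl.1 hZ).imp_right fun h => mem_sdiff.1 h.1

omit h in
theorem mem2 (hZ : Z ∈ K2 r P K σ) : Z = pt σ P.X2 ∨ Z = pt σ P.X1 ∨ (Z ∈ K ∧ Z ∉ NP P σ) :=
  (mem_pl.1 hZ).imp_right fun h => mem1 h.1

omit h in
theorem lost1 (hZ : Z ∈ K) (h1 : Z ∉ K1 r P K σ) : Z ∈ NP P σ ∨ Z ∈ RX r K (pt σ P.X1) := by
  by_contra hc
  push Not at hc
  exact h1 (mem_pl.2 (Or.inr ⟨mem_sdiff.2 ⟨hZ, hc.1⟩, fun e => hc.2 (RX_mono sdiff_subset e)⟩))

theorem lost2 (hZ : Z ∈ K) (h1 : Z ∉ K2 r P K σ) :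
    Z ∈ NP P σ ∨ Z ∈ RX r K (pt σ P.X1) ∨ Z ∈ RX r K (pt σ P.X2) := by
  by_cases h2 : Z ∈ K1 r P K σ
  · by_contra hc
    push Not at hc
    exact h1 (mem_pl.2 (Or.inr ⟨h2, fun e => hc.2.2 (h.RX2 e)⟩))
  · exact (lost1 hZ h2).imp_right Or.inl

theorem occ (B : Finset T) (hB : B.card = P.ρ) : pt σ B ∈ K2 r P K σ ↔ P.fam B := by
  have inj : ∀ B' : Finset T, pt σ B = pt σ B' → B = B' := fun B' e => by
    have := sd_pt h.site B B'
    rw [e, sd_self] at this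
    exact sd_eq_zero.1 this.symm
  constructor
  · intro hZ
    rcases mem2 hZ with e | e | e
    · exact Or.inr (Or.inr (inj _ e))
    · exact Or.inr (Or.inl (inj _ e))
    · by_contra hc
      exact e.2 (mem_NP.2 ⟨B, ⟨hB, hc⟩, rfl⟩)
  · rintro (⟨i, rfl⟩ | rfl | rfl)
    exacts [UU_subset _ (h.uH i), UU_subset _ h.u1, UU_subset _ h.u2]

/-- the change is local -/
theorem near (hZ : ¬ (Z ∈ K ↔ Z ∈ K2 r P K σ)) : sd (pt σ P.X1) Z ≤ 2 * P.ρ + 4 := by
  have d := sd_pt_le h.site P.c1 P.c2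
  by_cases hK : Z ∈ K
  · rcases h.lost2 hK (by tauto) with e | e | e
    · obtain ⟨B, hB, rfl⟩ := mem_NP.1 e
      have := sd_pt_le h.site P.c1 hB.1
      omega
    · have := sd_RX e
      omega
    · have := sd_RX e
      have := sd_triangle (pt σ P.X1) (pt σ P.X2) Z
      omega
  · rcases mem2 (show Z ∈ K2 r P K σ by tauto) with rfl | rfl | e
    · omega
    · simp
    · exact absurd e.1 hK

theorem back (hA : A ∈ UU (K2 r P K σ)) (h1 : A ≠ pt σ P.X1) (h2 : A ≠ pt σ P.X2) :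
    A ∈ UU K ∧ A ∉ NP P σ := by
  obtain ⟨a1, a2⟩ := mem_UU.1 (h.b1.back (h.b2.back hA h2) h1)
  obtain ⟨a3, a4⟩ := mem_sdiff.1 a1
  refine ⟨mem_UU.2 ⟨a3, fun B hB e => ?_⟩, a4⟩
  by_cases hN : B ∈ NP P σ
  · exact (mem_UU.1 (h.np_UU hN hB)).2 A a3 (by rwa [sd_comm])
  · exact a2 B (mem_sdiff.2 ⟨hB, hN⟩) e

theorem gam1 : (Gam r (K \ NP P σ) (pt σ P.X1)).card ≤
    min r (Fintype.card α - r) + C + 4 * 2 ^ Fintype.card T := by
  have h1 : Gam r (K \ NP P σ) (pt σ P.X1) ⊆ Gam r K (pt σ P.X1) ∪ (nb r (pt σ P.X1)).filter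
      (fun Z => ∃ A ∈ NP P σ, 4 ≤ sd (pt σ P.X1) A ∧ sd Z A ≤ 2) := fun Z hZ => by
    obtain ⟨z1, z2⟩ := mem_Gam.1 hZ
    refine mem_union.2 (or_iff_not_imp_right.2 fun hc => mem_Gam.2 ⟨z1, fun A hA => ?_⟩)
    obtain ⟨a1, a2⟩ := mem_cn.1 hA
    by_cases hN : A ∈ NP P σ
    · rcases sd_cases (h.c1.trans (card_of_MM h.mm a1).symm) with e | e | e
      · exact absurd (e ▸ a1) h.good.n1
      · exact mem_RX.2 ⟨a1, Or.inl e⟩
      · exact absurd (mem_filter.2 ⟨z1, A, hN, e, a2⟩) hc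
    · exact RX_mono sdiff_subset (z2 (mem_cn.2 ⟨mem_sdiff.2 ⟨a1, hN⟩, a2⟩))
  have h2 := (card_le_card h1).trans (card_union_le _ _)
  have h3 := card_far h.c1 h.site
  have h4 := card_Gam (K := K) h.c1
  have := h.good.b1
  omega

/-- a defect with a large trace is defect-like in the image -/
theorem dl_of {X' : Finset α} (hX : Ok1 r K X) (hC : bet r K X ≤ C) (hX' : X'.card = r)
    (hd : 4 ≤ sd X X') (hm : ∀ Z ∈ K2 r P K σ, Z = X ∨ Z = X' ∨ Z ∈ K) (hU : X ∈ UU (K2 r P K σ))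
    {S : Finset (Finset α)} (hS : S ⊆ K ∩ nb r X) {k : ℕ} (hk : k + C + 4 ≤ S.card) :
    DL r (K2 r P K σ) X k := by
  let S' := (S ∩ UU K).filter (fun Z => ¬ sd X' Z ≤ 2)
  have h1 : S ⊆ S' ∪ ((K ∩ nb r X) \ UU K ∪ (nb r X).filter (fun Z => sd X' Z ≤ 2)) :=
    fun Z hZ => by
      have := hS hZ
      simp only [S', mem_union, mem_filter, mem_sdiff, mem_inter] at this ⊢
      tauto
  have h2 := (card_le_card h1).trans ((card_union_le _ _).trans
    (Nat.add_le_add_left (card_union_le _ _) _))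
  have h3 := hX.card_trace
  have h4 := card_common_far hX.cX hX' hd ((nb r X).filter (fun Z => sd X' Z ≤ 2))
    fun Z hZ => mem_filter.1 hZ
  refine ⟨S', fun Z hZ => (mem_inter.1 (hS (mem_inter.1 (mem_filter.1 hZ).1).1)).2,
    (stb_UU K).mono fun Z hZ => (mem_inter.1 (mem_filter.1 hZ).1).2, by omega, fun Z hZ B hB => ?_⟩
  obtain ⟨z1, z2⟩ := mem_filter.1 hZ
  obtain ⟨z3, z4⟩ := mem_inter.1 z1
  obtain ⟨b1, b2⟩ := mem_cn.1 hB
  rcases hm B b1 with e | e | e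
  · exact mem_singleton.2 e
  · exact absurd (by rwa [← e, sd_comm]) z2
  · obtain ⟨z5, z6⟩ := mem_nb.1 (mem_inter.1 (hS z3)).2
    rcases (sd_le_two (z5.trans (card_of_MM h.mm e).symm)).1 b2 with e' | e'
    · exact absurd z6 ((mem_UU.1 hU).2 Z (e' ▸ b1))
    · exact absurd e' ((mem_UU.1 z4).2 B e)

theorem dl1 {k : ℕ} (hk : k + C + 4 ≤ ((K \ NP P σ) ∩ nb r (pt σ P.X1)).card) :
    DL r (K2 r P K σ) (pt σ P.X1) k :=
  h.dl_of h.a1 h.good.b1 h.c2 h.d12 (fun Z hZ => by have := mem2 hZ; tauto) h.u1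
    (inter_subset_inter sdiff_subset Subset.rfl) hk

theorem dl2 {k : ℕ} (hk : k + C + 4 ≤ (K1 r P K σ ∩ nb r (pt σ P.X2)).card) :
    DL r (K2 r P K σ) (pt σ P.X2) k := by
  refine h.dl_of h.a2 h.good.b2 h.c1 (by rw [sd_comm]; exact h.d12)
    (fun Z hZ => by have := mem2 hZ; tauto) h.u2 (fun Z hZ => ?_) hk
  obtain ⟨z1, z2⟩ := mem_inter.1 hZ
  refine mem_inter.2 ⟨((mem1 z1).resolve_left fun e => ?_).1, z2⟩
  have := h.d12
  rw [← e, sd_comm, (mem_nb.1 z2).2] at this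
  omega

omit h in
/-- private neighbours of a far isolated point that are affected by one planting -/
theorem card_hit (hX : Ok1 r K X) (hC : om r K X ≤ C) (hA : A ∈ UU K) (hd : 4 ≤ sd X A)
    {S : Finset (Finset α)} (hS : Stb S) (h1 : ∀ Z ∈ S, Z ∈ nb r A ∧ ∃ B ∈ RX r K X, sd Z B ≤ 2) :
    S.card ≤ 6 + C * 5 := by
  have cA := card_of_MM hX.mm (UU_subset K hA)
  have h2 := card_near (S := S.filter (fun Z => sd X Z ≤ 4)) cA (hS.mono (filter_subset _ _)) hd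
    fun Z hZ => ⟨(h1 Z (mem_filter.1 hZ).1).1, (mem_filter.1 hZ).2⟩
  have h3 := card_om (S := S.filter (fun Z => ¬ sd X Z ≤ 4)) (k := 5)
    (fun Y => S.filter (fun Z => sd Y Z ≤ 3)) (fun Z hZ => ?_) hC fun Y y1 _ => ?_
  · have := card_filter_add_card_filter_not (s := S) (fun Z => sd X Z ≤ 4)
    omega
  · obtain ⟨z1, z2⟩ := mem_filter.1 hZ
    obtain ⟨-, B, b1, b2⟩ := h1 Z z1
    obtain ⟨-, e | ⟨Y, y1, y2, y3⟩⟩ := mem_RX.1 b1
    · have := sd_triangle X B Z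
      rw [sd_comm B] at this
      omega
    · exact mem_biUnion.2 ⟨Y, mem_filter.2 ⟨mem_SLs.2 (hX.sl y1 y2), y2⟩,
        mem_filter.2 ⟨z1, sd_le_three y3 b2⟩⟩
  · refine card_near cA (hS.mono (filter_subset _ _)) (e := 3) (W := Y) ?_
      fun Z hZ => ⟨(h1 Z (mem_filter.1 hZ).1).1, (mem_filter.1 hZ).2⟩
    by_contra hc
    exact not_UU hX.w y1.1 (mem_ln.2 ⟨cA, y1.2 A (UU_subset K hA) (by omega)⟩) hA

/-- other isolated points of the image near the site are not defect-like -/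
theorem not_dl (hA : A ∈ UU (K2 r P K σ)) (hd : sd (pt σ P.X1) A ≤ 6 * P.ρ + 4)
    (hD : DL r (K2 r P K σ) A (j + (4 * 2 ^ Fintype.card T + 2 * (6 + C * 5)))) :
    A = pt σ P.X1 ∨ A = pt σ P.X2 := by
  classical
  by_contra hc
  push Not at hc
  obtain ⟨a1, a2⟩ := h.back hA hc.1 hc.2
  have cA := card_of_MM h.mm (UU_subset K a1)
  obtain ⟨S, s1, s2, s3, s4⟩ := hD
  have far : ∀ X ∈ UU (K2 r P K σ), A ≠ X → 4 ≤ sd X A := fun X hX hne => by
    rcases sd_cases ((card_of_MM h.mm2 (UU_subset _ hX)).trans cA.symm) with e | e | e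
    exacts [absurd e.symm hne, absurd e (stb_UU _ X hX A hA), e]
  let F : Finset α → Finset (Finset α) := fun X => S.filter (fun Z => ∃ B ∈ RX r K X, sd Z B ≤ 2)
  have h1 := card_hit h.a1 h.good.o1 a1 (far _ h.u1 hc.1) (S := F (pt σ P.X1))
    (s2.mono (filter_subset _ _)) fun Z hZ => ⟨s1 (mem_filter.1 hZ).1, (mem_filter.1 hZ).2⟩
  have h2 := card_hit h.a2 h.good.o2 a1 (far _ h.u2 hc.2) (S := F (pt σ P.X2))
    (s2.mono (filter_subset _ _)) fun Z hZ => ⟨s1 (mem_filter.1 hZ).1, (mem_filter.1 hZ).2⟩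
  have h3 := card_far cA h.site
  have h4 : S ⊆ S.filter (fun Z => cn K Z ⊆ {A}) ∪ ((nb r A).filter
      (fun Z => ∃ B ∈ NP P σ, 4 ≤ sd A B ∧ sd Z B ≤ 2) ∪ (F (pt σ P.X1) ∪ F (pt σ P.X2))) := by
    intro Z hZ
    refine mem_union.2 (or_iff_not_imp_right.2 fun hc => mem_filter.2 ⟨hZ, fun B hB => ?_⟩)
    obtain ⟨b1, b2⟩ := mem_cn.1 hB
    by_cases hB2 : B ∈ K2 r P K σ
    · exact s4 Z hZ (mem_cn.2 ⟨hB2, b2⟩)
    refine absurd ?_ hc
    simp only [F, mem_union, mem_filter]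
    rcases h.lost2 b1 hB2 with e | e | e
    · refine Or.inl ⟨s1 hZ, B, e, ?_, b2⟩
      rcases sd_cases (cA.trans (card_of_MM h.mm b1).symm) with e' | e' | e'
      exacts [absurd (e' ▸ e) a2, absurd e' ((mem_UU.1 a1).2 B b1), e']
    · exact Or.inr (Or.inl ⟨hZ, B, e, b2⟩)
    · exact Or.inr (Or.inr ⟨hZ, B, e, b2⟩)
  have h5 := (card_le_card h4).trans ((card_union_le _ _).trans (Nat.add_le_add_left
    ((card_union_le _ _).trans (Nat.add_le_add_left (card_union_le _ _) _)) _))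
  exact h.good.dl A a1 hd ⟨S.filter (fun Z => cn K Z ⊆ {A}), (filter_subset _ _).trans s1,
    s2.mono (filter_subset _ _), by omega, fun Z hZ => (mem_filter.1 hZ).2⟩

end GP

end Pool.Agent.MP_c3fbfc_co.V.G.Pl

end MrgPart1

section MrgPart2

/-! PLANT, part 3: the freedom of the second trace. -/

namespace Pool.Agent.MP_c3fbfc_co.V.G.Pl

open Finset
open scoped symmDiff

variable {α : Type*} [Fintype α] [DecidableEq α]
variable {T ι : Type} [Fintype T] [DecidableEq T] [Fintype ι] [DecidableEq ι]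
variable {r C j : ℕ} {P : Pat T ι} {K : Finset (Finset α)} {σ : Finset α × (T → α)}
  {Z A X Y : Finset α}

theorem Ok1.RX_cases (h : Ok1 r K X) (hA : A ∈ RX r K X) :
    (A ∈ UU K ∧ sd X A = 2) ∨ ∃ Y, SL r K Y ∧ sd X Y = 3 ∧ A ∈ ln r Y := by
  obtain ⟨a1, a2 | ⟨Y, y1, y2, y3⟩⟩ := mem_RX.1 hA
  · rcases h.ok A a1 a2 with e | ⟨Y, y1, y2⟩
    · exact Or.inl ⟨e, a2⟩
    · exact Or.inr ⟨Y, y1, h.three y1.1 (sd_le_three y2 a2.le), y2⟩
  · exact Or.inr ⟨Y, h.sl y1 y2, y2, y3⟩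

/-- lines whose centres are at distance two meet -/
theorem meet {Y' : Finset α} (hY : Ctr r Y) (hY' : Ctr r Y') (h : sd Y' Y = 2) :
    ∃ Z ∈ ln r Y, Z ∈ ln r Y' := by
  have h1 := card_add_sdiff Y Y'
  have h2 := sd_eq Y' Y
  have key : ∀ c ∈ Y' ∆ Y, (tg Y c).card = r → ∃ Z ∈ ln r Y, Z ∈ ln r Y' := fun c hc e =>
    ⟨tg Y c, mem_ln.2 ⟨e, sd_tg_self _ _⟩, mem_ln.2 ⟨e, by have := sd_tg_of_mem hc; omega⟩⟩
  rcases hY with e | e
  · obtain ⟨c, hc⟩ : (Y' \ Y).Nonempty := card_pos.1 (by rcases hY' with e' | e' <;> omega)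
    refine key c (mem_symmDiff.2 (Or.inl (mem_sdiff.1 hc))) ?_
    rw [card_tg_of_notMem (mem_sdiff.1 hc).2, e]
  · obtain ⟨c, hc⟩ : (Y \ Y').Nonempty := card_pos.1 (by rcases hY' with e' | e' <;> omega)
    refine key c (mem_symmDiff.2 (Or.inr (mem_sdiff.1 hc))) ?_
    have := card_tg_of_mem (mem_sdiff.1 hc).1
    omega

/-- points of an exposed line near a cross line -/
theorem card_cross (h : Ok1 r K X) {a : α} (hex : ∀ Z ∈ ln r (tg X a), Z ∈ K → Z ∈ UU K)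
    (hY : SL r K Y) (h3 : sd X Y = 3) :
    ((ln r (tg X a)).filter (fun Z => Z ≠ X ∧ sd Y Z ≤ 3)).card ≤ 3 := by
  have ha : a ∉ Y ∆ X := fun ha => by
    have h1 := sd_tg_of_mem ha
    obtain ⟨Z, z1, z2⟩ := meet (ctr_tg h.cX a) hY.1.1 (by rw [sd_comm] at h3; omega)
    exact not_UU h.w hY.1 z2 (hex Z z1 (hY.1.2 z2))
  have h1 : (ln r (tg X a)).filter (fun Z => Z ≠ X ∧ sd Y Z ≤ 3) ⊆
      (Y ∆ X).image (tg (tg X a)) := fun Z hZ => by
    obtain ⟨z1, z2, z3⟩ := mem_filter.1 hZ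
    obtain ⟨b, rfl⟩ := sd_eq_one.1 (mem_ln.1 z1).2
    refine mem_image_of_mem _ ?_
    by_contra hb
    have := sd_tg_tg X Y (a := a) (b := b) fun e => z2 (by rw [← e, tg_tg])
    rw [if_neg ha, if_neg hb, sd_comm Y X] at this
    omega
  refine (card_le_card h1).trans (card_image_le.trans ?_)
  rw [symmDiff_comm]; exact h3.le

/-- the exceptional neighbours of the second defect -/
def Exc (r : ℕ) (K : Finset (Finset α)) (X1 X2 Z : Finset α) : Prop :=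
  Z ∈ nb r X2 ∧ sd X1 Z = 4 ∧ ∀ A ∈ cn K Z, A ∈ RX r K X2 ∨ (A ∈ UU K ∧ sd X1 A = 2)

open Classical in
theorem card_exc_line {X1 X2 : Finset α} (h : Ok1 r K X2) (hd : sd X1 X2 = 4) {a : α}
    (hex : ∀ Z ∈ ln r (tg X2 a), Z ∈ K → Z ∈ UU K) (h5 : bet5 r K X2 a ≤ C) (ho : om r K X2 ≤ C) :
    ((ln r (tg X2 a)).filter (Exc r K X1 X2)).card ≤ C + C * 3 := by
  let S := (ln r (tg X2 a)).filter (fun Z => Z ≠ X2 ∧ ∃ Y, SL r K Y ∧ sd X2 Y = 3 ∧ sd Y Z ≤ 3)
  have h1 : S.card ≤ C * 3 := by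
    refine card_om (fun Y => (ln r (tg X2 a)).filter (fun Z => Z ≠ X2 ∧ sd Y Z ≤ 3))
      (fun Z hZ => ?_) ho fun Y y1 y2 => card_cross h hex y1 y2
    obtain ⟨z1, z2, Y, y1, y2, y3⟩ := mem_filter.1 hZ
    exact mem_biUnion.2 ⟨Y, mem_filter.2 ⟨mem_SLs.2 y1, y2⟩, mem_filter.2 ⟨z1, z2, y3⟩⟩
  have h2 : (ln r (tg X2 a)).filter (Exc r K X1 X2) ⊆ (ln r (tg X2 a)).filter
      (fun Z => cn K Z ⊆ UU K ∧ (cn K Z).card ≤ 4 ∧
        ((cn K Z).card ≤ 1 ∨ ∃ A ∈ cn K Z, sd X2 A = 2 ∧ sd Z A = 2)) ∪ S := fun Z hZ => by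
    obtain ⟨z1, z2, z3, z4⟩ := mem_filter.1 hZ
    obtain ⟨cZ, z5⟩ := mem_nb.1 z2
    refine mem_union.2 (or_iff_not_imp_right.2 fun hc => mem_filter.2 ⟨z1, ?_⟩)
    have k1 : ∀ A ∈ cn K Z, A ∈ UU K ∧ (sd X2 A = 2 ∨ sd X1 A = 2) := fun A hA => by
      rcases z4 A hA with e | e
      · rcases h.RX_cases e with e | ⟨Y, y1, y2, y3⟩
        · exact ⟨e.1, Or.inl e.2⟩
        · refine absurd (mem_filter.2 ⟨z1, fun e => ?_, Y, y1, y2,
            sd_le_three y3 (mem_cn.1 hA).2⟩) hc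
          rw [e] at z5; simp at z5
      · exact ⟨e.1, Or.inr e.2⟩
    have k2 : ∀ A ∈ cn K Z, Z = A ∨ sd Z A = 2 := fun A hA =>
      (sd_le_two (cZ.trans (card_of_MM h.mm (mem_cn.1 hA).1).symm)).1 (mem_cn.1 hA).2
    refine ⟨fun A hA => (k1 A hA).1, ?_⟩
    by_cases hZK : Z ∈ K
    · have : (cn K Z).card ≤ 1 := card_le_one_iff_subset_singleton.2 ⟨Z, fun A hA =>
        mem_singleton.2 ((k2 A hA).resolve_right
          ((mem_UU.1 (hex Z z1 hZK)).2 A (mem_cn.1 hA).1)).symm⟩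
      exact ⟨by omega, Or.inl this⟩
    have k3 : ∀ A ∈ cn K Z, sd Z A = 2 := fun A hA =>
      (k2 A hA).resolve_left fun e => hZK (e ▸ (mem_cn.1 hA).1)
    have k4 : ((cn K Z).filter (fun A => sd X2 A = 2)).card ≤ sd X2 Z :=
      ((stb_UU K).mono fun A hA => (k1 A (mem_filter.1 hA).1).1).card_not_farther cZ fun A hA => by
        obtain ⟨a1, a2⟩ := mem_filter.1 hA
        exact ⟨mem_nb.2 ⟨card_of_MM h.mm (mem_cn.1 a1).1, k3 A a1⟩, by omega⟩
    have k5 : ((cn K Z).filter (fun A => ¬ sd X2 A = 2)).card ≤ 1 := by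
      refine card_le_one.2 fun A hA B hB => ?_
      obtain ⟨a1, a2⟩ := mem_filter.1 hA
      obtain ⟨b1, b2⟩ := mem_filter.1 hB
      rcases sd_cases ((card_of_MM h.mm (mem_cn.1 a1).1).trans
        (card_of_MM h.mm (mem_cn.1 b1).1).symm) with e | e | e
      · exact e
      · exact absurd e (stb_UU K A (k1 A a1).1 B (k1 B b1).1)
      · have := antipodal hd z3 z5 ((k1 A a1).2.resolve_left a2) (mem_cn.1 a1).2
          ((k1 B b1).2.resolve_left b2) (mem_cn.1 b1).2 e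
        tauto
    have k6 := card_filter_add_card_filter_not (s := cn K Z) (fun A => sd X2 A = 2)
    refine ⟨by omega, ?_⟩
    rcases ((cn K Z).filter (fun A => sd X2 A = 2)).eq_empty_or_nonempty with e | ⟨A, hA⟩
    · rw [e, card_empty] at k6
      exact Or.inl (by omega)
    · exact Or.inr ⟨A, (mem_filter.1 hA).1, (mem_filter.1 hA).2, k3 A (mem_filter.1 hA).1⟩
  have h3 := (card_le_card h2).trans (card_union_le _ _)
  rw [bet5] at h5
  omega

namespace GP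

variable (h : GP r P C j K σ)
include h

open Classical in
theorem card_exc : ((nb r (pt σ P.X2)).filter (Exc r K (pt σ P.X1) (pt σ P.X2))).card ≤
    9 + 4 * (C + C * 3) := by
  by_cases hd : sd P.X1 P.X2 = 4
  · have hd' : sd (pt σ P.X1) (pt σ P.X2) = 4 := by rwa [sd_pt h.site]
    have h1 : (nb r (pt σ P.X2)).filter (Exc r K (pt σ P.X1) (pt σ P.X2)) ⊆
        (pt σ P.X1 ∆ pt σ P.X2).biUnion (fun a => (ln r (tg (pt σ P.X2) a)).filter
          (Exc r K (pt σ P.X1) (pt σ P.X2))) := fun Z hZ => by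
      have := card_not_farther (Y := pt σ P.X1) h.c2 _ (fun Z hZ => ⟨(mem_filter.1 hZ).1, by
        rw [(mem_filter.1 hZ).2.2.1, hd']⟩) hZ
      obtain ⟨a, a1, a2⟩ := mem_biUnion.1 this
      exact mem_biUnion.2 ⟨a, a1, mem_filter.2 ⟨a2, (mem_filter.1 hZ).2⟩⟩
    have h2 := (card_le_card h1).trans (card_biUnion_le_card_mul _ _ (C + C * 3) fun a ha => by
      rw [pt_symmDiff h.site] at ha
      obtain ⟨t, ht, rfl⟩ := mem_image.1 ha
      exact card_exc_line h.a2 hd' (h.good.ex hd t ht).1 (h.good.ex hd t ht).2 h.good.o2)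
    rw [show (pt σ P.X1 ∆ pt σ P.X2).card = 4 from hd'] at h2
    omega
  · rcases ((nb r (pt σ P.X2)).filter (Exc r K (pt σ P.X1) (pt σ P.X2))).eq_empty_or_nonempty
      with e | ⟨Z, hZ⟩
    · simp [e]
    have h0 := h.d12
    have h1 := sd_pt h.site P.X1 P.X2
    have h2 := card_closer (Y := pt σ P.X1) h.c2 ((nb r (pt σ P.X2)).filter
      (Exc r K (pt σ P.X1) (pt σ P.X2))) fun Z hZ => ⟨(mem_filter.1 hZ).1, by
        rw [(mem_filter.1 hZ).2.2.1]; omega⟩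
    have h3 := sd_triangle (pt σ P.X1) Z (pt σ P.X2)
    rw [(mem_filter.1 hZ).2.2.1, sd_comm Z, (mem_nb.1 (mem_filter.1 hZ).1).2] at h3
    have h4 := sd_of_card_eq (h.c1.trans h.c2.symm)
    have h5 := sd_of_card_eq (h.c2.trans h.c1.symm)
    rw [sd_comm] at h5
    have h6 := Nat.mul_le_mul (show (pt σ P.X2 \ pt σ P.X1).card ≤ 3 by omega)
      (show (pt σ P.X1 \ pt σ P.X2).card ≤ 3 by omega)
    omega

theorem gam2 : (Gam r (K1 r P K σ) (pt σ P.X2)).card ≤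
    min r (Fintype.card α - r) + C + 4 * 2 ^ Fintype.card T + C * 6 + (9 + 4 * (C + C * 3)) := by
  classical
  let S := (nb r (pt σ P.X2)).filter (fun Z => ∃ Y, SL r K Y ∧ sd (pt σ P.X1) Y = 3 ∧
    sd Y Z ≤ 3 ∧ 3 < sd Y (pt σ P.X2))
  have h0 : S.card ≤ C * 6 := by
    refine card_om (fun Y => (nb r (pt σ P.X2)).filter
      (fun Z => sd Y Z ≤ 3 ∧ 3 < sd Y (pt σ P.X2))) (fun Z hZ => ?_) h.good.o1 fun Y _ _ => ?_
    · obtain ⟨z1, Y, y1, y2, y3⟩ := mem_filter.1 hZ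
      exact mem_biUnion.2 ⟨Y, mem_filter.2 ⟨mem_SLs.2 y1, y2⟩, mem_filter.2 ⟨z1, y3⟩⟩
    rcases ((nb r (pt σ P.X2)).filter
      (fun Z => sd Y Z ≤ 3 ∧ 3 < sd Y (pt σ P.X2))).eq_empty_or_nonempty with e | ⟨Z, hZ⟩
    · simp [e]
    refine (card_closer (Y := Y) h.c2 _ fun Z hZ => ⟨(mem_filter.1 hZ).1, ?_⟩).trans ?_
    · have := (mem_filter.1 hZ).2
      omega
    have h3 := sd_triangle Y Z (pt σ P.X2)
    rw [sd_comm Z, (mem_nb.1 (mem_filter.1 hZ).1).2, sd_eq Y] at h3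
    have h4 := (mem_filter.1 hZ).2.1
    generalize (pt σ P.X2 \ Y).card = x at *
    generalize (Y \ pt σ P.X2).card = y at *
    have hx : x ≤ 5 := by omega
    interval_cases x <;> omega
  have h1 : Gam r (K1 r P K σ) (pt σ P.X2) ⊆ Gam r K (pt σ P.X2) ∪ ((nb r (pt σ P.X2)).filter
      (fun Z => ∃ A ∈ NP P σ, 4 ≤ sd (pt σ P.X2) A ∧ sd Z A ≤ 2) ∪ (S ∪
        (nb r (pt σ P.X2)).filter (Exc r K (pt σ P.X1) (pt σ P.X2)))) := fun Z hZ => by
    obtain ⟨z1, z2⟩ := mem_Gam.1 hZ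
    by_contra hc
    simp only [mem_union, not_or] at hc
    obtain ⟨k1, k2, k3, k4⟩ := hc
    have f1 : ¬ sd Z (pt σ P.X1) ≤ 2 := fun e =>
      h.good.n1 (RX_subset (h.RX2 (z2 (mem_cn.2 ⟨UU_subset _ h.b1.self_UU, e⟩))))
    have f3 : ∀ A ∈ cn K Z, A ∈ RX r K (pt σ P.X2) ∨ (A ∈ UU K ∧ sd (pt σ P.X1) A = 2) := by
      intro A hA
      obtain ⟨a1, a2⟩ := mem_cn.1 hA
      by_cases hA1 : A ∈ K1 r P K σ
      · exact Or.inl (h.RX2 (z2 (mem_cn.2 ⟨hA1, a2⟩)))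
      rcases lost1 a1 hA1 with e | e
      · rcases sd_cases (h.c2.trans (card_of_MM h.mm a1).symm) with e' | e' | e'
        · exact absurd (e' ▸ a1) h.good.n2
        · exact Or.inl (mem_RX.2 ⟨a1, Or.inl e'⟩)
        · exact absurd (mem_filter.2 ⟨z1, A, e, e', a2⟩) k2
      · rcases h.a1.RX_cases e with e' | ⟨Y, y1, y2, y3⟩
        · exact Or.inr e'
        · by_cases y4 : sd Y (pt σ P.X2) ≤ 3
          · exact Or.inl (mem_RX.2 ⟨a1, Or.inr ⟨Y, y1.1, h.a2.three y1.1 y4, y3⟩⟩)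
          · exact absurd (mem_filter.2 ⟨z1, Y, y1, y2, sd_le_three y3 a2, not_le.1 y4⟩) k3
    refine k1 (mem_Gam.2 ⟨z1, fun A hA => (f3 A hA).resolve_right fun e => ?_⟩)
    refine k4 (mem_filter.2 ⟨z1, z1, ?_, f3⟩)
    have h2 := sd_triangle (pt σ P.X1) A Z
    have h3 := (mem_cn.1 hA).2
    have h4 := sd_of_card_eq (h.c1.trans (mem_nb.1 z1).1.symm)
    rw [sd_comm A] at h2
    rw [sd_comm] at f1
    omega
  have h2 := (card_le_card h1).trans ((card_union_le _ _).trans (Nat.add_le_add_left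
    ((card_union_le _ _).trans (Nat.add_le_add_left (card_union_le _ _) _)) _))
  have h3 := card_far h.c2 h.site
  have h4 := card_Gam (K := K) h.c2
  have h5 := h.card_exc
  have := h.good.b2
  omega

end GP

end Pool.Agent.MP_c3fbfc_co.V.G.Pl

end MrgPart2

section MrgPart3

/-! PLANT: counting the preimages. -/

namespace Pool.Agent.MP_c3fbfc_co.V.G

namespace Pl

open Finset
open scoped symmDiff

/-- the number of small subsets -/
def Sm (M b : ℕ) : ℕ := ((range M).powerset.filter (fun S => S.card ≤ b)).card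

theorem Sm_le_pow (M b : ℕ) : Sm M b ≤ 2 ^ M :=
  (card_filter_le _ _).trans (by simp)

theorem Sm_mono {M M' b b' : ℕ} (h : M ≤ M') (h' : b ≤ b') : Sm M b ≤ Sm M' b' :=
  card_le_card fun _ hS => mem_filter.2 ⟨mem_powerset.2 ((mem_powerset.1
    (mem_filter.1 hS).1).trans (range_subset_range.2 h)), (mem_filter.1 hS).2.trans h'⟩

theorem card_le_Sm {β : Type*} [DecidableEq β] {G : Finset β} {M : ℕ} (h : G.card ≤ M) (b : ℕ) :
    (G.powerset.filter (fun S => S.card ≤ b)).card ≤ Sm M b := by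
  let f : β → ℕ := fun x => if h : x ∈ G then G.equivFin ⟨x, h⟩ else 0
  have hf : ∀ x ∈ G, ∀ y ∈ G, f x = f y → x = y := fun x hx y hy e => by
    simp only [f, dif_pos hx, dif_pos hy] at e
    exact congrArg Subtype.val (G.equivFin.injective (Fin.ext e))
  have key : ∀ S ⊆ G, ∀ S' ⊆ G, S.image f = S'.image f → S ⊆ S' := fun S hS S' hS' e x hx => by
    obtain ⟨y, hy, e'⟩ := mem_image.1 (e ▸ mem_image_of_mem f hx)
    rwa [← hf y (hS' hy) x (hS hx) e']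
  refine card_le_card_of_injOn (fun S => S.image f) (fun S hS => ?_) fun S hS S' hS' e => ?_
  · obtain ⟨h1, h2⟩ := mem_filter.1 (mem_coe.1 hS)
    refine mem_coe.2 (mem_filter.2 ⟨mem_powerset.2 fun y hy => ?_, card_image_le.trans h2⟩)
    obtain ⟨x, hx, rfl⟩ := mem_image.1 hy
    have hx' := mem_powerset.1 h1 hx
    simp only [f, dif_pos hx', mem_range]
    exact (G.equivFin ⟨x, hx'⟩).2.trans_le h
  · have h1 := mem_powerset.1 (mem_filter.1 (mem_coe.1 hS)).1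
    have h2 := mem_powerset.1 (mem_filter.1 (mem_coe.1 hS')).1
    exact Subset.antisymm (key S h1 S' h2 e) (key S' h2 S h1 e.symm)

variable {α : Type*} [Fintype α] [DecidableEq α]
variable {T ι : Type} [Fintype T] [DecidableEq T] [Fintype ι] [DecidableEq ι]
variable {r C j : ℕ} {P : Pat T ι} {K K' : Finset (Finset α)} {σ σ' : Finset α × (T → α)}

/-- the first trace -/
noncomputable def T1 (r : ℕ) (P : Pat T ι) (K : Finset (Finset α)) (σ : Finset α × (T → α)) :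
    Finset (Finset α) := (K \ NP P σ) ∩ nb r (pt σ P.X1)

/-- the second trace -/
noncomputable def T2 (r : ℕ) (P : Pat T ι) (K : Finset (Finset α)) (σ : Finset α × (T → α)) :
    Finset (Finset α) := K1 r P K σ ∩ nb r (pt σ P.X2)

/-- the first constant -/
def D0 (v C : ℕ) : ℕ := C + 4 * 2 ^ v + C * 6 + (9 + 4 * (C + C * 3))

/-- the second constant -/
def D1 (v C : ℕ) : ℕ := 4 * 2 ^ v + 2 * (6 + C * 5) + C + 4

theorem GP.g1 (h : GP r P C j K σ) : (Gam r (K \ NP P σ) (pt σ P.X1)).card ≤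
    min r (Fintype.card α - r) + D0 (Fintype.card T) C := by
  have := h.gam1
  rw [D0]; omega

theorem GP.g2 (h : GP r P C j K σ) : (Gam r (K1 r P K σ) (pt σ P.X2)).card ≤
    min r (Fintype.card α - r) + D0 (Fintype.card T) C := by
  have := h.gam2
  rw [D0]; omega

/-- preimages with a given site -/
theorem card_fib (𝒦 : Finset (Finset (Finset α))) (b1 b2 : ℕ)
    (h : ∀ K ∈ 𝒦, GP r P C j K σ ∧ K2 r P K σ = K' ∧ (T1 r P K σ).card ≤ b1 ∧
      (T2 r P K σ).card ≤ b2) :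
    𝒦.card ≤ 2 ^ 2 ^ Fintype.card T * Sm (min r (Fintype.card α - r) + D0 (Fintype.card T) C) b1 *
      Sm (min r (Fintype.card α - r) + D0 (Fintype.card T) C) b2 := by
  rcases 𝒦.eq_empty_or_nonempty with rfl | ⟨K0, h0⟩
  · simp
  have e2 : ∀ K ∈ 𝒦, ∀ K0 ∈ 𝒦, pl r (K1 r P K0 σ) (pt σ P.X2) = pl r (K1 r P K σ) (pt σ P.X2) :=
    fun K hK K0 h0 => (h K0 h0).2.1.trans (h K hK).2.1.symm
  refine (card_le_mul_card_image_of_maps_to (f := fun K => T2 r P K σ)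
    (t := (Gam r (K1 r P K0 σ) (pt σ P.X2)).powerset.filter (fun S => S.card ≤ b2))
    (fun K hK => ?_) _ fun S _ => ?_).trans
      (Nat.mul_le_mul_left _ (card_le_Sm (h K0 h0).1.g2 b2))
  · exact mem_filter.2 ⟨mem_powerset.2 ((h K0 h0).1.b2.trace (h K hK).1.b2 (e2 K hK K0 h0)),
      (h K hK).2.2.2⟩
  rcases (𝒦.filter (fun K => T2 r P K σ = S)).eq_empty_or_nonempty with e | ⟨L, hL⟩
  · simp [e]
  have e1 : ∀ K ∈ 𝒦.filter (fun K => T2 r P K σ = S), K1 r P L σ = K1 r P K σ := fun K hK => by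
    obtain ⟨k1, k2⟩ := mem_filter.1 hK
    obtain ⟨l1, l2⟩ := mem_filter.1 hL
    exact (h L l1).1.b2.det (h K k1).1.b2 (e2 K k1 L l1) (l2.trans k2.symm)
  have l1 := (mem_filter.1 hL).1
  refine (card_le_card_of_injOn (t := (NP P σ).powerset ×ˢ
    (Gam r (L \ NP P σ) (pt σ P.X1)).powerset.filter (fun S => S.card ≤ b1))
    (fun K => (K ∩ NP P σ, T1 r P K σ)) (fun K hK => ?_) fun K hK K' hK' e => ?_).trans ?_
  · have k1 := (mem_filter.1 (mem_coe.1 hK)).1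
    exact mem_coe.2 (mem_product.2 ⟨mem_powerset.2 inter_subset_right, mem_filter.2
      ⟨mem_powerset.2 ((h L l1).1.b1.trace (h K k1).1.b1 (e1 K hK)), (h K k1).2.2.1⟩⟩)
  · have k1 := (mem_filter.1 (mem_coe.1 hK)).1
    have k2 := (mem_filter.1 (mem_coe.1 hK')).1
    have e3 := (h K k1).1.b1.det (h K' k2).1.b1 ((e1 K hK).symm.trans (e1 K' hK'))
      (congrArg Prod.snd e)
    have e4 : K ∩ NP P σ = K' ∩ NP P σ := congrArg Prod.fst e
    rw [← sdiff_union_inter K (NP P σ), e3, e4, sdiff_union_inter]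
  · rw [card_product, card_powerset]
    exact Nat.mul_le_mul (Nat.pow_le_pow_right (by norm_num) card_NP) (card_le_Sm (h L l1).1.g1 b1)

/-- preimages with sites in a given set -/
theorem card_fib' (F : Finset (Σ _ : Finset (Finset α), Finset α × (T → α)))
    (Ω : Finset (Finset α × (T → α))) (b1 b2 : ℕ)
    (h : ∀ p ∈ F, p.2 ∈ Ω ∧ GP r P C j p.1 p.2 ∧ K2 r P p.1 p.2 = K' ∧
      (T1 r P p.1 p.2).card ≤ b1 ∧ (T2 r P p.1 p.2).card ≤ b2) :
    F.card ≤ 2 ^ 2 ^ Fintype.card T * Sm (min r (Fintype.card α - r) + D0 (Fintype.card T) C) b1 *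
      Sm (min r (Fintype.card α - r) + D0 (Fintype.card T) C) b2 * Ω.card := by
  classical
  refine card_le_mul_card_image_of_maps_to (f := fun p => p.2) (fun p hp => (h p hp).1) _
    fun σ _ => ?_
  have inj : Set.InjOn (fun p : Σ _ : Finset (Finset α), Finset α × (T → α) => p.1)
      (F.filter (fun p => p.2 = σ) : Finset _) := fun p hp q hq e => Sigma.ext e
    (heq_of_eq ((mem_filter.1 (mem_coe.1 hp)).2.trans (mem_filter.1 (mem_coe.1 hq)).2.symm))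
  refine (card_image_of_injOn inj).ge.trans
    (card_fib (r := r) (C := C) (P := P) (j := j) (K' := K') (σ := σ) _ b1 b2 fun K hK => ?_)
  obtain ⟨p, hp, rfl⟩ := mem_image.1 hK
  obtain ⟨p1, rfl⟩ := mem_filter.1 hp
  exact (h p p1).2

/-- two preimages are close -/
theorem close (h : GP r P C j K σ) (h' : GP r P C j K' σ') (e : K2 r P K' σ' = K2 r P K σ)
    (hn : ¬ Occ r P.ρ P.fam K') : sd (pt σ P.X1) (pt σ' P.X1) ≤ 4 * P.ρ + 4 := by
  by_contra hc
  refine hn ⟨σ, h.site, fun B hB => ?_⟩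
  rw [← h.occ B hB, ← e]
  by_contra hd
  have h1 := h'.near hd
  have h2 := sd_pt_le h.site P.c1 hB
  have h3 := sd_triangle (pt σ P.X1) (pt σ B) (pt σ' P.X1)
  rw [sd_comm (pt σ B)] at h3
  omega

open Classical in
theorem card_lo (X : Finset α) (d : ℕ) : ((univ : Finset (Finset α × (T → α))).filter
    (fun σ => Site r P.ρ σ ∧ sd X (pt σ P.X1) ≤ d)).card ≤
      (Fintype.card α + 1) ^ d * Fintype.card α ^ Fintype.card T := by
  refine (card_le_card_of_injOn (t := univ.filter (fun Z => sd X Z ≤ d) ×ˢ univ)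
    (fun σ => (pt σ P.X1, σ.2)) (fun σ hσ => ?_) fun σ hσ σ' hσ' e => ?_).trans ?_
  · simpa using (mem_filter.1 (mem_coe.1 hσ)).2.2
  · have key : ∀ σ : Finset α × (T → α), Site r P.ρ σ → σ.1 = pt σ P.X1 \ P.X1.image σ.2 :=
      fun σ hσ => (union_sdiff_cancel_right (disjoint_right.2 fun z hz => by
        obtain ⟨t, -, rfl⟩ := mem_image.1 hz
        exact hσ.2.1 t)).symm
    obtain ⟨e1, e2⟩ := Prod.mk.inj e
    refine Prod.ext ?_ e2
    rw [key σ (mem_filter.1 (mem_coe.1 hσ)).2.1, key σ' (mem_filter.1 (mem_coe.1 hσ')).2.1, e1, e2]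
  · rw [card_product, card_univ, Fintype.card_fun]
    exact Nat.mul_le_mul_right _ (card_ball_le X d _ fun Z hZ => (mem_filter.1 hZ).2)

theorem card_hi (hM : MargStmt) {n : ℕ} {U : Finset (Finset (Fin n))} (hU : U ∈ SS (Fin n) r)
    {t : T} (ht : Peel P.H P.X2 univ {t}) (X1 X2 : Finset (Fin n)) :
    ((sites r P U).filter (fun σ => pt σ P.X2 ∈ ({X1, X2} : Finset _) ∧ σ.2 t ∈ X1 ∆ X2)).card *
      n ^ (Fintype.card ι + 1) ≤ 2 * sd X1 X2 * n ^ Fintype.card T := by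
  have h1 : (sites r P U).filter (fun σ => pt σ P.X2 ∈ ({X1, X2} : Finset _) ∧ σ.2 t ∈ X1 ∆ X2) ⊆
      (({X1, X2} : Finset _) ×ˢ (X1 ∆ X2)).biUnion (fun q => (sites r P U).filter
        (fun σ => pt σ P.X2 = q.1 ∧ ∀ t' ∈ ({t} : Finset T), σ.2 t' = (fun _ => q.2) t')) :=
    fun σ hσ => mem_biUnion.2 ⟨(pt σ P.X2, σ.2 t), mem_product.2 (mem_filter.1 hσ).2,
      mem_filter.2 ⟨(mem_filter.1 hσ).1, rfl, by simp⟩⟩
  refine (Nat.mul_le_mul_right _ ((card_le_card h1).trans card_biUnion_le)).trans ?_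
  rw [sum_mul]
  refine (sum_le_card_nsmul _ _ (n ^ Fintype.card T) fun q _ => ?_).trans ?_
  · simpa using hM T ι P n r U hU P.X2 univ {t} P.c2 ht q.1 (fun _ => q.2)
  · rw [smul_eq_mul, card_product]
    exact Nat.mul_le_mul_right _ (Nat.mul_le_mul_right _ card_le_two)

/-- preimages with two large traces -/
theorem hi (h : GP r P C j K σ) (h' : GP r P C j K' σ') (e : K2 r P K' σ' = K2 r P K σ)
    (hn : ¬ Occ r P.ρ P.fam K') (h1 : j + D1 (Fintype.card T) C < (T1 r P K' σ').card)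
    (h2 : j + D1 (Fintype.card T) C < (T2 r P K' σ').card) {t : T} (ht : t ∈ P.X1 ∆ P.X2) :
    σ' ∈ (sites r P (UU (K2 r P K σ))).filter (fun σ' => pt σ' P.X2 ∈
      ({pt σ P.X1, pt σ P.X2} : Finset _) ∧ σ'.2 t ∈ pt σ P.X1 ∆ pt σ P.X2) := by
  have c1 := close h h' e hn
  have c2 := sd_pt_le h'.site P.c1 P.c2
  have c3 := sd_triangle (pt σ P.X1) (pt σ' P.X1) (pt σ' P.X2)
  rw [D1, T1] at h1
  rw [D1, T2] at h2
  have a1 := h.not_dl (e ▸ h'.u1) (by omega) (e ▸ h'.dl1 (by omega))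
  have a2 := h.not_dl (e ▸ h'.u2) (by omega) (e ▸ h'.dl2 (by omega))
  have a3 : σ'.2 t ∈ pt σ' P.X1 ∆ pt σ' P.X2 := by
    rw [pt_symmDiff h'.site]; exact mem_image_of_mem _ ht
  refine mem_filter.2 ⟨?_, by simpa using a2, ?_⟩
  · simp only [sites, mem_filter, mem_univ, true_and]
    exact ⟨h'.site, fun i => e ▸ h'.uH i⟩
  · rcases a1 with a1 | a1 <;> rcases a2 with a2 | a2 <;> rw [a1, a2] at a3
    · simp at a3
    · exact a3
    · rwa [symmDiff_comm]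
    · simp at a3

/-- the final constant -/
def DD (ρ v C : ℕ) : ℕ :=
  4 * ρ * 2 ^ 2 ^ v * 4 ^ D0 v C + (4 * ρ + 4 + v + (2 ^ v + D0 v C + 1)) + D1 v C

theorem arith1 (ρ v C μ n : ℕ) : 2 ^ 2 ^ v * 2 ^ (μ + D0 v C) * 2 ^ (μ + D0 v C) *
    (2 * (2 * ρ) * n ^ v) ≤ DD ρ v C * 4 ^ μ * n ^ v := by
  calc _ = 4 * ρ * 2 ^ 2 ^ v * 4 ^ D0 v C * 4 ^ μ * n ^ v := by
        generalize D0 v C = d
        rw [show (4 : ℕ) ^ d = 2 ^ d * 2 ^ d from mul_pow 2 2 d,
          show (4 : ℕ) ^ μ = 2 ^ μ * 2 ^ μ from mul_pow 2 2 μ, pow_add]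
        ring
    _ ≤ _ := Nat.mul_le_mul_right _ (Nat.mul_le_mul_right _
        ((Nat.le_add_right _ _).trans (Nat.le_add_right _ _)))

theorem arith2 (ρ v C μ y : ℕ) {n : ℕ} (hn : 0 < n) : 2 * (2 ^ 2 ^ v * 2 ^ (μ + D0 v C) * y *
    ((n + 1) ^ (4 * ρ + 4) * n ^ v)) ≤ (n + 1) ^ DD ρ v C * 2 ^ μ * y := by
  have b1 : n ^ v ≤ (n + 1) ^ v := Nat.pow_le_pow_left (by omega) _
  have b2 : 2 ^ (2 ^ v + D0 v C + 1) ≤ (n + 1) ^ (2 ^ v + D0 v C + 1) :=
    Nat.pow_le_pow_left (Nat.succ_le_succ hn) _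
  calc _ = (n + 1) ^ (4 * ρ + 4) * n ^ v * 2 ^ (2 ^ v + D0 v C + 1) * 2 ^ μ * y := by
        rw [pow_add 2 μ, pow_add 2 _ 1, pow_add 2 (2 ^ v)]; ring
    _ ≤ (n + 1) ^ (4 * ρ + 4) * (n + 1) ^ v * (n + 1) ^ (2 ^ v + D0 v C + 1) * 2 ^ μ * y := by
        gcongr
    _ ≤ _ := by
        rw [← pow_add, ← pow_add]
        exact Nat.mul_le_mul_right _ (Nat.mul_le_mul_right _ (Nat.pow_le_pow_right
          (Nat.succ_pos _) ((Nat.le_add_left _ _).trans (Nat.le_add_right _ _))))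

theorem D0_le (ρ v C : ℕ) : D0 v C ≤ DD ρ v C := by
  rw [DD]
  generalize 4 * ρ * 2 ^ 2 ^ v * 4 ^ D0 v C = a
  generalize 2 ^ v = b
  omega

theorem D1_le (ρ v C : ℕ) : D1 v C ≤ DD ρ v C := Nat.le_add_left _ _

theorem arith3 {ρ v C μ n k j x x1 x2 x3 lo hi : ℕ} (hn : 0 < n) (l7 : x ≤ x3 + (x1 + x2))
    (l0 : lo ≤ (n + 1) ^ (4 * ρ + 4) * n ^ v) (l4 : hi * n ^ k ≤ 2 * (2 * ρ) * n ^ v)
    (l1 : x1 ≤ 2 ^ 2 ^ v * Sm (μ + D0 v C) (j + D1 v C) * Sm (μ + D0 v C) (μ + D0 v C) * lo)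
    (l2 : x2 ≤ 2 ^ 2 ^ v * Sm (μ + D0 v C) (μ + D0 v C) * Sm (μ + D0 v C) (j + D1 v C) * lo)
    (l3 : x3 ≤ 2 ^ 2 ^ v * Sm (μ + D0 v C) (μ + D0 v C) * Sm (μ + D0 v C) (μ + D0 v C) * hi) :
    (x : ℝ) ≤ DD ρ v C * 4 ^ μ * n ^ v / n ^ k +
      (n + 1) ^ DD ρ v C * 2 ^ μ * (Sm (μ + DD ρ v C) (j + DD ρ v C) : ℝ) := by
  have s1 := Sm_le_pow (μ + D0 v C) (μ + D0 v C)
  have s2 : Sm (μ + D0 v C) (j + D1 v C) ≤ Sm (μ + DD ρ v C) (j + DD ρ v C) :=
    Sm_mono (Nat.add_le_add_left (D0_le _ _ _) _) (Nat.add_le_add_left (D1_le _ _ _) _)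
  have b1 := arith1 ρ v C μ n
  have b2 := arith2 ρ v C μ (Sm (μ + DD ρ v C) (j + DD ρ v C)) hn
  generalize Sm (μ + DD ρ v C) (j + DD ρ v C) = y at *
  generalize Sm (μ + D0 v C) (j + D1 v C) = y1 at *
  generalize Sm (μ + D0 v C) (μ + D0 v C) = y2 at *
  generalize 2 ^ (μ + D0 v C) = w at *
  generalize DD ρ v C = D at *
  generalize 2 ^ 2 ^ v = c at *
  have a1 : x3 * n ^ k ≤ D * 4 ^ μ * n ^ v :=
    calc x3 * n ^ k ≤ c * y2 * y2 * hi * n ^ k := Nat.mul_le_mul_right _ l3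
      _ = c * y2 * y2 * (hi * n ^ k) := mul_assoc _ _ _
      _ ≤ c * w * w * (2 * (2 * ρ) * n ^ v) := by gcongr
      _ ≤ _ := b1
  have a3 : x1 ≤ c * w * y * ((n + 1) ^ (4 * ρ + 4) * n ^ v) :=
    calc x1 ≤ c * y2 * y1 * lo := by rwa [mul_right_comm c]
      _ ≤ _ := by gcongr
  have a4 : x2 ≤ c * w * y * ((n + 1) ^ (4 * ρ + 4) * n ^ v) := l2.trans (by gcongr)
  have a5 : x ≤ x3 + (n + 1) ^ D * 2 ^ μ * y :=
    l7.trans (Nat.add_le_add_left ((Nat.add_le_add a3 a4).trans ((two_mul _).ge.trans b2)) _)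
  have a6 : (x3 : ℝ) ≤ D * 4 ^ μ * n ^ v / n ^ k := by
    rw [le_div_iff₀ (by positivity)]
    exact_mod_cast a1
  have a7 : (x : ℝ) ≤ x3 + (n + 1) ^ D * 2 ^ μ * y := by exact_mod_cast a5
  linarith

theorem fibre (hM : MargStmt) {n : ℕ} (hn : 0 < n) {K' : Finset (Finset (Fin n))}
    (F : Finset (Σ _ : Finset (Finset (Fin n)), Finset (Fin n) × (T → Fin n)))
    (h : ∀ p ∈ F, GP r P C j p.1 p.2 ∧ ¬ Occ r P.ρ P.fam p.1 ∧ K2 r P p.1 p.2 = K') :
    (F.card : ℝ) ≤ DD P.ρ (Fintype.card T) C * 4 ^ min r (n - r) * n ^ Fintype.card T /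
      n ^ (Fintype.card ι + 1) + (n + 1) ^ DD P.ρ (Fintype.card T) C * 2 ^ min r (n - r) *
        (Sm (min r (n - r) + DD P.ρ (Fintype.card T) C) (j + DD P.ρ (Fintype.card T) C) : ℝ) := by
  classical
  rcases F.eq_empty_or_nonempty with rfl | ⟨p0, h0⟩
  · simp only [card_empty, Nat.cast_zero]; positivity
  obtain ⟨g0, -, e0⟩ := h p0 h0
  obtain ⟨t, ht, hp⟩ := P.p2
  have t1 : ∀ p ∈ F, (T1 r P p.1 p.2).card ≤
      min r (Fintype.card (Fin n) - r) + D0 (Fintype.card T) C := fun p hp =>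
    (card_le_card ((h p hp).1.b1.trace (h p hp).1.b1 rfl)).trans (h p hp).1.g1
  have t2 : ∀ p ∈ F, (T2 r P p.1 p.2).card ≤
      min r (Fintype.card (Fin n) - r) + D0 (Fintype.card T) C := fun p hp =>
    (card_le_card ((h p hp).1.b2.trace (h p hp).1.b2 rfl)).trans (h p hp).1.g2
  have lo : ∀ p ∈ F, p.2 ∈ (univ : Finset (Finset (Fin n) × (T → Fin n))).filter
      (fun σ => Site r P.ρ σ ∧ sd (pt p0.2 P.X1) (pt σ P.X1) ≤ 4 * P.ρ + 4) := fun p hp =>
    mem_filter.2 ⟨mem_univ _, (h p hp).1.site,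
      close g0 (h p hp).1 ((h p hp).2.2.trans e0.symm) (h p hp).2.1⟩
  have l0 := card_lo (r := r) (P := P) (pt p0.2 P.X1) (4 * P.ρ + 4)
  have l1 := card_fib' (r := r) (C := C) (j := j) (P := P) (K' := K')
    (F.filter (fun p => (T1 r P p.1 p.2).card ≤ j + D1 (Fintype.card T) C)) _ _ _
    fun p hp => ⟨lo p (mem_filter.1 hp).1, (h p (mem_filter.1 hp).1).1,
      (h p (mem_filter.1 hp).1).2.2, (mem_filter.1 hp).2, t2 p (mem_filter.1 hp).1⟩
  have l2 := card_fib' (r := r) (C := C) (j := j) (P := P) (K' := K')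
    (F.filter (fun p => (T2 r P p.1 p.2).card ≤ j + D1 (Fintype.card T) C)) _ _ _
    fun p hp => ⟨lo p (mem_filter.1 hp).1, (h p (mem_filter.1 hp).1).1,
      (h p (mem_filter.1 hp).1).2.2, t1 p (mem_filter.1 hp).1, (mem_filter.1 hp).2⟩
  have l3 := card_fib' (r := r) (C := C) (j := j) (P := P) (K' := K')
    (F.filter (fun p => j + D1 (Fintype.card T) C < (T1 r P p.1 p.2).card ∧
      j + D1 (Fintype.card T) C < (T2 r P p.1 p.2).card)) _ _ _
    fun p hp => ⟨hi g0 (h p (mem_filter.1 hp).1).1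
      ((h p (mem_filter.1 hp).1).2.2.trans e0.symm) (h p (mem_filter.1 hp).1).2.1
      (mem_filter.1 hp).2.1 (mem_filter.1 hp).2.2 ht, (h p (mem_filter.1 hp).1).1,
      (h p (mem_filter.1 hp).1).2.2, t1 p (mem_filter.1 hp).1, t2 p (mem_filter.1 hp).1⟩
  have l4 := (card_hi hM (UU_mem_SS g0.mm2) hp (pt p0.2 P.X1) (pt p0.2 P.X2)).trans
    (Nat.mul_le_mul_right _ (Nat.mul_le_mul_left _ (sd_pt_le g0.site P.c1 P.c2)))
  rw [Fintype.card_fin] at l0 l1 l2 l3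
  refine arith3 hn ((card_le_card fun p hp => ?_).trans ((card_union_le _ _).trans
    (Nat.add_le_add_left (card_union_le _ _) _))) l0 l4 l1 l2 l3
  by_cases c1 : (T1 r P p.1 p.2).card ≤ j + D1 (Fintype.card T) C
  · exact mem_union_right _ (mem_union_left _ (mem_filter.2 ⟨hp, c1⟩))
  by_cases c2 : (T2 r P p.1 p.2).card ≤ j + D1 (Fintype.card T) C
  · exact mem_union_right _ (mem_union_right _ (mem_filter.2 ⟨hp, c2⟩))
  exact mem_union_left _ (mem_filter.2 ⟨hp, not_le.1 c1, not_le.1 c2⟩)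

theorem total (hM : MargStmt) {n : ℕ} (hn : 0 < n)
    (F : Finset (Σ _ : Finset (Finset (Fin n)), Finset (Fin n) × (T → Fin n)))
    (h : ∀ p ∈ F, GP r P C j p.1 p.2 ∧ ¬ Occ r P.ρ P.fam p.1) :
    (F.card : ℝ) ≤ (MM (Fin n) r).card * (DD P.ρ (Fintype.card T) C * 4 ^ min r (n - r) *
      n ^ Fintype.card T / n ^ (Fintype.card ι + 1) + (n + 1) ^ DD P.ρ (Fintype.card T) C *
        2 ^ min r (n - r) * (Sm (min r (n - r) + DD P.ρ (Fintype.card T) C)
          (j + DD P.ρ (Fintype.card T) C) : ℝ)) := by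
  have e : F.card = ∑ K' ∈ MM (Fin n) r, (F.filter (fun p => K2 r P p.1 p.2 = K')).card :=
    card_eq_sum_card_fiberwise fun p hp => (h p hp).1.mm2
  rw [e, Nat.cast_sum]
  refine (sum_le_card_nsmul _ _ _ fun K' _ => fibre (C := C) (j := j) (P := P) (r := r) hM hn
    (K' := K') _ fun p hp => ?_).trans (nsmul_eq_mul _ _).le
  exact ⟨(h p (mem_filter.1 hp).1).1, (h p (mem_filter.1 hp).1).2, (mem_filter.1 hp).2⟩

end Pl

open Finset in
theorem plant (hM : MargStmt) : PlantStmt := by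
  intro T ι _ _ _ _ P C
  refine ⟨Pl.DD P.ρ (Fintype.card T) C, fun n r j hn w1 w2 => ?_⟩
  refine Pl.total (C := C) (j := j) (P := P) (r := r) hM (by omega) _ fun p hp => ?_
  simp only [mem_sigma, sites, mem_filter, mem_univ, true_and] at hp
  exact ⟨⟨⟨by rwa [Fintype.card_fin], by rwa [Fintype.card_fin], by rwa [Fintype.card_fin]⟩,
    hp.1.1, hp.2.1.1, hp.2.1.2, hp.2.2⟩, hp.1.2⟩

end Pool.Agent.MP_c3fbfc_co.V.G

end MrgPart3

section MrgPart4

/-! FIN, first part: the pairs that are not good are counted through exceptional points. -/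

namespace Pool.Agent.MP_c3fbfc_co.V.G.Fn

open Finset
open scoped symmDiff Classical

theorem card_mul_le {β γ : Type*} (S : Finset β) (W : Finset γ) (F : γ → Finset β) (a b : ℕ)
    (h1 : ∀ s ∈ S, ∃ w ∈ W, s ∈ F w) (h2 : ∀ w ∈ W, (F w).card * a ≤ b) :
    S.card * a ≤ W.card * b := by
  have h3 : S ⊆ W.biUnion F := fun s hs => mem_biUnion.2 (h1 s hs)
  calc S.card * a ≤ (∑ w ∈ W, (F w).card) * a :=
        Nat.mul_le_mul_right _ ((card_le_card h3).trans card_biUnion_le)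
    _ = ∑ w ∈ W, (F w).card * a := sum_mul _ _ _
    _ ≤ W.card * b := by simpa using sum_le_card_nsmul W _ b h2

theorem card_le_mul {β γ : Type*} (S : Finset β) (W : Finset γ) (F : γ → Finset β) (b : ℕ)
    (h1 : ∀ s ∈ S, ∃ w ∈ W, s ∈ F w) (h2 : ∀ w ∈ W, (F w).card ≤ b) :
    S.card ≤ W.card * b := by
  simpa using card_mul_le S W F 1 b h1 (by simpa using h2)

theorem markov {β : Type*} (S S' : Finset β) (f : β → ℕ) (C : ℕ) (h : ∀ x ∈ S', x ∈ S ∧ C < f x) :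
    C * S'.card ≤ ∑ x ∈ S, f x := by
  have h1 := card_nsmul_le_sum S' f C fun x hx => (h x hx).2.le
  rw [smul_eq_mul, mul_comm] at h1
  exact h1.trans (sum_le_sum_of_subset fun x hx => (h x hx).1)

section points

variable {α : Type*} [Fintype α] [DecidableEq α]

/-- non-bases that are not isolated -/
def W0 (K : Finset (Finset α)) : Finset (Finset α) := K \ UU K

/-- exceptional points -/
noncomputable def W1 (r C j R : ℕ) (K : Finset (Finset α)) : Finset (Finset α) :=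
  (Vr α r).filter (fun X => X ∈ UU K ∨ ¬ OK r K X ∨ (X ∉ K ∧ OK r K X ∧ C < bet r K X) ∨
    C < om r K X ∨ ∃ A ∈ UU K, sd X A ≤ R ∧ DL r K A j)

/-- exceptional pairs of a point and a direction -/
noncomputable def W2 (r C : ℕ) (K : Finset (Finset α)) : Finset (Finset α × α) :=
  (Vr α r ×ˢ univ).filter (fun p => (∃ Z ∈ ln r (tg p.1 p.2), Z ∈ W0 K) ∨ C < bet5 r K p.1 p.2)

variable {r : ℕ} {K : Finset (Finset α)}

theorem cases_mem (h : K ∈ MM α r) {A : Finset α} (hA : A ∈ K) :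
    A ∈ UU K ∨ (∃ Y, SL r K Y ∧ A ∈ ln r Y) ∨ A ∈ WB r K ∨ ∃ Y ∈ RA r K, A ∈ ln r Y := by
  rcases mem_UU_or h hA with h1 | ⟨Y, hY, hAY⟩
  · exact Or.inl h1
  by_cases h2 : SL r K Y
  · exact Or.inr (Or.inl ⟨Y, h2, hAY⟩)
  by_cases h3 : Disjoint (ln r Y) (WB r K)
  · exact Or.inr (Or.inr (Or.inr ⟨Y, mem_RA.2 ⟨hY, h2, h3⟩, hAY⟩))
  · obtain ⟨B, b1, b2⟩ := not_disjoint_iff.1 h3
    exact Or.inr (Or.inr (Or.inl (clo_WB.ln_subset hY b1 b2 hAY)))

theorem card_lines (S : Finset (Finset α)) :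
    (S.biUnion (ln r)).card ≤ S.card * Fintype.card α :=
  card_le_mul _ S (ln r) _ (fun _ hs => mem_biUnion.1 hs) fun Y _ => card_ln_le r Y

theorem card_W0 (h : K ∈ MM α r) : (W0 K).card ≤
    (WB r K).card + (SLs r K).card * Fintype.card α + (RA r K).card * Fintype.card α := by
  have h1 : W0 K ⊆ WB r K ∪ (SLs r K).biUnion (ln r) ∪ (RA r K).biUnion (ln r) := by
    intro A hA
    obtain ⟨a1, a2⟩ := mem_sdiff.1 hA
    simp only [mem_union, mem_biUnion, mem_SLs]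
    rcases cases_mem h a1 with t | t | t | t
    · exact absurd t a2
    · exact Or.inl (Or.inr t)
    · exact Or.inl (Or.inl t)
    · exact Or.inr t
  have h2 := card_lines (r := r) (SLs r K)
  have h3 := card_lines (r := r) (RA r K)
  have h4 := (card_le_card h1).trans (card_union_le _ _)
  have h5 := card_union_le (WB r K) ((SLs r K).biUnion (ln r))
  omega

theorem card_notOK (h : K ∈ MM α r) : ((Vr α r).filter (fun X => ¬ OK r K X)).card ≤
    ((WB r K).card + (RA r K).card * Fintype.card α) * Fintype.card α ^ 2 := by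
  refine (card_le_mul _ (WB r K ∪ (RA r K).biUnion (ln r)) (nb r) _ (fun X hX => ?_)
    fun A _ => card_nb_le r A).trans (Nat.mul_le_mul_right _ ?_)
  · obtain ⟨h1, h2⟩ := mem_filter.1 hX
    simp only [OK, not_forall, not_or] at h2
    obtain ⟨A, a1, a2, a3, a4⟩ := h2
    refine ⟨A, ?_, mem_nb.2 ⟨mem_Vr.1 h1, by rw [sd_comm]; exact a2⟩⟩
    rcases cases_mem h a1 with t | t | t | t
    · exact absurd t a3
    · exact absurd t a4
    · exact mem_union_left _ t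
    · exact mem_union_right _ (mem_biUnion.2 t)
  · exact (card_union_le _ _).trans (Nat.add_le_add_left (card_lines _) _)

theorem sum_om : ∑ X ∈ Vr α r, om r K X ≤ (SLs r K).card * Fintype.card α ^ 3 := by
  simp only [om, card_filter]
  rw [sum_comm]
  refine (sum_le_card_nsmul _ _ (Fintype.card α ^ 3) fun Y _ => ?_).trans (by simp)
  rw [← card_filter]
  exact card_sd_eq_le_pow Y 3 _ fun X hX => by rw [sd_comm]; exact (mem_filter.1 hX).2

theorem card_W1 (h : K ∈ MM α r) (C j R : ℕ) : C * (W1 r C j R K).card ≤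
    C * ((UU K).card + ((WB r K).card + (RA r K).card * Fintype.card α) * Fintype.card α ^ 2 +
      ((UU K).filter (fun A => DL r K A j)).card * (Fintype.card α + 1) ^ R) +
    ∑ X ∈ (Vr α r).filter (fun X => X ∉ K ∧ OK r K X), bet r K X +
      (SLs r K).card * Fintype.card α ^ 3 := by
  set A1 := (Vr α r).filter (fun X => ¬ OK r K X)
  set A2 := (Vr α r).filter (fun X => X ∉ K ∧ OK r K X ∧ C < bet r K X)
  set A3 := (Vr α r).filter (fun X => C < om r K X)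
  set A4 := (Vr α r).filter (fun X => ∃ A ∈ UU K, sd X A ≤ R ∧ DL r K A j)
  have h1 : W1 r C j R K ⊆ UU K ∪ A1 ∪ A4 ∪ A2 ∪ A3 := by
    intro X hX
    obtain ⟨x1, x2⟩ := mem_filter.1 hX
    simp only [mem_union]
    rcases x2 with t | t | t | t | t
    · exact Or.inl (Or.inl (Or.inl (Or.inl t)))
    · exact Or.inl (Or.inl (Or.inl (Or.inr (mem_filter.2 ⟨x1, t⟩))))
    · exact Or.inl (Or.inr (mem_filter.2 ⟨x1, t⟩))
    · exact Or.inr (mem_filter.2 ⟨x1, t⟩)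
    · exact Or.inl (Or.inl (Or.inr (mem_filter.2 ⟨x1, t⟩)))
  have h2 : (W1 r C j R K).card ≤ (UU K).card + A1.card + A4.card + A2.card + A3.card := by
    have e1 := card_le_card h1
    have e2 := card_union_le (UU K ∪ A1 ∪ A4 ∪ A2) A3
    have e3 := card_union_le (UU K ∪ A1 ∪ A4) A2
    have e4 := card_union_le (UU K ∪ A1) A4
    have e5 := card_union_le (UU K) A1
    omega
  have h3 := card_notOK h
  have h4 : C * A2.card ≤ ∑ X ∈ (Vr α r).filter (fun X => X ∉ K ∧ OK r K X), bet r K X :=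
    markov _ _ _ _ fun X hX => by
      obtain ⟨x1, x2, x3, x4⟩ := mem_filter.1 hX
      exact ⟨mem_filter.2 ⟨x1, x2, x3⟩, x4⟩
  have h5 : C * A3.card ≤ (SLs r K).card * Fintype.card α ^ 3 :=
    (markov (Vr α r) A3 (om r K) C fun X hX => mem_filter.1 hX).trans sum_om
  have h6 : A4.card ≤ ((UU K).filter (fun A => DL r K A j)).card * (Fintype.card α + 1) ^ R := by
    refine card_le_mul _ _ (fun A => univ.filter (fun X => sd A X ≤ R)) _ (fun X hX => ?_)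
      fun A _ => card_ball_le A R _ fun X hX => (mem_filter.1 hX).2
    obtain ⟨-, A, a1, a2, a3⟩ := mem_filter.1 hX
    exact ⟨A, mem_filter.2 ⟨a1, a3⟩, mem_filter.2 ⟨mem_univ _, by rw [sd_comm]; exact a2⟩⟩
  calc C * (W1 r C j R K).card
      ≤ C * ((UU K).card + A1.card + A4.card + A2.card + A3.card) := Nat.mul_le_mul_left _ h2
    _ = C * ((UU K).card + A1.card + A4.card) + C * A2.card + C * A3.card := by ring
    _ ≤ _ := by gcongr

theorem card_W2 (C : ℕ) : C * (W2 r C K).card ≤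
    C * ((W0 K).card * Fintype.card α ^ 2) + ∑ X ∈ Vr α r, ∑ a : α, bet5 r K X a := by
  set A1 := (Vr α r ×ˢ (univ : Finset α)).filter (fun p => ∃ Z ∈ ln r (tg p.1 p.2), Z ∈ W0 K)
  set A2 := (Vr α r ×ˢ (univ : Finset α)).filter (fun p => C < bet5 r K p.1 p.2)
  have h1 : W2 r C K ⊆ A1 ∪ A2 := by
    intro p hp
    obtain ⟨x1, t | t⟩ := mem_filter.1 hp
    · exact mem_union_left _ (by simp only [A1, mem_filter]; exact ⟨x1, t⟩)
    · exact mem_union_right _ (mem_filter.2 ⟨x1, t⟩)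
  have h2 := (card_le_card h1).trans (card_union_le _ _)
  have h3 : C * A2.card ≤ ∑ X ∈ Vr α r, ∑ a : α, bet5 r K X a := by
    rw [← sum_product' (f := fun X a => bet5 r K X a)]
    exact markov _ _ (fun p : Finset α × α => bet5 r K p.1 p.2) _ fun p hp => mem_filter.1 hp
  have h4 : A1.card ≤ (W0 K).card * Fintype.card α ^ 2 := by
    refine card_le_mul _ _ (fun Z => (univ : Finset (α × α)).image
      (fun q => (tg (tg Z q.1) q.2, q.2))) _ (fun p hp => ?_) fun Z _ => ?_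
    · simp only [A1, mem_filter] at hp
      obtain ⟨-, Z, z1, z2⟩ := hp
      obtain ⟨b, hb⟩ := exists_tg_of_mem_ln z1
      refine ⟨Z, z2, mem_image.2 ⟨(b, p.2), mem_univ _, ?_⟩⟩
      rw [← hb]
      simp [tg]
    · exact card_image_le.trans (by simp [sq])
  calc C * (W2 r C K).card ≤ C * (A1.card + A2.card) := Nat.mul_le_mul_left _ h2
    _ = C * A1.card + C * A2.card := by ring
    _ ≤ _ := by gcongr

end points

section sites

variable {T ι : Type} [Fintype T] [DecidableEq T] [Fintype ι] [DecidableEq ι]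

omit [Fintype T] [DecidableEq T] in
theorem card_pt {α : Type*} [DecidableEq α] {r ρ : ℕ} {σ : Finset α × (T → α)} (h : Site r ρ σ)
    {B : Finset T} (hB : B.card = ρ) : (pt σ B).card = r := by
  obtain ⟨h1, h2, h3⟩ := h
  rw [pt, card_union_of_disjoint, card_image_of_injective _ h1, hB, h3]
  refine disjoint_right.2 fun x hx => ?_
  obtain ⟨t, -, rfl⟩ := mem_image.1 hx
  exact h2 t

omit [Fintype T] [Fintype ι] [DecidableEq ι] in
theorem peel_weak {H : ι → Finset T} {B : Finset T} {I : Finset ι} {F : Finset T}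
    (h : Peel H B I F) : Peel H B I ∅ := by
  obtain ⟨e, ord, h⟩ := h
  exact ⟨e, ord, fun i hi => ⟨(h i hi).1, notMem_empty _, (h i hi).2.2⟩⟩

variable (hM : MargStmt) (P : Pat T ι) {n r : ℕ} {U : Finset (Finset (Fin n))}
include hM

theorem marg0 (hn : 0 < n) (hU : U ∈ SS (Fin n) r) {B : Finset T} {I : Finset ι}
    (hB : B.card = P.ρ) (hP : Peel P.H B I ∅) (W : Finset (Finset (Fin n))) :
    ((sites r P U).filter (fun σ => pt σ B ∈ W)).card * n ^ I.card ≤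
      W.card * n ^ Fintype.card T := by
  refine card_mul_le _ W _ _ _ (fun σ hσ => ?_)
    fun X _ => hM T ι P n r U hU B I ∅ hB hP X (fun _ => ⟨0, hn⟩)
  obtain ⟨h1, h2⟩ := mem_filter.1 hσ
  exact ⟨_, h2, mem_filter.2 ⟨h1, rfl, fun t ht => absurd ht (notMem_empty t)⟩⟩

theorem marg1 (hU : U ∈ SS (Fin n) r) {B : Finset T} {I : Finset ι} {t : T}
    (hB : B.card = P.ρ) (hP : Peel P.H B I {t}) (W : Finset (Finset (Fin n) × Fin n)) :
    ((sites r P U).filter (fun σ => (pt σ B, σ.2 t) ∈ W)).card * n ^ (I.card + 1) ≤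
      W.card * n ^ Fintype.card T := by
  refine card_mul_le _ W _ _ _ (fun σ hσ => ?_)
    fun p _ => hM T ι P n r U hU B I {t} hB hP p.1 (fun _ => p.2)
  obtain ⟨h1, h2⟩ := mem_filter.1 hσ
  exact ⟨_, h2, mem_filter.2 ⟨h1, rfl, fun s hs => by rw [mem_singleton.1 hs]⟩⟩

theorem card_bad (hn : 0 < n) {K : Finset (Finset (Fin n))} (hK : K ∈ MM (Fin n) r) (C j : ℕ) :
    ((sites r P (UU K)).filter (fun σ => ¬ Good r P C j K σ)).card * n ^ (Fintype.card ι + 1) ≤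
      (2 ^ Fintype.card T * ((W0 K).card * n ^ 2) + 2 * ((W1 r C j (6 * P.ρ + 4) K).card * n) +
        Fintype.card T * (W2 r C K).card) * n ^ Fintype.card T := by
  have hU := UU_mem_SS hK
  set S := sites r P (UU K) with hS
  set A0 := S.filter (fun σ => ∃ B : Finset T, B.card = P.ρ ∧ pt σ B ∈ W0 K)
  set A1 := S.filter (fun σ => pt σ P.X1 ∈ W1 r C j (6 * P.ρ + 4) K)
  set A2 := S.filter (fun σ => pt σ P.X2 ∈ W1 r C j (6 * P.ρ + 4) K)
  set A3 := S.filter (fun σ => sd P.X1 P.X2 = 4 ∧ ∃ t ∈ P.X1 ∆ P.X2, (pt σ P.X2, σ.2 t) ∈ W2 r C K)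
  have hs : ∀ σ ∈ S, Site r P.ρ σ ∧ ∀ i, pt σ (P.H i) ∈ UU K := fun σ hσ => by
    simpa [hS, sites] using hσ
  have h1 : S.filter (fun σ => ¬ Good r P C j K σ) ⊆ A0 ∪ A1 ∪ A2 ∪ A3 := by
    intro σ hσ
    obtain ⟨s1, s2⟩ := mem_filter.1 hσ
    by_contra hc
    simp only [mem_union, not_or, A0, A1, A2, A3, mem_filter, s1, true_and] at hc
    obtain ⟨⟨⟨c0, c1⟩, c2⟩, c3⟩ := hc
    have v1 := mem_Vr.2 (card_pt (hs σ s1).1 P.c1)
    have v2 := mem_Vr.2 (card_pt (hs σ s1).1 P.c2)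
    have g0 : ∀ B : Finset T, B.card = P.ρ → pt σ B ∈ K → pt σ B ∈ UU K := fun B hB hBK => by
      by_contra t
      exact c0 ⟨B, hB, mem_sdiff.2 ⟨hBK, t⟩⟩
    simp only [W1, mem_filter, v1, v2, true_and, not_or, not_not, not_and, not_lt,
      not_exists] at c1 c2
    have n1 : pt σ P.X1 ∉ K := fun t => c1.1 (g0 _ P.c1 t)
    have n2 : pt σ P.X2 ∉ K := fun t => c2.1 (g0 _ P.c2 t)
    refine s2 ⟨g0, n1, n2, c1.2.1, c2.2.1, c1.2.2.1 n1 c1.2.1, c2.2.2.1 n2 c2.2.1, c1.2.2.2.1,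
      c2.2.2.2.1, fun e t ht => ?_, c1.2.2.2.2⟩
    have c4 : (pt σ P.X2, σ.2 t) ∉ W2 r C K := fun u => c3 ⟨e, t, ht, u⟩
    simp only [W2, mem_filter, mem_product, v2, mem_univ, true_and, not_or, not_lt, not_exists,
      not_and, W0, mem_sdiff, not_not] at c4
    exact c4
  have h2 : (S.filter (fun σ => ¬ Good r P C j K σ)).card ≤
      A0.card + A1.card + A2.card + A3.card := by
    have e1 := card_le_card h1
    have e2 := card_union_le (A0 ∪ A1 ∪ A2) A3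
    have e3 := card_union_le (A0 ∪ A1) A2
    have e4 := card_union_le A0 A1
    omega
  have b0 : A0.card * n ^ (Fintype.card ι + 1) ≤
      2 ^ Fintype.card T * ((W0 K).card * n ^ 2 * n ^ Fintype.card T) := by
    refine (card_mul_le A0 (univ.filter (fun B : Finset T => B.card = P.ρ ∧ ∀ i, B ≠ P.H i))
      (fun B => S.filter (fun σ => pt σ B ∈ W0 K)) _
      ((W0 K).card * n ^ 2 * n ^ Fintype.card T) (fun σ hσ => ?_) fun B hB => ?_).trans
      (Nat.mul_le_mul_right _ ?_)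
    · obtain ⟨s1, B, hB, s2⟩ := mem_filter.1 hσ
      refine ⟨B, mem_filter.2 ⟨mem_univ _, hB, fun i e => ?_⟩, mem_filter.2 ⟨s1, s2⟩⟩
      exact (mem_sdiff.1 s2).2 (e ▸ (hs σ s1).2 i)
    · obtain ⟨-, c1, c2⟩ := mem_filter.1 hB
      obtain ⟨i, hi⟩ := P.p4 B c1 c2
      have e1 := marg0 hM P hn hU c1 hi (W0 K)
      have e2 : (univ.erase i).card + 2 = Fintype.card ι + 1 := by
        rw [← card_univ, ← card_erase_add_one (mem_univ i)]
      rw [← e2, pow_add, ← mul_assoc]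
      calc _ ≤ (W0 K).card * n ^ Fintype.card T * n ^ 2 := Nat.mul_le_mul_right _ e1
        _ = _ := by ring
    · simpa using card_le_univ (univ.filter (fun B : Finset T => B.card = P.ρ ∧ ∀ i, B ≠ P.H i))
  have b1 : A1.card * n ^ (Fintype.card ι + 1) ≤
      (W1 r C j (6 * P.ρ + 4) K).card * n * n ^ Fintype.card T := by
    have e1 := marg0 hM P hn hU P.c1 P.p1 (W1 r C j (6 * P.ρ + 4) K)
    rw [card_univ] at e1
    rw [pow_succ, ← mul_assoc, mul_right_comm _ n]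
    exact Nat.mul_le_mul_right _ e1
  have b2 : A2.card * n ^ (Fintype.card ι + 1) ≤
      (W1 r C j (6 * P.ρ + 4) K).card * n * n ^ Fintype.card T := by
    obtain ⟨t, -, ht⟩ := P.p2
    have e1 := marg0 hM P hn hU P.c2 (peel_weak ht) (W1 r C j (6 * P.ρ + 4) K)
    rw [card_univ] at e1
    rw [pow_succ, ← mul_assoc, mul_right_comm _ n]
    exact Nat.mul_le_mul_right _ e1
  have b3 : A3.card * n ^ (Fintype.card ι + 1) ≤
      Fintype.card T * ((W2 r C K).card * n ^ Fintype.card T) := by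
    refine (card_mul_le A3 (univ.filter (fun t : T => Peel P.H P.X2 univ {t}))
      (fun t => S.filter (fun σ => (pt σ P.X2, σ.2 t) ∈ W2 r C K)) _
      ((W2 r C K).card * n ^ Fintype.card T) (fun σ hσ => ?_) fun t ht => ?_).trans
      (Nat.mul_le_mul_right _ (card_le_univ _))
    · obtain ⟨s1, e, t, ht, s2⟩ := mem_filter.1 hσ
      exact ⟨t, mem_filter.2 ⟨mem_univ _, P.p3 e t ht⟩, mem_filter.2 ⟨s1, s2⟩⟩
    · have e1 := marg1 hM P hU P.c2 (mem_filter.1 ht).2 (W2 r C K)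
      rwa [card_univ] at e1
  calc _ ≤ (A0.card + A1.card + A2.card + A3.card) * n ^ (Fintype.card ι + 1) :=
        Nat.mul_le_mul_right _ h2
    _ = A0.card * n ^ (Fintype.card ι + 1) + A1.card * n ^ (Fintype.card ι + 1) +
        A2.card * n ^ (Fintype.card ι + 1) + A3.card * n ^ (Fintype.card ι + 1) := by ring
    _ ≤ _ := (add_le_add (add_le_add (add_le_add b0 b1) b2) b3).trans (le_of_eq (by ring))

end sites

end Pool.Agent.MP_c3fbfc_co.V.G.Fn

end MrgPart4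

section MrgPart5

/-! FIN: almost all matroids of rank `r` in the window contain the pattern. -/

namespace Pool.Agent.MP_c3fbfc_co.V.G

open Finset Filter
open scoped symmDiff Classical

namespace Fn

theorem central_sq (m : ℕ) : 16 ^ m ≤ (4 * m + 1) * m.centralBinom ^ 2 := by
  induction m with
  | zero => simp
  | succ m ih =>
    have h := Nat.succ_mul_centralBinom_succ m
    refine Nat.le_of_mul_le_mul_left (c := (m + 1) ^ 2) ?_ (by positivity)
    calc (m + 1) ^ 2 * 16 ^ (m + 1) = 16 * (m + 1) ^ 2 * 16 ^ m := by ring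
      _ ≤ 16 * (m + 1) ^ 2 * ((4 * m + 1) * m.centralBinom ^ 2) := Nat.mul_le_mul_left _ ih
      _ = (16 * (m + 1) ^ 2 * (4 * m + 1)) * m.centralBinom ^ 2 := by ring
      _ ≤ ((4 * m + 5) * (2 * (2 * m + 1)) ^ 2) * m.centralBinom ^ 2 :=
          Nat.mul_le_mul_right _ (by nlinarith)
      _ = (4 * m + 5) * ((m + 1) * (m + 1).centralBinom) ^ 2 := by rw [h]; ring
      _ = _ := by ring

theorem four_pow_sq {n r : ℕ} (h : r ≤ n) :
    (4 ^ min r (n - r)) ^ 2 ≤ (2 * n + 1) * n.choose r ^ 2 := by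
  have h1 : (min r (n - r)).centralBinom ≤ n.choose r := by
    rw [Nat.centralBinom_eq_two_mul_choose]
    rcases le_total r (n - r) with t | t
    · rw [min_eq_left t]; exact Nat.choose_le_choose _ (by omega)
    · rw [min_eq_right t, ← Nat.choose_symm h]; exact Nat.choose_le_choose _ (by omega)
  calc (4 ^ min r (n - r)) ^ 2 = 16 ^ min r (n - r) := by rw [← pow_mul, mul_comm, pow_mul]; rfl
    _ ≤ _ := (central_sq _).trans (Nat.mul_le_mul (by omega) (Nat.pow_le_pow_left h1 2))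

theorem ev_four (D : ℕ) {ε : ℝ} (hε : 0 < ε) : ∀ᶠ n : ℕ in atTop, ∀ r ≤ n,
    (D : ℝ) * 4 ^ min r (n - r) ≤ ε * n * n.choose r := by
  filter_upwards [tendsto_natCast_atTop_atTop.eventually_ge_atTop (3 * (D : ℝ) ^ 2 / ε ^ 2),
    eventually_ge_atTop 1] with n h1 h2 r hr
  have h3 : ((4 : ℝ) ^ min r (n - r)) ^ 2 ≤ (2 * n + 1) * (n.choose r : ℝ) ^ 2 := by
    exact_mod_cast four_pow_sq hr
  have h4 : (1 : ℝ) ≤ n := by exact_mod_cast h2
  rw [div_le_iff₀ (by positivity)] at h1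
  refine le_of_pow_le_pow_left₀ (n := 2) (by norm_num) (by positivity) ?_
  calc ((D : ℝ) * 4 ^ min r (n - r)) ^ 2 = (D : ℝ) ^ 2 * (4 ^ min r (n - r)) ^ 2 := by ring
    _ ≤ (D : ℝ) ^ 2 * ((3 * n) * (n.choose r : ℝ) ^ 2) := by
        refine mul_le_mul_of_nonneg_left (h3.trans ?_) (by positivity)
        exact mul_le_mul_of_nonneg_right (by linarith) (by positivity)
    _ = (3 * (D : ℝ) ^ 2) * (n * (n.choose r : ℝ) ^ 2) := by ring
    _ ≤ (n * ε ^ 2) * (n * (n.choose r : ℝ) ^ 2) := mul_le_mul_of_nonneg_right h1 (by positivity)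
    _ = _ := by ring

theorem small_subsets {β : Type*} (Y : Finset β) (q : ℕ) :
    ((Y.powerset.filter (fun S => S.card ≤ q)).card : ℝ) ≤ 8 ^ q * (9 / 8) ^ Y.card := by
  have h := sum_pow_mul_eq_add_pow (1 / 8 : ℝ) 1 Y
  simp only [one_pow, mul_one] at h
  rw [show (9 / 8 : ℝ) = 1 / 8 + 1 by norm_num, ← h, mul_sum, card_filter, Nat.cast_sum]
  refine sum_le_sum fun S _ => ?_
  split_ifs with t
  · obtain ⟨d, rfl⟩ := Nat.exists_eq_add_of_le t
    rw [pow_add, mul_right_comm, ← mul_pow]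
    simpa using one_le_pow₀ (n := d) (show (1 : ℝ) ≤ 8 by norm_num)
  · simp

theorem ev_low (D k : ℕ) {ε : ℝ} (hε : 0 < ε) : ∀ᶠ n : ℕ in atTop, ∀ r, Win n r →
    ((n : ℝ) + 1) ^ D * 2 ^ min r (n - r) *
      (((range (min r (n - r) + D)).powerset.filter (fun S => S.card ≤ n / 20 + D)).card : ℝ) *
      n ^ k ≤ ε * n.choose r := by
  filter_upwards [ev_exp (24 * 9 ^ D * 2 ^ (D + 1) / ε) (D + 1 + k), eventually_ge_atTop 1]
    with n h1 h2 r hr
  set μ := min r (n - r) with hμ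
  have h4 : (1 : ℝ) ≤ n := by exact_mod_cast h2
  have h5 := small_subsets (range (μ + D)) (n / 20 + D)
  rw [card_range] at h5
  have h6 : (8 : ℝ) ^ (n / 20) ≤ (5 / 4) ^ n :=
    calc (8 : ℝ) ^ (n / 20) ≤ ((5 / 4) ^ 20) ^ (n / 20) := by gcongr; norm_num
      _ ≤ _ := by rw [← pow_mul]; exact pow_le_pow_right₀ (by norm_num) (by omega)
  have h7 : (2 : ℝ) ^ μ * (9 / 8) ^ μ ≤ (3 / 2) ^ n :=
    calc (2 : ℝ) ^ μ * (9 / 8) ^ μ = (3 / 2) ^ (2 * μ) := by rw [← mul_pow, pow_mul]; norm_num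
      _ ≤ _ := pow_le_pow_right₀ (by norm_num) (by omega)
  have h8 : (5 / 4 : ℝ) ^ n * (3 / 2) ^ n ≤ (19 / 10) ^ n := by
    rw [← mul_pow]; gcongr; norm_num
  have h9 : (2 : ℝ) ^ n ≤ (n + 1) * (24 * n.choose r) := (two_pow_le_middle n).trans (by
    have : (n.choose (n / 2) : ℝ) ≤ 24 * n.choose r := by exact_mod_cast hr.2.2
    gcongr)
  have h10 : ((n : ℝ) + 1) ^ (D + 1) ≤ 2 ^ (D + 1) * n ^ (D + 1) := by
    rw [← mul_pow]; gcongr; linarith
  have h11 : (8 : ℝ) ^ D * (9 / 8) ^ D = 9 ^ D := by rw [← mul_pow]; norm_num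
  refine le_of_mul_le_mul_left (a := 24 * ((n : ℝ) + 1)) ?_ (by positivity)
  calc 24 * ((n : ℝ) + 1) * (((n : ℝ) + 1) ^ D * 2 ^ μ *
        (((range (μ + D)).powerset.filter (fun S => S.card ≤ n / 20 + D)).card : ℝ) * n ^ k)
      ≤ 24 * ((n : ℝ) + 1) * (((n : ℝ) + 1) ^ D * 2 ^ μ *
        (8 ^ (n / 20 + D) * (9 / 8) ^ (μ + D)) * n ^ k) := by gcongr
    _ = 24 * ((n : ℝ) + 1) ^ (D + 1) * n ^ k * (8 ^ D * (9 / 8) ^ D) *
        (8 ^ (n / 20) * (2 ^ μ * (9 / 8) ^ μ)) := by ring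
    _ ≤ 24 * (2 ^ (D + 1) * (n : ℝ) ^ (D + 1)) * n ^ k * 9 ^ D * (19 / 10) ^ n := by
        rw [h11]
        have : (8 : ℝ) ^ (n / 20) * (2 ^ μ * (9 / 8) ^ μ) ≤ (19 / 10) ^ n :=
          le_trans (by gcongr) h8
        gcongr
    _ = ε * (24 * 9 ^ D * 2 ^ (D + 1) / ε * (n : ℝ) ^ (D + 1 + k) * (19 / 10) ^ n) := by
        field_simp; ring
    _ ≤ ε * ((n + 1) * (24 * n.choose r)) := mul_le_mul_of_nonneg_left (h1.trans h9) hε.le
    _ = _ := by ring

theorem ev_dl (R : ℕ) {ε : ℝ} (hε : 0 < ε) :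
    ∀ᶠ n : ℕ in atTop, ((n : ℝ) + 1) ^ R ≤ ε * 2 ^ (n / 20) := by
  have ht : Tendsto (fun n : ℕ => n / 20) atTop atTop := Nat.tendsto_div_const_atTop (by norm_num)
  filter_upwards [ht.eventually (ev_exp (40 ^ R / ε) R), eventually_ge_atTop 20] with n h1 h2
  have h3 : (n : ℝ) + 1 ≤ 40 * ((n / 20 : ℕ) : ℝ) := by exact_mod_cast (by omega)
  have h4 : (1 : ℝ) ≤ (19 / 10) ^ (n / 20) := one_le_pow₀ (by norm_num)
  calc ((n : ℝ) + 1) ^ R ≤ (40 * ((n / 20 : ℕ) : ℝ)) ^ R * 1 := by rw [mul_one]; gcongr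
    _ ≤ (40 * ((n / 20 : ℕ) : ℝ)) ^ R * (19 / 10) ^ (n / 20) := by gcongr
    _ = ε * (40 ^ R / ε * ((n / 20 : ℕ) : ℝ) ^ R * (19 / 10) ^ (n / 20)) := by
        rw [mul_pow]; field_simp
    _ ≤ _ := by gcongr

variable {T ι : Type} [Fintype T] [DecidableEq T] [Fintype ι] [DecidableEq ι]

theorem bad_one (hM : MargStmt) (P : Pat T ι) {n r : ℕ} (hn : 0 < n) (h1 : n ≤ 3 * r)
    (h2 : 3 * r ≤ 2 * n) {K : Finset (Finset (Fin n))} (hK : K ∈ MM (Fin n) r)
    (hW : n ^ 3 * (WB r K).card ≤ n.choose r) (C j : ℕ) :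
    C * (((sites r P (UU K)).filter (fun σ => ¬ Good r P C j K σ)).card *
      n ^ (Fintype.card ι + 1)) ≤
      (C * (2 ^ Fintype.card T + Fintype.card T + 10) * n.choose r +
        (C * (2 ^ Fintype.card T + Fintype.card T) + 2 * n) * ((SLs r K).card * n ^ 3) +
        C * (2 ^ Fintype.card T + Fintype.card T + 2) * ((RA r K).card * n ^ 4) +
        2 * C * n * (n + 1) ^ (6 * P.ρ + 4) * ((UU K).filter (fun A => DL r K A j)).card +
        2 * n * ∑ X ∈ (Vr (Fin n) r).filter (fun X => X ∉ K ∧ OK r K X), bet r K X +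
        Fintype.card T * ∑ X ∈ Vr (Fin n) r, ∑ a : Fin n, bet5 r K X a) * n ^ Fintype.card T := by
  have a0 := card_bad hM P hn hK C j
  have a1 := card_W0 hK
  have a2 := card_W1 hK C j (6 * P.ρ + 4)
  have a3 := card_W2 (r := r) (K := K) C
  have a4 := Stb.card_le (α := Fin n) (by simpa using h1) (by simpa using h2)
    ((UU_subset K).trans (sub_of_MM hK)) (stb_UU K)
  simp only [Fintype.card_fin] at a1 a2 a3 a4
  generalize (W0 K).card = a at *
  generalize (W1 r C j (6 * P.ρ + 4) K).card = w1 at *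
  generalize (W2 r C K).card = w2 at *
  generalize ((UU K).filter (fun A => DL r K A j)).card = d at *
  generalize (UU K).card = u at *
  generalize (WB r K).card = b at *
  generalize (SLs r K).card = s at *
  generalize (RA r K).card = t at *
  generalize ∑ X ∈ (Vr (Fin n) r).filter (fun X => X ∉ K ∧ OK r K X), bet r K X = β at *
  generalize ∑ X ∈ Vr (Fin n) r, ∑ a : Fin n, bet5 r K X a = γ at *
  generalize n.choose r = N at *
  generalize (n + 1) ^ (6 * P.ρ + 4) = L at *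
  generalize Fintype.card T = v at *
  have a5 : a * n ^ 2 ≤ N + s * n ^ 3 + t * n ^ 4 := by
    have e1 : n ^ 2 ≤ n ^ 3 := Nat.pow_le_pow_right hn (by norm_num)
    have e2 : n ^ 3 ≤ n ^ 4 := Nat.pow_le_pow_right hn (by norm_num)
    calc a * n ^ 2 ≤ (b + s * n + t * n) * n ^ 2 := Nat.mul_le_mul_right _ a1
      _ = n ^ 2 * b + s * n ^ 3 + t * n ^ 3 := by ring
      _ ≤ n ^ 3 * b + s * n ^ 3 + t * n ^ 4 := by gcongr
      _ ≤ _ := by gcongr
  have a6 : C * (w1 * n) ≤ C * (5 * N + t * n ^ 4 + d * L * n) + β * n + s * n ^ 3 * n :=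
    calc C * (w1 * n) = C * w1 * n := by ring
      _ ≤ (C * (u + (b + t * n) * n ^ 2 + d * L) + β + s * n ^ 3) * n := Nat.mul_le_mul_right _ a2
      _ = C * (n * u + n ^ 3 * b + t * n ^ 4 + d * L * n) + β * n + s * n ^ 3 * n := by ring
      _ ≤ C * (4 * N + N + t * n ^ 4 + d * L * n) + β * n + s * n ^ 3 * n := by gcongr
      _ = _ := by ring
  refine (Nat.mul_le_mul_left C a0).trans ?_
  rw [← mul_assoc]
  refine Nat.mul_le_mul_right _ ?_
  calc C * (2 ^ v * (a * n ^ 2) + 2 * (w1 * n) + v * w2)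
      = C * 2 ^ v * (a * n ^ 2) + 2 * (C * (w1 * n)) + v * (C * w2) := by ring
    _ ≤ C * 2 ^ v * (N + s * n ^ 3 + t * n ^ 4) +
        2 * (C * (5 * N + t * n ^ 4 + d * L * n) + β * n + s * n ^ 3 * n) +
        v * (C * (N + s * n ^ 3 + t * n ^ 4) + γ) := by
        have := a3.trans (Nat.add_le_add_right (Nat.mul_le_mul_left C a5) γ)
        gcongr
    _ = _ := by ring

theorem bad_small (hR : RichStmt) (hA : ClaStmt) (hM : MargStmt) (hE : ExpStmt) (P : Pat T ι)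
    {ε : ℝ} (hε : 0 < ε) : ∃ C : ℕ, ∀ᶠ n : ℕ in atTop, ∀ r, n ≤ 3 * r → 3 * r ≤ 2 * n →
      ∀ 𝒯 ⊆ MM (Fin n) r, (∀ K ∈ 𝒯, GLn r K ∧ n ^ 3 * (WB r K).card ≤ n.choose r) →
      (∑ K ∈ 𝒯, (((sites r P (UU K)).filter (fun σ => ¬ Good r P C (n / 20) K σ)).card : ℝ)) *
        n ^ Fintype.card ι ≤
        3 * ε * (n ^ Fintype.card T * n.choose r * (MM (Fin n) r).card) := by
  obtain ⟨CR, r0, hR⟩ := hR
  obtain ⟨CA, a0, hA⟩ := hA
  obtain ⟨CE, e0, hE⟩ := hE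
  set v := Fintype.card T with hv
  obtain ⟨C, hC⟩ := exists_nat_gt ((2 * CR + 2 * CE + v * CE) / ε)
  have C0 : (0 : ℝ) < C := lt_trans (by positivity) hC
  rw [div_lt_iff₀ hε] at hC
  refine ⟨C, ?_⟩
  filter_upwards [eventually_ge_atTop 24, ev_dl (6 * P.ρ + 4) (half_pos hε),
    tendsto_natCast_atTop_atTop.eventually_ge_atTop
      (((2 ^ v + v + 10) + (2 ^ v + v) * CR + (2 ^ v + v + 2) * CA) / ε)]
    with n n24 hdl hΛ r h1 h2 𝒯 hT hT'
  rw [div_le_iff₀ hε] at hΛ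
  have n0 : (0 : ℝ) < n := by exact_mod_cast (by omega : 0 < n)
  obtain ⟨-, -, -, b1, b2, -⟩ := hR n r n24 h1 h2
  have b3 := hA n r n24 h1 h2
  obtain ⟨b4, b5⟩ := hE n r n24 h1 h2
  replace b2 := b2 (n / 20)
  set N : ℝ := (n.choose r : ℝ) with hN
  set M : ℝ := ((MM (Fin n) r).card : ℝ) with hM'
  have N0 : 0 ≤ N := Nat.cast_nonneg _
  have M0 : 0 ≤ M := Nat.cast_nonneg _
  have mono : ∀ f : Finset (Finset (Fin n)) → ℝ, (∀ K, 0 ≤ f K) →
      ∑ K ∈ 𝒯, f K ≤ ∑ K ∈ MM (Fin n) r, f K := fun f hf =>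
    sum_le_sum_of_subset_of_nonneg hT fun K _ _ => hf K
  have c0 : (𝒯.card : ℝ) ≤ M := by rw [hM']; exact_mod_cast card_le_card hT
  have c1 : ∑ K ∈ 𝒯, ((SLs r K).card : ℝ) * n ^ 3 ≤ CR * N * M := by
    rw [← sum_mul]
    exact (mul_le_mul_of_nonneg_right (mono _ fun K => Nat.cast_nonneg _) (by positivity)).trans b1
  have c3 : ∑ K ∈ 𝒯, ((RA r K).card : ℝ) * n ^ 4 ≤ CA * N * M := by
    rw [← sum_mul]
    exact (mul_le_mul_of_nonneg_right (mono _ fun K => Nat.cast_nonneg _) (by positivity)).trans b3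
  have c2 : ((n : ℝ) + 1) ^ (6 * P.ρ + 4) *
      ∑ K ∈ 𝒯, (((UU K).filter (fun A => DL r K A (n / 20))).card : ℝ) ≤ ε / 2 * (N * M) :=
    calc _ ≤ ε / 2 * 2 ^ (n / 20) *
          ∑ K ∈ MM (Fin n) r, (((UU K).filter (fun A => DL r K A (n / 20))).card : ℝ) :=
          mul_le_mul hdl (mono _ fun K => Nat.cast_nonneg _)
            (sum_nonneg fun _ _ => Nat.cast_nonneg _) (by positivity)
      _ ≤ _ := by
          rw [mul_assoc, mul_comm ((2 : ℝ) ^ (n / 20))]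
          exact mul_le_mul_of_nonneg_left b2 (by positivity)
  have c4 : ∑ K ∈ 𝒯, ∑ X ∈ (Vr (Fin n) r).filter (fun X => X ∉ K ∧ OK r K X), (bet r K X : ℝ) ≤
      CE * N * M :=
    (sum_le_sum_of_subset_of_nonneg (fun K hK => mem_filter.2 ⟨hT hK, (hT' K hK).1⟩)
      fun K _ _ => sum_nonneg fun _ _ => Nat.cast_nonneg _).trans b4
  have c5 : ∑ K ∈ 𝒯, ∑ X ∈ Vr (Fin n) r, ∑ a : Fin n, (bet5 r K X a : ℝ) ≤ CE * n * N * M :=
    (mono _ fun K => sum_nonneg fun _ _ => sum_nonneg fun _ _ => Nat.cast_nonneg _).trans b5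
  have d1 : ∀ K ∈ 𝒯, (C : ℝ) * (((sites r P (UU K)).filter
      (fun σ => ¬ Good r P C (n / 20) K σ)).card * (n : ℝ) ^ (Fintype.card ι + 1)) ≤
      (C * (2 ^ v + v + 10) * N + (C * (2 ^ v + v) + 2 * n) * ((SLs r K).card * (n : ℝ) ^ 3) +
        C * (2 ^ v + v + 2) * ((RA r K).card * (n : ℝ) ^ 4) +
        2 * C * n * (n + 1) ^ (6 * P.ρ + 4) * ((UU K).filter (fun A => DL r K A (n / 20))).card +
        2 * n * ∑ X ∈ (Vr (Fin n) r).filter (fun X => X ∉ K ∧ OK r K X), (bet r K X : ℝ) +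
        v * ∑ X ∈ Vr (Fin n) r, ∑ a : Fin n, (bet5 r K X a : ℝ)) * (n : ℝ) ^ v := fun K hK => by
    rw [hN]
    exact_mod_cast bad_one hM P (by omega) h1 h2 (hT hK) (hT' K hK).2 C (n / 20)
  have d2 := sum_le_sum d1
  rw [← mul_sum, ← sum_mul, ← sum_mul] at d2
  simp only [sum_add_distrib, ← mul_sum, sum_const, nsmul_eq_mul] at d2
  refine le_of_mul_le_mul_left (a := (C : ℝ) * n) ?_ (by positivity)
  refine (le_of_eq (by ring)).trans (d2.trans ?_)
  calc _ ≤ (C * (2 ^ v + v + 10) * (M * N) + (C * (2 ^ v + v) + 2 * n) * (CR * N * M) +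
        C * (2 ^ v + v + 2) * (CA * N * M) + 2 * C * n * (ε / 2 * (N * M)) +
        2 * n * (CE * N * M) + v * (CE * n * N * M)) * (n : ℝ) ^ v := by
        rw [mul_assoc (2 * C * n : ℝ)]
        gcongr
    _ = (C * ((2 ^ v + v + 10) + (2 ^ v + v) * CR + (2 ^ v + v + 2) * CA) + C * n * ε +
        n * (2 * CR + 2 * CE + v * CE)) * (n ^ v * N * M) := by ring
    _ ≤ (C * (n * ε) + C * n * ε + n * (C * ε)) * (n ^ v * N * M) := by gcongr
    _ = _ := by ring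

end Fn

open Fn in
theorem fin (hR : RichStmt) (hA : ClaStmt) (hT : TypStmt) (hM : MargStmt)
    (hE : ExpStmt) (hP : PlantStmt) : FinStmt := by
  intro T ι _ _ _ _ P hS η hη
  obtain ⟨c, c0, hT⟩ := hT
  obtain ⟨c', c1, hS⟩ := hS c c0
  have hε : 0 < η * c' / 10 := by positivity
  obtain ⟨C, hC⟩ := bad_small hR hA hM hE P hε
  obtain ⟨D, hD⟩ := hP T ι P C
  filter_upwards [hT, hS, hC, ev_four D hε, ev_low D (Fintype.card ι) hε, eventually_ge_atTop 24,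
    tendsto_natCast_atTop_atTop.eventually_ge_atTop (2 / η)] with n t1 t2 t3 t4 t5 n24 t6 r hr
  obtain ⟨h1, h2, -⟩ := id hr
  have rn : r ≤ n := by omega
  have n0 : (0 : ℝ) < n := by exact_mod_cast (by omega : 0 < n)
  have n1 : (1 : ℝ) ≤ n := by exact_mod_cast (by omega : 1 ≤ n)
  replace t1 := t1 r hr
  replace t2 := t2 r h1 h2
  replace t4 := t4 r rn
  replace t5 := t5 r hr
  replace hD := hD n r (n / 20) n24 h1 h2
  set NO := (MM (Fin n) r).filter (fun K => ¬ Occ r P.ρ P.fam K) with hNO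
  set 𝒯 := NO.filter (fun K => GLn r K ∧ n ^ 3 * (WB r K).card ≤ n.choose r ∧
    c * n.choose r / n ≤ (UU K).card) with h𝒯
  have s1 : 𝒯 ⊆ NO := filter_subset _ _
  have s2 : 𝒯 ⊆ MM (Fin n) r := s1.trans (filter_subset _ _)
  replace t3 := t3 r h1 h2 𝒯 s2 fun K hK => ⟨(mem_filter.1 hK).2.1, (mem_filter.1 hK).2.2.1⟩
  have N0 : (0 : ℝ) < n.choose r := by exact_mod_cast Nat.choose_pos rn
  set N : ℝ := (n.choose r : ℝ) with hN
  set M : ℝ := ((MM (Fin n) r).card : ℝ) with hM'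
  have M0 : 0 ≤ M := Nat.cast_nonneg _
  set v := Fintype.card T
  set k := Fintype.card ι
  set ε := η * c' / 10 with he
  have g1 : (∑ K ∈ 𝒯, (((sites r P (UU K)).filter (Good r P C (n / 20) K)).card : ℝ)) * n ^ k ≤
      2 * ε * (n ^ v * N * M) := by
    rw [card_sigma, Nat.cast_sum] at hD
    have e1 := (sum_le_sum_of_subset_of_nonneg s1 fun K _ _ => Nat.cast_nonneg _).trans hD
    refine (mul_le_mul_of_nonneg_right e1 (by positivity)).trans ?_
    have e2 : (1 : ℝ) ≤ n ^ v := one_le_pow₀ n1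
    have e3 : (D : ℝ) * 4 ^ min r (n - r) * n ^ v / n ^ (k + 1) * n ^ k ≤ ε * (n ^ v * N) :=
      calc _ = (D : ℝ) * 4 ^ min r (n - r) * (n ^ v / n) := by rw [pow_succ]; field_simp
        _ ≤ ε * n * N * (n ^ v / n) := by gcongr
        _ = _ := by field_simp
    have e4 : ε * N ≤ ε * (n ^ v * N) := by
      gcongr; exact le_mul_of_one_le_left N0.le e2
    rw [mul_assoc, add_mul]
    refine (mul_le_mul_of_nonneg_left (add_le_add e3 (t5.trans e4)) M0).trans (le_of_eq ?_)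
    ring
  have g2 : ∀ K ∈ 𝒯, c' * N * n ^ v ≤
      (((sites r P (UU K)).filter (Good r P C (n / 20) K)).card : ℝ) * n ^ k +
      (((sites r P (UU K)).filter (fun σ => ¬ Good r P C (n / 20) K σ)).card : ℝ) * n ^ k := by
    intro K hK
    rw [← add_mul, ← Nat.cast_add, card_filter_add_card_filter_not]
    exact t2 _ (UU_mem_SS (s2 hK)) (mem_filter.1 hK).2.2.2
  have g3 := sum_le_sum g2
  rw [sum_const, nsmul_eq_mul, sum_add_distrib, ← sum_mul, ← sum_mul] at g3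
  have g4 : (𝒯.card : ℝ) ≤ η / 2 * M := by
    refine le_of_mul_le_mul_right (a := c' * N * n ^ v) ?_ (by positivity)
    refine (g3.trans (add_le_add g1 t3)).trans (le_of_eq ?_)
    rw [he]; ring
  set Bd := (MM (Fin n) r).filter (fun K => ¬ (GLn r K ∧ n ^ 3 * (WB r K).card ≤ n.choose r ∧
    c * N / n ≤ (UU K).card)) with hBd
  have g5 : (Bd.card : ℝ) ≤ η / 2 * M := by
    rw [div_le_iff₀ hη] at t6
    refine le_of_mul_le_mul_right (a := (n : ℝ)) (t1.trans ?_) n0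
    nlinarith
  have g6 : NO ⊆ 𝒯 ∪ Bd := fun K hK => by
    by_cases t : K ∈ 𝒯
    · exact mem_union_left _ t
    · exact mem_union_right _
        (mem_filter.2 ⟨(mem_filter.1 hK).1, fun u => t (mem_filter.2 ⟨hK, u⟩)⟩)
  have g7 : (NO.card : ℝ) ≤ 𝒯.card + Bd.card := by
    exact_mod_cast (card_le_card g6).trans (card_union_le _ _)
  linarith

end Pool.Agent.MP_c3fbfc_co.V.G

end MrgPart5

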