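import Pool.Agent.MP_c3fbfc_co.GSite

/-! Coloured families are patterns with many sites. -/

namespace Pool.Agent.MP_c3fbfc_co.V.G

open Finset
open scoped symmDiff

section peel

variable {T ι : Type} [DecidableEq T] [DecidableEq ι] {H : ι → Finset T} {B F : Finset T}

theorem peel_step {I : Finset ι} (h : Peel H B I F) {i : ι} (hi : i ∉ I) {x : T}
    (h1 : x ∈ H i ∆ B) (h2 : x ∉ F) (h3 : ∀ j ∈ I, x ∉ H j ∆ B) : Peel H B (insert i I) F := by
  obtain ⟨e, ord, h⟩ := h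
  refine ⟨Function.update e i x, fun j => if j = i then 0 else ord j + 1, fun l hl => ?_⟩
  rcases mem_insert.1 hl with rfl | hl
  · rw [Function.update_self]
    exact ⟨h1, h2, fun j hj ne t => absurd t (h3 j ((mem_insert.1 hj).resolve_left ne))⟩
  · have ne : l ≠ i := fun t => hi (t ▸ hl)
    rw [Function.update_of_ne ne]
    refine ⟨(h l hl).1, (h l hl).2.1, fun j hj n2 t => ?_⟩
    simp only [ne, if_false]
    split_ifs with u
    · omega
    · have := (h l hl).2.2 j ((mem_insert.1 hj).resolve_left u) n2 t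
      omega

/-- one member of `J` has a usable element -/
def Pv (H : ι → Finset T) (B F : Finset T) (J : Finset ι) : Prop :=
  ∃ i ∈ J, ∃ x ∈ H i ∆ B, x ∉ F ∧ ∀ j ∈ J, j ≠ i → x ∉ H j ∆ B

theorem peel_of (I : Finset ι) (h : ∀ J ⊆ I, J.Nonempty → Pv H B F J) [Nonempty T] :
    Peel H B I F := by
  induction I using Finset.strongInduction with
  | H I ih =>
    rcases I.eq_empty_or_nonempty with rfl | ne
    · exact ⟨fun _ => Classical.arbitrary T, fun _ => 0, fun i hi => absurd hi (notMem_empty i)⟩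
    obtain ⟨i, hi, x, h1, h2, h3⟩ := h I subset_rfl ne
    rw [← insert_erase hi]
    exact peel_step (ih _ (erase_ssubset hi) fun J hJ => h J (hJ.trans (erase_subset _ _)))
      (notMem_erase i I) h1 h2 fun j hj => h3 j (mem_of_mem_erase hj) (ne_of_mem_erase hj)

omit [DecidableEq ι] in
theorem pv_small (far : ∀ i j, i ≠ j → 4 ≤ sd (H i) (H j)) (hB : ∀ i, 2 ≤ sd (H i) B)
    (hF : F.card ≤ 1) {J : Finset ι} (ne : J.Nonempty) (hJ : J.card ≤ 2) : Pv H B F J := by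
  classical
  have out : ∀ S : Finset T, 2 ≤ S.card → ∃ x ∈ S, x ∉ F := fun S hS =>
    exists_mem_notMem_of_card_lt_card (by omega)
  rcases (show J.card = 1 ∨ J.card = 2 by have := card_pos.2 ne; omega) with t | t
  · obtain ⟨i, rfl⟩ := card_eq_one.1 t
    obtain ⟨x, a1, a2⟩ := out _ (hB i)
    exact ⟨i, mem_singleton_self i, x, a1, a2, fun j hj n => absurd (mem_singleton.1 hj) n⟩
  · obtain ⟨i, j, n, rfl⟩ := card_eq_two.1 t
    obtain ⟨x, a1, a2⟩ := out (H i ∆ H j) (le_trans (by norm_num) (far i j n))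
    by_cases u : x ∈ H i ∆ B
    · refine ⟨i, by simp, x, u, a2, fun l hl n' => ?_⟩
      obtain rfl : l = j := by simpa [n'] using hl
      simp only [mem_symmDiff] at a1 u ⊢
      tauto
    · refine ⟨j, by simp, x, ?_, a2, fun l hl n' => ?_⟩
      · simp only [mem_symmDiff] at a1 u ⊢
        tauto
      · obtain rfl : l = i := by simpa [n'] using hl
        exact u

/-- looseness of an indexed family -/
def LI (H : ι → Finset T) (S : Finset T) (k : ℕ) : Prop :=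
  ∀ J : Finset ι, k ≤ J.card → ∃ x, x ∉ S ∧ ∃ i ∈ J, x ∈ H i ∧ ∀ j ∈ J, x ∈ H j → j = i

omit [DecidableEq ι] in
theorem pv_big {S : Finset T} {k : ℕ} (h : LI H S k) (h1 : B ⊆ S) (h2 : F ⊆ S) {J : Finset ι}
    (hJ : k ≤ J.card) : Pv H B F J := by
  obtain ⟨x, a1, i, a2, a3, a4⟩ := h J hJ
  refine ⟨i, a2, x, mem_symmDiff.2 (Or.inl ⟨a3, fun t => a1 (h1 t)⟩), fun t => a1 (h2 t),
    fun j hj n t => ?_⟩
  rcases mem_symmDiff.1 t with t | t
  · exact n (a4 j hj t.1)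
  · exact a1 (h1 t.1)

theorem peel3 [Nonempty T] (far : ∀ i j, i ≠ j → 4 ≤ sd (H i) (H j)) (hB : ∀ i, 2 ≤ sd (H i) B)
    (hF : F.card ≤ 1) {S : Finset T} (h : LI H S 3) (h1 : B ⊆ S) (h2 : F ⊆ S) (I : Finset ι) :
    Peel H B I F :=
  peel_of I fun J _ ne => (le_or_gt J.card 2).elim (pv_small far hB hF ne) (pv_big h h1 h2)

theorem peel4 [Nonempty T] (far : ∀ i j, i ≠ j → 4 ≤ sd (H i) (H j)) (hB : ∀ i, 2 ≤ sd (H i) B)
    (h : LI H B 4) (I : Finset ι) (ne : I.Nonempty) : ∃ i ∈ I, Peel H B (I.erase i) ∅ := by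
  induction I using Finset.strongInduction with
  | H I ih =>
    rcases le_or_gt I.card 3 with t | t
    · obtain ⟨i, hi⟩ := ne
      refine ⟨i, hi, peel_of _ fun J hJ n => pv_small far hB (by simp) n ?_⟩
      have := card_le_card hJ
      have := card_erase_add_one hi
      omega
    · obtain ⟨i, hi, x, h1, h2, h3⟩ := pv_big (F := ∅) h subset_rfl (empty_subset _) t
      obtain ⟨l, hl, hp⟩ := ih _ (erase_ssubset hi) (card_pos.1 (by
        have := card_erase_add_one hi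
        omega))
      refine ⟨l, mem_of_mem_erase hl, ?_⟩
      rw [← insert_erase (mem_erase.2 ⟨(ne_of_mem_erase hl).symm, hi⟩), erase_right_comm]
      exact peel_step hp (fun u => notMem_erase i I (mem_of_mem_erase u)) h1 h2 fun j hj =>
        h3 j (mem_of_mem_erase (mem_of_mem_erase hj)) (ne_of_mem_erase (mem_of_mem_erase hj))

end peel

variable {T : Type} [Fintype T] [DecidableEq T]

/-- looseness of a family -/
def LS (𝓑 : Finset (Finset T)) (S : Finset T) (k : ℕ) : Prop :=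
  ∀ 𝓙 ⊆ 𝓑, k ≤ 𝓙.card → ∃ x, x ∉ S ∧ ∃ H ∈ 𝓙, x ∈ H ∧ ∀ H' ∈ 𝓙, x ∈ H' → H' = H

omit [Fintype T] [DecidableEq T] in
theorem LS.mono {𝓑 𝓑' : Finset (Finset T)} {S S' : Finset T} {k : ℕ} (h : LS 𝓑 S k)
    (h1 : 𝓑' ⊆ 𝓑) (h2 : S' ⊆ S) : LS 𝓑' S' k := fun 𝓙 a b =>
  (h 𝓙 (a.trans h1) b).imp fun _ c => ⟨fun t => c.1 (h2 t), c.2⟩

omit [Fintype T] in
theorem LS.li {𝓑 : Finset (Finset T)} {S : Finset T} {k : ℕ} (h : LS 𝓑 S k) :
    LI (fun i : 𝓑 => i.1) S k := fun J hJ => by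
  obtain ⟨x, a1, A, a2, a3, a4⟩ := h (J.image Subtype.val)
    (image_subset_iff.2 fun i _ => i.2) (by rwa [card_image_of_injective _ Subtype.val_injective])
  obtain ⟨i, b1, rfl⟩ := mem_image.1 a2
  exact ⟨x, a1, i, b1, a3, fun j hj t => Subtype.ext (a4 _ (mem_image_of_mem _ hj) t)⟩

/-- private points and the colouring, for a family -/
def CF (m : ℕ) (𝓑 : Finset (Finset T)) (e : Finset T → T) (c : T → Fin (m + 3)) : Prop :=
  ∀ H ∈ 𝓑, e H ∈ H ∧ (∀ H' ∈ 𝓑, e H ∈ H' → H' = H) ∧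
    ∃ j : Fin (m + 3), j.val < 3 ∧ Set.BijOn c (H.erase (e H)) {k | k ≠ j}

open Classical in
/-- almost all matroids of every rank of the window contain the family -/
def Few (ρ : ℕ) (𝓗 : Finset T → Prop) : Prop :=
  ∀ η : ℝ, 0 < η → ∀ᶠ n : ℕ in Filter.atTop, ∀ r, Win n r →
    (((MM (Fin n) r).filter (fun K => ¬ Occ r ρ 𝓗 K)).card : ℝ) ≤ η * (MM (Fin n) r).card

theorem core (hF : FinStmt) {m : ℕ} {𝓗 : Finset (Finset T)} (hc : ∀ B ∈ 𝓗, B.card = m + 3)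
    (hs : Stb 𝓗) {X1 X2 : Finset T} (h1 : X1 ∈ 𝓗) (h2 : X2 ∈ 𝓗) (ne : X1 ≠ X2)
    (hn : ((𝓗.erase X1).erase X2).Nonempty) {e : Finset T → T} {c : T → Fin (m + 3)}
    (hC : CF m ((𝓗.erase X1).erase X2) e c)
    (l4 : ∀ B : Finset T, B.card = m + 3 → LS ((𝓗.erase X1).erase X2) B 4)
    (l1 : LS ((𝓗.erase X1).erase X2) X1 3) (l2 : LS ((𝓗.erase X1).erase X2) X2 3)
    (l3 : ∀ t ∈ X1, LS ((𝓗.erase X1).erase X2) (insert t X2) 3) :
    Few (m + 3) fun B => B ∈ 𝓗 := by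
  classical
  set 𝓑 := (𝓗.erase X1).erase X2 with h𝓑
  have : Nonempty T := ⟨e X1⟩
  have sub : ∀ i : 𝓑, i.1 ∈ 𝓗 ∧ i.1 ≠ X1 ∧ i.1 ≠ X2 := fun i =>
    ⟨mem_of_mem_erase (mem_of_mem_erase i.2), ne_of_mem_erase (mem_of_mem_erase i.2),
      ne_of_mem_erase i.2⟩
  have f4 : ∀ A ∈ 𝓗, ∀ B ∈ 𝓗, A ≠ B → 4 ≤ sd A B := fun A hA B hB n =>
    ((sd_cases ((hc A hA).trans (hc B hB).symm)).resolve_left n).resolve_left (hs A hA B hB)
  have far : ∀ i j : 𝓑, i ≠ j → 4 ≤ sd i.1 j.1 := fun i j n =>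
    f4 _ (sub i).1 _ (sub j).1 fun t => n (Subtype.ext t)
  have g1 : ∀ i : 𝓑, 4 ≤ sd i.1 X1 := fun i => f4 _ (sub i).1 _ h1 (sub i).2.1
  have g2 : ∀ i : 𝓑, 4 ≤ sd i.1 X2 := fun i => f4 _ (sub i).1 _ h2 (sub i).2.2
  have q : ∀ t ∈ X1 ∆ X2, Peel (fun i : 𝓑 => i.1) X2 univ {t} := fun t ht =>
    peel3 far (fun i => le_trans (by norm_num) (g2 i)) (by simp) (S := insert t X2) (LS.li (by
      rcases mem_symmDiff.1 ht with u | u
      · exact l3 t u.1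
      · rwa [insert_eq_of_mem u.1])) (subset_insert _ _) (by simp) _
  let P : Pat T 𝓑 :=
    { ρ := m + 3, H := fun i => i.1, X1 := X1, X2 := X2, cH := fun i => hc _ (sub i).1
      c1 := hc _ h1, c2 := hc _ h2, fHH := far, fH1 := g1, fH2 := g2, f12 := f4 _ h1 _ h2 ne
      p1 := peel3 far (fun i => le_trans (by norm_num) (g1 i)) (by simp) l1.li subset_rfl
        (empty_subset _) _
      p2 := by
        obtain ⟨t, ht⟩ := card_pos.1 (lt_of_lt_of_le (by norm_num) (f4 _ h1 _ h2 ne))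
        exact ⟨t, ht, q t ht⟩
      p3 := fun _ => q
      p4 := fun B hB hB' => by
        obtain ⟨A, hA⟩ := hn
        obtain ⟨i, -, hi⟩ := peel4 far (fun i => by
          rcases sd_cases ((hc _ (sub i).1).trans hB.symm) with t | t | t
          · exact absurd t.symm (hB' i)
          · exact t.ge
          · omega) (l4 B hB).li univ ⟨⟨A, hA⟩, mem_univ _⟩
        exact ⟨i, hi⟩ }
  have C : Bx.Col m (fun i : 𝓑 => i.1) (fun i => e i.1) c :=
    ⟨P.cH, far, fun i => (hC _ i.2).1, fun i j t => Subtype.ext ((hC _ i.2).2.1 _ j.2 t),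
      fun i => (hC _ i.2).2.2⟩
  have hS : SiteOK P := fun a ha => by
    obtain ⟨b, b0, hb⟩ := C.site ha
    refine ⟨b, b0, hb.mono fun n hn r a1 a2 U hU a3 => (hn r a1 a2 U hU a3).trans (le_of_eq ?_)⟩
    rw [Bx.cnt_eq]
    rfl
  have e1 : P.fam = fun B => B ∈ 𝓗 := funext fun B => propext ⟨by
    rintro (⟨i, rfl⟩ | rfl | rfl)
    exacts [(sub i).1, h1, h2], fun h => by
    by_cases u : B = X1
    · exact Or.inr (Or.inl u)
    by_cases v : B = X2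
    · exact Or.inr (Or.inr v)
    exact Or.inl ⟨⟨B, mem_erase.2 ⟨v, mem_erase.2 ⟨u, h⟩⟩⟩, rfl⟩⟩
  have := hF T 𝓑 P hS
  rw [e1] at this
  exact this

omit [Fintype T] in
theorem CF.auto {m : ℕ} {𝓑 : Finset (Finset T)} {e : Finset T → T} {c : T → Fin (m + 3)}
    (hC : CF m 𝓑 e c) {Y : Finset T} (hY : Y ∈ 𝓑) (t : T) : LS (𝓑.erase Y) (insert t Y) 3 := by
  intro 𝓙 a b
  obtain ⟨A, hA, n⟩ : ∃ A ∈ 𝓙, e A ≠ t := by
    obtain ⟨A, hA, B, hB, n⟩ := one_lt_card.1 (show 1 < 𝓙.card by omega)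
    by_cases u : e A = t
    · refine ⟨B, hB, fun v => n ?_⟩
      exact (hC B (mem_of_mem_erase (a hB))).2.1 A (mem_of_mem_erase (a hA))
        (by rw [v, ← u]; exact (hC A (mem_of_mem_erase (a hA))).1)
    · exact ⟨A, hA, u⟩
  obtain ⟨c1, c2, -⟩ := hC A (mem_of_mem_erase (a hA))
  refine ⟨e A, fun u => ?_, A, hA, c1, fun B hB => c2 B (mem_of_mem_erase (a hB))⟩
  exact ne_of_mem_erase (a hA) (c2 Y hY ((mem_insert.1 u).resolve_left n)).symm

theorem core' (hF : FinStmt) {m : ℕ} {𝓗 : Finset (Finset T)} (hc : ∀ B ∈ 𝓗, B.card = m + 3)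
    (hs : Stb 𝓗) (X1 X2 : Finset T) (h5 : 5 < 𝓗.card) {e : Finset T → T} {c : T → Fin (m + 3)}
    (hC : CF m ((𝓗.erase X1).erase X2) e c)
    (l4 : ∀ B : Finset T, B.card = m + 3 → LS ((𝓗.erase X1).erase X2) B 4)
    (l1 : LS ((𝓗.erase X1).erase X2) X1 3) (l2 : LS ((𝓗.erase X1).erase X2) X2 3)
    (l3 : ∀ t ∈ X1, LS ((𝓗.erase X1).erase X2) (insert t X2) 3) :
    Few (m + 3) fun B => B ∈ 𝓗 := by
  have big : ∀ A B : Finset T, 1 < ((𝓗.erase A).erase B).card := fun A B => by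
    have := pred_card_le_card_erase (s := 𝓗) (a := A)
    have := pred_card_le_card_erase (s := 𝓗.erase A) (a := B)
    omega
  by_cases t : X1 ∈ 𝓗 ∧ X2 ∈ 𝓗 ∧ X1 ≠ X2
  · exact core hF hc hs t.1 t.2.1 t.2.2 (card_pos.1 (by have := big X1 X2; omega)) hC l4 l1 l2 l3
  set 𝓑 := (𝓗.erase X1).erase X2 with h𝓑
  have sub : 𝓑 ⊆ 𝓗 := (erase_subset _ _).trans (erase_subset _ _)
  obtain ⟨Y1, y1, Y2, y2, n⟩ := one_lt_card.1 (big X1 X2)
  obtain ⟨A, a1, a2, a3, a4⟩ : ∃ A ∈ 𝓗, A ≠ Y2 ∧ 𝓗.erase A ⊆ 𝓑 ∧ LS (𝓗.erase A) A 3 := by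
    by_cases u : X1 ∈ 𝓗
    · have s : 𝓗.erase X1 ⊆ 𝓑 := fun B hB => mem_erase.2 ⟨fun v => t ⟨u,
        v ▸ mem_of_mem_erase hB, v ▸ (ne_of_mem_erase hB).symm⟩, hB⟩
      exact ⟨X1, u, (ne_of_mem_erase (mem_of_mem_erase y2)).symm, s, l1.mono s subset_rfl⟩
    by_cases v : X2 ∈ 𝓗
    · have s : 𝓗.erase X2 ⊆ 𝓑 := by rw [h𝓑, erase_eq_of_notMem u]
      exact ⟨X2, v, (ne_of_mem_erase y2).symm, s, l2.mono s subset_rfl⟩
    · have s : 𝓑 = 𝓗 := by rw [h𝓑, erase_eq_of_notMem u, erase_eq_of_notMem v]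
      exact ⟨Y1, sub y1, n, s ▸ erase_subset _ _,
        (hC.auto y1 (e X1)).mono (s ▸ subset_rfl) (subset_insert _ _)⟩
  have s : (𝓗.erase A).erase Y2 ⊆ 𝓑 := (erase_subset _ _).trans a3
  exact core hF hc hs a1 (sub y2) a2 (card_pos.1 (by have := big A Y2; omega))
    (fun B hB => ⟨(hC B (s hB)).1, fun B' hB' => (hC B (s hB)).2.1 B' (s hB'), (hC B (s hB)).2.2⟩)
    (fun B hB => (l4 B hB).mono s subset_rfl) (a4.mono (erase_subset _ _) subset_rfl)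
    ((hC.auto y2 (e X1)).mono (erase_subset_erase _ a3) (subset_insert _ _))
    fun t _ => (hC.auto y2 t).mono (erase_subset_erase _ a3) subset_rfl

end Pool.Agent.MP_c3fbfc_co.V.G
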