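import Pool.Agent.MP_c3fbfc_co.Defs

/-! Definitions used in the statement on coloured families of circuit-hyperplanes. -/

namespace Pool.Agent.MP_c3fbfc_co

/-- among any `k` or more members of `𝓑`, some point outside `S` lies in exactly one of them -/
def Loose {β : Type*} (𝓑 : Set (Set β)) (S : Set β) (k : ℕ) : Prop :=
  ∀ 𝓙 ⊆ 𝓑, k ≤ 𝓙.ncard → ∃ x, x ∉ S ∧ ∃! H, H ∈ 𝓙 ∧ x ∈ H

/-- `N` has rank `ρ ≥ 3`; every member `H` of the family `𝓑` of the dependent `ρ`-sets other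
than `X₁` and `X₂` has a point `e H` in no other member; the points of `H` other than `e H`
get each of the `ρ` colours, except one of the first three, exactly once; and `𝓑` is loose
outside every `ρ`-set, outside `X₁`, outside `X₂`, and outside `X₂` with a point of `X₁` -/
def Coloured {β : Type*} (N : Matroid β) : Prop :=
  ∃ (ρ : ℕ) (X₁ X₂ : Set β) (𝓑 : Set (Set β)) (e : Set β → β) (c : β → Fin ρ),
    N.eRank = ρ ∧ 3 ≤ ρ ∧ 𝓑 = {H | N.Dep H ∧ H.ncard = ρ ∧ H ≠ X₁ ∧ H ≠ X₂} ∧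
    (∀ H ∈ 𝓑, e H ∈ H ∧ (∀ H' ∈ 𝓑, e H ∈ H' → H' = H) ∧
      ∃ j : Fin ρ, j.val < 3 ∧ Set.BijOn c (H \ {e H}) {k | k ≠ j}) ∧
    (∀ B : Set β, B.ncard = ρ → Loose 𝓑 B 4) ∧ Loose 𝓑 X₁ 3 ∧ Loose 𝓑 X₂ 3 ∧
    ∀ t ∈ X₁, Loose 𝓑 (insert t X₂) 3

end Pool.Agent.MP_c3fbfc_co
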