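import Pool.Agent.MP_c3fbfc_co.VMain
import Pool.Agent.MP_c3fbfc_co.GFin
import Pool.Agent.MP_c3fbfc_co.GPat
import Pool.Agent.MP_c3fbfc_co.GStat

/-! Matroids with a coloured family of circuit-hyperplanes are minors of almost all matroids. -/

namespace Pool.Agent.MP_c3fbfc_co.V.G

open Finset
open scoped Classical Matroid

theorem fin_all : FinStmt :=
  fin (rich pb) (cla (rich pb)) (typ (rich pb) (clb Clb.clbA) girth_all (enc cont) (small cont))
    marg (exp_ pb (rich pb)) (plant marg)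

section few

variable {T : Type} [Fintype T] [DecidableEq T]

theorem few_small {ρ : ℕ} {𝓗 : Finset (Finset T)} (hc : ∀ B ∈ 𝓗, B.card = ρ) (hs : Stb 𝓗)
    (h5 : 𝓗.card ≤ 5) : Few ρ fun B => B ∈ 𝓗 := by
  obtain ⟨m, P, hP⟩ := five T ρ 𝓗 hc hs h5
  intro η hη
  filter_upwards [V.fin_all _ _ P η hη] with n hn r hr
  refine le_trans (Nat.cast_le.2 (card_le_card fun K hK => ?_)) (hn r hr)
  exact mem_filter.2 ⟨(mem_filter.1 hK).1, fun t => (mem_filter.1 hK).2 (hP _ _ _ t)⟩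

theorem occ_dual {n r ρ : ℕ} (hr : r ≤ n) (hρ : ρ ≤ Fintype.card T) {𝓗 : Finset T → Prop}
    {K : Finset (Finset (Fin n))} (h : Occ (n - r) ρ 𝓗 (K.image fun X => Xᶜ)) :
    Occ r (Fintype.card T - ρ) (fun B => 𝓗 Bᶜ) K := by
  obtain ⟨⟨W, φ⟩, ⟨h1, h2, h3⟩, h4⟩ := h
  simp only at h1 h2 h3
  have c1 : (W ∪ univ.image φ).card = W.card + Fintype.card T := by
    rw [card_union_of_disjoint, card_image_of_injective _ h1, card_univ]
    refine disjoint_right.2 fun x hx => ?_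
    obtain ⟨t, -, rfl⟩ := mem_image.1 hx
    exact h2 t
  have c2 := card_le_univ (W ∪ univ.image φ)
  rw [Fintype.card_fin] at c2
  refine ⟨((W ∪ univ.image φ)ᶜ, φ), ⟨h1, fun t u => mem_compl.1 u
    (mem_union_right _ (mem_image_of_mem _ (mem_univ t))), ?_⟩, fun B hB => ?_⟩
  · rw [card_compl, Fintype.card_fin]
    omega
  · have e : pt (W, φ) Bᶜ = (pt ((W ∪ univ.image φ)ᶜ, φ) B)ᶜ := by
      ext x
      simp only [pt, mem_union, mem_image, mem_compl, mem_univ, true_and, not_or, not_and,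
        not_exists]
      constructor
      · rintro (u | ⟨t, u, rfl⟩)
        · exact ⟨fun v => absurd u v, fun t _ v => h2 t (v ▸ u)⟩
        · exact ⟨fun _ v => v t rfl, fun s v w => u (h1 w ▸ v)⟩
      · rintro ⟨u, v⟩
        by_cases w : x ∈ W
        · exact Or.inl w
        · obtain ⟨t, z⟩ := not_forall.1 (u w)
          obtain rfl := not_not.1 z
          exact Or.inr ⟨t, fun z => v t z rfl, rfl⟩
    refine Iff.trans ?_ (h4 Bᶜ (by rw [card_compl]; omega))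
    rw [e, compl_injective.mem_finset_image]

theorem few_dual {ρ : ℕ} (hρ : ρ ≤ Fintype.card T) {𝓗 : Finset T → Prop} (h : Few ρ 𝓗) :
    Few (Fintype.card T - ρ) fun B => 𝓗 Bᶜ := by
  intro η hη
  filter_upwards [h η hη] with n hn r hr
  have hrn : r ≤ n := by have := hr.2.1; omega
  have hr' : Win n (n - r) := by
    obtain ⟨w1, w2, w3⟩ := hr
    exact ⟨by omega, by omega, by rwa [Nat.choose_symm hrn]⟩
  have a3 : (MM (Fin n) (n - r)).card ≤ (MM (Fin n) r).card :=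
    card_le_card_of_injOn _ (fun K hK => by
      have := dual_mem_MM (mem_coe.1 hK)
      rwa [Fintype.card_fin, Nat.sub_sub_self hrn] at this) Girth.dual_inj.injOn
  refine le_trans (Nat.cast_le.2 (card_le_card_of_injOn _ (fun K hK => ?_) Girth.dual_inj.injOn))
    ((hn _ hr').trans (mul_le_mul_of_nonneg_left (Nat.cast_le.2 a3) hη.le))
  obtain ⟨b1, b2⟩ := mem_filter.1 (mem_coe.1 hK)
  exact mem_coe.2 (mem_filter.2 ⟨by simpa using dual_mem_MM b1, fun t => b2 (occ_dual hrn hρ t)⟩)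

end few

variable {β : Type*} {N : Matroid β} {k : ℕ} {g : Fin k ↪ β}

theorem of_few (hE : N.E.Finite) (h : Paving N) {s : ℕ} (hs : N.eRank = s)
    (hg : N.E = Set.range g) {𝓗 : Finset (Fin k) → Prop}
    (h𝓗 : ∀ B : Finset (Fin k), B.card = s → (𝓗 B ↔ N.Dep (B.map g))) (hf : Few s 𝓗) :
    AlmostAllHaveMinor N := by
  refine Link.pass (out cont (code cont)) sym_all N (fun n r K => ¬ Occ r s 𝓗 K)
    (fun n r K π a b => a (Link.occ_act b))
    (fun n hn M a b => a (Link.hm_of_occ hE h hs g hg hn M h𝓗 b).hasMinor) fun η hη => ?_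
  filter_upwards [hf η hη] with n hn r hr
  exact le_trans (le_of_eq (by congr)) (hn r hr)

theorem few_of (hE : N.E.Finite) (h : Paving N) (h2 : Paving N✶) (hc : Coloured N) :
    ∃ ρ : ℕ, N.eRank = ρ ∧ Few ρ fun B : Finset (Fin k) => B.card = ρ ∧ N.Dep (B.map g) := by
  obtain ⟨ρ, X₁, X₂, 𝓑, e, c, hs, h3, h𝓑, hC, l4, l1, l2, l3⟩ := hc
  refine ⟨ρ, hs, ?_⟩
  obtain ⟨m, rfl⟩ : ∃ m, ρ = m + 3 := ⟨ρ - 3, by omega⟩
  obtain ⟨𝓗, m𝓗⟩ : ∃ 𝓗 : Finset (Finset (Fin k)),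
      ∀ B, B ∈ 𝓗 ↔ B.card = m + 3 ∧ N.Dep (B.map g) :=
    ⟨univ.filter fun B => B.card = m + 3 ∧ N.Dep (B.map g), fun B => by simp⟩
  rw [← funext fun B => propext (m𝓗 B)]
  have st : Stb 𝓗 := fun X hX Y hY e => by
    obtain ⟨x1, x2⟩ := (m𝓗 X).1 hX
    obtain ⟨y1, y2⟩ := (m𝓗 Y).1 hY
    have e1 := sd_of_card_eq (x1.trans y1.symm)
    have e2 := card_sdiff_add_card_inter X Y
    have e3 := map_injective _ (sparse_eq hE h h2 hs x2 y2 (by rw [card_map, x1])
      (by rw [card_map, y1]) (by rw [← map_inter, card_map]; omega))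
    rw [sd_eq_zero.2 e3] at e
    omega
  rcases le_or_gt 𝓗.card 5 with h5 | h5
  · exact few_small (fun B hB => ((m𝓗 B).1 hB).1) st h5
  set X1 := univ.filter fun t => g t ∈ X₁ with hX1
  set X2 := univ.filter fun t => g t ∈ X₂ with hX2
  have mm : ∀ (B : Finset (Fin k)) t, g t ∈ ((B.map g : Finset β) : Set β) ↔ t ∈ B := fun B t => by
    rw [mem_coe, mem_map']
  have inj : Function.Injective fun B : Finset (Fin k) => ((B.map g : Finset β) : Set β) :=
    fun B B' u => map_injective _ (coe_injective u)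
  have sub : ∀ B ∈ (𝓗.erase X1).erase X2, ((B.map g : Finset β) : Set β) ∈ 𝓑 := fun B hB => by
    obtain ⟨a2, a1, a0⟩ : B ≠ X2 ∧ B ≠ X1 ∧ B ∈ 𝓗 := by simpa only [mem_erase] using hB
    obtain ⟨b1, b2⟩ := (m𝓗 B).1 a0
    rw [h𝓑]
    refine ⟨b2, by rw [Set.ncard_coe_finset, card_map, b1], fun u => a1 ?_, fun u => a2 ?_⟩
    · ext t
      rw [hX1, mem_filter, ← u, mm]
      simp
    · ext t
      rw [hX2, mem_filter, ← u, mm]
      simp
  have tr : ∀ (S : Set β) (S' : Finset (Fin k)) j, (∀ t ∈ S', g t ∈ S) → Loose 𝓑 S j →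
      LS ((𝓗.erase X1).erase X2) S' j := fun S S' j hS hL 𝓙 a b => by
    obtain ⟨x, c1, A, ⟨⟨B, c2, rfl⟩, c3⟩, c4⟩ := hL
      ((fun B : Finset (Fin k) => ((B.map g : Finset β) : Set β)) '' 𝓙)
      (by rintro _ ⟨B, hB, rfl⟩; exact sub B (a hB))
      (by rwa [Set.ncard_image_of_injective _ inj, Set.ncard_coe_finset])
    obtain ⟨t, d1, rfl⟩ := mem_map.1 (mem_coe.1 c3)
    exact ⟨t, fun u => c1 (hS t u), B, c2, d1, fun B' hB' u =>
      inj (c4 _ ⟨⟨B', hB', rfl⟩, (mm B' t).2 u⟩)⟩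
  have ex : ∀ B : Finset (Fin k), ∃ t, B ∈ (𝓗.erase X1).erase X2 →
      g t = e ((B.map g : Finset β) : Set β) := fun B => by
    obtain ⟨A, hA⟩ := card_pos.1 (show 0 < 𝓗.card by omega)
    obtain ⟨t0, -⟩ := card_pos.1 (show 0 < A.card by rw [((m𝓗 A).1 hA).1]; omega)
    by_cases u : B ∈ (𝓗.erase X1).erase X2
    · obtain ⟨t, -, d⟩ := mem_map.1 (mem_coe.1 (hC _ (sub B u)).1)
      exact ⟨t, fun _ => d⟩
    · exact ⟨t0, fun v => absurd v u⟩
  choose ef hef using ex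
  refine core' fin_all (fun B hB => ((m𝓗 B).1 hB).1) st X1 X2 h5 (e := ef) (c := fun t => c (g t))
    (fun B hB => ?_) (fun B hB => tr _ B 4 (fun t u => (mm B t).2 u)
      (l4 _ (by rw [Set.ncard_coe_finset, card_map, hB])))
    (tr _ _ 3 (fun t u => (mem_filter.1 u).2) l1) (tr _ _ 3 (fun t u => (mem_filter.1 u).2) l2)
    fun t ht => tr _ _ 3 (fun s u => ?_) (l3 (g t) (mem_filter.1 ht).2)
  · obtain ⟨a1, a2, j, a3, a4⟩ := hC _ (sub B hB)
    rw [← hef B hB] at a1 a2 a4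
    refine ⟨(mm B _).1 a1, fun B' hB' u => inj (a2 _ (sub B' hB') ((mm B' _).2 u)), j, a3, ?_⟩
    refine a4.comp (f := g) ⟨fun t u => ?_, g.injective.injOn, fun x u => ?_⟩
    · obtain ⟨u1, u2⟩ := mem_erase.1 (mem_coe.1 u)
      exact ⟨(mm B t).2 u2, fun v => u1 (g.injective v)⟩
    · obtain ⟨t, d1, rfl⟩ := mem_map.1 (mem_coe.1 u.1)
      exact ⟨t, mem_coe.2 (mem_erase.2 ⟨fun v => u.2 (congrArg g v), d1⟩), rfl⟩
  · rcases mem_insert.1 u with rfl | u
    · exact Set.mem_insert _ _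
    · exact Set.mem_insert_of_mem _ (mem_filter.1 u).2

theorem dep_iff {s : ℕ} (hs : N.eRank = s) (hg : N.E = Set.range g) {B : Finset (Fin k)}
    (hB : B.card = s) : N.Dep (B.map g) ↔ ¬ N.IsBase (B.map g) := by
  have sub : ((B.map g : Finset β) : Set β) ⊆ N.E := fun x hx => by
    obtain ⟨t, -, rfl⟩ := mem_map.1 (mem_coe.1 hx)
    exact hg ▸ Set.mem_range_self t
  refine ⟨fun h u => h.not_indep u.indep, fun h => (Matroid.not_indep_iff sub).1 fun u => h ?_⟩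
  refine u.isBase_of_eRk_ge (Finset.finite_toSet _) ?_
  rw [u.eRk_eq_encard, Set.encard_coe_eq_coe_finsetCard, card_map, hB, hs]

theorem map_compl (hg : N.E = Set.range g) (B : Finset (Fin k)) :
    ((Bᶜ.map g : Finset β) : Set β) = N.E \ (B.map g : Finset β) := by
  rw [coe_map, coe_map, coe_compl, hg, ← Set.image_univ, ← Set.image_sdiff g.injective,
    Set.compl_eq_univ_sdiff]

theorem main (N : Matroid β) (hE : N.E.Finite) (h : Paving N) (h2 : Paving N✶)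
    (hc : Coloured N ∨ Coloured N✶) : AlmostAllHaveMinor N := by
  obtain ⟨k, g0, g1, g2⟩ := hE.fin_param
  have hg : N.E = Set.range (⟨g0, g1⟩ : Fin k ↪ β) := g2.symm
  generalize (⟨g0, g1⟩ : Fin k ↪ β) = g at hg
  rcases hc with hc | hc
  · obtain ⟨ρ, a1, a2⟩ := few_of (g := g) hE h h2 hc
    exact of_few hE h a1 hg (fun B hB => and_iff_right hB) a2
  obtain ⟨ρ, a1, a2⟩ := few_of (N := N✶) (g := g) hE h2 (by rwa [Matroid.dual_dual]) hc
  obtain ⟨A, hA⟩ := N.exists_isBase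
  obtain ⟨B, rfl⟩ : ∃ B : Finset (Fin k), A = (B.map g : Finset β) :=
    ⟨univ.filter fun t => g t ∈ A, by
      ext x
      simp only [coe_map, Set.mem_image, mem_coe, mem_filter, mem_univ, true_and]
      refine ⟨fun hx => ?_, fun ⟨_, u, v⟩ => v ▸ u⟩
      obtain ⟨t, rfl⟩ := hg ▸ hA.subset_ground hx
      exact ⟨t, hx, rfl⟩⟩
  have b1 := hA.encard_eq_eRank
  have b2 := hA.compl_isBase_dual.encard_eq_eRank
  rw [← map_compl hg, a1] at b2
  rw [Set.encard_coe_eq_coe_finsetCard, card_map] at b1 b2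
  have b3 : Bᶜ.card = ρ := by exact_mod_cast b2
  have b4 := card_add_card_compl B
  have b5 : Fintype.card (Fin k) - ρ = B.card := by omega
  have a3 := few_dual (by omega) a2
  rw [b5] at a3
  refine of_few hE h b1.symm hg (fun D hD => ?_) a3
  have d1 : Dᶜ.card = ρ := by rw [card_compl]; omega
  rw [and_iff_right d1, dep_iff (N := N✶) a1 hg d1, dep_iff b1.symm hg hD, map_compl hg,
    Matroid.dual_isBase_iff Set.sdiff_subset, Set.sdiff_sdiff_cancel_left]
  intro x hx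
  obtain ⟨t, -, rfl⟩ := mem_map.1 (mem_coe.1 hx)
  exact hg ▸ Set.mem_range_self t

end Pool.Agent.MP_c3fbfc_co.V.G
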