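import Pool.Agent.MP_c3fbfc_co.GBox
import Pool.Agent.MP_c3fbfc_co.GDefs

/-! Many sites for a base whose members have private points and a rainbow rest. -/

namespace Pool.Agent.MP_c3fbfc_co.V.G.Bx

open Finset

theorem cnt_fib {X Y : Type} [Finite X] [Finite Y] {p : X → Prop} {q : Y → Prop}
    (R : X → Y → Prop) (b : ℕ) (h : ∀ x, p x → ∃ y, q y ∧ R x y)
    (hb : ∀ y, q y → cnt (fun x => p x ∧ R x y) ≤ b) : cnt p ≤ cnt q * b := by
  classical
  have := Fintype.ofFinite X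
  have := Fintype.ofFinite Y
  simp only [cnt_eq] at hb ⊢
  refine le_trans (card_le_card fun x hx => ?_) ((card_biUnion_le (s := univ.filter q)
    (t := fun y => univ.filter fun x => p x ∧ R x y)).trans
    (sum_le_card_nsmul _ _ b fun y hy => hb y (mem_filter.1 hy).2))
  obtain ⟨y, h1, h2⟩ := h x (mem_filter.1 hx).2
  exact mem_biUnion.2 ⟨y, mem_filter.2 ⟨mem_univ _, h1⟩,
    mem_filter.2 ⟨mem_univ _, (mem_filter.1 hx).2, h2⟩⟩

theorem cnt_rel {X Y : Type} [Finite X] [Finite Y] {p : X → Prop} {q : Y → Prop}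
    (R : X → Y → Prop) (h : ∀ x, p x → ∃ y, q y ∧ R x y)
    (hb : ∀ y x x', p x → p x' → R x y → R x' y → x = x') : cnt p ≤ cnt q := by
  simpa using cnt_fib R 1 h fun y _ => (Set.ncard_le_one (Set.toFinite _)).2
    fun x hx x' hx' => hb y x x' hx.1 hx'.1 hx.2 hx'.2

theorem cnt_split {X : Type} [Finite X] (p q : X → Prop) :
    cnt p ≤ cnt (fun x => p x ∧ q x) + cnt fun x => p x ∧ ¬ q x := by
  refine le_trans (Set.ncard_le_ncard (fun x hx => ?_) (Set.toFinite _)) (Set.ncard_union_le _ _)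
  by_cases t : q x
  · exact Or.inl ⟨hx, t⟩
  · exact Or.inr ⟨hx, t⟩

theorem cnt_true {X : Type} [Fintype X] : cnt (fun _ : X => True) = Fintype.card X := by
  rw [cnt_eq, filter_true, card_univ]

variable {α : Type} [Fintype α] [DecidableEq α] {r : ℕ} {U : Finset (Finset α)}

theorem card_of (hU : U ∈ SS α r) {X : Finset α} (h : X ∈ U) : X.card = r :=
  mem_Vr.1 ((mem_SS.1 hU).1 h)

theorem det (hU : U ∈ SS α r) {Y : Finset α} {z z' : α} (h : insert z Y ∈ U)
    (h' : insert z' Y ∈ U) (hY : Y.card < r) : z = z' := by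
  by_contra ne
  have c1 := card_of hU h
  have c2 := card_of hU h'
  have n1 : z ∉ Y := fun t => by rw [insert_eq_of_mem t] at c1; omega
  refine (mem_SS.1 hU).2 _ h _ h' ?_
  have : insert z Y \ insert z' Y = {z} := by
    ext x
    simp only [mem_sdiff, mem_insert, mem_singleton, not_or]
    constructor
    · rintro ⟨rfl | t, -, t'⟩
      · rfl
      · exact absurd t t'
    · rintro rfl
      exact ⟨Or.inl rfl, ne, n1⟩
  rw [sd_of_card_eq (c1.trans c2.symm), this, card_singleton]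

theorem shift (m k : ℕ) {Z : Type} [Fintype Z] (P : Z → Finset α → Prop) :
    (k + 1) ^ m * cnt (fun q : Z × Finset α => q.2.card = k + m ∧ P q.1 q.2) ≤
      cnt fun q : (Fin m → α) × Z × Finset α => q.2.2.card = k ∧
        (q.2.2 ∪ univ.image q.1).card = k + m ∧ P q.2.1 (q.2.2 ∪ univ.image q.1) := by
  classical
  refine le_trans ?_ (cnt_le (p := fun q : (Fin m → α) × Z × Finset α =>
    (q.2.2.card = k + m ∧ P q.2.1 q.2.2) ∧ Function.Injective q.1 ∧ ∀ j, q.1 j ∈ q.2.2)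
    (fun q => (q.1, q.2.1, q.2.2 \ univ.image q.1)) ?_ ?_)
  · rw [cnt_prod (fun (y : Fin m → α) (z : Z × Finset α) =>
      (z.2.card = k + m ∧ P z.1 z.2) ∧ Function.Injective y ∧ ∀ j, y j ∈ z.2), cnt_eq,
      card_filter, mul_sum]
    refine sum_le_sum fun z _ => ?_
    split_ifs with t
    · have := cnt_inj z.2 m
      rw [t.1, show k + m + 1 - m = k + 1 by omega] at this
      rw [mul_one]
      exact this.trans (cnt_mono fun y hy => ⟨t, hy⟩)
    · simp
  · rintro ⟨y, z, W⟩ ⟨⟨h1, h2⟩, h3, h4⟩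
    have s : univ.image y ⊆ W := image_subset_iff.2 fun j _ => h4 j
    simp only [sdiff_union_of_subset s]
    refine ⟨?_, h1, h2⟩
    rw [card_sdiff_of_subset s, card_image_of_injective _ h3, card_univ, Fintype.card_fin]
    simp only at h1
    omega
  · rintro ⟨y, z, W⟩ ⟨y', z', W'⟩ ⟨-, -, h4⟩ ⟨-, -, h4'⟩ e
    simp only [Prod.mk.injEq] at e
    obtain ⟨rfl, rfl, e⟩ := e
    have s : univ.image y ⊆ W := image_subset_iff.2 fun j _ => h4 j
    have s' : univ.image y ⊆ W' := image_subset_iff.2 fun j _ => h4' j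
    rw [← sdiff_union_of_subset s, e, sdiff_union_of_subset s']

/-- the link of `W` -/
def lk (U : Finset (Finset α)) (W : Finset α) (a b c : α) : Prop :=
  insert a (insert b (insert c W)) ∈ U

/-- triangles in the shadow of the link -/
def tr (U : Finset (Finset α)) (x : α × α × α) (W : Finset α) : Prop :=
  (∃ z, lk U W z x.2.1 x.2.2) ∧ (∃ z, lk U W x.1 z x.2.2) ∧ ∃ z, lk U W x.1 x.2.1 z

theorem lk0 (hU : U ∈ SS α r) {W : Finset α} (hW : W.card + 3 = r) {a b c a' : α}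
    (h : lk U W a b c) (h' : lk U W a' b c) : a = a' := by
  refine det hU h h' ?_
  have := card_insert_le b (insert c W)
  have := card_insert_le c W
  omega

omit [Fintype α] in
theorem lk_sw {W : Finset α} {a b c : α} (h : lk U W a b c) : lk U W b a c := by
  rwa [lk, insert_comm]

omit [Fintype α] in
theorem lk_sw' {W : Finset α} {a b c : α} (h : lk U W a b c) : lk U W a c b := by
  rwa [lk, insert_comm c]

theorem many_lk (hU : U ∈ SS α r) {k : ℕ} (hk : k + 3 = r) : (k + 1) ^ 3 * U.card ≤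
    ∑ W ∈ powersetCard k univ, cnt fun x : α × α × α => lk U W x.1 x.2.1 x.2.2 := by
  classical
  have h1 := shift 3 k (fun (_ : Unit) X => X ∈ U)
  have h2 : U.card ≤ cnt fun q : Unit × Finset α => q.2.card = k + 3 ∧ q.2 ∈ U := by
    have := cnt_le (p := fun X => X ∈ U)
      (q := fun q : Unit × Finset α => q.2.card = k + 3 ∧ q.2 ∈ U) (fun X => ((), X))
      (fun X hX => ⟨(card_of hU hX).trans hk.symm, hX⟩) fun _ _ _ _ e => (Prod.mk.inj e).2
    rwa [cnt_eq, filter_univ_mem] at this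
  refine ((Nat.mul_le_mul_left _ h2).trans h1).trans (le_trans (cnt_le
    (q := fun q : (α × α × α) × Finset α => q.2.card = k ∧ lk U q.2 q.1.1 q.1.2.1 q.1.2.2)
    (fun q => ((q.1 0, q.1 1, q.1 2), q.2.2)) ?_ ?_) ?_)
  · rintro ⟨y, z, W⟩ ⟨a1, -, a3⟩
    refine ⟨a1, (congrArg (· ∈ U) ?_).mp a3⟩
    ext x
    simp only [mem_union, mem_image, mem_univ, true_and, mem_insert, Fin.exists_fin_succ,
      IsEmpty.exists_iff, or_false, Fin.succ_zero_eq_one, Fin.succ_one_eq_two, eq_comm (a := x)]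
    tauto
  · rintro ⟨y, z, W⟩ ⟨y', z', W'⟩ - - e
    simp only [Prod.mk.injEq] at e
    obtain ⟨⟨e0, e1, e2⟩, rfl⟩ := e
    refine Prod.ext (funext fun j => ?_) rfl
    fin_cases j
    exacts [e0, e1, e2]
  · rw [cnt_prod (fun (x : α × α × α) (W : Finset α) => W.card = k ∧ lk U W x.1 x.2.1 x.2.2),
      ← sum_subset (subset_univ (powersetCard k univ)) fun W _ hW => by
        simp [cnt, show ¬ W.card = k by simpa using hW]]
    exact sum_le_sum fun W _ => cnt_mono fun x hx => hx.2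

theorem many_tr (hU : U ∈ SS α r) {k : ℕ} (hk : k + 3 = r) {ε : ℝ} (hε : 0 < ε) :
    SimpleGraph.triangleRemovalBound ε * (Fintype.card α : ℝ) ^ 3 *
      ((k + 1) ^ 3 * U.card - (Fintype.card α).choose k * (9 * ε * (Fintype.card α : ℝ) ^ 2)) ≤
    (Fintype.card α : ℝ) ^ 2 * cnt fun q : (α × α × α) × Finset α => q.2.card = k ∧ tr U q.1 q.2 := by
  classical
  have t0 : 0 ≤ SimpleGraph.triangleRemovalBound ε * (Fintype.card α : ℝ) ^ 3 :=
    mul_nonneg (SimpleGraph.triangleRemovalBound_pos hε).le (by positivity)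
  have h1 : ((k : ℝ) + 1) ^ 3 * U.card ≤
      ∑ W ∈ powersetCard k univ, (cnt fun x : α × α × α => lk U W x.1 x.2.1 x.2.2 : ℝ) := by
    exact_mod_cast many_lk hU hk
  have h2 : ∑ W ∈ powersetCard k univ, cnt (fun x : α × α × α => tr U x W) ≤
      cnt fun q : (α × α × α) × Finset α => q.2.card = k ∧ tr U q.1 q.2 := by
    rw [cnt_prod (fun (x : α × α × α) (W : Finset α) => W.card = k ∧ tr U x W)]
    exact (sum_le_sum fun W hW => cnt_mono fun x hx => ⟨(mem_powersetCard.1 hW).2, hx⟩).trans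
      (sum_le_sum_of_subset (subset_univ _))
  refine le_trans ?_ (mul_le_mul_of_nonneg_left (Nat.cast_le.2 h2) (by positivity))
  refine (mul_le_mul_of_nonneg_left (sub_le_sub_right h1 _) t0).trans ?_
  rw [← card_univ (α := α), ← card_powersetCard, card_univ, ← nsmul_eq_mul, ← sum_const,
    ← sum_sub_distrib, mul_sum, Nat.cast_sum, mul_sum]
  refine sum_le_sum fun W hW => ?_
  have hW' : W.card + 3 = r := by rw [(mem_powersetCard.1 hW).2, hk]
  rcases le_total (9 * ε * (Fintype.card α : ℝ) ^ 2)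
    ((cnt fun x : α × α × α => lk U W x.1 x.2.1 x.2.2 : ℕ) : ℝ) with t | t
  · have a1 := tri hε (lk U W) (fun a b c z u v => lk0 hU hW' u v)
      (fun a b c z u v => lk0 hU hW' (lk_sw u) (lk_sw v))
      (fun a b c z u v => lk0 hU hW' (lk_sw (lk_sw' u)) (lk_sw (lk_sw' v))) t
    have a2 : (cnt fun x : α × α × α => lk U W x.1 x.2.1 x.2.2) ≤ Fintype.card α ^ 2 := by
      have := cnt_le (p := fun x : α × α × α => lk U W x.1 x.2.1 x.2.2)
        (q := fun _ : α × α => True) (fun x => x.2) (fun _ _ => trivial) fun x y hx hy e =>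
          Prod.ext (lk0 hU hW' hx (by rw [e]; exact hy)) e
      rwa [cnt_true, Fintype.card_prod, ← sq] at this
    have a3 : ((cnt fun x : α × α × α => lk U W x.1 x.2.1 x.2.2 : ℕ) : ℝ) -
        9 * ε * (Fintype.card α : ℝ) ^ 2 ≤ (Fintype.card α : ℝ) ^ 2 :=
      (sub_le_self _ (by positivity)).trans (by exact_mod_cast a2)
    rw [mul_comm ((Fintype.card α : ℝ) ^ 2)]
    exact (mul_le_mul_of_nonneg_left a3 t0).trans (mul_le_mul_of_nonneg_right a1 (by positivity))
  · exact (mul_nonpos_of_nonneg_of_nonpos t0 (sub_nonpos.2 t)).trans (by positivity)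

/-- tuples with three covered faces -/
def cv (U : Finset (Finset α)) {m : ℕ} (x : Fin (m + 3) → α) (W : Finset α) : Prop :=
  ∀ j : Fin (m + 3), j.val < 3 → ∃ z, insert z (W ∪ (univ.erase j).image x) ∈ U

theorem many_cv (m k : ℕ) :
    (k + 1) ^ m * cnt (fun q : (α × α × α) × Finset α => q.2.card = k + m ∧ tr U q.1 q.2) ≤
      cnt fun q : (Fin (m + 3) → α) × {W : Finset α // W.card = k} => cv U q.1 q.2.1 := by
  refine (shift m k (tr U)).trans (cnt_rel (fun q y => y.2.1 = q.2.2 ∧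
    y.1 = Fin.cons q.2.1.1 (Fin.cons q.2.1.2.1 (Fin.cons q.2.1.2.2 q.1))) ?_ ?_)
  · rintro ⟨y, ⟨a, b, c⟩, W⟩ ⟨a1, -, ⟨z0, b0⟩, ⟨z1, b1⟩, z2, b2⟩
    refine ⟨(Fin.cons a (Fin.cons b (Fin.cons c y)), ⟨W, a1⟩), fun j => ?_, rfl, rfl⟩
    refine Fin.cases (fun _ => ⟨z0, ?_⟩) (fun j => Fin.cases (fun _ => ⟨z1, ?_⟩)
      (fun j => Fin.cases (fun _ => ⟨z2, ?_⟩) (fun j hj => ?_) j) j) j
    · refine (congrArg (· ∈ U) ?_).mp b0
      ext x
      simp only [mem_union, mem_image, mem_univ, true_and, mem_insert, Fin.exists_fin_succ,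
        mem_erase, and_true, ne_eq, not_true, false_and, false_or, Fin.succ_ne_zero, not_false_iff,
        Fin.cons_succ, Fin.cons_zero, eq_comm (a := x)]
      tauto
    · refine (congrArg (· ∈ U) ?_).mp b1
      ext x
      simp only [mem_union, mem_image, mem_univ, true_and, mem_insert, Fin.exists_fin_succ,
        mem_erase, and_true, ne_eq, not_true, false_and, false_or, Fin.succ_ne_zero, not_false_iff,
        Fin.cons_succ, Fin.cons_zero, eq_comm (a := x), Fin.succ_inj, (Fin.succ_ne_zero _).symm]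
      tauto
    · refine (congrArg (· ∈ U) ?_).mp b2
      ext x
      simp only [mem_union, mem_image, mem_univ, true_and, mem_insert, Fin.exists_fin_succ,
        mem_erase, and_true, ne_eq, not_true, false_and, false_or, Fin.succ_ne_zero, not_false_iff,
        Fin.cons_succ, Fin.cons_zero, eq_comm (a := x), Fin.succ_inj, (Fin.succ_ne_zero _).symm]
      tauto
    · simp only [Fin.val_succ] at hj
      omega
  · rintro ⟨x, W⟩ ⟨y, ⟨a, b, c⟩, W1⟩ ⟨y', ⟨a', b', c'⟩, W2⟩ - - ⟨e1, e2⟩ ⟨e3, e4⟩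
    have := e2.symm.trans e4
    simp only [Fin.cons_inj] at this
    obtain ⟨rfl, rfl, rfl, rfl⟩ := this
    exact Prod.ext rfl (Prod.ext rfl (e1.symm.trans e3))

section base

variable {T ι : Type} [Fintype T] [DecidableEq T] [Fintype ι] [DecidableEq ι] {m : ℕ}

/-- private points and a colouring -/
structure Col (m : ℕ) (H : ι → Finset T) (e : ι → T) (c : T → Fin (m + 3)) : Prop where
  cH : ∀ i, (H i).card = m + 3
  far : ∀ i j, i ≠ j → 4 ≤ sd (H i) (H j)
  he : ∀ i, e i ∈ H i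
  pr : ∀ i j, e i ∈ H j → j = i
  bij : ∀ i, ∃ j : Fin (m + 3), j.val < 3 ∧ Set.BijOn c ((H i).erase (e i)) {k | k ≠ j}

/-- maps that send the base into `U` -/
def Val (U : Finset (Finset α)) (H : ι → Finset T) (W : Finset α) (φ : T → α) : Prop :=
  (∀ t, φ t ∉ W) ∧ ∀ i, W ∪ (H i).image φ ∈ U

variable {H : ι → Finset T} {e : ι → T} {c : T → Fin (m + 3)} {W : Finset α} {φ ψ : T → α}

omit [Fintype T] [Fintype ι] [DecidableEq ι] in
theorem Col.det (C : Col m H e c) (hU : U ∈ SS α r) (hW : W.card + (m + 3) = r)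
    (h : Val U H W φ) (h' : Val U H W ψ) {i : ι} {x : T} (hx : x ∈ H i)
    (ha : ∀ t ∈ H i, t ≠ x → φ t = ψ t) : φ x = ψ x := by
  have e1 : ∀ χ : T → α, W ∪ (H i).image χ = insert (χ x) (W ∪ ((H i).erase x).image χ) :=
    fun χ => by rw [← union_insert, ← image_insert, insert_erase hx]
  have e2 : ((H i).erase x).image φ = ((H i).erase x).image ψ :=
    image_congr fun t ht => ha t (mem_of_mem_erase ht) (ne_of_mem_erase ht)
  refine Bx.det hU (e1 φ ▸ h.2 i) (e2 ▸ e1 ψ ▸ h'.2 i) ?_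
  have a1 := card_union_le W (((H i).erase x).image φ)
  have a2 := card_image_le (s := (H i).erase x) (f := φ)
  have a3 := card_erase_add_one hx
  have := C.cH i
  omega

omit [Fintype T] [Fintype ι] [DecidableEq ι] in
theorem Col.inj (C : Col m H e c) (hU : U ∈ SS α r) (hW : W.card + (m + 3) = r)
    (h : Val U H W φ) (i : ι) : Set.InjOn φ (H i) := by
  have a1 := card_union_le W ((H i).image φ)
  have a2 := card_image_le (s := H i) (f := φ)
  have a3 := card_of hU (h.2 i)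
  have := C.cH i
  exact card_image_iff.1 (by omega)

omit [Fintype T] [DecidableEq T] [Fintype ι] [DecidableEq ι] in
theorem Col.e_inj [DecidableEq T] (C : Col m H e c) : Function.Injective e :=
  fun i j h => C.pr j i (h ▸ C.he i)

omit [DecidableEq ι] in
theorem Col.all (C : Col m H e c) (hU : U ∈ SS α r) (hW : W.card + (m + 3) = r)
    (h : Val U H W φ) (h' : Val U H W ψ) (ha : ∀ t ∈ (univ.image e)ᶜ, φ t = ψ t) : φ = ψ := by
  funext t
  by_cases ht : t ∈ univ.image e
  · obtain ⟨i, -, rfl⟩ := mem_image.1 ht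
    refine C.det hU hW h h' (C.he i) fun s hs ne => ha s (mem_compl.2 fun k => ?_)
    obtain ⟨j, -, rfl⟩ := mem_image.1 k
    exact ne (by rw [C.pr j i hs])
  · exact ha t (mem_compl.2 ht)

omit [DecidableEq ι] in
theorem Col.deg (C : Col m H e c) (hU : U ∈ SS α r) (hW : W.card + (m + 3) = r) {s t : T}
    (hst : s ≠ t) : cnt (fun φ : T → α => Val U H W φ ∧ φ s = φ t) ≤
      Fintype.card α ^ (((univ.image e)ᶜ).card - 1) := by
  have np : ∀ i, ∀ x ∈ H i, x ≠ e i → x ∈ (univ.image e)ᶜ := fun i x hx ne =>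
    mem_compl.2 fun k => by
      obtain ⟨j, -, rfl⟩ := mem_image.1 k
      exact ne (by rw [C.pr j i hx])
  have key : ∀ s t : T, s ≠ t → t ∈ (univ.image e)ᶜ → ∀ φ ψ : T → α, Val U H W φ → φ s = φ t →
      Val U H W ψ → ψ s = ψ t → (∀ y ∈ ((univ.image e)ᶜ).erase t, φ y = ψ y) → φ t = ψ t := by
    intro s t hst ht φ ψ h1 h2 h3 h4 ha
    rw [← h2, ← h4]
    by_cases hs : s ∈ univ.image e
    · obtain ⟨i, -, rfl⟩ := mem_image.1 hs
      by_cases k : t ∈ H i
      · exact absurd (C.inj hU hW h1 i (C.he i) k h2) hst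
      · exact C.det hU hW h1 h3 (C.he i) fun y hy ne =>
          ha y (mem_erase.2 ⟨fun q => k (q ▸ hy), np i y hy ne⟩)
    · exact ha s (mem_erase.2 ⟨hst, mem_compl.2 hs⟩)
  obtain ⟨x, hx, hx'⟩ : ∃ x ∈ (univ.image e)ᶜ, ∀ φ ψ : T → α, Val U H W φ → φ s = φ t →
      Val U H W ψ → ψ s = ψ t → (∀ y ∈ ((univ.image e)ᶜ).erase x, φ y = ψ y) → φ x = ψ x := by
    by_cases ht : t ∈ univ.image e
    swap
    · exact ⟨t, mem_compl.2 ht, key s t hst (mem_compl.2 ht)⟩
    by_cases hs : s ∈ univ.image e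
    swap
    · exact ⟨s, mem_compl.2 hs, fun φ ψ h1 h2 h3 h4 =>
        key t s hst.symm (mem_compl.2 hs) φ ψ h1 h2.symm h3 h4.symm⟩
    obtain ⟨i, -, rfl⟩ := mem_image.1 hs
    obtain ⟨j, -, rfl⟩ := mem_image.1 ht
    have a1 := C.far j i fun q => hst (by rw [q])
    rw [sd_of_card_eq ((C.cH j).trans (C.cH i).symm)] at a1
    obtain ⟨x, b1, b2⟩ := exists_mem_ne (s := H j \ H i) (by omega) (e j)
    obtain ⟨b3, b4⟩ := mem_sdiff.1 b1
    refine ⟨x, np j x b3 b2, fun φ ψ h1 h2 h3 h4 ha => C.det hU hW h1 h3 b3 fun y hy ne => ?_⟩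
    by_cases k : y = e j
    · rw [k, ← h2, ← h4]
      exact C.det hU hW h1 h3 (C.he i) fun y hy ne =>
        ha y (mem_erase.2 ⟨fun q => b4 (q ▸ hy), np i y hy ne⟩)
    · exact ha y (mem_erase.2 ⟨ne, np j y hy k⟩)
  rw [← card_erase_of_mem hx]
  refine cnt_det _ (fun φ => φ) _ fun φ ψ h1 h2 ha => C.all hU hW h1.1 h2.1 fun y hy => ?_
  by_cases k : y = x
  · rw [k]; exact hx' φ ψ h1.1 h1.2 h2.1 h2.2 ha
  · exact ha y (mem_erase.2 ⟨k, hy⟩)

omit [Fintype α] [DecidableEq α] in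
theorem other (k : Fin (m + 3)) : ∃ j : Fin (m + 3), j.val < 3 ∧ k ≠ j := by
  by_cases h : k = 0
  · exact ⟨1, by simp, by simp [h]⟩
  · exact ⟨0, by simp, h⟩

theorem notMem_of (hU : U ∈ SS α r) {β : Type} [DecidableEq β] {S : Finset β} {x : β → α} {z : α}
    (h : insert z (W ∪ S.image x) ∈ U) (hc : W.card + S.card + 1 = r) :
    z ∉ W ∧ ∀ k ∈ S, x k ∉ W := by
  have a1 := card_of hU h
  have a2 := card_image_le (s := S) (f := x)
  have a3 := card_union_le W (S.image x)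
  have a4 := card_insert_le z (W ∪ S.image x)
  refine ⟨fun t => ?_, fun k hk t => ?_⟩
  · rw [insert_eq_of_mem (mem_union_left _ t)] at a1
    omega
  · have a5 := card_union_add_card_inter W (S.image x)
    have a6 := card_pos.2 ⟨x k, mem_inter.2 ⟨t, mem_image_of_mem x hk⟩⟩
    omega

omit [DecidableEq ι] in
theorem Col.build (C : Col m H e c) (hU : U ∈ SS α r) (hW : W.card + (m + 3) = r)
    (g : Fin (m + 3) → T → α) (hg : ∀ w : Fin (m + 3) → T, cv U (fun k => g k (w k)) W) :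
    ∃ φ, Val U H W φ ∧ ∀ t ∈ (univ.image e)ᶜ, φ t = g (c t) t := by
  classical
  have h1 : ∀ i, ∃ z, insert z (W ∪ ((H i).erase (e i)).image fun t => g (c t) t) ∈ U := fun i => by
    obtain ⟨j, j3, hb⟩ := C.bij i
    have : ∀ k : Fin (m + 3), ∃ t, k ≠ j → t ∈ (H i).erase (e i) ∧ c t = k := fun k => by
      by_cases q : k = j
      · exact ⟨e i, fun a => absurd q a⟩
      · obtain ⟨t, a1, a2⟩ := hb.surjOn (show k ∈ {k | k ≠ j} from q)
        exact ⟨t, fun _ => ⟨a1, a2⟩⟩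
    choose w hw using this
    obtain ⟨z, hz⟩ := hg w j j3
    refine ⟨z, (congrArg (fun S => insert z (W ∪ S) ∈ U) ?_).mp hz⟩
    ext x
    simp only [mem_image]
    constructor
    · rintro ⟨k, hk, rfl⟩
      obtain ⟨a1, a2⟩ := hw k (ne_of_mem_erase hk)
      exact ⟨w k, a1, by rw [a2]⟩
    · rintro ⟨t, ht, rfl⟩
      have q : c t ≠ j := hb.mapsTo ht
      obtain ⟨a1, a2⟩ := hw (c t) q
      exact ⟨c t, mem_erase.2 ⟨q, mem_univ _⟩, by rw [hb.injOn a1 ht a2]⟩
  choose z hz using h1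
  have e1 : ∀ i, Function.extend e z (fun t => g (c t) t) (e i) = z i := C.e_inj.extend_apply _ _
  have e2 : ∀ t ∈ (univ.image e)ᶜ, Function.extend e z (fun t => g (c t) t) t = g (c t) t :=
    fun t ht => Function.extend_apply' _ _ _ fun ⟨i, hi⟩ =>
      mem_compl.1 ht (mem_image.2 ⟨i, mem_univ _, hi⟩)
  refine ⟨_, ⟨fun t => ?_, fun i => ?_⟩, e2⟩
  · by_cases ht : t ∈ univ.image e
    · obtain ⟨i, -, rfl⟩ := mem_image.1 ht
      rw [e1]
      refine (notMem_of hU (hz i) ?_).1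
      have := card_erase_add_one (C.he i)
      have := C.cH i
      omega
    · rw [e2 t (mem_compl.2 ht)]
      obtain ⟨j, j3, ne⟩ := other (c t)
      obtain ⟨y, hy⟩ := hg (fun _ => t) j j3
      refine (notMem_of hU hy ?_).2 (c t) (mem_erase.2 ⟨ne, mem_univ _⟩)
      have := card_erase_add_one (mem_univ j)
      rw [card_univ, Fintype.card_fin] at this
      omega
  · refine (congrArg (· ∈ U) ?_).mp (hz i)
    conv_rhs => rw [← insert_erase (C.he i), image_insert, union_insert, e1]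
    refine congrArg (fun S => insert (z i) (W ∪ S)) (image_congr fun t ht => (e2 t ?_).symm)
    refine mem_compl.2 fun k => ?_
    obtain ⟨j, -, rfl⟩ := mem_image.1 k
    exact ne_of_mem_erase ht (by rw [C.pr j i (mem_of_mem_erase ht)])

omit [DecidableEq ι] in
theorem Col.fib (C : Col m H e c) (hU : U ∈ SS α r) {k : ℕ} (hk : k + (m + 3) = r) :
    cnt (fun q : (Fin (m + 3) → T → α) × {W : Finset α // W.card = k} =>
      ∀ w : Fin (m + 3) → T, cv U (fun j => q.1 j (w j)) q.2.1) *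
        Fintype.card α ^ ((univ.image e)ᶜ).card ≤
    cnt (fun q : {W : Finset α // W.card = k} × (T → α) => Val U H q.1.1 q.2) *
      Fintype.card α ^ ((m + 3) * Fintype.card T) := by
  set D := (((univ.image e)ᶜ).image fun t => (c t, t))ᶜ with hD
  have hc : D.card + ((univ.image e)ᶜ).card = (m + 3) * Fintype.card T := by
    rw [← card_image_of_injective (univ.image e)ᶜ (f := fun t => (c t, t))
      fun _ _ h => (Prod.mk.inj h).2, hD, add_comm, card_add_card_compl, Fintype.card_prod,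
      Fintype.card_fin]
  rw [← hc, pow_add, ← mul_assoc]
  refine Nat.mul_le_mul_right _ (cnt_fib
    (fun q y => y.1 = q.2 ∧ ∀ t ∈ (univ.image e)ᶜ, y.2 t = q.1 (c t) t) _ (fun q hq => ?_)
    fun y _ => cnt_det _ (fun q z => q.1 z.1 z.2) D fun q q' a1 a2 a3 => ?_)
  · obtain ⟨φ, a1, a2⟩ := C.build hU (by rw [q.2.2, hk]) q.1 hq
    exact ⟨(q.2, φ), a1, rfl, a2⟩
  · refine Prod.ext (funext fun j => funext fun t => ?_) (a1.2.1.symm.trans a2.2.1)
    by_cases u : (j, t) ∈ D
    · exact a3 _ u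
    · obtain ⟨s, b1, b2⟩ := mem_image.1 (not_not.1 (mem_compl.not.1 u))
      obtain ⟨rfl, rfl⟩ := Prod.mk.inj b2
      exact (a1.2.2 s b1).symm.trans (a2.2.2 s b1)

omit [DecidableEq ι] in
theorem Col.cut (C : Col m H e c) (hU : U ∈ SS α r) {k : ℕ} (hk : k + (m + 3) = r) :
    cnt (fun q : {W : Finset α // W.card = k} × (T → α) => Val U H q.1.1 q.2) * Fintype.card α ≤
      cnt (fun σ : Finset α × (T → α) => Site r (m + 3) σ ∧ ∀ i, pt σ (H i) ∈ U) *
        Fintype.card α + Fintype.card T ^ 2 * (Fintype.card α).choose k *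
          Fintype.card α ^ ((univ.image e)ᶜ).card := by
  have h1 := cnt_split (fun q : {W : Finset α // W.card = k} × (T → α) => Val U H q.1.1 q.2)
    fun q => Function.Injective q.2
  have h2 := cnt_le (p := fun q : {W : Finset α // W.card = k} × (T → α) =>
    Val U H q.1.1 q.2 ∧ Function.Injective q.2)
    (q := fun σ : Finset α × (T → α) => Site r (m + 3) σ ∧ ∀ i, pt σ (H i) ∈ U)
    (fun q => (q.1.1, q.2)) (fun q hq => ⟨⟨hq.2, hq.1.1, by rw [q.1.2, hk]⟩, hq.1.2⟩)
    fun q q' _ _ h => Prod.ext (Subtype.ext (Prod.mk.inj h).1) (Prod.mk.inj h).2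
  have h3 := cnt_fib (p := fun q : {W : Finset α // W.card = k} × (T → α) =>
    Val U H q.1.1 q.2 ∧ ¬ Function.Injective q.2)
    (q := fun _ : (T × T) × {W : Finset α // W.card = k} => True)
    (fun q y => y.2 = q.1 ∧ y.1.1 ≠ y.1.2 ∧ q.2 y.1.1 = q.2 y.1.2)
    (Fintype.card α ^ (((univ.image e)ᶜ).card - 1)) (fun q hq => by
      obtain ⟨s, t, a1, a2⟩ := Function.not_injective_iff.1 hq.2
      exact ⟨((s, t), q.1), trivial, rfl, a2, a1⟩) fun y _ => by
      by_cases u : y.1.1 = y.1.2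
      · simp [cnt, u]
      · exact (cnt_le (fun q => q.2) (fun q hq => ⟨hq.2.1 ▸ hq.1.1, hq.2.2.2⟩) fun q q' a1 a2 h =>
          Prod.ext (a1.2.1.symm.trans a2.2.1) h).trans (C.deg hU (by rw [y.2.2, hk]) u)
  rw [cnt_true, Fintype.card_prod, Fintype.card_prod, Fintype.card_finset_len, ← sq] at h3
  have h4 : Fintype.card T ^ 2 * (Fintype.card α).choose k *
      Fintype.card α ^ (((univ.image e)ᶜ).card - 1) * Fintype.card α ≤
      Fintype.card T ^ 2 * (Fintype.card α).choose k * Fintype.card α ^ ((univ.image e)ᶜ).card := by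
    rcases isEmpty_or_nonempty T with t | ⟨⟨t⟩⟩
    · simp
    have : ((univ.image e)ᶜ).Nonempty := by
      by_cases ht : t ∈ univ.image e
      · obtain ⟨i, -, -⟩ := mem_image.1 ht
        obtain ⟨x, b1, b2⟩ := exists_mem_ne (s := H i) (by rw [C.cH]; omega) (e i)
        refine ⟨x, mem_compl.2 fun k => ?_⟩
        obtain ⟨j, -, rfl⟩ := mem_image.1 k
        exact b2 (by rw [C.pr j i b1])
      · exact ⟨t, mem_compl.2 ht⟩
    rw [mul_assoc, ← pow_succ, Nat.sub_add_cancel (card_pos.2 this)]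
  refine (Nat.mul_le_mul_right _ (h1.trans (add_le_add h2 h3))).trans ?_
  rw [add_mul]
  exact add_le_add le_rfl h4

theorem dense (m : ℕ) {a : ℝ} (ha : 0 < a) : ∃ b : ℝ, 0 < b ∧ ∀ n r k : ℕ, 0 < n →
    n ≤ 6 * (k + 1) → 3 * r ≤ 2 * n → k + (m + 3) = r → ∀ U ∈ SS (Fin n) r,
      a * n.choose r / n ≤ U.card → b * n.choose r * (n : ℝ) ^ (m + 3) ≤
        cnt fun q : (Fin (m + 3) → Fin n) × {W : Finset (Fin n) // W.card = k} =>
          cv U q.1 q.2.1 := by
  have hε : 0 < a / 31104 := by positivity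
  have hτ := SimpleGraph.triangleRemovalBound_pos hε
  refine ⟨SimpleGraph.triangleRemovalBound (a / 31104) * a / (432 * 6 ^ m), by positivity,
    fun n r k n0 h1 h2 hk U hU hc => ?_⟩
  set τ := SimpleGraph.triangleRemovalBound (a / 31104)
  have n1 : (0 : ℝ) < n := by exact_mod_cast n0
  have a1 := many_tr hU (k := k + m) (by omega) hε
  have a2 := (Nat.cast_le (α := ℝ)).2 (many_cv (U := U) m k)
  rw [Nat.cast_mul, Nat.cast_pow, Nat.cast_add, Nat.cast_one] at a2
  rw [Fintype.card_fin] at a1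
  have a3 : (n.choose (k + m) : ℝ) ≤ 8 * n.choose r := by
    have := choose_le h2 3
    rw [show r - 3 = k + m by omega] at this
    exact_mod_cast this
  have a4 : (n : ℝ) / 6 ≤ k + 1 := by
    rw [div_le_iff₀' (by norm_num)]
    exact_mod_cast h1
  have a5 : (n : ℝ) / 6 ≤ ((k + m : ℕ) : ℝ) + 1 :=
    a4.trans (by push_cast; linarith [m.cast_nonneg (α := ℝ)])
  set N : ℝ := (n.choose r : ℝ)
  have N0 : 0 ≤ N := Nat.cast_nonneg _
  have a6 : a * N * (n : ℝ) ^ 2 / 216 ≤ (((k + m : ℕ) : ℝ) + 1) ^ 3 * U.card :=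
    calc _ = ((n : ℝ) / 6) ^ 3 * (a * N / n) := by field_simp; ring
      _ ≤ _ := by gcongr
  have a7 : (n.choose (k + m) : ℝ) * (9 * (a / 31104) * (n : ℝ) ^ 2) ≤ a * N * (n : ℝ) ^ 2 / 432 :=
    (mul_le_mul_of_nonneg_right a3 (by positivity)).trans (le_of_eq (by ring))
  have a8 := (mul_le_mul_of_nonneg_left (b := a * N * (n : ℝ) ^ 2 / 432) (by linarith)
    (by positivity : 0 ≤ τ * (n : ℝ) ^ 3)).trans a1
  have a9 := le_of_mul_le_mul_left (a := (n : ℝ) ^ 2) (b := τ * a / 432 * N * (n : ℝ) ^ 3)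
    (le_trans (le_of_eq (by ring)) a8) (by positivity)
  refine le_trans ?_ a2
  calc _ = ((n : ℝ) / 6) ^ m * (τ * a / 432 * N * (n : ℝ) ^ 3) := by
        rw [div_pow]; field_simp; ring
    _ ≤ _ := by gcongr

omit [DecidableEq ι] in
theorem Col.site (C : Col m H e c) {a : ℝ} (ha : 0 < a) : ∃ b : ℝ, 0 < b ∧
    ∀ᶠ n : ℕ in Filter.atTop, ∀ r, n ≤ 3 * r → 3 * r ≤ 2 * n → ∀ U ∈ SS (Fin n) r,
      a * n.choose r / n ≤ U.card → b * n.choose r * (n : ℝ) ^ Fintype.card T ≤
        cnt (fun σ : Finset (Fin n) × (T → Fin n) => Site r (m + 3) σ ∧ ∀ i, pt σ (H i) ∈ U) *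
          (n : ℝ) ^ Fintype.card ι := by
  obtain ⟨b, b0, hb⟩ := dense m ha
  obtain ⟨A, hA⟩ : ∃ A, A = (b / 2 ^ (m + 3)) ^ Fintype.card T ^ (m + 3) := ⟨_, rfl⟩
  have A0 : 0 < A := by rw [hA]; positivity
  refine ⟨A / 2 * b, by positivity, ?_⟩
  filter_upwards [Filter.eventually_ge_atTop (6 * (m + 3)),
    tendsto_natCast_atTop_atTop.eventually_ge_atTop (2 * (Fintype.card T : ℝ) ^ 2 / A)]
    with n n1 n2 r h1 h2 U hU hc
  obtain ⟨k, hk⟩ : ∃ k, k + (m + 3) = r := ⟨r - (m + 3), by omega⟩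
  have n0 : (0 : ℝ) < n := by exact_mod_cast (by omega : 0 < n)
  have a1 := hb n r k (by omega) (by omega) h2 hk U hU hc
  have a2 : (n.choose k : ℝ) ≤ 2 ^ (m + 3) * n.choose r := by
    have := choose_le h2 (m + 3)
    rw [show r - (m + 3) = k by omega] at this
    exact_mod_cast this
  have a3 := box (V := T) (m + 3) {W : Finset (Fin n) // W.card = k} (fun x W => cv U x W.1)
    (d := b / 2 ^ (m + 3)) (by positivity) (le_trans (by
      rw [Fintype.card_finset_len, Fintype.card_fin]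
      calc _ ≤ b / 2 ^ (m + 3) * ((n : ℝ) ^ (m + 3) * (2 ^ (m + 3) * n.choose r)) := by gcongr
        _ = _ := by field_simp) a1)
  have a4 : b * n.choose r ≤ n.choose k := by
    have := cnt_mono (q := fun _ => True) (fun
      (q : (Fin (m + 3) → Fin n) × {W : Finset (Fin n) // W.card = k}) (_ : cv U q.1 q.2.1) =>
        trivial)
    rw [cnt_true, Fintype.card_prod, Fintype.card_finset_len, Fintype.card_fun,
      Fintype.card_fin, Fintype.card_fin] at this
    refine le_of_mul_le_mul_right (a1.trans ?_) (pow_pos n0 (m + 3))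
    rw [mul_comm]
    exact_mod_cast this
  have a5 := C.fib hU hk
  have a6 := C.cut hU hk
  have a7 : ((univ.image e)ᶜ).card + Fintype.card ι = Fintype.card T := by
    rw [← card_univ (α := ι), ← card_image_of_injective univ C.e_inj, add_comm,
      card_add_card_compl]
  rw [← hA, Fintype.card_finset_len] at a3
  simp only [Fintype.card_fin] at a3 a5 a6
  rw [← Nat.cast_le (α := ℝ)] at a5 a6
  push_cast at a5 a6
  generalize (cnt (fun σ : Finset (Fin n) × (T → Fin n) =>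
    Site r (m + 3) σ ∧ ∀ i, pt σ (H i) ∈ U) : ℝ) = S at *
  generalize (cnt (fun q : {W : Finset (Fin n) // W.card = k} × (T → Fin n) =>
    Val U H q.1.1 q.2) : ℝ) = Q at *
  generalize ((univ.image e)ᶜ).card = p at *
  have w0 : (0 : ℝ) ≤ n.choose k := Nat.cast_nonneg _
  generalize (n.choose k : ℝ) = w at *
  have b1 : A * w * (n : ℝ) ^ p ≤ Q := le_of_mul_le_mul_right
    (le_trans (le_of_eq (by ring)) ((mul_le_mul_of_nonneg_right a3 (pow_pos n0 p).le).trans a5))
    (pow_pos n0 ((m + 3) * Fintype.card T))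
  rw [div_le_iff₀ A0] at n2
  have b2 : A / 2 * w * (n : ℝ) ^ p ≤ S := by
    refine le_of_mul_le_mul_right ?_ n0
    have c1 := mul_le_mul_of_nonneg_right b1 n0.le
    have c2 := mul_le_mul_of_nonneg_right n2 (by positivity : 0 ≤ w * (n : ℝ) ^ p)
    linarith
  rw [← a7, pow_add, ← mul_assoc]
  refine mul_le_mul_of_nonneg_right (le_trans ?_ b2) (by positivity)
  rw [mul_assoc (A / 2)]
  gcongr

end base

end Pool.Agent.MP_c3fbfc_co.V.G.Bx
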