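import Mathlib.Order.CompletePartialOrder
import Pool.Agent.MP_c3fbfc_co.Asym
import Pool.Agent.MP_c3fbfc_co.Defs

/-! From matroids to rank functions and back. -/

namespace Pool.Agent.MP_c3fbfc_co

open Finset Filter Topology
open scoped Classical Matroid

theorem Isom.refl {α : Type*} (M : Matroid α) : Isom M M := ⟨Equiv.refl _, fun I => by simp⟩

theorem Isom.symm {α β : Type*} {M : Matroid α} {N : Matroid β} (h : Isom M N) : Isom N M := by
  obtain ⟨e, he⟩ := h
  refine ⟨e.symm, fun I => ?_⟩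
  rw [he, Equiv.image_symm_image]

theorem Isom.trans {α β γ : Type*} {M : Matroid α} {N : Matroid β} {K : Matroid γ}
    (h : Isom M N) (h' : Isom N K) : Isom M K := by
  obtain ⟨e, he⟩ := h
  obtain ⟨e', he'⟩ := h'
  refine ⟨e.trans e', fun I => ?_⟩
  rw [he, he', Equiv.coe_trans, Set.image_comp]

/-- minor, through an injective relabelling -/
def HM {α β : Type*} (M : Matroid α) (N : Matroid β) : Prop :=
  ∃ (f : β → α) (hf : Set.InjOn f N.E), N.map f hf ≤m M

theorem HM.hasMinor {α β : Type*} {M : Matroid α} {N : Matroid β} (h : HM M N) :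
    HasMinor M N := by
  obtain ⟨f, hf, h⟩ := h
  refine ⟨_, h, Isom.symm ⟨Equiv.Set.imageOfInjOn f N.E hf, fun I => ?_⟩⟩
  rw [← Matroid.map_image_indep_iff (f := f) (hf := hf) (by rintro _ ⟨x, -, rfl⟩; exact x.2),
    Set.image_image, Set.image_image]
  rfl

theorem HM.dual {α β : Type*} {M : Matroid α} {N : Matroid β} (h : HM M✶ N✶) : HM M N := by
  obtain ⟨f, hf, C, D, h⟩ := h
  refine ⟨f, hf, D \ C, C, ?_⟩
  have := congrArg Matroid.dual h
  rw [Matroid.dual_contract_delete, Matroid.dual_dual, Matroid.delete_contract_comm',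
    Matroid.map_dual] at this
  simpa using this

section rank

variable {α : Type*} [Fintype α] [DecidableEq α]

/-- the rank function on finsets -/
noncomputable def rk (M : Matroid α) : Finset α → ℕ := fun X => (M.eRk X).toNat

omit [Fintype α] [DecidableEq α] in
theorem rk_cast (M : Matroid α) (X : Finset α) : (rk M X : ℕ∞) = M.eRk X :=
  ENat.natCast_toNat (ne_top_of_le_ne_top X.finite_toSet.encard_lt_top.ne (M.eRk_le_encard X))

theorem rk_isRk (M : Matroid α) : IsRk (rk M) (rk M univ) where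
  le_card := by
    intro X
    have := M.eRk_le_encard X
    rw [← rk_cast, Set.encard_coe_eq_coe_finsetCard] at this
    exact_mod_cast this
  mono := by
    intro X Y h
    have := M.eRk_mono (Finset.coe_subset.2 h)
    rw [← rk_cast, ← rk_cast] at this
    exact_mod_cast this
  submod := by
    intro X Y
    have := M.eRk_inter_add_eRk_union_le X Y
    rw [← Finset.coe_inter, ← Finset.coe_union, ← rk_cast, ← rk_cast, ← rk_cast,
      ← rk_cast] at this
    have : rk M (X ∩ Y) + rk M (X ∪ Y) ≤ rk M X + rk M Y := by exact_mod_cast this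
    omega
  top := rfl

omit [Fintype α] [DecidableEq α] in
theorem indep_iff_rk (M : Matroid α) (X : Finset α) : M.Indep X ↔ rk M X = X.card := by
  rw [Matroid.indep_iff_eRk_eq_encard_of_finite X.finite_toSet, ← rk_cast,
    Set.encard_coe_eq_coe_finsetCard]
  exact Nat.cast_inj

omit [DecidableEq α] in
theorem isBase_iff_rk (M : Matroid α) (X : Finset α) :
    M.IsBase X ↔ X ∈ bases (rk M) (rk M univ) := by
  have e : (rk M univ : ℕ∞) = M.eRank := by rw [rk_cast, Finset.coe_univ, Matroid.eRk_univ_eq]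
  rw [mem_bases]
  constructor
  · intro h
    have h1 := h.encard_eq_eRank
    rw [← e, Set.encard_coe_eq_coe_finsetCard, Nat.cast_inj] at h1
    exact ⟨h1, ((indep_iff_rk M X).1 h.indep).trans h1⟩
  · rintro ⟨h1, h2⟩
    refine ((indep_iff_rk M X).2 (h2.trans h1.symm)).isBase_of_eRk_ge X.finite_toSet ?_
    rw [← e, ← rk_cast, h2]

omit [DecidableEq α] in
theorem eq_of_bases {M M' : Matroid α} (hE : M.E = M'.E)
    (h : bases (rk M) (rk M univ) = bases (rk M') (rk M' univ)) : M = M' := by
  refine Matroid.ext_isBase hE (fun B _ => ?_)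
  lift B to Finset α using Set.toFinite B
  rw [isBase_iff_rk, isBase_iff_rk, h]

/-- the sparse paving matroid of a stable set -/
theorem exists_sparse {r : ℕ} {I : Finset (Finset α)} (hI : I ∈ (stabs α r).erase (Vr α r)) :
    ∃ M : Matroid α, M.E = Set.univ ∧ ∀ X : Finset α, M.IsBase X ↔ X ∈ Vr α r \ I := by
  obtain ⟨h1, h2⟩ := Finset.mem_erase.1 hI
  obtain ⟨h3, h4⟩ := Finset.mem_filter.1 h2
  rw [Finset.mem_powerset] at h3
  obtain ⟨B, hB⟩ : (Vr α r \ I).Nonempty := by
    rw [Finset.sdiff_nonempty]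
    exact fun t => h1 (Finset.Subset.antisymm h3 t)
  refine ⟨Matroid.ofIsBaseOfFinite (E := Set.univ) (Set.toFinite _)
    (fun B => ∃ X ∈ Vr α r \ I, B = ↑X) ⟨_, B, hB, rfl⟩ ?_ (fun _ _ => Set.subset_univ _),
    rfl, fun X => by simp⟩
  rintro _ _ ⟨X, hX, rfl⟩ ⟨Y, hY, rfl⟩ a ⟨ha, ha'⟩
  rw [Finset.mem_coe] at ha ha'
  simp only [Finset.mem_sdiff, mem_Vr] at hX hY
  have key : ∃ b ∈ Y, b ∉ X ∧ insert b (X.erase a) ∉ I := by
    by_contra hcon
    push Not at hcon
    obtain ⟨b, hb, hb'⟩ : ∃ b ∈ Y, b ∉ X := by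
      by_contra t
      push Not at t
      exact ha' ((Finset.eq_of_subset_of_card_le t (by omega)).symm ▸ ha)
    have c1 := card_sw ha hb'
    by_cases t : Y ⊆ insert b (X.erase a)
    · exact hY.2 (Finset.eq_of_subset_of_card_le t (by omega) ▸ hcon b hb hb')
    · obtain ⟨b', h5, h6⟩ := Finset.not_subset.1 t
      have h7 : b' ∉ X := fun t => h6 (Finset.mem_insert_of_mem (Finset.mem_erase.2
        ⟨fun e => ha' (e ▸ h5), t⟩))
      refine h4 _ (hcon b hb hb') _ (hcon b' h5 h7) ⟨b, Finset.mem_insert_self _ _, b', h6, ?_⟩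
      rw [Finset.erase_insert (fun t => hb' (Finset.mem_of_mem_erase t))]
  obtain ⟨b, b1, b2, b3⟩ := key
  refine ⟨b, ⟨b1, b2⟩, insert b (X.erase a), ?_, by simp⟩
  simp only [Finset.mem_sdiff, mem_Vr]
  exact ⟨(card_sw ha b2).trans hX.1, b3⟩

end rank

instance (n : ℕ) : Finite (LMat n) :=
  Finite.of_injective (fun M : LMat n => bases (rk M.1) (rk M.1 univ))
    (fun M M' h => Subtype.ext (eq_of_bases (M.2.trans M'.2.symm) h))

instance (n : ℕ) : Nonempty (LMat n) := ⟨⟨Matroid.freeOn Set.univ, rfl⟩⟩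

theorem stabs_le (n r : ℕ) : ((stabs (Fin n) r).card : ℝ) ≤ 2 * Nat.card (LMat n) := by
  have := Fintype.ofFinite (LMat n)
  have h1 := card_le_of_rel ((stabs (Fin n) r).erase (Vr (Fin n) r)) (univ : Finset (LMat n))
    (fun I M => ∀ X : Finset (Fin n), M.1.IsBase X ↔ X ∈ Vr (Fin n) r \ I) (fun I hI => by
      obtain ⟨M, h1, h2⟩ := exists_sparse hI
      exact ⟨⟨M, h1⟩, Finset.mem_univ _, h2⟩) (fun I hI I' hI' M _ h1 h2 => by
      have a1 := Finset.mem_powerset.1 (Finset.mem_filter.1 (Finset.mem_of_mem_erase hI)).1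
      have a2 := Finset.mem_powerset.1 (Finset.mem_filter.1 (Finset.mem_of_mem_erase hI')).1
      ext X
      have := (h1 X).symm.trans (h2 X)
      simp only [Finset.mem_sdiff] at this
      have b1 := @a1 X
      have b2 := @a2 X
      tauto)
  have h2 := Finset.pred_card_le_card_erase (s := stabs (Fin n) r) (a := Vr (Fin n) r)
  have h3 : 0 < Nat.card (LMat n) := Nat.card_pos
  rw [Finset.card_univ, ← Nat.card_eq_fintype_card] at h1
  have : (stabs (Fin n) r).card ≤ 2 * Nat.card (LMat n) := by omega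
  exact_mod_cast this

/-- few labelled matroids fail the property -/
def FewBad (B : ∀ n, Matroid (Fin n) → Prop) : Prop :=
  ∀ᶠ n : ℕ in atTop, (Nat.card {M : LMat n // B n M.1} : ℝ) * Real.exp (3 * n ^ 2) ≤
    4 * (n + 1) * Nat.card (LMat n)

theorem fewBad_free {β : Type*} {Q : Finset β} {h : Tern β} (H : U Q h)
    (B : ∀ n, Matroid (Fin n) → Prop)
    (hB : ∀ n (M : LMat n), B n M.1 → Free (rk M.1) (rk M.1 univ) Q h) : FewBad B := by
  filter_upwards [count_free H] with n hn
  have := Fintype.ofFinite (LMat n)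
  have h1 := hn _ (stabs_le n)
  have h2 := card_le_mul_of_rel (univ.filter (fun M : LMat n => B n M.1)) (range (n + 1))
    (fun M r => rk M.1 univ = r) (2 * (2 * Nat.card (LMat n)) / Real.exp (3 * n ^ 2))
    (fun M _ => ⟨_, Finset.mem_range.2 (by
      have := (rk_isRk M.1).le_card univ
      simp only [Finset.card_univ, Fintype.card_fin] at this
      omega), rfl⟩) (fun r _ => by
      rw [le_div_iff₀ (Real.exp_pos _), ← Finset.card_image_of_injective _
        (f := fun M : LMat n => bases (rk M.1) (rk M.1 univ))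
        (fun M M' h => Subtype.ext (eq_of_bases (M.2.trans M'.2.symm) h))]
      refine h1 r _ (fun ℬ hℬ => ?_)
      obtain ⟨M, hM, rfl⟩ := Finset.mem_image.1 hℬ
      simp only [Finset.mem_filter, Finset.mem_univ, true_and] at hM
      obtain ⟨a1, rfl⟩ := hM
      exact ⟨_, rk_isRk M.1, rfl, hB n M a1⟩)
  rw [Nat.card_eq_fintype_card, Fintype.card_subtype, ← le_div_iff₀ (Real.exp_pos _)]
  refine h2.trans (le_of_eq ?_)
  simp only [Finset.card_range]
  push_cast
  ring

theorem FewBad.dual {B B' : ∀ n, Matroid (Fin n) → Prop} (h : FewBad B)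
    (hB : ∀ n (M : Matroid (Fin n)), B' n M → B n M✶) : FewBad B' := by
  filter_upwards [h] with n hn
  refine le_trans (mul_le_mul_of_nonneg_right (Nat.cast_le.2 ?_) (Real.exp_pos _).le) hn
  refine Nat.card_le_card_of_injective
    (fun M => ⟨⟨M.1.1✶, M.1.2⟩, hB n _ M.2⟩) (fun M M' e => ?_)
  have : M.1.1✶ = M'.1.1✶ := congrArg (fun x => x.1.1) e
  exact Subtype.ext (Subtype.ext (Matroid.dual_inj.1 this))

theorem ratio_tendsto (a b c : ℕ → ℝ) (h1 : ∀ n, a n + b n = c n) (h2 : ∀ n, 0 < c n)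
    (h3 : ∀ n, 0 ≤ b n) (h4 : ∀ᶠ n : ℕ in atTop, b n * Real.exp n ≤ 4 * c n) :
    Tendsto (fun n => a n / c n) atTop (𝓝 1) := by
  have e : ∀ n, a n / c n = 1 - b n / c n := by
    intro n
    have := (h2 n).ne'
    field_simp
    linarith [h1 n]
  simp only [e]
  have t : Tendsto (fun n => b n / c n) atTop (𝓝 0) := by
    have t1 : Tendsto (fun n : ℕ => 4 * Real.exp (-(n : ℝ))) atTop (𝓝 (4 * 0)) :=
      (Real.tendsto_exp_neg_atTop_nhds_zero.comp tendsto_natCast_atTop_atTop).const_mul 4
    rw [mul_zero] at t1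
    refine squeeze_zero' (Eventually.of_forall (fun n => div_nonneg (h3 n) (h2 n).le)) ?_ t1
    filter_upwards [h4] with n hn
    rw [Real.exp_neg, ← div_eq_mul_inv, div_le_div_iff₀ (h2 n) (Real.exp_pos _)]
    exact hn
  simpa using t.const_sub 1

theorem card_add_compl {X : Type*} [Finite X] (p : X → Prop) :
    (Nat.card {x // p x} : ℝ) + Nat.card {x // ¬ p x} = Nat.card X := by
  have := Fintype.ofFinite X
  simp only [Nat.card_eq_fintype_card, Fintype.card_subtype]
  exact_mod_cast Finset.card_filter_add_card_filter_not (s := univ) p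

theorem card_LMat_le (n : ℕ) : (Nat.card (LMat n) : ℝ) ≤ Nat.card (UMat n) * n ^ n := by
  have := Fintype.ofFinite (LMat n)
  have : Finite (UMat n) := Quot.finite _
  have := Fintype.ofFinite (UMat n)
  have h := card_le_mul_of_rel (univ : Finset (LMat n)) (univ : Finset (UMat n))
    (fun M q => Quot.mk _ M = q) (n ^ n) (fun M _ => ⟨_, Finset.mem_univ _, rfl⟩) (by
      intro q _
      obtain ⟨M0, rfl⟩ := Quot.exists_rep q
      have := card_le_of_rel (univ.filter (fun M : LMat n =>
        Quot.mk (fun M M' : LMat n => Isom M.1 M'.1) M = Quot.mk _ M0))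
        (univ : Finset (Fin n → Fin n)) (fun M f => ∀ I, M.1.Indep I ↔ M0.1.Indep (f '' I))
        (fun M hM => by
          have eqv : Equivalence (fun M M' : LMat n => Isom M.1 M'.1) :=
            ⟨fun M => Isom.refl _, Isom.symm, Isom.trans⟩
          obtain ⟨e, he⟩ := eqv.eqvGen_iff.1 (Quot.eqvGen_exact (Finset.mem_filter.1 hM).2)
          have mem : ∀ x, x ∈ M.1.E := fun x => M.2.symm ▸ Set.mem_univ x
          refine ⟨fun x => (e ⟨x, mem x⟩).1, Finset.mem_univ _, fun I => ?_⟩
          have := he (Subtype.val ⁻¹' I)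
          rw [Subtype.image_preimage_coe, Set.inter_eq_right.2 (fun x _ => mem x)] at this
          rw [this]
          apply Iff.of_eq
          congr 1
          ext y
          simp only [Set.mem_image, Set.mem_preimage]
          constructor
          · rintro ⟨_, ⟨x, hx, rfl⟩, rfl⟩
            exact ⟨x.1, hx, rfl⟩
          · rintro ⟨x, hx, rfl⟩
            exact ⟨_, ⟨⟨x, mem x⟩, hx, rfl⟩, rfl⟩)
        (fun M _ M' _ f _ h1 h2 => Subtype.ext (Matroid.ext_indep (M.2.trans M'.2.symm)
          (fun I _ => (h1 I).trans (h2 I).symm)))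
      simp only [Finset.card_univ, Fintype.card_fun, Fintype.card_fin] at this
      exact_mod_cast this)
  simpa [Nat.card_eq_fintype_card] using h

theorem almostAll_of_fewBad {β : Type*} {N : Matroid β}
    (h : FewBad (fun _ M => ¬ HasMinor M N)) : AlmostAllHaveMinor N := by
  have key : ∀ᶠ n : ℕ in atTop, (Nat.card {M : LMat n // ¬ HasMinor M.1 N} : ℝ) *
      Real.exp n * n ^ n ≤ 4 * Nat.card (LMat n) := by
    filter_upwards [h, eventually_ge_atTop 1] with n hn n1
    have a0 : (1 : ℝ) ≤ n := by exact_mod_cast n1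
    have a1 : (n : ℝ) + 1 ≤ Real.exp n := Real.add_one_le_exp _
    have a2 : (n : ℝ) ^ n ≤ Real.exp (n * n) := by
      rw [Real.exp_nat_mul]
      gcongr
      linarith
    have a3 : Real.exp n * n ^ n * (n + 1) ≤ Real.exp (3 * n ^ 2) := by
      calc _ ≤ Real.exp n * Real.exp (n * n) * Real.exp n := by gcongr
        _ ≤ _ := by
          rw [← Real.exp_add, ← Real.exp_add, Real.exp_le_exp]
          nlinarith
    refine le_of_mul_le_mul_right ?_ (show (0 : ℝ) < n + 1 by linarith)
    have a4 := mul_le_mul_of_nonneg_left a3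
      (Nat.cast_nonneg (α := ℝ) (Nat.card {M : LMat n // ¬ HasMinor M.1 N}))
    linarith
  constructor
  · have fin : ∀ n, Finite (UMat n) := fun n => Quot.finite _
    have ne : ∀ n, Nonempty (UMat n) := fun n => ⟨Quot.mk _ (Classical.arbitrary _)⟩
    refine ratio_tendsto _ _ _ (fun n => card_add_compl _)
      (fun n => Nat.cast_pos.2 Nat.card_pos) (fun n => Nat.cast_nonneg _) ?_
    filter_upwards [key, eventually_ge_atTop 1] with n hn n1
    have a0 : (0 : ℝ) < n ^ n := by
      have : (0 : ℝ) < n := by exact_mod_cast n1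
      positivity
    have a1 : Nat.card {q : UMat n // ¬ ∀ M : LMat n, Quot.mk _ M = q → HasMinor M.1 N} ≤
        Nat.card {M : LMat n // ¬ HasMinor M.1 N} := by
      refine Nat.card_le_card_of_surjective
        (fun M => ⟨Quot.mk _ M.1, fun t => M.2 (t M.1 rfl)⟩) ?_
      rintro ⟨q, hq⟩
      push Not at hq
      obtain ⟨M, h1, h2⟩ := hq
      exact ⟨⟨M, h2⟩, Subtype.ext h1⟩
    have a2 := card_LMat_le n
    refine le_of_mul_le_mul_right ?_ a0
    have a3 := mul_le_mul_of_nonneg_right (Nat.cast_le (α := ℝ).2 a1)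
      (show 0 ≤ Real.exp n * n ^ n by positivity)
    linarith
  · refine ratio_tendsto _ _ _ (fun n => card_add_compl _)
      (fun n => Nat.cast_pos.2 Nat.card_pos) (fun n => Nat.cast_nonneg _) ?_
    filter_upwards [key, eventually_ge_atTop 1] with n hn n1
    have a0 : (1 : ℝ) ≤ n ^ n := one_le_pow₀ (by exact_mod_cast n1)
    refine le_trans (le_mul_of_one_le_right (by positivity) a0) hn

end Pool.Agent.MP_c3fbfc_co
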