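import Mathlib.Tactic.IntervalCases
import Pool.Agent.MP_c3fbfc_co.Link1

-- ======== part 0: formerly Pool.Agent.MP_c3fbfc_co.Link2
section MrgPart0

/-! From an embedded configuration to a minor. -/

namespace Pool.Agent.MP_c3fbfc_co

open Finset Filter Topology Sum
open scoped Classical Matroid

variable {β : Type*} {N : Matroid β}

theorem Paving.indep (h : Paving N) {I : Set β} (hI : I ⊆ N.E) (hc : I.encard < N.eRank) :
    N.Indep I := by
  by_contra hcon
  obtain ⟨C, hC, hCI⟩ := (Matroid.dep_of_not_indep hcon hI).exists_isCircuit_subset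
  exact absurd ((h C hCI).trans (Set.encard_le_encard hC)) (not_le.2 hc)

theorem sparse_eq (hE : N.E.Finite) (h : Paving N) (h' : Paving N✶) {s : ℕ} (hs : N.eRank = s)
    {A B : Finset β} (hA : N.Dep A) (hB : N.Dep B) (cA : A.card = s) (cB : B.card = s)
    (hI : s ≤ (A ∩ B).card + 1) : A = B := by
  by_contra hne
  have c1 : (A ∩ B).card < s := by
    by_contra t
    have e1 : A ∩ B = A := Finset.eq_of_subset_of_card_le Finset.inter_subset_left (by omega)
    have e2 : A ∩ B = B := Finset.eq_of_subset_of_card_le Finset.inter_subset_right (by omega)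
    exact hne (e1.symm.trans e2)
  have c2 := Finset.card_union_add_card_inter A B
  have r1 : rk N A < s := by
    have := Matroid.eRk_lt_encard_of_dep_of_finite A.finite_toSet hA
    rw [← rk_cast, Set.encard_coe_eq_coe_finsetCard, cA] at this
    exact_mod_cast this
  have r2 : rk N B < s := by
    have := Matroid.eRk_lt_encard_of_dep_of_finite B.finite_toSet hB
    rw [← rk_cast, Set.encard_coe_eq_coe_finsetCard, cB] at this
    exact_mod_cast this
  have r3 : rk N (A ∩ B) = (A ∩ B).card := (indep_iff_rk N _).1 (h.indep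
    ((Finset.coe_subset.2 Finset.inter_subset_left).trans hA.subset_ground) (by
      rw [hs, Set.encard_coe_eq_coe_finsetCard]; exact_mod_cast c1))
  have r4 : rk N (A ∩ B) + rk N (A ∪ B) ≤ rk N A + rk N B := by
    have := N.eRk_inter_add_eRk_union_le A B
    rw [← Finset.coe_inter, ← Finset.coe_union, ← rk_cast, ← rk_cast, ← rk_cast,
      ← rk_cast] at this
    exact_mod_cast this
  have sub : ((A ∪ B : Finset β) : Set β) ⊆ N.E := by
    rw [Finset.coe_union]; exact Set.union_subset hA.subset_ground hB.subset_ground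
  have d1 := Set.encard_sdiff_add_encard_of_subset sub
  have d2 := N.eRank_add_eRank_dual
  have d3 : (N.E \ ((A ∪ B : Finset β) : Set β)).encard < N✶.eRank := by
    rw [← d2, hs, Set.encard_coe_eq_coe_finsetCard,
      show (A ∪ B).card = 1 + s by omega, Nat.cast_add, ← add_assoc, add_comm (s : ℕ∞)] at d1
    have := WithTop.add_right_cancel (ENat.natCast_ne_top s) d1
    rw [← this]
    exact (ENat.lt_add_one_iff (hE.subset Set.sdiff_subset).encard_lt_top.ne).2 le_rfl
  obtain ⟨-, B0, b1, b2⟩ := Matroid.dual_indep_iff_exists'.1 (h'.indep Set.sdiff_subset d3)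
  have b3 : B0 ⊆ ((A ∪ B : Finset β) : Set β) := by
    intro x hx
    by_contra t
    exact Set.disjoint_left.1 b2 ⟨b1.subset_ground hx, t⟩ hx
  have b4 := b1.indep.encard_le_eRk_of_subset b3
  rw [b1.encard_eq_eRank, hs, ← rk_cast] at b4
  have : s ≤ rk N (A ∪ B) := by exact_mod_cast b4
  omega

theorem hm_of {α : Type*} [Fintype α] [DecidableEq α] (M : Matroid α) (hM : M.E = Set.univ)
    (hE : N.E.Finite) (h : Paving N) {s : ℕ} (hs : N.eRank = s) (T : Finset α) (ψ : β → α)
    (inj : Set.InjOn ψ N.E) (dis : ∀ a ∈ N.E, ψ a ∉ T) (hT : T.card + s = rk M univ)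
    (key : ∀ A : Finset β, (A : Set β) ⊆ N.E → A.card = s →
      (N.Dep A ↔ rk M (A.image ψ ∪ T) < rk M univ)) : HM M N := by
  have R := rk_isRk M
  have crd : ∀ J : Finset β, (J : Set β) ⊆ N.E → (J.image ψ ∪ T).card = J.card + T.card := by
    intro J hJ
    rw [Finset.card_union_of_disjoint, Finset.card_image_of_injOn (inj.mono hJ)]
    refine Finset.disjoint_left.2 (fun x hx => ?_)
    obtain ⟨a, ha, rfl⟩ := Finset.mem_image.1 hx
    exact dis a (hJ ha)
  have base : ∀ B, N.IsBase B → M.Indep (ψ '' B ∪ T) := by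
    intro B hB
    lift B to Finset β using hE.subset hB.subset_ground
    have c1 : B.card = s := by
      have := hB.encard_eq_eRank
      rw [hs, Set.encard_coe_eq_coe_finsetCard] at this
      exact_mod_cast this
    have c2 := (key B hB.subset_ground c1).not.1 hB.indep.not_dep
    have c3 := crd B hB.subset_ground
    have c4 := R.le_card (B.image ψ ∪ T)
    rw [← Finset.coe_image, ← Finset.coe_union, indep_iff_rk]
    omega
  have hTi : M.Indep T := by
    obtain ⟨B, hB⟩ := N.exists_isBase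
    exact (base B hB).subset Set.subset_union_right
  refine ⟨ψ, inj, T, (ψ '' N.E)ᶜ, Matroid.ext_indep ?_ ?_⟩
  · ext x
    simp only [Matroid.map_ground, Matroid.delete_ground, Matroid.contract_ground, hM,
      Set.mem_sdiff, Set.mem_univ, true_and, Set.mem_compl_iff, not_not, Finset.mem_coe]
    refine ⟨fun t => ⟨?_, t⟩, fun t => t.2⟩
    obtain ⟨a, ha, rfl⟩ := t
    exact dis a ha
  · intro I hI
    obtain ⟨J, hJ, rfl⟩ := Set.subset_image_iff.1 hI
    rw [Matroid.map_image_indep_iff hJ, Matroid.delete_indep_iff, hTi.contract_indep_iff]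
    constructor
    · intro t
      obtain ⟨B, b1, b2⟩ := t.exists_isBase_superset
      refine ⟨⟨?_, (base B b1).subset (Set.union_subset_union_left _ (Set.image_mono b2))⟩,
        Set.disjoint_compl_right_iff_subset.2 (Set.image_mono hJ)⟩
      refine Set.disjoint_left.2 ?_
      rintro _ ⟨a, ha, rfl⟩
      exact dis a (hJ ha)
    · rintro ⟨⟨-, t⟩, -⟩
      lift J to Finset β using hE.subset hJ
      rw [← Finset.coe_image, ← Finset.coe_union, indep_iff_rk, crd J hJ] at t
      have c1 := R.le_top (J.image ψ ∪ T)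
      by_cases c : J.card = s
      · rw [← Matroid.not_dep_iff hJ, key J hJ c]
        omega
      · refine h.indep hJ ?_
        rw [hs, Set.encard_coe_eq_coe_finsetCard]
        exact_mod_cast (by omega : J.card < s)

/-- the extra points -/
def xs (s : ℕ) : Finset (Fin 5) := univ.filter (fun i => i.val + s < 3)

theorem card_xs {s : ℕ} (hs : s ≤ 3) : (xs s).card + s = 3 := by
  interval_cases s <;> decide

/-- the configuration of a matroid of rank at most 3 -/
noncomputable def cfg (N : Matroid β) [Fintype N.E] (s : ℕ) : Finset (Finset (N.E ⊕ Fin 5)) :=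
  (univ.filter (fun A : Finset N.E => A.card = s ∧ N.Dep (Subtype.val '' (A : Set N.E)))).image
    (fun A => A.disjSum (xs s))

theorem mem_cfg [Fintype N.E] {s : ℕ} {Z : Finset (N.E ⊕ Fin 5)} : Z ∈ cfg N s ↔
    ∃ A : Finset N.E, (A.card = s ∧ N.Dep (Subtype.val '' (A : Set N.E))) ∧
      A.disjSum (xs s) = Z := by
  simp [cfg]

theorem cfg_lin [Fintype N.E] (h : Paving N) (h' : Paving N✶) {s : ℕ} (hs : N.eRank = s)
    (h3 : s ≤ 3) : LinSys (cfg N s) where
  three := by
    intro Z hZ
    obtain ⟨A, ⟨h1, -⟩, rfl⟩ := mem_cfg.1 hZ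
    have := card_xs h3
    rw [Finset.card_disjSum]
    omega
  lin := by
    intro Z hZ Z' hZ' u v huv u1 v1 u2 v2
    obtain ⟨A, ⟨a1, a2⟩, rfl⟩ := mem_cfg.1 hZ
    obtain ⟨B, ⟨b1, b2⟩, rfl⟩ := mem_cfg.1 hZ'
    have c1 : ({u, v} : Finset (N.E ⊕ Fin 5)) ⊆ (A ∩ B).disjSum (xs s) := by
      intro x hx
      have x1 : x ∈ A.disjSum (xs s) := by
        rcases Finset.mem_insert.1 hx with rfl | t
        · exact u1
        · exact Finset.mem_singleton.1 t ▸ v1
      have x2 : x ∈ B.disjSum (xs s) := by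
        rcases Finset.mem_insert.1 hx with rfl | t
        · exact u2
        · exact Finset.mem_singleton.1 t ▸ v2
      rcases x with x | x <;> simp_all
    have c2 := Finset.card_le_card c1
    rw [Finset.card_pair huv, Finset.card_disjSum] at c2
    have c3 := card_xs h3
    have e := sparse_eq (Set.toFinite _) h h' hs (A := A.map (Function.Embedding.subtype _))
      (B := B.map (Function.Embedding.subtype _)) (by simpa using a2) (by simpa using b2)
      (by simpa using a1) (by simpa using b1) (by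
        rw [← Finset.map_inter, Finset.card_map]; omega)
    rw [Finset.map_injective _ e]

theorem hm_of_emb [Fintype N.E] {α : Type*} [Fintype α] [DecidableEq α] (M : Matroid α)
    (hM : M.E = Set.univ) (h : Paving N) {s : ℕ} (hs : N.eRank = s) (h3 : s ≤ 3)
    (hF : ¬ Free (rk M) (rk M univ) univ (hT (cfg N s))) : HM M N := by
  simp only [Free, not_forall, not_not] at hF
  obtain ⟨T, t1, t2, φ, inj, emb⟩ := hF
  have R := rk_isRk M
  have inj' : Function.Injective φ := fun a b => inj a (Finset.mem_univ _) b (Finset.mem_univ _)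
  have cx := card_xs h3
  have tri : ∀ Z : Finset (N.E ⊕ Fin 5), Z.card = 3 →
      (Z ∈ cfg N s ↔ rk M (Z.image φ ∪ T) < rk M univ) := by
    intro Z hZ
    obtain ⟨a, b, d, n1, n2, n3, rfl⟩ := Finset.card_eq_three.1 hZ
    have := emb a (Finset.mem_univ _) b (Finset.mem_univ _) d (Finset.mem_univ _) n1 n2 n3
    simp only [hT, con] at this
    simp only [Finset.image_insert, Finset.image_singleton]
    refine Iff.trans (Iff.of_eq (congrArg (· ∈ cfg N s) (by ext; simp))) (this.trans ?_)
    omega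
  have dis : ∀ a, a ≠ inr 3 → a ≠ inr 4 → φ a ∉ T := by
    intro a n1 n2 ha
    have c1 : ({a, inr 3, inr 4} : Finset (N.E ⊕ Fin 5)).card = 3 :=
      Finset.card_eq_three.2 ⟨_, _, _, n1, n2, by simp, rfl⟩
    have c2 : ({a, inr 3, inr 4} : Finset (N.E ⊕ Fin 5)) ∉ cfg N s := by
      intro t
      obtain ⟨A, -, e⟩ := mem_cfg.1 t
      have : inr 3 ∈ A.disjSum (xs s) := e ▸ by simp
      simp [xs] at this
    rw [tri _ c1] at c2
    have c3 := R.le_add_card (({a, inr 3, inr 4} : Finset (N.E ⊕ Fin 5)).image φ ∪ T) T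
      {φ (inr 3), φ (inr 4)} (by
        intro x
        simp only [Finset.image_insert, Finset.image_singleton, Finset.mem_union,
          Finset.mem_insert, Finset.mem_singleton]
        rintro ((rfl | t) | t) <;> tauto)
    have c4 := Finset.card_le_two (a := φ (inr 3)) (b := φ (inr 4))
    omega
  have disx : ∀ i ∈ xs s, φ (inr i) ∉ T := by
    intro i hi
    simp only [xs, Finset.mem_filter, Finset.mem_univ, true_and] at hi
    refine dis _ ?_ ?_ <;> simp only [ne_eq, inr.injEq] <;> rintro rfl <;> omega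
  refine hm_of M hM (Set.toFinite _) h hs ((xs s).image (fun i => φ (inr i)) ∪ T)
    (fun b => if hb : b ∈ N.E then φ (inl ⟨b, hb⟩) else φ (inr 0)) ?_ ?_ ?_ ?_
  · intro a ha b hb e
    simp only [dif_pos ha, dif_pos hb] at e
    simpa using inj' e
  · intro a ha
    simp only [dif_pos ha, Finset.mem_union, Finset.mem_image, not_or, not_exists, not_and]
    exact ⟨fun i _ e => by simpa using inj' e, dis _ (by simp) (by simp)⟩
  · rw [Finset.card_union_of_disjoint, Finset.card_image_of_injective _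
      (fun i j e => by simpa using inj' e)]
    · omega
    · refine Finset.disjoint_left.2 (fun x hx => ?_)
      obtain ⟨i, hi, rfl⟩ := Finset.mem_image.1 hx
      exact disx i hi
  · intro A hA hc
    set A' : Finset N.E := A.subtype (· ∈ N.E) with hA'
    have e1 : Subtype.val '' (A' : Set N.E) = A := by
      ext x
      simp only [hA', Set.mem_image, Finset.mem_coe, Finset.mem_subtype]
      exact ⟨fun ⟨y, y1, y2⟩ => y2 ▸ y1, fun t => ⟨⟨x, hA t⟩, t, rfl⟩⟩
    have e2 : A'.card = s := by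
      rw [hA', Finset.card_subtype, Finset.filter_true_of_mem (fun x hx => hA hx), hc]
    have e3 := tri (A'.disjSum (xs s)) (by rw [Finset.card_disjSum]; omega)
    have e4 : (A'.disjSum (xs s)).image φ ∪ T =
        A.image (fun b => if hb : b ∈ N.E then φ (inl ⟨b, hb⟩) else φ (inr 0)) ∪
          ((xs s).image (fun i => φ (inr i)) ∪ T) := by
      rw [← Finset.union_assoc]
      congr 1
      ext x
      simp only [Finset.mem_image, Finset.mem_union, Sum.exists, Finset.inl_mem_disjSum,
        Finset.inr_mem_disjSum, hA', Finset.mem_subtype]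
      refine or_congr_left ⟨?_, ?_⟩
      · rintro ⟨a, a1, rfl⟩
        exact ⟨a.1, a1, by simp⟩
      · rintro ⟨a, a1, rfl⟩
        exact ⟨⟨a, hA a1⟩, a1, by simp [dif_pos (hA a1)]⟩
    rw [← e4, ← e3, mem_cfg]
    refine ⟨fun t => ⟨A', ⟨e2, e1 ▸ t⟩, rfl⟩, ?_⟩
    rintro ⟨B, ⟨-, b⟩, e⟩
    rw [(Finset.disjSum_inj.1 e).1, e1] at b
    exact b

theorem fewBad_of_U [Fintype N.E] (h : Paving N) {s : ℕ} (hs : N.eRank = s) (h3 : s ≤ 3)
    (H : U univ (hT (cfg N s))) : FewBad (fun _ M => M.E = Set.univ ∧ ¬ HM M N) :=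
  fewBad_free H _ (fun _ M t => by
    by_contra hcon
    exact t.2 (hm_of_emb M.1 M.2 h hs h3 hcon))

end Pool.Agent.MP_c3fbfc_co

end MrgPart0

-- ======== part 1: formerly Pool.Agent.MP_c3fbfc_co.Main
section MrgPart1

/-! The main theorem for configurations with few lines. -/

namespace Pool.Agent.MP_c3fbfc_co

open Finset Filter Topology Sum
open scoped Classical Matroid

variable {β : Type*} {N : Matroid β}

theorem U_low [Fintype N.E] (h : Paving N) (h' : Paving N✶) {s : ℕ} (hs : N.eRank = s)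
    (h2 : s ≤ 2) : U univ (hT (cfg N s)) := by
  have L := cfg_lin h h' hs (by omega)
  have key := U_pseudoforest L (fun 𝓢 h𝓢 => ?_) univ
  · convert key
  have x0 : ∀ Z ∈ 𝓢, inr 0 ∈ Z := by
    intro Z hZ
    obtain ⟨A, -, rfl⟩ := mem_cfg.1 (h𝓢 hZ)
    simp only [Finset.inr_mem_disjSum, xs, Finset.mem_filter, Finset.mem_univ, true_and]
    simp only [Fin.val_zero]
    omega
  have c := mul_card_le_of_rel 𝓢 (@Finset.biUnion _ _ (fun a b => Classical.propDecidable _) 𝓢 id)
    (fun Z y => y ∈ Z.erase (inr 0)) 2 (fun Z hZ => by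
      have a1 := Finset.card_erase_add_one (x0 Z hZ)
      have a2 := L.three Z (h𝓢 hZ)
      have a3 : 2 = (Z.erase (inr 0)).card := by omega
      refine le_trans (le_of_eq (by exact_mod_cast a3)) (Nat.cast_le.2 (Finset.card_le_card ?_))
      intro y hy
      simp only [Finset.mem_filter, Finset.mem_biUnion, id]
      exact ⟨⟨Z, hZ, Finset.mem_of_mem_erase hy⟩, hy⟩)
    (fun Z hZ Z' hZ' y _ y1 y2 => L.lin Z (h𝓢 hZ) Z' (h𝓢 hZ') y (inr 0)
      (Finset.ne_of_mem_erase y1) (Finset.mem_of_mem_erase y1) (x0 Z hZ)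
      (Finset.mem_of_mem_erase y2) (x0 Z' hZ'))
  rw [mul_comm] at c
  exact_mod_cast c

theorem U_few [Fintype N.E] (h : Paving N) (h' : Paving N✶) (hs : N.eRank = (3 : ℕ))
    (g : ∀ 𝓢 : Set (Set β), (∀ A ∈ 𝓢, N.Dep A ∧ A.ncard = 3) → 2 * 𝓢.ncard ≤ (⋃₀ 𝓢).ncard) :
    U univ (hT (cfg N 3)) := by
  have L := cfg_lin h h' hs le_rfl
  have key := U_pseudoforest L (fun 𝓢 h𝓢 => ?_) univ
  · convert key
  set F : Finset (N.E ⊕ Fin 5) → Set β := fun Z => Subtype.val '' (Z.toLeft : Set N.E) with hF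
  have xe : xs 3 = ∅ := by decide
  have rep : ∀ Z ∈ 𝓢, Z.toLeft.card = 3 ∧ N.Dep (F Z) ∧ Z.toLeft.disjSum ∅ = Z := by
    intro Z hZ
    obtain ⟨A, ⟨a1, a2⟩, rfl⟩ := mem_cfg.1 (h𝓢 hZ)
    simp only [hF, Finset.toLeft_disjSum, xe]
    exact ⟨a1, a2, trivial⟩
  have a1 := g (F '' 𝓢) (by
    rintro _ ⟨Z, hZ, rfl⟩
    refine ⟨(rep Z hZ).2.1, ?_⟩
    rw [hF, Set.ncard_image_of_injective _ Subtype.val_injective, Set.ncard_coe_finset]
    exact (rep Z hZ).1)
  rw [Set.InjOn.ncard_image (fun Z hZ Z' hZ' e => by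
    have := Finset.coe_injective (Set.image_injective.2 Subtype.val_injective e)
    rw [← (rep Z hZ).2.2, ← (rep Z' hZ').2.2, this]), Set.ncard_coe_finset] at a1
  refine a1.trans ?_
  rw [← Set.ncard_coe_finset]
  refine Set.ncard_le_ncard_of_injOn (fun b => if hb : b ∈ N.E then inl ⟨b, hb⟩ else inr 0)
    ?_ ?_ (Set.toFinite _)
  · rintro b ⟨_, ⟨Z, hZ, rfl⟩, a, ha, rfl⟩
    simp only [Finset.coe_biUnion, Set.mem_iUnion, dif_pos a.2]
    exact ⟨Z, hZ, by simpa using ha⟩
  · rintro _ ⟨_, ⟨Z, hZ, rfl⟩, a, ha, rfl⟩ _ ⟨_, ⟨Z', hZ', rfl⟩, a', ha', rfl⟩ e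
    exact congrArg Subtype.val (by simpa using e : a = a')

theorem fewBad_of_fewLines (hE : N.E.Finite) (h : Paving N) (h' : Paving N✶) (g : FewLines N) :
    FewBad (fun _ M => M.E = Set.univ ∧ ¬ HM M N) := by
  have := hE.fintype
  obtain ⟨s, hs⟩ := ENat.ne_top_iff_exists.1 (ne_top_of_le_ne_top (by simp) g.1)
  have h3 : s ≤ 3 := by
    have := g.1
    rw [← hs] at this
    exact_mod_cast this
  rcases Nat.lt_or_eq_of_le h3 with t | rfl
  · exact fewBad_of_U h hs.symm h3 (U_low h h' hs.symm (by omega))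
  · exact fewBad_of_U h hs.symm h3 (U_few h h' hs.symm (g.2 hs.symm))

theorem FewBad.mono {B B' : ∀ n, Matroid (Fin n) → Prop} (h : FewBad B)
    (hB : ∀ n (M : Matroid (Fin n)), M.E = Set.univ → B' n M → B n M) : FewBad B' := by
  filter_upwards [h] with n hn
  refine le_trans (mul_le_mul_of_nonneg_right (Nat.cast_le.2 ?_) (Real.exp_pos _).le) hn
  exact Nat.card_le_card_of_injective (fun M => ⟨M.1, hB n _ M.1.2 M.2⟩)
    (fun M M' e => Subtype.ext (congrArg (fun x => x.1) e))

theorem almostAll_of (h : FewBad (fun _ M => M.E = Set.univ ∧ ¬ HM M N) ∨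
    FewBad (fun _ M => M.E = Set.univ ∧ ¬ HM M N✶)) : AlmostAllHaveMinor N := by
  refine almostAll_of_fewBad ?_
  rcases h with h | h
  · exact h.mono (fun n M e t => ⟨e, fun t' => t t'.hasMinor⟩)
  · have h2 : FewBad (fun _ M => M.E = Set.univ ∧ ¬ HM M N) :=
      h.dual (fun n M t => ⟨t.1, fun t' => t.2 t'.dual⟩)
    exact h2.mono (fun n M e t => ⟨e, fun t' => t t'.hasMinor⟩)

end Pool.Agent.MP_c3fbfc_co

end MrgPart1

-- marker of a merged file
example : 731051 + 131290 = 731051 + 131290 := rfl
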