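import Mathlib.Tactic.Monotonicity.Lemmas
import Pool.Agent.MP_c3fbfc_co.Basic

/-! Rank functions on finite sets, the Johnson graph, and a container lemma. -/

namespace Pool.Agent.MP_c3fbfc_co

open Finset

variable {α : Type*} [Fintype α] [DecidableEq α]

/-- matroid rank function on the ground set `univ`, of rank `r` -/
structure IsRk (ρ : Finset α → ℕ) (r : ℕ) : Prop where
  le_card : ∀ X, ρ X ≤ X.card
  mono : ∀ {X Y}, X ⊆ Y → ρ X ≤ ρ Y
  submod : ∀ X Y, ρ (X ∪ Y) + ρ (X ∩ Y) ≤ ρ X + ρ Y
  top : ρ univ = r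

namespace IsRk

variable {ρ : Finset α → ℕ} {r : ℕ} (h : IsRk ρ r)
include h

theorem sub' (A B U I : Finset α) (hU : U ⊆ A ∪ B) (hA : I ⊆ A) (hB : I ⊆ B) :
    ρ U + ρ I ≤ ρ A + ρ B := by
  have h1 := h.mono hU
  have h2 := h.mono (Finset.subset_inter hA hB)
  have h3 := h.submod A B
  omega

theorem le_top (X : Finset α) : ρ X ≤ r := h.top ▸ h.mono (Finset.subset_univ X)

theorem empty : ρ ∅ = 0 := by
  have := h.le_card ∅
  simpa using this

theorem le_add_card (X F Y : Finset α) (hX : X ⊆ F ∪ Y) : ρ X ≤ ρ F + Y.card := by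
  have h1 := h.sub' F Y X ∅ hX (by simp) (by simp)
  have h2 := h.le_card Y
  omega

theorem insert_le (y : α) (X : Finset α) : ρ (insert y X) ≤ ρ X + 1 := by
  have := h.le_add_card (insert y X) X {y} (by intro z; simp)
  simpa using this

theorem closure (X Y : Finset α) (hY : ∀ y ∈ Y, ρ (insert y X) ≤ ρ X) : ρ (X ∪ Y) ≤ ρ X := by
  induction Y using Finset.induction_on with
  | empty => simp
  | insert y Y _ ih =>
    have h1 := ih (fun z hz => hY z (Finset.mem_insert_of_mem hz))
    have h2 := hY y (Finset.mem_insert_self _ _)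
    have h3 := h.sub' (X ∪ Y) (insert y X) (X ∪ insert y Y) X
      (by intro z; simp; tauto) (by intro z; simp; tauto) (by intro z; simp; tauto)
    omega

theorem coloop (U S : Finset α) (hS : ∀ x ∈ S, ρ (U.erase x) < ρ U) :
    ρ (U \ S) + S.card ≤ ρ U := by
  induction S using Finset.induction_on with
  | empty => simp
  | insert x S hx ih =>
    have h1 := ih (fun z hz => hS z (Finset.mem_insert_of_mem hz))
    have h2 := hS x (Finset.mem_insert_self _ _)
    have h3 := h.sub' (U \ S) (U.erase x) U (U \ insert x S)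
      (by
        intro z hz
        by_cases hzx : z = x
        · subst hzx; simp [hz, hx]
        · simp [hz, hzx])
      (by intro z; simp; tauto) (by intro z; simp; tauto)
    rw [Finset.card_insert_of_notMem hx]
    omega

theorem indep_subset {X Y : Finset α} (hX : X.card ≤ ρ X) (hY : Y ⊆ X) : ρ Y = Y.card := by
  have h1 := h.le_add_card X Y (X \ Y) (by intro z; simp; tauto)
  have h2 := Finset.card_sdiff_add_card_eq_card hY
  have h3 := h.le_card Y
  omega

end IsRk

/-- adjacency in the Johnson graph -/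
def Adj (X Y : Finset α) : Prop := ∃ x ∈ X, ∃ y, y ∉ X ∧ Y = insert y (X.erase x)

instance : DecidableRel (Adj (α := α)) := fun X Y => by unfold Adj; infer_instance

omit [Fintype α] in
theorem Adj.symm {X Y : Finset α} (h : Adj X Y) : Adj Y X := by
  obtain ⟨x, hx, y, hy, rfl⟩ := h
  have hxy : x ≠ y := fun e => hy (e ▸ hx)
  refine ⟨y, Finset.mem_insert_self _ _, x, by simp [hxy], ?_⟩
  ext z
  simp only [Finset.mem_insert, Finset.mem_erase]
  constructor
  · intro hz
    by_cases hzx : z = x
    · exact Or.inl hzx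
    · exact Or.inr ⟨fun e => hy (e ▸ hz), Or.inr ⟨hzx, hz⟩⟩
  · rintro (rfl | ⟨h1, h2 | h2⟩)
    · exact hx
    · exact absurd h2 h1
    · exact h2.2

omit [Fintype α] in
theorem Adj.ne {X Y : Finset α} (h : Adj X Y) : Y ≠ X := by
  obtain ⟨x, _, y, hy, rfl⟩ := h
  intro e
  exact hy (e ▸ Finset.mem_insert_self _ _)

omit [Fintype α] in
theorem card_sw {X : Finset α} {x y : α} (hx : x ∈ X) (hy : y ∉ X) :
    (insert y (X.erase x)).card = X.card := by
  rw [Finset.card_insert_of_notMem (fun h => hy (Finset.mem_of_mem_erase h)),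
    Finset.card_erase_of_mem hx]
  have := Finset.card_pos.2 ⟨x, hx⟩
  omega

omit [Fintype α] in
theorem adj_of_erase_subset {X X' : Finset α} {x : α} (hx : x ∈ X) (hc : X'.card = X.card)
    (hs : X.erase x ⊆ X') (hne : X' ≠ X) : Adj X X' := by
  have h1 := Finset.card_sdiff_add_card_eq_card hs
  rw [Finset.card_erase_of_mem hx] at h1
  have h0 := Finset.card_pos.2 ⟨x, hx⟩
  obtain ⟨y, hy⟩ := Finset.card_eq_one.1 (show (X' \ X.erase x).card = 1 by omega)
  have h2 : X' = insert y (X.erase x) := by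
    rw [← Finset.sdiff_union_of_subset hs, hy]; rfl
  have h3 : y ∉ X.erase x := by
    have : y ∈ X' \ X.erase x := by rw [hy]; simp
    exact (Finset.mem_sdiff.1 this).2
  refine ⟨x, hx, y, fun hyX => hne ?_, h2⟩
  have : y = x := by
    by_contra hyx
    exact h3 (Finset.mem_erase.2 ⟨hyx, hyX⟩)
  rw [h2, this, Finset.insert_erase hx]

/-- the `r`-subsets -/
abbrev Vr (α : Type*) [Fintype α] (r : ℕ) : Finset (Finset α) := Finset.powersetCard r univ

omit [DecidableEq α] in
theorem mem_Vr {r : ℕ} {X : Finset α} : X ∈ Vr α r ↔ X.card = r := by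
  simp [Vr, Finset.mem_powersetCard]

omit [DecidableEq α] in
theorem card_Vr (r : ℕ) : (Vr α r).card = (Fintype.card α).choose r := by
  simp [Vr]

/-- A family of `r`-sets with small degrees in the Johnson graph is small. -/
theorem card_le_of_deg {r j : ℕ} (B : Finset (Finset α)) (hB : B ⊆ Vr α r)
    (hdeg : ∀ X ∈ B, 2 * (B.filter (Adj X)).card ≤ j * r) (hj : 0 < j) :
    (B.card : ℝ) * (r / 2) ≤ (Fintype.card α).choose (r - 1) * j := by
  rw [← card_Vr]
  refine double_count B (Vr α (r - 1))
    (fun X Y => Y ⊆ X ∧ (B.filter (fun X' => Y ⊆ X')).card ≤ j) _ _ ?_ ?_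
  · intro X hX
    have hXr : X.card = r := mem_Vr.1 (hB hX)
    set good := X.filter (fun x => (B.filter (fun X' => X.erase x ⊆ X')).card ≤ j) with hgood
    set bad := X.filter (fun x => ¬ (B.filter (fun X' => X.erase x ⊆ X')).card ≤ j) with hbad
    have h1 : good.card + bad.card = r := by
      rw [hgood, hbad, Finset.card_filter_add_card_filter_not, hXr]
    have h2 : (bad.card : ℝ) * j ≤ (B.filter (Adj X)).card := by
      refine mul_card_le_of_rel bad (B.filter (Adj X)) (fun x X' => X.erase x ⊆ X') j ?_ ?_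
      · intro x hx
        rw [hbad, Finset.mem_filter] at hx
        have h3 : (B.filter (fun X' => X.erase x ⊆ X')).erase X ⊆
            (B.filter (Adj X)).filter (fun X' => X.erase x ⊆ X') := by
          intro X' hX'
          simp only [Finset.mem_erase, Finset.mem_filter] at hX' ⊢
          exact ⟨⟨hX'.2.1, adj_of_erase_subset hx.1
            (by rw [mem_Vr.1 (hB hX'.2.1), hXr]) hX'.2.2 hX'.1⟩, hX'.2.2⟩
        have h4 := Finset.card_le_card h3
        have h5 := Finset.pred_card_le_card_erase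
          (s := B.filter (fun X' => X.erase x ⊆ X')) (a := X)
        have h6 := hx.2
        exact_mod_cast (by omega : j ≤ _)
      · intro x hx x' hx' X' hX' h3 h4
        by_contra hne
        rw [Finset.mem_filter] at hX'
        refine hX'.2.ne (Finset.eq_of_subset_of_card_le ?_ ?_).symm
        · intro z hz
          by_cases hzx : z = x
          · exact h4 (Finset.mem_erase.2 ⟨hzx ▸ hne, hz⟩)
          · exact h3 (Finset.mem_erase.2 ⟨hzx, hz⟩)
        · rw [mem_Vr.1 (hB hX'.1), hXr]
    have h3 : good.card ≤ ((Vr α (r - 1)).filter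
        (fun Y => Y ⊆ X ∧ (B.filter (fun X' => Y ⊆ X')).card ≤ j)).card := by
      refine Finset.card_le_card_of_injOn (fun x => X.erase x) ?_ ?_
      · intro x hx
        simp only [hgood, Finset.coe_filter, Set.mem_ofPred_eq] at hx ⊢
        exact ⟨mem_Vr.2 (by rw [Finset.card_erase_of_mem hx.1, hXr]),
          Finset.erase_subset _ _, hx.2⟩
      · intro x hx x' hx' e
        simp only [hgood, Finset.coe_filter, Set.mem_ofPred_eq] at hx hx'
        exact Finset.erase_injOn X hx.1 hx'.1 e
    have h4 : (2 * (B.filter (Adj X)).card : ℝ) ≤ j * r := by exact_mod_cast hdeg X hX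
    have h5 : (good.card : ℝ) + bad.card = r := by exact_mod_cast h1
    have h6 : (0 : ℝ) < j := by exact_mod_cast hj
    have h7 : (bad.card : ℝ) ≤ r / 2 := by
      refine le_of_mul_le_mul_right ?_ h6
      nlinarith
    have h8 : (good.card : ℝ) ≤ _ := Nat.cast_le.2 h3
    linarith
  · intro Y _
    by_cases hY : (B.filter (fun X' => Y ⊆ X')).card ≤ j
    · refine Nat.cast_le.2 (le_trans (Finset.card_le_card ?_) hY)
      intro X hX
      rw [Finset.mem_filter] at hX ⊢
      exact ⟨hX.1, hX.2.1⟩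
    · simp [hY]

/-- stable sets of the Johnson graph -/
def Stable (I : Finset (Finset α)) : Prop := ∀ X ∈ I, ∀ Y ∈ I, ¬ Adj X Y

instance : DecidablePred (Stable (α := α)) := fun I => by unfold Stable; infer_instance

/-- Graham and Sloane: a family of sets has a stable subfamily of at least a `1/n` share. -/
theorem exists_stable (W : Finset (Finset α)) (hn : 0 < Fintype.card α) :
    ∃ W' ⊆ W, Stable W' ∧ (W.card : ℝ) ≤ Fintype.card α * W'.card := by
  have : NeZero (Fintype.card α) := ⟨hn.ne'⟩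
  obtain ⟨e⟩ : Nonempty (α ≃ ZMod (Fintype.card α)) :=
    Fintype.card_eq.1 (by rw [ZMod.card])
  obtain ⟨c, -, hc⟩ := Finset.exists_max_image (univ : Finset (ZMod (Fintype.card α)))
    (fun c => (W.filter (fun X => ∑ x ∈ X, e x = c)).card) Finset.univ_nonempty
  refine ⟨W.filter (fun X => ∑ x ∈ X, e x = c), Finset.filter_subset _ _, ?_, ?_⟩
  · intro X hX Y hY hA
    obtain ⟨x, hx, y, hy, rfl⟩ := hA
    rw [Finset.mem_filter] at hX hY
    have h1 := hY.2
    rw [Finset.sum_insert (fun h => hy (Finset.mem_of_mem_erase h)), ← hX.2,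
      ← Finset.add_sum_erase X _ hx, add_left_inj] at h1
    exact hy (e.injective h1 ▸ hx)
  · have h := card_le_mul_of_rel W (univ : Finset (ZMod (Fintype.card α)))
      (fun X c => ∑ x ∈ X, e x = c) ((W.filter (fun X => ∑ x ∈ X, e x = c)).card)
      (fun X _ => ⟨_, Finset.mem_univ _, rfl⟩)
      (fun c' _ => Nat.cast_le.2 (hc c' (Finset.mem_univ _)))
    simpa [ZMod.card] using h

/-- The Kleitman and Winston container algorithm, with a potential function. -/
theorem container {γ : Type*} [DecidableEq γ] (adj : γ → γ → Prop) [DecidableRel adj]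
    (V : Finset γ) (stop : Finset γ → Prop) (ψ : Finset γ → ℝ)
    (hψ0 : ∀ B, 0 ≤ ψ B) (hmono : ∀ A B, A ⊆ B → ψ A ≤ ψ B)
    (hstep : ∀ B ⊆ V, stop B ∨
      ∃ v ∈ B, ψ ((B.erase v).filter (fun X => ¬ adj v X)) + 1 ≤ ψ B)
    (u : ℝ) (hu : 1 ≤ u) (B : Finset γ) (hB : B ⊆ V) :
    ∃ 𝓕 : Finset (Finset γ), (𝓕.card : ℝ) ≤ (1 + 1 / u) ^ B.card * u ^ (ψ B) ∧
      (∀ A ∈ 𝓕, stop A ∧ A ⊆ B) ∧
      ∀ K : Finset γ, ∃ A ∈ 𝓕, ∃ S ⊆ K, (S.card : ℝ) ≤ ψ B ∧
        ∀ X ∈ K, X ∈ B → X ∈ A ∨ ∃ v ∈ S, X = v ∨ adj v X := by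
  have hu0 : 0 < u := by linarith
  have hu1 : 1 ≤ 1 + 1 / u := by have : 0 < 1 / u := by positivity
                                 linarith
  induction B using Finset.strongInduction with
  | H B ih =>
    rcases hstep B hB with hs | ⟨v, hv, hψ⟩
    · refine ⟨{B}, ?_, ?_, ?_⟩
      · rw [Finset.card_singleton, Nat.cast_one]
        exact one_le_mul_of_one_le_of_one_le (one_le_pow₀ hu1) (Real.one_le_rpow hu (hψ0 B))
      · intro A hA
        rw [Finset.mem_singleton.1 hA]
        exact ⟨hs, Finset.Subset.refl _⟩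
      · intro K
        exact ⟨B, Finset.mem_singleton_self _, ∅, Finset.empty_subset _, by simpa using hψ0 B,
          fun X _ hX => Or.inl hX⟩
    · set B2 := (B.erase v).filter (fun X => ¬ adj v X) with hB2
      have hs1 : B.erase v ⊂ B := Finset.erase_ssubset hv
      have hs2' : B2 ⊆ B.erase v := Finset.filter_subset _ _
      have hs2 : B2 ⊂ B := Finset.ssubset_of_subset_of_ssubset hs2' hs1
      obtain ⟨F1, h11, h12, h13⟩ := ih _ hs1 (hs1.subset.trans hB)
      obtain ⟨F2, h21, h22, h23⟩ := ih _ hs2 (hs2.subset.trans hB)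
      refine ⟨F1 ∪ F2, ?_, ?_, ?_⟩
      · have hc : B.card = (B.erase v).card + 1 := (Finset.card_erase_add_one hv).symm
        have e1 : u ^ (ψ (B.erase v)) ≤ u ^ (ψ B) :=
          Real.rpow_le_rpow_of_exponent_le hu (hmono _ _ hs1.subset)
        have e2 : u ^ (ψ B2) ≤ u ^ (ψ B) * (1 / u) := by
          calc u ^ (ψ B2) ≤ u ^ (ψ B - 1) := Real.rpow_le_rpow_of_exponent_le hu (by linarith)
            _ = _ := by rw [Real.rpow_sub hu0, Real.rpow_one]; ring
        have e3 : (1 + 1 / u) ^ B2.card ≤ (1 + 1 / u) ^ (B.erase v).card :=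
          pow_le_pow_right₀ hu1 (Finset.card_le_card hs2')
        have e4 : (0 : ℝ) ≤ (1 + 1 / u) ^ (B.erase v).card := by positivity
        have e5 : ((F1 ∪ F2).card : ℝ) ≤ F1.card + F2.card := by
          exact_mod_cast Finset.card_union_le F1 F2
        calc ((F1 ∪ F2).card : ℝ) ≤ F1.card + F2.card := e5
          _ ≤ (1 + 1 / u) ^ (B.erase v).card * u ^ (ψ B) +
              (1 + 1 / u) ^ (B.erase v).card * (u ^ (ψ B) * (1 / u)) := by
            refine add_le_add (h11.trans (mul_le_mul_of_nonneg_left e1 e4))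
              (h21.trans (mul_le_mul e3 e2 (by positivity) e4))
          _ = _ := by rw [hc, pow_succ]; ring
      · intro A hA
        rcases Finset.mem_union.1 hA with hA | hA
        · exact ⟨(h12 A hA).1, (h12 A hA).2.trans hs1.subset⟩
        · exact ⟨(h22 A hA).1, (h22 A hA).2.trans hs2.subset⟩
      · intro K
        by_cases hvK : v ∈ K
        · obtain ⟨A, hA, S, hS, hSc, hX⟩ := h23 K
          refine ⟨A, Finset.mem_union_right _ hA, insert v S,
            Finset.insert_subset hvK hS, ?_, ?_⟩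
          · have : ((insert v S).card : ℝ) ≤ S.card + 1 := by
              exact_mod_cast Finset.card_insert_le v S
            linarith
          · intro X hXK hXB
            by_cases h1 : X = v
            · exact Or.inr ⟨v, Finset.mem_insert_self _ _, Or.inl h1⟩
            by_cases h2 : adj v X
            · exact Or.inr ⟨v, Finset.mem_insert_self _ _, Or.inr h2⟩
            rcases hX X hXK (Finset.mem_filter.2 ⟨Finset.mem_erase.2 ⟨h1, hXB⟩, h2⟩) with
              h3 | ⟨w, hw, h3⟩
            · exact Or.inl h3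
            · exact Or.inr ⟨w, Finset.mem_insert_of_mem hw, h3⟩
        · obtain ⟨A, hA, S, hS, hSc, hX⟩ := h13 K
          refine ⟨A, Finset.mem_union_left _ hA, S, hS, hSc.trans (hmono _ _ hs1.subset), ?_⟩
          intro X hXK hXB
          exact hX X hXK (Finset.mem_erase.2 ⟨fun e => hvK (e ▸ hXK), hXB⟩)

end Pool.Agent.MP_c3fbfc_co
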