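import Pool.Agent.MP_c3fbfc_co.Rank

/-! Local structure of the non-bases of a rank function in the Johnson graph. -/

namespace Pool.Agent.MP_c3fbfc_co

open Finset

variable {α : Type*} [Fintype α] [DecidableEq α]

/-- the bases -/
def bases (ρ : Finset α → ℕ) (r : ℕ) : Finset (Finset α) := (Vr α r).filter (fun X => ρ X = r)

/-- non-bases spanning a hyperplane of medium size -/
def Wm (ρ : Finset α → ℕ) (r m Δ : ℕ) : Finset (Finset α) :=
  (Vr α r).filter (fun Z => ρ Z + 1 = r ∧
    m ≤ (univ.filter (fun y => y ∉ Z ∧ ρ {y} = 1 ∧ ρ (insert y Z) < r)).card ∧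
    Δ < (univ.filter (fun e => ρ (insert e Z) = r)).card)

/-- the stable sets of the Johnson graph -/
def stabs (α : Type*) [Fintype α] [DecidableEq α] (r : ℕ) : Finset (Finset (Finset α)) :=
  (Vr α r).powerset.filter Stable

/-- non-bases that can be decoded for free -/
def Dec (ρ : Finset α → ℕ) (r Δ : ℕ) (X : Finset α) : Prop :=
  (∃ S ⊆ X, S.card ≤ Δ ∧ ρ S < S.card) ∨
  (∃ S : Finset α, S.card ≤ Δ ∧ ρ Sᶜ < r ∧ Disjoint S X) ∨
  (Δ ≤ (univ.filter (fun y => y ∉ X ∧ ρ {y} = 1 ∧ ρ (insert y X) < r)).card) ∨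
  (∃ x ∈ X, ρ (X.erase x) + 1 < r ∧ ∀ S : Finset α, S.card ≤ Δ → ρ Sᶜ < r → S ∩ X ≠ {x})

variable {ρ ρ' : Finset α → ℕ} {r : ℕ}

theorem IsRk.fund_circ (h : IsRk ρ r) {X : Finset α} (hX : X.card = r) (hXr : ρ X < r) {y : α}
    (hU : ρ (insert y X) = r) :
    ρ (X.filter (fun x => ρ (insert y (X.erase x)) = r)) <
      (X.filter (fun x => ρ (insert y (X.erase x)) = r)).card := by
  have hy : y ∉ X := by
    intro hy
    rw [Finset.insert_eq_of_mem hy] at hU
    omega
  set C := X.filter (fun x => ρ (insert y (X.erase x)) = r) with hC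
  have h1 := h.coloop (insert y X) (insert y (X \ C)) (by
    intro s hs
    rcases Finset.mem_insert.1 hs with rfl | hs
    · rw [Finset.erase_insert hy]; omega
    · rw [Finset.mem_sdiff] at hs
      have hne : y ≠ s := fun e => hy (e ▸ hs.1)
      rw [Finset.erase_insert_of_ne hne]
      have h2 : ρ (insert y (X.erase s)) ≠ r := fun e => hs.2 (Finset.mem_filter.2 ⟨hs.1, e⟩)
      have h3 := h.le_top (insert y (X.erase s))
      omega)
  have hCX : C ⊆ X := Finset.filter_subset _ _
  have h2 : C ⊆ insert y X \ insert y (X \ C) := by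
    intro z hz
    have hz' := hCX hz
    have : z ≠ y := fun e => hy (e ▸ hz')
    simp [hz, hz', this]
  have h3 := h.mono h2
  rw [Finset.card_insert_of_notMem (fun h' => hy (Finset.mem_sdiff.1 h').1)] at h1
  have h4 := Finset.card_sdiff_add_card_eq_card hCX
  omega

theorem IsRk.cover_valid (h : IsRk ρ r) {X F : Finset α} {s : ℕ} (hX : X.card = r)
    (hF : ρ F ≤ s) (hs : s < (X ∩ F).card) : ρ X < r := by
  have h1 := h.le_add_card X F (X \ F) (by intro z; simp; tauto)
  have h2 := Finset.card_sdiff_add_card_inter X F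
  omega

theorem IsRk.closure_lt (h : IsRk ρ r) {Z : Finset α} (hZ : ρ Z + 1 = r) :
    ρ (univ.filter (fun y => ρ (insert y Z) < r)) < r := by
  have h1 := h.closure Z (univ.filter (fun y => ρ (insert y Z) < r)) (by
    intro y hy
    have := (Finset.mem_filter.1 hy).2
    omega)
  have h2 := h.mono (Finset.subset_union_right (s₁ := Z)
    (s₂ := univ.filter (fun y => ρ (insert y Z) < r)))
  omega

theorem IsRk.local_cover (h : IsRk ρ r) {v : Finset α} (hv : v.card = r) (hvr : ρ v < r) :
    ∃ p1 p2 : Finset α × ℕ, (ρ p1.1 ≤ p1.2 ∧ p1.2 ≤ r) ∧ (ρ p2.1 ≤ p2.2 ∧ p2.2 ≤ r) ∧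
      ∀ X, (X = v ∨ Adj v X) → ρ X < r →
        p1.2 < (X ∩ p1.1).card ∨ p2.2 < (X ∩ p2.1).card := by
  by_cases h2 : ρ v + 1 < r
  · refine ⟨(v, r - 2), (v, r - 2), ⟨by simp; omega, by simp⟩, ⟨by simp; omega, by simp⟩, ?_⟩
    rintro X (rfl | ⟨x, hx, y, -, rfl⟩) _
    · left; simp; omega
    · left
      have h3 : v.erase x ⊆ insert y (v.erase x) ∩ v := by intro z; simp; tauto
      have h4 := Finset.card_le_card h3
      rw [Finset.card_erase_of_mem hx] at h4
      simp only
      omega
  have h3 : ρ v + 1 = r := by omega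
  set H := univ.filter (fun y => ρ (insert y v) < r) with hH
  have hHr : ρ H < r := h.closure_lt h3
  have hvH : v ⊆ H := by
    intro z hz
    simp [hH, Finset.insert_eq_of_mem hz, hvr]
  obtain ⟨y0, hy0⟩ : ∃ y0, ρ (insert y0 v) = r := by
    by_contra hcon
    push Not at hcon
    have : H = univ := by
      rw [hH, Finset.filter_true_of_mem]
      intro z _
      exact lt_of_le_of_ne (h.le_top _) (hcon z)
    rw [this, h.top] at hHr
    omega
  have hC := h.fund_circ hv hvr hy0
  set C := v.filter (fun x => ρ (insert y0 (v.erase x)) = r) with hCdef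
  have hCv : C ⊆ v := Finset.filter_subset _ _
  have hCc := Finset.card_le_card hCv
  refine ⟨(C, C.card - 1), (H, r - 1), ⟨by simp; omega, by simp; omega⟩,
    ⟨by simp; omega, by simp⟩, ?_⟩
  rintro X (rfl | ⟨x, hx, y, hy, rfl⟩) hXr
  · right
    rw [Finset.inter_eq_left.2 hvH]
    simp only
    omega
  · by_cases hxC : x ∈ C
    · right
      have h4 := (Finset.mem_filter.1 hxC).2
      have h5 := h.insert_le y0 (v.erase x)
      have h6 := h.sub' (insert y (v.erase x)) v (insert y v) (v.erase x)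
        (by intro z; simp; tauto) (by intro z; simp; tauto) (by intro z; simp)
      have h7 : insert y (v.erase x) ⊆ H := by
        refine Finset.insert_subset ?_ ((Finset.erase_subset _ _).trans hvH)
        simp only [hH, Finset.mem_filter, Finset.mem_univ, true_and]
        omega
      rw [Finset.inter_eq_left.2 h7, card_sw hx hy]
      simp only
      omega
    · left
      have h4 : C ⊆ insert y (v.erase x) := by
        intro z hz
        exact Finset.mem_insert_of_mem (Finset.mem_erase.2 ⟨fun e => hxC (e ▸ hz), hCv hz⟩)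
      simp only
      rw [Finset.inter_eq_right.2 h4]
      omega

theorem IsRk.dec_of_adj (h : IsRk ρ r) {m Δ : ℕ} (hΔ : 0 < Δ) (hm : 2 * Δ ≤ m) {X Z : Finset α}
    (hXr : ρ X < r) (hZ : Z ∈ Wm ρ r m Δ) (hA : Adj X Z) : Dec ρ r Δ X := by
  obtain ⟨x, hx, y, hy, hZe⟩ := hA
  obtain ⟨-, hZr, hZm, hZΔ⟩ := Finset.mem_filter.1 hZ
  set Hs := univ.filter (fun y => y ∉ Z ∧ ρ {y} = 1 ∧ ρ (insert y Z) < r) with hHs
  set H := univ.filter (fun y => ρ (insert y Z) < r) with hH
  have hHr : ρ H < r := h.closure_lt hZr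
  have hZH : Z ⊆ H := by
    intro z hz
    simp only [hH, Finset.mem_filter, Finset.mem_univ, true_and, Finset.insert_eq_of_mem hz]
    omega
  have hXZ : X.erase x ⊆ Z := by rw [hZe]; exact Finset.subset_insert _ _
  by_cases h1 : ρ (insert x Z) < r
  · right; right; left
    have hXH : X ⊆ H := by
      intro z hz
      by_cases hzx : z = x
      · simp [hH, hzx, h1]
      · exact hZH (hXZ (Finset.mem_erase.2 ⟨hzx, hz⟩))
    have h2 : Hs.erase x ⊆
        univ.filter (fun y => y ∉ X ∧ ρ {y} = 1 ∧ ρ (insert y X) < r) := by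
      intro z hz
      simp only [hHs, Finset.mem_erase, Finset.mem_filter, Finset.mem_univ, true_and] at hz ⊢
      refine ⟨fun hzX => hz.2.1 (hXZ (Finset.mem_erase.2 ⟨hz.1, hzX⟩)), hz.2.2.1, ?_⟩
      refine lt_of_le_of_lt (h.mono (Finset.insert_subset ?_ hXH)) hHr
      simp [hH, hz.2.2.2]
    have h3 := Finset.card_le_card h2
    have h4 := Finset.pred_card_le_card_erase (s := Hs) (a := x)
    omega
  have h1' : ρ (insert x Z) = r := le_antisymm (h.le_top _) (by omega)
  have h2 := h.sub' X Z (insert x Z) (X.erase x)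
    (Finset.insert_subset (Finset.mem_union_left _ hx) Finset.subset_union_right)
    (Finset.erase_subset _ _) hXZ
  by_cases h3 : ∀ S : Finset α, S.card ≤ Δ → ρ Sᶜ < r → S ∩ X ≠ {x}
  · right; right; right
    exact ⟨x, hx, by omega, h3⟩
  push Not at h3
  obtain ⟨S, hS1, hS2, hS3⟩ := h3
  right; right; left
  obtain ⟨e, he1, he2⟩ := Finset.exists_mem_notMem_of_card_lt_card (lt_of_le_of_lt hS1 hZΔ)
  have he3 := (Finset.mem_filter.1 he1).2
  have h4 := h.sub' H Sᶜ (insert e Z) (H \ S)
    (Finset.insert_subset (Finset.mem_union_right _ (by simpa using he2))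
      (hZH.trans Finset.subset_union_left))
    Finset.sdiff_subset (by intro z; simp)
  have hxS : x ∈ S := by
    have : x ∈ S ∩ X := by rw [hS3]; simp
    exact (Finset.mem_inter.1 this).1
  have h5 : Hs \ S ⊆ univ.filter (fun y => y ∉ X ∧ ρ {y} = 1 ∧ ρ (insert y X) < r) := by
    intro z hz
    simp only [hHs, Finset.mem_sdiff, Finset.mem_filter, Finset.mem_univ, true_and] at hz ⊢
    refine ⟨fun hzX => hz.1.1 (hXZ (Finset.mem_erase.2 ⟨fun e => hz.2 (e ▸ hxS), hzX⟩)),
      hz.1.2.1, ?_⟩
    have h6 : insert z X ⊆ insert x (H \ S) := by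
      intro t ht
      rcases Finset.mem_insert.1 ht with rfl | ht
      · refine Finset.mem_insert_of_mem (Finset.mem_sdiff.2 ⟨?_, hz.2⟩)
        simp [hH, hz.1.2.2]
      · by_cases htx : t = x
        · rw [htx]; exact Finset.mem_insert_self _ _
        · refine Finset.mem_insert_of_mem (Finset.mem_sdiff.2
            ⟨hZH (hXZ (Finset.mem_erase.2 ⟨htx, ht⟩)), fun htS => htx ?_⟩)
          have : t ∈ S ∩ X := Finset.mem_inter.2 ⟨htS, ht⟩
          rw [hS3] at this
          exact Finset.mem_singleton.1 this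
    have h7 := h.mono h6
    have h8 := h.insert_le x (H \ S)
    omega
  have h6 := Finset.card_le_card h5
  have h7 := Finset.le_card_sdiff S Hs
  omega

/-- two rank functions that agree outside a sparse family `A` and on short sets -/
structure Agree (ρ ρ' : Finset α → ℕ) (r Δ : ℕ) (A : Finset (Finset α)) : Prop where
  sub : A ⊆ Vr α r
  deg : ∀ X ∈ A, (A.filter (Adj X)).card < Δ
  out : ∀ X ∈ Vr α r, X ∉ A → (ρ X < r ↔ ρ' X < r)
  dep : ∀ S : Finset α, S.card ≤ Δ → (ρ S < S.card ↔ ρ' S < S.card)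
  codep : ∀ S : Finset α, S.card ≤ Δ → (ρ Sᶜ < r ↔ ρ' Sᶜ < r)

namespace Agree

variable {Δ : ℕ} {A : Finset (Finset α)} (g : Agree ρ ρ' r Δ A)
include g

theorem few {X : Finset α} (hX : X ∈ A) (Y : Finset α) (f : α → Finset α)
    (hf : ∀ y ∈ Y, Adj X (f y) ∧ ρ (f y) < r ∧ ρ' (f y) = r) (hinj : Set.InjOn f Y) :
    Y.card < Δ := by
  refine lt_of_le_of_lt (Finset.card_le_card_of_injOn f ?_ hinj) (g.deg X hX)
  intro y hy
  obtain ⟨h1, h2, h3⟩ := hf y hy
  simp only [Finset.coe_filter, Set.mem_ofPred_eq]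
  refine ⟨?_, h1⟩
  by_contra hcon
  obtain ⟨x, hx, y', hy', e⟩ := h1
  have h4 : f y ∈ Vr α r := mem_Vr.2 (by rw [e, card_sw hx hy', mem_Vr.1 (g.sub hX)])
  have := (g.out _ h4 hcon).1 h2
  omega

theorem dec_imp (h : IsRk ρ r) (h' : IsRk ρ' r) (hΔ : 0 < Δ) {X : Finset α} (hX : X ∈ A)
    (hD : Dec ρ r Δ X) : ρ' X < r := by
  have hXc : X.card = r := mem_Vr.1 (g.sub hX)
  rcases hD with ⟨S, hS1, hS2, hS3⟩ | ⟨S, hS1, hS2, hS3⟩ | hD | ⟨x, hx, hx1, hx2⟩
  · have h1 := (g.dep S hS2).1 hS3
    exact h'.cover_valid hXc le_rfl (by rwa [Finset.inter_eq_right.2 hS1])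
  · have h1 := (g.codep S hS1).1 hS2
    refine lt_of_le_of_lt (h'.mono ?_) h1
    intro z hz
    simpa using fun hzS => Finset.disjoint_left.1 hS3 hzS hz
  · by_contra hcon
    have hXr : ρ' X = r := le_antisymm (h'.le_top _) (by omega)
    set Y := univ.filter (fun y => y ∉ X ∧ ρ {y} = 1 ∧ ρ (insert y X) < r) with hY
    have h1 : ∀ y ∈ Y, ∃ x ∈ X, ρ' (insert y (X.erase x)) = r := by
      intro y hy
      simp only [hY, Finset.mem_filter, Finset.mem_univ, true_and] at hy
      by_contra hc
      push Not at hc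
      have h2 := h'.mono (Finset.subset_insert y X)
      have h3 := h'.coloop (insert y X) X (by
        intro x hx
        have hne : y ≠ x := fun e => hy.1 (e ▸ hx)
        rw [Finset.erase_insert_of_ne hne]
        have := hc x hx
        have := h'.le_top (insert y (X.erase x))
        omega)
      have h4 := h'.mono (show {y} ⊆ insert y X \ X by simp [hy.1])
      have h5 := h'.le_top (insert y X)
      have h6 := (g.dep {y} (by simp; omega)).2 (by simp; omega)
      simp at h6
      omega
    choose! φ hφ using h1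
    have h2 := g.few hX Y (fun y => insert y (X.erase (φ y))) (by
      intro y hy
      have h3 := hφ y hy
      simp only [hY, Finset.mem_filter, Finset.mem_univ, true_and] at hy
      refine ⟨⟨φ y, h3.1, y, hy.1, rfl⟩, lt_of_le_of_lt (h.mono ?_) hy.2.2, h3.2⟩
      exact Finset.insert_subset_insert _ (Finset.erase_subset _ _)) (by
      intro y hy y' _ e
      simp only [hY, Finset.coe_filter, Set.mem_ofPred_eq] at hy
      have : y ∈ insert y' (X.erase (φ y')) := by
        simp only at e
        rw [← e]; exact Finset.mem_insert_self _ _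
      rcases Finset.mem_insert.1 this with h4 | h4
      · exact h4
      · exact absurd (Finset.mem_of_mem_erase h4) hy.2.1)
    omega
  · by_contra hcon
    have hXr : ρ' X = r := le_antisymm (h'.le_top _) (by omega)
    set Y := univ.filter (fun y => y ∉ X ∧ ρ' (insert y (X.erase x)) = r) with hY
    have h2 := g.few hX Y (fun y => insert y (X.erase x)) (by
      intro y hy
      simp only [hY, Finset.mem_filter, Finset.mem_univ, true_and] at hy
      have := h.insert_le y (X.erase x)
      exact ⟨⟨x, hx, y, hy.1, rfl⟩, by omega, hy.2⟩) (by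
      intro y hy y' _ e
      simp only [hY, Finset.coe_filter, Set.mem_ofPred_eq] at hy
      have : y ∈ insert y' (X.erase x) := by
        simp only at e
        rw [← e]; exact Finset.mem_insert_self _ _
      rcases Finset.mem_insert.1 this with h4 | h4
      · exact h4
      · exact absurd (Finset.mem_of_mem_erase h4) hy.2.1)
    have h3 : (insert x Y).card ≤ Δ := le_trans (Finset.card_insert_le _ _) h2
    have h4 : ρ' (X.erase x) + 1 = r := by
      rw [h'.indep_subset (by omega) (Finset.erase_subset x X), Finset.card_erase_add_one hx, hXc]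
    have h5 : ρ' (insert x Y)ᶜ < r := by
      refine lt_of_le_of_lt (h'.mono ?_) (h'.closure_lt h4)
      intro z hz
      simp only [hY, Finset.mem_compl, Finset.mem_insert, Finset.mem_filter, Finset.mem_univ,
        true_and, not_or, not_and] at hz ⊢
      by_cases hzX : z ∈ X
      · rw [Finset.insert_eq_of_mem (Finset.mem_erase.2 ⟨hz.1, hzX⟩)]
        omega
      · exact lt_of_le_of_ne (h'.le_top _) (hz.2 hzX)
    refine hx2 _ h3 ((g.codep _ h3).2 h5) ?_
    ext z
    simp only [hY, Finset.mem_inter, Finset.mem_insert, Finset.mem_filter, Finset.mem_univ,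
      true_and, Finset.mem_singleton]
    constructor
    · rintro ⟨h6 | h6, h7⟩
      · exact h6
      · exact absurd h7 h6.1
    · rintro rfl
      exact ⟨Or.inl rfl, hx⟩

theorem adj_imp (h : IsRk ρ r) (h' : IsRk ρ' r) {X Y : Finset α} (hY : Y ∈ A)
    (hYr : ρ Y < r) (hYr' : ρ' Y < r) (hD : ¬ Dec ρ' r Δ Y) (hA : Adj Y X) (hXr : ρ X < r) :
    ρ' X < r := by
  have hYc : Y.card = r := mem_Vr.1 (g.sub hY)
  obtain ⟨x, hx, y, hy, rfl⟩ := hA
  by_contra hcon
  have hXr' : ρ' (insert y (Y.erase x)) = r := le_antisymm (h'.le_top _) (by omega)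
  have h1 := h.sub' Y (insert y (Y.erase x)) (insert y Y) (Y.erase x)
    (by intro z; simp; tauto) (Finset.erase_subset _ _) (Finset.subset_insert _ _)
  by_cases h2 : ρ (insert y Y) < r
  · have h3 : ρ' (insert y Y) = r := by
      refine le_antisymm (h'.le_top _) ?_
      rw [← hXr']
      exact h'.mono (Finset.insert_subset_insert _ (Finset.erase_subset _ _))
    have h4 := h'.fund_circ hYc hYr' h3
    have h5 := g.few hY (Y.filter (fun x => ρ' (insert y (Y.erase x)) = r))
      (fun x => insert y (Y.erase x)) (by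
      intro z hz
      rw [Finset.mem_filter] at hz
      exact ⟨⟨z, hz.1, y, hy, rfl⟩, lt_of_le_of_lt
        (h.mono (Finset.insert_subset_insert _ (Finset.erase_subset _ _))) h2, hz.2⟩) (by
      intro z hz z' hz' e
      simp only [Finset.coe_filter, Set.mem_ofPred_eq] at hz hz'
      by_contra hne
      have : z ∈ insert y (Y.erase z) := by
        simp only at e
        rw [e]; exact Finset.mem_insert_of_mem (Finset.mem_erase.2 ⟨hne, hz.1⟩)
      rcases Finset.mem_insert.1 this with h4 | h4
      · exact hy (h4 ▸ hz.1)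
      · exact Finset.notMem_erase _ _ h4)
    exact hD (Or.inl ⟨_, Finset.filter_subset _ _, h5.le, h4⟩)
  · have h3 := h.le_top (insert y Y)
    have h4 : ρ' (Y.erase x) + 1 = r := by
      have := h'.insert_le y (Y.erase x)
      have := h'.mono (Finset.erase_subset x Y)
      omega
    set S := univ.filter (fun z => ρ' (insert z (Y.erase x)) = r) with hS
    have hSY : ∀ z ∈ S, z ∉ Y := by
      intro z hz hzY
      have h5 := (Finset.mem_filter.1 hz).2
      have h6 := h'.mono (Finset.insert_subset hzY (Finset.erase_subset x Y))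
      omega
    have h5 := g.few hY S (fun z => insert z (Y.erase x)) (by
      intro z hz
      have := h.insert_le z (Y.erase x)
      exact ⟨⟨x, hx, z, hSY z hz, rfl⟩, by omega, (Finset.mem_filter.1 hz).2⟩) (by
      intro z hz z' _ e
      have : z ∈ insert z' (Y.erase x) := by
        simp only at e
        rw [← e]; exact Finset.mem_insert_self _ _
      rcases Finset.mem_insert.1 this with h4 | h4
      · exact h4
      · exact absurd (Finset.mem_of_mem_erase h4) (hSY z hz))
    refine hD (Or.inr (Or.inl ⟨S, h5.le, ?_, Finset.disjoint_left.2 hSY⟩))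
    refine lt_of_le_of_lt (h'.mono ?_) (h'.closure_lt h4)
    intro z hz
    simp only [hS, Finset.mem_compl, Finset.mem_filter, Finset.mem_univ, true_and] at hz ⊢
    exact lt_of_le_of_ne (h'.le_top _) hz

end Agree

end Pool.Agent.MP_c3fbfc_co
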