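import Pool.Agent.MP_c3fbfc_co.ThmB2

/-! Working definitions for the planting proof. A matroid of rank `r` is given by the family
`K` of its non-bases, a set of vertices of the Johnson graph. -/

namespace Pool.Agent.MP_c3fbfc_co.V

open Finset
open scoped symmDiff

variable {α : Type*} [Fintype α] [DecidableEq α]

/-- the size of the symmetric difference -/
def sd (X Y : Finset α) : ℕ := (X ∆ Y).card

/-- toggle one element -/
def tg (X : Finset α) (a : α) : Finset α := X ∆ {a}

/-- the neighbours in the Johnson graph -/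
def nb (r : ℕ) (X : Finset α) : Finset (Finset α) := (Vr α r).filter (fun Z => sd X Z = 2)

/-- the line with centre `Y` -/
def ln (r : ℕ) (Y : Finset α) : Finset (Finset α) := (Vr α r).filter (fun Z => sd Y Z = 1)

/-- centres of lines -/
def Ctr (r : ℕ) (Y : Finset α) : Prop := Y.card + 1 = r ∨ Y.card = r + 1

/-- stable families -/
def Stb (S : Finset (Finset α)) : Prop := ∀ X ∈ S, ∀ Y ∈ S, sd X Y ≠ 2

/-- the exchange property for the complement of `K` -/
def Exch (r : ℕ) (K : Finset (Finset α)) : Prop :=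
  ∀ B ∈ Vr α r, B ∉ K → ∀ B' ∈ Vr α r, B' ∉ K → ∀ x ∈ B, x ∉ B' →
    ∃ y ∈ B', y ∉ B ∧ insert y (B.erase x) ∉ K

open Classical in
/-- the families of non-bases of the matroids of rank `r` -/
noncomputable def MM (α : Type*) [Fintype α] [DecidableEq α] (r : ℕ) :
    Finset (Finset (Finset α)) :=
  (Vr α r).powerset.filter (fun K => K ≠ Vr α r ∧ Exch r K)

open Classical in
/-- the stable sets of the Johnson graph -/
noncomputable def SS (α : Type*) [Fintype α] [DecidableEq α] (r : ℕ) :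
    Finset (Finset (Finset α)) :=
  (Vr α r).powerset.filter Stb

/-- the points of `K` in the closed neighbourhood of `Z` -/
def cn (K : Finset (Finset α)) (Z : Finset α) : Finset (Finset α) := K.filter (fun A => sd Z A ≤ 2)

/-- free vertices -/
def Fr (r : ℕ) (K : Finset (Finset α)) : Finset (Finset α) :=
  (Vr α r).filter (fun Z => cn K Z = ∅)

/-- isolated points of `K` (circuit-hyperplanes) -/
def UU (K : Finset (Finset α)) : Finset (Finset α) := K.filter (fun A => ∀ B ∈ K, sd A B ≠ 2)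

/-- vertices outside `K` with exactly one neighbour in `K` -/
def PP (r : ℕ) (K : Finset (Finset α)) : Finset (Finset α) :=
  (Vr α r).filter (fun Z => Z ∉ K ∧ (cn K Z).card = 1)

/-- lines contained in `K` -/
def KL (r : ℕ) (K : Finset (Finset α)) (Y : Finset α) : Prop := Ctr r Y ∧ ln r Y ⊆ K

/-- lines that are components of `K` -/
def SL (r : ℕ) (K : Finset (Finset α)) (Y : Finset α) : Prop :=
  KL r K Y ∧ ∀ Z ∈ K, sd Y Z ≤ 3 → sd Y Z = 1

open Classical in
/-- points of the line `Y` that lie on no other line of `K` -/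
noncomputable def priv (r : ℕ) (K : Finset (Finset α)) (Y : Finset α) : Finset (Finset α) :=
  (ln r Y).filter (fun X => ∀ Y', KL r K Y' → X ∈ ln r Y' → Y' = Y)

/-- connected inside `K` -/
def Conn (K : Finset (Finset α)) : Finset α → Finset α → Prop :=
  Relation.ReflTransGen (fun A B => A ∈ K ∧ B ∈ K ∧ sd A B = 2)

open Classical in
/-- the components of `K` that contain a line with few private points -/
noncomputable def WB (r : ℕ) (K : Finset (Finset α)) : Finset (Finset α) :=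
  K.filter (fun X => ∃ Y, KL r K Y ∧ 12 * (priv r K Y).card < Fintype.card α ∧
    ∃ Z ∈ ln r Y, Conn K X Z)

open Classical in
/-- the lines that are components -/
noncomputable def SLs (r : ℕ) (K : Finset (Finset α)) : Finset (Finset α) :=
  univ.filter (SL r K)

open Classical in
/-- the lines of the remaining components -/
noncomputable def RA (r : ℕ) (K : Finset (Finset α)) : Finset (Finset α) :=
  univ.filter (fun Y => KL r K Y ∧ ¬ SL r K Y ∧ Disjoint (ln r Y) (WB r K))

/-- a subset of `K` that is a union of components -/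
def Clo (K R : Finset (Finset α)) : Prop := R ⊆ K ∧ ∀ A ∈ R, ∀ B ∈ K, sd A B = 2 → B ∈ R

/-- dependent sets -/
def Dep (r : ℕ) (K : Finset (Finset α)) (S : Finset α) : Prop := ∀ X ∈ Vr α r, S ⊆ X → X ∈ K

/-- codependent sets -/
def Cod (r : ℕ) (K : Finset (Finset α)) (S : Finset α) : Prop :=
  ∀ X ∈ Vr α r, Disjoint S X → X ∈ K

open Classical in
/-- the non-bases that are explained by a short dependent or codependent set -/
noncomputable def Short (r : ℕ) (K : Finset (Finset α)) (s : ℕ) : Finset (Finset α) :=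
  (Vr α r).filter (fun X =>
    ∃ S : Finset α, S.card ≤ s ∧ ((Dep r K S ∧ S ⊆ X) ∨ (Cod r K S ∧ Disjoint S X)))

/-- the shadow of a pair -/
def sh (r : ℕ) (p : Finset α × ℕ) : Finset (Finset α) :=
  (Vr α r).filter (fun X => p.2 < (X ∩ p.1).card)

/-- the universe of pairs -/
def OO (α : Type*) [Fintype α] (r : ℕ) : Finset (Finset α × ℕ) := univ ×ˢ range (r + 1)

/-- all lines through `X` are contained in `K` -/
def Heavy (r : ℕ) (K : Finset (Finset α)) (X : Finset α) : Prop := ∀ a, KL r K (tg X a)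

/-- `A` has `j` pairwise non-adjacent private neighbours -/
def DL (r : ℕ) (K : Finset (Finset α)) (A : Finset α) (j : ℕ) : Prop :=
  ∃ S ⊆ nb r A, Stb S ∧ j ≤ S.card ∧ ∀ Z ∈ S, cn K Z ⊆ {A}

/-- the vertices near the line `Y` that become free when the line is removed -/
def fl (r : ℕ) (K : Finset (Finset α)) (Y : Finset α) : Finset (Finset α) :=
  (Vr α r).filter (fun Z => sd Y Z ≤ 3 ∧ cn K Z ⊆ ln r Y)

/-- no component line has many such vertices -/
def GLn (r : ℕ) (K : Finset (Finset α)) : Prop :=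
  ∀ Y, SL r K Y → (fl r K Y).card < 2 * Fintype.card α ^ 2

/-- lines with many free points -/
def Rich (r : ℕ) (K : Finset (Finset α)) : Finset (Finset α) :=
  univ.filter (fun Y => Fintype.card α ≤ 12 * (ln r Y ∩ Fr r K).card)

/-- every neighbour of `X` in `K` is isolated or lies on a component line -/
def OK (r : ℕ) (K : Finset (Finset α)) (X : Finset α) : Prop :=
  ∀ A ∈ K, sd X A = 2 → A ∈ UU K ∨ ∃ Y, SL r K Y ∧ A ∈ ln r Y

open Classical in
/-- what is removed when `X` is planted -/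
noncomputable def RX (r : ℕ) (K : Finset (Finset α)) (X : Finset α) : Finset (Finset α) :=
  K.filter (fun Z => sd X Z = 2 ∨ ∃ Y, KL r K Y ∧ sd X Y = 3 ∧ Z ∈ ln r Y)

/-- the neighbours of `X` that are free after the removal -/
noncomputable def Gam (r : ℕ) (K : Finset (Finset α)) (X : Finset α) : Finset (Finset α) :=
  (nb r X).filter (fun Z => cn K Z ⊆ RX r K X)

/-- a stable part of them -/
def St (r : ℕ) (K : Finset (Finset α)) (X : Finset α) : Finset (Finset α) :=
  (nb r X).filter (fun Z => Z ∈ UU K ∨ (Z ∈ Fr r K ∧ ∀ Z' ∈ nb r X, Z' ∈ Fr r K → sd Z Z' ≠ 2))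

/-- the excess -/
noncomputable def bet (r : ℕ) (K : Finset (Finset α)) (X : Finset α) : ℕ :=
  (Gam r K X \ St r K X).card

/-- the number of component lines adjacent to `X` -/
noncomputable def om (r : ℕ) (K : Finset (Finset α)) (X : Finset α) : ℕ :=
  ((SLs r K).filter (fun Y => sd X Y = 3)).card

/-- nearly free points on the line through `X` in direction `a` -/
def bet5 (r : ℕ) (K : Finset (Finset α)) (X : Finset α) (a : α) : ℕ :=
  ((ln r (tg X a)).filter (fun Z => cn K Z ⊆ UU K ∧ (cn K Z).card ≤ 4 ∧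
    ((cn K Z).card ≤ 1 ∨ ∃ A ∈ cn K Z, sd X A = 2 ∧ sd Z A = 2))).card

/-- the rank window -/
def Win (n r : ℕ) : Prop := n ≤ 3 * r ∧ 3 * r ≤ 2 * n ∧ n.choose (n / 2) ≤ 24 * n.choose r

/-- the girth scale -/
def gg (n : ℕ) : ℕ := Nat.log 64 n

/-- the action of a permutation on families -/
def act (π : Equiv.Perm α) (K : Finset (Finset α)) : Finset (Finset α) :=
  K.image (fun X => X.image π)

section Pattern

variable {T ι : Type} [Fintype T] [DecidableEq T] [Fintype ι] [DecidableEq ι]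

/-- a peeling order of the sets `H i ∆ B`, `i ∈ I`, by elements outside `F` -/
def Peel (H : ι → Finset T) (B : Finset T) (I : Finset ι) (F : Finset T) : Prop :=
  ∃ (e : ι → T) (ord : ι → ℕ), ∀ i ∈ I, e i ∈ H i ∆ B ∧ e i ∉ F ∧
    ∀ j ∈ I, j ≠ i → e i ∈ H j ∆ B → ord j < ord i

/-- a pattern: base sets `H i` around a centre `Z`, and two defects -/
structure Pat (T ι : Type) [Fintype T] [DecidableEq T] [Fintype ι] [DecidableEq ι] where
  /-- the rank -/
  ρ : ℕ
  /-- the base sets -/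
  H : ι → Finset T
  /-- the first defect -/
  X1 : Finset T
  /-- the second defect -/
  X2 : Finset T
  /-- the centre -/
  Z : Finset T
  cH : ∀ i, (H i).card = ρ
  c1 : X1.card = ρ
  c2 : X2.card = ρ
  fHH : ∀ i j, i ≠ j → 4 ≤ sd (H i) (H j)
  fH1 : ∀ i, 4 ≤ sd (H i) X1
  fH2 : ∀ i, 4 ≤ sd (H i) X2
  f12 : 4 ≤ sd X1 X2
  disj : ∀ i j, i ≠ j → Disjoint (H i ∆ Z) (H j ∆ Z)
  ne : Nonempty ι
  p1 : Peel H X1 univ ∅
  p2 : ∃ t ∈ X1 ∆ X2, Peel H X2 univ {t}
  p3 : sd X1 X2 = 4 → ∀ t ∈ X1 ∆ X2, Peel H X2 univ {t}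
  p4 : ∀ B : Finset T, B.card = ρ → (∀ i, B ≠ H i) → ∃ i, Peel H B (univ.erase i) ∅

/-- the point of a site -/
def pt (σ : Finset α × (T → α)) (B : Finset T) : Finset α := σ.1 ∪ B.image σ.2

/-- sites -/
def Site (r ρ : ℕ) (σ : Finset α × (T → α)) : Prop :=
  Function.Injective σ.2 ∧ (∀ t, σ.2 t ∉ σ.1) ∧ σ.1.card + ρ = r

open Classical in
/-- the sites whose base points lie in `U` -/
noncomputable def sites (r : ℕ) (P : Pat T ι) (U : Finset (Finset α)) :
    Finset (Finset α × (T → α)) :=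
  univ.filter (fun σ => Site r P.ρ σ ∧ ∀ i, pt σ (P.H i) ∈ U)

/-- the family `𝓗` of `ρ`-sets occurs in `K` -/
def Occ (r ρ : ℕ) (𝓗 : Finset T → Prop) (K : Finset (Finset α)) : Prop :=
  ∃ σ : Finset α × (T → α), Site r ρ σ ∧ ∀ B : Finset T, B.card = ρ → (pt σ B ∈ K ↔ 𝓗 B)

/-- the family of a pattern -/
def Pat.fam (P : Pat T ι) (B : Finset T) : Prop := (∃ i, B = P.H i) ∨ B = P.X1 ∨ B = P.X2

/-- good pairs -/
structure Good (r : ℕ) (P : Pat T ι) (C j : ℕ) (K : Finset (Finset α))
    (σ : Finset α × (T → α)) : Prop where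
  g0 : ∀ B : Finset T, B.card = P.ρ → pt σ B ∈ K → pt σ B ∈ UU K
  n1 : pt σ P.X1 ∉ K
  n2 : pt σ P.X2 ∉ K
  ok1 : OK r K (pt σ P.X1)
  ok2 : OK r K (pt σ P.X2)
  b1 : bet r K (pt σ P.X1) ≤ C
  b2 : bet r K (pt σ P.X2) ≤ C
  o1 : om r K (pt σ P.X1) ≤ C
  o2 : om r K (pt σ P.X2) ≤ C
  ex : sd P.X1 P.X2 = 4 → ∀ t ∈ P.X1 ∆ P.X2,
    (∀ Z ∈ ln r (tg (pt σ P.X2) (σ.2 t)), Z ∈ K → Z ∈ UU K) ∧ bet5 r K (pt σ P.X2) (σ.2 t) ≤ C
  dl : ∀ A ∈ UU K, sd (pt σ P.X1) A ≤ 6 * P.ρ + 4 → ¬ DL r K A j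

end Pattern

end Pool.Agent.MP_c3fbfc_co.V
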