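import Mathlib.Algebra.Order.Star.Real
import Mathlib.Analysis.Complex.ExponentialBounds
import Mathlib.Order.CompletePartialOrder
import Pool.Agent.MP_c3fbfc_co.VDefs
import Pool.Agent.MP_c3fbfc_co.Defs

-- ======== part 0: formerly Pool.Agent.MP_c3fbfc_co.VSpec
section MrgPart0

/-! The statements of the modules of the planting proof. -/

namespace Pool.Agent.MP_c3fbfc_co.V

open Finset Filter
open scoped symmDiff

/-- PB: vertices with exactly one neighbour among the non-bases are rare on average. -/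
def PBStmt : Prop :=
  ∀ n r : ℕ, 24 ≤ n → n ≤ 3 * r → 3 * r ≤ 2 * n →
    (∑ K ∈ MM (Fin n) r, ((PP r K).card : ℝ)) * n ≤ 200 * n.choose r * (MM (Fin n) r).card

open Classical in
/-- RICH (from PB): free vertices, rich lines, component lines, defect-like points. -/
def RichStmt : Prop :=
  ∃ C : ℝ, 0 < C ∧ ∀ n r : ℕ, 24 ≤ n → n ≤ 3 * r → 3 * r ≤ 2 * n →
    (∑ K ∈ MM (Fin n) r, ((Fr r K).card : ℝ)) * n ≤ C * n.choose r * (MM (Fin n) r).card ∧
    (∑ K ∈ MM (Fin n) r, (((Fr r K ×ˢ Fr r K).filter (fun p => sd p.1 p.2 = 2)).card : ℝ)) * n ≤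
      C * n.choose r * (MM (Fin n) r).card ∧
    (∑ K ∈ MM (Fin n) r, ((Rich r K).card : ℝ)) * n ^ 3 ≤ C * n.choose r * (MM (Fin n) r).card ∧
    (∑ K ∈ MM (Fin n) r, ((SLs r K).card : ℝ)) * n ^ 3 ≤ C * n.choose r * (MM (Fin n) r).card ∧
    (∀ j : ℕ, (∑ K ∈ MM (Fin n) r, (((UU K).filter (fun A => DL r K A j)).card : ℝ)) * 2 ^ j ≤
      n.choose r * (MM (Fin n) r).card) ∧
    (((MM (Fin n) r).filter (fun K => ¬ GLn r K)).card : ℝ) * 2 ^ n ≤ (MM (Fin n) r).card

/-- CLA (from RICH): lines in components with at least two lines, all with many private points. -/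
def ClaStmt : Prop :=
  ∃ C : ℝ, 0 < C ∧ ∀ n r : ℕ, 24 ≤ n → n ≤ 3 * r → 3 * r ≤ 2 * n →
    (∑ K ∈ MM (Fin n) r, ((RA r K).card : ℝ)) * n ^ 4 ≤ C * n.choose r * (MM (Fin n) r).card

open Classical in
/-- CLB: the components with a line with few private points are small. -/
def ClbStmt : Prop :=
  ∀ᶠ n : ℕ in atTop, ∀ r, Win n r →
    (((MM (Fin n) r).filter (fun K => Short r K (gg n) = ∅ ∧
      n.choose r < n ^ 3 * (WB r K).card)).card : ℝ) * Real.exp (3 * n ^ 2) ≤ (MM (Fin n) r).card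

/-- CONT: containers with a small overhead. -/
def ContStmt : Prop :=
  ∀ η : ℝ, 0 < η → ∀ᶠ n : ℕ in atTop, ∀ r, n ≤ 3 * r → 3 * r ≤ 2 * n →
    ∃ (𝓕 : Finset (Finset (Finset (Fin n)))) (q : ℝ),
      (𝓕.card : ℝ) ≤ Real.exp (η * n.choose (n / 2) / (n * 4 ^ gg n)) ∧
      (((Vr (Fin n) r).powerset.filter (fun S => (S.card : ℝ) ≤ q)).card : ℝ) ≤
        Real.exp (η * n.choose (n / 2) / (n * 4 ^ gg n)) ∧
      (((OO (Fin n) r).powerset.filter (fun S => (S.card : ℝ) ≤ 2 * q)).card : ℝ) ≤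
        Real.exp (η * n.choose (n / 2) / (n * 4 ^ gg n)) ∧
      (2 : ℝ) ^ ((univ : Finset (Finset (Fin n))).filter (fun S => S.card ≤ n / 5000)).card ≤
        Real.exp (η * n.choose (n / 2) / (n * 4 ^ gg n)) ∧
      q ≤ η * n.choose (n / 2) / (n * 4 ^ gg n) ∧ (n.choose r : ℝ) / n ^ 3 ≤ q ∧
      (∀ A ∈ 𝓕, A ⊆ Vr (Fin n) r ∧ ∀ X ∈ A, (A.filter (Adj X)).card < n / 5000) ∧
      ∀ K : Finset (Finset (Fin n)), ∃ A ∈ 𝓕, ∃ S ⊆ K, (S.card : ℝ) ≤ q ∧
        ∀ X ∈ K, X ∈ Vr (Fin n) r → X ∈ A ∨ ∃ v ∈ S, X = v ∨ Adj v X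

open Classical in
/-- CODE (from CONT): a matroid is almost determined by a stable set of non-bases. -/
def CodeStmt : Prop :=
  ∀ η : ℝ, 0 < η → ∀ᶠ n : ℕ in atTop, ∀ r, n ≤ 3 * r → 3 * r ≤ 2 * n →
    ∀ 𝓐 ⊆ MM (Fin n) r, ∀ (W D : Finset (Finset (Fin n))),
      (∀ K ∈ 𝓐, ∀ K' ∈ 𝓐, K ∩ W = K' ∩ W → K = K') → (∀ K ∈ 𝓐, D ⊆ Short r K (n / 5000)) →
      (𝓐.card : ℝ) ≤ Real.exp (η * n.choose (n / 2) / (n * 4 ^ gg n)) *
        ((SS (Fin n) r).filter (fun I => I ⊆ W \ D)).card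

open Classical in
/-- COV (from CONT): few stable subsets of `Λ` dominate almost all of `𝒯`. -/
def CovStmt : Prop :=
  ∀ η : ℝ, 0 < η → ∀ᶠ n : ℕ in atTop, ∀ r, n ≤ 3 * r → 3 * r ≤ 2 * n →
    ∀ (Λ 𝒯 : Finset (Finset (Fin n))) (c : ℕ), Λ ⊆ Vr (Fin n) r → n ≤ 4 * c →
      (∀ Z ∈ Λ, (𝒯.filter (fun X => sd Z X = 2)).card = c) →
      (∀ X ∈ 𝒯, ∀ Z ∈ Λ, ∀ Z' ∈ Λ, sd Z X = 2 → sd Z' X = 2 → Z = Z' ∨ sd Z Z' = 2) →
      (∀ Z ∈ Λ, ∀ Z' ∈ Λ, Z ≠ Z' → (𝒯.filter (fun X => sd Z X = 2 ∧ sd Z' X = 2)).card ≤ 1) →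
      ((Λ.powerset.filter (fun I => Stb I ∧ 999 * 𝒯.card ≤ 1000 * (c * I.card))).card : ℝ) ≤
        Real.exp (𝒯.card / (10 * n) + η * n.choose (n / 2) / (n * 4 ^ gg n))

open Classical in
/-- GIRTH (from CODE, COV): short dependent or codependent sets are rare. -/
def GirthStmt : Prop :=
  ∀ᶠ n : ℕ in atTop, ∀ r, Win n r →
    (((MM (Fin n) r).filter (fun K => Short r K (gg n) ≠ ∅)).card : ℝ) * Real.exp (3 * n ^ 2) ≤
      (MM (Fin n) r).card

/-- ENC (from CONT): a matroid is almost determined by its circuit-hyperplanes. -/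
def EncStmt : Prop :=
  ∀ η : ℝ, 0 < η → ∀ᶠ n : ℕ in atTop, ∀ r, Win n r → ∀ 𝓐 ⊆ MM (Fin n) r,
    (∀ K ∈ 𝓐, n ^ 3 * (WB r K).card ≤ n.choose r) →
    (𝓐.card : ℝ) ≤ Real.exp (η * n.choose r / n) * (𝓐.image UU).card

open Classical in
/-- SMALL (from CONT): small stable sets. -/
def SmallStmt : Prop :=
  ∀ η : ℝ, 0 < η → ∃ ε : ℝ, 0 < ε ∧ ∀ᶠ n : ℕ in atTop, ∀ r, Win n r →
    (((SS (Fin n) r).filter (fun S => (S.card : ℝ) ≤ ε * n.choose r / n)).card : ℝ) ≤
      Real.exp (η * n.choose r / n)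

/-- OUT (from CONT, CODE): ranks outside the window. -/
def OutStmt : Prop :=
  ∀ᶠ n : ℕ in atTop, ∀ r, ¬ Win n r →
    ((MM (Fin n) r).card : ℝ) * Real.exp (3 * n ^ 2) ≤ (MM (Fin n) (n / 2)).card

open Classical in
/-- INV (from COV, SMALL): stable sets with a symmetry are rare. -/
def InvStmt : Prop :=
  ∃ δ : ℝ, 0 < δ ∧ ∀ᶠ n : ℕ in atTop, ∀ r, Win n r → ∀ π : Equiv.Perm (Fin n), π ≠ 1 →
    (((SS (Fin n) r).filter (fun S => act π S = S)).card : ℝ) * Real.exp (δ * n.choose r / n) ≤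
      (SS (Fin n) r).card

open Classical in
/-- SYM (from CLB, GIRTH, ENC, INV): matroids with a symmetry are rare. -/
def SymStmt : Prop :=
  ∀ᶠ n : ℕ in atTop, ∀ r, Win n r → ∀ π : Equiv.Perm (Fin n), π ≠ 1 →
    (((MM (Fin n) r).filter (fun K => act π K = K)).card : ℝ) * Real.exp (2 * n ^ 2) ≤
      (MM (Fin n) r).card

open Classical in
/-- TYP (from RICH, CLB, GIRTH, ENC, SMALL): typical matroids. -/
def TypStmt : Prop :=
  ∃ c : ℝ, 0 < c ∧ ∀ᶠ n : ℕ in atTop, ∀ r, Win n r →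
    (((MM (Fin n) r).filter (fun K => ¬ (GLn r K ∧ n ^ 3 * (WB r K).card ≤ n.choose r ∧
      c * n.choose r / n ≤ (UU K).card))).card : ℝ) * n ≤ (MM (Fin n) r).card

/-- SITE: many sites. -/
def SiteStmt : Prop :=
  ∀ (T ι : Type) [Fintype T] [DecidableEq T] [Fintype ι] [DecidableEq ι] (P : Pat T ι),
    ∀ c : ℝ, 0 < c → ∃ c' : ℝ, 0 < c' ∧ ∀ᶠ n : ℕ in atTop, ∀ r, n ≤ 3 * r → 3 * r ≤ 2 * n →
      ∀ U ∈ SS (Fin n) r, c * n.choose r / n ≤ U.card →
        c' * n.choose r * n ^ Fintype.card T ≤ (sites r P U).card * n ^ Fintype.card ι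

/-- MARG: few sites through a given point. -/
def MargStmt : Prop :=
  ∀ (T ι : Type) [Fintype T] [DecidableEq T] [Fintype ι] [DecidableEq ι] (P : Pat T ι)
    (n r : ℕ) (U : Finset (Finset (Fin n))), U ∈ SS (Fin n) r →
    ∀ (B : Finset T) (I : Finset ι) (F : Finset T), B.card = P.ρ → Peel P.H B I F →
    ∀ (X : Finset (Fin n)) (f : T → Fin n),
      ((sites r P U).filter (fun σ => pt σ B = X ∧ ∀ t ∈ F, σ.2 t = f t)).card *
        n ^ (I.card + F.card) ≤ n ^ Fintype.card T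

open Classical in
/-- EXP (from PB, RICH): the excess is bounded on average. -/
def ExpStmt : Prop :=
  ∃ C : ℝ, 0 < C ∧ ∀ n r : ℕ, 24 ≤ n → n ≤ 3 * r → 3 * r ≤ 2 * n →
    (∑ K ∈ (MM (Fin n) r).filter (GLn r),
      ∑ X ∈ (Vr (Fin n) r).filter (fun X => X ∉ K ∧ OK r K X), (bet r K X : ℝ)) ≤
        C * n.choose r * (MM (Fin n) r).card ∧
    (∑ K ∈ MM (Fin n) r, ∑ X ∈ Vr (Fin n) r, ∑ a : Fin n, (bet5 r K X a : ℝ)) ≤
        C * n * n.choose r * (MM (Fin n) r).card

open Classical in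
/-- PLANT (from MARG): the number of good pairs without the pattern. -/
def PlantStmt : Prop :=
  ∀ (T ι : Type) [Fintype T] [DecidableEq T] [Fintype ι] [DecidableEq ι] (P : Pat T ι) (C : ℕ),
    ∃ D : ℕ, ∀ n r j : ℕ, 24 ≤ n → n ≤ 3 * r → 3 * r ≤ 2 * n →
      ((((MM (Fin n) r).filter (fun K => ¬ Occ r P.ρ P.fam K)).sigma
        (fun K => (sites r P (UU K)).filter (Good r P C j K))).card : ℝ) ≤
      (MM (Fin n) r).card * (D * 4 ^ min r (n - r) * n ^ Fintype.card T / n ^ (Fintype.card ι + 1) +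
        (n + 1) ^ D * 2 ^ min r (n - r) *
          (((range (min r (n - r) + D)).powerset.filter (fun S => S.card ≤ j + D)).card : ℝ))

open Classical in
/-- FIN: almost all matroids of rank `r` contain the pattern. -/
def FinStmt : Prop :=
  ∀ (T ι : Type) [Fintype T] [DecidableEq T] [Fintype ι] [DecidableEq ι] (P : Pat T ι),
    ∀ η : ℝ, 0 < η → ∀ᶠ n : ℕ in atTop, ∀ r, Win n r →
      (((MM (Fin n) r).filter (fun K => ¬ Occ r P.ρ P.fam K)).card : ℝ) ≤ η * (MM (Fin n) r).card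

/-- FIVE: a family of at most five sets at mutual distance at least four extends to a pattern. -/
def FiveStmt : Prop :=
  ∀ (T : Type) [Fintype T] [DecidableEq T] (ρ : ℕ) (𝓗 : Finset (Finset T)),
    (∀ B ∈ 𝓗, B.card = ρ) → Stb 𝓗 → 𝓗.card ≤ 5 →
    ∃ (m : ℕ) (P : Pat (T ⊕ Fin m) (Fin 3)), ∀ (n r : ℕ) (K : Finset (Finset (Fin n))),
      Occ r P.ρ P.fam K → Occ r ρ (fun B => B ∈ 𝓗) K

end Pool.Agent.MP_c3fbfc_co.V

end MrgPart0

-- ======== part 1: formerly Pool.Agent.MP_c3fbfc_co.VGeo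
section MrgPart1

/-! Geometry of the Johnson graph in terms of symmetric differences. -/

namespace Pool.Agent.MP_c3fbfc_co.V

open Finset
open scoped symmDiff

variable {α : Type*} [DecidableEq α]

theorem sd_comm (X Y : Finset α) : sd X Y = sd Y X := by rw [sd, sd, symmDiff_comm]

@[simp] theorem sd_self (X : Finset α) : sd X X = 0 := by simp [sd]

theorem sd_eq_zero {X Y : Finset α} : sd X Y = 0 ↔ X = Y := by
  rw [sd, card_eq_zero, ← bot_eq_empty, symmDiff_eq_bot]

theorem sd_triangle (X Y Z : Finset α) : sd X Z ≤ sd X Y + sd Y Z :=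
  (card_le_card (symmDiff_triangle X Y Z)).trans (card_union_le _ _)

theorem sd_eq (X Y : Finset α) : sd X Y = (X \ Y).card + (Y \ X).card := by
  rw [sd, symmDiff_def, sup_eq_union, card_union_of_disjoint disjoint_sdiff_sdiff]

theorem card_add_sdiff (X Y : Finset α) : X.card + (Y \ X).card = Y.card + (X \ Y).card := by
  have h1 := card_sdiff_add_card_inter X Y
  have h2 := card_sdiff_add_card_inter Y X
  rw [inter_comm] at h2
  omega

theorem sd_of_card_eq {X Y : Finset α} (h : X.card = Y.card) : sd X Y = 2 * (X \ Y).card := by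
  have := card_add_sdiff X Y
  rw [sd_eq]; omega

/-- two sets of the same size are equal, adjacent, or at distance at least four -/
theorem sd_cases {X Y : Finset α} (h : X.card = Y.card) : X = Y ∨ sd X Y = 2 ∨ 4 ≤ sd X Y := by
  have h1 := sd_of_card_eq h
  rw [← sd_eq_zero]; omega

theorem sd_le_two {X Y : Finset α} (h : X.card = Y.card) : sd X Y ≤ 2 ↔ X = Y ∨ sd X Y = 2 := by
  have h1 := sd_of_card_eq h
  rw [← sd_eq_zero]; omega

theorem sd_odd {r : ℕ} {X Y : Finset α} (hY : Ctr r Y) (hX : X.card = r) : sd Y X % 2 = 1 := by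
  have := card_add_sdiff Y X
  rw [sd_eq]
  rcases hY with h | h <;> omega

theorem mem_tg {X : Finset α} {a z : α} : z ∈ tg X a ↔ (z ∈ X ∧ z ≠ a) ∨ (z = a ∧ a ∉ X) := by
  simp only [tg, mem_symmDiff, mem_singleton]
  constructor
  · rintro (h | ⟨rfl, h⟩)
    · exact Or.inl h
    · exact Or.inr ⟨rfl, h⟩
  · rintro (h | ⟨rfl, h⟩)
    · exact Or.inl h
    · exact Or.inr ⟨rfl, h⟩

theorem tg_of_mem {X : Finset α} {a : α} (h : a ∈ X) : tg X a = X.erase a := by
  ext z; simp only [mem_tg, mem_erase]; tauto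

theorem tg_of_notMem {X : Finset α} {a : α} (h : a ∉ X) : tg X a = insert a X := by
  ext z; simp only [mem_tg, mem_insert]
  constructor
  · tauto
  · rintro (rfl | hz)
    · tauto
    · exact Or.inl ⟨hz, fun e => h (e ▸ hz)⟩

@[simp] theorem tg_tg (X : Finset α) (a : α) : tg (tg X a) a = X := by
  simp [tg]

theorem tg_comm (X : Finset α) (a b : α) : tg (tg X a) b = tg (tg X b) a := by
  simp only [tg]; exact symmDiff_right_comm _ _ _

theorem symmDiff_tg (X Y : Finset α) (a : α) : X ∆ tg Y a = tg (X ∆ Y) a := by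
  simp only [tg, symmDiff_assoc]

theorem tg_symmDiff (X Y : Finset α) (a : α) : tg X a ∆ Y = tg (X ∆ Y) a := by
  rw [symmDiff_comm, symmDiff_tg, symmDiff_comm]

theorem self_symmDiff_tg (X : Finset α) (a : α) : X ∆ tg X a = {a} := by simp [tg]

@[simp] theorem sd_tg_self (X : Finset α) (a : α) : sd X (tg X a) = 1 := by
  rw [sd, self_symmDiff_tg, card_singleton]

@[simp] theorem sd_tg_self' (X : Finset α) (a : α) : sd (tg X a) X = 1 := by
  rw [sd_comm, sd_tg_self]

theorem tg_inj {X : Finset α} {a b : α} (h : tg X a = tg X b) : a = b := by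
  have := self_symmDiff_tg X a
  rw [h, self_symmDiff_tg] at this
  exact (singleton_injective this).symm

theorem sd_eq_one {Y Z : Finset α} : sd Y Z = 1 ↔ ∃ a, Z = tg Y a := by
  constructor
  · intro h
    obtain ⟨a, ha⟩ := card_eq_one.1 h
    exact ⟨a, by rw [tg, ← ha, symmDiff_symmDiff_cancel_left]⟩
  · rintro ⟨a, rfl⟩; exact sd_tg_self _ _

theorem card_tg_of_mem {X : Finset α} {a : α} (h : a ∈ X) : (tg X a).card + 1 = X.card := by
  rw [tg_of_mem h, card_erase_add_one h]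

theorem card_tg_of_notMem {X : Finset α} {a : α} (h : a ∉ X) : (tg X a).card = X.card + 1 := by
  rw [tg_of_notMem h, card_insert_of_notMem h]

theorem sd_tg_of_mem {X Y : Finset α} {a : α} (h : a ∈ X ∆ Y) : sd X (tg Y a) + 1 = sd X Y := by
  rw [sd, symmDiff_tg, card_tg_of_mem h, sd]

theorem sd_tg_of_notMem {X Y : Finset α} {a : α} (h : a ∉ X ∆ Y) :
    sd X (tg Y a) = sd X Y + 1 := by
  rw [sd, symmDiff_tg, card_tg_of_notMem h, sd]

theorem ctr_tg {r : ℕ} {X : Finset α} (hX : X.card = r) (a : α) : Ctr r (tg X a) := by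
  by_cases h : a ∈ X
  · left; rw [card_tg_of_mem h, hX]
  · right; rw [card_tg_of_notMem h, hX]

/-- adjacent sets -/
theorem sd_eq_two {X Z : Finset α} (h : X.card = Z.card) :
    sd X Z = 2 ↔ ∃ a ∈ X, ∃ b, b ∉ X ∧ Z = tg (tg X a) b := by
  constructor
  · intro h2
    have h3 := sd_of_card_eq h
    have h4 := card_add_sdiff X Z
    obtain ⟨a, ha⟩ := card_eq_one.1 (show (X \ Z).card = 1 by omega)
    obtain ⟨b, hb⟩ := card_eq_one.1 (show (Z \ X).card = 1 by omega)
    have ha' : ∀ z, z ∈ X ∧ z ∉ Z ↔ z = a := fun z => by rw [← mem_sdiff, ha, mem_singleton]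
    have hb' : ∀ z, z ∈ Z ∧ z ∉ X ↔ z = b := fun z => by rw [← mem_sdiff, hb, mem_singleton]
    refine ⟨a, ((ha' a).2 rfl).1, b, ((hb' b).2 rfl).2, ?_⟩
    ext z
    have := ha' z; have := hb' z; have := (ha' a).2 rfl; have := (hb' b).2 rfl
    simp only [mem_tg]
    grind
  · rintro ⟨a, ha, b, hb, rfl⟩
    have hab : b ≠ a := fun e => hb (e ▸ ha)
    rw [sd_tg_of_notMem (by rw [self_symmDiff_tg]; simpa using hab), sd_tg_self]

theorem tg_tg_eq {X : Finset α} {a b : α} (ha : a ∈ X) (hb : b ∉ X) :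
    tg (tg X a) b = insert b (X.erase a) := by
  rw [tg_of_mem ha, tg_of_notMem (fun h => hb (mem_of_mem_erase h))]

theorem symmDiff_tg_tg {X : Finset α} {a b : α} (hab : a ≠ b) : X ∆ tg (tg X a) b = {a, b} := by
  rw [symmDiff_tg, self_symmDiff_tg, tg_of_notMem (by simpa using hab.symm), pair_comm]

theorem card_tg_tg {X : Finset α} {a b : α} (ha : a ∈ X) (hb : b ∉ X) :
    (tg (tg X a) b).card = X.card := by
  rw [tg_tg_eq ha hb]; exact card_sw ha hb

theorem adj_iff {X Y : Finset α} (h : X.card = Y.card) : Adj X Y ↔ sd X Y = 2 := by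
  rw [sd_eq_two h]
  constructor
  · rintro ⟨x, hx, y, hy, rfl⟩; exact ⟨x, hx, y, hy, (tg_tg_eq hx hy).symm⟩
  · rintro ⟨x, hx, y, hy, rfl⟩; exact ⟨x, hx, y, hy, tg_tg_eq hx hy⟩

theorem Adj.card_eq {X Y : Finset α} (h : Adj X Y) : X.card = Y.card := by
  obtain ⟨x, hx, y, hy, rfl⟩ := h
  exact (card_sw hx hy).symm

theorem Adj.sd {X Y : Finset α} (h : Adj X Y) : sd X Y = 2 := (adj_iff (Adj.card_eq h)).1 h

theorem Stb.mono {S T : Finset (Finset α)} (h : Stb T) (hS : S ⊆ T) : Stb S :=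
  fun X hX Y hY => h X (hS hX) Y (hS hY)

theorem Stb.stable {S : Finset (Finset α)} (h : Stb S) : Stable S :=
  fun X hX Y hY hXY => h X hX Y hY (Adj.sd hXY)

theorem mem_cn {K : Finset (Finset α)} {Z A : Finset α} : A ∈ cn K Z ↔ A ∈ K ∧ sd Z A ≤ 2 :=
  mem_filter

theorem cn_mono {K K' : Finset (Finset α)} (h : K ⊆ K') (Z : Finset α) : cn K Z ⊆ cn K' Z :=
  filter_subset_filter _ h

variable [Fintype α]

theorem mem_UU {K : Finset (Finset α)} {A : Finset α} :
    A ∈ UU K ↔ A ∈ K ∧ ∀ B ∈ K, sd A B ≠ 2 := mem_filter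

theorem UU_subset (K : Finset (Finset α)) : UU K ⊆ K := filter_subset _ _

theorem stb_UU (K : Finset (Finset α)) : Stb (UU K) :=
  fun _ hX Y hY => (mem_UU.1 hX).2 Y (UU_subset K hY)

theorem mem_nb {r : ℕ} {X Z : Finset α} : Z ∈ nb r X ↔ Z.card = r ∧ sd X Z = 2 := by
  simp [nb]

theorem mem_ln {r : ℕ} {Y Z : Finset α} : Z ∈ ln r Y ↔ Z.card = r ∧ sd Y Z = 1 := by
  simp [ln]

theorem mem_Fr {r : ℕ} {K : Finset (Finset α)} {Z : Finset α} :
    Z ∈ Fr r K ↔ Z.card = r ∧ ∀ A ∈ K, 2 < sd Z A := by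
  simp [Fr, cn, filter_eq_empty_iff]

theorem mem_PP {r : ℕ} {K : Finset (Finset α)} {Z : Finset α} :
    Z ∈ PP r K ↔ Z.card = r ∧ Z ∉ K ∧ (cn K Z).card = 1 := by
  simp [PP]

theorem mem_SS {r : ℕ} {S : Finset (Finset α)} : S ∈ SS α r ↔ S ⊆ Vr α r ∧ Stb S := by
  simp [SS]

theorem mem_sh {r : ℕ} {p : Finset α × ℕ} {X : Finset α} :
    X ∈ sh r p ↔ X.card = r ∧ p.2 < (X ∩ p.1).card := by
  simp [sh]

theorem nb_subset (r : ℕ) (X : Finset α) : nb r X ⊆ Vr α r := filter_subset _ _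

theorem ln_subset (r : ℕ) (Y : Finset α) : ln r Y ⊆ Vr α r := filter_subset _ _

theorem Fr_subset (r : ℕ) (K : Finset (Finset α)) : Fr r K ⊆ Vr α r := filter_subset _ _

theorem notMem_of_mem_Fr {r : ℕ} {K : Finset (Finset α)} {Z : Finset α} (h : Z ∈ Fr r K) :
    Z ∉ K := fun hK => by simpa using (mem_Fr.1 h).2 Z hK

theorem stb_of_stable {r : ℕ} {S : Finset (Finset α)} (hS : S ⊆ Vr α r) (h : Stable S) : Stb S :=
  fun X hX Y hY hXY => h X hX Y hY
    ((adj_iff ((mem_Vr.1 (hS hX)).trans (mem_Vr.1 (hS hY)).symm)).2 hXY)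

theorem SS_eq_stabs (r : ℕ) : SS α r = stabs α r := by
  ext S
  rw [mem_SS, stabs, mem_filter, mem_powerset]
  exact and_congr_right fun h => ⟨Stb.stable, stb_of_stable h⟩

/-- Graham and Sloane -/
theorem exists_stb {r : ℕ} {W : Finset (Finset α)} (hW : W ⊆ Vr α r) (hn : 0 < Fintype.card α) :
    ∃ G ⊆ W, Stb G ∧ W.card ≤ Fintype.card α * G.card := by
  obtain ⟨G, h1, h2, h3⟩ := exists_stable W hn
  exact ⟨G, h1, stb_of_stable (h1.trans hW) h2, by exact_mod_cast h3⟩

theorem self_mem_ln {r : ℕ} {X : Finset α} (hX : X.card = r) (a : α) : X ∈ ln r (tg X a) :=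
  mem_ln.2 ⟨hX, sd_tg_self' _ _⟩

theorem exists_tg_of_mem_ln {r : ℕ} {Y X : Finset α} (h : X ∈ ln r Y) : ∃ a, Y = tg X a :=
  sd_eq_one.1 (by rw [sd_comm]; exact (mem_ln.1 h).2)

theorem ctr_of_mem_ln {r : ℕ} {Y X : Finset α} (h : X ∈ ln r Y) : Ctr r Y := by
  obtain ⟨a, rfl⟩ := exists_tg_of_mem_ln h
  exact ctr_tg (mem_ln.1 h).1 a

/-- a line is a clique -/
theorem ln_clique {r : ℕ} {Y A B : Finset α} (hA : A ∈ ln r Y) (hB : B ∈ ln r Y) :
    A = B ∨ sd A B = 2 := by
  obtain ⟨a1, a2⟩ := mem_ln.1 hA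
  obtain ⟨b1, b2⟩ := mem_ln.1 hB
  have := sd_triangle A Y B
  rw [sd_comm A Y] at this
  exact (sd_le_two (a1.trans b1.symm)).1 (by omega)

theorem ln_star {r : ℕ} {Y : Finset α} (hY : Y.card + 1 = r) :
    ln r Y = Yᶜ.image (tg Y) := by
  ext Z
  simp only [mem_ln, sd_eq_one, mem_image, mem_compl]
  constructor
  · rintro ⟨h, a, rfl⟩
    refine ⟨a, fun ha => ?_, rfl⟩
    have := card_tg_of_mem ha
    omega
  · rintro ⟨a, ha, rfl⟩
    exact ⟨by rw [card_tg_of_notMem ha, hY], a, rfl⟩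

theorem ln_costar {r : ℕ} {Y : Finset α} (hY : Y.card = r + 1) :
    ln r Y = Y.image (tg Y) := by
  ext Z
  simp only [mem_ln, sd_eq_one, mem_image]
  constructor
  · rintro ⟨h, a, rfl⟩
    refine ⟨a, ?_, rfl⟩
    by_contra ha
    have := card_tg_of_notMem ha
    omega
  · rintro ⟨a, ha, rfl⟩
    have := card_tg_of_mem ha
    exact ⟨by omega, a, rfl⟩

theorem card_ln_ge {r : ℕ} {Y : Finset α} (h1 : Fintype.card α ≤ 3 * r)
    (h2 : 3 * r ≤ 2 * Fintype.card α) (hY : Ctr r Y) : Fintype.card α + 3 ≤ 3 * (ln r Y).card := by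
  rcases hY with h | h
  · rw [ln_star h, card_image_of_injective _ (fun _ _ => tg_inj), card_compl]
    omega
  · rw [ln_costar h, card_image_of_injective _ (fun _ _ => tg_inj)]
    omega

theorem card_sd_eq_le (X : Finset α) (d : ℕ) (S : Finset (Finset α)) (h : ∀ Z ∈ S, sd X Z = d) :
    S.card ≤ (Fintype.card α).choose d := by
  rw [← card_Vr]
  refine card_le_card_of_injOn (fun Z => X ∆ Z) (fun Z hZ => ?_) (fun Z _ Z' _ e => ?_)
  · exact mem_coe.2 (mem_Vr.2 (h Z hZ))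
  · exact symmDiff_right_injective X e

theorem card_sd_eq_le_pow (X : Finset α) (d : ℕ) (S : Finset (Finset α))
    (h : ∀ Z ∈ S, sd X Z = d) : S.card ≤ Fintype.card α ^ d :=
  (card_sd_eq_le X d S h).trans (Nat.choose_le_pow _ _)

theorem card_ln_le (r : ℕ) (Y : Finset α) : (ln r Y).card ≤ Fintype.card α := by
  simpa using card_sd_eq_le_pow Y 1 _ fun Z hZ => (mem_ln.1 hZ).2

theorem card_nb_le (r : ℕ) (X : Finset α) : (nb r X).card ≤ Fintype.card α ^ 2 :=
  card_sd_eq_le_pow X 2 _ fun _ hZ => (mem_nb.1 hZ).2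

/-- balls -/
theorem card_ball_le (X : Finset α) (d : ℕ) (S : Finset (Finset α)) (h : ∀ Z ∈ S, sd X Z ≤ d) :
    S.card ≤ (Fintype.card α + 1) ^ d := by
  have h1 : S ⊆ (range (d + 1)).biUnion (fun i => S.filter (fun Z => sd X Z = i)) := by
    intro Z hZ
    exact mem_biUnion.2 ⟨sd X Z, mem_range.2 (Nat.lt_succ_of_le (h Z hZ)), mem_filter.2 ⟨hZ, rfl⟩⟩
  refine (card_le_card h1).trans (card_biUnion_le.trans ?_)
  rw [add_pow]
  refine sum_le_sum fun i hi => ?_
  have h2 := card_sd_eq_le_pow X i (S.filter (fun Z => sd X Z = i)) fun Z hZ => (mem_filter.1 hZ).2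
  have h3 : 0 < d.choose i := Nat.choose_pos (Nat.lt_succ_iff.1 (mem_range.1 hi))
  simp only [one_pow, mul_one, Nat.cast_id]
  exact h2.trans (Nat.le_mul_of_pos_right _ h3)

/-- the lines through two adjacent points -/
theorem ln_pair {r : ℕ} {Y A B : Finset α} (hA : A ∈ ln r Y) (hB : B ∈ ln r Y) (hne : A ≠ B) :
    ∃ a ∈ A ∆ B, Y = tg A a := by
  obtain ⟨a, rfl⟩ := exists_tg_of_mem_ln hA
  refine ⟨a, ?_, rfl⟩
  by_contra h
  have h1 := sd_tg_of_notMem (X := B) (Y := A) (a := a) (by rwa [symmDiff_comm])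
  have h2 := (mem_ln.1 hB).2
  rw [sd_comm] at h2
  exact hne (sd_eq_zero.1 (by omega : sd B A = 0)).symm

theorem mem_ln_tg {r : ℕ} {A B : Finset α} (hB : B.card = r) (h : sd A B = 2) {a : α}
    (ha : a ∈ A ∆ B) : B ∈ ln r (tg A a) := by
  have h1 := sd_tg_of_mem (X := B) (Y := A) (a := a) (by rwa [symmDiff_comm])
  rw [sd_comm B A] at h1
  exact mem_ln.2 ⟨hB, by rw [sd_comm]; omega⟩

/-- at most two lines contain two given points -/
theorem card_lines_pair {r : ℕ} {A B : Finset α} (hne : A ≠ B) (S : Finset (Finset α))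
    (h : ∀ Y ∈ S, A ∈ ln r Y ∧ B ∈ ln r Y) : S.card ≤ 2 := by
  rcases S.eq_empty_or_nonempty with rfl | ⟨Y0, hY0⟩
  · simp
  have h2 : sd A B = 2 := (ln_clique (h Y0 hY0).1 (h Y0 hY0).2).resolve_left hne
  have : S ⊆ (A ∆ B).image (tg A) := fun Y hY => by
    obtain ⟨a, ha, rfl⟩ := ln_pair (h Y hY).1 (h Y hY).2 hne
    exact mem_image_of_mem _ ha
  exact (card_le_card this).trans (card_image_le.trans h2.le)

/-- a point off a line has at most three neighbours on it -/
theorem card_adj_on_ln {r : ℕ} {X Y : Finset α} (hX : X.card = r) (hXY : X ∉ ln r Y)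
    (S : Finset (Finset α)) (h : ∀ A ∈ S, A ∈ ln r Y ∧ sd X A ≤ 2) : S.card ≤ 3 := by
  rcases S.eq_empty_or_nonempty with rfl | ⟨A0, hA0⟩
  · simp
  have hc := ctr_of_mem_ln (h A0 hA0).1
  have h1 := sd_odd hc hX
  have h2 := sd_triangle Y A0 X
  rw [(mem_ln.1 (h A0 hA0).1).2, sd_comm A0] at h2
  have h3 := (h A0 hA0).2
  have h4 : sd Y X ≠ 1 := fun e => hXY (mem_ln.2 ⟨hX, e⟩)
  have h5 : sd X Y = 3 := by rw [sd_comm]; omega
  have : S ⊆ (X ∆ Y).image (tg Y) := fun A hA => by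
    obtain ⟨a, rfl⟩ := sd_eq_one.1 (mem_ln.1 (h A hA).1).2
    refine mem_image_of_mem _ ?_
    by_contra hn
    have := sd_tg_of_notMem hn
    have := (h _ hA).2
    omega
  exact (card_le_card this).trans (card_image_le.trans h5.le)

/-- two different lines have at most two common points -/
theorem card_ln_inter {r : ℕ} {Y Y' : Finset α} (hne : Y ≠ Y') : (ln r Y ∩ ln r Y').card ≤ 2 := by
  rcases (ln r Y ∩ ln r Y').eq_empty_or_nonempty with h | ⟨A0, hA0⟩
  · simp [h]
  have h1 := sd_triangle Y A0 Y'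
  rw [(mem_ln.1 (mem_inter.1 hA0).1).2, sd_comm A0, (mem_ln.1 (mem_inter.1 hA0).2).2] at h1
  have : ln r Y ∩ ln r Y' ⊆ (Y' ∆ Y).image (tg Y) := fun A hA => by
    obtain ⟨a, rfl⟩ := sd_eq_one.1 (mem_ln.1 (mem_inter.1 hA).1).2
    refine mem_image_of_mem _ ?_
    by_contra hn
    have h2 := sd_tg_of_notMem hn
    rw [(mem_ln.1 (mem_inter.1 hA).2).2] at h2
    exact hne (sd_eq_zero.1 (by omega : sd Y' Y = 0)).symm
  refine (card_le_card this).trans (card_image_le.trans ?_)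
  rw [sd_comm] at h1
  exact h1

/-- a vertex at distance three from the centre is adjacent to a point of the line -/
theorem exists_adj_on_ln {r : ℕ} {X Y : Finset α} (hX : X.card = r) (hY : Ctr r Y)
    (h : sd Y X = 3) : ∃ A ∈ ln r Y, sd X A = 2 := by
  have h1 := card_add_sdiff Y X
  have h2 := sd_eq Y X
  have key : ∀ a ∈ X ∆ Y, (tg Y a).card = r → ∃ A ∈ ln r Y, sd X A = 2 := fun a ha hc => by
    have := sd_tg_of_mem ha
    rw [sd_comm X Y] at this
    exact ⟨tg Y a, mem_ln.2 ⟨hc, sd_tg_self _ _⟩, by omega⟩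
  rcases hY with hY | hY
  · obtain ⟨a, ha⟩ := card_pos.1 (show 0 < (X \ Y).card by omega)
    rw [mem_sdiff] at ha
    exact key a (mem_symmDiff.2 (Or.inl ha)) (by rw [card_tg_of_notMem ha.2, hY])
  · obtain ⟨a, ha⟩ := card_pos.1 (show 0 < (Y \ X).card by omega)
    rw [mem_sdiff] at ha
    have := card_tg_of_mem ha.1
    exact key a (mem_symmDiff.2 (Or.inr ha)) (by omega)

theorem sd_le_three {r : ℕ} {X Y A : Finset α} (hA : A ∈ ln r Y) (h : sd X A ≤ 2) : sd Y X ≤ 3 := by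
  have := sd_triangle Y A X
  rw [(mem_ln.1 hA).2, sd_comm A] at this
  omega

omit [Fintype α] in
/-- the distance of a neighbour `X + {a, b}` to a set `Y` -/
theorem sd_tg_tg (X Y : Finset α) {a b : α} (hab : a ≠ b) :
    sd Y (tg (tg X a) b) + 2 * ((if a ∈ Y ∆ X then 1 else 0) + (if b ∈ Y ∆ X then 1 else 0)) =
      sd Y X + 2 := by
  have hb : b ∈ Y ∆ tg X a ↔ b ∈ Y ∆ X := by
    rw [symmDiff_tg, mem_tg]
    constructor
    · rintro (h | h)
      · exact h.1
      · exact absurd h.1 hab.symm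
    · exact fun h => Or.inl ⟨h, hab.symm⟩
  by_cases h1 : a ∈ Y ∆ X <;> by_cases h2 : b ∈ Y ∆ X <;> simp only [h1, h2, if_true, if_false]
  · have := sd_tg_of_mem h1; have := sd_tg_of_mem (hb.2 h2); omega
  · have := sd_tg_of_mem h1; have := sd_tg_of_notMem (fun h => h2 (hb.1 h)); omega
  · have := sd_tg_of_notMem h1; have := sd_tg_of_mem (hb.2 h2); omega
  · have := sd_tg_of_notMem h1; have := sd_tg_of_notMem (fun h => h2 (hb.1 h)); omega

/-- neighbours of `A` that are closer to `Y` than `A` is -/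
theorem card_closer {r : ℕ} {A Y : Finset α} (hA : A.card = r) (S : Finset (Finset α))
    (h : ∀ Z ∈ S, Z ∈ nb r A ∧ sd Y Z < sd Y A) : S.card ≤ (A \ Y).card * (Y \ A).card := by
  have : S ⊆ ((A \ Y) ×ˢ (Y \ A)).image (fun p => tg (tg A p.1) p.2) := fun Z hZ => by
    obtain ⟨h1, h2⟩ := h Z hZ
    obtain ⟨a, ha, b, hb, rfl⟩ := (sd_eq_two (hA.trans (mem_nb.1 h1).1.symm)).1 (mem_nb.1 h1).2
    have h3 := sd_tg_tg A Y (show a ≠ b from fun e => hb (e ▸ ha))
    have h4 : a ∈ Y ∆ A ∧ b ∈ Y ∆ A := by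
      by_cases c1 : a ∈ Y ∆ A <;> by_cases c2 : b ∈ Y ∆ A <;>
        simp only [c1, c2, if_true, if_false] at h3 <;> first | exact ⟨c1, c2⟩ | omega
    rw [mem_symmDiff, mem_symmDiff] at h4
    exact mem_image.2 ⟨(a, b), mem_product.2 ⟨mem_sdiff.2 (by tauto), mem_sdiff.2 (by tauto)⟩, rfl⟩
  exact (card_le_card this).trans (card_image_le.trans (card_product _ _).le)

/-- non-adjacent vertices have at most four common neighbours -/
theorem card_common_far {r : ℕ} {A B : Finset α} (hA : A.card = r) (hB : B.card = r)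
    (hAB : 4 ≤ sd A B) (S : Finset (Finset α)) (h : ∀ Z ∈ S, Z ∈ nb r A ∧ sd B Z ≤ 2) :
    S.card ≤ 4 := by
  rcases S.eq_empty_or_nonempty with rfl | ⟨Z0, hZ0⟩
  · simp
  have h1 := sd_triangle A Z0 B
  rw [(mem_nb.1 (h Z0 hZ0).1).2, sd_comm Z0] at h1
  have h2 := (h Z0 hZ0).2
  have h3 := sd_of_card_eq (hA.trans hB.symm)
  have h4 := sd_of_card_eq (hB.trans hA.symm)
  rw [sd_comm] at h4
  have h5 := card_closer (Y := B) hA S fun Z hZ =>
    ⟨(h Z hZ).1, by have := (h Z hZ).2; rw [sd_comm B A]; omega⟩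
  rwa [show (A \ B).card = 2 by omega, show (B \ A).card = 2 by omega] at h5

/-- neighbours of `A` that are not farther from `Y` than `A` is -/
theorem card_not_farther {r : ℕ} {A Y : Finset α} (hA : A.card = r) (S : Finset (Finset α))
    (h : ∀ Z ∈ S, Z ∈ nb r A ∧ sd Y Z ≤ sd Y A) : S ⊆ (Y ∆ A).biUnion (fun a => ln r (tg A a)) := by
  intro Z hZ
  obtain ⟨h1, h2⟩ := h Z hZ
  obtain ⟨hc, h3⟩ := mem_nb.1 h1
  obtain ⟨a, ha, b, hb, e⟩ := (sd_eq_two (hA.trans hc.symm)).1 h3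
  have hab : a ≠ b := fun e => hb (e ▸ ha)
  have h4 := sd_tg_tg A Y hab
  rw [← e] at h4
  have h5 : A ∆ Z = {a, b} := by rw [e, symmDiff_tg_tg hab]
  by_cases c1 : a ∈ Y ∆ A
  · exact mem_biUnion.2 ⟨a, c1, mem_ln_tg hc h3 (by simp [h5])⟩
  by_cases c2 : b ∈ Y ∆ A
  · exact mem_biUnion.2 ⟨b, c2, mem_ln_tg hc h3 (by simp [h5])⟩
  simp only [c1, c2, if_false] at h4
  omega

theorem Stb.card_inter_ln {r : ℕ} {S : Finset (Finset α)} (hS : Stb S) (Y : Finset α) :
    (S ∩ ln r Y).card ≤ 1 := by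
  refine card_le_one.2 fun A hA B hB => ?_
  exact (ln_clique (mem_inter.1 hA).2 (mem_inter.1 hB).2).resolve_right
    (hS A (mem_inter.1 hA).1 B (mem_inter.1 hB).1)

/-- a stable set covered by lines -/
theorem Stb.card_le_of_cover {r : ℕ} {S : Finset (Finset α)} (hS : Stb S) {β : Type*}
    (D : Finset β) (f : β → Finset α) (h : ∀ Z ∈ S, ∃ a ∈ D, Z ∈ ln r (f a)) : S.card ≤ D.card := by
  have : S ⊆ D.biUnion (fun a => S ∩ ln r (f a)) := fun Z hZ => by
    obtain ⟨a, ha, h1⟩ := h Z hZ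
    exact mem_biUnion.2 ⟨a, ha, mem_inter.2 ⟨hZ, h1⟩⟩
  refine (card_le_card this).trans (card_biUnion_le.trans ?_)
  simpa using sum_le_card_nsmul D _ 1 fun a _ => hS.card_inter_ln (r := r) (f a)

theorem Stb.card_not_farther {r : ℕ} {A Y : Finset α} (hA : A.card = r) {S : Finset (Finset α)}
    (hS : Stb S) (h : ∀ Z ∈ S, Z ∈ nb r A ∧ sd Y Z ≤ sd Y A) : S.card ≤ sd Y A :=
  hS.card_le_of_cover (r := r) (Y ∆ A) (tg A) fun _ hZ =>
    mem_biUnion.1 (V.card_not_farther hA S h hZ)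

/-- adjacent vertices have at most `n` common neighbours -/
theorem card_common_adj {r : ℕ} {A B : Finset α} (hA : A.card = r) (hB : B.card = r)
    (hAB : sd A B = 2) (S : Finset (Finset α)) (h : ∀ Z ∈ S, Z ∈ nb r A ∧ sd B Z = 2) :
    S.card ≤ Fintype.card α := by
  obtain ⟨a, ha, b, hb, e⟩ := (sd_eq_two (hA.trans hB.symm)).1 hAB
  have hab : a ≠ b := fun e => hb (e ▸ ha)
  have h5 : B ∆ A = {a, b} := by rw [symmDiff_comm, e, symmDiff_tg_tg hab]
  have h1 := card_not_farther (Y := B) hA S fun Z hZ => ⟨(h Z hZ).1, by rw [(h Z hZ).2, sd_comm, hAB]⟩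
  have h2 : S ⊆ (Aᶜ.image (tg (tg A a))) ∪ (A.image (tg (tg A b))) := by
    intro Z hZ
    obtain ⟨c, hc, hZc⟩ := mem_biUnion.1 (h1 hZ)
    have hZA : Z ≠ A := fun e => by simpa [e] using (mem_nb.1 (h Z hZ).1).2
    rw [h5, mem_insert, mem_singleton] at hc
    rcases hc with rfl | rfl
    · rw [ln_star (by rw [card_tg_of_mem ha, hA])] at hZc
      obtain ⟨y, hy, rfl⟩ := mem_image.1 hZc
      refine mem_union_left _ (mem_image_of_mem _ ?_)
      rw [mem_compl, mem_tg] at hy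
      rw [mem_compl]
      intro hyA
      by_cases hyc : y = c
      · exact hZA (by rw [hyc, tg_tg])
      · exact hy (Or.inl ⟨hyA, hyc⟩)
    · rw [ln_costar (by rw [card_tg_of_notMem hb, hA])] at hZc
      obtain ⟨y, hy, rfl⟩ := mem_image.1 hZc
      refine mem_union_right _ (mem_image_of_mem _ ?_)
      rcases mem_tg.1 hy with h3 | h3
      · exact h3.1
      · exact absurd (by rw [h3.1, tg_tg]) hZA
  refine (card_le_card h2).trans ((card_union_le _ _).trans ?_)
  have h3 := card_image_le (s := Aᶜ) (f := tg (tg A a))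
  have h4 := card_image_le (s := A) (f := tg (tg A b))
  have h6 := card_add_card_compl A
  omega

/-- a stable set of neighbours is a matching -/
theorem Stb.card_le_min {r : ℕ} {X : Finset α} (hX : X.card = r) {S : Finset (Finset α)}
    (hS : Stb S) (h : S ⊆ nb r X) : S.card ≤ min r (Fintype.card α - r) := by
  have key : ∀ Z ∈ S, ∃ a ∈ X, ∃ b ∈ Xᶜ, Z ∈ ln r (tg X a) ∧ Z ∈ ln r (tg X b) := by
    intro Z hZ
    obtain ⟨hc, h3⟩ := mem_nb.1 (h hZ)
    obtain ⟨a, ha, b, hb, e⟩ := (sd_eq_two (hX.trans hc.symm)).1 h3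
    have hab : a ≠ b := fun e => hb (e ▸ ha)
    have h5 : X ∆ Z = {a, b} := by rw [e, symmDiff_tg_tg hab]
    exact ⟨a, ha, b, mem_compl.2 hb, mem_ln_tg hc h3 (by simp [h5]), mem_ln_tg hc h3 (by simp [h5])⟩
  refine le_min ?_ ?_
  · rw [← hX]
    exact hS.card_le_of_cover (r := X.card) X (tg X) fun Z hZ => by
      obtain ⟨a, ha, _, _, h1, _⟩ := key Z hZ
      exact ⟨a, ha, hX ▸ h1⟩
  · rw [← hX, ← card_compl]
    exact hS.card_le_of_cover (r := r) Xᶜ (tg X) fun Z hZ => by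
      obtain ⟨_, _, b, hb, _, h1⟩ := key Z hZ
      exact ⟨b, hb, h1⟩

theorem choose_pred_le {n r : ℕ} (h2 : 3 * r ≤ 2 * n) : n.choose (r - 1) ≤ 2 * n.choose r := by
  rcases r with _ | r
  · simp
  have h := Nat.choose_succ_right_eq n r
  have h3 : n.choose r * (r + 1) ≤ 2 * n.choose (r + 1) * (r + 1) := by
    rw [mul_assoc, h, ← mul_assoc, mul_comm 2, mul_assoc]
    exact Nat.mul_le_mul_left _ (by omega)
  simpa using Nat.le_of_mul_le_mul_right h3 (Nat.succ_pos r)

theorem choose_succ_le {n r : ℕ} (h1 : n ≤ 3 * r) : n.choose (r + 1) ≤ 2 * n.choose r := by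
  have h := Nat.choose_succ_right_eq n r
  have h3 : n.choose (r + 1) * (r + 1) ≤ 2 * n.choose r * (r + 1) := by
    rw [h, mul_comm 2, mul_assoc]
    exact Nat.mul_le_mul_left _ (by omega)
  exact Nat.le_of_mul_le_mul_right h3 (Nat.succ_pos r)

/-- the number of centres -/
theorem card_ctr_le {r : ℕ} (h1 : Fintype.card α ≤ 3 * r) (h2 : 3 * r ≤ 2 * Fintype.card α)
    (S : Finset (Finset α)) (h : ∀ Y ∈ S, Ctr r Y) : S.card ≤ 4 * (Fintype.card α).choose r := by
  have : S ⊆ Vr α (r - 1) ∪ Vr α (r + 1) := fun Y hY => by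
    rcases h Y hY with h3 | h3
    · exact mem_union_left _ (mem_Vr.2 (by omega))
    · exact mem_union_right _ (mem_Vr.2 h3)
  refine (card_le_card this).trans ((card_union_le _ _).trans ?_)
  rw [card_Vr, card_Vr]
  have := choose_pred_le h2
  have := choose_succ_le h1
  omega

/-- every vertex lies on `n` lines -/
theorem sum_card_inter_ln {r : ℕ} {S : Finset (Finset α)} (hS : S ⊆ Vr α r) :
    ∑ Y : Finset α, (ln r Y ∩ S).card = Fintype.card α * S.card := by
  have h1 : ∀ Y : Finset α, (ln r Y ∩ S).card = ∑ X ∈ S, if X ∈ ln r Y then 1 else 0 := fun Y => by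
    rw [← card_filter, filter_mem_eq_inter, inter_comm]
  simp only [h1]
  rw [sum_comm, mul_comm, ← smul_eq_mul, ← sum_const]
  refine sum_congr rfl fun X hX => ?_
  rw [← card_filter]
  have : univ.filter (fun Y => X ∈ ln r Y) = univ.image (tg X) := by
    ext Y
    simp only [mem_filter, mem_univ, true_and, mem_image]
    exact ⟨fun h => (exists_tg_of_mem_ln h).imp fun _ h => h.symm,
      fun ⟨a, h⟩ => h ▸ self_mem_ln (mem_Vr.1 (hS hX)) a⟩
  rw [this, card_image_of_injective _ (fun _ _ => tg_inj), card_univ]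

/-- the size of a stable set -/
theorem Stb.card_le {r : ℕ} (h1 : Fintype.card α ≤ 3 * r) (h2 : 3 * r ≤ 2 * Fintype.card α)
    {S : Finset (Finset α)} (hV : S ⊆ Vr α r) (hS : Stb S) :
    Fintype.card α * S.card ≤ 4 * (Fintype.card α).choose r := by
  classical
  rw [← sum_card_inter_ln hV, ← sum_filter_add_sum_filter_not univ (Ctr r)]
  have h3 : ∑ Y ∈ univ.filter (fun Y => ¬ Ctr r Y), (ln r Y ∩ S).card = 0 := by
    refine sum_eq_zero fun Y hY => card_eq_zero.2 (eq_empty_of_forall_notMem fun X hX => ?_)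
    exact (mem_filter.1 hY).2 (ctr_of_mem_ln (mem_inter.1 hX).1)
  have h4 := sum_le_card_nsmul (univ.filter (Ctr r)) (fun Y => (ln r Y ∩ S).card) 1 fun Y _ => by
    rw [inter_comm]; exact hS.card_inter_ln Y
  have h5 := card_ctr_le h1 h2 (univ.filter (Ctr r)) fun Y hY => (mem_filter.1 hY).2
  rw [smul_eq_mul, mul_one] at h4
  rw [h3, add_zero]
  exact h4.trans h5

end Pool.Agent.MP_c3fbfc_co.V

end MrgPart1

-- ======== part 2: formerly Pool.Agent.MP_c3fbfc_co.VAux
section MrgPart2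

/-! Small lemmas copied from the files of helper29 (Asym, Link1, Link2), so that this development
does not depend on the long import chain of those files. -/

namespace Pool.Agent.MP_c3fbfc_co.V

open Finset Filter Topology
open scoped Classical Matroid

theorem choose_small {n r : ℕ} (h : 3 * r ≤ n) : (n.choose r : ℝ) ≤ (19 / 10) ^ n := by
  have h1 : (n.choose r : ℝ) * 2 ^ (n - r) ≤ 3 ^ n := by
    have e := add_pow (1 : ℝ) 2 n
    have := Finset.single_le_sum (f := fun k => (1 : ℝ) ^ k * 2 ^ (n - k) * n.choose k)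
      (s := range (n + 1)) (fun _ _ => by positivity) (Finset.mem_range.2 (by omega : r < n + 1))
    rw [← e] at this
    norm_num at this
    linarith
  have h2 : (n.choose r : ℝ) ^ 3 * 4 ^ n ≤ 27 ^ n := by
    have a1 : ((n.choose r : ℝ) * 2 ^ (n - r)) ^ 3 ≤ (3 ^ n) ^ 3 := by gcongr
    have a2 : (4 : ℝ) ^ n ≤ (2 ^ (n - r)) ^ 3 := by
      rw [← pow_mul, show (4 : ℝ) = 2 ^ 2 by norm_num, ← pow_mul]
      exact pow_le_pow_right₀ (by norm_num) (by omega)
    have a3 : ((3 : ℝ) ^ n) ^ 3 = 27 ^ n := by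
      rw [← pow_mul, mul_comm, pow_mul]; norm_num
    rw [mul_pow, a3] at a1
    exact le_trans (by gcongr) a1
  refine le_of_pow_le_pow_left₀ (n := 3) (by norm_num) (by positivity) ?_
  have a4 : (27 : ℝ) ^ n ≤ ((19 / 10) ^ n) ^ 3 * 4 ^ n := by
    rw [← pow_mul, mul_comm n 3, pow_mul, ← mul_pow]
    gcongr
    norm_num
  exact le_of_mul_le_mul_right (h2.trans a4) (by positivity)

theorem two_pow_le_middle (n : ℕ) : (2 : ℝ) ^ n ≤ (n + 1) * n.choose (n / 2) := by
  have h := Nat.sum_range_choose n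
  have h2 : ∑ k ∈ range (n + 1), n.choose k ≤ ∑ _k ∈ range (n + 1), n.choose (n / 2) :=
    Finset.sum_le_sum (fun k _ => Nat.choose_le_middle k n)
  rw [h, Finset.sum_const, Finset.card_range, smul_eq_mul] at h2
  exact_mod_cast h2

theorem stabs_lower {α : Type*} [Fintype α] [DecidableEq α] (hn : 0 < Fintype.card α) (r : ℕ) :
    Real.exp (2 / 3 * (((Fintype.card α).choose r : ℝ) / Fintype.card α)) ≤ (stabs α r).card := by
  obtain ⟨W, h1, h2, h3⟩ := exists_stable (Vr α r) hn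
  have h4 : W.powerset ⊆ stabs α r := by
    intro I hI
    rw [Finset.mem_powerset] at hI
    exact Finset.mem_filter.2 ⟨Finset.mem_powerset.2 (hI.trans h1),
      fun X hX Y hY => h2 X (hI hX) Y (hI hY)⟩
  have h5 := Finset.card_le_card h4
  rw [Finset.card_powerset] at h5
  have h6 : (2 : ℝ) ^ W.card ≤ (stabs α r).card := by exact_mod_cast h5
  refine le_trans ?_ h6
  have hn' : (0 : ℝ) < Fintype.card α := by exact_mod_cast hn
  rw [card_Vr] at h3
  have h7 : ((Fintype.card α).choose r : ℝ) / Fintype.card α ≤ W.card := by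
    rw [div_le_iff₀ hn']; linarith
  have h8 := Real.log_two_gt_d9
  rw [← Real.exp_log (show (0 : ℝ) < 2 by norm_num), ← Real.exp_nat_mul, Real.exp_le_exp]
  have : (0 : ℝ) ≤ W.card := by positivity
  rw [Real.exp_log (show (0 : ℝ) < 2 by norm_num)]
  nlinarith

theorem ev_exp (C : ℝ) (k : ℕ) :
    ∀ᶠ n : ℕ in atTop, C * (n : ℝ) ^ k * (19 / 10) ^ n ≤ 2 ^ n := by
  have h := tendsto_pow_const_mul_const_pow_of_abs_lt_one k
    (r := 19 / 20) (by rw [abs_of_pos] <;> norm_num)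
  have hc : (0 : ℝ) < 1 / (|C| + 1) := by positivity
  filter_upwards [h.eventually_le_const hc] with n hn
  have e : ((19 : ℝ) / 10) ^ n = (19 / 20) ^ n * 2 ^ n := by
    rw [← mul_pow]; norm_num
  rw [le_div_iff₀ (by positivity)] at hn
  have a1 := le_abs_self C
  have a2 : (0 : ℝ) ≤ (n : ℝ) ^ k * (19 / 20) ^ n := by positivity
  have a3 : C * ((n : ℝ) ^ k * (19 / 20) ^ n) ≤ 1 := by nlinarith
  have a4 : (0 : ℝ) < 2 ^ n := by positivity
  rw [e]
  nlinarith

theorem isom_refl {α : Type*} (M : Matroid α) : Isom M M := ⟨Equiv.refl _, fun I => by simp⟩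

theorem isom_symm {α β : Type*} {M : Matroid α} {N : Matroid β} (h : Isom M N) : Isom N M := by
  obtain ⟨e, he⟩ := h
  refine ⟨e.symm, fun I => ?_⟩
  rw [he, Equiv.image_symm_image]

theorem isom_trans {α β γ : Type*} {M : Matroid α} {N : Matroid β} {K : Matroid γ}
    (h : Isom M N) (h' : Isom N K) : Isom M K := by
  obtain ⟨e, he⟩ := h
  obtain ⟨e', he'⟩ := h'
  refine ⟨e.trans e', fun I => ?_⟩
  rw [he, he', Equiv.coe_trans, Set.image_comp]

/-- minor, through an injective relabelling -/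
def HM {α β : Type*} (M : Matroid α) (N : Matroid β) : Prop :=
  ∃ (f : β → α) (hf : Set.InjOn f N.E), N.map f hf ≤m M

theorem HM.hasMinor {α β : Type*} {M : Matroid α} {N : Matroid β} (h : HM M N) :
    HasMinor M N := by
  obtain ⟨f, hf, h⟩ := h
  refine ⟨_, h, isom_symm ⟨Equiv.Set.imageOfInjOn f N.E hf, fun I => ?_⟩⟩
  rw [← Matroid.map_image_indep_iff (f := f) (hf := hf) (by rintro _ ⟨x, -, rfl⟩; exact x.2),
    Set.image_image, Set.image_image]
  rfl

section rank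

variable {α : Type*} [Fintype α] [DecidableEq α]

omit [DecidableEq α] in
theorem mem_bases {ρ : Finset α → ℕ} {r : ℕ} {X : Finset α} :
    X ∈ bases ρ r ↔ X.card = r ∧ ρ X = r := by
  simp [bases]

/-- the rank function on finsets -/
noncomputable def rk (M : Matroid α) : Finset α → ℕ := fun X => (M.eRk X).toNat

omit [Fintype α] [DecidableEq α] in
theorem rk_cast (M : Matroid α) (X : Finset α) : (rk M X : ℕ∞) = M.eRk X :=
  ENat.natCast_toNat (ne_top_of_le_ne_top X.finite_toSet.encard_lt_top.ne (M.eRk_le_encard X))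

theorem rk_isRk (M : Matroid α) : IsRk (rk M) (rk M univ) where
  le_card := by
    intro X
    have := M.eRk_le_encard X
    rw [← rk_cast, Set.encard_coe_eq_coe_finsetCard] at this
    exact_mod_cast this
  mono := by
    intro X Y h
    have := M.eRk_mono (Finset.coe_subset.2 h)
    rw [← rk_cast, ← rk_cast] at this
    exact_mod_cast this
  submod := by
    intro X Y
    have := M.eRk_inter_add_eRk_union_le X Y
    rw [← Finset.coe_inter, ← Finset.coe_union, ← rk_cast, ← rk_cast, ← rk_cast,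
      ← rk_cast] at this
    have : rk M (X ∩ Y) + rk M (X ∪ Y) ≤ rk M X + rk M Y := by exact_mod_cast this
    omega
  top := rfl

omit [Fintype α] [DecidableEq α] in
theorem indep_iff_rk (M : Matroid α) (X : Finset α) : M.Indep X ↔ rk M X = X.card := by
  rw [Matroid.indep_iff_eRk_eq_encard_of_finite X.finite_toSet, ← rk_cast,
    Set.encard_coe_eq_coe_finsetCard]
  exact Nat.cast_inj

omit [DecidableEq α] in
theorem isBase_iff_rk (M : Matroid α) (X : Finset α) :
    M.IsBase X ↔ X ∈ bases (rk M) (rk M univ) := by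
  have e : (rk M univ : ℕ∞) = M.eRank := by rw [rk_cast, Finset.coe_univ, Matroid.eRk_univ_eq]
  rw [mem_bases]
  constructor
  · intro h
    have h1 := h.encard_eq_eRank
    rw [← e, Set.encard_coe_eq_coe_finsetCard, Nat.cast_inj] at h1
    exact ⟨h1, ((indep_iff_rk M X).1 h.indep).trans h1⟩
  · rintro ⟨h1, h2⟩
    refine ((indep_iff_rk M X).2 (h2.trans h1.symm)).isBase_of_eRk_ge X.finite_toSet ?_
    rw [← e, ← rk_cast, h2]

omit [DecidableEq α] in
theorem eq_of_bases {M M' : Matroid α} (hE : M.E = M'.E)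
    (h : bases (rk M) (rk M univ) = bases (rk M') (rk M' univ)) : M = M' := by
  refine Matroid.ext_isBase hE (fun B _ => ?_)
  lift B to Finset α using Set.toFinite B
  rw [isBase_iff_rk, isBase_iff_rk, h]

end rank

theorem card_add_compl {X : Type*} [Finite X] (p : X → Prop) :
    (Nat.card {x // p x} : ℝ) + Nat.card {x // ¬ p x} = Nat.card X := by
  have := Fintype.ofFinite X
  simp only [Nat.card_eq_fintype_card, Fintype.card_subtype]
  exact_mod_cast Finset.card_filter_add_card_filter_not (s := univ) p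

variable {β : Type*} {N : Matroid β}

theorem paving_indep (h : Paving N) {I : Set β} (hI : I ⊆ N.E) (hc : I.encard < N.eRank) :
    N.Indep I := by
  by_contra hcon
  obtain ⟨C, hC, hCI⟩ := (Matroid.dep_of_not_indep hcon hI).exists_isCircuit_subset
  exact absurd ((h C hCI).trans (Set.encard_le_encard hC)) (not_le.2 hc)

theorem sparse_eq (hE : N.E.Finite) (h : Paving N) (h' : Paving N✶) {s : ℕ} (hs : N.eRank = s)
    {A B : Finset β} (hA : N.Dep A) (hB : N.Dep B) (cA : A.card = s) (cB : B.card = s)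
    (hI : s ≤ (A ∩ B).card + 1) : A = B := by
  by_contra hne
  have c1 : (A ∩ B).card < s := by
    by_contra t
    have e1 : A ∩ B = A := Finset.eq_of_subset_of_card_le Finset.inter_subset_left (by omega)
    have e2 : A ∩ B = B := Finset.eq_of_subset_of_card_le Finset.inter_subset_right (by omega)
    exact hne (e1.symm.trans e2)
  have c2 := Finset.card_union_add_card_inter A B
  have r1 : rk N A < s := by
    have := Matroid.eRk_lt_encard_of_dep_of_finite A.finite_toSet hA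
    rw [← rk_cast, Set.encard_coe_eq_coe_finsetCard, cA] at this
    exact_mod_cast this
  have r2 : rk N B < s := by
    have := Matroid.eRk_lt_encard_of_dep_of_finite B.finite_toSet hB
    rw [← rk_cast, Set.encard_coe_eq_coe_finsetCard, cB] at this
    exact_mod_cast this
  have r3 : rk N (A ∩ B) = (A ∩ B).card := (indep_iff_rk N _).1 (paving_indep h
    ((Finset.coe_subset.2 Finset.inter_subset_left).trans hA.subset_ground) (by
      rw [hs, Set.encard_coe_eq_coe_finsetCard]; exact_mod_cast c1))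
  have r4 : rk N (A ∩ B) + rk N (A ∪ B) ≤ rk N A + rk N B := by
    have := N.eRk_inter_add_eRk_union_le A B
    rw [← Finset.coe_inter, ← Finset.coe_union, ← rk_cast, ← rk_cast, ← rk_cast,
      ← rk_cast] at this
    exact_mod_cast this
  have sub : ((A ∪ B : Finset β) : Set β) ⊆ N.E := by
    rw [Finset.coe_union]; exact Set.union_subset hA.subset_ground hB.subset_ground
  have d1 := Set.encard_sdiff_add_encard_of_subset sub
  have d2 := N.eRank_add_eRank_dual
  have d3 : (N.E \ ((A ∪ B : Finset β) : Set β)).encard < N✶.eRank := by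
    rw [← d2, hs, Set.encard_coe_eq_coe_finsetCard,
      show (A ∪ B).card = 1 + s by omega, Nat.cast_add, ← add_assoc, add_comm (s : ℕ∞)] at d1
    have := WithTop.add_right_cancel (ENat.natCast_ne_top s) d1
    rw [← this]
    exact (ENat.lt_add_one_iff (hE.subset Set.sdiff_subset).encard_lt_top.ne).2 le_rfl
  obtain ⟨-, B0, b1, b2⟩ := Matroid.dual_indep_iff_exists'.1 (paving_indep h' Set.sdiff_subset d3)
  have b3 : B0 ⊆ ((A ∪ B : Finset β) : Set β) := by
    intro x hx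
    by_contra t
    exact Set.disjoint_left.1 b2 ⟨b1.subset_ground hx, t⟩ hx
  have b4 := b1.indep.encard_le_eRk_of_subset b3
  rw [b1.encard_eq_eRank, hs, ← rk_cast] at b4
  have : s ≤ rk N (A ∪ B) := by exact_mod_cast b4
  omega

theorem hm_of {α : Type*} [Fintype α] [DecidableEq α] (M : Matroid α) (hM : M.E = Set.univ)
    (hE : N.E.Finite) (h : Paving N) {s : ℕ} (hs : N.eRank = s) (T : Finset α) (ψ : β → α)
    (inj : Set.InjOn ψ N.E) (dis : ∀ a ∈ N.E, ψ a ∉ T) (hT : T.card + s = rk M univ)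
    (key : ∀ A : Finset β, (A : Set β) ⊆ N.E → A.card = s →
      (N.Dep A ↔ rk M (A.image ψ ∪ T) < rk M univ)) : HM M N := by
  have R := rk_isRk M
  have crd : ∀ J : Finset β, (J : Set β) ⊆ N.E → (J.image ψ ∪ T).card = J.card + T.card := by
    intro J hJ
    rw [Finset.card_union_of_disjoint, Finset.card_image_of_injOn (inj.mono hJ)]
    refine Finset.disjoint_left.2 (fun x hx => ?_)
    obtain ⟨a, ha, rfl⟩ := Finset.mem_image.1 hx
    exact dis a (hJ ha)
  have base : ∀ B, N.IsBase B → M.Indep (ψ '' B ∪ T) := by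
    intro B hB
    lift B to Finset β using hE.subset hB.subset_ground
    have c1 : B.card = s := by
      have := hB.encard_eq_eRank
      rw [hs, Set.encard_coe_eq_coe_finsetCard] at this
      exact_mod_cast this
    have c2 := (key B hB.subset_ground c1).not.1 hB.indep.not_dep
    have c3 := crd B hB.subset_ground
    have c4 := R.le_card (B.image ψ ∪ T)
    rw [← Finset.coe_image, ← Finset.coe_union, indep_iff_rk]
    omega
  have hTi : M.Indep T := by
    obtain ⟨B, hB⟩ := N.exists_isBase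
    exact (base B hB).subset Set.subset_union_right
  refine ⟨ψ, inj, T, (ψ '' N.E)ᶜ, Matroid.ext_indep ?_ ?_⟩
  · ext x
    simp only [Matroid.map_ground, Matroid.delete_ground, Matroid.contract_ground, hM,
      Set.mem_sdiff, Set.mem_univ, true_and, Set.mem_compl_iff, not_not, Finset.mem_coe]
    refine ⟨fun t => ⟨?_, t⟩, fun t => t.2⟩
    obtain ⟨a, ha, rfl⟩ := t
    exact dis a ha
  · intro I hI
    obtain ⟨J, hJ, rfl⟩ := Set.subset_image_iff.1 hI
    rw [Matroid.map_image_indep_iff hJ, Matroid.delete_indep_iff, hTi.contract_indep_iff]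
    constructor
    · intro t
      obtain ⟨B, b1, b2⟩ := t.exists_isBase_superset
      refine ⟨⟨?_, (base B b1).subset (Set.union_subset_union_left _ (Set.image_mono b2))⟩,
        Set.disjoint_compl_right_iff_subset.2 (Set.image_mono hJ)⟩
      refine Set.disjoint_left.2 ?_
      rintro _ ⟨a, ha, rfl⟩
      exact dis a (hJ ha)
    · rintro ⟨⟨-, t⟩, -⟩
      lift J to Finset β using hE.subset hJ
      rw [← Finset.coe_image, ← Finset.coe_union, indep_iff_rk, crd J hJ] at t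
      have c1 := R.le_top (J.image ψ ∪ T)
      by_cases c : J.card = s
      · rw [← Matroid.not_dep_iff hJ, key J hJ c]
        omega
      · refine paving_indep h hJ ?_
        rw [hs, Set.encard_coe_eq_coe_finsetCard]
        exact_mod_cast (by omega : J.card < s)

end Pool.Agent.MP_c3fbfc_co.V

end MrgPart2

-- ======== part 3: formerly Pool.Agent.MP_c3fbfc_co.VMat
section MrgPart3

/-! Matroid facts about the family of non-bases. -/

namespace Pool.Agent.MP_c3fbfc_co.V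

open Finset
open scoped symmDiff

variable {α : Type*} [Fintype α] [DecidableEq α] {r : ℕ} {K : Finset (Finset α)}

theorem mem_MM : K ∈ MM α r ↔ K ⊆ Vr α r ∧ K ≠ Vr α r ∧ Exch r K := by
  simp [MM]

theorem sub_of_MM (h : K ∈ MM α r) : K ⊆ Vr α r := (mem_MM.1 h).1

theorem card_of_MM (h : K ∈ MM α r) {X : Finset α} (hX : X ∈ K) : X.card = r :=
  mem_Vr.1 (sub_of_MM h hX)

theorem exists_basis (h : K ∈ MM α r) : ∃ B : Finset α, B.card = r ∧ B ∉ K := by
  by_contra hc
  push Not at hc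
  exact (mem_MM.1 h).2.1 (Subset.antisymm (sub_of_MM h) fun X hX => hc X (mem_Vr.1 hX))

theorem exists_matroid (h : K ∈ MM α r) :
    ∃ M : Matroid α, M.E = Set.univ ∧ ∀ X : Finset α, M.IsBase X ↔ X.card = r ∧ X ∉ K := by
  obtain ⟨B, hB⟩ := exists_basis h
  refine ⟨Matroid.ofIsBaseOfFinite (E := Set.univ) (Set.toFinite _)
    (fun B => ∃ X : Finset α, (X.card = r ∧ X ∉ K) ∧ B = ↑X) ⟨_, B, hB, rfl⟩ ?_
    (fun _ _ => Set.subset_univ _), rfl, fun X => ⟨fun ⟨_, h1, h2⟩ => coe_injective h2 ▸ h1,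
      fun h1 => ⟨X, h1, rfl⟩⟩⟩
  rintro _ _ ⟨X, hX, rfl⟩ ⟨Y, hY, rfl⟩ a ⟨ha, ha'⟩
  rw [mem_coe] at ha ha'
  obtain ⟨b, b1, b2, b3⟩ := (mem_MM.1 h).2.2 X (mem_Vr.2 hX.1) hX.2 Y (mem_Vr.2 hY.1) hY.2 a ha ha'
  exact ⟨b, ⟨b1, b2⟩, insert b (X.erase a), ⟨(card_sw ha b2).trans hX.1, b3⟩, by simp⟩

open Classical in
theorem mem_MM_of_matroid (M : Matroid α) (hr : ∀ X : Finset α, M.IsBase X → X.card = r) :
    (Vr α r).filter (fun X : Finset α => ¬ M.IsBase X) ∈ MM α r := by
  refine mem_MM.2 ⟨filter_subset _ _, fun e => ?_, ?_⟩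
  · obtain ⟨B, hB⟩ := M.exists_isBase
    lift B to Finset α using Set.toFinite B
    have : B ∈ Vr α r := mem_Vr.2 (hr B hB)
    rw [← e] at this
    exact (mem_filter.1 this).2 hB
  · intro B hB hB1 B' hB' hB1' x hx hx'
    simp only [mem_filter, hB, hB', true_and, not_not] at hB1 hB1'
    obtain ⟨y, hy, h1⟩ := hB1.exchange hB1' (e := x) ⟨hx, hx'⟩
    refine ⟨y, hy.1, hy.2, fun h2 => (mem_filter.1 h2).2 ?_⟩
    simpa using h1

/-- `ρ` is the rank function of the matroid with non-bases `K` -/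
structure Rk (r : ℕ) (K : Finset (Finset α)) (ρ : Finset α → ℕ) : Prop where
  rk : IsRk ρ r
  iff : ∀ X : Finset α, X.card = r → (X ∈ K ↔ ρ X < r)

theorem exists_rk (h : K ∈ MM α r) : ∃ ρ, Rk r K ρ := by
  obtain ⟨M, -, hM⟩ := exists_matroid h
  obtain ⟨B, hB⟩ := exists_basis h
  have h1 : rk M univ = r := by
    have := mem_bases.1 ((isBase_iff_rk M B).1 ((hM B).2 hB))
    omega
  refine ⟨rk M, h1 ▸ rk_isRk M, fun X hX => ?_⟩
  have h2 := (hM X).symm.trans (isBase_iff_rk M X)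
  rw [mem_bases, h1] at h2
  have h3 := (rk_isRk M).le_top X
  rw [h1] at h3
  constructor
  · intro hK
    by_contra hc
    exact (h2.2 ⟨hX, by omega⟩).2 hK
  · intro hlt
    by_contra hc
    have := (h2.1 ⟨hX, hc⟩).2
    omega

namespace Rk

variable {ρ : Finset α → ℕ} (h : Rk r K ρ)
include h

theorem top_le {X : Finset α} (hX : ∀ y, ρ (insert y X) ≤ ρ X) : r ≤ ρ X := by
  have := h.rk.closure X univ fun y _ => hX y
  rwa [union_eq_right.2 (subset_univ X), h.rk.top] at this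

theorem star_iff {Y : Finset α} (hY : Y.card + 1 = r) : ln r Y ⊆ K ↔ ρ Y + 1 < r := by
  constructor
  · intro hK
    by_contra hc
    have h1 := h.rk.le_card Y
    have := h.top_le (X := Y) fun y => by
      by_cases hy : y ∈ Y
      · rw [insert_eq_of_mem hy]
      · have h2 : (tg Y y).card = r := by rw [card_tg_of_notMem hy, hY]
        have := (h.iff _ h2).1 (hK (mem_ln.2 ⟨h2, sd_tg_self _ _⟩))
        rw [tg_of_notMem hy] at this
        omega
    omega
  · intro hρ Z hZ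
    rw [ln_star hY] at hZ
    obtain ⟨y, hy, rfl⟩ := mem_image.1 hZ
    rw [mem_compl] at hy
    refine (h.iff _ (by rw [card_tg_of_notMem hy, hY])).2 ?_
    have := h.rk.insert_le y Y
    rw [tg_of_notMem hy]
    omega

theorem costar_iff {Y : Finset α} (hY : Y.card = r + 1) : ln r Y ⊆ K ↔ ρ Y < r := by
  constructor
  · intro hK
    by_contra hc
    have h1 := h.rk.le_top Y
    have := h.rk.coloop Y Y fun y hy => by
      have h3 := card_tg_of_mem hy
      have h2 : (tg Y y).card = r := by omega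
      have := (h.iff _ h2).1 (hK (mem_ln.2 ⟨h2, sd_tg_self _ _⟩))
      rw [tg_of_mem hy] at this
      omega
    omega
  · intro hρ Z hZ
    have hc := (mem_ln.1 hZ).1
    rw [ln_costar hY] at hZ
    obtain ⟨y, hy, rfl⟩ := mem_image.1 hZ
    refine (h.iff _ hc).2 (lt_of_le_of_lt (h.rk.mono ?_) hρ)
    rw [tg_of_mem hy]; exact erase_subset _ _

theorem kl_mem {X : Finset α} (hX : X.card = r) {a : α} (ha : a ∈ X) :
    KL r K (tg X a) ↔ ρ (X.erase a) + 1 < r := by
  rw [KL, h.star_iff (by rw [card_tg_of_mem ha, hX]), ← tg_of_mem ha]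
  exact and_iff_right (ctr_tg hX a)

theorem kl_notMem {X : Finset α} (hX : X.card = r) {a : α} (ha : a ∉ X) :
    KL r K (tg X a) ↔ ρ (insert a X) < r := by
  rw [KL, h.costar_iff (by rw [card_tg_of_notMem ha, hX]), ← tg_of_notMem ha]
  exact and_iff_right (ctr_tg hX a)

theorem exists_base_sup : ∀ (k : ℕ) (S : Finset α), S.card + k = r → ρ S = S.card →
    ∃ X, S ⊆ X ∧ X.card = r ∧ ρ X = r := by
  intro k
  induction k with
  | zero => exact fun S h1 h2 => ⟨S, Subset.refl _, by omega, by omega⟩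
  | succ k ih =>
    intro S h1 h2
    obtain ⟨y, hy⟩ : ∃ y, ρ S < ρ (insert y S) := by
      by_contra hc
      push Not at hc
      have := h.top_le hc
      omega
    have hyS : y ∉ S := fun hS => by rw [insert_eq_of_mem hS] at hy; omega
    have h3 := h.rk.insert_le y S
    have h4 := card_insert_of_notMem hyS
    obtain ⟨X, h5, h6⟩ := ih (insert y S) (by omega) (by omega)
    exact ⟨X, (subset_insert _ _).trans h5, h6⟩

theorem exists_base_sub : ∀ (k : ℕ) (F : Finset α), F.card = r + k → ρ F = r →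
    ∃ X, X ⊆ F ∧ X.card = r ∧ ρ X = r := by
  intro k
  induction k with
  | zero => exact fun S h1 h2 => ⟨S, Subset.refl _, h1, h2⟩
  | succ k ih =>
    intro F h1 h2
    obtain ⟨y, hy, hy'⟩ : ∃ y ∈ F, ρ F ≤ ρ (F.erase y) := by
      by_contra hc
      push Not at hc
      have := h.rk.coloop F F hc
      omega
    have h3 := h.rk.le_top (F.erase y)
    have h4 := card_erase_add_one hy
    obtain ⟨X, h5, h6⟩ := ih (F.erase y) (by omega) (by omega)
    exact ⟨X, h5.trans (erase_subset _ _), h6⟩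

theorem dep_iff {S : Finset α} : Dep r K S ↔ ρ S < S.card := by
  constructor
  · intro hD
    by_contra hc
    have h1 := h.rk.le_card S
    have h2 := h.rk.le_top S
    obtain ⟨X, h3, h4, h5⟩ := h.exists_base_sup (r - S.card) S (by omega) (by omega)
    have := (h.iff X h4).1 (hD X (mem_Vr.2 h4) h3)
    omega
  · intro hρ X hX hS
    refine (h.iff X (mem_Vr.1 hX)).2 ?_
    have h1 := h.rk.le_add_card X S (X \ S) (by intro z; simp; tauto)
    have h2 := card_sdiff_add_card_eq_card hS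
    have := mem_Vr.1 hX
    omega

theorem cod_iff {S : Finset α} : Cod r K S ↔ ρ Sᶜ < r := by
  constructor
  · intro hD
    by_contra hc
    have h1 := h.rk.le_card Sᶜ
    have h2 := h.rk.le_top Sᶜ
    obtain ⟨X, h3, h4, h5⟩ := h.exists_base_sub (Sᶜ.card - r) Sᶜ (by omega) (by omega)
    have := (h.iff X h4).1 (hD X (mem_Vr.2 h4)
      (disjoint_left.2 fun z hz hz' => (mem_compl.1 (h3 hz')) hz))
    omega
  · intro hρ X hX hS
    refine (h.iff X (mem_Vr.1 hX)).2 (lt_of_le_of_lt (h.rk.mono fun z hz => ?_) hρ)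
    exact mem_compl.2 fun hz' => disjoint_left.1 hS hz' hz

theorem sh_subset {p : Finset α × ℕ} (hp : ρ p.1 ≤ p.2) : sh r p ⊆ K := fun _ hX =>
  (h.iff _ (mem_sh.1 hX).1).2 (h.rk.cover_valid (mem_sh.1 hX).1 hp (mem_sh.1 hX).2)

theorem heavy_iff {X : Finset α} (hX : X.card = r) (hr : 0 < r) : Heavy r K X ↔ ρ X + 2 ≤ r := by
  constructor
  · intro hH
    by_contra hc
    have h1 : ∀ y, y ∉ X → ρ (insert y X) < r := fun y hy => (h.kl_notMem hX hy).1 (hH y)
    obtain ⟨a, ha⟩ := card_pos.1 (show 0 < X.card by omega)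
    have h2 := (h.kl_mem hX ha).1 (hH a)
    have h3 := h.rk.insert_le a (X.erase a)
    rw [insert_erase ha] at h3
    have := h.top_le (X := X) fun y => by
      by_cases hy : y ∈ X
      · rw [insert_eq_of_mem hy]
      · have := h1 y hy; omega
    omega
  · intro hρ a
    by_cases ha : a ∈ X
    · have := h.rk.mono (erase_subset a X)
      exact (h.kl_mem hX ha).2 (by omega)
    · have := h.rk.insert_le a X
      exact (h.kl_notMem hX ha).2 (by omega)

end Rk

omit [DecidableEq α] in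
theorem mem_OO {p : Finset α × ℕ} : p ∈ OO α r ↔ p.2 ≤ r := by
  simp [OO]

omit [DecidableEq α] in
theorem card_OO : (OO α r).card = 2 ^ Fintype.card α * (r + 1) := by
  simp [OO]

/-- F1: adjacent non-bases lie on a common line of `K` -/
theorem share (h : K ∈ MM α r) {A B : Finset α} (hA : A ∈ K) (hB : B ∈ K) (hAB : sd A B = 2) :
    ∃ Y, KL r K Y ∧ A ∈ ln r Y ∧ B ∈ ln r Y := by
  obtain ⟨ρ, hρ⟩ := exists_rk h
  have cA := card_of_MM h hA
  have cB := card_of_MM h hB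
  obtain ⟨a, ha, b, hb, e⟩ := (sd_eq_two (cA.trans cB.symm)).1 hAB
  have hab : a ≠ b := fun e => hb (e ▸ ha)
  have h5 : A ∆ B = {a, b} := by rw [e, symmDiff_tg_tg hab]
  have h1 := (hρ.iff A cA).1 hA
  have h2 := (hρ.iff B cB).1 hB
  have h3 := hρ.rk.sub' A B (insert b A) (A.erase a)
    (by rw [e, tg_tg_eq ha hb]; intro z; simp; tauto) (erase_subset _ _)
    (by rw [e, tg_tg_eq ha hb]; exact subset_insert _ _)
  by_cases hc : ρ (insert b A) < r
  · exact ⟨tg A b, (hρ.kl_notMem cA hb).2 hc, self_mem_ln cA b, mem_ln_tg cB hAB (by simp [h5])⟩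
  · exact ⟨tg A a, (hρ.kl_mem cA ha).2 (by omega), self_mem_ln cA a,
      mem_ln_tg cB hAB (by simp [h5])⟩

omit [Fintype α] in
theorem Conn.symm {A B : Finset α} (h : Conn K A B) : Conn K B A := by
  induction h with
  | refl => exact Relation.ReflTransGen.refl
  | tail _ h2 ih =>
    exact Relation.ReflTransGen.head ⟨h2.2.1, h2.1, by rw [sd_comm]; exact h2.2.2⟩ ih

omit [Fintype α] in
theorem Conn.mem {A B : Finset α} (h : Conn K A B) (hA : A ∈ K) : B ∈ K := by
  induction h with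
  | refl => exact hA
  | tail _ h2 _ => exact h2.2.1

omit [Fintype α] in
theorem Clo.conn {R : Finset (Finset α)} (hR : Clo K R) {A B : Finset α} (h : Conn K A B)
    (hA : A ∈ R) : B ∈ R := by
  induction h with
  | refl => exact hA
  | tail _ h2 ih => exact hR.2 _ ih _ h2.2.1 h2.2.2

theorem KL.conn {Y A B : Finset α} (h : KL r K Y) (hA : A ∈ ln r Y) (hB : B ∈ ln r Y) :
    Conn K A B := by
  rcases ln_clique hA hB with rfl | h2
  · exact Relation.ReflTransGen.refl
  · exact Relation.ReflTransGen.single ⟨h.2 hA, h.2 hB, h2⟩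

theorem Clo.ln_subset {R : Finset (Finset α)} (hR : Clo K R) {Y A : Finset α} (h : KL r K Y)
    (hA : A ∈ ln r Y) (hAR : A ∈ R) : ln r Y ⊆ R := fun _ hB => hR.conn (h.conn hA hB) hAR

/-- shadows are connected -/
theorem conn_sh {p : Finset α × ℕ} (hp : sh r p ⊆ K) {A B : Finset α} (hA : A ∈ sh r p)
    (hB : B ∈ sh r p) : Conn K A B := by
  induction hk : (A \ B).card generalizing A with
  | zero =>
    have := sd_of_card_eq ((mem_sh.1 hA).1.trans (mem_sh.1 hB).1.symm)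
    rw [sd_eq_zero.1 (by omega : sd A B = 0)]
    exact Relation.ReflTransGen.refl
  | succ k ih =>
    obtain ⟨cA, hA2⟩ := mem_sh.1 hA
    obtain ⟨cB, hB2⟩ := mem_sh.1 hB
    have h1 := card_add_sdiff A B
    obtain ⟨x, hx⟩ := card_pos.1 (show 0 < (A \ B).card by omega)
    rw [mem_sdiff] at hx
    have key : ∃ y, y ∈ B ∧ y ∉ A ∧ p.2 < (insert y (A.erase x) ∩ p.1).card := by
      by_cases hc : ∃ y, y ∈ B ∧ y ∉ A ∧ y ∈ p.1
      · obtain ⟨y, y1, y2, y3⟩ := hc
        refine ⟨y, y1, y2, ?_⟩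
        rw [insert_inter_of_mem y3, card_insert_of_notMem (by simp [y2]), erase_inter]
        have := pred_card_le_card_erase (s := A ∩ p.1) (a := x)
        omega
      · obtain ⟨y, hy⟩ := card_pos.1 (show 0 < (B \ A).card by omega)
        rw [mem_sdiff] at hy
        refine ⟨y, hy.1, hy.2, lt_of_lt_of_le hB2 (card_le_card fun z hz => ?_)⟩
        rw [mem_inter] at hz ⊢
        refine ⟨mem_insert_of_mem (mem_erase.2 ⟨fun e => hx.2 (e ▸ hz.1), ?_⟩), hz.2⟩
        by_contra hzA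
        exact hc ⟨z, hz.1, hzA, hz.2⟩
    obtain ⟨y, y1, y2, y3⟩ := key
    have hA' : insert y (A.erase x) ∈ sh r p := mem_sh.2 ⟨(card_sw hx.1 y2).trans cA, y3⟩
    refine Relation.ReflTransGen.head ⟨hp hA, hp hA', Adj.sd ⟨x, hx.1, y, y2, rfl⟩⟩ (ih hA' ?_)
    have : insert y (A.erase x) \ B = (A \ B).erase x := by
      ext z; simp only [mem_sdiff, mem_insert, mem_erase]
      constructor
      · rintro ⟨rfl | h, h'⟩
        · exact absurd y1 h'
        · exact ⟨h.1, h.2, h'⟩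
      · rintro ⟨h1, h2, h3⟩; exact ⟨Or.inr ⟨h1, h2⟩, h3⟩
    rw [this, card_erase_of_mem (mem_sdiff.2 hx), hk]
    rfl

/-- S1: a union of components can be removed -/
theorem relax (h : K ∈ MM α r) {R : Finset (Finset α)} (hR : Clo K R) : K \ R ∈ MM α r := by
  obtain ⟨ρ, hρ⟩ := exists_rk h
  obtain ⟨B0, hB0⟩ := exists_basis h
  refine mem_MM.2 ⟨sdiff_subset.trans (sub_of_MM h), fun e => ?_, ?_⟩
  · have : B0 ∈ K \ R := e ▸ mem_Vr.2 hB0.1
    exact hB0.2 (mem_sdiff.1 this).1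
  intro B hB hB1 B' hB' hB1' x hx hx'
  by_contra hc
  push Not at hc
  rw [mem_Vr] at hB hB'
  have h1 := card_add_sdiff B B'
  have h2 : 0 < (B \ B').card := card_pos.2 ⟨x, mem_sdiff.2 ⟨hx, hx'⟩⟩
  obtain ⟨y0, hy0⟩ := card_pos.1 (show 0 < (B' \ B).card by omega)
  rw [mem_sdiff] at hy0
  have hc0 := mem_sdiff.1 (hc y0 hy0.1 hy0.2)
  have hBK : B ∉ K := fun hK => by
    have hBR : B ∈ R := by
      by_contra t
      exact hB1 (mem_sdiff.2 ⟨hK, t⟩)
    exact hc0.2 (hR.2 B hBR _ hc0.1 (Adj.sd ⟨x, hx, y0, hy0.2, rfl⟩))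
  have h3 : ρ B = r := by
    have := (hρ.iff B hB).not.1 hBK
    have := hρ.rk.le_top B
    omega
  have h4 : ρ (B.erase x) + 1 = r := by
    rw [hρ.rk.indep_subset (by omega) (erase_subset x B), card_erase_add_one hx, hB]
  have h5 : ρ (B.erase x ∪ B') ≤ ρ (B.erase x) := hρ.rk.closure _ _ fun y hy => by
    by_cases hyB : y ∈ B
    · have hne : y ≠ x := fun e => hx' (e ▸ hy)
      rw [insert_eq_of_mem (mem_erase.2 ⟨hne, hyB⟩)]
    · have := (hρ.iff _ ((card_sw hx hyB).trans hB)).1 (mem_sdiff.1 (hc y hy hyB)).1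
      omega
  have h6 : sh r (B.erase x ∪ B', r - 1) ⊆ K := hρ.sh_subset (by simp only; omega)
  have h7 : B' ∈ sh r (B.erase x ∪ B', r - 1) :=
    mem_sh.2 ⟨hB', by simp only; rw [inter_eq_left.2 subset_union_right]; omega⟩
  have h8 : insert y0 (B.erase x) ∈ sh r (B.erase x ∪ B', r - 1) := by
    have := (card_sw hx hy0.2).trans hB
    refine mem_sh.2 ⟨this, ?_⟩
    simp only
    rw [inter_eq_left.2 (insert_subset (mem_union_right _ hy0.1) subset_union_left)]
    omega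
  have h9 : B' ∈ R := by
    by_contra t
    exact hB1' (mem_sdiff.2 ⟨h6 h7, t⟩)
  exact hc0.2 (hR.conn (conn_sh h6 h7 h8) h9)

/-- S2: a free vertex can be added -/
theorem add_free (h : K ∈ MM α r) (h0 : 0 < r) (h1 : r < Fintype.card α) {X : Finset α}
    (hX : X ∈ Fr r K) : insert X K ∈ MM α r := by
  obtain ⟨cX, hF⟩ := mem_Fr.1 hX
  have nbr : ∀ Z, sd X Z = 2 → Z ∉ insert X K := fun Z hZ hm => by
    rcases mem_insert.1 hm with rfl | hm
    · simp at hZ
    · have := hF Z hm; omega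
  refine mem_MM.2 ⟨insert_subset (mem_Vr.2 cX) (sub_of_MM h), fun e => ?_, ?_⟩
  · obtain ⟨a, ha⟩ := card_pos.1 (show 0 < X.card by omega)
    obtain ⟨b, hb⟩ := card_pos.1 (show 0 < Xᶜ.card by rw [card_compl]; omega)
    rw [mem_compl] at hb
    exact nbr _ (Adj.sd ⟨a, ha, b, hb, rfl⟩) (e ▸ mem_Vr.2 ((card_sw ha hb).trans cX))
  intro B hB hB1 B' hB' hB1' x hx hx'
  obtain ⟨y, y1, y2, y3⟩ := (mem_MM.1 h).2.2 B hB (fun t => hB1 (mem_insert_of_mem t)) B' hB'
    (fun t => hB1' (mem_insert_of_mem t)) x hx hx'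
  by_cases hXy : insert y (B.erase x) = X
  · by_cases t : B' ⊆ X
    · exact absurd (mem_insert.2 (Or.inl (eq_of_subset_of_card_le t (by
        rw [cX, mem_Vr.1 hB'])))) hB1'
    · obtain ⟨y', h5, h6⟩ := not_subset.1 t
      have h7 : y' ∉ B := fun t => h6 (hXy ▸ mem_insert_of_mem (mem_erase.2
        ⟨fun e => hx' (e ▸ h5), t⟩))
      refine ⟨y', h5, h7, nbr _ (Adj.sd ⟨y, hXy ▸ mem_insert_self _ _, y', h6, ?_⟩)⟩
      rw [← hXy, erase_insert (fun t => y2 (mem_of_mem_erase t))]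
  · exact ⟨y, y1, y2, fun t => (mem_insert.1 t).elim hXy y3⟩

/-- S2: a stable set of free vertices can be added -/
theorem add_stb (h : K ∈ MM α r) (h0 : 0 < r) (h1 : r < Fintype.card α) {I : Finset (Finset α)}
    (hI : I ⊆ Fr r K) (hS : Stb I) : K ∪ I ∈ MM α r := by
  induction I using Finset.induction_on with
  | empty => simpa using h
  | insert X I hX ih =>
    rw [union_insert]
    refine add_free (ih ((subset_insert _ _).trans hI) (hS.mono (subset_insert _ _))) h0 h1 ?_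
    obtain ⟨cX, hF⟩ := mem_Fr.1 (hI (mem_insert_self _ _))
    refine mem_Fr.2 ⟨cX, fun A hA => ?_⟩
    rcases mem_union.1 hA with hA | hA
    · exact hF A hA
    · have cA := (mem_Fr.1 (hI (mem_insert_of_mem hA))).1
      have h2 := hS X (mem_insert_self _ _) A (mem_insert_of_mem hA)
      rcases sd_cases (cX.trans cA.symm) with e | e | e
      · exact absurd (e ▸ hA) hX
      · exact absurd e h2
      · omega

/-- the points of a removed union of components are free -/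
theorem Clo.subset_Fr (h : K ∈ MM α r) {R : Finset (Finset α)} (hR : Clo K R) :
    R ⊆ Fr r (K \ R) := fun A hA => by
  have cA := card_of_MM h (hR.1 hA)
  refine mem_Fr.2 ⟨cA, fun B hB => ?_⟩
  rw [mem_sdiff] at hB
  rcases sd_cases (cA.trans (card_of_MM h hB.1).symm) with e | e | e
  · exact absurd (e ▸ hA) hB.2
  · exact absurd (hR.2 A hA B hB.1 e) hB.2
  · omega

theorem clo_of_UU {R : Finset (Finset α)} (hR : R ⊆ UU K) : Clo K R :=
  ⟨hR.trans (UU_subset K), fun _ hA B hB e => absurd e ((mem_UU.1 (hR hA)).2 B hB)⟩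

theorem SL.clo (h : K ∈ MM α r) {Y : Finset α} (hY : SL r K Y) : Clo K (ln r Y) :=
  ⟨hY.1.2, fun _ hA B hB e => mem_ln.2 ⟨card_of_MM h hB,
    hY.2 B hB (sd_le_three hA (by rw [sd_comm]; exact e.le))⟩⟩

omit [Fintype α] in
theorem Clo.union {R R' : Finset (Finset α)} (h : Clo K R) (h' : Clo K R') : Clo K (R ∪ R') :=
  ⟨union_subset h.1 h'.1, fun A hA B hB e => (mem_union.1 hA).elim
    (fun t => mem_union_left _ (h.2 A t B hB e)) (fun t => mem_union_right _ (h'.2 A t B hB e))⟩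

theorem mem_WB {X : Finset α} : X ∈ WB r K ↔ X ∈ K ∧ ∃ Y, KL r K Y ∧
    12 * (priv r K Y).card < Fintype.card α ∧ ∃ Z ∈ ln r Y, Conn K X Z := by
  simp only [WB, mem_filter]

theorem mem_priv {X Y : Finset α} : X ∈ priv r K Y ↔
    X ∈ ln r Y ∧ ∀ Y', KL r K Y' → X ∈ ln r Y' → Y' = Y := by
  simp only [priv, mem_filter]

theorem mem_SLs {Y : Finset α} : Y ∈ SLs r K ↔ SL r K Y := by simp [SLs]

theorem mem_RA {Y : Finset α} :
    Y ∈ RA r K ↔ KL r K Y ∧ ¬ SL r K Y ∧ Disjoint (ln r Y) (WB r K) := by simp [RA]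

theorem mem_Short {s : ℕ} {X : Finset α} : X ∈ Short r K s ↔ X.card = r ∧
    ∃ S : Finset α, S.card ≤ s ∧ ((Dep r K S ∧ S ⊆ X) ∨ (Cod r K S ∧ Disjoint S X)) := by
  simp only [Short, mem_filter, mem_Vr]

theorem Short_mono {s t : ℕ} (h : s ≤ t) : Short r K s ⊆ Short r K t := fun _ hX => by
  obtain ⟨h1, S, h2, h3⟩ := mem_Short.1 hX
  exact mem_Short.2 ⟨h1, S, h2.trans h, h3⟩

theorem clo_WB : Clo K (WB r K) := by
  refine ⟨fun _ hX => (mem_WB.1 hX).1, fun A hA B hB e => ?_⟩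
  obtain ⟨h1, Y, h2, h3, Z, h4, h5⟩ := mem_WB.1 hA
  exact mem_WB.2 ⟨hB, Y, h2, h3, Z, h4,
    Relation.ReflTransGen.head ⟨hB, h1, by rw [sd_comm]; exact e⟩ h5⟩

/-- a non-basis is isolated or lies on a line of `K` -/
theorem mem_UU_or (h : K ∈ MM α r) {A : Finset α} (hA : A ∈ K) :
    A ∈ UU K ∨ ∃ Y, KL r K Y ∧ A ∈ ln r Y := by
  by_cases hc : ∀ B ∈ K, sd A B ≠ 2
  · exact Or.inl (mem_UU.2 ⟨hA, hc⟩)
  · push Not at hc
    obtain ⟨B, hB, e⟩ := hc
    obtain ⟨Y, h1, h2, -⟩ := share h hA hB e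
    exact Or.inr ⟨Y, h1, h2⟩

/-- a vertex adjacent to a point of a line and not on it is adjacent to a second point -/
theorem exists_second {X Y A : Finset α} (hX : X.card = r) (hXY : X ∉ ln r Y) (hA : A ∈ ln r Y)
    (e : sd X A = 2) : ∃ B ∈ ln r Y, B ≠ A ∧ sd X B = 2 := by
  have hc := ctr_of_mem_ln hA
  have h1 := sd_odd hc hX
  have h2 := sd_le_three hA e.le
  have h4 : sd Y X ≠ 1 := fun e => hXY (mem_ln.2 ⟨hX, e⟩)
  have h3 := card_add_sdiff Y X
  have h5 := sd_eq Y X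
  have key : ∀ D : Finset α, D.card = 2 → (∀ a ∈ D, a ∈ X ∆ Y ∧ (tg Y a).card = r) →
      ∃ B ∈ ln r Y, B ≠ A ∧ sd X B = 2 := by
    intro D hD hD'
    obtain ⟨a, b, hab, rfl⟩ := card_eq_two.1 hD
    have t : ∀ c ∈ ({a, b} : Finset α), tg Y c ∈ ln r Y ∧ sd X (tg Y c) = 2 := fun c hc => by
      have := sd_tg_of_mem (hD' c hc).1
      rw [sd_comm X Y] at this
      exact ⟨mem_ln.2 ⟨(hD' c hc).2, sd_tg_self _ _⟩, by omega⟩
    by_cases ha : tg Y a = A
    · exact ⟨tg Y b, (t b (by simp)).1, fun e => hab (tg_inj (ha.trans e.symm)), (t b (by simp)).2⟩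
    · exact ⟨tg Y a, (t a (by simp)).1, ha, (t a (by simp)).2⟩
  rcases hc with hY | hY
  · refine key (X \ Y) (by omega) fun a ha => ?_
    rw [mem_sdiff] at ha
    exact ⟨mem_symmDiff.2 (Or.inl ha), by rw [card_tg_of_notMem ha.2, hY]⟩
  · refine key (Y \ X) (by omega) fun a ha => ?_
    rw [mem_sdiff] at ha
    have := card_tg_of_mem ha.1
    exact ⟨mem_symmDiff.2 (Or.inr ha), by omega⟩

/-- the only neighbour in `K` of a vertex of `PP` is isolated -/
theorem cn_subset_UU (h : K ∈ MM α r) {Z : Finset α} (hZ : Z ∈ PP r K) : cn K Z ⊆ UU K := by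
  obtain ⟨cZ, h1, h2⟩ := mem_PP.1 hZ
  intro A hA
  obtain ⟨hAK, hd⟩ := mem_cn.1 hA
  refine (mem_UU_or h hAK).resolve_right ?_
  rintro ⟨Y, hY, hAY⟩
  have e : sd Z A = 2 := ((sd_le_two (cZ.trans (card_of_MM h hAK).symm)).1 hd).resolve_left
    (fun e => h1 (e ▸ hAK))
  obtain ⟨B, b1, b2, b3⟩ := exists_second cZ (fun t => h1 (hY.2 t)) hAY e
  exact b2 (card_le_one.1 h2.le B (mem_cn.2 ⟨hY.2 b1, b3.le⟩) A hA)

/-- F23 -/
theorem mem_Short_of_not_KL (h : K ∈ MM α r) {Y A : Finset α} (hY : ¬ KL r K Y)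
    (hA : A ∈ ln r Y) (hAK : A ∈ K) : A ∈ Short r K (ln r Y \ K).card := by
  obtain ⟨ρ, hρ⟩ := exists_rk h
  have hc := ctr_of_mem_ln hA
  have hn : ¬ ln r Y ⊆ K := fun t => hY ⟨hc, t⟩
  obtain ⟨cA, hA2⟩ := mem_ln.1 hA
  obtain ⟨a, rfl⟩ := sd_eq_one.1 hA2
  set S := univ.filter (fun y => tg Y y ∈ ln r Y \ K) with hS
  have mS : ∀ y, y ∈ S ↔ (tg Y y).card = r ∧ tg Y y ∉ K := fun y => by simp [hS, mem_ln]
  have cS : S.card ≤ (ln r Y \ K).card :=
    card_le_card_of_injOn (tg Y) (fun y hy => (mem_filter.1 hy).2) fun _ _ _ _ => tg_inj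
  have haS : a ∉ S := fun t => ((mS a).1 t).2 hAK
  refine mem_Short.2 ⟨cA, S, cS, ?_⟩
  rcases hc with hc | hc
  · right
    have h1 := (hρ.star_iff hc).not.1 hn
    have h2 := hρ.rk.le_card Y
    have hSY : ∀ y ∈ S, y ∉ Y := fun y hy hy' => by
      have := card_tg_of_mem hy'
      have := ((mS y).1 hy).1
      omega
    refine ⟨hρ.cod_iff.2 ?_, disjoint_left.2 fun y hy hy' => ?_⟩
    · have h3 := hρ.rk.closure Y Sᶜ fun y hy => by
        by_cases hyY : y ∈ Y
        · rw [insert_eq_of_mem hyY]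
        · have h4 : (tg Y y).card = r := by rw [card_tg_of_notMem hyY, hc]
          have h5 : tg Y y ∈ K := by
            by_contra t
            exact mem_compl.1 hy ((mS y).2 ⟨h4, t⟩)
          have := (hρ.iff _ h4).1 h5
          rw [tg_of_notMem hyY] at this
          omega
      have := hρ.rk.mono (subset_union_right (s₁ := Y) (s₂ := Sᶜ))
      omega
    · rcases mem_tg.1 hy' with t | t
      · exact hSY y hy t.1
      · exact haS (t.1 ▸ hy)
  · left
    have h1 := (hρ.costar_iff hc).not.1 hn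
    have h2 := hρ.rk.le_top Y
    have hSY : S ⊆ Y := fun y hy => by
      by_contra hy'
      have := card_tg_of_notMem hy'
      have := ((mS y).1 hy).1
      omega
    refine ⟨hρ.dep_iff.2 ?_, fun y hy => mem_tg.2 (Or.inl ⟨hSY hy, fun e => haS (e ▸ hy)⟩)⟩
    have h3 := hρ.rk.coloop Y (Y \ S) fun y hy => by
      rw [mem_sdiff] at hy
      have h6 := card_tg_of_mem hy.1
      have h4 : (tg Y y).card = r := by omega
      have h5 : tg Y y ∈ K := by
        by_contra t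
        exact hy.2 ((mS y).2 ⟨h4, t⟩)
      have := (hρ.iff _ h4).1 h5
      rw [tg_of_mem hy.1] at this
      omega
    rw [Finset.sdiff_sdiff_eq_self hSY] at h3
    have := card_sdiff_add_card_eq_card hSY
    omega

/-- F6 -/
theorem Short_subset_WB (h : K ∈ MM α r) {s : ℕ} (h1 : s + 2 ≤ r)
    (h2 : s + 2 + r ≤ Fintype.card α) : Short r K s ⊆ WB r K := by
  obtain ⟨ρ, hρ⟩ := exists_rk h
  intro X hX
  obtain ⟨cX, S, cS, hS⟩ := mem_Short.1 hX
  have fin : ∀ Y, KL r K Y → X ∈ ln r Y → (∀ Z ∈ ln r Y, ∃ Y', KL r K Y' ∧ Z ∈ ln r Y' ∧ Y' ≠ Y) →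
      X ∈ WB r K := fun Y hY hXY hZ => by
    refine mem_WB.2 ⟨hY.2 hXY, Y, hY, ?_, X, hXY, Relation.ReflTransGen.refl⟩
    have : priv r K Y = ∅ := eq_empty_of_forall_notMem fun Z hZ' => by
      obtain ⟨Y', y1, y2, y3⟩ := hZ Z (mem_priv.1 hZ').1
      exact y3 ((mem_priv.1 hZ').2 Y' y1 y2)
    rw [this, card_empty]; omega
  rcases hS with ⟨hD, hSX⟩ | ⟨hD, hSX⟩
  · have kl : ∀ Z : Finset α, Z.card = r → ∀ z ∈ Z, S ⊆ Z.erase z → KL r K (tg Z z) := by
      intro Z cZ z hz hs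
      refine ⟨ctr_tg cZ z, fun W hW => hD W (ln_subset _ _ hW) ?_⟩
      have h3 := card_tg_of_mem hz
      rw [ln_star (by omega)] at hW
      obtain ⟨y, hy, rfl⟩ := mem_image.1 hW
      rw [tg_of_notMem (mem_compl.1 hy), tg_of_mem hz]
      exact hs.trans (subset_insert _ _)
    obtain ⟨x, hx, hx'⟩ := exists_mem_notMem_of_card_lt_card (show S.card < X.card by omega)
    have hs : S ⊆ X.erase x := subset_erase.2 ⟨hSX, hx'⟩
    refine fin _ (kl X cX x hx hs) (self_mem_ln cX x) fun Z hZ => ?_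
    have h3 := card_tg_of_mem hx
    have cZ := (mem_ln.1 hZ).1
    rw [ln_star (by omega)] at hZ
    obtain ⟨y, hy, rfl⟩ := mem_image.1 hZ
    rw [mem_compl] at hy
    obtain ⟨z, hz, hz'⟩ := exists_mem_notMem_of_card_lt_card (show S.card < (tg X x).card by omega)
    have hz2 : z ∈ tg (tg X x) y := by rw [tg_of_notMem hy]; exact mem_insert_of_mem hz
    refine ⟨_, kl _ cZ z hz2 (subset_erase.2 ⟨?_, hz'⟩), self_mem_ln cZ z, fun e => ?_⟩
    · rw [tg_of_notMem hy, tg_of_mem hx]; exact hs.trans (subset_insert _ _)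
    · have : y = z := tg_inj ((tg_tg _ _).trans e.symm)
      exact hy (this ▸ hz)
  · have kl : ∀ Z : Finset α, Z.card = r → ∀ z, z ∉ Z → Disjoint S (insert z Z) →
        KL r K (tg Z z) := by
      intro Z cZ z hz hs
      refine ⟨ctr_tg cZ z, fun W hW => hD W (ln_subset _ _ hW) ?_⟩
      have h3 := card_tg_of_notMem hz
      rw [ln_costar (by omega)] at hW
      obtain ⟨y, hy, rfl⟩ := mem_image.1 hW
      rw [tg_of_mem hy, tg_of_notMem hz]
      exact hs.mono_right (erase_subset _ _)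
    obtain ⟨x, hx, hx'⟩ := exists_mem_notMem_of_card_lt_card
      (show S.card < Xᶜ.card by rw [card_compl]; omega)
    rw [mem_compl] at hx
    have hs : Disjoint S (insert x X) := disjoint_insert_right.2 ⟨hx', hSX⟩
    refine fin _ (kl X cX x hx hs) (self_mem_ln cX x) fun Z hZ => ?_
    have h3 := card_tg_of_notMem hx
    have cZ := (mem_ln.1 hZ).1
    rw [ln_costar (by omega)] at hZ
    obtain ⟨y, hy, rfl⟩ := mem_image.1 hZ
    obtain ⟨z, hz, hz'⟩ := exists_mem_notMem_of_card_lt_card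
      (show S.card < (tg X x)ᶜ.card by rw [card_compl]; omega)
    rw [mem_compl] at hz
    have hz2 : z ∉ tg (tg X x) y := by rw [tg_of_mem hy]; exact fun t => hz (mem_of_mem_erase t)
    refine ⟨_, kl _ cZ z hz2 (disjoint_insert_right.2 ⟨hz', ?_⟩), self_mem_ln cZ z, fun e => ?_⟩
    · rw [tg_of_mem hy, tg_of_notMem hx]; exact hs.mono_right (erase_subset _ _)
    · have : y = z := tg_inj ((tg_tg _ _).trans e.symm)
      exact hz (this ▸ hy)

/-- F4 -/
theorem box_subset_sh (h : K ∈ MM α r) {X D : Finset α} (hX : X ∈ K) (hH : ¬ Heavy r K X)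
    (hD : D.card = 3) (hside : D ⊆ X ∨ Disjoint D X) (hKL : ∀ a ∈ D, KL r K (tg X a)) :
    ∃ p ∈ OO α r, sh r p ⊆ K ∧ ∀ Z : Finset α, Z.card = r → sd (X ∆ D) Z = 3 → Z ∈ sh r p := by
  obtain ⟨ρ, hρ⟩ := exists_rk h
  have cX := card_of_MM h hX
  have h1 := (hρ.iff X cX).1 hX
  have h2 := (hρ.heavy_iff cX (by omega)).not.1 hH
  rcases hside with hs | hs
  · have e : X ∆ D = X \ D := symmDiff_of_ge hs
    have h3 := hρ.rk.coloop X D fun a ha => by
      have := (hρ.kl_mem cX (hs ha)).1 (hKL a ha)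
      omega
    have h4 := card_sdiff_add_card_eq_card hs
    refine ⟨(X \ D, ρ (X \ D)), mem_OO.2 (hρ.rk.le_top _), hρ.sh_subset le_rfl, fun Z cZ hZ => ?_⟩
    rw [e, sd_eq] at hZ
    have h5 := card_add_sdiff (X \ D) Z
    have h6 := card_sdiff_add_card_inter (X \ D) Z
    refine mem_sh.2 ⟨cZ, ?_⟩
    simp only
    rw [inter_comm]
    omega
  · have e : X ∆ D = X ∪ D := by rw [symmDiff_comm, hs.symmDiff_eq_sup, sup_eq_union, union_comm]
    have h3 := hρ.rk.closure X D fun a ha => by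
      have := (hρ.kl_notMem cX (disjoint_left.1 hs ha)).1 (hKL a ha)
      omega
    have h4 := card_union_of_disjoint hs.symm
    refine ⟨(X ∪ D, r - 1), mem_OO.2 (Nat.sub_le _ _), hρ.sh_subset (by simp only; omega),
      fun Z cZ hZ => ?_⟩
    rw [e, sd_eq] at hZ
    have h5 := card_add_sdiff (X ∪ D) Z
    have h6 := card_sdiff_add_card_inter Z (X ∪ D)
    refine mem_sh.2 ⟨cZ, ?_⟩
    simp only
    omega

/-- F5 -/
theorem heavy_subset_sh (h : K ∈ MM α r) {Y : Finset α} (hY : KL r K Y) :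
    ∃ p ∈ OO α r, sh r p ⊆ K ∧ ∀ X ∈ ln r Y, Heavy r K X →
      ∀ Z : Finset α, Z.card = r → sd X Z ≤ 2 → Z ∈ sh r p := by
  obtain ⟨ρ, hρ⟩ := exists_rk h
  have near : ∀ X Z F : Finset α, X.card = r → Z.card = r → sd X Z ≤ 2 → F ⊆ X →
      F.card ≤ (Z ∩ F).card + 1 := fun X Z F cX cZ hd hF => by
    have h1 := sd_of_card_eq (cX.trans cZ.symm)
    have h2 := card_le_card (sdiff_subset_sdiff hF (Subset.refl Z))
    have h3 := card_sdiff_add_card_inter F Z
    rw [inter_comm] at h3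
    omega
  have hv : ∀ X ∈ ln r Y, Heavy r K X → ρ X + 2 ≤ r := fun X hX hH => by
    have cX := (mem_ln.1 hX).1
    have := (hρ.iff X cX).1 (hY.2 hX)
    exact (hρ.heavy_iff cX (by omega)).1 hH
  rcases hY.1 with hc | hc
  · have h1 := (hρ.star_iff hc).1 hY.2
    have pt : ∀ X ∈ ln r Y, ∃ a, X = insert a Y := fun X hX => by
      rw [ln_star hc] at hX
      obtain ⟨a, ha, rfl⟩ := mem_image.1 hX
      exact ⟨a, tg_of_notMem (mem_compl.1 ha)⟩
    by_cases h2 : ρ Y + 3 ≤ r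
    · refine ⟨(Y, ρ Y), mem_OO.2 (hρ.rk.le_top _), hρ.sh_subset le_rfl, fun X hX _ Z cZ hd => ?_⟩
      obtain ⟨a, e⟩ := pt X hX
      have := near X Z Y (mem_ln.1 hX).1 cZ hd (e ▸ subset_insert _ _)
      exact mem_sh.2 ⟨cZ, by simp only; omega⟩
    · set F := Y ∪ univ.filter (fun a => ρ (insert a Y) ≤ ρ Y) with hF
      have h3 : ρ F ≤ ρ Y := hρ.rk.closure _ _ fun a ha => (mem_filter.1 ha).2
      refine ⟨(F, ρ Y), mem_OO.2 (hρ.rk.le_top _), hρ.sh_subset h3, fun X hX hH Z cZ hd => ?_⟩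
      obtain ⟨a, e⟩ := pt X hX
      have h4 := hv X hX hH
      have cX := (mem_ln.1 hX).1
      have h5 := near X Z X cX cZ hd (Subset.refl _)
      have h6 : X ⊆ F := by
        rw [e] at h4 ⊢
        exact insert_subset (mem_union_right _ (mem_filter.2 ⟨mem_univ _, by omega⟩))
          subset_union_left
      have h7 := card_le_card (inter_subset_inter (Subset.refl Z) h6)
      exact mem_sh.2 ⟨cZ, by simp only; omega⟩
  · have h1 := (hρ.costar_iff hc).1 hY.2
    have pt : ∀ X ∈ ln r Y, ∃ a ∈ Y, X = Y.erase a := fun X hX => by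
      rw [ln_costar hc] at hX
      obtain ⟨a, ha, rfl⟩ := mem_image.1 hX
      exact ⟨a, ha, tg_of_mem ha⟩
    by_cases h2 : ρ Y + 2 ≤ r
    · refine ⟨(Y, ρ Y), mem_OO.2 (hρ.rk.le_top _), hρ.sh_subset le_rfl, fun X hX _ Z cZ hd => ?_⟩
      obtain ⟨a, -, e⟩ := pt X hX
      have cX := (mem_ln.1 hX).1
      have h5 := near X Z X cX cZ hd (Subset.refl _)
      have h7 := card_le_card (inter_subset_inter (Subset.refl Z) (e ▸ erase_subset a Y : X ⊆ Y))
      exact mem_sh.2 ⟨cZ, by simp only; omega⟩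
    · set C := Y.filter (fun a => ρ (Y.erase a) < ρ Y) with hC
      have h3 := hρ.rk.coloop Y C fun a ha => (mem_filter.1 ha).2
      have h8 := card_sdiff_add_card_eq_card (filter_subset (fun a => ρ (Y.erase a) < ρ Y) Y)
      rw [← hC] at h8
      refine ⟨(Y \ C, ρ (Y \ C)), mem_OO.2 (hρ.rk.le_top _), hρ.sh_subset le_rfl,
        fun X hX hH Z cZ hd => ?_⟩
      obtain ⟨a, ha, e⟩ := pt X hX
      have h4 := hv X hX hH
      have h6 : Y \ C ⊆ X := by
        rw [e] at h4 ⊢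
        refine subset_erase.2 ⟨sdiff_subset, fun t => (mem_sdiff.1 t).2 ?_⟩
        exact mem_filter.2 ⟨ha, by omega⟩
      have h5 := near X Z _ (mem_ln.1 hX).1 cZ hd h6
      exact mem_sh.2 ⟨cZ, by simp only; omega⟩

/-- local covers -/
theorem local_cover (h : K ∈ MM α r) {v : Finset α} (hv : v ∈ K) :
    ∃ p ∈ OO α r, ∃ q ∈ OO α r, sh r p ⊆ K ∧ sh r q ⊆ K ∧
      ∀ X ∈ K, (X = v ∨ Adj v X) → X ∈ sh r p ∨ X ∈ sh r q := by
  obtain ⟨ρ, hρ⟩ := exists_rk h
  have cv := card_of_MM h hv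
  obtain ⟨p, q, hp, hq, h1⟩ := hρ.rk.local_cover cv ((hρ.iff v cv).1 hv)
  refine ⟨p, mem_OO.2 hp.2, q, mem_OO.2 hq.2, hρ.sh_subset hp.1, hρ.sh_subset hq.1,
    fun X hX h2 => ?_⟩
  have cX := card_of_MM h hX
  exact (h1 X h2 ((hρ.iff X cX).1 hX)).imp (fun t => mem_sh.2 ⟨cX, t⟩) (fun t => mem_sh.2 ⟨cX, t⟩)

/-- duality -/
theorem dual_mem_MM (h : K ∈ MM α r) :
    K.image (fun X => Xᶜ) ∈ MM α (Fintype.card α - r) := by
  classical
  obtain ⟨M, hE, hM⟩ := exists_matroid h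
  obtain ⟨B, hB, -⟩ := exists_basis h
  have hr : r ≤ Fintype.card α := hB ▸ card_le_univ B
  have hd : ∀ X : Finset α, M.dual.IsBase X ↔ Xᶜ.card = r ∧ Xᶜ ∉ K := fun X => by
    rw [Matroid.dual_isBase_iff (by rw [hE]; exact Set.subset_univ _), ← hM, hE, coe_compl,
      Set.compl_eq_univ_sdiff]
  have := mem_MM_of_matroid (r := Fintype.card α - r) M.dual fun X hX => by
    have h1 := ((hd X).1 hX).1
    have := card_add_card_compl X
    omega
  convert this using 1
  ext X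
  simp only [mem_image, mem_filter, mem_Vr, hd]
  have h1 := card_add_card_compl X
  constructor
  · rintro ⟨Z, hZ, rfl⟩
    have := card_of_MM h hZ
    rw [compl_compl] at h1 ⊢
    exact ⟨by omega, fun t => t.2 hZ⟩
  · rintro ⟨h2, h3⟩
    refine ⟨Xᶜ, ?_, compl_compl X⟩
    by_contra t
    exact h3 ⟨by omega, t⟩

theorem card_SS_le (h0 : 0 < r) (h1 : r < Fintype.card α) : (SS α r).card ≤ (MM α r).card := by
  have h2 : (∅ : Finset (Finset α)) ∈ MM α r := by
    refine mem_MM.2 ⟨empty_subset _, fun e => ?_, fun B hB _ B' hB' _ x hx hx' => ?_⟩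
    · have := congrArg card e
      rw [card_empty, card_Vr] at this
      exact (Nat.choose_pos h1.le).ne this
    · have h3 := card_add_sdiff B B'
      have h4 : 0 < (B \ B').card := card_pos.2 ⟨x, mem_sdiff.2 ⟨hx, hx'⟩⟩
      rw [mem_Vr] at hB hB'
      obtain ⟨y, hy⟩ := card_pos.1 (show 0 < (B' \ B).card by omega)
      exact ⟨y, (mem_sdiff.1 hy).1, (mem_sdiff.1 hy).2, notMem_empty _⟩
  refine card_le_card fun S hS => ?_
  have := add_stb h2 h0 h1 (I := S)
    (fun X hX => mem_Fr.2 ⟨mem_Vr.1 ((mem_SS.1 hS).1 hX), by simp⟩) (mem_SS.1 hS).2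
  simpa using this

theorem SS_lower (hn : 0 < Fintype.card α) :
    Real.exp (2 / 3 * (((Fintype.card α).choose r : ℝ) / Fintype.card α)) ≤ (SS α r).card := by
  rw [SS_eq_stabs]; exact stabs_lower hn r

theorem UU_mem_SS (h : K ∈ MM α r) : UU K ∈ SS α r :=
  mem_SS.2 ⟨(UU_subset K).trans (sub_of_MM h), stb_UU K⟩

end Pool.Agent.MP_c3fbfc_co.V

end MrgPart3

-- ======== part 4: formerly Pool.Agent.MP_c3fbfc_co.VTools
section MrgPart4

/-! Counting tools: the greedy lemma, the secrets lemma and weighted sums over subsets. -/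

namespace Pool.Agent.MP_c3fbfc_co.V

open Finset

/-- GREEDY: if every unfinished member of a family can be extended in at least `θ` mutually
exclusive ways, then the finished members above `J` have total weight at least the weight of `J`. -/
theorem greedy {β : Type*} [DecidableEq β] (𝒥 : Finset (Finset β)) (Done : Finset β → Prop)
    [DecidablePred Done] {θ : ℝ} (hθ : 0 < θ)
    (h : ∀ J ∈ 𝒥, ¬ Done J → ∃ C : Finset β, θ ≤ C.card ∧ (∀ A ∈ C, A ∉ J ∧ insert A J ∈ 𝒥) ∧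
      ∀ I ∈ 𝒥, (I ∩ C).card ≤ 1) :
    ∀ J ∈ 𝒥, θ⁻¹ ^ J.card ≤ ∑ I ∈ 𝒥.filter (fun I => Done I ∧ J ⊆ I), θ⁻¹ ^ I.card := by
  have hw : ∀ k : ℕ, (0 : ℝ) ≤ θ⁻¹ ^ k := fun k => by positivity
  have key : ∀ k : ℕ, ∀ J ∈ 𝒥, 𝒥.sup card ≤ J.card + k →
      θ⁻¹ ^ J.card ≤ ∑ I ∈ 𝒥.filter (fun I => Done I ∧ J ⊆ I), θ⁻¹ ^ I.card := by
    intro k
    induction k with
    | zero =>
      intro J hJ hk
      by_cases hD : Done J
      · exact single_le_sum (f := fun I : Finset β => θ⁻¹ ^ I.card) (fun I _ => hw _)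
          (mem_filter.2 ⟨hJ, hD, Subset.rfl⟩)
      · obtain ⟨C, h1, h2, -⟩ := h J hJ hD
        have : 0 < C.card := by exact_mod_cast hθ.trans_le h1
        obtain ⟨A, hA⟩ := card_pos.1 this
        have h3 := le_sup (f := card) (h2 A hA).2
        rw [card_insert_of_notMem (h2 A hA).1] at h3
        omega
    | succ k ih =>
      intro J hJ hk
      by_cases hD : Done J
      · exact single_le_sum (f := fun I : Finset β => θ⁻¹ ^ I.card) (fun I _ => hw _)
          (mem_filter.2 ⟨hJ, hD, Subset.rfl⟩)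
      obtain ⟨C, h1, h2, h3⟩ := h J hJ hD
      have h4 : ∀ A ∈ C, θ⁻¹ ^ (J.card + 1) ≤
          ∑ I ∈ 𝒥.filter (fun I => Done I ∧ J ⊆ I), if A ∈ I then θ⁻¹ ^ I.card else 0 := by
        intro A hA
        have e := card_insert_of_notMem (h2 A hA).1
        have := ih _ (h2 A hA).2 (by rw [e]; omega)
        rw [e] at this
        refine this.trans (le_of_eq ?_)
        rw [← sum_filter, filter_filter]
        refine sum_congr (filter_congr fun I _ => ?_) fun _ _ => rfl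
        rw [insert_subset_iff]; tauto
      have h5 := sum_le_sum h4
      rw [sum_const, nsmul_eq_mul, sum_comm] at h5
      calc θ⁻¹ ^ J.card = θ * θ⁻¹ ^ (J.card + 1) := by rw [pow_succ]; field_simp
        _ ≤ C.card * θ⁻¹ ^ (J.card + 1) := mul_le_mul_of_nonneg_right h1 (hw _)
        _ ≤ _ := h5.trans (sum_le_sum fun I hI => ?_)
      rw [← sum_filter, sum_const, nsmul_eq_mul, filter_mem_eq_inter, inter_comm]
      have : ((I ∩ C).card : ℝ) ≤ 1 := by exact_mod_cast h3 I (mem_filter.1 hI).1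
      simpa using mul_le_mul_of_nonneg_right this (hw I.card)
  exact fun J hJ => key _ J hJ (Nat.le_add_left _ _)

/-- SECRETS: candidates carry labels on a support; if every global labelling is compatible with
at most one candidate, the weights sum to at most one. -/
theorem secrets {γ W L : Type*} [Fintype W] [DecidableEq W] [Fintype L] [Nonempty L]
    (C : Finset γ) (supp : γ → Finset W) (lab : γ → W → L)
    (h : ∀ lam : W → L, ∀ c ∈ C, ∀ c' ∈ C, (∀ v ∈ supp c, lam v = lab c v) →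
      (∀ v ∈ supp c', lam v = lab c' v) → c = c') :
    ∑ c ∈ C, ((Fintype.card L : ℝ)⁻¹) ^ (supp c).card ≤ 1 := by
  classical
  set ℓ := Fintype.card L with hℓ
  have hℓ0 : (0 : ℝ) < ℓ := by exact_mod_cast Fintype.card_pos
  let F : γ → Finset (W → L) := fun c =>
    Fintype.piFinset (fun v => if v ∈ supp c then {lab c v} else univ)
  have hF : ∀ c lam, lam ∈ F c → ∀ v ∈ supp c, lam v = lab c v := fun c lam hl v hv => by
    have := Fintype.mem_piFinset.1 hl v
    simpa [hv] using this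
  have hc : ∀ c, ((F c).card : ℝ) = (ℓ : ℝ) ^ Fintype.card W * ((ℓ : ℝ)⁻¹) ^ (supp c).card := by
    intro c
    rw [Fintype.card_piFinset]
    have e : ∀ v, ((if v ∈ supp c then {lab c v} else univ : Finset L).card : ℝ) =
        ℓ * if v ∈ supp c then (ℓ : ℝ)⁻¹ else 1 := fun v => by
      split_ifs
      · rw [card_singleton]; field_simp; simp
      · simp [hℓ]
    rw [Nat.cast_prod, prod_congr rfl (fun v _ => e v), prod_mul_distrib, prod_const, card_univ,
      ← prod_filter, filter_mem_eq_inter, univ_inter, prod_const]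
  have h1 : (C.biUnion F).card = ∑ c ∈ C, (F c).card :=
    card_biUnion fun c hc c' hc' hne => disjoint_left.2 fun lam h1 h2 =>
      hne (h lam c hc c' hc' (hF c lam h1) (hF c' lam h2))
  have h2 : (C.biUnion F).card ≤ ℓ ^ Fintype.card W := by
    simpa [hℓ] using card_le_univ (C.biUnion F)
  have h3 : (∑ c ∈ C, ((F c).card : ℝ)) ≤ (ℓ : ℝ) ^ Fintype.card W * 1 := by
    rw [mul_one]; exact_mod_cast h1 ▸ h2
  rw [sum_congr rfl (fun c _ => hc c), ← mul_sum] at h3
  exact le_of_mul_le_mul_left h3 (by positivity)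

/-- the weighted number of subsets -/
theorem wsum {β : Type*} (Ω : Finset β) {x : ℝ} (hx : 0 ≤ x) :
    ∑ S ∈ Ω.powerset, x ^ S.card ≤ Real.exp (x * Ω.card) := by
  have h := sum_pow_mul_eq_add_pow x 1 Ω
  simp only [one_pow, mul_one] at h
  rw [h, mul_comm, Real.exp_nat_mul]
  exact pow_le_pow_left₀ (by positivity) (Real.add_one_le_exp x) _

end Pool.Agent.MP_c3fbfc_co.V

end MrgPart4

-- marker of a merged file
example : 731051 + 623106 = 731051 + 623106 := rfl
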