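import Mathlib.Data.Int.Star
import Mathlib.Algebra.Order.Ring.Star
import Mathlib.Data.Finset.Sups
import Pool.Agent.MP_c3fbfc_co.VTools

-- ======== part 0: formerly Pool.Agent.MP_c3fbfc_co.VRich
section MrgPart0

/-! RICH: free vertices, rich lines, component lines and defect-like points are rare. -/

namespace Pool.Agent.MP_c3fbfc_co.V

open Finset

namespace RichM

variable {α : Type*} [Fintype α] [DecidableEq α] {r : ℕ}

/-- comparison of two sums of cardinalities through an injective relation -/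
theorem sum_le_sum_of_rel {β γ δ : Type*} (S : Finset δ) (f : δ → Finset β) (g : δ → Finset γ)
    (R : δ → β → δ → γ → Prop)
    (h1 : ∀ K ∈ S, ∀ x ∈ f K, ∃ K' ∈ S, ∃ y ∈ g K', R K x K' y)
    (h2 : ∀ K x K₂ x₂ K' y, R K x K' y → R K₂ x₂ K' y → K = K₂ ∧ x = x₂) :
    ∑ K ∈ S, (f K).card ≤ ∑ K ∈ S, (g K).card := by
  rw [← card_sigma, ← card_sigma]
  refine card_le_of_rel (S.sigma f) (S.sigma g) (fun p q => R p.1 p.2 q.1 q.2) ?_ ?_
  · rintro ⟨K, x⟩ hp
    obtain ⟨K', h3, y, h4, h5⟩ := h1 K (mem_sigma.1 hp).1 x (mem_sigma.1 hp).2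
    exact ⟨⟨K', y⟩, mem_sigma.2 ⟨h3, h4⟩, h5⟩
  · rintro ⟨K, x⟩ - ⟨K₂, x₂⟩ - ⟨K', y⟩ - e1 e2
    obtain ⟨rfl, rfl⟩ := h2 _ _ _ _ _ _ e1 e2
    rfl

/-- a stable set has at most `4N/n` points -/
theorem stb_card (h1 : Fintype.card α ≤ 3 * r) (h2 : 3 * r ≤ 2 * Fintype.card α)
    {S : Finset (Finset α)} (hS : S ⊆ Vr α r) (h : Stb S) :
    Fintype.card α * S.card ≤ 4 * (Fintype.card α).choose r := by
  classical
  rw [← sum_card_inter_ln hS]
  refine le_trans ?_ (card_ctr_le h1 h2 (univ.filter (Ctr r)) fun Y hY => (mem_filter.1 hY).2)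
  rw [card_filter]
  refine sum_le_sum fun Y _ => ?_
  split_ifs with hc
  · rw [inter_comm]; exact h.card_inter_ln Y
  · rw [Nat.le_zero, card_eq_zero, eq_empty_iff_forall_notMem]
    exact fun X hX => hc (ctr_of_mem_ln (mem_inter.1 hX).1)

theorem sum_Fr (h0 : 0 < r) (h1 : r < Fintype.card α) :
    ∑ K ∈ MM α r, (Fr r K).card ≤ ∑ K ∈ MM α r, (UU K).card := by
  refine sum_le_sum_of_rel _ _ _ (fun K X K' X' => X' = X ∧ K = K'.erase X) ?_ ?_
  · intro K hK X hX
    refine ⟨insert X K, add_free hK h0 h1 hX, X, mem_UU.2 ⟨mem_insert_self _ _, ?_⟩, rfl,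
      (erase_insert (notMem_of_mem_Fr hX)).symm⟩
    intro B hB
    rcases mem_insert.1 hB with rfl | hB
    · simp
    · exact ((mem_Fr.1 hX).2 B hB).ne'
  · rintro K X K₂ X₂ K' Y ⟨rfl, rfl⟩ ⟨rfl, rfl⟩
    exact ⟨rfl, rfl⟩

theorem sum_F2 (h0 : 0 < r) (h1 : r < Fintype.card α) :
    ∑ K ∈ MM α r, ((Fr r K ×ˢ Fr r K).filter (fun p => sd p.1 p.2 = 2)).card ≤
      ∑ K ∈ MM α r, (PP r K).card := by
  refine sum_le_sum_of_rel _ _ _
    (fun K p K' Z => Z = p.2 ∧ cn K' Z = {p.1} ∧ K = K'.erase p.1) ?_ ?_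
  · rintro K hK ⟨X, Z⟩ hp
    obtain ⟨hp, hd⟩ := mem_filter.1 hp
    obtain ⟨hX, hZ⟩ := mem_product.1 hp
    dsimp only at hX hZ hd
    have hc : cn (insert X K) Z = {X} := by
      ext A
      rw [mem_cn, mem_insert, mem_singleton]
      constructor
      · rintro ⟨rfl | hA, h⟩
        · rfl
        · exact absurd ((mem_Fr.1 hZ).2 A hA) (not_lt.2 h)
      · rintro rfl
        exact ⟨Or.inl rfl, by rw [sd_comm, hd]⟩
    refine ⟨insert X K, add_free hK h0 h1 hX, Z, mem_PP.2 ⟨(mem_Fr.1 hZ).1, ?_, ?_⟩, rfl, hc,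
      (erase_insert (notMem_of_mem_Fr hX)).symm⟩
    · intro h
      rcases mem_insert.1 h with rfl | h
      · simp at hd
      · exact notMem_of_mem_Fr hZ h
    · rw [hc, card_singleton]
  · rintro K ⟨X, Z⟩ K₂ ⟨X₂, Z₂⟩ K' Y ⟨e1, e2, e3⟩ ⟨f1, f2, f3⟩
    dsimp only at *
    have e : X = X₂ := singleton_injective (e2.symm.trans f2)
    subst e
    exact ⟨e3.trans f3.symm, by rw [← e1, ← f1]⟩

theorem card_Rich (hn : 24 ≤ Fintype.card α) (K : Finset (Finset α)) :
    (Rich r K).card * Fintype.card α ^ 2 ≤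
      576 * ((Fr r K ×ˢ Fr r K).filter (fun p => sd p.1 p.2 = 2)).card := by
  classical
  have key := double_count (Rich r K) ((Fr r K ×ˢ Fr r K).filter (fun p => sd p.1 p.2 = 2))
    (fun Y p => p.1 ∈ ln r Y ∧ p.2 ∈ ln r Y) ((Fintype.card α : ℝ) ^ 2 / 288) 2 ?_ ?_
  · have : ((Rich r K).card : ℝ) * (Fintype.card α : ℝ) ^ 2 ≤
        576 * ((Fr r K ×ˢ Fr r K).filter (fun p => sd p.1 p.2 = 2)).card := by linarith
    exact_mod_cast this
  · intro Y hY
    have hk : Fintype.card α ≤ 12 * (ln r Y ∩ Fr r K).card := (mem_filter.1 hY).2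
    have hs : (ln r Y ∩ Fr r K).offDiag ⊆
        ((Fr r K ×ˢ Fr r K).filter (fun p => sd p.1 p.2 = 2)).filter
          (fun p => p.1 ∈ ln r Y ∧ p.2 ∈ ln r Y) := by
      rintro ⟨X, Z⟩ hp
      obtain ⟨a, b, c⟩ := mem_offDiag.1 hp
      dsimp only at a b c
      exact mem_filter.2 ⟨mem_filter.2 ⟨mem_product.2 ⟨(mem_inter.1 a).2, (mem_inter.1 b).2⟩,
        (ln_clique (mem_inter.1 a).1 (mem_inter.1 b).1).resolve_left c⟩,
        (mem_inter.1 a).1, (mem_inter.1 b).1⟩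
    have h3 := card_le_card hs
    rw [offDiag_card] at h3
    set k := (ln r Y ∩ Fr r K).card
    have h4 : Fintype.card α ^ 2 ≤ 288 * (k * k - k) := by
      have h5 : 2 ≤ k := by omega
      have h6 : k * k ≤ 2 * (k * k - k) := by
        have : 2 * k ≤ k * k := Nat.mul_le_mul_right k h5
        omega
      calc Fintype.card α ^ 2 ≤ (12 * k) ^ 2 := Nat.pow_le_pow_left hk 2
        _ = 144 * (k * k) := by ring
        _ ≤ _ := by omega
    have h7 := h4.trans (Nat.mul_le_mul_left 288 h3)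
    rw [div_le_iff₀ (by norm_num), mul_comm]
    exact_mod_cast h7
  · rintro ⟨X, Z⟩ hp
    have hd : sd X Z = 2 := (mem_filter.1 hp).2
    have hne : X ≠ Z := by rintro rfl; simp at hd
    exact_mod_cast card_lines_pair (r := r) hne _ fun Y hY => (mem_filter.1 hY).2

theorem sum_SLs (h1 : Fintype.card α ≤ 3 * r) (h2 : 3 * r ≤ 2 * Fintype.card α) :
    ∑ K ∈ MM α r, (SLs r K).card ≤ ∑ K ∈ MM α r, (Rich r K).card := by
  refine sum_le_sum_of_rel _ _ _ (fun K Y K' Y' => Y' = Y ∧ K = K' ∪ ln r Y) ?_ ?_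
  · intro K hK Y hY
    have hY := mem_SLs.1 hY
    have hc := hY.clo hK
    refine ⟨K \ ln r Y, relax hK hc, Y, mem_filter.2 ⟨mem_univ _, ?_⟩, rfl,
      (sdiff_union_of_subset hc.1).symm⟩
    rw [inter_eq_left.2 (hc.subset_Fr hK)]
    have := card_ln_ge h1 h2 hY.1.1
    omega
  · rintro K Y K₂ Y₂ K' Y' ⟨rfl, rfl⟩ ⟨rfl, rfl⟩
    exact ⟨rfl, rfl⟩

/-- the subsets of a stable set of free vertices give distinct matroids -/
theorem many {β : Type*} [DecidableEq β] (h0 : 0 < r) (h1 : r < Fintype.card α)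
    {K G : Finset (Finset α)} (hK : K ∈ MM α r) (hG : G ⊆ Fr r K) (hS : Stb G) (y : β)
    (T : Finset (Finset (Finset α) × β)) (hT : ∀ Φ ⊆ G, K ∪ Φ ∈ MM α r → (K ∪ Φ, y) ∈ T) :
    2 ^ G.card ≤ T.card := by
  rw [← card_powerset]
  refine card_le_card_of_injOn (fun Φ => (K ∪ Φ, y)) (fun Φ hΦ => ?_) (fun Φ hΦ Ψ hΨ e => ?_)
  · have hΦ := mem_powerset.1 (mem_coe.1 hΦ)
    exact mem_coe.2 (hT Φ hΦ (add_stb hK h0 h1 (hΦ.trans hG) (hS.mono hΦ)))
  · have hΦ := mem_powerset.1 (mem_coe.1 hΦ)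
    have hΨ := mem_powerset.1 (mem_coe.1 hΨ)
    have e : K ∪ Φ = K ∪ Ψ := congrArg Prod.fst e
    have d : ∀ Φ ⊆ G, (K ∪ Φ) \ K = Φ := fun Φ hΦ =>
      union_sdiff_cancel_left (disjoint_right.2 fun X hX => notMem_of_mem_Fr (hG (hΦ hX)))
    rw [← d Φ hΦ, e, d Ψ hΨ]

open Classical in
theorem sum_DL (h0 : 0 < r) (h1 : r < Fintype.card α) (j : ℕ) :
    ((∑ K ∈ MM α r, ((UU K).filter (fun A => DL r K A j)).card : ℕ) : ℝ) * 2 ^ j ≤
      (Fintype.card α).choose r * (MM α r).card := by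
  rw [← card_sigma]
  have key := mul_card_le_of_rel ((MM α r).sigma (fun K => (UU K).filter (fun A => DL r K A j)))
    (MM α r ×ˢ Vr α r) (fun p q => q.2 = p.2 ∧ p.1 = insert p.2 (q.1 \ nb r p.2)) (2 ^ j) ?_ ?_
  · rw [card_product, card_Vr, mul_comm (MM α r).card] at key
    exact_mod_cast key
  · rintro ⟨K, A⟩ hp
    obtain ⟨hK, hA⟩ := mem_sigma.1 hp
    obtain ⟨hA, S, hS, hst, hj, hc⟩ := mem_filter.1 hA
    dsimp only at hK hA hS hc ⊢
    have hAK := UU_subset K hA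
    have hcl : Clo K {A} := clo_of_UU (singleton_subset_iff.2 hA)
    have hF : S ⊆ Fr r (K \ {A}) := fun Z hZ => by
      refine mem_Fr.2 ⟨(mem_nb.1 (hS hZ)).1, fun B hB => ?_⟩
      by_contra h
      exact (mem_sdiff.1 hB).2 (hc Z hZ (mem_cn.2 ⟨(mem_sdiff.1 hB).1, not_lt.1 h⟩))
    have h3 := many h0 h1 (relax hK hcl) hF hst A ((MM α r ×ˢ Vr α r).filter
      (fun q => q.2 = A ∧ K = insert A (q.1 \ nb r A))) (fun Φ hΦ hM => by
        refine mem_filter.2 ⟨mem_product.2 ⟨hM, sub_of_MM hK hAK⟩, rfl, ?_⟩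
        ext X
        simp only [mem_insert, mem_sdiff, mem_union, mem_singleton]
        constructor
        · intro hX
          by_cases e : X = A
          · exact Or.inl e
          · exact Or.inr ⟨Or.inl ⟨hX, e⟩, fun h => (mem_UU.1 hA).2 X hX (mem_nb.1 h).2⟩
        · rintro (rfl | ⟨h | h, h'⟩)
          · exact hAK
          · exact h.1
          · exact absurd (hS (hΦ h)) h')
    exact_mod_cast (Nat.pow_le_pow_right (by norm_num) hj).trans h3
  · rintro ⟨K, A⟩ - ⟨K₂, A₂⟩ - ⟨K', A'⟩ - ⟨e1, e2⟩ ⟨f1, f2⟩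
    dsimp only at *
    subst e1
    subst f1
    rw [e2, f2]

open Classical in
theorem card_not_GLn (h0 : 0 < r) (h1 : r < Fintype.card α) :
    (((MM α r).filter (fun K => ¬ GLn r K)).card : ℝ) * 2 ^ Fintype.card α ≤ (MM α r).card := by
  have key := mul_card_le_of_rel ((MM α r).filter (fun K => ¬ GLn r K))
    (MM α r ×ˢ (univ : Finset (Finset α)))
    (fun K q => K = ln r q.2 ∪ q.1.filter (fun Z => 3 < sd q.2 Z)) (2 ^ (2 * Fintype.card α)) ?_ ?_
  · rw [card_product, card_univ, Fintype.card_finset, two_mul, pow_add, ← mul_assoc] at key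
    push_cast at key
    exact le_of_mul_le_mul_right key (by positivity)
  · intro K hK
    obtain ⟨hK, hG⟩ := mem_filter.1 hK
    simp only [GLn, not_forall, not_lt] at hG
    obtain ⟨Y, hY, hfl⟩ := hG
    have hn : 0 < Fintype.card α := by omega
    obtain ⟨G, hG, hst, hc⟩ := exists_stb (r := r) (W := fl r K Y) (filter_subset _ _) hn
    have hc2 : 2 * Fintype.card α ≤ G.card := by
      refine Nat.le_of_mul_le_mul_left ?_ hn
      calc Fintype.card α * (2 * Fintype.card α) = 2 * Fintype.card α ^ 2 := by ring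
        _ ≤ _ := hfl.trans hc
    have hcl := hY.clo hK
    have hF : G ⊆ Fr r (K \ ln r Y) := fun Z hZ => by
      obtain ⟨a, -, c⟩ := mem_filter.1 (hG hZ)
      refine mem_Fr.2 ⟨mem_Vr.1 a, fun B hB => ?_⟩
      by_contra h
      exact (mem_sdiff.1 hB).2 (c (mem_cn.2 ⟨(mem_sdiff.1 hB).1, not_lt.1 h⟩))
    have h3 := many h0 h1 (relax hK hcl) hF hst Y ((MM α r ×ˢ (univ : Finset (Finset α))).filter
      (fun q => K = ln r q.2 ∪ q.1.filter (fun Z => 3 < sd q.2 Z))) (fun Φ hΦ hM => by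
        refine mem_filter.2 ⟨mem_product.2 ⟨hM, mem_univ _⟩, ?_⟩
        ext X
        simp only [mem_union, mem_filter, mem_sdiff]
        constructor
        · intro hX
          by_cases e : X ∈ ln r Y
          · exact Or.inl e
          · refine Or.inr ⟨Or.inl ⟨hX, e⟩, ?_⟩
            by_contra h
            exact e (mem_ln.2 ⟨card_of_MM hK hX, hY.2 X hX (not_lt.1 h)⟩)
        · rintro (h | ⟨h | h, h'⟩)
          · exact hcl.1 h
          · exact h.1
          · exact absurd (mem_filter.1 (hG (hΦ h))).2.1 (not_le.2 h'))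
    exact_mod_cast (Nat.pow_le_pow_right (by norm_num) hc2).trans h3
  · intro K _ K₂ _ q _ e1 e2
    exact e1.trans e2.symm

end RichM

open RichM in
/-- RICH from PB. -/
theorem rich (h : PBStmt) : RichStmt := by
  refine ⟨115200, by norm_num, fun n r hn h1 h2 => ?_⟩
  have hc : Fintype.card (Fin n) = n := Fintype.card_fin n
  have h0 : 0 < r := by omega
  have hr : r < Fintype.card (Fin n) := by omega
  have hP := h n r hn h1 h2
  have hN : (0 : ℝ) ≤ n.choose r * (MM (Fin n) r).card := by positivity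
  have hn0 : (0 : ℝ) ≤ n := by positivity
  have hF2 : (∑ K ∈ MM (Fin n) r,
      (((Fr r K ×ˢ Fr r K).filter (fun p => sd p.1 p.2 = 2)).card : ℝ)) * n ≤
      200 * n.choose r * (MM (Fin n) r).card := by
    refine le_trans (mul_le_mul_of_nonneg_right ?_ hn0) hP
    exact_mod_cast sum_F2 h0 hr
  have hR : (∑ K ∈ MM (Fin n) r, ((Rich r K).card : ℝ)) * n ^ 3 ≤
      115200 * n.choose r * (MM (Fin n) r).card := by
    have h3 : (∑ K ∈ MM (Fin n) r, ((Rich r K).card : ℝ)) * n ^ 2 ≤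
        576 * ∑ K ∈ MM (Fin n) r,
          (((Fr r K ×ˢ Fr r K).filter (fun p => sd p.1 p.2 = 2)).card : ℝ) := by
      rw [sum_mul, mul_sum]
      refine sum_le_sum fun K _ => ?_
      have := card_Rich (r := r) (by omega) K
      rw [hc] at this
      exact_mod_cast this
    have h4 := mul_le_mul_of_nonneg_right h3 hn0
    nlinarith
  refine ⟨?_, by nlinarith, hR, ?_, fun j => ?_, ?_⟩
  · have h3 : (∑ K ∈ MM (Fin n) r, ((Fr r K).card : ℝ)) ≤
        ∑ K ∈ MM (Fin n) r, ((UU K).card : ℝ) := by exact_mod_cast sum_Fr h0 hr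
    have h4 : (∑ K ∈ MM (Fin n) r, ((UU K).card : ℝ)) * n ≤
        ∑ K ∈ MM (Fin n) r, (4 * n.choose r : ℝ) := by
      rw [sum_mul]
      refine sum_le_sum fun K hK => ?_
      have := stb_card (α := Fin n) (r := r) (by omega) (by omega)
        ((UU_subset K).trans (sub_of_MM hK)) (stb_UU K)
      rw [hc, mul_comm] at this
      exact_mod_cast this
    rw [sum_const, nsmul_eq_mul] at h4
    have h5 := mul_le_mul_of_nonneg_right h3 hn0
    nlinarith
  · refine le_trans (mul_le_mul_of_nonneg_right ?_ (by positivity)) hR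
    exact_mod_cast sum_SLs (α := Fin n) (r := r) (by omega) (by omega)
  · have := sum_DL h0 hr j
    rw [hc] at this
    exact_mod_cast this
  · have := card_not_GLn h0 hr
    rwa [hc] at this

end Pool.Agent.MP_c3fbfc_co.V

end MrgPart0

-- ======== part 1: formerly Pool.Agent.MP_c3fbfc_co.VCla
section MrgPart1

/-! CLA: lines in components with at least two lines, all with many private points. -/

namespace Pool.Agent.MP_c3fbfc_co.V

open Finset
open scoped symmDiff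

namespace Cla

variable {α : Type*} [Fintype α] [DecidableEq α]

open Classical in
/-- the component of the line `Y0` -/
noncomputable def Q (r : ℕ) (K : Finset (Finset α)) (Y0 : Finset α) : Finset (Finset α) :=
  K.filter (fun X => ∃ Z ∈ ln r Y0, Conn K Z X)

/-- the other lines of the component -/
def LQ (r : ℕ) (K : Finset (Finset α)) (Y0 Y : Finset α) : Prop :=
  KL r K Y ∧ ln r Y ⊆ Q r K Y0 ∧ Y ≠ Y0

/-- at most one private point on each of the other lines -/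
def Fam (r : ℕ) (K : Finset (Finset α)) (Y0 : Finset α) (J : Finset (Finset α)) : Prop :=
  (∀ A ∈ J, ∃ Y, LQ r K Y0 Y ∧ A ∈ priv r K Y) ∧ ∀ Y, LQ r K Y0 Y → (J ∩ priv r K Y).card ≤ 1

/-- a private point on each of the other lines -/
def Done (r : ℕ) (K : Finset (Finset α)) (Y0 : Finset α) (J : Finset (Finset α)) : Prop :=
  ∀ Y, LQ r K Y0 Y → ∃ A ∈ J, A ∈ priv r K Y

open Classical in
/-- the finished selections -/
noncomputable def DD (r : ℕ) (K : Finset (Finset α)) (Y0 : Finset α) :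
    Finset (Finset (Finset α)) :=
  univ.filter (fun I => Fam r K Y0 I ∧ Done r K Y0 I)

open Classical in
/-- the type of the line through a private point -/
noncomputable def lab (r : ℕ) (K : Finset (Finset α)) (A : Finset α) : Bool :=
  decide (∃ a ∈ A, KL r K (tg A a))

/-- the rules of the decoder -/
def Shut (r : ℕ) (Y0 : Finset α) (K' : Finset (Finset α)) (lam : Finset α → Bool)
    (S : Finset (Finset α)) : Prop :=
  ln r Y0 ⊆ S ∧ ∀ A ∈ K', ∀ a, (lam A = true ↔ a ∈ A) → ∀ Z ∈ ln r (tg A a), Z ≠ A → Z ∈ S →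
    ln r (tg A a) ⊆ S

variable {r : ℕ} {K I : Finset (Finset α)} {Y0 : Finset α}

theorem mem_Q {X : Finset α} : X ∈ Q r K Y0 ↔ X ∈ K ∧ ∃ Z ∈ ln r Y0, Conn K Z X := by
  simp [Q]

theorem mem_DD : I ∈ DD r K Y0 ↔ Fam r K Y0 I ∧ Done r K Y0 I := by simp [DD]

theorem clo_Q : Clo K (Q r K Y0) :=
  ⟨fun _ h => (mem_Q.1 h).1, fun A hA B hB e => by
    obtain ⟨h1, Z, hZ, h2⟩ := mem_Q.1 hA
    exact mem_Q.2 ⟨hB, Z, hZ, h2.tail ⟨h1, hB, e⟩⟩⟩

theorem ln_Q (h : KL r K Y0) : ln r Y0 ⊆ Q r K Y0 :=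
  fun X hX => mem_Q.2 ⟨h.2 hX, X, hX, Relation.ReflTransGen.refl⟩

theorem lab_iff {A : Finset α} {a : α} (hA : A ∈ priv r K (tg A a)) (h : KL r K (tg A a)) :
    lab r K A = true ↔ a ∈ A := by
  obtain ⟨h1, h2⟩ := mem_priv.1 hA
  simp only [lab, decide_eq_true_eq]
  refine ⟨fun ⟨b, hb, hK⟩ => ?_, fun ha => ⟨a, ha, h⟩⟩
  rwa [← tg_inj (h2 _ hK (self_mem_ln (mem_ln.1 h1).1 b))]

theorem many (hY : Y0 ∈ RA r K) (hn : 0 < Fintype.card α) {Y : Finset α} (h : KL r K Y)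
    (hQ : ln r Y ⊆ Q r K Y0) (hne : (ln r Y).Nonempty) :
    Fintype.card α ≤ 12 * (priv r K Y).card := by
  by_contra hc
  obtain ⟨X, hX⟩ := hne
  obtain ⟨-, Z, hZ, h2⟩ := mem_Q.1 (hQ hX)
  obtain ⟨k1, -, k3⟩ := mem_RA.1 hY
  exact disjoint_left.1 k3 hZ (mem_WB.2 ⟨k1.2 hZ, Y, h, not_le.1 hc, X, hX, h2⟩)

theorem ln_ne (h1 : Fintype.card α ≤ 3 * r) (h2 : 3 * r ≤ 2 * Fintype.card α) {Y : Finset α}
    (h : KL r K Y) : (ln r Y).Nonempty :=
  card_pos.1 (by have := card_ln_ge h1 h2 h.1; omega)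

theorem exists_LQ (mm : K ∈ MM α r) (hY : Y0 ∈ RA r K) : ∃ Y, LQ r K Y0 Y := by
  obtain ⟨k1, k2, -⟩ := mem_RA.1 hY
  have : ∃ Z ∈ K, sd Y0 Z ≤ 3 ∧ sd Y0 Z ≠ 1 := by
    by_contra hc
    push Not at hc
    exact k2 ⟨k1, hc⟩
  obtain ⟨Z, hZ, h1, h2⟩ := this
  have hc := card_of_MM mm hZ
  have h3 := sd_odd k1.1 hc
  obtain ⟨A, hA, e⟩ := exists_adj_on_ln hc k1.1 (by omega)
  obtain ⟨Y, hK, a1, a2⟩ := share mm hZ (k1.2 hA) e
  refine ⟨Y, hK, clo_Q.ln_subset hK a2 (ln_Q k1 hA), ?_⟩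
  rintro rfl
  exact h2 (mem_ln.1 a1).2

theorem weight (hY : Y0 ∈ RA r K) (hn : 0 < Fintype.card α)
    (h1 : Fintype.card α ≤ 3 * r) (h2 : 3 * r ≤ 2 * Fintype.card α) :
    1 ≤ ∑ I ∈ DD r K Y0, (((Fintype.card α : ℝ) / 12)⁻¹) ^ I.card := by
  classical
  have hθ : (0 : ℝ) < (Fintype.card α : ℝ) / 12 := by positivity
  have := greedy (univ.filter (Fam r K Y0)) (Done r K Y0) hθ ?_ ∅
    (mem_filter.2 ⟨mem_univ _, by simp, by simp⟩)
  · simpa [DD, filter_filter] using this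
  intro J hJ hD
  obtain ⟨j1, j2⟩ := (mem_filter.1 hJ).2
  simp only [Done, not_forall, not_exists, not_and] at hD
  obtain ⟨Y, hL, hD⟩ := hD
  refine ⟨priv r K Y, ?_, fun A hA => ⟨fun h => hD A h hA, mem_filter.2 ⟨mem_univ _, ?_, ?_⟩⟩,
    fun I hI => (mem_filter.1 hI).2.2 Y hL⟩
  · have : ((Fintype.card α : ℕ) : ℝ) ≤ 12 * (priv r K Y).card := by
      exact_mod_cast many hY hn hL.1 hL.2.1 (ln_ne h1 h2 hL.1)
    linarith
  · intro B hB
    rcases mem_insert.1 hB with rfl | hB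
    exacts [⟨Y, hL, hA⟩, j1 B hB]
  · intro Y' hL'
    by_cases e : Y' = Y
    · subst e
      refine card_le_one.2 fun a ha b hb => ?_
      rw [mem_inter, mem_insert] at ha hb
      rw [ha.1.resolve_right fun h => hD a h ha.2, hb.1.resolve_right fun h => hD b h hb.2]
    · rw [insert_inter_of_notMem fun h => e ((mem_priv.1 hA).2 Y' hL'.1 (mem_priv.1 h).1)]
      exact j2 Y' hL'

theorem Fam.sub (h : Fam r K Y0 I) : I ⊆ Q r K Y0 := fun A hA => by
  obtain ⟨Y, hL, hp⟩ := h.1 A hA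
  exact hL.2.1 (mem_priv.1 hp).1

theorem Fam.stb (mm : K ∈ MM α r) (h : Fam r K Y0 I) : Stb I := by
  intro A hA B hB e
  obtain ⟨Y, hL, hp⟩ := h.1 A hA
  obtain ⟨Y', hL', hp'⟩ := h.1 B hB
  obtain ⟨W, hK, a1, a2⟩ := share mm (clo_Q.1 (h.sub hA)) (clo_Q.1 (h.sub hB)) e
  obtain rfl := (mem_priv.1 hp).2 W hK a1
  obtain rfl := (mem_priv.1 hp').2 W hK a2
  have := card_le_one.1 (h.2 W hL) A (mem_inter.2 ⟨hA, hp⟩) B (mem_inter.2 ⟨hB, hp'⟩)
  simp [this] at e

theorem Fam.mm (mm : K ∈ MM α r) (h0 : 0 < r) (h1 : r < Fintype.card α) (h : Fam r K Y0 I) :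
    (K \ Q r K Y0) ∪ I ∈ MM α r :=
  add_stb (relax mm clo_Q) h0 h1 (h.sub.trans (clo_Q.subset_Fr mm)) (h.stb mm)

theorem Fam.rich (mm : K ∈ MM α r) (hY : Y0 ∈ RA r K) (hn : 0 < Fintype.card α)
    (h1 : Fintype.card α ≤ 3 * r) (h2 : 3 * r ≤ 2 * Fintype.card α) (h : Fam r K Y0 I) :
    Y0 ∈ Rich r ((K \ Q r K Y0) ∪ I) := by
  have k1 := (mem_RA.1 hY).1
  refine mem_filter.2 ⟨mem_univ _, (many hY hn k1 (ln_Q k1) (ln_ne h1 h2 k1)).trans
    (Nat.mul_le_mul_left _ (card_le_card fun X hX => ?_))⟩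
  obtain ⟨x1, x2⟩ := mem_priv.1 hX
  have x3 := mem_Fr.1 (clo_Q.subset_Fr mm (ln_Q k1 x1))
  refine mem_inter.2 ⟨x1, mem_Fr.2 ⟨x3.1, fun A hA => ?_⟩⟩
  rcases mem_union.1 hA with hA | hA
  · exact x3.2 A hA
  obtain ⟨Y, hL, hp⟩ := h.1 A hA
  have hAK := clo_Q.1 (h.sub hA)
  have hA0 : A ∉ ln r Y0 := fun h => hL.2.2 ((mem_priv.1 hp).2 Y0 k1 h).symm
  by_contra hc
  rcases (sd_le_two (x3.1.trans (card_of_MM mm hAK).symm)).1 (not_lt.1 hc) with rfl | e
  · exact hA0 x1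
  · obtain ⟨W, hK, a1, a2⟩ := share mm (k1.2 x1) hAK e
    exact hA0 (x2 W hK a1 ▸ a2)

theorem same_side {A Z : Finset α} (hc : A.card = Z.card) (e : sd A Z = 2) {a b : α}
    (ha : a ∈ A ∆ Z) (hb : b ∈ A ∆ Z) (h : a ∈ A ↔ b ∈ A) : a = b := by
  have h1 := sd_of_card_eq hc
  have h2 := sd_of_card_eq hc.symm
  rw [sd_comm] at h2
  rw [mem_symmDiff] at ha hb
  by_cases k : a ∈ A
  · exact card_le_one.1 (show (A \ Z).card ≤ 1 by omega) a (mem_sdiff.2 (by tauto)) b
      (mem_sdiff.2 (by tauto))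
  · exact card_le_one.1 (show (Z \ A).card ≤ 1 by omega) a (mem_sdiff.2 (by tauto)) b
      (mem_sdiff.2 (by tauto))

theorem Fam.sound (mm : K ∈ MM α r) (hY : KL r K Y0) (h : Fam r K Y0 I) {lam : Finset α → Bool}
    (hl : ∀ A ∈ I, lam A = lab r K A) : Shut r Y0 ((K \ Q r K Y0) ∪ I) lam (Q r K Y0) := by
  refine ⟨ln_Q hY, fun A hA a ha Z hZ hne hQ => ?_⟩
  have hAK : A ∈ K := by
    rcases mem_union.1 hA with h' | h'
    exacts [(mem_sdiff.1 h').1, clo_Q.1 (h.sub h')]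
  have hc := card_of_MM mm hAK
  have a0 := self_mem_ln hc a
  have e : sd A Z = 2 := (ln_clique a0 hZ).resolve_left hne.symm
  have hAQ : A ∈ Q r K Y0 := clo_Q.2 Z hQ A hAK (by rw [sd_comm, e])
  have hAI : A ∈ I := (mem_union.1 hA).resolve_left fun h' => (mem_sdiff.1 h').2 hAQ
  obtain ⟨Y, hL, hp⟩ := h.1 A hAI
  obtain ⟨W, hK, a1, a2⟩ := share mm hAK (clo_Q.1 hQ) e
  obtain rfl := (mem_priv.1 hp).2 W hK a1
  obtain ⟨b, hb, rfl⟩ := ln_pair a1 a2 hne.symm
  obtain ⟨a', ha', e'⟩ := ln_pair a0 hZ hne.symm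
  obtain rfl := tg_inj e'
  rw [hl A hAI, lab_iff hp hK] at ha
  rw [← same_side (hc.trans (mem_ln.1 hZ).1.symm) e hb ha' ha]
  exact hL.2.1

theorem complete (mm : K ∈ MM α r) (hY : KL r K Y0) (h : Done r K Y0 I) {lam : Finset α → Bool}
    (hl : ∀ A ∈ I, lam A = lab r K A) {K' S : Finset (Finset α)} (hI : I ⊆ K')
    (hS : Shut r Y0 K' lam S) : Q r K Y0 ⊆ S := by
  intro X hX
  obtain ⟨-, Z, hZ, hc⟩ := mem_Q.1 hX
  suffices ∃ Y, KL r K Y ∧ X ∈ ln r Y ∧ ln r Y ⊆ S by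
    obtain ⟨Y, -, h1, h2⟩ := this
    exact h2 h1
  clear hX
  induction hc with
  | refl => exact ⟨Y0, hY, hZ, hS.1⟩
  | @tail W X hc hs ih =>
    obtain ⟨Y', k1, k2, k3⟩ := ih
    obtain ⟨Y, hK, a1, a2⟩ := share mm hs.1 hs.2.1 hs.2.2
    refine ⟨Y, hK, a2, ?_⟩
    by_cases e : Y = Y0
    · exact e ▸ hS.1
    obtain ⟨A, hA, hp⟩ := h Y ⟨hK, clo_Q.ln_subset hK a1 (mem_Q.2 ⟨hs.1, Z, hZ, hc⟩), e⟩
    by_cases e' : W = A
    · subst e'
      exact (mem_priv.1 hp).2 Y' k1 k2 ▸ k3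
    obtain ⟨a, rfl⟩ := exists_tg_of_mem_ln (mem_priv.1 hp).1
    exact hS.2 A (hI hA) a (by rw [hl A hA, lab_iff hp hK]) W a1 e' (k3 k2)

theorem unique {K2 I2 : Finset (Finset α)} (mm : K ∈ MM α r) (mm2 : K2 ∈ MM α r)
    (hY : KL r K Y0) (hY2 : KL r K2 Y0) (h : I ∈ DD r K Y0) (h2 : I2 ∈ DD r K2 Y0)
    {lam : Finset α → Bool} (hl : ∀ A ∈ I, lam A = lab r K A)
    (hl2 : ∀ A ∈ I2, lam A = lab r K2 A)
    (e : (K \ Q r K Y0) ∪ I = (K2 \ Q r K2 Y0) ∪ I2) : K = K2 ∧ I = I2 := by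
  rw [mem_DD] at h h2
  have e1 : Q r K Y0 = Q r K2 Y0 := Subset.antisymm
    (complete mm hY h.2 hl (e ▸ subset_union_right) (h2.1.sound mm2 hY2 hl2))
    (complete mm2 hY2 h2.2 hl2 (e ▸ subset_union_right) (h.1.sound mm hY hl))
  have s1 := h.1.sub
  have s2 := h2.1.sub
  have c1 : Q r K Y0 ⊆ K := clo_Q.1
  have c2 : Q r K2 Y0 ⊆ K2 := clo_Q.1
  rw [e1] at s1 c1 e
  constructor
  · ext X
    have := Finset.ext_iff.1 e X
    simp only [mem_union, mem_sdiff] at this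
    have := @s1 X; have := @s2 X; have := @c1 X; have := @c2 X
    tauto
  · ext X
    have := Finset.ext_iff.1 e X
    simp only [mem_union, mem_sdiff] at this
    have := @s1 X; have := @s2 X
    tauto

theorem count (hn : 24 ≤ Fintype.card α) (h1 : Fintype.card α ≤ 3 * r)
    (h2 : 3 * r ≤ 2 * Fintype.card α) :
    (∑ K ∈ MM α r, ((RA r K).card : ℝ)) * Fintype.card α ≤
      24 * ∑ K ∈ MM α r, ((Rich r K).card : ℝ) := by
  classical
  have hn0 : 0 < Fintype.card α := by omega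
  have hn1 : (24 : ℝ) ≤ Fintype.card α := by exact_mod_cast hn
  let T := ((MM α r).sigma (fun K => RA r K)).sigma (fun p => DD r p.1 p.2)
  let f : (Σ _ : (Σ _ : Finset (Finset α), Finset α), Finset (Finset α)) →
      (Σ _ : Finset (Finset α), Finset α) :=
    fun t => ⟨(t.1.1 \ Q r t.1.1 t.1.2) ∪ t.2, t.1.2⟩
  have hT : ∀ t ∈ T, t.1.1 ∈ MM α r ∧ t.1.2 ∈ RA r t.1.1 ∧ t.2 ∈ DD r t.1.1 t.1.2 := fun t ht => by
    simpa only [T, mem_sigma, and_assoc] using ht
  have a1 : (∑ K ∈ MM α r, ((RA r K).card : ℝ)) * Fintype.card α ≤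
      24 * ∑ t ∈ T, ((2 : ℝ)⁻¹) ^ t.2.card := by
    have e0 : ∑ t ∈ T, ((2 : ℝ)⁻¹) ^ t.2.card = ∑ p ∈ (MM α r).sigma (fun K => RA r K),
        ∑ I ∈ DD r p.1 p.2, ((2 : ℝ)⁻¹) ^ I.card := sum_sigma _ _ _
    rw [← Nat.cast_sum, ← card_sigma, ← nsmul_eq_mul, ← sum_const, e0, mul_sum]
    refine sum_le_sum fun p hp => ?_
    obtain ⟨p1, p2⟩ := mem_sigma.1 hp
    refine (le_mul_of_one_le_right (by positivity) (weight p2 hn0 h1 h2)).trans ?_
    rw [mul_sum, mul_sum]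
    refine sum_le_sum fun I hI => ?_
    obtain ⟨Y, hL⟩ := exists_LQ p1 p2
    obtain ⟨A, hA, -⟩ := (mem_DD.1 hI).2 Y hL
    obtain ⟨k, hk⟩ : ∃ k, I.card = k + 1 := ⟨I.card - 1, by have := card_pos.2 ⟨A, hA⟩; omega⟩
    have : (((Fintype.card α : ℝ) / 12)⁻¹) ^ k ≤ ((2 : ℝ)⁻¹) ^ k :=
      pow_le_pow_left₀ (by positivity) (inv_anti₀ two_pos (by linarith)) k
    rw [hk, pow_succ, pow_succ]
    have e : (Fintype.card α : ℝ) * ((((Fintype.card α : ℝ) / 12)⁻¹) ^ k *
        ((Fintype.card α : ℝ) / 12)⁻¹) = 12 * (((Fintype.card α : ℝ) / 12)⁻¹) ^ k := by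
      field_simp
    rw [e]
    linarith
  refine a1.trans (mul_le_mul_of_nonneg_left ?_ (by norm_num))
  rw [← sum_fiberwise_of_maps_to (g := f) (t := (MM α r).sigma (fun K => Rich r K)) (fun t ht => by
    obtain ⟨t1, t2, t3⟩ := hT t ht
    exact mem_sigma.2 ⟨(mem_DD.1 t3).1.mm t1 (by omega) (by omega),
      (mem_DD.1 t3).1.rich t1 t2 hn0 h1 h2⟩), ← Nat.cast_sum, ← card_sigma, ← nsmul_one,
      ← sum_const]
  refine sum_le_sum fun p _ => ?_
  have := secrets (T.filter (fun t => f t = p)) (fun t => t.2) (fun t => lab r t.1.1) ?_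
  · simpa using this
  rintro lam ⟨⟨K1, Y1⟩, I1⟩ c1 ⟨⟨K2, Y2⟩, I2⟩ c2 l1 l2
  obtain ⟨c1, e1⟩ := mem_filter.1 c1
  obtain ⟨c2, e2⟩ := mem_filter.1 c2
  obtain ⟨t1, t2, t3⟩ := hT _ c1
  obtain ⟨s1, s2, s3⟩ := hT _ c2
  have e := e1.trans e2.symm
  simp only [f, Sigma.mk.injEq, heq_eq_eq] at e
  obtain ⟨e, rfl⟩ := e
  obtain ⟨rfl, rfl⟩ := unique t1 s1 (mem_RA.1 t2).1 (mem_RA.1 s2).1 t3 s3 l1 l2 e
  rfl

end Cla

theorem cla (h : RichStmt) : ClaStmt := by
  obtain ⟨C, hC, h⟩ := h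
  refine ⟨24 * C, by positivity, fun n r hn h1 h2 => ?_⟩
  have a := (h n r hn h1 h2).2.2.1
  have b := Cla.count (α := Fin n) (r := r) (by simpa) (by simpa) (by simpa)
  rw [Fintype.card_fin] at b
  have c := mul_le_mul_of_nonneg_right b (show (0 : ℝ) ≤ n ^ 3 by positivity)
  nlinarith [c, a]

end Pool.Agent.MP_c3fbfc_co.V

end MrgPart1

-- ======== part 2: formerly Pool.Agent.MP_c3fbfc_co.VGirth
section MrgPart2

/-! GIRTH: short dependent or codependent sets are rare. -/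

namespace Pool.Agent.MP_c3fbfc_co.V

open Finset Filter

namespace Girth

variable {α : Type*} [Fintype α] [DecidableEq α] {r : ℕ} {S : Finset α} {x0 : α}

/-- the `r`-sets containing `S` -/
def TT (r : ℕ) (S : Finset α) : Finset (Finset α) := (Vr α r).filter (fun X => S ⊆ X)

/-- the `r`-sets that miss exactly `x0` in `S` -/
def LL (r : ℕ) (S : Finset α) (x0 : α) : Finset (Finset α) :=
  (Vr α r).filter (fun Z => Z ∩ S = S.erase x0)

/-- the `r`-sets that do not miss exactly one other point of `S` -/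
def WW (r : ℕ) (S : Finset α) (x0 : α) : Finset (Finset α) :=
  (Vr α r).filter (fun Z => ∀ x ∈ S, x ≠ x0 → Z ∩ S ≠ S.erase x)

open Classical in
/-- the matroids in which `S` is a circuit -/
noncomputable def AA (r : ℕ) (S : Finset α) : Finset (Finset (Finset α)) :=
  (MM α r).filter (fun K => Dep r K S ∧ ∀ x ∈ S, ¬ Dep r K (S.erase x))

theorem mem_TT {X : Finset α} : X ∈ TT r S ↔ X.card = r ∧ S ⊆ X := by
  simp [TT]

theorem mem_LL {Z : Finset α} : Z ∈ LL r S x0 ↔ Z.card = r ∧ Z ∩ S = S.erase x0 := by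
  simp [LL]

theorem mem_WW {Z : Finset α} :
    Z ∈ WW r S x0 ↔ Z.card = r ∧ ∀ x ∈ S, x ≠ x0 → Z ∩ S ≠ S.erase x := by
  simp [WW]

theorem mem_AA {K : Finset (Finset α)} :
    K ∈ AA r S ↔ K ∈ MM α r ∧ Dep r K S ∧ ∀ x ∈ S, ¬ Dep r K (S.erase x) := by
  simp [AA]

theorem swap {K : Finset (Finset α)} (hK : K ∈ AA r S) {x : α} (hx : x ∈ S) (hx0 : x0 ∈ S)
    {Z Z' : Finset α} (hZ : Z ∈ LL r S x) (hZ' : Z' ∈ LL r S x0) (hU : Z ∪ S = Z' ∪ S) :
    Z ∈ K ↔ Z' ∈ K := by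
  obtain ⟨h1, h2, h3⟩ := mem_AA.1 hK
  obtain ⟨ρ, hρ⟩ := exists_rk h1
  have key : ∀ y ∈ S, ∀ Y ∈ LL r S y, ρ Y = ρ (Y ∪ S) := fun y hy Y hY => by
    have a1 := hρ.rk.submod Y S
    have a2 := hρ.dep_iff.1 h2
    have a3 := mt hρ.dep_iff.2 (h3 y hy)
    have a4 := hρ.rk.mono (subset_union_left : Y ⊆ Y ∪ S)
    have a5 := card_erase_add_one hy
    rw [(mem_LL.1 hY).2] at a1
    omega
  rw [hρ.iff Z (mem_LL.1 hZ).1, hρ.iff Z' (mem_LL.1 hZ').1, key x hx Z hZ, key x0 hx0 Z' hZ', hU]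

theorem LL_subset_WW (hx0 : x0 ∈ S) {Z : Finset α} (hZ : Z ∈ LL r S x0) : Z ∈ WW r S x0 := by
  refine mem_WW.2 ⟨(mem_LL.1 hZ).1, fun x hx hne e => ?_⟩
  rw [(mem_LL.1 hZ).2] at e
  have : x0 ∈ S.erase x := mem_erase.2 ⟨hne.symm, hx0⟩
  rw [← e] at this
  exact notMem_erase _ _ this

theorem det (hx0 : x0 ∈ S) {K K' : Finset (Finset α)} (hK : K ∈ AA r S) (hK' : K' ∈ AA r S)
    (h : K ∩ WW r S x0 = K' ∩ WW r S x0) : K = K' := by
  have hW : ∀ Z ∈ WW r S x0, Z ∈ K ↔ Z ∈ K' := fun Z hZ => by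
    have := Finset.ext_iff.1 h Z
    simpa [hZ] using this
  ext Z
  by_cases hc : Z.card = r
  · by_cases hZ : Z ∈ WW r S x0
    · exact hW Z hZ
    · rw [mem_WW] at hZ
      push Not at hZ
      obtain ⟨x, hx, hne, e⟩ := hZ hc
      have e' := Finset.ext_iff.1 e
      have h0 : x0 ∈ Z := by
        have := (e' x0).2 (mem_erase.2 ⟨hne.symm, hx0⟩)
        exact (mem_inter.1 this).1
      have h1 : x ∉ Z := fun t => notMem_erase x S ((e' x).1 (mem_inter.2 ⟨t, hx⟩))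
      have hZ' : insert x (Z.erase x0) ∈ LL r S x0 := by
        refine mem_LL.2 ⟨(card_sw h0 h1).trans hc, ?_⟩
        ext z
        have := e' z
        simp only [mem_inter, mem_insert, mem_erase] at this ⊢
        constructor
        · rintro ⟨rfl | ⟨a, b⟩, c⟩
          · exact ⟨hne, hx⟩
          · exact ⟨a, c⟩
        · rintro ⟨a, b⟩
          by_cases hz : z = x
          · exact ⟨Or.inl hz, b⟩
          · exact ⟨Or.inr ⟨a, (this.2 ⟨hz, b⟩).1⟩, b⟩
      have hU : Z ∪ S = insert x (Z.erase x0) ∪ S := by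
        ext z
        simp only [mem_union, mem_insert, mem_erase]
        constructor
        · rintro (a | a)
          · by_cases hz : z = x0
            · exact Or.inr (hz ▸ hx0)
            · exact Or.inl (Or.inr ⟨hz, a⟩)
          · exact Or.inr a
        · rintro ((rfl | a) | a)
          · exact Or.inr hx
          · exact Or.inl a.2
          · exact Or.inr a
      have hZL : Z ∈ LL r S x := mem_LL.2 ⟨hc, e⟩
      rw [swap hK hx hx0 hZL hZ' hU, swap hK' hx hx0 hZL hZ' hU]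
      exact hW _ (LL_subset_WW hx0 hZ')
  · exact ⟨fun t => absurd (card_of_MM (mem_AA.1 hK).1 t) hc,
      fun t => absurd (card_of_MM (mem_AA.1 hK').1 t) hc⟩

omit [Fintype α] in
theorem sdiff_one {X Z : Finset α} (hX : X.card = r) (hZ : Z.card = r) (h : sd Z X = 2) :
    (X \ Z).card = 1 := by
  rw [sd_comm, sd_of_card_eq (hX.trans hZ.symm)] at h
  omega

/-- a neighbour in `W` of a point of `T` is in `T` or in `L` -/
theorem nbr {X Z : Finset α} (hX : X ∈ TT r S) (hZ : Z ∈ WW r S x0) (hT : Z ∉ TT r S)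
    (h : sd Z X = 2) : Z ∈ LL r S x0 := by
  obtain ⟨h1, h2⟩ := mem_TT.1 hX
  obtain ⟨h3, h4⟩ := mem_WW.1 hZ
  obtain ⟨a, ha⟩ := card_eq_one.1 (sdiff_one h1 h3 h)
  have ha' := Finset.ext_iff.1 ha
  have h5 : ¬ S ⊆ Z := fun t => hT (mem_TT.2 ⟨h3, t⟩)
  obtain ⟨x, hx, hxZ⟩ := not_subset.1 h5
  have hxa : x = a := by simpa using (ha' x).1 (Finset.mem_sdiff.2 ⟨h2 hx, hxZ⟩)
  have e : Z ∩ S = S.erase x := by
    ext z
    simp only [mem_inter, mem_erase]
    constructor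
    · rintro ⟨b, c⟩
      exact ⟨fun t => hxZ (t ▸ b), c⟩
    · rintro ⟨b, c⟩
      refine ⟨?_, c⟩
      by_contra t
      exact b (by simpa [hxa] using (ha' z).1 (Finset.mem_sdiff.2 ⟨h2 c, t⟩))
  by_cases hx0 : x = x0
  · exact mem_LL.2 ⟨h3, hx0 ▸ e⟩
  · exact absurd e (h4 x hx hx0)

theorem notMem_of_LL (hx0 : x0 ∈ S) {Z : Finset α} (hZ : Z ∈ LL r S x0) : x0 ∉ Z := fun t =>
  notMem_erase x0 S ((mem_LL.1 hZ).2 ▸ mem_inter.2 ⟨t, hx0⟩)

theorem erase_subset_of_adj (hx0 : x0 ∈ S) {X Z : Finset α} (hX : X ∈ TT r S)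
    (hZ : Z ∈ LL r S x0) (h : sd Z X = 2) : X.erase x0 ⊆ Z := by
  obtain ⟨h1, h2⟩ := mem_TT.1 hX
  obtain ⟨a, ha⟩ := card_eq_one.1 (sdiff_one h1 (mem_LL.1 hZ).1 h)
  have ha' := Finset.ext_iff.1 ha
  have h0 : x0 = a := by
    simpa using (ha' x0).1 (Finset.mem_sdiff.2 ⟨h2 hx0, notMem_of_LL hx0 hZ⟩)
  intro z hz
  by_contra t
  exact (mem_erase.1 hz).1
    (by simpa [h0] using (ha' z).1 (Finset.mem_sdiff.2 ⟨(mem_erase.1 hz).2, t⟩))

theorem deg (hx0 : x0 ∈ S) {Z : Finset α} (hZ : Z ∈ LL r S x0) :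
    ((TT r S).filter (fun X => sd Z X = 2)).card = r + 1 - S.card := by
  obtain ⟨h1, h2⟩ := mem_LL.1 hZ
  have h0 := notMem_of_LL hx0 hZ
  have h2' := Finset.ext_iff.1 h2
  have e : (TT r S).filter (fun X => sd Z X = 2) =
      (Z \ S).image (fun a => insert x0 (Z.erase a)) := by
    ext X
    simp only [mem_filter, mem_image, Finset.mem_sdiff]
    constructor
    · rintro ⟨hX, h⟩
      have h3 := erase_subset_of_adj hx0 hX hZ h
      obtain ⟨h4, h5⟩ := mem_TT.1 hX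
      obtain ⟨a, ha⟩ := card_eq_one.1 (sdiff_one h1 h4 (sd_comm Z X ▸ h))
      have ha' := Finset.ext_iff.1 ha
      have h6 : a ∈ Z \ X := ha ▸ mem_singleton_self a
      refine ⟨a, ⟨(Finset.mem_sdiff.1 h6).1, fun t => (Finset.mem_sdiff.1 h6).2 (h5 t)⟩, ?_⟩
      ext z
      simp only [mem_insert, mem_erase]
      constructor
      · rintro (rfl | ⟨b, c⟩)
        · exact h5 hx0
        · by_contra t
          exact b (by simpa using (ha' z).1 (Finset.mem_sdiff.2 ⟨c, t⟩))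
      · intro hz
        by_cases t : z = x0
        · exact Or.inl t
        · exact Or.inr ⟨fun u => (Finset.mem_sdiff.1 h6).2 (u ▸ hz), h3 (mem_erase.2 ⟨t, hz⟩)⟩
    · rintro ⟨a, ⟨ha, haS⟩, rfl⟩
      refine ⟨mem_TT.2 ⟨(card_sw ha h0).trans h1, fun z hz => ?_⟩, ?_⟩
      · by_cases t : z = x0
        · exact t ▸ mem_insert_self _ _
        · exact mem_insert_of_mem (mem_erase.2 ⟨fun u => haS (u ▸ hz),
            (mem_inter.1 ((h2' z).2 (mem_erase.2 ⟨t, hz⟩))).1⟩)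
      · exact (sd_eq_two (card_sw ha h0).symm).2 ⟨a, ha, x0, h0, (tg_tg_eq ha h0).symm⟩
  rw [e, card_image_of_injOn]
  · have a1 := card_sdiff_add_card_inter Z S
    have a2 := card_erase_add_one hx0
    rw [h2] at a1
    omega
  · intro a ha b hb hab
    have ha' := Finset.mem_sdiff.1 (mem_coe.1 ha)
    by_contra t
    have : a ∈ insert x0 (Z.erase b) := mem_insert_of_mem (mem_erase.2 ⟨t, ha'.1⟩)
    rw [← show insert x0 (Z.erase a) = insert x0 (Z.erase b) from hab] at this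
    rcases mem_insert.1 this with u | u
    · exact h0 (u ▸ ha'.1)
    · exact notMem_erase _ _ u

theorem clique (hx0 : x0 ∈ S) {X Z Z' : Finset α} (hX : X ∈ TT r S) (hZ : Z ∈ LL r S x0)
    (hZ' : Z' ∈ LL r S x0) (h : sd Z X = 2) (h' : sd Z' X = 2) : Z = Z' ∨ sd Z Z' = 2 := by
  have key : ∀ Y ∈ LL r S x0, sd Y X = 2 → Y ∈ ln r (X.erase x0) := fun Y hY e => by
    have a1 := erase_subset_of_adj hx0 hX hY e
    have a2 := card_erase_add_one ((mem_TT.1 hX).2 hx0)
    have a3 := card_sdiff_add_card_eq_card a1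
    have a4 := (mem_LL.1 hY).1
    have a5 := (mem_TT.1 hX).1
    refine mem_ln.2 ⟨a4, ?_⟩
    rw [sd_eq, sdiff_eq_empty_iff_subset.2 a1, card_empty]
    omega
  exact ln_clique (key Z hZ h) (key Z' hZ' h')

theorem codeg (hx0 : x0 ∈ S) {Z Z' : Finset α} (hZ : Z ∈ LL r S x0) (hZ' : Z' ∈ LL r S x0)
    (hne : Z ≠ Z') : ((TT r S).filter (fun X => sd Z X = 2 ∧ sd Z' X = 2)).card ≤ 1 := by
  have h1 : (Z ∩ Z').card < r := by
    have a1 := (mem_LL.1 hZ).1
    have a2 := (mem_LL.1 hZ').1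
    by_contra t
    have a3 : Z ∩ Z' = Z := eq_of_subset_of_card_le inter_subset_left (by omega)
    have a4 : Z ∩ Z' = Z' := eq_of_subset_of_card_le inter_subset_right (by omega)
    exact hne (a3.symm.trans a4)
  have key : ∀ X ∈ (TT r S).filter (fun X => sd Z X = 2 ∧ sd Z' X = 2),
      X = insert x0 (Z ∩ Z') := fun X hX => by
    obtain ⟨a1, a2, a3⟩ := mem_filter.1 hX
    have a4 := card_erase_add_one ((mem_TT.1 a1).2 hx0)
    have a5 := (mem_TT.1 a1).1
    have a6 : X.erase x0 = Z ∩ Z' := eq_of_subset_of_card_le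
      (subset_inter (erase_subset_of_adj hx0 a1 hZ a2) (erase_subset_of_adj hx0 a1 hZ' a3))
      (by omega)
    rw [← a6, insert_erase ((mem_TT.1 a1).2 hx0)]
  exact card_le_one.2 fun X hX Y hY => (key X hX).trans (key Y hY).symm

theorem exp_le_two_pow {x : ℝ} {k : ℕ} (h : x ≤ k / 2) : Real.exp x ≤ ((2 ^ k : ℕ) : ℝ) := by
  have h1 : Real.exp (1 / 2) ≤ 2 := by
    have := Real.exp_one_lt_d9
    have h2 : Real.exp (1 / 2) ^ 2 = Real.exp 1 := by rw [← Real.exp_nat_mul]; norm_num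
    nlinarith [Real.exp_pos (1 / 2)]
  calc Real.exp x ≤ Real.exp (k * (1 / 2)) := Real.exp_le_exp.2 (by linarith)
    _ = Real.exp (1 / 2) ^ k := Real.exp_nat_mul _ _
    _ ≤ 2 ^ k := pow_le_pow_left₀ (Real.exp_pos _).le h1 k
    _ = _ := by norm_num

omit [Fintype α] in
theorem stb_union {I Φ : Finset (Finset α)} (hI : Stb I) (hΦ : Stb Φ)
    (h : ∀ Z ∈ I, ∀ X ∈ Φ, sd Z X ≠ 2) : Stb (I ∪ Φ) := by
  intro X hX Y hY
  rcases mem_union.1 hX with a | a <;> rcases mem_union.1 hY with b | b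
  · exact hI X a Y b
  · exact h X a Y b
  · rw [sd_comm]; exact h Y b X a
  · exact hΦ X a Y b

theorem TT_subset : TT r S ⊆ Vr α r := filter_subset _ _

open Classical in
theorem small (hn : 0 < Fintype.card α) (hx0 : x0 ∈ S) :
    (((SS α r).filter (fun I => I ⊆ WW r S x0 \ TT r S ∧
      1000 * ((r + 1 - S.card) * (I ∩ LL r S x0).card) < 999 * (TT r S).card)).card : ℝ) *
      Real.exp ((TT r S).card / (2000 * Fintype.card α)) ≤ (SS α r).card := by
  refine mul_card_le_of_rel _ _ (fun I J => J \ TT r S = I) _ (fun I hI => ?_)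
    (fun I _ I' _ J _ a b => a.symm.trans b)
  obtain ⟨h1, h2, h3⟩ := mem_filter.1 hI
  obtain ⟨h4, h5⟩ := mem_SS.1 h1
  set U := (TT r S).filter (fun X => ∀ Z ∈ I, sd Z X ≠ 2) with hU
  have h6 : TT r S ⊆ U ∪ (I ∩ LL r S x0).biUnion
      (fun Z => (TT r S).filter (fun X => sd Z X = 2)) := fun X hX => by
    by_cases t : X ∈ U
    · exact mem_union_left _ t
    · rw [hU, mem_filter] at t
      push Not at t
      obtain ⟨Z, hZ, e⟩ := t hX
      have := Finset.mem_sdiff.1 (h2 hZ)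
      exact mem_union_right _ (mem_biUnion.2 ⟨Z, mem_inter.2 ⟨hZ, nbr hX this.1 this.2 e⟩,
        mem_filter.2 ⟨hX, e⟩⟩)
  have h7 : (TT r S).card ≤ U.card + (I ∩ LL r S x0).card * (r + 1 - S.card) :=
    (card_le_card h6).trans ((card_union_le _ _).trans (Nat.add_le_add_left
      (card_biUnion_le_card_mul _ _ _ fun Z hZ => (deg hx0 (mem_inter.1 hZ).2).le) _))
  obtain ⟨G, g1, g2, g3⟩ := exists_stb (W := U) ((filter_subset _ _).trans TT_subset) hn
  have g4 : G ⊆ TT r S := g1.trans (filter_subset _ _)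
  have h8 : (TT r S).card ≤ 1000 * (Fintype.card α * G.card) := by
    rw [mul_comm (r + 1 - S.card)] at h3
    omega
  have hn' : (0 : ℝ) < Fintype.card α := by exact_mod_cast hn
  have hd : ∀ Φ ⊆ G, (I ∪ Φ) \ TT r S = I ∧ (I ∪ Φ) ∩ TT r S = Φ := fun Φ hΦ => by
    constructor
    · ext z
      simp only [Finset.mem_sdiff, mem_union]
      exact ⟨fun ⟨a, b⟩ => a.resolve_right fun c => b (g4 (hΦ c)),
        fun a => ⟨Or.inl a, (Finset.mem_sdiff.1 (h2 a)).2⟩⟩
    · ext z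
      simp only [mem_inter, mem_union]
      exact ⟨fun ⟨a, b⟩ => a.resolve_left fun c => (Finset.mem_sdiff.1 (h2 c)).2 b,
        fun a => ⟨Or.inr a, g4 (hΦ a)⟩⟩
  refine (exp_le_two_pow (k := G.card) ?_).trans ?_
  · rw [div_le_div_iff₀ (by positivity) (by positivity)]
    have : ((TT r S).card : ℝ) ≤ 1000 * (Fintype.card α * G.card) := by exact_mod_cast h8
    nlinarith
  · rw [← card_powerset]
    refine Nat.cast_le.2 (card_le_card_of_injOn (fun Φ => I ∪ Φ) (fun Φ hΦ => ?_)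
      (fun Φ hΦ Ψ hΨ e => ?_))
    · have hΦ' := mem_powerset.1 (mem_coe.1 hΦ)
      refine mem_coe.2 (mem_filter.2 ⟨mem_SS.2 ⟨union_subset h4 (hΦ'.trans (g4.trans TT_subset)),
        stb_union h5 (g2.mono hΦ') fun Z hZ X hX => (mem_filter.1 (g1 (hΦ' hX))).2 Z hZ⟩,
        (hd Φ hΦ').1⟩)
    · rw [← (hd Φ (mem_powerset.1 (mem_coe.1 hΦ))).2, ← (hd Ψ (mem_powerset.1 (mem_coe.1 hΨ))).2]
      exact congrArg (· ∩ TT r S) e

open Classical in
theorem large (hn : 0 < Fintype.card α) :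
    (((SS α r).filter (fun I => I ⊆ WW r S x0 \ TT r S ∧
      999 * (TT r S).card ≤ 1000 * ((r + 1 - S.card) * (I ∩ LL r S x0).card))).card : ℝ) *
      Real.exp ((TT r S).card / (2 * Fintype.card α)) ≤ (SS α r).card *
        ((LL r S x0).powerset.filter (fun I => Stb I ∧
          999 * (TT r S).card ≤ 1000 * ((r + 1 - S.card) * I.card))).card := by
  rw [← Nat.cast_mul, ← card_product]
  refine mul_card_le_of_rel _ _ (fun I p => p.1 \ TT r S ∪ p.2 = I) _ (fun I hI => ?_)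
    (fun I _ I' _ J _ a b => a.symm.trans b)
  obtain ⟨h1, h2, h3⟩ := mem_filter.1 hI
  obtain ⟨h4, h5⟩ := mem_SS.1 h1
  obtain ⟨G, g4, g2, g3⟩ := exists_stb (W := TT r S) TT_subset hn
  have hn' : (0 : ℝ) < Fintype.card α := by exact_mod_cast hn
  have hd : ∀ Φ ⊆ G, (I \ LL r S x0 ∪ Φ) \ TT r S = I \ LL r S x0 ∧
      (I \ LL r S x0 ∪ Φ) ∩ TT r S = Φ := fun Φ hΦ => by
    constructor
    · ext z
      rw [Finset.mem_sdiff, mem_union]
      exact ⟨fun ⟨a, b⟩ => a.resolve_right fun c => b (g4 (hΦ c)),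
        fun a => ⟨Or.inl a, (Finset.mem_sdiff.1 (h2 (Finset.mem_sdiff.1 a).1)).2⟩⟩
    · ext z
      rw [mem_inter, mem_union]
      exact ⟨fun ⟨a, b⟩ => a.resolve_left fun c => (Finset.mem_sdiff.1 (h2 (Finset.mem_sdiff.1 c).1)).2 b,
        fun a => ⟨Or.inr a, g4 (hΦ a)⟩⟩
  refine (exp_le_two_pow (k := G.card) ?_).trans ?_
  · rw [div_le_div_iff₀ (by positivity) (by positivity)]
    have : ((TT r S).card : ℝ) ≤ Fintype.card α * G.card := by exact_mod_cast g3
    nlinarith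
  · rw [← card_powerset]
    refine Nat.cast_le.2 (card_le_card_of_injOn (fun Φ => (I \ LL r S x0 ∪ Φ, I ∩ LL r S x0))
      (fun Φ hΦ => ?_) (fun Φ hΦ Ψ hΨ e => ?_))
    · have hΦ' := mem_powerset.1 (mem_coe.1 hΦ)
      refine mem_coe.2 (mem_filter.2 ⟨mem_product.2 ⟨mem_SS.2 ⟨union_subset
        (sdiff_subset.trans h4) (hΦ'.trans (g4.trans TT_subset)),
        stb_union (h5.mono sdiff_subset) (g2.mono hΦ') fun Z hZ X hX e => ?_⟩,
        mem_filter.2 ⟨mem_powerset.2 inter_subset_right, h5.mono inter_subset_left, h3⟩⟩, ?_⟩)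
      · have := Finset.mem_sdiff.1 (h2 (Finset.mem_sdiff.1 hZ).1)
        exact (Finset.mem_sdiff.1 hZ).2 (nbr (g4 (hΦ' hX)) this.1 this.2 e)
      · rw [(hd Φ hΦ').1, sdiff_union_inter]
    · rw [← (hd Φ (mem_powerset.1 (mem_coe.1 hΦ))).2, ← (hd Ψ (mem_powerset.1 (mem_coe.1 hΨ))).2]
      exact congrArg (· ∩ TT r S) (congrArg Prod.fst e)

theorem choose_le : ∀ s n r : ℕ, n + 3 * s ≤ 4 * r → s ≤ r → r ≤ n →
    n.choose r ≤ 4 ^ s * (n - s).choose (r - s)
  | 0, n, r, _, _, _ => by simp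
  | s + 1, n, r, h1, h2, h3 => by
    obtain ⟨r, rfl⟩ : ∃ k, r = k + 1 := ⟨r - 1, by omega⟩
    obtain ⟨n, rfl⟩ : ∃ k, n = k + 1 := ⟨n - 1, by omega⟩
    have a1 := choose_le s n r (by omega) (by omega) (by omega)
    have a2 := Nat.add_one_mul_choose_eq n r
    have a3 : (n + 1).choose (r + 1) ≤ 4 * n.choose r := by
      refine Nat.le_of_mul_le_mul_right ?_ (Nat.succ_pos r)
      rw [← a2]
      nlinarith [Nat.zero_le (n.choose r)]
    rw [Nat.add_sub_add_right, Nat.add_sub_add_right, pow_succ]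
    nlinarith

theorem card_TT (hs : S.card ≤ r) : (TT r S).card = (Fintype.card α - S.card).choose (r - S.card) := by
  rw [← card_compl, ← card_powersetCard]
  refine card_bij (fun X _ => X \ S) (fun X hX => ?_) (fun X hX Y hY e => ?_) (fun Y hY => ?_)
  · obtain ⟨h1, h2⟩ := mem_TT.1 hX
    have := card_sdiff_add_card_eq_card h2
    exact mem_powersetCard.2 ⟨fun z hz => mem_compl.2 (Finset.mem_sdiff.1 hz).2, by omega⟩
  · rw [← sdiff_union_of_subset (mem_TT.1 hX).2, ← sdiff_union_of_subset (mem_TT.1 hY).2]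
    exact congrArg (· ∪ S) e
  · obtain ⟨h1, h2⟩ := mem_powersetCard.1 hY
    have hd : Disjoint Y S := disjoint_left.2 fun z hz => mem_compl.1 (h1 hz)
    refine ⟨Y ∪ S, mem_TT.2 ⟨?_, subset_union_right⟩, ?_⟩
    · rw [card_union_of_disjoint hd]; omega
    · rw [union_sdiff_right, sdiff_eq_self_of_disjoint hd]

theorem gg_le : ∀ᶠ n : ℕ in atTop, 5000 * gg n ≤ n := by
  have h := (tendsto_pow_const_div_const_pow_of_one_lt 1 (r := 64) (by norm_num)).eventually
    (gt_mem_nhds (show (0 : ℝ) < 1 / 5000 by norm_num))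
  obtain ⟨k, hk⟩ := eventually_atTop.1 h
  filter_upwards [eventually_ge_atTop (5000 * k + 1)] with n hn
  by_cases t : gg n ≤ k
  · omega
  · have a1 := hk (gg n) (by omega)
    have a2 : 64 ^ gg n ≤ n := Nat.pow_log_le_self 64 (by omega)
    rw [div_lt_div_iff₀ (by positivity) (by positivity)] at a1
    have a3 : ((5000 * gg n : ℕ) : ℝ) ≤ ((64 ^ gg n : ℕ) : ℝ) := by push_cast; linarith
    exact (Nat.cast_le.1 a3).trans a2

theorem big : ∀ᶠ n : ℕ in atTop,
    100000 * (5 * (n : ℝ) ^ 2) ≤ n.choose (n / 2) / (n * 4 ^ gg n) := by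
  filter_upwards [ev_exp 1000000 5, eventually_ge_atTop 1] with n h hn
  have a1 := two_pow_le_middle n
  have hn' : (1 : ℝ) ≤ n := by exact_mod_cast hn
  have a2 : (4 : ℝ) ^ gg n ≤ n := by
    have : 64 ^ gg n ≤ n := Nat.pow_log_le_self 64 (by omega)
    exact_mod_cast (Nat.pow_le_pow_left (by norm_num) _).trans this
  have a3 : (1 : ℝ) ≤ (19 / 10) ^ n := one_le_pow₀ (by norm_num)
  have a4 : 1000000 * (n : ℝ) ^ 5 ≤ 2 * n * n.choose (n / 2) := by
    have : (0 : ℝ) ≤ n.choose (n / 2) := by positivity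
    have : (0 : ℝ) ≤ 1000000 * (n : ℝ) ^ 5 := by positivity
    nlinarith
  rw [le_div_iff₀ (by positivity)]
  have a5 : 500000 * (n : ℝ) ^ 4 ≤ n.choose (n / 2) := by
    refine le_of_mul_le_mul_left ?_ (show (0 : ℝ) < 2 * n by positivity)
    nlinarith
  have a6 : (0 : ℝ) ≤ (n : ℝ) ^ 3 := by positivity
  nlinarith

open Classical in
theorem main (h1 : CodeStmt) (h2 : CovStmt) : ∀ᶠ n : ℕ in atTop, ∀ r, Win n r →
    ∀ S : Finset (Fin n), S.card ≤ gg n →
      ((AA r S).card : ℝ) * Real.exp (5 * n ^ 2) ≤ 2 * (MM (Fin n) r).card := by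
  filter_upwards [h1 (1 / 100000) (by norm_num), h2 (1 / 100000) (by norm_num), gg_le, big,
    eventually_ge_atTop 24] with n c1 c2 hg hb hn r hr S hS
  obtain ⟨w1, w2, w3⟩ := hr
  rcases S.eq_empty_or_nonempty with rfl | ⟨x0, hx0⟩
  · have : AA r (∅ : Finset (Fin n)) = ∅ := eq_empty_of_forall_notMem fun K hK => by
      obtain ⟨a1, a2, -⟩ := mem_AA.1 hK
      obtain ⟨B, b1, b2⟩ := exists_basis a1
      exact b2 (a2 B (mem_Vr.2 b1) (empty_subset _))
    rw [this]; simp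
  have hn0 : 0 < Fintype.card (Fin n) := by simp; omega
  have hn' : (0 : ℝ) < n := by exact_mod_cast (by omega : 0 < n)
  have d1 := c1 r w1 w2 (AA r S) (fun K hK => (mem_AA.1 hK).1) (WW r S x0) (TT r S)
    (fun K hK K' hK' => det hx0 hK hK')
    (fun K hK X hX => mem_Short.2 ⟨(mem_TT.1 hX).1, S, by omega,
      Or.inl ⟨(mem_AA.1 hK).2.1, (mem_TT.1 hX).2⟩⟩)
  have d2 := c2 r w1 w2 (LL r S x0) (TT r S) (r + 1 - S.card) (filter_subset _ _) (by omega)
    (fun Z hZ => deg hx0 hZ) (fun X hX Z hZ Z' hZ' => clique hx0 hX hZ hZ')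
    (fun Z hZ Z' hZ' => codeg hx0 hZ hZ')
  have d3 := small (r := r) hn0 hx0
  have d4 := large (r := r) (S := S) (x0 := x0) hn0
  have d5 : ((SS (Fin n) r).card : ℝ) ≤ (MM (Fin n) r).card := by
    exact_mod_cast card_SS_le (by omega) (by simp; omega)
  rw [Fintype.card_fin] at d3 d4
  have e1 : n.choose (n / 2) ≤ 24 * (4 ^ gg n * (TT r S).card) := by
    have a1 := choose_le S.card n r (by omega) (by omega) (by omega)
    rw [card_TT (by omega), Fintype.card_fin]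
    exact w3.trans (Nat.mul_le_mul_left _ (a1.trans (Nat.mul_le_mul_right _
      (Nat.pow_le_pow_right (by norm_num) hS))))
  set L : ℝ := n.choose (n / 2) / (n * 4 ^ gg n) with hL
  set t : ℝ := (TT r S).card / n with ht
  have e2 : L ≤ 24 * t := by
    rw [hL, ht, div_le_iff₀ (by positivity)]
    have : (n.choose (n / 2) : ℝ) ≤ 24 * (4 ^ gg n * (TT r S).card) := by exact_mod_cast e1
    refine this.trans (le_of_eq ?_)
    field_simp
  have e3 : (1 / 100000 : ℝ) * n.choose (n / 2) / (n * 4 ^ gg n) = L / 100000 := by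
    rw [hL]; ring
  have e4 : ((TT r S).card : ℝ) / (2000 * n) = t / 2000 := by rw [ht]; field_simp
  have e5 : ((TT r S).card : ℝ) / (2 * n) = t / 2 := by rw [ht]; field_simp
  have e6 : ((TT r S).card : ℝ) / (10 * n) = t / 10 := by rw [ht]; field_simp
  rw [e3] at d1 d2
  rw [e4] at d3
  rw [e5] at d4
  rw [e6] at d2
  have hL0 : 0 ≤ L := by positivity
  set s : ℝ := ((SS (Fin n) r).card : ℝ) with hs
  have hs0 : 0 ≤ s := by positivity
  set a : ℝ := (((SS (Fin n) r).filter (fun I => I ⊆ WW r S x0 \ TT r S ∧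
    1000 * ((r + 1 - S.card) * (I ∩ LL r S x0).card) < 999 * (TT r S).card)).card : ℝ) with ha
  set b : ℝ := (((SS (Fin n) r).filter (fun I => I ⊆ WW r S x0 \ TT r S ∧
    999 * (TT r S).card ≤ 1000 * ((r + 1 - S.card) * (I ∩ LL r S x0).card))).card : ℝ) with hb'
  have f1 : (((SS (Fin n) r).filter (fun I => I ⊆ WW r S x0 \ TT r S)).card : ℝ) ≤ a + b := by
    rw [ha, hb', ← Nat.cast_add]
    refine Nat.cast_le.2 ((card_le_card fun I hI => ?_).trans (card_union_le _ _))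
    obtain ⟨a1, a2⟩ := mem_filter.1 hI
    rw [mem_union, mem_filter, mem_filter]
    exact (lt_or_ge _ _).imp (fun t => ⟨a1, a2, t⟩) fun t => ⟨a1, a2, t⟩
  have f2 : a * Real.exp (L / 50000) ≤ s :=
    (mul_le_mul_of_nonneg_left (Real.exp_le_exp.2 (by linarith)) (by positivity)).trans d3
  have f3 : b * Real.exp (L / 50000) ≤ s := by
    refine le_of_mul_le_mul_right ?_ (Real.exp_pos (t / 10 + L / 100000))
    refine le_trans ?_ (d4.trans (mul_le_mul_of_nonneg_left d2 hs0))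
    rw [mul_assoc, ← Real.exp_add]
    exact mul_le_mul_of_nonneg_left (Real.exp_le_exp.2 (by linarith)) (by positivity)
  calc ((AA r S).card : ℝ) * Real.exp (5 * n ^ 2)
      ≤ Real.exp (L / 100000) * (a + b) * Real.exp (L / 100000) :=
        mul_le_mul (d1.trans (mul_le_mul_of_nonneg_left f1 (Real.exp_pos _).le))
          (Real.exp_le_exp.2 (by linarith)) (Real.exp_pos _).le (by positivity)
    _ = a * Real.exp (L / 50000) + b * Real.exp (L / 50000) := by
        rw [show L / 50000 = L / 100000 + L / 100000 by ring, Real.exp_add]; ring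
    _ ≤ _ := by linarith

theorem exists_min {K : Finset (Finset α)} (hK : K ∈ MM α r) :
    ∀ S : Finset α, Dep r K S → ∃ S' ⊆ S, K ∈ AA r S' := by
  intro S
  induction S using Finset.strongInduction with
  | H S ih =>
    intro h
    by_cases t : ∀ x ∈ S, ¬ Dep r K (S.erase x)
    · exact ⟨S, Subset.rfl, mem_AA.2 ⟨hK, h, t⟩⟩
    · push Not at t
      obtain ⟨x, hx, hd⟩ := t
      obtain ⟨S', a, b⟩ := ih _ (erase_ssubset hx) hd
      exact ⟨S', a.trans (erase_subset _ _), b⟩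

open Classical in
theorem dep (h1 : CodeStmt) (h2 : CovStmt) : ∀ᶠ n : ℕ in atTop, ∀ r, Win n r →
    (((MM (Fin n) r).filter (fun K => ∃ S, S.card ≤ gg n ∧ Dep r K S)).card : ℝ) *
      Real.exp (3 * n ^ 2) * 2 ≤ (MM (Fin n) r).card := by
  filter_upwards [main h1 h2, eventually_ge_atTop 2] with n h hn r hr
  set 𝒮 := (univ : Finset (Finset (Fin n))).filter (fun S => S.card ≤ gg n) with h𝒮
  have a1 : (MM (Fin n) r).filter (fun K => ∃ S, S.card ≤ gg n ∧ Dep r K S) ⊆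
      𝒮.biUnion (AA r) := fun K hK => by
    obtain ⟨b1, S, b2, b3⟩ := mem_filter.1 hK
    obtain ⟨S', b4, b5⟩ := exists_min b1 S b3
    exact mem_biUnion.2 ⟨S', mem_filter.2 ⟨mem_univ _, (card_le_card b4).trans b2⟩, b5⟩
  have a2 : (((MM (Fin n) r).filter (fun K => ∃ S, S.card ≤ gg n ∧ Dep r K S)).card : ℝ) ≤
      ∑ S ∈ 𝒮, ((AA r S).card : ℝ) := by
    exact_mod_cast (card_le_card a1).trans card_biUnion_le
  have a3 : (𝒮.card : ℝ) ≤ 2 ^ n := by
    have := card_le_univ 𝒮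
    rw [Fintype.card_finset, Fintype.card_fin] at this
    exact_mod_cast this
  have a4 : (∑ S ∈ 𝒮, ((AA r S).card : ℝ)) * Real.exp (5 * n ^ 2) ≤
      2 ^ n * (2 * (MM (Fin n) r).card) := by
    rw [sum_mul]
    refine (sum_le_card_nsmul _ _ _ fun S hS => h r hr S (mem_filter.1 hS).2).trans ?_
    rw [nsmul_eq_mul]
    exact mul_le_mul_of_nonneg_right a3 (by positivity)
  have a5 : (2 : ℝ) ^ (n + 2) ≤ Real.exp (2 * n ^ 2) := by
    have b1 : (2 : ℝ) ≤ Real.exp 1 := by have := Real.add_one_le_exp 1; linarith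
    have b2 : (2 : ℝ) ≤ n := by exact_mod_cast hn
    calc (2 : ℝ) ^ (n + 2) ≤ Real.exp 1 ^ (n + 2) := pow_le_pow_left₀ (by norm_num) b1 _
      _ = Real.exp ((n + 2 : ℕ) * 1) := (Real.exp_nat_mul _ _).symm
      _ ≤ _ := Real.exp_le_exp.2 (by push_cast; nlinarith)
  refine le_of_mul_le_mul_left ?_ (show (0 : ℝ) < 2 ^ n * 2 by positivity)
  refine le_trans ?_ ((a4.trans_eq (mul_assoc _ _ _).symm))
  refine le_trans ?_ (mul_le_mul_of_nonneg_right a2 (Real.exp_pos _).le)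
  rw [show (5 : ℝ) * n ^ 2 = 3 * n ^ 2 + 2 * n ^ 2 by ring, Real.exp_add,
    ← mul_assoc _ (Real.exp _) (Real.exp _)]
  refine le_trans (le_of_eq ?_) (mul_le_mul_of_nonneg_left a5 (by positivity))
  ring

theorem dual_inj :
    Function.Injective fun K : Finset (Finset α) => K.image (fun X : Finset α => Xᶜ) :=
  image_injective compl_injective

end Girth

open Classical in
theorem girth (h1 : CodeStmt) (h2 : CovStmt) : GirthStmt := by
  filter_upwards [Girth.dep h1 h2] with n h r hr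
  have hrn : r ≤ n := by have := hr.2.1; omega
  have hr' : Win n (n - r) := by
    obtain ⟨w1, w2, w3⟩ := hr
    exact ⟨by omega, by omega, by rwa [Nat.choose_symm hrn]⟩
  have a1 := h r hr
  have a2 := h _ hr'
  have a3 : (MM (Fin n) (n - r)).card ≤ (MM (Fin n) r).card :=
    card_le_card_of_injOn _ (fun K hK => by
      have := dual_mem_MM (mem_coe.1 hK)
      rwa [Fintype.card_fin, Nat.sub_sub_self hrn] at this) Girth.dual_inj.injOn
  have a4 : ((MM (Fin n) r).filter (fun K => ∃ S, S.card ≤ gg n ∧ Cod r K S)).card ≤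
      ((MM (Fin n) (n - r)).filter (fun K => ∃ S, S.card ≤ gg n ∧ Dep (n - r) K S)).card := by
    refine card_le_card_of_injOn _ (fun K hK => ?_) Girth.dual_inj.injOn
    obtain ⟨b1, S, b2, b3⟩ := mem_filter.1 (mem_coe.1 hK)
    refine mem_coe.2 (mem_filter.2 ⟨by simpa using dual_mem_MM b1, S, b2, fun X hX hS => ?_⟩)
    refine mem_image.2 ⟨Xᶜ, b3 _ (mem_Vr.2 ?_) (disjoint_left.2 fun z hz t =>
      mem_compl.1 t (hS hz)), compl_compl X⟩
    rw [card_compl, mem_Vr.1 hX, Fintype.card_fin]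
    omega
  have a5 : ((MM (Fin n) r).filter (fun K => Short r K (gg n) ≠ ∅)).card ≤
      ((MM (Fin n) r).filter (fun K => ∃ S, S.card ≤ gg n ∧ Dep r K S)).card +
      ((MM (Fin n) r).filter (fun K => ∃ S, S.card ≤ gg n ∧ Cod r K S)).card := by
    refine (card_le_card fun K hK => ?_).trans (card_union_le _ _)
    obtain ⟨b1, b2⟩ := mem_filter.1 hK
    obtain ⟨X, hX⟩ := nonempty_iff_ne_empty.2 b2
    obtain ⟨-, S, b3, b4⟩ := mem_Short.1 hX
    rw [mem_union, mem_filter, mem_filter]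
    exact b4.imp (fun t => ⟨b1, S, b3, t.1⟩) fun t => ⟨b1, S, b3, t.1⟩
  have a6 : (((MM (Fin n) r).filter (fun K => Short r K (gg n) ≠ ∅)).card : ℝ) ≤
      ((MM (Fin n) r).filter (fun K => ∃ S, S.card ≤ gg n ∧ Dep r K S)).card +
      ((MM (Fin n) (n - r)).filter (fun K => ∃ S, S.card ≤ gg n ∧ Dep (n - r) K S)).card := by
    exact_mod_cast a5.trans (Nat.add_le_add_left a4 _)
  have a7 : ((MM (Fin n) (n - r)).card : ℝ) ≤ (MM (Fin n) r).card := by exact_mod_cast a3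
  have a8 := mul_le_mul_of_nonneg_right a6 (Real.exp_pos (3 * n ^ 2)).le
  rw [add_mul] at a8
  linarith

end Pool.Agent.MP_c3fbfc_co.V

end MrgPart2

-- ======== part 3: formerly Pool.Agent.MP_c3fbfc_co.VSite1
section MrgPart3

/-! SITE, part 1: degrees of a stable family at a given distance. -/

namespace Pool.Agent.MP_c3fbfc_co.V.SiteM

open Finset
open scoped symmDiff

variable {α : Type*} [Fintype α] [DecidableEq α]

/-- the number of members of `U` at distance `d` from `Y` -/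
def dg (U : Finset (Finset α)) (d : ℕ) (Y : Finset α) : ℕ := (U.filter fun H => sd H Y = d).card

theorem dc {β γ : Type*} (A : Finset β) (B : Finset γ) (R : β → γ → Prop)
    [∀ a b, Decidable (R a b)] :
    ∑ a ∈ A, (B.filter fun b => R a b).card = ∑ b ∈ B, (A.filter fun a => R a b).card := by
  simp only [card_filter]
  exact sum_comm

theorem dc3 {β γ δ : Type*} (X : Finset β) (Y : Finset γ) (Z : Finset δ) (R : β → γ → δ → Prop)
    [∀ a b c, Decidable (R a b c)] :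
    ∑ y ∈ Y, ∑ z ∈ Z, (X.filter fun x => R x y z).card
      = ∑ x ∈ X, ∑ y ∈ Y, (Z.filter fun z => R x y z).card := by
  rw [sum_comm (s := X)]
  exact sum_congr rfl fun y _ => dc Z X fun z x => R x y z

theorem thr {r : ℕ} {U : Finset (Finset α)} (hU : U ∈ SS α r) (Y : Finset α) (x : α) (e : ℕ) :
    (U.filter fun H => sd H Y = e + 2 ∧ x ∈ H ∆ Y).card ≤ Fintype.card α ^ e := by
  obtain ⟨hV, hS⟩ := mem_SS.1 hU
  have h : ∀ H : Finset α, ∃ y, sd H Y = e + 2 ∧ x ∈ H ∆ Y → y ∈ (H ∆ Y).erase x := by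
    intro H
    by_cases h : sd H Y = e + 2 ∧ x ∈ H ∆ Y
    · have h1 : 0 < ((H ∆ Y).erase x).card := by
        rw [card_erase_of_mem h.2]
        have := h.1
        unfold sd at this
        omega
      obtain ⟨y, hy⟩ := card_pos.1 h1
      exact ⟨y, fun _ => hy⟩
    · exact ⟨x, fun h' => absurd h' h⟩
  choose y hy using h
  refine le_trans (card_le_card_of_injOn (t := powersetCard e univ)
    (fun H => ((H ∆ Y).erase x).erase (y H)) (fun H hH => ?_) fun H hH H' hH' he => ?_) ?_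
  · have h1 := (mem_filter.1 hH).2
    rw [mem_coe, mem_powersetCard_univ, card_erase_of_mem (hy H h1), card_erase_of_mem h1.2]
    have := h1.1
    unfold sd at this
    omega
  · obtain ⟨hHU, h1⟩ := mem_filter.1 hH
    obtain ⟨hHU', h2⟩ := mem_filter.1 hH'
    have h3 : H ∆ H' ⊆ {y H, y H'} := by
      intro z hz
      by_contra hn
      have h4 : z ≠ y H ∧ z ≠ y H' := by simpa using hn
      have h5 := Finset.ext_iff.1 he z
      have h6 := h1.2
      have h7 := h2.2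
      simp only [mem_erase, mem_symmDiff] at h5 h6 h7 hz
      by_cases hx : z = x
      · subst hx
        tauto
      · tauto
    have h4 : sd H H' ≤ 2 := (card_le_card h3).trans card_le_two
    rcases (sd_le_two (by rw [mem_Vr.1 (hV hHU), mem_Vr.1 (hV hHU')])).1 h4 with h | h
    · exact h
    · exact absurd h (hS H hHU H' hHU')
  · rw [card_powersetCard, card_univ]
    exact Nat.choose_le_pow _ _

theorem avoid {r : ℕ} {U : Finset (Finset α)} (hU : U ∈ SS α r) (Y F : Finset α) (e : ℕ) :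
    dg U (e + 2) Y ≤ (U.filter fun H => sd H Y = e + 2 ∧ Disjoint (H ∆ Y) F).card
      + F.card * Fintype.card α ^ e := by
  have h1 : U.filter (fun H => sd H Y = e + 2) ⊆
      (U.filter fun H => sd H Y = e + 2 ∧ Disjoint (H ∆ Y) F) ∪
        F.biUnion fun x => U.filter fun H => sd H Y = e + 2 ∧ x ∈ H ∆ Y := by
    intro H hH
    obtain ⟨h1, h2⟩ := mem_filter.1 hH
    by_cases h : Disjoint (H ∆ Y) F
    · exact mem_union_left _ (mem_filter.2 ⟨h1, h2, h⟩)
    · obtain ⟨x, hx, hx'⟩ := not_disjoint_iff.1 h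
      exact mem_union_right _ (mem_biUnion.2 ⟨x, hx', mem_filter.2 ⟨h1, h2, hx⟩⟩)
  refine (card_le_card h1).trans ((card_union_le _ _).trans (Nat.add_le_add_left ?_ _))
  exact card_biUnion_le_card_mul _ _ _ fun x _ => thr hU Y x e

theorem lift (U : Finset (Finset α)) (W : Finset α) (s k : ℕ) :
    ∑ B ∈ powersetCard s W, (U.filter fun H => sd H (W \ B) = k ∧ Disjoint (H ∆ (W \ B)) B).card
      ≤ dg U (k + s) W * 2 ^ (k + s) := by
  rw [dc, dg, card_filter, sum_mul]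
  refine sum_le_sum fun H _ => ?_
  have key : ∀ B ∈ (powersetCard s W).filter
      fun B => sd H (W \ B) = k ∧ Disjoint (H ∆ (W \ B)) B, sd H W = k + s ∧ B ⊆ H ∆ W := by
    intro B hB
    obtain ⟨h1, h2, h3⟩ := mem_filter.1 hB
    obtain ⟨h4, h5⟩ := mem_powersetCard.1 h1
    have h6 : H ∆ W = H ∆ (W \ B) ∪ B := by
      ext z
      have a1 := @h4 z
      have a2 : z ∈ H ∆ (W \ B) → z ∉ B := fun h => disjoint_left.1 h3 h
      simp only [mem_symmDiff, mem_union, mem_sdiff] at a2 ⊢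
      tauto
    refine ⟨?_, h6 ▸ subset_union_right⟩
    rw [sd, h6, card_union_of_disjoint h3, h5, ← h2, sd]
  split_ifs with h
  · rw [one_mul, ← h, sd, ← card_powerset]
    exact card_le_card fun B hB => mem_powerset.2 (key B hB).2
  · rw [zero_mul, Nat.le_zero, card_eq_zero]
    exact eq_empty_of_forall_notMem fun B hB => h (key B hB).1

theorem badtr (U : Finset (Finset α)) (w d s : ℕ) {θ : ℝ} (hθ : 0 ≤ θ) :
    ((∑ W ∈ Vr α w, ∑ H ∈ U, (univ.filter fun B : Finset α => sd H W = d ∧ B ⊆ W ∩ H ∧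
      B.card = s ∧ (dg U (d + s) (W \ B) : ℝ) < θ).card : ℕ) : ℝ)
      ≤ (Fintype.card α).choose (w - s) * (θ * 2 ^ (d + s)) := by
  rw [← dc3]
  have h1 : ∀ H ∈ U, ∀ B ∈ (univ : Finset (Finset α)),
      ((Vr α w).filter fun W => sd H W = d ∧ B ⊆ W ∩ H ∧ B.card = s ∧
        (dg U (d + s) (W \ B) : ℝ) < θ).card ≤ ((Vr α (w - s)).filter fun Y =>
          sd H Y = d + s ∧ B ⊆ H ∆ Y ∧ (dg U (d + s) Y : ℝ) < θ).card := by
    intro H _ B _
    refine card_le_card_of_injOn (fun W => W \ B) (fun W hW => ?_) fun W hW W' hW' he => ?_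
    · obtain ⟨h1, h2, h3, h4, h5⟩ := mem_filter.1 hW
      have h6 : H ∆ (W \ B) = H ∆ W ∪ B := by
        ext z
        have a1 := @h3 z
        simp only [mem_symmDiff, mem_union, mem_sdiff, mem_inter] at a1 ⊢
        tauto
      have h7 : Disjoint (H ∆ W) B := disjoint_left.2 fun z hz hz' => by
        have a1 := h3 hz'
        simp only [mem_symmDiff, mem_inter] at a1 hz
        tauto
      refine mem_filter.2 ⟨mem_Vr.2 ?_, ?_, h6 ▸ subset_union_right, h5⟩
      · rw [card_sdiff_of_subset (h3.trans inter_subset_left), mem_Vr.1 h1, h4]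
      · rw [sd, h6, card_union_of_disjoint h7, h4, ← h2, sd]
    · have h1 := (mem_filter.1 hW).2.2.1.trans inter_subset_left
      have h2 := (mem_filter.1 hW').2.2.1.trans inter_subset_left
      rw [← sdiff_union_of_subset h1, ← sdiff_union_of_subset h2]
      exact congrArg (· ∪ B) he
  have h2 := sum_le_sum fun H hH => sum_le_sum (h1 H hH)
  rw [dc3 (Vr α (w - s))] at h2
  refine (Nat.cast_le.2 h2).trans ?_
  rw [← card_Vr, Nat.cast_sum, ← nsmul_eq_mul]
  refine sum_le_card_nsmul _ _ _ fun Y _ => ?_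
  by_cases h : (dg U (d + s) Y : ℝ) < θ
  · refine le_trans ?_ (mul_le_mul_of_nonneg_right h.le (by positivity))
    have h4 : ∑ H ∈ U, (univ.filter fun B : Finset α => sd H Y = d + s ∧ B ⊆ H ∆ Y ∧
        (dg U (d + s) Y : ℝ) < θ).card ≤ (U.filter fun H => sd H Y = d + s).card * 2 ^ (d + s) := by
      rw [card_filter (fun H => sd H Y = d + s), sum_mul]
      refine sum_le_sum fun H _ => ?_
      split_ifs with h'
      · rw [one_mul, ← h', sd, ← card_powerset]
        exact card_le_card fun B hB => mem_powerset.2 (mem_filter.1 hB).2.2.1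
      · simp [h']
    exact_mod_cast h4
  · simp only [h, and_false, filter_false, card_empty, sum_const_zero, Nat.cast_zero]
    positivity

/-- The finite form of the degree lemma. -/
theorem deg_fin {r : ℕ} {U : Finset (Finset α)} (hU : U ∈ SS α r) (w d s e : ℕ)
    (he : d + s = e + 2) {θ κ : ℝ} (hθ : 0 < θ) (hs : 2 * (s * (Fintype.card α : ℝ) ^ e) ≤ θ)
    (hκ : ∀ W ∈ Vr α w, ∀ H ∈ U, sd H W = d → κ ≤ (W ∩ H).card.choose s)
    (𝓑 : Finset (Finset α)) (h𝓑 : 𝓑 ⊆ Vr α w)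
    (hb : ∀ W ∈ 𝓑, (dg U (d + s + s) W : ℝ) * 2 ^ (d + s + s) * 4 ≤ θ * κ) :
    (∑ W ∈ 𝓑, (dg U d W : ℝ)) * (κ / 2)
      ≤ (Fintype.card α).choose (w - s) * (θ * 2 ^ (d + s)) := by
  refine le_trans ?_ (badtr U w d s hθ.le)
  rw [Nat.cast_sum, sum_mul]
  refine le_trans (sum_le_sum fun W hW => ?_)
    (sum_le_sum_of_subset_of_nonneg h𝓑 fun _ _ _ => Nat.cast_nonneg _)
  set G := (powersetCard s W).filter fun B => θ ≤ (dg U (d + s) (W \ B) : ℝ) with hG
  have h1 : (G.card : ℝ) * (θ / 2) ≤ dg U (d + s + s) W * 2 ^ (d + s + s) := by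
    have h2 := lift U W s (d + s)
    have h3 : (G.card : ℝ) * (θ / 2) ≤ ∑ B ∈ G, ((U.filter fun H => sd H (W \ B) = d + s ∧
        Disjoint (H ∆ (W \ B)) B).card : ℝ) := by
      rw [← nsmul_eq_mul]
      refine card_nsmul_le_sum _ _ _ fun B hB => ?_
      obtain ⟨h4, h5⟩ := mem_filter.1 hB
      have h6 := avoid hU (W \ B) B e
      rw [(mem_powersetCard.1 h4).2, ← he] at h6
      have h7 := (Nat.cast_le (α := ℝ)).2 h6
      push_cast at h7
      linarith
    refine h3.trans (le_trans (sum_le_sum_of_subset_of_nonneg (filter_subset _ _)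
      fun _ _ _ => Nat.cast_nonneg _) ?_)
    exact_mod_cast h2
  have h2 : (G.card : ℝ) ≤ κ / 2 := by
    have := hb W hW
    refine le_of_mul_le_mul_right ?_ hθ
    linarith
  rw [dg, card_filter, Nat.cast_sum, sum_mul, Nat.cast_sum]
  refine sum_le_sum fun H hH => ?_
  split_ifs with h
  · have h3 : powersetCard s (W ∩ H) ⊆ (univ.filter fun B : Finset α => sd H W = d ∧
        B ⊆ W ∩ H ∧ B.card = s ∧ (dg U (d + s) (W \ B) : ℝ) < θ) ∪ G := by
      intro B hB
      obtain ⟨h4, h5⟩ := mem_powersetCard.1 hB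
      by_cases h6 : (dg U (d + s) (W \ B) : ℝ) < θ
      · exact mem_union_left _ (mem_filter.2 ⟨mem_univ _, h, h4, h5, h6⟩)
      · exact mem_union_right _ (mem_filter.2
          ⟨mem_powersetCard.2 ⟨h4.trans inter_subset_left, h5⟩, not_lt.1 h6⟩)
    have h4 := (Nat.cast_le (α := ℝ)).2 ((card_le_card h3).trans (card_union_le _ _))
    rw [card_powersetCard, Nat.cast_add] at h4
    have h5 := hκ W (h𝓑 hW) H hH h
    rw [Nat.cast_one, one_mul]
    linarith
  · simp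

theorem choose_up {n r : ℕ} (h : n ≤ 3 * r) (t : ℕ) : n.choose (r + t) ≤ 2 ^ t * n.choose r := by
  induction t with
  | zero => simp
  | succ t ih =>
    have := choose_succ_le (n := n) (r := r + t) (by omega)
    rw [← add_assoc, pow_succ]
    nlinarith

theorem choose_down {n r : ℕ} (h : 3 * r ≤ 2 * n) (t : ℕ) :
    n.choose (r - t) ≤ 2 ^ t * n.choose r := by
  induction t with
  | zero => simp
  | succ t ih =>
    have := choose_pred_le (n := n) (r := r - t) (by omega)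
    rw [← Nat.sub_sub, pow_succ]
    nlinarith

theorem choose_near {n r w t : ℕ} (h1 : n ≤ 3 * r) (h2 : 3 * r ≤ 2 * n) (h3 : w ≤ r + t)
    (h4 : r ≤ w + t) : n.choose w ≤ 2 ^ t * n.choose r := by
  rcases le_total r w with h | h
  · obtain ⟨k, rfl⟩ := Nat.exists_eq_add_of_le h
    exact (choose_up h1 k).trans
      (Nat.mul_le_mul_right _ (Nat.pow_le_pow_right two_pos (by omega)))
  · rw [show w = r - (r - w) by omega]
    exact (choose_down h2 _).trans
      (Nat.mul_le_mul_right _ (Nat.pow_le_pow_right two_pos (by omega)))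

theorem le_choose {n m s : ℕ} (h : n + 4 * s ≤ 4 * m) :
    (n : ℝ) ^ s / (4 ^ s * s.factorial) ≤ m.choose s := by
  refine le_trans ?_ (Nat.pow_le_choose (α := ℝ) s m)
  rw [← div_div, ← div_pow]
  refine div_le_div_of_nonneg_right (pow_le_pow_left₀ (by positivity) ?_ s) (by positivity)
  rw [div_le_iff₀ (by norm_num)]
  exact_mod_cast (by omega : n ≤ (m + 1 - s) * 4)

/-- Few pairs have a centre of small degree at distance `a + b + 2 s`. -/
theorem deg_ev (a b s : ℕ) (h2 : 2 ≤ a + b + s) {δ : ℝ} (hδ : 0 < δ) :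
    ∃ γ : ℝ, 0 < γ ∧ ∀ᶠ n : ℕ in Filter.atTop, ∀ r w, n ≤ 3 * r → 3 * r ≤ 2 * n → w + a = r + b →
      ∀ U ∈ SS (Fin n) r, (∑ W ∈ (Vr (Fin n) w).filter (fun W =>
        (dg U (a + b + s + s) W : ℝ) * n < γ * n ^ (a + b + s + s)), (dg U (a + b) W : ℝ)) * n
          ≤ δ * n.choose r * n ^ (a + b) := by
  obtain ⟨e, he⟩ : ∃ e, a + b + s = e + 2 := ⟨a + b + s - 2, by omega⟩
  set q : ℝ := 4 ^ s * s.factorial with hq
  have hq0 : 0 < q := by positivity
  set ε : ℝ := δ / (2 * 2 ^ (a + b + s) * 2 ^ (a + b + s) * q) with hε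
  have hε0 : 0 < ε := by positivity
  refine ⟨ε / (q * 2 ^ (a + b + s + s) * 4), by positivity, ?_⟩
  filter_upwards [Filter.eventually_ge_atTop (12 * (a + s) + 1),
    tendsto_natCast_atTop_atTop.eventually_ge_atTop (2 * s / ε)] with n hn hn' r w h3 h4 h5 U hU
  have hn0 : (0 : ℝ) < n := by exact_mod_cast (by omega : 0 < n)
  have hV := (mem_SS.1 hU).1
  have key := deg_fin hU w (a + b) s e he (θ := ε * n ^ (e + 1)) (κ := n ^ s / q) (by positivity)
    (by
      rw [Fintype.card_fin, div_le_iff₀ hε0] at *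
      have : (0 : ℝ) < n ^ e := by positivity
      rw [pow_succ]
      nlinarith)
    (fun W hW H hH h => le_choose (by
      have b1 := card_add_sdiff W H
      have b2 := sd_eq H W
      have b3 := card_sdiff_add_card_inter H W
      rw [inter_comm] at b3
      rw [mem_Vr.1 hW, mem_Vr.1 (hV hH)] at *
      omega)) ((Vr (Fin n) w).filter (fun W => (dg U (a + b + s + s) W : ℝ) * n <
        ε / (q * 2 ^ (a + b + s + s) * 4) * n ^ (a + b + s + s))) (filter_subset _ _)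
    fun W hW => by
      have b1 := (mem_filter.1 hW).2
      refine le_of_mul_le_mul_right ?_ hn0
      have b2 : ε / (q * 2 ^ (a + b + s + s) * 4) * (n : ℝ) ^ (a + b + s + s)
          * (2 ^ (a + b + s + s) * 4) = ε * n ^ (e + 1) * (n ^ s / q) * n := by
        rw [he]
        field_simp
        ring
      rw [← b2]
      have : (0 : ℝ) < 2 ^ (a + b + s + s) * 4 := by positivity
      nlinarith
  rw [Fintype.card_fin] at key
  have h6 : (n.choose (w - s) : ℝ) ≤ 2 ^ (a + b + s) * n.choose r := by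
    exact_mod_cast choose_near h3 h4 (by omega) (by omega)
  have h7 := key.trans (mul_le_mul_of_nonneg_right h6 (by positivity))
  refine le_of_mul_le_mul_right ?_ (show (0 : ℝ) < n ^ s / q / 2 by positivity)
  have h8 : δ * n.choose r * (n : ℝ) ^ (a + b) * (n ^ s / q / 2)
      = 2 ^ (a + b + s) * n.choose r * (ε * n ^ (e + 1) * 2 ^ (a + b + s)) * n := by
    have : (n : ℝ) ^ (a + b) * n ^ s = n ^ (e + 1) * n := by rw [← pow_add, he, pow_succ]
    rw [hε]
    field_simp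
    rw [mul_assoc, this]
    ring
  rw [h8, mul_right_comm]
  exact mul_le_mul_of_nonneg_right h7 hn0.le

/-- The total number of pairs. -/
theorem pairs {r w a b : ℕ} {U : Finset (Finset α)} (hU : U ⊆ Vr α r) (h : w + a = r + b) :
    U.card * (r.choose a * (Fintype.card α - r).choose b) ≤ ∑ W ∈ Vr α w, dg U (a + b) W := by
  unfold dg
  rw [dc, ← smul_eq_mul]
  refine card_nsmul_le_sum _ _ _ fun H hH => ?_
  have hH' := mem_Vr.1 (hU hH)
  rw [← hH', ← card_compl, ← card_powersetCard, ← card_powersetCard, ← card_product]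
  refine card_le_card_of_injOn (fun p => H \ p.1 ∪ p.2) (fun p hp => ?_) fun p hp p' hp' he => ?_
  · obtain ⟨h1, h2⟩ := mem_product.1 hp
    obtain ⟨h3, h4⟩ := mem_powersetCard.1 h1
    obtain ⟨h5, h6⟩ := mem_powersetCard.1 h2
    have h7 : ∀ z ∈ p.2, z ∉ H := fun z hz => mem_compl.1 (h5 hz)
    have h8 : H ∆ (H \ p.1 ∪ p.2) = p.1 ∪ p.2 := by
      ext z
      have a1 := @h3 z
      have a2 := h7 z
      simp only [mem_symmDiff, mem_union, mem_sdiff]
      tauto
    have h9 := card_le_card h3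
    refine mem_filter.2 ⟨mem_Vr.2 ?_, ?_⟩
    · rw [card_union_of_disjoint (disjoint_left.2 fun z hz hz' => h7 z hz' (mem_sdiff.1 hz).1),
        card_sdiff_of_subset h3]
      omega
    · rw [sd, h8, card_union_of_disjoint (disjoint_left.2 fun z hz hz' => h7 z hz' (h3 hz)), h4, h6]
  · obtain ⟨h1, h2⟩ := mem_product.1 hp
    obtain ⟨h3, h4⟩ := mem_product.1 hp'
    have key : ∀ z, (z ∈ p.1 ↔ z ∈ p'.1) ∧ (z ∈ p.2 ↔ z ∈ p'.2) := fun z => by
      have a1 := @(mem_powersetCard.1 h1).1 z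
      have a2 := @(mem_powersetCard.1 h2).1 z
      have a3 := @(mem_powersetCard.1 h3).1 z
      have a4 := @(mem_powersetCard.1 h4).1 z
      have a5 := Finset.ext_iff.1 he z
      simp only [mem_union, mem_sdiff, mem_compl] at a2 a4 a5
      tauto
    exact Prod.ext (Finset.ext fun z => (key z).1) (Finset.ext fun z => (key z).2)

end Pool.Agent.MP_c3fbfc_co.V.SiteM

end MrgPart3

-- ======== part 4: formerly Pool.Agent.MP_c3fbfc_co.VSite2
section MrgPart4

/-! SITE, part 2: counting embeddings block by block. -/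

namespace Pool.Agent.MP_c3fbfc_co.V.SiteM

open Finset
open scoped symmDiff

variable {α T : Type*} [Fintype α] [DecidableEq α] [Fintype T] [DecidableEq T]

/-- a set of maps described by the values on `A`, injective there and respecting the sides -/
structure Cyl (W : Finset α) (Z A : Finset T) (S : Finset (T → α)) : Prop where
  dep : ∀ f ∈ S, ∀ g : T → α, (∀ t ∈ A, g t = f t) → g ∈ S
  inj : ∀ f ∈ S, Set.InjOn f A
  side : ∀ f ∈ S, ∀ t ∈ A, (f t ∈ W ↔ t ∈ Z)

theorem bij [Nonempty α] (W : Finset α) (Z m : Finset T) (M : Finset α)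
    (h1 : (M ∩ W).card = (m ∩ Z).card) (h2 : (M \ W).card = (m \ Z).card) :
    ∃ β : T → α, Set.InjOn β m ∧ m.image β = M ∧ ∀ t ∈ m, (β t ∈ W ↔ t ∈ Z) := by
  obtain ⟨f, hf⟩ := (m ∩ Z).finite_toSet.exists_bijOn_of_encard_eq (t := ((M ∩ W : Finset α) : Set α))
    (by rw [Set.encard_coe_eq_coe_finsetCard, Set.encard_coe_eq_coe_finsetCard, h1])
  obtain ⟨g, hg⟩ := (m \ Z).finite_toSet.exists_bijOn_of_encard_eq (t := ((M \ W : Finset α) : Set α))
    (by rw [Set.encard_coe_eq_coe_finsetCard, Set.encard_coe_eq_coe_finsetCard, h2])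
  have a1 : ∀ t ∈ m, t ∈ Z → f t ∈ M ∧ f t ∈ W := fun t ht hz =>
    mem_inter.1 (hf.mapsTo (mem_coe.2 (mem_inter.2 ⟨ht, hz⟩)))
  have a2 : ∀ t ∈ m, t ∉ Z → g t ∈ M ∧ g t ∉ W := fun t ht hz =>
    mem_sdiff.1 (hg.mapsTo (mem_coe.2 (mem_sdiff.2 ⟨ht, hz⟩)))
  refine ⟨fun t => if t ∈ Z then f t else g t, fun s hs t ht he => ?_, ?_, fun t ht => ?_⟩
  · by_cases hs' : s ∈ Z <;> by_cases ht' : t ∈ Z <;> simp only [hs', ht', if_true, if_false] at he
    · exact hf.injOn (mem_coe.2 (mem_inter.2 ⟨hs, hs'⟩)) (mem_coe.2 (mem_inter.2 ⟨ht, ht'⟩)) he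
    · exact absurd (he ▸ (a1 s hs hs').2) (a2 t ht ht').2
    · exact absurd (he ▸ (a1 t ht ht').2) (a2 s hs hs').2
    · exact hg.injOn (mem_coe.2 (mem_sdiff.2 ⟨hs, hs'⟩)) (mem_coe.2 (mem_sdiff.2 ⟨ht, ht'⟩)) he
  · ext x
    rw [mem_image]
    constructor
    · rintro ⟨t, ht, rfl⟩
      split_ifs with h
      · exact (a1 t ht h).1
      · exact (a2 t ht h).1
    · intro hx
      by_cases h : x ∈ W
      · obtain ⟨t, ht, rfl⟩ := hf.surjOn (mem_coe.2 (mem_inter.2 ⟨hx, h⟩))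
        exact ⟨t, (mem_inter.1 ht).1, if_pos (mem_inter.1 ht).2⟩
      · obtain ⟨t, ht, rfl⟩ := hg.surjOn (mem_coe.2 (mem_sdiff.2 ⟨hx, h⟩))
        exact ⟨t, (mem_sdiff.1 ht).1, if_neg (mem_sdiff.1 ht).2⟩
  · by_cases h : t ∈ Z
    · simp only [h, if_true, iff_true]
      exact (a1 t ht h).2
    · simp only [h, if_false, iff_false]
      exact (a2 t ht h).2

theorem step [Nonempty α] {W : Finset α} {Z A : Finset T} {S : Finset (T → α)}
    (hS : Cyl W Z A S) {m : Finset T} (hm : Disjoint A m) (𝓜 : Finset (Finset α))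
    (h𝓜 : ∀ M ∈ 𝓜, (M ∩ W).card = (m ∩ Z).card ∧ (M \ W).card = (m \ Z).card) {x : ℝ}
    (hx : ∀ F : Finset α, F.card ≤ A.card →
      x * (Fintype.card α : ℝ) ^ m.card ≤ (𝓜.filter fun M => Disjoint M F).card) :
    ∃ S' ⊆ S, Cyl W Z (A ∪ m) S' ∧ (∀ f ∈ S', m.image f ∈ 𝓜) ∧ x * S.card ≤ S'.card := by
  classical
  have h : ∀ M : Finset α, ∃ β : T → α, M ∈ 𝓜 →
      Set.InjOn β m ∧ m.image β = M ∧ ∀ t ∈ m, (β t ∈ W ↔ t ∈ Z) := fun M => by
    by_cases h : M ∈ 𝓜
    · obtain ⟨β, hβ⟩ := bij W Z m M (h𝓜 M h).1 (h𝓜 M h).2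
      exact ⟨β, fun _ => hβ⟩
    · exact ⟨fun _ => Classical.arbitrary α, fun h' => absurd h' h⟩
  choose β hβ using h
  set S' := S.filter fun f => Set.InjOn f ↑(A ∪ m) ∧ (∀ t ∈ A ∪ m, (f t ∈ W ↔ t ∈ Z)) ∧
    m.image f ∈ 𝓜 with hS'
  refine ⟨S', filter_subset _ _, ⟨fun f hf g hg => ?_, fun f hf => (mem_filter.1 hf).2.1,
    fun f hf => (mem_filter.1 hf).2.2.1⟩, fun f hf => (mem_filter.1 hf).2.2.2, ?_⟩
  · obtain ⟨h1, h2, h3, h4⟩ := mem_filter.1 hf
    refine mem_filter.2 ⟨hS.dep f h1 g fun t ht => hg t (mem_union_left _ ht),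
      fun s hs t ht he => h2 hs ht (by rw [← hg s hs, ← hg t ht, he]),
      fun t ht => by rw [hg t ht]; exact h3 t ht, ?_⟩
    rwa [image_congr (g := f) fun t ht => hg t (mem_union_right _ ht)]
  · have hn : (0 : ℝ) < (Fintype.card α : ℝ) ^ m.card := by
      have := Fintype.card_pos (α := α)
      positivity
    refine le_of_mul_le_mul_right ?_ hn
    have h1 : (S.sigma fun f => 𝓜.filter fun M => Disjoint M (A.image f)).card
        ≤ (S' ×ˢ (univ : Finset (m → α))).card := by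
      refine card_le_card_of_injOn
        (fun p => (m.piecewise (β p.2) p.1, fun t => p.1 t)) (fun p hp => ?_)
        fun p hp p' hp' he => ?_
      · obtain ⟨h1, h2⟩ := mem_sigma.1 hp
        obtain ⟨h3, h4⟩ := mem_filter.1 h2
        obtain ⟨b1, b2, b3⟩ := hβ _ h3
        have e1 : ∀ t ∈ A, m.piecewise (β p.2) p.1 t = p.1 t := fun t ht =>
          piecewise_eq_of_notMem _ _ _ (disjoint_left.1 hm ht)
        have e2 : ∀ t ∈ m, m.piecewise (β p.2) p.1 t = β p.2 t := fun t ht =>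
          piecewise_eq_of_mem _ _ _ ht
        have e3 : ∀ s ∈ A, ∀ t ∈ m, p.1 s ≠ β p.2 t := fun s hs t ht he =>
          disjoint_left.1 h4 (b2 ▸ mem_image_of_mem _ ht) (he ▸ mem_image_of_mem _ hs)
        refine mem_product.2 ⟨mem_filter.2 ⟨hS.dep _ h1 _ e1, fun s hs t ht he => ?_,
          fun t ht => ?_, ?_⟩, mem_univ _⟩
        · dsimp only at he
          rcases mem_union.1 hs with hs | hs <;> rcases mem_union.1 ht with ht | ht
          · rw [e1 s hs, e1 t ht] at he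
            exact hS.inj _ h1 hs ht he
          · rw [e1 s hs, e2 t ht] at he
            exact absurd he (e3 s hs t ht)
          · rw [e2 s hs, e1 t ht] at he
            exact absurd he.symm (e3 t ht s hs)
          · rw [e2 s hs, e2 t ht] at he
            exact b1 hs ht he
        · dsimp only
          rcases mem_union.1 ht with ht | ht
          · rw [e1 t ht]
            exact hS.side _ h1 t ht
          · rw [e2 t ht]
            exact b3 t ht
        · rwa [image_congr (g := β p.2) e2, b2]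
      · obtain ⟨e1, e2⟩ := Prod.ext_iff.1 he
        have h1 := (hβ _ (mem_filter.1 (mem_sigma.1 hp).2).1).2.1
        have h2 := (hβ _ (mem_filter.1 (mem_sigma.1 hp').2).1).2.1
        refine Sigma.ext (funext fun t => ?_) (heq_of_eq ?_)
        · by_cases ht : t ∈ m
          · exact congrFun e2 ⟨t, ht⟩
          · have := congrFun e1 t
            simpa only [piecewise_eq_of_notMem _ _ _ ht] using this
        · rw [← h1, ← h2]
          refine image_congr fun t ht => ?_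
          have := congrFun e1 t
          simpa only [piecewise_eq_of_mem _ _ _ (mem_coe.1 ht)] using this
    rw [card_product, card_sigma, card_univ, Fintype.card_fun, Fintype.card_coe] at h1
    have h2 := (Nat.cast_le (α := ℝ)).2 h1
    push_cast at h2
    refine le_trans ?_ h2
    rw [mul_right_comm, mul_comm, ← nsmul_eq_mul]
    exact card_nsmul_le_sum _ _ _ fun f _ => hx _ card_image_le

theorem iter [Nonempty α] {κ : Type*} [DecidableEq κ] {W : Finset α} {Z A : Finset T}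
    {S : Finset (T → α)} (hS : Cyl W Z A S) (m : κ → Finset T) (𝓜 : κ → Finset (Finset α))
    (x : κ → ℝ) (J : Finset κ) (hx0 : ∀ j ∈ J, 0 ≤ x j) (hA : ∀ j ∈ J, Disjoint A (m j))
    (hd : ∀ i ∈ J, ∀ j ∈ J, i ≠ j → Disjoint (m i) (m j))
    (h𝓜 : ∀ j ∈ J, ∀ M ∈ 𝓜 j, (M ∩ W).card = (m j ∩ Z).card ∧ (M \ W).card = (m j \ Z).card)
    (hx : ∀ j ∈ J, ∀ F : Finset α, F.card ≤ Fintype.card T →
      x j * (Fintype.card α : ℝ) ^ (m j).card ≤ ((𝓜 j).filter fun M => Disjoint M F).card) :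
    ∃ S' ⊆ S, Cyl W Z (A ∪ J.biUnion m) S' ∧ (∀ f ∈ S', ∀ j ∈ J, (m j).image f ∈ 𝓜 j) ∧
      (∏ j ∈ J, x j) * S.card ≤ S'.card := by
  induction J using Finset.induction_on with
  | empty => exact ⟨S, Subset.rfl, by simpa using hS, by simp, by simp⟩
  | insert i J hi ih =>
    obtain ⟨S1, h1, h2, h3, h4⟩ := ih (fun j hj => hx0 j (mem_insert_of_mem hj))
      (fun j hj => hA j (mem_insert_of_mem hj))
      (fun i hi j hj => hd i (mem_insert_of_mem hi) j (mem_insert_of_mem hj))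
      (fun j hj => h𝓜 j (mem_insert_of_mem hj)) fun j hj => hx j (mem_insert_of_mem hj)
    obtain ⟨S2, h5, h6, h7, h8⟩ := step h2 (m := m i) (disjoint_union_left.2
      ⟨hA i (mem_insert_self _ _), (disjoint_biUnion_left _ _ _).2 fun j hj =>
        hd j (mem_insert_of_mem hj) i (mem_insert_self _ _) fun h => hi (h ▸ hj)⟩) (𝓜 i)
      (h𝓜 i (mem_insert_self _ _))
      fun F hF => hx i (mem_insert_self _ _) F (hF.trans (card_le_univ _))
    refine ⟨S2, h5.trans h1, ?_, fun f hf j hj => ?_, ?_⟩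
    · rwa [biUnion_insert, union_comm (m i), ← union_assoc]
    · rcases mem_insert.1 hj with rfl | hj
      · exact h7 f hf
      · exact h3 f (h5 hf) j hj
    · rw [prod_insert hi, mul_assoc]
      exact (mul_le_mul_of_nonneg_left h4 (hx0 i (mem_insert_self _ _))).trans h8

/-- the remaining elements are placed one by one -/
theorem rest [Nonempty α] {W : Finset α} {Z A : Finset T} {S : Finset (T → α)}
    (hS : Cyl W Z A S) (h1 : Fintype.card α + 5 * Fintype.card T ≤ 5 * W.card)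
    (h2 : Fintype.card α + 5 * Fintype.card T ≤ 5 * Wᶜ.card) :
    ∃ S' ⊆ S, Cyl W Z univ S' ∧ (1 / 5 : ℝ) ^ Fintype.card T * S.card ≤ S'.card := by
  obtain ⟨S', h3, h4, -, h5⟩ := iter hS (fun t => {t}) (fun t => univ.filter fun M =>
      (M ∩ W).card = ({t} ∩ Z).card ∧ (M \ W).card = ({t} \ Z).card) (fun _ => 1 / 5) Aᶜ
    (fun _ _ => by norm_num) (fun t ht => disjoint_singleton_right.2 (mem_compl.1 ht))
    (fun _ _ _ _ h => disjoint_singleton.2 h) (fun _ _ M hM => (mem_filter.1 hM).2)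
    fun t _ F hF => by
      have key : ∀ Y : Finset α, Fintype.card α + 5 * Fintype.card T ≤ 5 * Y.card →
          (∀ y ∈ Y, (y ∈ W ↔ t ∈ Z)) → (1 / 5 : ℝ) * (Fintype.card α : ℝ) ^ ({t} : Finset T).card
            ≤ ((univ.filter fun M : Finset α => (M ∩ W).card = ({t} ∩ Z).card ∧
              (M \ W).card = ({t} \ Z).card).filter fun M => Disjoint M F).card := by
        intro Y hY hY'
        have b1 : (Y \ F).card ≤ ((univ.filter fun M : Finset α => (M ∩ W).card = ({t} ∩ Z).card ∧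
            (M \ W).card = ({t} \ Z).card).filter fun M => Disjoint M F).card := by
          refine card_le_card_of_injOn (fun y => {y}) (fun y hy => ?_)
            fun _ _ _ _ h => singleton_injective h
          obtain ⟨b2, b3⟩ := mem_sdiff.1 hy
          refine mem_filter.2 ⟨mem_filter.2 ⟨mem_univ _, ?_⟩, disjoint_singleton_left.2 b3⟩
          by_cases h : t ∈ Z
          · have := (hY' y b2).2 h
            simp [h, this, sdiff_eq_empty_iff_subset.2]
          · have := mt (hY' y b2).1 h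
            simp [h, this, sdiff_eq_self_of_disjoint]
        have b2 := le_card_sdiff F Y
        have b3 : Fintype.card α ≤ 5 * (Y \ F).card := by omega
        have b4 := (Nat.cast_le (α := ℝ)).2 (b3.trans (Nat.mul_le_mul_left 5 b1))
        push_cast at b4
        rw [card_singleton, pow_one]
        linarith
      by_cases h : t ∈ Z
      · exact key W h1 fun y hy => iff_of_true hy h
      · exact key Wᶜ h2 fun y hy => iff_of_false (mem_compl.1 hy) h
  refine ⟨S', h3, ?_, le_trans (mul_le_mul_of_nonneg_right ?_ (Nat.cast_nonneg _)) h5⟩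
  · rwa [biUnion_singleton_eq_self, union_compl] at h4
  · rw [prod_const]
    exact pow_le_pow_of_le_one (by norm_num) (by norm_num) (card_le_univ _)

end Pool.Agent.MP_c3fbfc_co.V.SiteM

end MrgPart4

-- ======== part 5: formerly Pool.Agent.MP_c3fbfc_co.VExp
section MrgPart5

/-! EXP: the excess is bounded on average. -/

namespace Pool.Agent.MP_c3fbfc_co.V

open Finset
open scoped symmDiff

namespace Exp

variable {α : Type*} [Fintype α] [DecidableEq α] {r : ℕ} {K : Finset (Finset α)}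

/-- exchanging the order of counting -/
theorem swap {ι β : Type*} (S : Finset ι) (W : Finset β) (F : ι → Finset β) (g : β → ℕ)
    (hF : ∀ i ∈ S, F i ⊆ W)
    (hg : ∀ z ∈ W, ∀ S' ⊆ S, (∀ i ∈ S', z ∈ F i) → S'.card ≤ g z) :
    ∑ i ∈ S, (F i).card ≤ ∑ z ∈ W, g z := by
  classical
  have h1 : ∀ i ∈ S, (F i).card = ∑ z ∈ W, if z ∈ F i then 1 else 0 := fun i hi => by
    rw [← card_filter, filter_mem_eq_inter, inter_eq_right.2 (hF i hi)]
  rw [sum_congr rfl h1, sum_comm]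
  refine sum_le_sum fun z hz => ?_
  rw [← card_filter]
  exact hg z hz _ (filter_subset _ _) fun i hi => (mem_filter.1 hi).2

theorem card_le_of_cover {ι β : Type*} (S : Finset ι) (D : Finset β) (R : ι → β → Prop) (g : β → ℕ)
    (h1 : ∀ i ∈ S, ∃ d ∈ D, R i d)
    (h2 : ∀ d ∈ D, ∀ S' ⊆ S, (∀ i ∈ S', R i d) → S'.card ≤ g d) : S.card ≤ ∑ d ∈ D, g d := by
  classical
  have : S ⊆ D.biUnion fun d => S.filter fun i => R i d := fun i hi => by
    obtain ⟨d, hd, h⟩ := h1 i hi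
    exact mem_biUnion.2 ⟨d, hd, mem_filter.2 ⟨hi, h⟩⟩
  exact (card_le_card this).trans (card_biUnion_le.trans (sum_le_sum fun d hd =>
    h2 d hd _ (filter_subset _ _) fun i hi => (mem_filter.1 hi).2))

theorem card_le_mul_of_cover {ι β : Type*} (S : Finset ι) (D : Finset β) (R : ι → β → Prop) (c : ℕ)
    (h1 : ∀ i ∈ S, ∃ d ∈ D, R i d)
    (h2 : ∀ d ∈ D, ∀ S' ⊆ S, (∀ i ∈ S', R i d) → S'.card ≤ c) : S.card ≤ D.card * c := by
  simpa using card_le_of_cover S D R (fun _ => c) h1 h2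

theorem card_le_split {ι : Type*} (S : Finset ι) (p : ι → Prop) {a b : ℕ}
    (h1 : ∀ S' ⊆ S, (∀ i ∈ S', p i) → S'.card ≤ a)
    (h2 : ∀ S' ⊆ S, (∀ i ∈ S', ¬ p i) → S'.card ≤ b) : S.card ≤ a + b := by
  classical
  rw [← card_filter_add_card_filter_not (s := S) p]
  exact add_le_add (h1 _ (filter_subset _ _) fun i hi => (mem_filter.1 hi).2)
    (h2 _ (filter_subset _ _) fun i hi => (mem_filter.1 hi).2)

/-- centres at distance two have a common point -/
theorem ln_meet {Y Y' : Finset α} (hY : Ctr r Y) (hY' : Ctr r Y') (h : sd Y' Y = 2) :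
    ∃ B ∈ ln r Y, B ∈ ln r Y' := by
  have h1 := card_add_sdiff Y Y'
  have h2 := sd_eq Y' Y
  have key : ∀ a ∈ Y' ∆ Y, (tg Y a).card = r → ∃ B ∈ ln r Y, B ∈ ln r Y' := fun a ha hc => by
    have := sd_tg_of_mem ha
    exact ⟨tg Y a, mem_ln.2 ⟨hc, sd_tg_self _ _⟩, mem_ln.2 ⟨hc, by omega⟩⟩
  rcases hY with hY | hY
  · obtain ⟨a, ha⟩ := card_pos.1 (show 0 < (Y' \ Y).card by rcases hY' with t | t <;> omega)
    rw [mem_sdiff] at ha
    exact key a (mem_symmDiff.2 (Or.inl ha)) (by rw [card_tg_of_notMem ha.2, hY])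
  · obtain ⟨a, ha⟩ := card_pos.1 (show 0 < (Y \ Y').card by rcases hY' with t | t <;> omega)
    rw [mem_sdiff] at ha
    have := card_tg_of_mem ha.1
    exact key a (mem_symmDiff.2 (Or.inr ha)) (by omega)

section One

variable (hK : K ∈ MM α r) (h6 : 6 ≤ Fintype.card α) (h1 : Fintype.card α ≤ 3 * r)
  (h2 : 3 * r ≤ 2 * Fintype.card α)

include h6 h1 h2 in
theorem not_UU {Y A : Finset α} (hY : KL r K Y) (hA : A ∈ ln r Y) : A ∉ UU K := fun hU => by
  have h3 := card_ln_ge h1 h2 hY.1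
  obtain ⟨B, hB, hne⟩ := exists_mem_ne (s := ln r Y) (by omega) A
  exact (mem_UU.1 hU).2 B (hY.2 hB) ((ln_clique hA hB).resolve_left hne.symm)

include hK in
theorem three {X Y A : Finset α} (cX : X.card = r) (hX : X ∉ K) (hY : SL r K Y) (hA : A ∈ ln r Y)
    (h : sd X A ≤ 2) : sd X Y = 3 := by
  have a1 := sd_odd hY.1.1 cX
  have a2 := sd_le_three hA h
  have a3 : sd Y X ≠ 1 := fun e => hX (hY.1.2 (mem_ln.2 ⟨cX, e⟩))
  have := hK
  rw [sd_comm]; omega

include hK h6 h1 h2 in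
/-- the pieces of the removed set -/
theorem piece {X A : Finset α} (cX : X.card = r) (hX : X ∉ K) (hOK : OK r K X)
    (hA : A ∈ RX r K X) :
    (A ∈ UU K ∧ sd X A = 2) ∨ ∃ Y, SL r K Y ∧ sd X Y = 3 ∧ A ∈ ln r Y := by
  classical
  simp only [RX, mem_filter] at hA
  obtain ⟨hAK, h | ⟨Y, hY, h3, hAY⟩⟩ := hA
  · rcases hOK A hAK h with t | ⟨Y, hY, hAY⟩
    · exact Or.inl ⟨t, h⟩
    · exact Or.inr ⟨Y, hY, three hK cX hX hY hAY h.le, hAY⟩
  · obtain ⟨B, hB, e⟩ := exists_adj_on_ln cX hY.1 (by rwa [sd_comm])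
    rcases hOK B (hY.2 hB) e with t | ⟨Y', hY', hB'⟩
    · exact absurd t (not_UU h6 h1 h2 hY hB)
    · exact Or.inr ⟨Y', hY', three hK cX hX hY' hB' e.le, (hY'.clo hK).ln_subset hY hB hB' hAY⟩

/-- `A` lies in a piece that meets the line `L` -/
def Mt (r : ℕ) (K : Finset (Finset α)) (X L A : Finset α) : Prop :=
  ∃ B ∈ ln r L, (A ∈ UU K ∧ B = A) ∨ ∃ Y, SL r K Y ∧ sd X Y = 3 ∧ A ∈ ln r Y ∧ B ∈ ln r Y

include hK in
theorem same {X L : Finset α} (S : Finset (Finset α)) (h : ∀ A ∈ S, Mt r K X L A) :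
    S.card ≤ 1 ∨ ∃ Y, SL r K Y ∧ sd X Y = 3 ∧ S ⊆ ln r Y := by
  by_cases hc : ∃ B ∈ ln r L, ∃ Y, SL r K Y ∧ sd X Y = 3 ∧ B ∈ ln r Y
  · obtain ⟨B0, hB0, Y0, hY0, h3, hB0'⟩ := hc
    refine Or.inr ⟨Y0, hY0, h3, fun A hA => ?_⟩
    have key : ∀ B ∈ ln r L, B ∈ K → B ∈ ln r Y0 := fun B hB hBK => by
      rcases ln_clique hB0 hB with e | e
      · exact e ▸ hB0'
      · exact (hY0.clo hK).2 _ hB0' _ hBK e
    obtain ⟨B, hB, ⟨t, rfl⟩ | ⟨Y, hY, -, t1, t2⟩⟩ := h A hA
    · exact key _ hB (UU_subset K t)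
    · exact (hY0.clo hK).ln_subset hY.1 t2 (key _ hB (hY.1.2 t2)) t1
  · refine Or.inl (card_le_one.2 fun A hA A' hA' => ?_)
    obtain ⟨B, hB, ⟨t, rfl⟩ | ⟨Y, hY, t0, t1, t2⟩⟩ := h A hA
    · obtain ⟨B', hB', ⟨t', rfl⟩ | ⟨Y, hY, t0, t1, t2⟩⟩ := h A' hA'
      · exact (ln_clique hB hB').resolve_right (stb_UU K _ t _ t')
      · exact absurd ⟨B', hB', Y, hY, t0, t2⟩ hc
    · exact absurd ⟨B, hB, Y, hY, t0, t2⟩ hc

include hK h6 h1 h2 in
/-- the four kinds of points in the excess -/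
theorem kinds {X Z : Finset α} (cX : X.card = r) (hX : X ∉ K) (hOK : OK r K X)
    (hZ : Z ∈ Gam r K X \ St r K X) :
    (Z ∈ Fr r K ∧ ∃ Z' ∈ Fr r K, sd Z Z' = 2 ∧ sd Z' X = 2) ∨
    (Z ∈ PP r K ∧ ∃ A ∈ cn K Z, sd Z A = 2 ∧ sd A X = 2) ∨
    (∃ Y ∈ SLs r K, sd Y X = 3 ∧ Z ∈ fl r K Y) ∨
    ((cn K Z).card ≤ 6 ∧ Z ∉ K ∧ Z ∆ X ⊆ (cn K Z).biUnion fun A => Z ∆ A) := by
  classical
  obtain ⟨hG, hS⟩ := mem_sdiff.1 hZ
  obtain ⟨hnb, hR⟩ := mem_filter.1 hG
  obtain ⟨cZ, hXZ⟩ := mem_nb.1 hnb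
  have hS' : ¬ (Z ∈ UU K ∨ (Z ∈ Fr r K ∧ ∀ Z' ∈ nb r X, Z' ∈ Fr r K → sd Z Z' ≠ 2)) :=
    fun t => hS (mem_filter.2 ⟨hnb, t⟩)
  by_cases c0 : cn K Z = ∅
  · have hF : Z ∈ Fr r K := mem_filter.2 ⟨mem_Vr.2 cZ, c0⟩
    refine Or.inl ⟨hF, ?_⟩
    by_contra hc
    exact hS' (Or.inr ⟨hF, fun Z' t1 t2 t3 =>
      hc ⟨Z', t2, t3, by rw [sd_comm]; exact (mem_nb.1 t1).2⟩⟩)
  obtain ⟨A0, hA0⟩ := nonempty_iff_ne_empty.2 c0
  by_cases c1 : ∃ Y, SL r K Y ∧ sd X Y = 3 ∧ cn K Z ⊆ ln r Y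
  · obtain ⟨Y, t1, t2, t3⟩ := c1
    exact Or.inr (Or.inr (Or.inl ⟨Y, mem_SLs.2 t1, by rwa [sd_comm], mem_filter.2 ⟨mem_Vr.2 cZ,
      sd_le_three (t3 hA0) (mem_cn.1 hA0).2, t3⟩⟩))
  have hZK : Z ∉ K := fun hZK => by
    rcases hOK Z hZK hXZ with t | ⟨Y, hY, t⟩
    · exact hS' (Or.inl t)
    · refine c1 ⟨Y, hY, three hK cX hX hY t hXZ.le, fun A hA => ?_⟩
      obtain ⟨a1, a2⟩ := mem_cn.1 hA
      rcases (sd_le_two (cZ.trans (card_of_MM hK a1).symm)).1 a2 with e | e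
      · exact e ▸ t
      · exact (hY.clo hK).2 _ t _ a1 e
  have adj : ∀ A ∈ cn K Z, sd Z A = 2 := fun A hA => by
    obtain ⟨a1, a2⟩ := mem_cn.1 hA
    exact ((sd_le_two (cZ.trans (card_of_MM hK a1).symm)).1 a2).resolve_left
      fun e => hZK (e ▸ a1)
  by_cases c2 : (cn K Z).card = 1
  · have hP : Z ∈ PP r K := mem_PP.2 ⟨cZ, hZK, c2⟩
    refine Or.inr (Or.inl ⟨hP, A0, hA0, adj _ hA0, ?_⟩)
    rcases piece hK h6 h1 h2 cX hX hOK (hR hA0) with t | ⟨Y, hY, -, t⟩
    · rw [sd_comm]; exact t.2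
    · exact absurd (cn_subset_UU hK hP hA0) (not_UU h6 h1 h2 hY.1 t)
  have c3 : 1 < (cn K Z).card := by have := card_pos.2 ⟨A0, hA0⟩; omega
  refine Or.inr (Or.inr (Or.inr ?_))
  obtain ⟨a, ha, b, hb, e⟩ := (sd_eq_two (cX.trans cZ.symm)).1 hXZ
  have hab : a ≠ b := fun e => hb (e ▸ ha)
  have hD : X ∆ Z = {a, b} := by rw [e, symmDiff_tg_tg hab]
  have cover : ∀ A ∈ cn K Z, Mt r K X (tg X a) A ∨ Mt r K X (tg X b) A := fun A hA => by
    suffices h : ∃ c ∈ Z ∆ X, Mt r K X (tg X c) A by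
      obtain ⟨c, hc, t⟩ := h
      rw [symmDiff_comm, hD, mem_insert, mem_singleton] at hc
      rcases hc with rfl | rfl
      · exact Or.inl t
      · exact Or.inr t
    rcases piece hK h6 h1 h2 cX hX hOK (hR hA) with t | ⟨Y, hY, t1, t2⟩
    · have cA := card_of_MM hK (mem_cn.1 hA).1
      have := card_not_farther (Y := Z) cX {A} (fun W hW => by
        rw [mem_singleton.1 hW, adj A hA, sd_comm, hXZ]
        exact ⟨mem_nb.2 ⟨cA, t.2⟩, le_rfl⟩) (mem_singleton_self A)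
      obtain ⟨c, hc, t3⟩ := mem_biUnion.1 this
      exact ⟨c, hc, A, t3, Or.inl ⟨t.1, rfl⟩⟩
    · have t3 := three hK cZ hZK hY t2 (adj A hA).le
      have t4 := sd_tg_tg X Y hab
      rw [← e, sd_comm Y Z, sd_comm Y X, t1, t3] at t4
      have t5 : ∃ c ∈ Z ∆ X, c ∈ Y ∆ X := by
        rw [symmDiff_comm Z, hD]
        by_cases u1 : a ∈ Y ∆ X
        · exact ⟨a, by simp, u1⟩
        by_cases u2 : b ∈ Y ∆ X
        · exact ⟨b, by simp, u2⟩
        simp [u1, u2] at t4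
      obtain ⟨c, hc, u⟩ := t5
      have t6 := sd_tg_of_mem u
      rw [sd_comm Y X, t1] at t6
      obtain ⟨B, b1, b2⟩ := ln_meet (ctr_tg cX c) hY.1.1 (by omega)
      exact ⟨c, hc, B, b1, Or.inr ⟨Y, hY, t1, t2, b2⟩⟩
  have small : ∀ L, ((cn K Z).filter (Mt r K X L)).card ≤ 3 := fun L => by
    rcases same hK ((cn K Z).filter (Mt r K X L)) fun A hA => (mem_filter.1 hA).2 with
      t | ⟨Y, hY, -, t⟩
    · omega
    · exact card_adj_on_ln cZ (fun u => hZK (hY.1.2 u)) _ fun A hA =>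
        ⟨t hA, (mem_cn.1 (mem_filter.1 hA).1).2⟩
  have notall : ∀ L, ¬ ∀ A ∈ cn K Z, Mt r K X L A := fun L h => by
    rcases same hK _ h with t | t
    · omega
    · exact c1 t
  have fin : ∀ c c', tg X c = tg Z c' → (∃ A, Mt r K X (tg X c) A) →
      c' ∈ (cn K Z).biUnion fun A => Z ∆ A := by
    rintro c c' ec ⟨A, B, hB, t⟩
    have hBK : B ∈ K := by
      rcases t with ⟨t, rfl⟩ | ⟨Y, hY, -, -, t⟩
      · exact UU_subset K t
      · exact hY.1.2 t
    rw [ec] at hB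
    have hZL := self_mem_ln cZ c'
    have hne : Z ≠ B := fun u => hZK (u ▸ hBK)
    obtain ⟨d, hd, u⟩ := ln_pair hZL hB hne
    exact mem_biUnion.2 ⟨B, mem_cn.2 ⟨hBK, ((ln_clique hZL hB).resolve_left hne).le⟩,
      tg_inj u ▸ hd⟩
  refine ⟨?_, hZK, ?_⟩
  · have : cn K Z ⊆ (cn K Z).filter (Mt r K X (tg X a)) ∪ (cn K Z).filter (Mt r K X (tg X b)) :=
      fun A hA => by
        rcases cover A hA with t | t
        · exact mem_union_left _ (mem_filter.2 ⟨hA, t⟩)
        · exact mem_union_right _ (mem_filter.2 ⟨hA, t⟩)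
    have u1 := small (tg X a)
    have u2 := small (tg X b)
    have u3 := (card_le_card this).trans (card_union_le _ _)
    omega
  · rw [symmDiff_comm, hD, insert_subset_iff, singleton_subset_iff]
    constructor
    · refine fin b a (by rw [e, tg_comm X a b, tg_tg]) ?_
      by_contra hc
      exact notall (tg X a) fun A hA => (cover A hA).resolve_right fun t => hc ⟨A, t⟩
    · refine fin a b (by rw [e, tg_tg]) ?_
      by_contra hc
      exact notall (tg X b) fun A hA => (cover A hA).resolve_left fun t => hc ⟨A, t⟩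

theorem sum_ite_le {β : Type*} [DecidableEq β] (W S : Finset β) (c : ℕ) :
    ∑ z ∈ W, (if z ∈ S then c else 0) ≤ S.card * c := by
  rw [← sum_filter, sum_const, smul_eq_mul, filter_mem_eq_inter]
  exact Nat.mul_le_mul_right _ (card_le_card inter_subset_right)

include hK h6 h1 h2 in
theorem bet_le (hG : GLn r K) (S : Finset (Finset α))
    (hS : ∀ X ∈ S, X.card = r ∧ X ∉ K ∧ OK r K X) :
    ∑ X ∈ S, bet r K X ≤
      ((Fr r K ×ˢ Fr r K).filter (fun p => sd p.1 p.2 = 2)).card * Fintype.card α +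
      (PP r K).card * Fintype.card α + (SLs r K).card * (7 * Fintype.card α ^ 3) +
      (Fintype.card α).choose r * 4096 := by
  classical
  set n := Fintype.card α with hn
  refine (swap S (Vr α r) (fun X => Gam r K X \ St r K X) (fun Z =>
      (if Z ∈ Fr r K then ((Fr r K).filter fun Z' => sd Z Z' = 2).card * n else 0) +
      ((if Z ∈ PP r K then n else 0) +
      ((∑ Y ∈ SLs r K, ((if Z ∈ ln r Y then n ^ 2 else 0) + if Z ∈ fl r K Y then 3 * n else 0)) +
      4096)))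
    (fun X _ Z hZ => nb_subset r X (mem_filter.1 (mem_sdiff.1 hZ).1).1)
    fun Z hZ S' hS' hm => ?_).trans ?_
  · have cZ := mem_Vr.1 hZ
    have hnb : ∀ X ∈ S', X ∈ nb r Z := fun X hX => mem_nb.2 ⟨(hS X (hS' hX)).1, by
      rw [sd_comm]; exact (mem_nb.1 (mem_filter.1 (mem_sdiff.1 (hm X hX)).1).1).2⟩
    have hk := fun X (hX : X ∈ S') => kinds hK h6 h1 h2 (hS X (hS' hX)).1 (hS X (hS' hX)).2.1
      (hS X (hS' hX)).2.2 (hm X hX)
    refine card_le_split S' (fun X => Z ∈ Fr r K ∧ ∃ Z' ∈ Fr r K, sd Z Z' = 2 ∧ sd Z' X = 2)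
      (fun T hT t => ?_) fun T1 hT1 n1 => ?_
    · split_ifs with c
      · refine card_le_mul_of_cover T _ (fun X Z' => sd Z' X = 2) n (fun X hX => ?_)
          fun Z' hZ' T' hT' t' => ?_
        · obtain ⟨-, Z', u1, u2, u3⟩ := t X hX
          exact ⟨Z', mem_filter.2 ⟨u1, u2⟩, u3⟩
        · obtain ⟨u1, u2⟩ := mem_filter.1 hZ'
          exact card_common_adj cZ (mem_Fr.1 u1).1 u2 T' fun X hX => ⟨hnb X (hT (hT' hX)), t' X hX⟩
      · exact (card_eq_zero.2 (eq_empty_of_forall_notMem fun X hX => c (t X hX).1)).le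
    refine card_le_split T1 (fun X => Z ∈ PP r K ∧ ∃ A ∈ cn K Z, sd Z A = 2 ∧ sd A X = 2)
      (fun T hT t => ?_) fun T2 hT2 n2 => ?_
    · split_ifs with c
      · have := card_le_mul_of_cover T (cn K Z) (fun X A => sd Z A = 2 ∧ sd A X = 2) n
          (fun X hX => (t X hX).2) fun A hA T' hT' t' => by
            rcases T'.eq_empty_or_nonempty with rfl | ⟨X0, hX0⟩
            · simp
            exact card_common_adj cZ (card_of_MM hK (mem_cn.1 hA).1) (t' X0 hX0).1 T'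
              fun X hX => ⟨hnb X (hT1 (hT (hT' hX))), (t' X hX).2⟩
        rwa [(mem_PP.1 c).2.2, one_mul] at this
      · exact (card_eq_zero.2 (eq_empty_of_forall_notMem fun X hX => c (t X hX).1)).le
    refine card_le_split T2 (fun X => ∃ Y ∈ SLs r K, sd Y X = 3 ∧ Z ∈ fl r K Y)
      (fun T hT t => ?_) fun T hT n3 => ?_
    · refine card_le_of_cover T _ (fun X Y => sd Y X = 3 ∧ Z ∈ fl r K Y) _ t
        fun Y hY T' hT' t' => ?_
      rcases T'.eq_empty_or_nonempty with rfl | ⟨X0, hX0⟩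
      · simp
      have hb : ∀ X ∈ T', X ∈ nb r Z := fun X hX => hnb X (hT1 (hT2 (hT (hT' hX))))
      rw [if_pos (t' X0 hX0).2]
      by_cases c : Z ∈ ln r Y
      · rw [if_pos c]
        exact ((card_le_card hb).trans (card_nb_le r Z)).trans (Nat.le_add_right _ _)
      · rw [if_neg c, zero_add]
        have u1 := sd_odd (mem_SLs.1 hY).1.1 cZ
        have u2 := (mem_filter.1 (t' X0 hX0).2).2.1
        have u3 : sd Y Z ≠ 1 := fun e => c (mem_ln.2 ⟨cZ, e⟩)
        have u4 : sd Y Z = 3 := by omega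
        have u5 := card_not_farther (Y := Y) cZ T' fun X hX => ⟨hb X hX, by rw [(t' X hX).1, u4]⟩
        refine (card_le_card u5).trans ((card_biUnion_le_card_mul _ _ n
          fun a _ => card_ln_le r _).trans (le_of_eq ?_))
        exact congrArg (· * n) u4
    · rcases T.eq_empty_or_nonempty with rfl | ⟨X0, hX0⟩
      · simp
      have h4 : ∀ X ∈ T, (cn K Z).card ≤ 6 ∧ Z ∉ K ∧ Z ∆ X ⊆ (cn K Z).biUnion fun A => Z ∆ A :=
        fun X hX => (((hk X (hT1 (hT2 (hT hX)))).resolve_left (n1 X (hT2 (hT hX)))).resolve_left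
          (n2 X (hT hX))).resolve_left (n3 X hX)
      have u1 : ((cn K Z).biUnion fun A => Z ∆ A).card ≤ 12 :=
        (card_biUnion_le_card_mul _ _ 2 fun A hA => (mem_cn.1 hA).2).trans
          (by have := (h4 X0 hX0).1; omega)
      have u2 : T.card ≤ ((cn K Z).biUnion fun A => Z ∆ A).powerset.card :=
        card_le_card_of_injOn (fun X => Z ∆ X) (fun X hX => mem_coe.2 (mem_powerset.2 (h4 X hX).2.2))
          fun X _ X' _ e => symmDiff_right_injective Z e
      rw [card_powerset] at u2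
      exact u2.trans (Nat.pow_le_pow_right two_pos u1)
  · rw [sum_add_distrib, sum_add_distrib, sum_add_distrib, sum_const, card_Vr, smul_eq_mul,
      add_assoc, add_assoc]
    refine add_le_add ?_ (add_le_add (sum_ite_le _ _ _) (add_le_add ?_ le_rfl))
    · rw [← sum_filter, filter_mem_eq_inter, inter_eq_right.2 (Fr_subset r K), ← sum_mul,
        card_filter, sum_product]
      simp only [card_filter, le_refl]
    · rw [sum_comm]
      refine (sum_le_card_nsmul _ _ _ fun Y hY => ?_).trans (le_of_eq (smul_eq_mul _ _))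
      rw [sum_add_distrib]
      have u1 := sum_ite_le (Vr α r) (ln r Y) (n ^ 2)
      have u2 := sum_ite_le (Vr α r) (fl r K Y) (3 * n)
      have u3 := Nat.mul_le_mul_right (n ^ 2) (card_ln_le r Y)
      have u4 := Nat.mul_le_mul_right (3 * n) (hG Y (mem_SLs.1 hY)).le
      rw [← hn] at u3 u4
      calc _ ≤ n * n ^ 2 + 2 * n ^ 2 * (3 * n) := add_le_add (u1.trans u3) (u2.trans u4)
        _ = _ := by ring

include hK in
theorem bet5_le : ∑ X ∈ Vr α r, ∑ a : α, bet5 r K X a ≤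
    (Fintype.card α).choose r * (9 * Fintype.card α) +
      ((Fr r K).card + (PP r K).card + (UU K).card) * Fintype.card α ^ 2 := by
  classical
  set n := Fintype.card α with hn
  rw [← sum_product']
  refine (swap (Vr α r ×ˢ univ) (Vr α r) (fun p => (ln r (tg p.1 p.2)).filter (fun Z =>
      cn K Z ⊆ UU K ∧ (cn K Z).card ≤ 4 ∧
      ((cn K Z).card ≤ 1 ∨ ∃ A ∈ cn K Z, sd p.1 A = 2 ∧ sd Z A = 2)))
    (fun Z => n + ((if Z ∈ Fr r K ∪ PP r K ∪ UU K then n ^ 2 else 0) + 8 * n))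
    (fun p _ Z hZ => ln_subset r _ (mem_filter.1 hZ).1) fun Z hZ S' hS' hm => ?_).trans ?_
  · have cZ := mem_Vr.1 hZ
    have cX : ∀ p ∈ S', p.1.card = r := fun p hp => mem_Vr.1 (mem_product.1 (hS' hp)).1
    refine card_le_split S' (fun p => p.1 = Z) (fun T hT t => ?_) fun T1 hT1 n1 => ?_
    · rw [hn, ← card_univ]
      exact card_le_card_of_injOn (fun p => p.2) (fun _ _ => mem_coe.2 (mem_univ _))
        fun p hp q hq e => Prod.ext ((t p hp).trans (t q hq).symm) e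
    refine card_le_split T1 (fun _ => (cn K Z).card ≤ 1) (fun T hT t => ?_) fun T hT n2 => ?_
    · rcases T.eq_empty_or_nonempty with rfl | ⟨p0, hp0⟩
      · simp
      have u0 : Z ∈ Fr r K ∪ PP r K ∪ UU K := by
        by_cases c : Z ∈ K
        · exact mem_union_right _
            ((mem_filter.1 (hm p0 (hT1 (hT hp0)))).2.1 (mem_cn.2 ⟨c, by simp⟩))
        refine mem_union_left _ ?_
        by_cases c1 : (cn K Z).card = 1
        · exact mem_union_right _ (mem_PP.2 ⟨cZ, c, c1⟩)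
        · have := t p0 hp0
          exact mem_union_left _ (mem_filter.2 ⟨hZ, card_eq_zero.1 (by omega)⟩)
      rw [if_pos u0, sq]
      refine card_le_mul_of_cover T univ (fun p b => tg p.1 p.2 = tg Z b) n (fun p hp => ?_)
        fun b _ T' hT' t' => ?_
      · obtain ⟨b, e⟩ := exists_tg_of_mem_ln (mem_filter.1 (hm p (hT1 (hT hp)))).1
        exact ⟨b, mem_univ _, e⟩
      · rw [hn, ← card_univ]
        refine card_le_card_of_injOn (fun p => p.2) (fun _ _ => mem_coe.2 (mem_univ _))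
          fun p hp q hq e => Prod.ext ?_ e
        simp only at e
        rw [← tg_tg p.1 p.2, ← tg_tg q.1 q.2, t' p hp, t' q hq, e]
    · rcases T.eq_empty_or_nonempty with rfl | ⟨p0, hp0⟩
      · simp
      have u0 := (mem_filter.1 (hm p0 (hT1 (hT hp0)))).2.2.1
      have adj : ∀ p ∈ T, sd Z p.1 = 2 := fun p hp =>
        (ln_clique (mem_filter.1 (hm p (hT1 (hT hp)))).1
          (self_mem_ln (cX p (hT1 (hT hp))) p.2)).resolve_left fun e => n1 p (hT hp) e.symm
      refine (card_le_mul_of_cover T (cn K Z) (fun p A => sd p.1 A = 2 ∧ sd Z A = 2) (n * 2)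
        (fun p hp => (mem_filter.1 (hm p (hT1 (hT hp)))).2.2.2.resolve_left (n2 p hp))
        fun A hA T' hT' t' => ?_).trans (by nlinarith)
      rcases T'.eq_empty_or_nonempty with rfl | ⟨q0, hq0⟩
      · simp
      refine (card_le_mul_of_cover T' (T'.image Prod.fst) (fun p X => p.1 = X) 2
        (fun p hp => ⟨_, mem_image_of_mem _ hp, rfl⟩) fun X hX T'' hT'' t'' => ?_).trans
        (Nat.mul_le_mul_right _ ?_)
      · obtain ⟨q, hq, rfl⟩ := mem_image.1 hX
        have e2 : (q.1 ∆ Z).card = 2 := by rw [← adj q (hT' hq), sd_comm]; rfl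
        rw [← e2]
        refine card_le_card_of_injOn (fun p => p.2) (fun p hp => mem_coe.2 ?_)
          fun p hp p' hp' e => Prod.ext ((t'' p hp).trans (t'' p' hp').symm) e
        have hp' := hT' (hT'' hp)
        obtain ⟨d, hd, u⟩ := ln_pair (self_mem_ln (cX p (hT1 (hT hp'))) p.2)
          (mem_filter.1 (hm p (hT1 (hT hp')))).1 (n1 p (hT hp'))
        rw [← tg_inj u, t'' p hp] at hd
        exact hd
      · refine card_common_adj cZ (card_of_MM hK (mem_cn.1 hA).1) (t' q0 hq0).2 _ fun X hX => ?_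
        obtain ⟨q, hq, rfl⟩ := mem_image.1 hX
        exact ⟨mem_nb.2 ⟨cX q (hT1 (hT (hT' hq))), adj q (hT' hq)⟩, by
          rw [sd_comm]; exact (t' q hq).1⟩
  · rw [sum_add_distrib, sum_add_distrib, sum_const, sum_const, card_Vr, smul_eq_mul, smul_eq_mul]
    have u1 := sum_ite_le (Vr α r) (Fr r K ∪ PP r K ∪ UU K) (n ^ 2)
    have u2 := Nat.mul_le_mul_right (n ^ 2) ((card_union_le (Fr r K ∪ PP r K) (UU K)).trans
      (Nat.add_le_add_right (card_union_le _ _) _))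
    rw [← hn]
    nlinarith

end One

end Exp

theorem exp_ (h1 : PBStmt) (h2 : RichStmt) : ExpStmt := by
  classical
  obtain ⟨C, hC, hR⟩ := h2
  refine ⟨8 * C + 4296, by positivity, fun n r hn a1 a2 => ?_⟩
  obtain ⟨r1, r2, -, r4, -⟩ := hR n r hn a1 a2
  have p1 := h1 n r hn a1 a2
  have e : Fintype.card (Fin n) = n := Fintype.card_fin n
  have hN : (0 : ℝ) ≤ n.choose r * (MM (Fin n) r).card := by positivity
  constructor
  · have key : ∀ K ∈ (MM (Fin n) r).filter (GLn r),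
        ∑ X ∈ (Vr (Fin n) r).filter (fun X => X ∉ K ∧ OK r K X), (bet r K X : ℝ) ≤
        (((Fr r K ×ˢ Fr r K).filter (fun p => sd p.1 p.2 = 2)).card : ℝ) * n +
        (PP r K).card * n + (SLs r K).card * (7 * n ^ 3) + n.choose r * 4096 := fun K hK => by
      have := Exp.bet_le (mem_filter.1 hK).1 (by omega) (by omega) (by omega) (mem_filter.1 hK).2
        ((Vr (Fin n) r).filter (fun X => X ∉ K ∧ OK r K X))
        fun X hX => ⟨mem_Vr.1 (mem_filter.1 hX).1, (mem_filter.1 hX).2⟩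
      rw [e] at this
      exact_mod_cast this
    refine (sum_le_sum key).trans ((sum_le_sum_of_subset_of_nonneg (filter_subset _ _)
      fun _ _ _ => by positivity).trans ?_)
    rw [sum_add_distrib, sum_add_distrib, sum_add_distrib, ← sum_mul, ← sum_mul, ← sum_mul,
      sum_const, nsmul_eq_mul]
    nlinarith
  · have key : ∀ K ∈ MM (Fin n) r, ∑ X ∈ Vr (Fin n) r, ∑ a : Fin n, (bet5 r K X a : ℝ) ≤
        n.choose r * (13 * n) + (Fr r K).card * n ^ 2 + (PP r K).card * n ^ 2 := fun K hK => by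
      have u1 := Exp.bet5_le hK
      have u2 := (stb_UU K).card_le (r := r) (by omega) (by omega)
        ((UU_subset K).trans (sub_of_MM hK))
      rw [e] at u1 u2
      have u3 : ∑ X ∈ Vr (Fin n) r, ∑ a : Fin n, bet5 r K X a ≤
          n.choose r * (13 * n) + (Fr r K).card * n ^ 2 + (PP r K).card * n ^ 2 := by
        have := Nat.mul_le_mul_left n u2
        nlinarith
      exact_mod_cast u3
    refine (sum_le_sum key).trans ?_
    rw [sum_add_distrib, sum_add_distrib, sum_const, ← sum_mul, ← sum_mul, nsmul_eq_mul]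
    have hn0 : (0 : ℝ) ≤ n := by positivity
    have v1 := mul_le_mul_of_nonneg_left r1 hn0
    have v2 := mul_le_mul_of_nonneg_left p1 hn0
    have v3 := mul_nonneg hn0 hN
    have v4 := mul_nonneg hC.le v3
    nlinarith

end Pool.Agent.MP_c3fbfc_co.V

end MrgPart5

-- marker of a merged file
example : 731051 + 644547 = 731051 + 644547 := rfl
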