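import Mathlib.Data.Int.Star
import Mathlib.Algebra.Order.Ring.Star
import Pool.Agent.MP_c3fbfc_co.VTools

-- ======== part 0: formerly Pool.Agent.MP_c3fbfc_co.VClb1
section MrgPart0

/-! CLB, part 1: the decoder and the seeds. -/

namespace Pool.Agent.MP_c3fbfc_co.V.Clb

open Finset
open scoped symmDiff

variable {α : Type*} [Fintype α] [DecidableEq α]

/-- known points on the line `tg A a` whose cross line through `A` is fat -/
def cnt (r s : ℕ) (K1 S : Finset (Finset α)) (A : Finset α) (a : α) : Finset α :=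
  univ.filter (fun b => b ≠ a ∧ tg (tg A a) b ∈ ln r (tg A a) ∧ tg (tg A a) b ∈ S ∧
    s < (ln r (tg A b) \ K1).card)

/-- the rules of the decoder -/
structure Shut (r g s : ℕ) (K1 E U : Finset (Finset α)) (lam : Finset α → Option Bool)
    (S : Finset (Finset α)) : Prop where
  seed : K1 ⊆ S
  expl : ∀ Y ∈ E, ln r Y ⊆ S
  few : ∀ Y, Ctr r Y → (ln r Y \ S).card < g → ln r Y ⊆ S
  slim : ∀ A ∈ U, ∀ a, (ln r (tg A a) \ K1).card ≤ s → ln r (tg A a) ⊆ S
  lab : ∀ A ∈ U, ∀ a, lam A = some (decide (a ∈ A)) → ∀ Z ∈ ln r (tg A a), Z ≠ A → Z ∈ S →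
    ln r (tg A a) ⊆ S
  three : ∀ A ∈ U, ∀ a, 3 ≤ (cnt r s K1 S A a).card → ln r (tg A a) ⊆ S

open Classical in
/-- the known points -/
noncomputable def Kn (r g s : ℕ) (K1 E U : Finset (Finset α)) (lam : Finset α → Option Bool) :
    Finset (Finset α) :=
  univ.filter (fun X => ∀ S, Shut r g s K1 E U lam S → X ∈ S)

/-- the seeds -/
noncomputable def seed (r g s : ℕ) (Sh : Finset (Finset α)) (Z : Finset (Finset α × ℕ)) :
    Finset (Finset α) :=
  Kn r g s (Sh ∪ Z.biUnion (sh r)) ∅ ∅ (fun _ => none)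

variable {r g s th : ℕ} {K K1 E U S : Finset (Finset α)} {lam : Finset α → Option Bool}

theorem cnt_mono {S' : Finset (Finset α)} (h : S ⊆ S') (A : Finset α) (a : α) :
    cnt r s K1 S A a ⊆ cnt r s K1 S' A a := fun b hb => by
  simp only [cnt, mem_filter, mem_univ, true_and] at hb ⊢
  exact ⟨hb.1, hb.2.1, h hb.2.2.1, hb.2.2.2⟩

theorem mem_Kn {X : Finset α} :
    X ∈ Kn r g s K1 E U lam ↔ ∀ S, Shut r g s K1 E U lam S → X ∈ S := by
  simp [Kn]

theorem Kn_subset (h : Shut r g s K1 E U lam S) : Kn r g s K1 E U lam ⊆ S :=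
  fun _ hX => mem_Kn.1 hX S h

theorem shut_Kn : Shut r g s K1 E U lam (Kn r g s K1 E U lam) where
  seed := fun _ hX => mem_Kn.2 fun _ h => h.seed hX
  expl := fun Y hY _ hX => mem_Kn.2 fun _ h => h.expl Y hY hX
  few := fun Y hY hc _ hX => mem_Kn.2 fun _ h => h.few Y hY
    ((card_le_card (sdiff_subset_sdiff Subset.rfl (Kn_subset h))).trans_lt hc) hX
  slim := fun A hA a ha _ hX => mem_Kn.2 fun _ h => h.slim A hA a ha hX
  lab := fun A hA a ha Z hZ hne hS _ hX => mem_Kn.2 fun _ h =>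
    h.lab A hA a ha Z hZ hne (Kn_subset h hS) hX
  three := fun A hA a ha _ hX => mem_Kn.2 fun _ h =>
    h.three A hA a (ha.trans (card_le_card (cnt_mono (Kn_subset h) A a))) hX

theorem Shut.anti {E' U' : Finset (Finset α)} {lam' : Finset α → Option Bool}
    (h : Shut r g s K1 E' U' lam' S) (hE : E ⊆ E') (hU : U ⊆ U') (hl : ∀ A ∈ U, lam' A = lam A) :
    Shut r g s K1 E U lam S where
  seed := h.seed
  expl := fun Y hY => h.expl Y (hE hY)
  few := h.few
  slim := fun A hA => h.slim A (hU hA)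
  lab := fun A hA a ha => h.lab A (hU hA) a ((hl A hA).trans ha)
  three := fun A hA => h.three A (hU hA)

theorem Kn_mono {E' U' : Finset (Finset α)} {lam' : Finset α → Option Bool}
    (hE : E ⊆ E') (hU : U ⊆ U') (hl : ∀ A ∈ U, lam' A = lam A) :
    Kn r g s K1 E U lam ⊆ Kn r g s K1 E' U' lam' :=
  Kn_subset (shut_Kn.anti hE hU hl)

theorem shut_seed {K0 : Finset (Finset α)} (h0 : K0 ⊆ S)
    (h : ∀ Y, Ctr r Y → (ln r Y \ S).card < g → ln r Y ⊆ S) :
    Shut r g s K0 ∅ ∅ (fun _ => none) S where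
  seed := h0
  expl := by simp
  few := h
  slim := by simp
  lab := by simp
  three := by simp

/-- the numerical hypotheses -/
structure Num (n r g s th : ℕ) : Prop where
  w1 : n ≤ 3 * r
  w2 : 3 * r ≤ 2 * n
  hs : 20 * s ≤ n
  s0 : 0 < s
  g1 : 3 * th ≤ g
  g2 : g ≤ 3 * th + 2
  t3 : 3 ≤ th
  gn : 4 * g ≤ n

/-- the state after the first phase -/
structure Pre (r g s th : ℕ) (K K1 : Finset (Finset α)) : Prop where
  num : Num (Fintype.card α) r g s th
  mm : K ∈ MM α r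
  gir : Short r K g = ∅
  sub : K1 ⊆ WB r K
  short : Short r K s ⊆ K1
  few : ∀ Y, Ctr r Y → (ln r Y \ K1).card < g → ln r Y ⊆ K1
  shad : ∀ p ∈ OO α r, sh r p ⊆ WB r K → 27 * (sh r p \ K1).card < s * g ^ 2

/-- CLB-A: the deterministic code. -/
def ClbAStmt : Prop :=
  ∀ (n r g s th : ℕ) (K : Finset (Finset (Fin n))), Num n r g s th → K ∈ MM (Fin n) r →
    Short r K g = ∅ →
    ∃ Z ⊆ OO (Fin n) r, s * g ^ 2 * Z.card ≤ 27 * (seed r g s (Short r K s) Z).card ∧
      seed r g s (Short r K s) Z ⊆ WB r K ∧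
      ∃ 𝒟 : Finset (Finset (Finset (Fin n))), 1 ≤ ∑ I ∈ 𝒟, ((th : ℝ)⁻¹) ^ I.card ∧
        ∀ I ∈ 𝒟, I ⊆ WB r K \ seed r g s (Short r K s) Z ∧ Stb I ∧
          (WB r K).card ≤ (seed r g s (Short r K s) Z).card + (n + 1) ^ 4 * I.card ∧
          ∃ E : Finset (Finset (Fin n)), th * E.card ≤ 36 * I.card ∧
            ∃ lam0 : Finset (Fin n) → Option Bool, ∀ U ⊆ Vr (Fin n) r, ∀ lam, I ⊆ U →
              (∀ A ∈ U, ∀ X ∈ WB r K, sd A X ≤ 2 → A ∈ I) → (∀ A ∈ I, lam A = lam0 A) →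
              Kn r g s (seed r g s (Short r K s) Z) E U lam = WB r K

theorem WB_subset : WB r K ⊆ K := clo_WB.1

/-- the line rule is sound -/
theorem few_WB (num : Num (Fintype.card α) r g s th) (mm : K ∈ MM α r) (gir : Short r K g = ∅)
    (Y : Finset α) (hY : Ctr r Y) (h : (ln r Y \ WB r K).card < g) : ln r Y ⊆ WB r K := by
  have h1 := card_ln_ge num.w1 num.w2 hY
  have h2 := num.gn
  have h3 := card_sdiff_add_card_inter (ln r Y) (WB r K)
  obtain ⟨A, hA⟩ : (ln r Y ∩ WB r K).Nonempty := card_pos.1 (by omega)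
  rw [mem_inter] at hA
  by_cases hK : KL r K Y
  · exact clo_WB.ln_subset hK hA.1 hA.2
  · have h4 := mem_Short_of_not_KL mm hK hA.1 (WB_subset hA.2)
    have h5 : (ln r Y \ K).card ≤ g :=
      (card_le_card (sdiff_subset_sdiff Subset.rfl WB_subset)).trans h.le
    have := Short_mono h5 h4
    simp [gir] at this

/-- the first phase -/
theorem phase1 (num : Num (Fintype.card α) r g s th) (mm : K ∈ MM α r) (gir : Short r K g = ∅) :
    ∃ Z ⊆ OO α r, s * g ^ 2 * Z.card ≤ 27 * (seed r g s (Short r K s) Z).card ∧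
      Pre r g s th K (seed r g s (Short r K s) Z) := by
  classical
  let 𝒵 := (OO α r).powerset.filter (fun Z => (∀ p ∈ Z, sh r p ⊆ WB r K) ∧
    s * g ^ 2 * Z.card ≤ 27 * (seed r g s (Short r K s) Z).card)
  obtain ⟨Z, hZ, hmax⟩ := exists_max_image 𝒵 card ⟨∅, by simp [𝒵]⟩
  obtain ⟨h1, h2, h3⟩ := mem_filter.1 hZ
  have hsd : ∀ Z' : Finset (Finset α × ℕ), Short r K s ∪ Z'.biUnion (sh r) ⊆
      seed r g s (Short r K s) Z' := fun Z' => shut_Kn.seed
  have hg : 0 < s * g ^ 2 := by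
    have := num.s0; have := num.g1; have := num.t3
    have : 0 < g := by omega
    positivity
  refine ⟨Z, mem_powerset.1 h1, h3, num, mm, gir, ?_, subset_union_left.trans (hsd Z),
    shut_Kn.few, fun p hp hpB => ?_⟩
  · refine Kn_subset (shut_seed (union_subset ?_ (biUnion_subset.2 h2)) (few_WB num mm gir))
    have := num.w1; have := num.w2; have := num.hs; have := num.gn; have := num.g1
    have := num.t3
    exact Short_subset_WB mm (by omega) (by omega)
  by_cases hpZ : p ∈ Z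
  · have : sh r p ⊆ seed r g s (Short r K s) Z :=
      (subset_biUnion_of_mem (sh r) hpZ).trans (subset_union_right.trans (hsd Z))
    rw [sdiff_eq_empty_iff_subset.2 this]
    simpa using hg
  by_contra hc
  have h4 : seed r g s (Short r K s) Z ⊆ seed r g s (Short r K s) (insert p Z) := by
    refine Kn_subset (shut_seed (Subset.trans ?_ (hsd _)) shut_Kn.few)
    exact union_subset_union Subset.rfl (biUnion_subset_biUnion_of_subset_left _ (subset_insert _ _))
  have h5 : sh r p ⊆ seed r g s (Short r K s) (insert p Z) :=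
    (subset_biUnion_of_mem (sh r) (mem_insert_self p Z)).trans (subset_union_right.trans (hsd _))
  have h6 := card_le_card (union_subset h5 h4)
  rw [← card_sdiff_add_card] at h6
  have h7 : insert p Z ∈ 𝒵 := by
    refine mem_filter.2 ⟨mem_powerset.2 (insert_subset hp (mem_powerset.1 h1)), ?_, ?_⟩
    · intro q hq
      rcases mem_insert.1 hq with rfl | hq
      exacts [hpB, h2 q hq]
    · rw [card_insert_of_notMem hpZ, mul_add, mul_one]; omega
  have := hmax _ h7
  rw [card_insert_of_notMem hpZ] at this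
  omega

theorem exists_KL_of_WB (mm : K ∈ MM α r) {X : Finset α} (hX : X ∈ WB r K) :
    ∃ Y, KL r K Y ∧ X ∈ ln r Y := by
  obtain ⟨h1, Y, hY, -, Z, hZ, hc⟩ := mem_WB.1 hX
  rcases hc.cases_head with rfl | ⟨c, hc, -⟩
  · exact ⟨Y, hY, hZ⟩
  · exact (mem_UU_or mm h1).resolve_left fun h => (mem_UU.1 h).2 c hc.2.1 hc.2.2

theorem sh_subset_WB {p : Finset α × ℕ} (hp : sh r p ⊆ K) {A : Finset α} (hA : A ∈ sh r p)
    (hB : A ∈ WB r K) : sh r p ⊆ WB r K :=
  fun _ hZ => clo_WB.conn (conn_sh hp hA hZ) hB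

namespace Pre

variable (h : Pre r g s th K K1)
include h

theorem card_B {X : Finset α} (hX : X ∈ WB r K) : X.card = r := card_of_MM h.mm (WB_subset hX)

/-- (i) a line with a point outside the seeds has many such points -/
theorem many {Y X : Finset α} (hX : X ∈ ln r Y) (hX1 : X ∉ K1) : g ≤ (ln r Y \ K1).card := by
  by_contra hc
  exact hX1 (h.few Y (ctr_of_mem_ln hX) (by omega) hX)

omit h in
/-- elements that move a point of a line outside the seeds -/
theorem many' {Y : Finset α} {k : ℕ} (hk : k ≤ (ln r Y \ K1).card) :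
    k ≤ (univ.filter (fun x => (tg Y x).card = r ∧ tg Y x ∉ K1)).card := by
  refine hk.trans (card_le_card_of_surjOn (tg Y) fun X hX => ?_)
  obtain ⟨h1, h2⟩ := mem_sdiff.1 hX
  obtain ⟨x, rfl⟩ := sd_eq_one.1 (mem_ln.1 h1).2
  exact ⟨x, by simpa using ⟨(mem_ln.1 h1).1, h2⟩, rfl⟩

/-- (ii) three lines of `K` on the same side of a point that is not heavy are slim -/
theorem slim3 {A D : Finset α} (hA : A ∈ WB r K) (hH : ¬ Heavy r K A) (hD : D.card = 3)
    (hside : D ⊆ A ∨ Disjoint D A) (hKL : ∀ a ∈ D, KL r K (tg A a)) {a : α} (ha : a ∈ D) :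
    (ln r (tg A a) \ K1).card ≤ s := by
  by_contra hc
  have cA := h.card_B hA
  obtain ⟨p, hp, hpK, hbox⟩ := box_subset_sh h.mm (WB_subset hA) hH hD hside hKL
  have hAp : A ∈ sh r p := hbox A cA (by
    rw [sd_comm, sd, symmDiff_symmDiff_cancel_left, hD])
  have hsh := h.shad p hp (sh_subset_WB hpK hAp hA)
  obtain ⟨b, c, hbc, e⟩ := card_eq_two.1 (show (D.erase a).card = 2 by
    rw [card_erase_of_mem ha, hD])
  have hb : b ∈ D.erase a := e ▸ mem_insert_self _ _
  have hc' : c ∈ D.erase a := e ▸ mem_insert_of_mem (mem_singleton_self _)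
  have eD : A ∆ D = tg (tg (tg A a) b) c := by
    rw [← insert_erase ha, e]
    simp only [tg, symmDiff_assoc]
    congr 1
    ext z
    have h1 := ne_of_mem_erase hb
    have h2 := ne_of_mem_erase hc'
    simp only [mem_insert, mem_singleton, mem_symmDiff]
    grind
  have h3 : ∀ Z : Finset α, Z.card = r → 3 ≤ sd (A ∆ D) Z := fun Z hZ => by
    have h1 := card_add_sdiff (A ∆ D) Z
    have h2 := sd_eq (A ∆ D) Z
    rcases hside with hs | hs
    · have : (A ∆ D).card + 3 = r := by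
        rw [symmDiff_of_ge hs, ← hD, card_sdiff_add_card_eq_card hs, cA]
      omega
    · have : (A ∆ D).card = r + 3 := by
        rw [Disjoint.symmDiff_eq_sup hs.symm, sup_eq_union, card_union_of_disjoint hs.symm, cA, hD]
      omega
  let f : Finset α → Finset α := fun Y => univ.filter (fun x => (tg Y x).card = r ∧ tg Y x ∉ K1)
  have step : ∀ Y x u, x ∈ f Y → g ≤ (f (tg (tg Y x) u)).card := fun Y x u hx => by
    obtain ⟨h1, h2⟩ := (mem_filter.1 hx).2
    exact many' (h.many (self_mem_ln h1 u) h2)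
  let T := (f (tg A a)).sigma (fun x => (f (tg (tg (tg A a) x) b)).sigma
    (fun y => f (tg (tg (tg (tg (tg A a) x) b) y) c)))
  have hT : s * g ^ 2 ≤ T.card := by
    rw [card_sigma]
    calc s * g ^ 2 ≤ (f (tg A a)).card * (g * g) := by
          rw [sq]; exact Nat.mul_le_mul_right _ (many' (by omega))
      _ ≤ _ := by
          rw [← smul_eq_mul]
          refine card_nsmul_le_sum _ _ _ fun x hx => ?_
          rw [card_sigma]
          refine (Nat.mul_le_mul_right g (step _ x b hx)).trans ?_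
          rw [← smul_eq_mul]
          exact card_nsmul_le_sum _ _ _ fun y hy => step _ y c hy
  let φ : (Σ _ : α, Σ _ : α, α) → Finset α := fun t => tg (tg (tg (A ∆ D) t.1) t.2.1) t.2.2
  have hφ : ∀ t ∈ T, (φ t).card = r ∧ φ t ∉ K1 := fun t ht => by
    have := (mem_filter.1 (mem_sigma.1 (mem_sigma.1 ht).2).2).2
    have e2 : φ t = tg (tg (tg (tg (tg (tg A a) t.1) b) t.2.1) c) t.2.2 := by
      simp only [φ, eD]
      rw [tg_comm _ t.2.1 c, tg_comm _ t.1 b, tg_comm _ t.1 c]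
    rwa [e2]
  have hsub : ∀ t, (A ∆ D) ∆ φ t ⊆ {t.1, t.2.1, t.2.2} := fun t z hz => by
    simp only [φ, symmDiff_tg, symmDiff_self, mem_tg, bot_eq_empty, notMem_empty] at hz
    simp only [mem_insert, mem_singleton]
    tauto
  have heq : ∀ t ∈ T, (A ∆ D) ∆ φ t = {t.1, t.2.1, t.2.2} := fun t ht =>
    eq_of_subset_of_card_le (hsub t) (card_le_three.trans (h3 _ (hφ t ht).1))
  have hsd : ∀ t ∈ T, sd (A ∆ D) (φ t) = 3 := fun t ht =>
    le_antisymm ((card_le_card (hsub t)).trans card_le_three) (h3 _ (hφ t ht).1)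
  have hle : T.card ≤ 27 * (sh r p \ K1).card := by
    refine card_le_mul_card_image_of_maps_to (f := φ) (fun t ht => ?_) 27 fun Z _ => ?_
    · exact mem_sdiff.2 ⟨hbox _ (hφ t ht).1 (hsd t ht), (hφ t ht).2⟩
    · rcases (T.filter (fun t => φ t = Z)).eq_empty_or_nonempty with e0 | ⟨t0, ht0⟩
      · simp [e0]
      have c3 : ((A ∆ D) ∆ Z).card = 3 := by
        rw [← (mem_filter.1 ht0).2]; exact hsd t0 (mem_filter.1 ht0).1
      have : T.filter (fun t => φ t = Z) ⊆ ((A ∆ D) ∆ Z).sigma (fun _ => ((A ∆ D) ∆ Z).sigma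
          (fun _ => (A ∆ D) ∆ Z)) := fun t ht => by
        rw [← (mem_filter.1 ht).2, heq t (mem_filter.1 ht).1]
        simp
      refine (card_le_card this).trans ?_
      simp [card_sigma, c3]
  omega

/-- a vertex outside the seeds has many neighbours outside the seeds -/
theorem many_nb {X : Finset α} (hX : X.card = r) (hX1 : X ∉ K1) :
    Fintype.card α * (g - 1) ≤ 2 * (nb r X \ K1).card := by
  have key := card_mul_le_card_mul (s := (univ : Finset α)) (t := nb r X \ K1)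
    (fun b Z => Z ∈ ln r (tg X b)) (m := g - 1) (n := 2) (fun b _ => ?_) (fun Z hZ => ?_)
  · rw [card_univ] at key; omega
  · have h1 := h.many (self_mem_ln hX b) hX1
    have h2 : (ln r (tg X b) \ K1).erase X ⊆ (nb r X \ K1).bipartiteAbove
        (fun b Z => Z ∈ ln r (tg X b)) b := fun Z hZ => by
      obtain ⟨h3, h4⟩ := mem_erase.1 hZ
      obtain ⟨h5, h6⟩ := mem_sdiff.1 h4
      refine (mem_bipartiteAbove _).2 ⟨mem_sdiff.2 ⟨mem_nb.2 ⟨(mem_ln.1 h5).1, ?_⟩, h6⟩, h5⟩
      exact (ln_clique (self_mem_ln hX b) h5).resolve_left h3.symm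
    have h3 := card_le_card h2
    have h4 := pred_card_le_card_erase (s := ln r (tg X b) \ K1) (a := X)
    omega
  · have hne : X ≠ Z := fun e => by
      have := (mem_nb.1 (mem_sdiff.1 hZ).1).2
      rw [← e] at this; simp at this
    rw [← card_image_of_injective _ (fun _ _ => tg_inj (X := X))]
    refine card_lines_pair (r := r) hne _ fun Y hY => ?_
    obtain ⟨b, hb, rfl⟩ := mem_image.1 hY
    exact ⟨self_mem_ln hX b, ((mem_bipartiteBelow _).1 hb).2⟩

open Classical in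
/-- (iii) few heavy points on a line outside the seeds -/
theorem few_heavy {Y : Finset α} (hY : KL r K Y) (hB : ln r Y ⊆ WB r K) :
    ((ln r Y \ K1).filter (Heavy r K)).card < th := by
  by_contra hc
  set H := (ln r Y \ K1).filter (Heavy r K) with hH
  obtain ⟨p, hp, hpK, hN⟩ := heavy_subset_sh h.mm hY
  have t3 := h.num.t3
  obtain ⟨X0, hX0⟩ : H.Nonempty := card_pos.1 (by omega)
  have m0 := (mem_sdiff.1 (mem_filter.1 hX0).1).1
  have hsh := h.shad p hp (sh_subset_WB hpK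
    (hN X0 m0 (mem_filter.1 hX0).2 X0 (mem_ln.1 m0).1 (by simp)) (hB m0))
  have key := card_mul_le_card_mul (s := H) (t := (sh r p \ K1) \ ln r Y)
    (fun X Z => sd X Z = 2) (m := Fintype.card α * (g - 3) / 2) (n := 3) (fun X hX => ?_)
    (fun Z hZ => ?_)
  · have h1 : ((sh r p \ K1) \ ln r Y).card ≤ (sh r p \ K1).card := card_le_card sdiff_subset
    have h2 := h.num.hs
    have h3 := h.num.g1
    have h4 := h.num.g2
    have h5 := h.num.gn
    set n := Fintype.card α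
    obtain ⟨k, rfl⟩ : ∃ k, g = k + 3 := ⟨g - 3, by omega⟩
    rw [Nat.add_sub_cancel] at key
    have h6 : n * k ≤ 2 * (n * k / 2) + 1 := by omega
    have h7 : th * (n * k / 2) ≤ H.card * (n * k / 2) := Nat.mul_le_mul_right _ (by omega)
    have h8 : 20 * (s * (k + 3) ^ 2) ≤ n * (k + 3) ^ 2 := by
      rw [← mul_assoc]; exact Nat.mul_le_mul_right _ h2
    have h9 : th * (n * k) ≤ th * (2 * (n * k / 2) + 1) := Nat.mul_le_mul_left _ h6
    have h10 : n * (k + 3) ^ 2 ≤ n * (9 * (th * k)) := Nat.mul_le_mul_left _ (by nlinarith)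
    have h11 : th ≤ th * (n * k) := Nat.le_mul_of_pos_right _ (Nat.mul_pos (by omega) (by omega))
    nlinarith
  · obtain ⟨h1, h2⟩ := mem_filter.1 hX
    obtain ⟨h3, h4⟩ := mem_sdiff.1 h1
    have h5 := h.many_nb (mem_ln.1 h3).1 h4
    have h6 : (nb r X \ K1) \ ln r Y ⊆ ((sh r p \ K1) \ ln r Y).bipartiteAbove
        (fun X Z => sd X Z = 2) X := fun Z hZ => by
      obtain ⟨h7, h8⟩ := mem_sdiff.1 hZ
      obtain ⟨h9, h10⟩ := mem_sdiff.1 h7
      obtain ⟨h11, h12⟩ := mem_nb.1 h9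
      exact (mem_bipartiteAbove _).2 ⟨mem_sdiff.2 ⟨mem_sdiff.2 ⟨hN X h3 h2 Z h11 h12.le, h10⟩, h8⟩, h12⟩
    have h7 := card_le_card h6
    have h8 := le_card_sdiff (ln r Y) (nb r X \ K1)
    have h9 := card_ln_le r Y
    have h10 := h.num.g1
    have h11 : Fintype.card α * (g - 1) = Fintype.card α * (g - 3) + 2 * Fintype.card α := by
      rw [show g - 1 = g - 3 + 2 by omega]; ring
    omega
  · obtain ⟨h1, h2⟩ := mem_sdiff.1 hZ
    refine card_adj_on_ln (mem_sh.1 (mem_sdiff.1 h1).1).1 h2 _ fun A hA => ?_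
    obtain ⟨h3, h4⟩ := (mem_bipartiteBelow _).1 hA
    exact ⟨(mem_sdiff.1 (mem_filter.1 h3).1).1, by rw [sd_comm]; exact h4.le⟩

end Pre

end Pool.Agent.MP_c3fbfc_co.V.Clb

end MrgPart0

-- ======== part 1: formerly Pool.Agent.MP_c3fbfc_co.VClb
section MrgPart1

/-! CLB, part B: the weighted count. -/

namespace Pool.Agent.MP_c3fbfc_co.V

namespace ClbB

open Finset Filter Clb

variable {α : Type} [Fintype α] [DecidableEq α]

/-- a code word -/
@[ext] structure Tup (α : Type) where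
  /-- the matroid -/
  K : Finset (Finset α)
  /-- the labelled points -/
  I : Finset (Finset α)
  /-- the planted points -/
  J : Finset (Finset α)
  /-- the explicit points -/
  X : Finset (Finset α)
  /-- the explicit centres -/
  E : Finset (Finset α)
  /-- the explicit shadows -/
  Z : Finset (Finset α × ℕ)
  /-- the labels -/
  lam : Finset α → Option Bool

/-- the code words that can be decoded -/
structure Valid (r g s : ℕ) (t : Tup α) : Prop where
  mm : t.K ∈ MM α r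
  hZ : t.Z ⊆ OO α r
  hJ : t.J ⊆ WB r t.K
  stb : Stb t.J
  hX : t.X ⊆ WB r t.K
  hI : t.I = t.X ∪ (t.J \ seed r g s (Short r t.K s) t.Z)
  nrm : ∀ A, A ∉ t.I → t.lam A = none
  dec : ∀ U ⊆ Vr α r, ∀ lam, t.I ⊆ U → (∀ A ∈ U, ∀ X ∈ WB r t.K, sd A X ≤ 2 → A ∈ t.I) →
    (∀ A ∈ t.I, lam A = t.lam A) →
    Kn r g s (seed r g s (Short r t.K s) t.Z) t.E U lam = WB r t.K

/-- the weight of a code word -/
noncomputable def wt (x : ℝ) (t : Tup α) : ℝ :=
  x ^ t.Z.card * (x ^ t.E.card * x ^ t.X.card) * (3 : ℝ)⁻¹ ^ t.I.card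

/-- the image of a code word -/
noncomputable def img (r s : ℕ) (t : Tup α) :
    (Finset (Finset α) × Finset (Finset α)) × Finset (Finset α × ℕ) × Finset (Finset α) ×
      Finset (Finset α) :=
  ((t.K \ WB r t.K ∪ t.J, Short r t.K s), t.Z, t.E, t.X)

variable {r g s th : ℕ}

theorem Valid.dec' {t : Tup α} (h : Valid r g s t) {lam : Finset α → Option Bool}
    (hl : ∀ A ∈ t.I, lam A = t.lam A) :
    Kn r g s (seed r g s (Short r t.K s) t.Z) t.E
      (t.X ∪ ((t.K \ WB r t.K ∪ t.J) \ seed r g s (Short r t.K s) t.Z)) lam = WB r t.K := by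
  have hB : WB r t.K ⊆ Vr α r := WB_subset.trans (sub_of_MM h.mm)
  refine h.dec _ (union_subset (h.hX.trans hB) (sdiff_subset.trans
    (union_subset (sdiff_subset.trans (sub_of_MM h.mm)) (h.hJ.trans hB)))) lam ?_ ?_ hl
  · rw [h.hI]
    exact union_subset_union_right (sdiff_subset_sdiff subset_union_right Subset.rfl)
  · intro A hA Y hY hd
    rw [h.hI]
    rcases mem_union.1 hA with hA | hA
    · exact mem_union_left _ hA
    obtain ⟨h1, h2⟩ := mem_sdiff.1 hA
    rcases mem_union.1 h1 with h1 | h1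
    · obtain ⟨h3, h4⟩ := mem_sdiff.1 h1
      rcases (sd_le_two ((card_of_MM h.mm h3).trans (card_of_MM h.mm (WB_subset hY)).symm)).1 hd
        with e | e
      · exact absurd (e ▸ hY) h4
      · exact absurd (clo_WB.2 Y hY A h3 (by rw [sd_comm]; exact e)) h4
    · exact mem_union_right _ (mem_sdiff.2 ⟨h1, h2⟩)

theorem Valid.inj {t t' : Tup α} (h : Valid r g s t) (h' : Valid r g s t')
    (e : img r s t = img r s t') {lam : Finset α → Option Bool}
    (hl : ∀ A ∈ t.I, lam A = t.lam A) (hl' : ∀ A ∈ t'.I, lam A = t'.lam A) : t = t' := by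
  simp only [img, Prod.mk.injEq] at e
  obtain ⟨⟨e1, e2⟩, e3, e4, e5⟩ := e
  have eB : WB r t.K = WB r t'.K := by
    rw [← h.dec' hl, ← h'.dec' hl', e1, e2, e3, e4, e5]
  have k1 : ∀ {v : Tup α}, Valid r g s v → (v.K \ WB r v.K ∪ v.J) ∪ WB r v.K = v.K := fun hv => by
    rw [union_assoc, union_eq_right.2 hv.hJ, sdiff_union_of_subset WB_subset]
  have k2 : ∀ {v : Tup α}, Valid r g s v → (v.K \ WB r v.K ∪ v.J) ∩ WB r v.K = v.J := fun hv => by
    rw [union_inter_distrib_right, sdiff_inter_self, empty_union, inter_eq_left.2 hv.hJ]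
  have eK : t.K = t'.K := by rw [← k1 h, ← k1 h', e1, eB]
  have eJ : t.J = t'.J := by rw [← k2 h, ← k2 h', e1, eB]
  have eI : t.I = t'.I := by rw [h.hI, h'.hI, e5, eJ, e2, e3]
  refine Tup.ext eK eI eJ e5 e4 e3 (funext fun A => ?_)
  by_cases hA : A ∈ t.I
  · rw [← hl A hA, hl' A (eI ▸ hA)]
  · rw [h.nrm A hA, h'.nrm A (eI ▸ hA)]

/-- small sets -/
def Sm (α : Type) [Fintype α] (s : ℕ) : Finset (Finset α) := univ.filter (fun S => S.card ≤ s)

open Classical in
/-- the possible tables -/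
noncomputable def Tab (α : Type) [Fintype α] [DecidableEq α] (r s : ℕ) :
    Finset (Finset (Finset α)) :=
  ((Sm α s).powerset ×ˢ (Sm α s).powerset).image (fun p => (Vr α r).filter (fun X =>
    ∃ S : Finset α, (S ∈ p.1 ∧ S ⊆ X) ∨ (S ∈ p.2 ∧ Disjoint S X)))

theorem Short_mem_Tab (K : Finset (Finset α)) : Short r K s ∈ Tab α r s := by
  classical
  refine mem_image.2 ⟨((Sm α s).filter (Dep r K), (Sm α s).filter (Cod r K)),
    mem_product.2 ⟨mem_powerset.2 (filter_subset _ _), mem_powerset.2 (filter_subset _ _)⟩, ?_⟩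
  ext X
  simp only [mem_Short, mem_filter, mem_Vr, Sm, mem_univ, true_and]
  refine and_congr_right fun _ => exists_congr fun S => by tauto

theorem card_Tab : ((Tab α r s).card : ℝ) ≤ Real.exp (2 * (Sm α s).card) := by
  have h : (Tab α r s).card ≤ 2 ^ (Sm α s).card * 2 ^ (Sm α s).card := by
    refine card_image_le.trans ?_
    rw [card_product, card_powerset]
  have h2 : (2 : ℝ) ^ (Sm α s).card ≤ Real.exp (Sm α s).card := by
    rw [← mul_one ((Sm α s).card : ℝ), Real.exp_nat_mul]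
    exact pow_le_pow_left₀ (by norm_num) (by linarith [Real.add_one_le_exp 1]) _
  calc ((Tab α r s).card : ℝ) ≤ 2 ^ (Sm α s).card * 2 ^ (Sm α s).card := by exact_mod_cast h
    _ ≤ Real.exp (Sm α s).card * Real.exp (Sm α s).card := by gcongr
    _ = _ := by rw [← Real.exp_add, two_mul]

/-- the total weight of all code words -/
theorem upper (h0 : 0 < r) (h1 : r < Fintype.card α) {x : ℝ} (hx : 0 ≤ x) (𝒯 : Finset (Tup α))
    (h : ∀ t ∈ 𝒯, Valid r g s t) :
    ∑ t ∈ 𝒯, wt x t ≤ (MM α r).card *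
      Real.exp (2 * (Sm α s).card + x * (2 ^ Fintype.card α * (r + 3))) := by
  classical
  let Y := (MM α r ×ˢ Tab α r s) ×ˢ (OO α r).powerset ×ˢ
    (univ : Finset (Finset α)).powerset ×ˢ (univ : Finset (Finset α)).powerset
  have hm : ∀ t ∈ 𝒯, img r s t ∈ Y := fun t ht => by
    have v := h t ht
    simp only [Y, img, mem_product, mem_powerset, subset_univ, and_true]
    exact ⟨⟨add_stb (relax v.mm clo_WB) h0 h1 (v.hJ.trans (clo_WB.subset_Fr v.mm)) v.stb,
      Short_mem_Tab _⟩, v.hZ⟩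
  rw [← sum_fiberwise_of_maps_to hm]
  have hf : ∀ y ∈ Y, ∑ t ∈ 𝒯 with img r s t = y, wt x t ≤
      x ^ y.2.1.card * (x ^ y.2.2.1.card * x ^ y.2.2.2.card) := fun y _ => by
    have hs := secrets (L := Option Bool) (𝒯.filter fun t => img r s t = y) Tup.I Tup.lam
      fun lam c hc c' hc' a b => (h c (mem_filter.1 hc).1).inj (h c' (mem_filter.1 hc').1)
        ((mem_filter.1 hc).2.trans (mem_filter.1 hc').2.symm) a b
    have e3 : (Fintype.card (Option Bool) : ℝ) = 3 := by simp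
    rw [e3] at hs
    refine le_trans (le_of_eq ?_) (mul_le_of_le_one_right (by positivity) hs)
    rw [mul_sum]
    refine sum_congr rfl fun t ht => ?_
    rw [← (mem_filter.1 ht).2]
    rfl
  refine (sum_le_sum hf).trans ?_
  have w1 := wsum (OO α r) hx
  have w2 := wsum (univ : Finset (Finset α)) hx
  rw [card_univ, Fintype.card_finset] at w2
  rw [card_OO] at w1
  have e : ∑ y ∈ Y, x ^ y.2.1.card * (x ^ y.2.2.1.card * x ^ y.2.2.2.card) =
      (MM α r).card * (Tab α r s).card * ((∑ S ∈ (OO α r).powerset, x ^ S.card) *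
        ((∑ S ∈ (univ : Finset (Finset α)).powerset, x ^ S.card) *
          ∑ S ∈ (univ : Finset (Finset α)).powerset, x ^ S.card)) := by
    rw [sum_product]
    simp only [sum_const, card_product, nsmul_eq_mul, Nat.cast_mul]
    congr 1
    rw [sum_product, sum_mul]
    refine sum_congr rfl fun Z _ => ?_
    simp only [← mul_sum]
    rw [sum_product, sum_mul_sum]
  rw [e, mul_assoc]
  refine mul_le_mul_of_nonneg_left ?_ (Nat.cast_nonneg _)
  have p : ∀ {β : Type} (Ω : Finset (Finset β)), 0 ≤ ∑ S ∈ Ω, x ^ S.card := fun Ω =>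
    sum_nonneg fun _ _ => by positivity
  have p1 := p (OO α r).powerset
  have p2 := p (univ : Finset (Finset α)).powerset
  refine (mul_le_mul card_Tab (mul_le_mul w1 (mul_le_mul w2 w2 p2 (Real.exp_pos _).le)
    (by positivity) (Real.exp_pos _).le) (by positivity) (Real.exp_pos _).le).trans (le_of_eq ?_)
  simp only [← Real.exp_add]
  congr 1
  push_cast
  ring

omit [Fintype α] [DecidableEq α] in
theorem wt_eq (L : ℝ) (t : Tup α) : wt (Real.exp (-L)) t =
    Real.exp (-((t.Z.card + t.E.card + t.X.card) * L + t.I.card * Real.log 3)) := by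
  have e : (3 : ℝ)⁻¹ = Real.exp (-Real.log 3) := by rw [Real.exp_neg, Real.exp_log (by norm_num)]
  rw [wt, e]
  simp only [← Real.exp_nat_mul, ← Real.exp_add]
  congr 1
  ring

/-- the code words over one matroid have large weight -/
theorem lower {n : ℕ} (hA : ClbAStmt) (num : Num n r g s th) {K : Finset (Finset (Fin n))}
    (hK : K ∈ MM (Fin n) r) (gir : Short r K g = ∅) {L : ℝ} (hL : 2 ≤ L) (hLg : L ≤ 100 * g)
    (hns : n ≤ 40 * s) (hg : 1080000 ≤ g) (hth : 3 * Real.exp (10 ^ 10) ≤ th) :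
    ∃ 𝒯 : Finset (Tup (Fin n)), (∀ t ∈ 𝒯, Valid r g s t ∧ t.K = K) ∧
      Real.exp ((WB r K).card / (6 * n * (n + 1) ^ 4)) ≤ ∑ t ∈ 𝒯, wt (Real.exp (-L)) t := by
  classical
  obtain ⟨Z, hZ, hZc, hsub, 𝒟, hsum, hD⟩ := hA n r g s th K num hK gir
  set K1 := seed r g s (Short r K s) Z with hK1
  choose! h1 h2 h3 E hE lam0 hdec using hD
  have hn4 := num.gn
  have hn : (4320000 : ℝ) ≤ n := by exact_mod_cast (by omega : 4320000 ≤ n)
  have hg' : (1080000 : ℝ) ≤ g := by exact_mod_cast hg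
  have hgn : (4 : ℝ) * g ≤ n := by exact_mod_cast hn4
  have hns' : (n : ℝ) ≤ 40 * s := by exact_mod_cast hns
  have hs0 : (0 : ℝ) < s := by linarith
  have hgt : (g : ℝ) ≤ 4 * th := by
    have := num.g2; have := num.t3
    exact_mod_cast (by omega : g ≤ 4 * th)
  have ht3 : (3 : ℝ) ≤ th := by exact_mod_cast num.t3
  have hZ' : (s : ℝ) * g ^ 2 * Z.card ≤ 27 * K1.card := by exact_mod_cast hZc
  have hl3 : Real.log 3 ≤ 2 := by
    have := Real.log_le_sub_one_of_pos (show (0 : ℝ) < 3 by norm_num); linarith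
  have hQ : (1 : ℝ) ≤ (n + 1) ^ 4 := one_le_pow₀ (by linarith)
  let mk : Finset (Finset (Fin n)) → Finset (Finset (Fin n)) → Finset (Finset (Fin n)) →
      Tup (Fin n) := fun I J X => ⟨K, I, J, X, E I, Z, fun A => if A ∈ I then lam0 I A else none⟩
  have val : ∀ I ∈ 𝒟, ∀ J X, J ⊆ WB r K → Stb J → X ⊆ WB r K → I = X ∪ (J \ K1) →
      Valid r g s (mk I J X) := fun I hI J X a b c d =>
    ⟨hK, hZ, a, b, c, d, fun A hA => if_neg hA, fun U hU lam u1 u2 u3 =>
      hdec I hI U hU lam u1 u2 fun A hA => (u3 A hA).trans (if_pos hA)⟩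
  by_cases hc : ∃ I ∈ 𝒟, 140 * n * L * I.card ≤ K1.card
  · obtain ⟨I, hI, hc⟩ := hc
    obtain ⟨G, g1, g2, g3⟩ := exists_stb (hsub.trans (WB_subset.trans (sub_of_MM hK)))
      (by rw [Fintype.card_fin]; omega)
    rw [Fintype.card_fin] at g3
    have g4 : (K1.card : ℝ) ≤ n * G.card := by exact_mod_cast g3
    refine ⟨G.powerset.image fun Φ => mk I Φ I, fun t ht => ?_, ?_⟩
    · obtain ⟨Φ, hΦ, rfl⟩ := mem_image.1 ht
      have := mem_powerset.1 hΦ
      refine ⟨val I hI Φ I (this.trans (g1.trans hsub)) (g2.mono this)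
        ((h1 I hI).trans sdiff_subset) ?_, rfl⟩
      rw [sdiff_eq_empty_iff_subset.2 (this.trans g1), union_empty]
    rw [sum_image fun a _ b _ e => congrArg Tup.J e]
    simp only [wt_eq, mk, sum_const, card_powerset, nsmul_eq_mul, Nat.cast_pow, Nat.cast_ofNat]
    rw [← Real.exp_log (show (0 : ℝ) < 2 by norm_num), ← Real.exp_nat_mul, ← Real.exp_add,
      Real.exp_le_exp, div_le_iff₀ (by positivity)]
    have a1 : (th : ℝ) * (E I).card ≤ 36 * I.card := by exact_mod_cast hE I hI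
    have a2 : ((WB r K).card : ℝ) ≤ K1.card + (n + 1) ^ 4 * I.card := by exact_mod_cast h3 I hI
    have i0 : (0 : ℝ) ≤ I.card := Nat.cast_nonneg _
    have z0 : (0 : ℝ) ≤ Z.card := Nat.cast_nonneg _
    have e0 : (0 : ℝ) ≤ (E I).card := Nat.cast_nonneg _
    have k0 : (0 : ℝ) ≤ K1.card := Nat.cast_nonneg _
    have a3 : ((E I).card : ℝ) ≤ 12 * I.card := by nlinarith
    have a4 : 10 * n * L * Z.card ≤ K1.card := by
      have b1 : 270 * n * L ≤ s * g ^ 2 := by
        calc 270 * n * L ≤ 270 * (40 * s) * (100 * g) := by gcongr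
          _ = s * (1080000 * g) := by ring
          _ ≤ s * g ^ 2 := by rw [sq]; gcongr
      nlinarith [mul_le_mul_of_nonneg_right b1 z0]
    have a5 : (I.card : ℝ) ≤ K1.card := by
      have : (1 : ℝ) ≤ 140 * n * L := by nlinarith
      nlinarith
    have a6 : ((WB r K).card : ℝ) ≤ 2 * (n + 1) ^ 4 * K1.card := by nlinarith
    have a7 : n * (((E I).card + I.card) * L + I.card * Real.log 3) ≤ K1.card / 10 := by
      have b1 : ((E I).card + I.card) * L + I.card * Real.log 3 ≤ 14 * I.card * L := by nlinarith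
      nlinarith [mul_le_mul_of_nonneg_left b1 (show (0 : ℝ) ≤ n by linarith)]
    have a8 : K1.card * (2 / 3 : ℝ) ≤ n * (G.card * Real.log 2) := by
      have := Real.log_two_gt_d9
      nlinarith
    have a9 : (K1.card : ℝ) / 3 ≤ n * (G.card * Real.log 2 +
        -((Z.card + (E I).card + I.card) * L + I.card * Real.log 3)) := by nlinarith
    nlinarith [mul_le_mul_of_nonneg_left a9 (show (0 : ℝ) ≤ 6 * (n + 1) ^ 4 by linarith)]
  · push Not at hc
    refine ⟨𝒟.image fun I => mk I I ∅, fun t ht => ?_, ?_⟩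
    · obtain ⟨I, hI, rfl⟩ := mem_image.1 ht
      refine ⟨val I hI I ∅ ((h1 I hI).trans sdiff_subset) (h2 I hI) (empty_subset _) ?_, rfl⟩
      rw [empty_union, sdiff_eq_self_of_disjoint (disjoint_of_subset_left (h1 I hI) sdiff_disjoint)]
    rw [sum_image fun a _ b _ e => congrArg Tup.I e]
    refine (le_mul_of_one_le_right (Real.exp_pos _).le hsum).trans ?_
    rw [mul_sum]
    refine sum_le_sum fun I hI => ?_
    have hth0 : (0 : ℝ) < th := by linarith
    have e : (th : ℝ)⁻¹ = Real.exp (-Real.log th) := by rw [Real.exp_neg, Real.exp_log hth0]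
    rw [wt_eq, e, ← Real.exp_nat_mul, ← Real.exp_add, Real.exp_le_exp]
    simp only [mk, card_empty, Nat.cast_zero, add_zero]
    have a0 : Real.log 3 + 10 ^ 10 ≤ Real.log th := by
      have := Real.log_le_log (by positivity) hth
      rwa [Real.log_mul (by norm_num) (Real.exp_pos _).ne', Real.log_exp] at this
    have a1 : (th : ℝ) * (E I).card ≤ 36 * I.card := by exact_mod_cast hE I hI
    have a2 : ((WB r K).card : ℝ) ≤ K1.card + (n + 1) ^ 4 * I.card := by exact_mod_cast h3 I hI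
    have i0 : (0 : ℝ) ≤ I.card := Nat.cast_nonneg _
    have z0 : (0 : ℝ) ≤ Z.card := Nat.cast_nonneg _
    have e0 : (0 : ℝ) ≤ (E I).card := Nat.cast_nonneg _
    have a3 := (hc I hI).le
    have a4 : (E I).card * L ≤ 14400 * I.card := by
      have : (E I).card * L ≤ (E I).card * (400 * th) := by gcongr; linarith
      nlinarith
    have a5 : Z.card * L ≤ 1512000000 * I.card := by
      refine le_of_mul_le_mul_left ?_ (show (0 : ℝ) < s * g ^ 2 by positivity)
      calc s * g ^ 2 * (Z.card * L) = (s * g ^ 2 * Z.card) * L := by ring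
        _ ≤ (27 * (140 * n * L * I.card)) * L :=
          mul_le_mul_of_nonneg_right (by linarith) (by linarith)
        _ ≤ (27 * (140 * (40 * s) * (100 * g) * I.card)) * (100 * g) := by gcongr
        _ = _ := by ring
    have a6 : 140 * n * L ≤ (n + 1) ^ 4 := by
      have b1 : 140 * n * L ≤ 3500 * n ^ 2 := by nlinarith
      have b2 : (n : ℝ) ^ 2 * n ^ 2 ≤ (n + 1) ^ 4 := by
        rw [← pow_add]; exact pow_le_pow_left₀ (by linarith) (by linarith) _
      have b3 : (3500 : ℝ) ≤ n ^ 2 := by nlinarith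
      nlinarith [mul_le_mul_of_nonneg_right b3 (sq_nonneg (n : ℝ))]
    have a7 : ((WB r K).card : ℝ) / (6 * n * (n + 1) ^ 4) ≤ I.card := by
      rw [div_le_iff₀ (by positivity)]
      have b1 := mul_le_mul_of_nonneg_right a6 i0
      have b2 : (0 : ℝ) ≤ (n + 1) ^ 4 * I.card := by positivity
      nlinarith
    nlinarith [mul_le_mul_of_nonneg_left a0 i0]

theorem card_Sm (n : ℕ) : ((Sm (Fin n) (n / 20)).card : ℝ) ≤ (n + 1) * (19 / 10) ^ n := by
  have h : Sm (Fin n) (n / 20) ⊆ (range (n / 20 + 1)).biUnion fun k => Vr (Fin n) k := fun S hS =>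
    mem_biUnion.2 ⟨S.card, mem_range.2 (Nat.lt_succ_of_le (mem_filter.1 hS).2), mem_Vr.2 rfl⟩
  have h1 : ((Sm (Fin n) (n / 20)).card : ℝ) ≤ ∑ k ∈ range (n / 20 + 1), (n.choose k : ℝ) := by
    have := (card_le_card h).trans card_biUnion_le
    simp only [card_Vr, Fintype.card_fin] at this
    exact_mod_cast this
  refine h1.trans ((sum_le_card_nsmul _ _ ((19 / 10 : ℝ) ^ n) fun k hk =>
    choose_small (by have := mem_range.1 hk; omega)).trans ?_)
  rw [card_range, nsmul_eq_mul]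
  gcongr
  exact_mod_cast (by omega : n / 20 + 1 ≤ n + 1)

theorem tendsto_gg : Tendsto gg atTop atTop :=
  tendsto_atTop.2 fun b => (eventually_ge_atTop (64 ^ b)).mono fun _ hn =>
    Nat.le_log_of_pow_le (by norm_num) hn

theorem log_le_gg {n : ℕ} (hn : 0 < n) (hg : 1 ≤ gg n) : 12 * Real.log n ≤ 100 * gg n := by
  have h1 : (n : ℝ) ≤ 2 ^ (6 * (gg n + 1)) := by
    rw [pow_mul]
    exact_mod_cast (Nat.lt_pow_succ_log_self (b := 64) (by norm_num) n).le
  have h2 := Real.log_le_log (by exact_mod_cast hn) h1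
  rw [Real.log_pow] at h2
  have h3 := Real.log_two_lt_d9
  have h4 : (1 : ℝ) ≤ gg n := by exact_mod_cast hg
  push_cast at h2
  nlinarith

theorem four_gg_le {n : ℕ} (hn : 0 < n) : 4 * gg n ≤ n := by
  have h1 : 64 ^ gg n ≤ n := Nat.pow_log_le_self 64 hn.ne'
  have h2 : ∀ k : ℕ, 4 * k ≤ 64 ^ k := fun k => by
    induction k with
    | zero => simp
    | succ k ih => have := Nat.one_le_pow k 64 (by norm_num); rw [pow_succ]; omega
  exact (h2 _).trans h1

end ClbB

open Finset Filter Clb ClbB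

theorem clb (h : Clb.ClbAStmt) : ClbStmt := by
  classical
  obtain ⟨t₀, ht₀⟩ := exists_nat_ge (3 * Real.exp (10 ^ 10))
  filter_upwards [tendsto_gg.eventually_ge_atTop (3 * t₀ + 1080000), eventually_ge_atTop 100000,
    ev_exp 200000 11] with n hg hn hev r hr
  obtain ⟨w1, w2, w3⟩ := hr
  have hn' : (100000 : ℝ) ≤ n := by exact_mod_cast hn
  have num : Num n r (gg n) (n / 20) (gg n / 3) :=
    ⟨w1, w2, by omega, by omega, by omega, by omega, by omega, four_gg_le (by omega)⟩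
  have hL : 2 ≤ 12 * Real.log n := by
    have := Real.log_le_log (by norm_num) (show (2 : ℝ) ≤ n by linarith)
    linarith [Real.log_two_gt_d9]
  have hth : 3 * Real.exp (10 ^ 10) ≤ (gg n / 3 : ℕ) :=
    ht₀.trans (by exact_mod_cast (by omega : t₀ ≤ gg n / 3))
  set 𝓑 := (MM (Fin n) r).filter (fun K => Short r K (gg n) = ∅ ∧
    n.choose r < n ^ 3 * (WB r K).card) with h𝓑
  have key := fun K (hK : K ∈ 𝓑) => lower h num (mem_filter.1 hK).1 (mem_filter.1 hK).2.1 hL
    (log_le_gg (by omega) (by omega)) (by omega) (by omega) hth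
  choose! 𝒯 h1 h2 using key
  have up := upper (g := gg n) (s := n / 20) (r := r) (by omega)
    (by rw [Fintype.card_fin]; omega) (Real.exp_pos (-(12 * Real.log n))).le (𝓑.biUnion 𝒯)
    fun t ht => by
      obtain ⟨K, hK, ht⟩ := mem_biUnion.1 ht
      exact (h1 K hK t ht).1
  rw [sum_biUnion fun K hK K' hK' hne => disjoint_left.2 fun t a b =>
    hne ((h1 K hK t a).2.symm.trans (h1 K' hK' t b).2), Fintype.card_fin] at up
  have ex : Real.exp (-(12 * Real.log n)) = ((n : ℝ) ^ 12)⁻¹ := by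
    rw [Real.exp_neg, show 12 * Real.log n = ((12 : ℕ) : ℝ) * Real.log n by norm_num,
      Real.exp_nat_mul, Real.exp_log (by linarith)]
  set P : ℝ := 2 ^ n with hP
  have hP0 : 0 < P := by positivity
  have low : ∀ K ∈ 𝓑, Real.exp (P / (5000 * n ^ 9)) ≤
      ∑ t ∈ 𝒯 K, wt (Real.exp (-(12 * Real.log n))) t := fun K hK => by
    refine le_trans (Real.exp_le_exp.2 ?_) (h2 K hK)
    have a1 : (n.choose r : ℝ) ≤ n ^ 3 * (WB r K).card := by
      exact_mod_cast (mem_filter.1 hK).2.2.le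
    have a2 : (n.choose (n / 2) : ℝ) ≤ 24 * n.choose r := by exact_mod_cast w3
    have a3 := two_pow_le_middle n
    have a4 : (n : ℝ) + 1 ≤ 2 * n := by linarith
    rw [div_le_div_iff₀ (by positivity) (by positivity)]
    calc P * (6 * n * (n + 1) ^ 4) ≤ ((2 * n) * (24 * (n ^ 3 * ((WB r K).card : ℝ)))) *
          (6 * n * (2 * n) ^ 4) := by
          gcongr
          exact a3.trans (by gcongr; exact a2.trans (by gcongr))
      _ = ((WB r K).card : ℝ) * (4608 * n ^ 9) := by ring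
      _ ≤ _ := by gcongr; norm_num
  have tot := (card_nsmul_le_sum _ _ _ low).trans up
  rw [nsmul_eq_mul, ex] at tot
  have fin : 2 * ((Sm (Fin n) (n / 20)).card : ℝ) + ((n : ℝ) ^ 12)⁻¹ * (P * (r + 3)) +
      3 * n ^ 2 ≤ P / (5000 * n ^ 9) := by
    have b1 := card_Sm n
    have b2 : (1 : ℝ) ≤ (19 / 10) ^ n := one_le_pow₀ (by norm_num)
    have b3 : (r : ℝ) + 3 ≤ n := by exact_mod_cast (by omega : r + 3 ≤ n)
    have b4 : ((n : ℝ) ^ 12)⁻¹ * (P * (r + 3)) ≤ P / (10000 * n ^ 9) := by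
      rw [inv_mul_eq_div, div_le_div_iff₀ (by positivity) (by positivity)]
      calc P * (r + 3) * (10000 * n ^ 9) ≤ P * n * (n ^ 2 * n ^ 9) := by gcongr; nlinarith
        _ = _ := by ring
    have b5 : 2 * ((Sm (Fin n) (n / 20)).card : ℝ) + 3 * n ^ 2 ≤ P / (10000 * n ^ 9) := by
      rw [le_div_iff₀ (by positivity)]
      refine le_trans ?_ hev
      have c1 : 2 * ((Sm (Fin n) (n / 20)).card : ℝ) + 3 * n ^ 2 ≤ 20 * n ^ 2 * (19 / 10) ^ n := by
        have c2 : ((n : ℝ) + 1) * (19 / 10) ^ n ≤ n ^ 2 * (19 / 10) ^ n := by gcongr; nlinarith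
        nlinarith [mul_le_mul_of_nonneg_left b2 (sq_nonneg (n : ℝ))]
      calc _ ≤ 20 * n ^ 2 * (19 / 10) ^ n * (10000 * (n : ℝ) ^ 9) := by gcongr
        _ = _ := by ring
    have e : P / (5000 * n ^ 9) = P / (10000 * n ^ 9) + P / (10000 * n ^ 9) := by
      field_simp; ring
    linarith
  refine le_of_mul_le_mul_right (le_trans ?_ tot) (Real.exp_pos _)
  rw [mul_assoc, ← Real.exp_add]
  gcongr
  linarith

end Pool.Agent.MP_c3fbfc_co.V

end MrgPart1

-- ======== part 2: formerly Pool.Agent.MP_c3fbfc_co.VInv1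
section MrgPart2

/-! INV, finite part: the four classes of vertices defined by two elements. -/

namespace Pool.Agent.MP_c3fbfc_co.V

open Finset
open scoped symmDiff

namespace Inv

variable {α : Type*} [Fintype α] [DecidableEq α]

/-- vertices containing `a` but not `b` -/
def QQ (r : ℕ) (a b : α) : Finset (Finset α) := (Vr α r).filter (fun X => a ∈ X ∧ b ∉ X)

/-- vertices containing neither element -/
def V0 (r : ℕ) (a b : α) : Finset (Finset α) := (Vr α r).filter (fun X => a ∉ X ∧ b ∉ X)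

/-- vertices containing both elements -/
def V2 (r : ℕ) (a b : α) : Finset (Finset α) := (Vr α r).filter (fun X => a ∈ X ∧ b ∈ X)

open Classical in
/-- stable subsets -/
noncomputable def stab (Λ : Finset (Finset α)) : Finset (Finset (Finset α)) :=
  Λ.powerset.filter Stb

/-- points of `Q` without a neighbour in `I` -/
def fr {α : Type*} [DecidableEq α] (Q I : Finset (Finset α)) : Finset (Finset α) :=
  Q.filter (fun X => ∀ Z ∈ I, sd Z X ≠ 2)

theorem mem_QQ {r : ℕ} {a b : α} {X : Finset α} : X ∈ QQ r a b ↔ X.card = r ∧ a ∈ X ∧ b ∉ X := by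
  rw [QQ, mem_filter, mem_Vr]

theorem mem_V0 {r : ℕ} {a b : α} {X : Finset α} : X ∈ V0 r a b ↔ X.card = r ∧ a ∉ X ∧ b ∉ X := by
  rw [V0, mem_filter, mem_Vr]

theorem mem_V2 {r : ℕ} {a b : α} {X : Finset α} : X ∈ V2 r a b ↔ X.card = r ∧ a ∈ X ∧ b ∈ X := by
  rw [V2, mem_filter, mem_Vr]

omit [Fintype α] in
theorem mem_stab {Λ I : Finset (Finset α)} : I ∈ stab Λ ↔ I ⊆ Λ ∧ Stb I := by
  classical
  unfold stab
  rw [mem_filter, mem_powerset]

omit [Fintype α] in
theorem mem_fr {Q I : Finset (Finset α)} {X : Finset α} :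
    X ∈ fr Q I ↔ X ∈ Q ∧ ∀ Z ∈ I, sd Z X ≠ 2 := mem_filter

theorem ln_two {r : ℕ} {Y Y' Z Z' : Finset α} (hc : Y.card = Y'.card) (hne : Z ≠ Z')
    (h1 : Z ∈ ln r Y) (h2 : Z' ∈ ln r Y) (h3 : Z ∈ ln r Y') (h4 : Z' ∈ ln r Y') : Y = Y' := by
  obtain ⟨u, hu, rfl⟩ := ln_pair h1 h2 hne
  obtain ⟨v, hv, rfl⟩ := ln_pair h3 h4 hne
  have cZ := (mem_ln.1 h1).1
  have cZ' := (mem_ln.1 h2).1
  have h5 : sd Z Z' = 2 := (ln_clique h1 h2).resolve_left hne
  have h6 := sd_of_card_eq (cZ.trans cZ'.symm)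
  have h7 := sd_of_card_eq (cZ'.trans cZ.symm)
  rw [sd_comm] at h7
  have h8 : (Z \ Z').card ≤ 1 := by omega
  have h9 : (Z' \ Z).card ≤ 1 := by omega
  rw [mem_symmDiff] at hu hv
  rcases hu with hu | hu <;> rcases hv with hv | hv
  · rw [card_le_one.1 h8 u (mem_sdiff.2 hu) v (mem_sdiff.2 hv)]
  · have := card_tg_of_mem hu.1
    have := card_tg_of_notMem hv.2
    omega
  · have := card_tg_of_mem hv.1
    have := card_tg_of_notMem hu.2
    omega
  · rw [card_le_one.1 h9 u (mem_sdiff.2 hu) v (mem_sdiff.2 hv)]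

/-- the interface between a class `Λ` and the class `Q` -/
structure Side (r : ℕ) (Λ Q : Finset (Finset α)) (e : α) (c : ℕ) : Prop where
  hΛ : Λ ⊆ Vr α r
  hQ : Q ⊆ Vr α r
  hx : ∀ Z ∈ Λ, ∀ X ∈ Q, e ∈ Z ∆ X
  hc : ∀ Z ∈ Λ, (ln r (tg Z e)).card = c + 1 ∧ (ln r (tg Z e)).erase Z ⊆ Q
  hb : ∀ X ∈ Q, ∃ X', ln r (tg X e) ⊆ insert X (insert X' Λ)

theorem side0 {r : ℕ} {a b : α} (hab : a ≠ b) : Side r (V0 r a b) (QQ r a b) a r where
  hΛ := filter_subset _ _
  hQ := filter_subset _ _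
  hx Z hZ X hX := mem_symmDiff.2 (Or.inr ⟨(mem_QQ.1 hX).2.1, (mem_V0.1 hZ).2.1⟩)
  hc Z hZ := by
    obtain ⟨h1, h2, h3⟩ := mem_V0.1 hZ
    have h4 := card_tg_of_notMem h2
    refine ⟨?_, fun W hW => ?_⟩
    · rw [ln_costar (h1 ▸ h4), card_image_of_injective _ (fun _ _ => tg_inj), h4, h1]
    · obtain ⟨h5, h6⟩ := mem_erase.1 hW
      obtain ⟨h7, h8⟩ := mem_ln.1 h6
      obtain ⟨y, rfl⟩ := sd_eq_one.1 h8
      have h9 : y ≠ a := fun h => h5 (by rw [h, tg_tg])
      have h10 : b ∉ tg Z a := by simp [mem_tg, h3, hab.symm]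
      have h11 : y ≠ b := fun h => by
        have := card_tg_of_notMem h10
        rw [h] at h7
        omega
      exact mem_QQ.2 ⟨h7, by simp [mem_tg, h2, h9.symm], by simp [mem_tg, h3, hab.symm, h11.symm]⟩
  hb X hX := by
    obtain ⟨-, h2, h3⟩ := mem_QQ.1 hX
    refine ⟨tg (tg X a) b, fun W hW => ?_⟩
    obtain ⟨h7, h8⟩ := mem_ln.1 hW
    obtain ⟨y, rfl⟩ := sd_eq_one.1 h8
    by_cases h9 : y = a
    · rw [h9, tg_tg]; exact mem_insert_self _ _
    by_cases h10 : y = b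
    · rw [h10]; exact mem_insert_of_mem (mem_insert_self _ _)
    refine mem_insert_of_mem (mem_insert_of_mem (mem_V0.2 ⟨h7, ?_, ?_⟩))
    · simp [mem_tg, h2, Ne.symm h9]
    · simp [mem_tg, h3, hab.symm, Ne.symm h10]

theorem side2 {r : ℕ} {a b : α} (hab : a ≠ b) :
    Side r (V2 r a b) (QQ r a b) b (Fintype.card α - r) where
  hΛ := filter_subset _ _
  hQ := filter_subset _ _
  hx Z hZ X hX := mem_symmDiff.2 (Or.inl ⟨(mem_V2.1 hZ).2.2, (mem_QQ.1 hX).2.2⟩)
  hc Z hZ := by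
    obtain ⟨h1, h2, h3⟩ := mem_V2.1 hZ
    have h4 := card_tg_of_mem h3
    refine ⟨?_, fun W hW => ?_⟩
    · rw [ln_star (h1 ▸ h4), card_image_of_injective _ (fun _ _ => tg_inj), card_compl]
      have := card_le_univ Z
      omega
    · obtain ⟨h5, h6⟩ := mem_erase.1 hW
      obtain ⟨h7, h8⟩ := mem_ln.1 h6
      obtain ⟨y, rfl⟩ := sd_eq_one.1 h8
      have h9 : y ≠ b := fun h => h5 (by rw [h, tg_tg])
      have h10 : a ∈ tg Z b := by simp [mem_tg, h2, hab]
      have h11 : y ≠ a := fun h => by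
        have := card_tg_of_mem h10
        rw [h] at h7
        omega
      exact mem_QQ.2 ⟨h7, by simp [mem_tg, h2, hab, h11.symm], by simp [mem_tg, h3, h9.symm]⟩
  hb X hX := by
    obtain ⟨-, h2, h3⟩ := mem_QQ.1 hX
    refine ⟨tg (tg X b) a, fun W hW => ?_⟩
    obtain ⟨h7, h8⟩ := mem_ln.1 hW
    obtain ⟨y, rfl⟩ := sd_eq_one.1 h8
    by_cases h9 : y = b
    · rw [h9, tg_tg]; exact mem_insert_self _ _
    by_cases h10 : y = a
    · rw [h10]; exact mem_insert_of_mem (mem_insert_self _ _)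
    refine mem_insert_of_mem (mem_insert_of_mem (mem_V2.2 ⟨h7, ?_, ?_⟩))
    · simp [mem_tg, h2, hab, Ne.symm h10]
    · simp [mem_tg, h3, Ne.symm h9]

section side

variable {r c : ℕ} {Λ Q : Finset (Finset α)} {e : α}

theorem Side.up (h : Side r Λ Q e c) {Z X : Finset α} (hZ : Z ∈ Λ) (hX : X ∈ Q) (h2 : sd Z X = 2) :
    Z ∈ ln r (tg X e) :=
  mem_ln_tg (mem_Vr.1 (h.hΛ hZ)) (by rw [sd_comm, h2]) (by rw [symmDiff_comm]; exact h.hx Z hZ X hX)

theorem Side.s1 (h : Side r Λ Q e c) : ∀ Z ∈ Λ, (Q.filter (fun X => sd Z X = 2)).card = c := by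
  intro Z hZ
  have hZr := mem_Vr.1 (h.hΛ hZ)
  have h1 : Q.filter (fun X => sd Z X = 2) = (ln r (tg Z e)).erase Z := by
    ext X
    rw [mem_filter]
    constructor
    · rintro ⟨h1, h2⟩
      refine mem_erase.2 ⟨fun h3 => ?_, mem_ln_tg (mem_Vr.1 (h.hQ h1)) h2 (h.hx Z hZ X h1)⟩
      rw [h3, sd_self] at h2
      omega
    · intro h1
      exact ⟨(h.hc Z hZ).2 h1, (ln_clique (self_mem_ln hZr e) (mem_erase.1 h1).2).resolve_left
        (mem_erase.1 h1).1.symm⟩
  rw [h1, card_erase_of_mem (self_mem_ln hZr e), (h.hc Z hZ).1, Nat.add_sub_cancel]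

theorem Side.s2 (h : Side r Λ Q e c) :
    ∀ X ∈ Q, ∀ Z ∈ Λ, ∀ Z' ∈ Λ, sd Z X = 2 → sd Z' X = 2 → Z = Z' ∨ sd Z Z' = 2 :=
  fun _ hX _ hZ _ hZ' h1 h2 => ln_clique (h.up hZ hX h1) (h.up hZ' hX h2)

theorem Side.s3 (h : Side r Λ Q e c) : ∀ Z ∈ Λ, ∀ Z' ∈ Λ, Z ≠ Z' →
    (Q.filter (fun X => sd Z X = 2 ∧ sd Z' X = 2)).card ≤ 1 := by
  intro Z hZ Z' hZ' hne
  refine card_le_one.2 fun X hX X' hX' => ?_
  obtain ⟨h1, h2, h3⟩ := mem_filter.1 hX
  obtain ⟨h4, h5, h6⟩ := mem_filter.1 hX'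
  have c1 := mem_Vr.1 (h.hQ h1)
  have c2 := mem_Vr.1 (h.hQ h4)
  have e1 := mem_symmDiff.1 (h.hx Z hZ X h1)
  have e2 := mem_symmDiff.1 (h.hx Z hZ X' h4)
  have hc : (tg X e).card = (tg X' e).card := by
    by_cases he : e ∈ Z
    · rw [card_tg_of_notMem (by tauto), card_tg_of_notMem (by tauto), c1, c2]
    · have := card_tg_of_mem (show e ∈ X by tauto)
      have := card_tg_of_mem (show e ∈ X' by tauto)
      omega
  have h7 := ln_two hc hne (h.up hZ h1 h2) (h.up hZ' h1 h3) (h.up hZ h4 h5) (h.up hZ' h4 h6)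
  rw [← tg_tg X e, h7, tg_tg]

theorem Side.s4 (h : Side r Λ Q e c) (h1 : Fintype.card α ≤ 3 * r)
    (h2 : 3 * r ≤ 2 * Fintype.card α) :
    (Q.card : ℝ) * (((Fintype.card α : ℝ) - 3) / 3) ≤ Λ.card * c := by
  refine double_count Q Λ (fun X Z => sd Z X = 2) _ _ (fun X hX => ?_)
    (fun Z hZ => by rw [h.s1 Z hZ])
  have hXr := mem_Vr.1 (h.hQ hX)
  obtain ⟨X', h3⟩ := h.hb X hX
  have h4 : ln r (tg X e) ⊆ insert X (insert X' (Λ.filter (fun Z => sd Z X = 2))) := by
    intro W hW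
    by_cases h5 : W = X
    · rw [h5]; exact mem_insert_self _ _
    rcases mem_insert.1 ((mem_insert.1 (h3 hW)).resolve_left h5) with h6 | h6
    · rw [h6]; exact mem_insert_of_mem (mem_insert_self _ _)
    · exact mem_insert_of_mem (mem_insert_of_mem (mem_filter.2
        ⟨h6, (ln_clique hW (self_mem_ln hXr e)).resolve_left h5⟩))
  have h5 := card_le_card h4
  have h6 := card_insert_le X (insert X' (Λ.filter (fun Z => sd Z X = 2)))
  have h7 := card_insert_le X' (Λ.filter (fun Z => sd Z X = 2))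
  have h8 := card_ln_ge h1 h2 (ctr_tg hXr e)
  have h9 : Fintype.card α ≤ 3 * (Λ.filter (fun Z => sd Z X = 2)).card + 3 := by omega
  have h10 : (Fintype.card α : ℝ) ≤ 3 * (Λ.filter (fun Z => sd Z X = 2)).card + 3 := by
    exact_mod_cast h9
  linarith

theorem Side.s5 (h : Side r Λ Q e c) : (Λ.card : ℝ) * c ≤ Q.card * Fintype.card α := by
  refine double_count Λ Q (fun Z X => sd Z X = 2) _ _ (fun Z hZ => by rw [h.s1 Z hZ])
    (fun X hX => ?_)
  have h1 : Λ.filter (fun Z => sd Z X = 2) ⊆ ln r (tg X e) := fun Z hZ =>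
    h.up (mem_filter.1 hZ).1 hX (mem_filter.1 hZ).2
  exact_mod_cast (card_le_card h1).trans (card_ln_le _ _)

open Classical in
theorem Side.half (h : Side r Λ Q e c)
    (hb : 2 * (Λ.powerset.filter (fun I => Stb I ∧ 999 * Q.card ≤ 1000 * (c * I.card))).card ≤
      (stab Λ).card) : (stab Λ).card * Q.card ≤ 2000 * ∑ I ∈ stab Λ, (fr Q I).card := by
  set G := (stab Λ).filter (fun I => ¬ 999 * Q.card ≤ 1000 * (c * I.card)) with hG
  have h1 : (stab Λ).card ≤ 2 * G.card := by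
    have h2 := card_filter_add_card_filter_not (s := stab Λ)
      (fun I => 999 * Q.card ≤ 1000 * (c * I.card))
    have h3 : (stab Λ).filter (fun I => 999 * Q.card ≤ 1000 * (c * I.card)) =
        Λ.powerset.filter (fun I => Stb I ∧ 999 * Q.card ≤ 1000 * (c * I.card)) := by
      unfold stab
      rw [filter_filter]
    rw [h3, ← hG] at h2
    omega
  have h2 : ∀ I ∈ G, Q.card ≤ 1000 * (fr Q I).card := by
    intro I hI
    obtain ⟨h3, h4⟩ := mem_filter.1 hI
    have h5 : Q ⊆ fr Q I ∪ I.biUnion (fun Z => Q.filter (fun X => sd Z X = 2)) := by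
      intro X hX
      by_cases h6 : ∀ Z ∈ I, sd Z X ≠ 2
      · exact mem_union_left _ (mem_fr.2 ⟨hX, h6⟩)
      · push Not at h6
        obtain ⟨Z, h7, h8⟩ := h6
        exact mem_union_right _ (mem_biUnion.2 ⟨Z, h7, mem_filter.2 ⟨hX, h8⟩⟩)
    have h6 := (card_le_card h5).trans (card_union_le _ _)
    have h7 := card_biUnion_le_card_mul I (fun Z => Q.filter (fun X => sd Z X = 2)) c
      fun Z hZ => (h.s1 Z ((mem_stab.1 h3).1 hZ)).le
    rw [mul_comm] at h7
    omega
  have h3 := card_nsmul_le_sum G (fun I => 1000 * (fr Q I).card) _ h2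
  rw [← mul_sum, smul_eq_mul] at h3
  have h4 : ∑ I ∈ G, (fr Q I).card ≤ ∑ I ∈ stab Λ, (fr Q I).card :=
    sum_le_sum_of_subset (filter_subset _ _)
  calc (stab Λ).card * Q.card ≤ 2 * G.card * Q.card := Nat.mul_le_mul_right _ h1
    _ = 2 * (G.card * Q.card) := by ring
    _ ≤ _ := by omega

end side

omit [Fintype α] in
theorem sd_image (σ : Equiv.Perm α) (A B : Finset α) : sd (A.image σ) (B.image σ) = sd A B := by
  rw [sd, ← image_symmDiff _ _ σ.injective, card_image_of_injective _ σ.injective, sd]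

omit [Fintype α] in
theorem mem_image_perm (σ : Equiv.Perm α) {A : Finset α} {x : α} : σ x ∈ A.image σ ↔ x ∈ A :=
  σ.injective.mem_finset_image

theorem exists_perm {r : ℕ} {a b : α} {X X' : Finset α} (hX : X ∈ QQ r a b) (hX' : X' ∈ QQ r a b) :
    ∃ σ : Equiv.Perm α, σ a = a ∧ σ b = b ∧ X.image σ = X' := by
  obtain ⟨h1, h2, h3⟩ := mem_QQ.1 hX
  obtain ⟨h4, h5, h6⟩ := mem_QQ.1 hX'
  obtain ⟨σ, hσ⟩ := Equiv.Perm.exists_map_finset_eq X X' (h1.trans h4.symm)
  have h7 : ∀ x, σ x ∈ X' ↔ x ∈ X := fun x => by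
    rw [← hσ]; exact mem_map' σ.toEmbedding
  have h8 : ∀ u v : α, (u ∈ X' ↔ v ∈ X') → ∀ x, Equiv.swap u v x ∈ X' ↔ x ∈ X' := by
    intro u v h x
    rw [Equiv.swap_apply_def]
    split_ifs with e1 e2
    · rw [e1, h]
    · rw [e2, h]
    · rfl
  set τ := σ.trans (Equiv.swap (σ a) a) with hτ
  have h9 : ∀ x, τ x ∈ X' ↔ x ∈ X := fun x => by
    rw [hτ, Equiv.trans_apply, h8 _ _ (by rw [h7]; tauto), h7]
  have h10 : τ a = a := by rw [hτ, Equiv.trans_apply, Equiv.swap_apply_left]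
  have h11 : τ b ∉ X' := by rw [h9]; exact h3
  refine ⟨τ.trans (Equiv.swap (τ b) b), ?_, ?_, ?_⟩
  · rw [Equiv.trans_apply, h10]
    exact Equiv.swap_apply_of_ne_of_ne (fun h => h11 (h ▸ h5)) (fun h => h6 (h ▸ h5))
  · rw [Equiv.trans_apply, Equiv.swap_apply_left]
  · refine eq_of_subset_of_card_le (fun y hy => ?_) ?_
    · obtain ⟨x, hx, rfl⟩ := mem_image.1 hy
      rw [Equiv.trans_apply, h8 _ _ (by tauto), h9]
      exact hx
    · rw [card_image_of_injective _ (Equiv.injective _), h1, h4]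

omit [Fintype α] in
theorem act_injective (σ : Equiv.Perm α) : Function.Injective (act σ) :=
  image_injective (image_injective σ.injective)

theorem sym_le {r : ℕ} {a b : α} {X X' : Finset α} (hX : X ∈ QQ r a b) (hX' : X' ∈ QQ r a b) :
    ((stab (V0 r a b)).filter (fun I => X ∈ fr (QQ r a b) I)).card ≤
      ((stab (V0 r a b)).filter (fun I => X' ∈ fr (QQ r a b) I)).card := by
  obtain ⟨σ, h1, h2, rfl⟩ := exists_perm hX hX'
  refine card_le_card_of_injOn (act σ) (fun I hI => ?_) (act_injective σ).injOn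
  obtain ⟨h3, h4⟩ := mem_filter.1 (mem_coe.1 hI)
  obtain ⟨h5, h6⟩ := mem_stab.1 h3
  refine mem_coe.2 (mem_filter.2 ⟨mem_stab.2 ⟨fun Y hY => ?_, fun Y hY Y' hY' => ?_⟩,
    mem_fr.2 ⟨hX', fun Y hY => ?_⟩⟩)
  · obtain ⟨Z, hZ, rfl⟩ := mem_image.1 hY
    obtain ⟨h7, h8, h9⟩ := mem_V0.1 (h5 hZ)
    refine mem_V0.2 ⟨by rw [card_image_of_injective _ σ.injective, h7], fun h => h8 ?_,
      fun h => h9 ?_⟩
    · rwa [← h1, mem_image_perm] at h
    · rwa [← h2, mem_image_perm] at h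
  · obtain ⟨Z, hZ, rfl⟩ := mem_image.1 hY
    obtain ⟨Z', hZ', rfl⟩ := mem_image.1 hY'
    rw [sd_image]
    exact h6 Z hZ Z' hZ'
  · obtain ⟨Z, hZ, rfl⟩ := mem_image.1 hY
    rw [sd_image]
    exact (mem_fr.1 h4).2 Z hZ

omit [Fintype α] in
theorem sum_fr (Q : Finset (Finset α)) (F : Finset (Finset (Finset α))) (T : Finset (Finset α)) :
    ∑ I ∈ F, (fr Q I ∩ T).card = ∑ X ∈ T, (F.filter (fun I => X ∈ fr Q I)).card := by
  simp only [card_filter]
  rw [sum_comm]
  refine sum_congr rfl fun I _ => ?_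
  rw [← card_filter, inter_comm, filter_mem_eq_inter]

theorem pair_sum {r : ℕ} {a b : α}
    (h0 : (stab (V0 r a b)).card * (QQ r a b).card ≤
      2000 * ∑ I ∈ stab (V0 r a b), (fr (QQ r a b) I).card)
    (h2 : (stab (V2 r a b)).card * (QQ r a b).card ≤
      2000 * ∑ I ∈ stab (V2 r a b), (fr (QQ r a b) I).card) :
    (stab (V0 r a b)).card * (stab (V2 r a b)).card * (QQ r a b).card ≤
      4000000 * ∑ p ∈ stab (V0 r a b) ×ˢ stab (V2 r a b),
        (fr (QQ r a b) p.1 ∩ fr (QQ r a b) p.2).card := by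
  set Q := QQ r a b with hQ
  have h3 : ∀ X ∈ Q, (stab (V0 r a b)).card ≤
      2000 * ((stab (V0 r a b)).filter (fun I => X ∈ fr Q I)).card := by
    intro X hX
    have h4 := sum_fr Q (stab (V0 r a b)) Q
    have h5 : ∀ I, fr Q I ∩ Q = fr Q I := fun I => inter_eq_left.2 fun _ h => (mem_fr.1 h).1
    simp only [h5] at h4
    have h6 := sum_le_card_nsmul Q (fun X' => ((stab (V0 r a b)).filter
      (fun I => X' ∈ fr Q I)).card) ((stab (V0 r a b)).filter (fun I => X ∈ fr Q I)).card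
      fun X' hX' => sym_le hX' hX
    rw [smul_eq_mul, ← h4] at h6
    refine Nat.le_of_mul_le_mul_right (c := Q.card) ?_ (card_pos.2 ⟨X, hX⟩)
    calc _ ≤ _ := h0
      _ ≤ 2000 * (Q.card * ((stab (V0 r a b)).filter (fun I => X ∈ fr Q I)).card) := by omega
      _ = _ := by ring
  have h4 : ∀ J ∈ stab (V2 r a b), (stab (V0 r a b)).card * (fr Q J).card ≤
      2000 * ∑ I ∈ stab (V0 r a b), (fr Q I ∩ fr Q J).card := by
    intro J _
    rw [sum_fr Q, mul_sum, mul_comm, ← smul_eq_mul]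
    exact card_nsmul_le_sum _ _ _ fun X hX => h3 X (mem_fr.1 hX).1
  have h5 := sum_le_sum h4
  rw [← mul_sum, ← mul_sum] at h5
  rw [sum_product_right]
  calc _ = (stab (V0 r a b)).card * ((stab (V2 r a b)).card * Q.card) := by ring
    _ ≤ (stab (V0 r a b)).card * (2000 * ∑ I ∈ stab (V2 r a b), (fr Q I).card) :=
        Nat.mul_le_mul_left _ h2
    _ = 2000 * ((stab (V0 r a b)).card * ∑ I ∈ stab (V2 r a b), (fr Q I).card) := by ring
    _ ≤ _ := by simp only; omega

theorem card_V_le {r : ℕ} {a b : α} :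
    (Fintype.card α).choose r ≤ (V0 r a b).card + (V2 r a b).card + 2 * (QQ r a b).card := by
  have h1 : Vr α r ⊆ V0 r a b ∪ V2 r a b ∪ QQ r a b ∪ QQ r b a := by
    intro X hX
    have := mem_Vr.1 hX
    simp only [mem_union, mem_V0, mem_V2, mem_QQ]
    tauto
  have h2 : (QQ r b a).card ≤ (QQ r a b).card := by
    refine card_le_card_of_injOn (fun X => X.image (Equiv.swap a b)) (fun X hX => ?_)
      (image_injective (Equiv.swap a b).injective).injOn
    obtain ⟨h3, h4, h5⟩ := mem_QQ.1 (mem_coe.1 hX)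
    refine mem_coe.2 (mem_QQ.2 ⟨by rw [card_image_of_injective _ (Equiv.injective _), h3], ?_, ?_⟩)
    · have := (mem_image_perm (Equiv.swap a b)).2 h4
      rwa [Equiv.swap_apply_right] at this
    · intro h
      refine h5 ((mem_image_perm (Equiv.swap a b)).1 ?_)
      rwa [Equiv.swap_apply_left]
  have h3 := card_le_card h1
  rw [card_Vr] at h3
  have h4 := card_union_le (V0 r a b ∪ V2 r a b ∪ QQ r a b) (QQ r b a)
  have h5 := card_union_le (V0 r a b ∪ V2 r a b) (QQ r a b)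
  have h6 := card_union_le (V0 r a b) (V2 r a b)
  omega

end Inv

end Pool.Agent.MP_c3fbfc_co.V

end MrgPart2

-- ======== part 3: formerly Pool.Agent.MP_c3fbfc_co.VInv
section MrgPart3

/-! INV: stable sets with a symmetry are rare. -/

namespace Pool.Agent.MP_c3fbfc_co.V

open Finset Filter
open scoped symmDiff

namespace Inv

variable {α : Type*} [Fintype α] [DecidableEq α]

theorem exp_half_le (k : ℕ) : Real.exp (k / 2) ≤ 2 ^ k := by
  rw [show (k : ℝ) / 2 = k * (1 / 2) by ring, Real.exp_nat_mul]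
  refine pow_le_pow_left₀ (Real.exp_pos _).le ?_ k
  have h := Real.add_one_le_exp (-(1 / 2))
  have h1 : Real.exp (1 / 2) * Real.exp (-(1 / 2)) = 1 := by rw [← Real.exp_add]; simp
  nlinarith [Real.exp_pos (1 / 2)]

omit [Fintype α] in
theorem mem_iff_of_act {π : Equiv.Perm α} {S : Finset (Finset α)} (h : act π S = S)
    (X : Finset α) : X.image π ∈ S ↔ X ∈ S := by
  conv_lhs => rw [← h]
  exact (image_injective π.injective).mem_finset_image

open Classical in
theorem caseA {r : ℕ} (π : Equiv.Perm α) (Q : Finset (Finset α))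
    (hQ : ∀ X ∈ Q, X.image π ∉ Q) (t : ℝ) :
    (((SS α r).filter (fun S => act π S = S ∧ t ≤ (S ∩ Q).card)).card : ℝ) * Real.exp (t / 2) ≤
      (SS α r).card := by
  refine mul_card_le_of_rel _ _ (fun S y => y ⊆ S ∧ S \ Q ⊆ y) _ (fun S hS => ?_)
    (fun S hS S' hS' y _ h1 h2 => ?_)
  · obtain ⟨h1, -, h3⟩ := mem_filter.1 hS
    obtain ⟨h4, h5⟩ := mem_SS.1 h1
    have h6 : (S ∩ Q).powerset.card ≤ ((SS α r).filter (fun y => y ⊆ S ∧ S \ Q ⊆ y)).card := by
      refine card_le_card_of_injOn (fun Φ => S \ Φ) (fun Φ hΦ => ?_) (fun Φ hΦ Ψ hΨ e => ?_)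
      · have h7 := mem_powerset.1 (mem_coe.1 hΦ)
        exact mem_coe.2 (mem_filter.2 ⟨mem_SS.2 ⟨sdiff_subset.trans h4, h5.mono sdiff_subset⟩,
          sdiff_subset, sdiff_subset_sdiff Subset.rfl (h7.trans inter_subset_right)⟩)
      · have h7 := (mem_powerset.1 (mem_coe.1 hΦ)).trans inter_subset_left
        have h8 := (mem_powerset.1 (mem_coe.1 hΨ)).trans inter_subset_left
        simp only at e
        rw [← Finset.sdiff_sdiff_eq_self h7, e, Finset.sdiff_sdiff_eq_self h8]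
    rw [card_powerset] at h6
    calc Real.exp (t / 2) ≤ Real.exp ((S ∩ Q).card / 2) := Real.exp_le_exp.2 (by linarith)
      _ ≤ 2 ^ (S ∩ Q).card := exp_half_le _
      _ ≤ _ := by exact_mod_cast h6
  · have h3 := (mem_filter.1 hS).2.1
    have h4 := (mem_filter.1 hS').2.1
    have h5 : ∀ X, X ∉ Q → (X ∈ S ↔ X ∈ S') := fun X hX =>
      ⟨fun h => h2.1 (h1.2 (mem_sdiff.2 ⟨h, hX⟩)), fun h => h1.1 (h2.2 (mem_sdiff.2 ⟨h, hX⟩))⟩
    ext X
    by_cases hX : X ∈ Q
    · rw [← mem_iff_of_act h3, ← mem_iff_of_act h4 X]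
      exact h5 _ (hQ X hX)
    · exact h5 X hX

theorem far02 {r : ℕ} {a b : α} (hab : a ≠ b) {A B : Finset α} (hA : A ∈ V0 r a b)
    (hB : B ∈ V2 r a b) : sd A B ≠ 2 := by
  obtain ⟨h1, h2, h3⟩ := mem_V0.1 hA
  obtain ⟨h4, h5, h6⟩ := mem_V2.1 hB
  have h7 : ({a, b} : Finset α) ⊆ B \ A := by
    intro x hx
    rcases mem_insert.1 hx with h | h
    · rw [h]; exact mem_sdiff.2 ⟨h5, h2⟩
    · rw [mem_singleton.1 h]; exact mem_sdiff.2 ⟨h6, h3⟩
  have h8 := card_le_card h7
  rw [card_pair hab] at h8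
  rw [sd_comm, sd_of_card_eq (h4.trans h1.symm)]
  omega

open Classical in
theorem fibre_ge {r : ℕ} {a b : α} (hab : a ≠ b) {I J : Finset (Finset α)}
    (hI : I ∈ stab (V0 r a b)) (hJ : J ∈ stab (V2 r a b)) :
    Real.exp ((fr (QQ r a b) I ∩ fr (QQ r a b) J).card / (2 * Fintype.card α)) ≤
      ((SS α r).filter (fun S => (S ∩ V0 r a b, S ∩ V2 r a b) = (I, J))).card := by
  have hn : 0 < Fintype.card α := Fintype.card_pos_iff.2 ⟨a⟩
  obtain ⟨h1, h2⟩ := mem_stab.1 hI
  obtain ⟨h3, h4⟩ := mem_stab.1 hJ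
  have hF : fr (QQ r a b) I ∩ fr (QQ r a b) J ⊆ QQ r a b := fun X hX =>
    (mem_fr.1 (mem_inter.1 hX).1).1
  obtain ⟨G, g1, g2, g3⟩ := exists_stb (hF.trans (filter_subset _ _)) hn
  have key : ∀ Φ ⊆ G, ∀ X, X ∈ I ∪ J ∪ Φ → X.card = r ∧ ((X ∈ V0 r a b ↔ X ∈ I) ∧
      (X ∈ V2 r a b ↔ X ∈ J) ∧ (X ∈ QQ r a b ↔ X ∈ Φ)) := by
    intro Φ hΦ X hX
    have e1 : X ∈ I → X ∈ V0 r a b := fun h => h1 h
    have e2 : X ∈ J → X ∈ V2 r a b := fun h => h3 h
    have e3 : X ∈ Φ → X ∈ QQ r a b := fun h => hF (g1 (hΦ h))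
    simp only [mem_union, mem_V0, mem_V2, mem_QQ] at hX e1 e2 e3 ⊢
    tauto
  have h6 : G.powerset.card ≤
      ((SS α r).filter (fun S => (S ∩ V0 r a b, S ∩ V2 r a b) = (I, J))).card := by
    refine card_le_card_of_injOn (fun Φ => I ∪ J ∪ Φ) (fun Φ hΦ => ?_) (fun Φ hΦ Ψ hΨ e => ?_)
    · have h7 := mem_powerset.1 (mem_coe.1 hΦ)
      refine mem_coe.2 (mem_filter.2 ⟨mem_SS.2 ⟨fun X hX => mem_Vr.2 (key Φ h7 X hX).1, ?_⟩, ?_⟩)
      · have f1 : ∀ X ∈ Φ, ∀ Z ∈ I, sd Z X ≠ 2 := fun X hX =>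
          (mem_fr.1 (mem_inter.1 (g1 (h7 hX))).1).2
        have f2 : ∀ X ∈ Φ, ∀ Z ∈ J, sd Z X ≠ 2 := fun X hX =>
          (mem_fr.1 (mem_inter.1 (g1 (h7 hX))).2).2
        intro X hX Y hY
        simp only [mem_union] at hX hY
        rcases hX with (hX | hX) | hX <;> rcases hY with (hY | hY) | hY
        · exact h2 X hX Y hY
        · exact far02 hab (h1 hX) (h3 hY)
        · exact f1 Y hY X hX
        · rw [sd_comm]; exact far02 hab (h1 hY) (h3 hX)
        · exact h4 X hX Y hY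
        · exact f2 Y hY X hX
        · rw [sd_comm]; exact f1 X hX Y hY
        · rw [sd_comm]; exact f2 X hX Y hY
        · exact g2 X (h7 hX) Y (h7 hY)
      · refine Prod.ext ?_ ?_ <;> ext X <;> simp only [mem_inter]
        · exact ⟨fun h => (key Φ h7 X h.1).2.1.1 h.2,
            fun h => ⟨mem_union_left _ (mem_union_left _ h), h1 h⟩⟩
        · exact ⟨fun h => (key Φ h7 X h.1).2.2.1.1 h.2,
            fun h => ⟨mem_union_left _ (mem_union_right _ h), h3 h⟩⟩
    · have h7 := mem_powerset.1 (mem_coe.1 hΦ)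
      have h8 := mem_powerset.1 (mem_coe.1 hΨ)
      simp only at e
      ext X
      constructor
      · intro h
        exact (key Ψ h8 X (e ▸ mem_union_right _ h)).2.2.2.1 (hF (g1 (h7 h)))
      · intro h
        exact (key Φ h7 X (e ▸ mem_union_right _ h)).2.2.2.1 (hF (g1 (h8 h)))
  rw [card_powerset] at h6
  have hn' : (0 : ℝ) < Fintype.card α := by exact_mod_cast hn
  have g4 : ((fr (QQ r a b) I ∩ fr (QQ r a b) J).card : ℝ) ≤ Fintype.card α * G.card := by
    exact_mod_cast g3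
  calc _ ≤ Real.exp (G.card / 2) := by
        refine Real.exp_le_exp.2 ?_
        rw [div_le_div_iff₀ (by positivity) (by norm_num)]
        linarith
    _ ≤ 2 ^ G.card := exp_half_le _
    _ ≤ _ := by exact_mod_cast h6

theorem lower {r : ℕ} {a b : α} (hab : a ≠ b)
    (h : (stab (V0 r a b)).card * (stab (V2 r a b)).card * (QQ r a b).card ≤
      4000000 * ∑ p ∈ stab (V0 r a b) ×ˢ stab (V2 r a b),
        (fr (QQ r a b) p.1 ∩ fr (QQ r a b) p.2).card) :
    ((stab (V0 r a b)).card : ℝ) * (stab (V2 r a b)).card *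
      Real.exp ((QQ r a b).card / (8000000 * Fintype.card α)) ≤ (SS α r).card := by
  classical
  have hn : (0 : ℝ) < Fintype.card α := by exact_mod_cast Fintype.card_pos_iff.2 ⟨a⟩
  set μ : ℝ := (QQ r a b).card / (8000000 * Fintype.card α) with hμ
  set P := stab (V0 r a b) ×ˢ stab (V2 r a b) with hP
  have h1 : ∑ p ∈ P, (((SS α r).filter (fun S => (S ∩ V0 r a b, S ∩ V2 r a b) = p)).card : ℝ) ≤
      (SS α r).card := by
    have := sum_card_fiberwise_eq_card_filter (SS α r) P (fun S => (S ∩ V0 r a b, S ∩ V2 r a b))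
    exact_mod_cast this.le.trans (card_filter_le _ _)
  have h2 : ∀ p ∈ P, Real.exp μ * ((fr (QQ r a b) p.1 ∩ fr (QQ r a b) p.2).card /
      (2 * Fintype.card α) - μ + 1) ≤
      (((SS α r).filter (fun S => (S ∩ V0 r a b, S ∩ V2 r a b) = p)).card : ℝ) := by
    intro p hp
    refine le_trans ?_ (fibre_ge hab (mem_product.1 hp).1 (mem_product.1 hp).2)
    calc _ ≤ Real.exp μ * Real.exp ((fr (QQ r a b) p.1 ∩ fr (QQ r a b) p.2).card /
          (2 * Fintype.card α) - μ) :=
          mul_le_mul_of_nonneg_left (Real.add_one_le_exp _) (Real.exp_pos _).le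
      _ = _ := by rw [← Real.exp_add]; congr 1; ring
  refine le_trans ?_ ((sum_le_sum h2).trans h1)
  rw [← mul_sum, mul_comm]
  refine mul_le_mul_of_nonneg_left ?_ (Real.exp_pos _).le
  rw [sum_add_distrib, sum_sub_distrib, ← sum_div, sum_const, sum_const, hP, card_product,
    nsmul_eq_mul, nsmul_eq_mul, Nat.cast_mul, mul_one, le_add_iff_nonneg_left, sub_nonneg, hμ,
    ← mul_div_assoc, div_le_div_iff₀ (by positivity) (by positivity)]
  have h3 : ((stab (V0 r a b)).card : ℝ) * (stab (V2 r a b)).card * (QQ r a b).card ≤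
      4000000 * ∑ p ∈ stab (V0 r a b) ×ˢ stab (V2 r a b),
        ((fr (QQ r a b) p.1 ∩ fr (QQ r a b) p.2).card : ℝ) := by exact_mod_cast h
  nlinarith

open Classical in
theorem caseB {r : ℕ} (a b : α) (t : ℝ) :
    ((SS α r).filter (fun S => ((S ∩ QQ r a b).card : ℝ) ≤ t ∧
      ((S ∩ QQ r b a).card : ℝ) ≤ t)).card ≤ (stab (V0 r a b)).card * (stab (V2 r a b)).card *
        ((SS α r).filter (fun S => (S.card : ℝ) ≤ 2 * t)).card := by
  rw [← card_product, ← card_product]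
  refine card_le_card_of_injOn
    (fun S => ((S ∩ V0 r a b, S ∩ V2 r a b), S ∩ QQ r a b ∪ S ∩ QQ r b a)) (fun S hS => ?_)
    (fun S hS S' hS' e => ?_)
  · obtain ⟨h1, h2, h3⟩ := mem_filter.1 (mem_coe.1 hS)
    obtain ⟨h4, h5⟩ := mem_SS.1 h1
    have h6 : S ∩ QQ r a b ∪ S ∩ QQ r b a ⊆ S := union_subset inter_subset_left inter_subset_left
    refine mem_coe.2 (mem_product.2 ⟨mem_product.2
      ⟨mem_stab.2 ⟨inter_subset_right, h5.mono inter_subset_left⟩,
        mem_stab.2 ⟨inter_subset_right, h5.mono inter_subset_left⟩⟩,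
      mem_filter.2 ⟨mem_SS.2 ⟨h6.trans h4, h5.mono h6⟩, ?_⟩⟩)
    have h7 : ((S ∩ QQ r a b ∪ S ∩ QQ r b a).card : ℝ) ≤
        (S ∩ QQ r a b).card + (S ∩ QQ r b a).card := by exact_mod_cast card_union_le _ _
    simp only
    linarith
  · have h1 := (mem_SS.1 (mem_filter.1 (mem_coe.1 hS)).1).1
    have h2 := (mem_SS.1 (mem_filter.1 (mem_coe.1 hS')).1).1
    simp only [Prod.mk.injEq] at e
    obtain ⟨⟨e1, e2⟩, e3⟩ := e
    ext X
    have f1 := Finset.ext_iff.1 e1 X
    have f2 := Finset.ext_iff.1 e2 X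
    have f3 := Finset.ext_iff.1 e3 X
    have f4 : X ∈ S → X.card = r := fun h => mem_Vr.1 (h1 h)
    have f5 : X ∈ S' → X.card = r := fun h => mem_Vr.1 (h2 h)
    simp only [mem_union, mem_inter, mem_V0, mem_V2, mem_QQ] at f1 f2 f3
    by_cases ha : a ∈ X <;> by_cases hb : b ∈ X <;> by_cases hr : X.card = r <;> simp_all

theorem big (M : ℝ) (hM : 0 ≤ M) :
    ∀ᶠ n : ℕ in atTop, ∀ r, Win n r → M * n ≤ n.choose r := by
  filter_upwards [ev_exp (48 * M) 2, eventually_ge_atTop 1] with n h1 hn r hr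
  have h2 := two_pow_le_middle n
  have h3 : (n.choose (n / 2) : ℝ) ≤ 24 * n.choose r := by exact_mod_cast hr.2.2
  have h4 : (1 : ℝ) ≤ n := by exact_mod_cast hn
  have h5 : (1 : ℝ) ≤ (19 / 10) ^ n := one_le_pow₀ (by norm_num)
  have h6 : 48 * M * (n : ℝ) ^ 2 ≤ 48 * M * (n : ℝ) ^ 2 * (19 / 10) ^ n :=
    le_mul_of_one_le_right (by positivity) h5
  have h7 : ((n : ℝ) + 1) * n.choose (n / 2) ≤ (2 * n) * (24 * n.choose r) :=
    mul_le_mul (by linarith) h3 (by positivity) (by positivity)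
  refine le_of_mul_le_mul_left (a := 48 * (n : ℝ)) ?_ (by positivity)
  nlinarith

open Classical in
theorem Side.half' {r c : ℕ} {Λ Q : Finset (Finset α)} {e : α} (h : Side r Λ Q e c)
    (h1 : Fintype.card α ≤ 3 * r) (h2 : 3 * r ≤ 2 * Fintype.card α) (hn : 15 ≤ Fintype.card α)
    (hc : 3 * c ≤ 2 * Fintype.card α) (hQ : 10 * (Fintype.card α : ℝ) ≤ Q.card)
    (hb : ((Λ.powerset.filter
      (fun I => Stb I ∧ 999 * Q.card ≤ 1000 * (c * I.card))).card : ℝ) ≤
        Real.exp (Q.card / (5 * Fintype.card α))) :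
    (stab Λ).card * Q.card ≤ 2000 * ∑ I ∈ stab Λ, (fr Q I).card := by
  refine h.half ?_
  obtain ⟨G, g1, g2, g3⟩ := exists_stb h.hΛ (by omega)
  have g4 : G.powerset ⊆ stab Λ := fun I hI =>
    mem_stab.2 ⟨(mem_powerset.1 hI).trans g1, g2.mono (mem_powerset.1 hI)⟩
  have g5 := card_le_card g4
  rw [card_powerset] at g5
  have hn' : (15 : ℝ) ≤ Fintype.card α := by exact_mod_cast hn
  have hc' : 3 * (c : ℝ) ≤ 2 * Fintype.card α := by exact_mod_cast hc
  have g6 : (Λ.card : ℝ) ≤ Fintype.card α * G.card := by exact_mod_cast g3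
  have g7 := h.s4 h1 h2
  have g8 : 2 * (Q.card : ℝ) ≤ 5 * Λ.card := by
    have e1 : (Λ.card : ℝ) * (3 * c) ≤ Λ.card * (2 * Fintype.card α) :=
      mul_le_mul_of_nonneg_left hc' (by positivity)
    have e2 : (Q.card : ℝ) * (4 / 5 * Fintype.card α) ≤ Q.card * (Fintype.card α - 3) :=
      mul_le_mul_of_nonneg_left (by linarith) (by positivity)
    refine le_of_mul_le_mul_right (a := (Fintype.card α : ℝ)) ?_ (by linarith)
    nlinarith
  set q : ℝ := Q.card / Fintype.card α with hq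
  have q1 : 10 ≤ q := by rw [hq, le_div_iff₀ (by linarith)]; exact hQ
  have q2 : 2 * q ≤ 5 * G.card := by
    rw [hq, ← mul_div_assoc, div_le_iff₀ (by linarith)]
    nlinarith
  have q3 : (Q.card : ℝ) / (5 * Fintype.card α) = q / 5 := by rw [hq]; field_simp
  have q4 : 2 * Real.exp (q / 5) ≤ 2 ^ G.card := by
    calc 2 * Real.exp (q / 5) = Real.exp (Real.log 2 + q / 5) := by
          rw [Real.exp_add, Real.exp_log (by norm_num)]
      _ ≤ Real.exp (G.card * Real.log 2) := by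
          refine Real.exp_le_exp.2 ?_
          have := Real.log_two_gt_d9
          have := Real.log_two_lt_d9
          nlinarith
      _ = 2 ^ G.card := by rw [Real.exp_nat_mul, Real.exp_log (by norm_num)]
  rw [q3] at hb
  have q5 : ((2 ^ G.card : ℕ) : ℝ) ≤ (stab Λ).card := by exact_mod_cast g5
  push_cast at q5
  exact_mod_cast (show 2 * ((Λ.powerset.filter
      (fun I => Stb I ∧ 999 * Q.card ≤ 1000 * (c * I.card))).card : ℝ) ≤ (stab Λ).card by linarith)

end Inv

open _root_.Pool.Agent.MP_c3fbfc_co.V.Inv in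
theorem inv (h1 : CovStmt) (h2 : SmallStmt) : InvStmt := by
  classical
  obtain ⟨ε, hε, hS⟩ := h2 (1 / 128000000) (by norm_num)
  set δ : ℝ := min (1 / 128000000) (ε / 4) / 2 with hδ
  have hδ0 : 0 < δ := by positivity
  have hδ1 : 2 * δ ≤ 1 / 128000000 := by
    linarith [min_le_left (1 / 128000000 : ℝ) (ε / 4)]
  have hδ2 : 2 * δ ≤ ε / 4 := by linarith [min_le_right (1 / 128000000 : ℝ) (ε / 4)]
  refine ⟨δ, hδ0, ?_⟩
  filter_upwards [hS, h1 (1 / 1920) (by norm_num), big 80 (by norm_num),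
    big (2 / δ) (by positivity), eventually_ge_atTop 15] with n hS hC b1 b2 hn r hr π hπ
  obtain ⟨a, ha⟩ : ∃ a, π a ≠ a := by
    by_contra h
    push Not at h
    exact hπ (Equiv.ext h)
  have hab : a ≠ π a := ha.symm
  set b := π a with hb
  have hcard : Fintype.card (Fin n) = n := Fintype.card_fin n
  have r1 := hr.1
  have r2 := hr.2.1
  have hn' : (15 : ℝ) ≤ n := by exact_mod_cast hn
  have s0 := side0 (r := r) hab
  have s2 := side2 (r := r) hab
  have hN : (n.choose r : ℝ) ≤ 8 * (QQ r a b).card := by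
    have e1 := s0.s5
    have e2 := s2.s5
    have e3 := card_V_le (r := r) (a := a) (b := b)
    rw [hcard] at e1 e2 e3
    have e4 : (n.choose r : ℝ) ≤ (V0 r a b).card + (V2 r a b).card + 2 * (QQ r a b).card := by
      exact_mod_cast e3
    have e5 : (n : ℝ) ≤ 3 * r := by exact_mod_cast r1
    have e6 : (n : ℝ) ≤ 3 * ((n - r : ℕ) : ℝ) := by exact_mod_cast (by omega : n ≤ 3 * (n - r))
    have e7 : ((V0 r a b).card : ℝ) ≤ 3 * (QQ r a b).card := by
      refine le_of_mul_le_mul_right (a := (n : ℝ)) ?_ (by linarith)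
      nlinarith [mul_le_mul_of_nonneg_left e5 (Nat.cast_nonneg (V0 r a b).card)]
    have e8 : ((V2 r a b).card : ℝ) ≤ 3 * (QQ r a b).card := by
      refine le_of_mul_le_mul_right (a := (n : ℝ)) ?_ (by linarith)
      nlinarith [mul_le_mul_of_nonneg_left e6 (Nat.cast_nonneg (V2 r a b).card)]
    linarith
  have hQ : 10 * (Fintype.card (Fin n) : ℝ) ≤ (QQ r a b).card := by
    rw [hcard]; linarith [b1 r hr]
  have hexp : Real.exp ((QQ r a b).card / (10 * n) + 1 / 1920 * n.choose (n / 2) / (n * 4 ^ gg n))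
      ≤ Real.exp ((QQ r a b).card / (5 * Fintype.card (Fin n))) := by
    rw [hcard]
    refine Real.exp_le_exp.2 ?_
    have e1 : (n.choose (n / 2) : ℝ) ≤ 24 * n.choose r := by exact_mod_cast hr.2.2
    have e2 : (1 : ℝ) ≤ 4 ^ gg n := one_le_pow₀ (by norm_num)
    have e3 : 1 / 1920 * (n.choose (n / 2) : ℝ) / (n * 4 ^ gg n) ≤ (QQ r a b).card / 10 / n :=
      div_le_div₀ (by positivity) (by linarith) (by linarith)
        (le_mul_of_one_le_right (by linarith) e2)
    have e4 : ((QQ r a b).card : ℝ) / (5 * n) =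
      (QQ r a b).card / (10 * n) + (QQ r a b).card / 10 / n := by field_simp; ring
    linarith
  have k0 := s0.half' (by omega) (by omega) (by omega) (by omega) hQ
    ((hC r r1 r2 _ _ r s0.hΛ (by omega) s0.s1 s0.s2 s0.s3).trans hexp)
  have k2 := s2.half' (by omega) (by omega) (by omega) (by omega) hQ
    ((hC r r1 r2 _ _ _ s2.hΛ (by omega) s2.s1 s2.s2 s2.s3).trans hexp)
  have hlow := lower hab (pair_sum k0 k2)
  rw [hcard] at hlow
  set x : ℝ := n.choose r / n with hx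
  have hx2 : 2 ≤ δ * x := by
    have e1 := b2 r hr
    rw [hx, ← mul_div_assoc, le_div_iff₀ (by linarith)]
    rw [div_mul_eq_mul_div, div_le_iff₀ hδ0] at e1
    linarith
  have hx0 : 0 ≤ x := by positivity
  have cA := caseA (r := r) π (QQ r a b) (fun X hX h =>
    (mem_QQ.1 h).2.2 ((mem_image_perm π).2 (mem_QQ.1 hX).2.1)) (ε * x / 2)
  have cA' := caseA (r := r) π (QQ r b a) (fun X hX h =>
    (mem_QQ.1 hX).2.2 ((mem_image_perm π).1 (mem_QQ.1 h).2.1)) (ε * x / 2)
  have cB := caseB (r := r) a b (ε * x / 2)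
  have hS' := hS r hr
  rw [mul_div_assoc, mul_div_assoc, ← hx] at hS'
  rw [show 2 * (ε * x / 2) = ε * x by ring] at cB
  rw [mul_div_assoc, ← hx]
  set A := (SS (Fin n) r).filter (fun S => act π S = S ∧ ε * x / 2 ≤ (S ∩ QQ r a b).card)
  set A' := (SS (Fin n) r).filter (fun S => act π S = S ∧ ε * x / 2 ≤ (S ∩ QQ r b a).card)
  set B := (SS (Fin n) r).filter (fun S => ((S ∩ QQ r a b).card : ℝ) ≤ ε * x / 2 ∧
      ((S ∩ QQ r b a).card : ℝ) ≤ ε * x / 2)
  have hsub : (SS (Fin n) r).filter (fun S => act π S = S) ⊆ A ∪ A' ∪ B := by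
    intro S hS
    obtain ⟨e1, e2⟩ := mem_filter.1 hS
    rcases le_total (ε * x / 2) (S ∩ QQ r a b).card with e3 | e3
    · exact mem_union_left _ (mem_union_left _ (mem_filter.2 ⟨e1, e2, e3⟩))
    rcases le_total (ε * x / 2) (S ∩ QQ r b a).card with e4 | e4
    · exact mem_union_left _ (mem_union_right _ (mem_filter.2 ⟨e1, e2, e4⟩))
    · exact mem_union_right _ (mem_filter.2 ⟨e1, e3, e4⟩)
  have hc : ((((SS (Fin n) r).filter (fun S => act π S = S)).card : ℕ) : ℝ) ≤
      A.card + A'.card + B.card := by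
    exact_mod_cast (card_le_card hsub).trans ((card_union_le _ _).trans
      (Nat.add_le_add_right (card_union_le _ _) _))
  have e1 : Real.exp (2 * δ * x) ≤ Real.exp (ε * x / 2 / 2) :=
    Real.exp_le_exp.2 (by nlinarith)
  have fA := (mul_le_mul_of_nonneg_left e1 (Nat.cast_nonneg A.card)).trans cA
  have fA' := (mul_le_mul_of_nonneg_left e1 (Nat.cast_nonneg A'.card)).trans cA'
  have fB : (B.card : ℝ) * Real.exp (2 * δ * x) ≤ (SS (Fin n) r).card := by
    have e2 : (B.card : ℝ) ≤ (stab (V0 r a b)).card * (stab (V2 r a b)).card *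
        (((SS (Fin n) r).filter (fun S => (S.card : ℝ) ≤ ε * x)).card : ℝ) := by exact_mod_cast cB
    have e3 : Real.exp (1 / 128000000 * x) * Real.exp (2 * δ * x) ≤
        Real.exp ((QQ r a b).card / (8000000 * n)) := by
      rw [← Real.exp_add]
      refine Real.exp_le_exp.2 ?_
      have e4 : x ≤ 8 * (QQ r a b).card / n := div_le_div_of_nonneg_right hN (by linarith)
      have e5 : ((QQ r a b).card : ℝ) / (8000000 * n) = 8 * (QQ r a b).card / n / 64000000 := by
        field_simp; ring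
      nlinarith
    calc (B.card : ℝ) * Real.exp (2 * δ * x) ≤ (stab (V0 r a b)).card * (stab (V2 r a b)).card *
          Real.exp (1 / 128000000 * x) * Real.exp (2 * δ * x) :=
          mul_le_mul_of_nonneg_right (e2.trans (mul_le_mul_of_nonneg_left hS' (by positivity)))
            (Real.exp_pos _).le
      _ ≤ _ := by
          rw [mul_assoc]
          exact (mul_le_mul_of_nonneg_left e3 (by positivity)).trans hlow
  have e2 : Real.exp (2 * δ * x) = Real.exp (δ * x) * Real.exp (δ * x) := by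
    rw [← Real.exp_add]; congr 1; ring
  have e3 : 3 ≤ Real.exp (δ * x) := by linarith [Real.add_one_le_exp (δ * x)]
  have e4 : 3 * Real.exp (δ * x) ≤ Real.exp (2 * δ * x) := by
    rw [e2]; exact mul_le_mul_of_nonneg_right e3 (Real.exp_pos _).le
  have e5 := mul_le_mul_of_nonneg_left e4
    (show (0 : ℝ) ≤ A.card + A'.card + B.card by positivity)
  have e6 := mul_le_mul_of_nonneg_right hc (Real.exp_pos (δ * x)).le
  nlinarith

end Pool.Agent.MP_c3fbfc_co.V

end MrgPart3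

-- marker of a merged file
example : 731051 + 735065 = 731051 + 735065 := rfl
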