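import Mathlib.Algebra.Order.Ring.Star
import Pool.Agent.MP_c3fbfc_co.VTools

/-! FIVE: a family of at most five sets at mutual distance at least four extends to a pattern. -/

namespace Pool.Agent.MP_c3fbfc_co.V

open Finset
open scoped symmDiff

namespace Five

section Peeling

variable {T ι : Type} [DecidableEq T] [DecidableEq ι]

omit [DecidableEq ι] in
theorem peel_empty (H : ι → Finset T) (B F : Finset T) [Nonempty T] : Peel H B ∅ F :=
  ⟨fun _ => Classical.arbitrary T, fun _ => 0, fun i hi => absurd hi (notMem_empty i)⟩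

theorem peel_insert {H : ι → Finset T} {B F : Finset T} {I : Finset ι} (h : Peel H B I F) {i : ι}
    (hi : i ∉ I) {s : T} (h1 : s ∈ H i ∆ B) (h2 : s ∉ F) (h3 : ∀ j ∈ I, s ∉ H j ∆ B) :
    Peel H B (insert i I) F := by
  obtain ⟨e, ord, he⟩ := h
  refine ⟨fun k => if k = i then s else e k, fun k => if k = i then 0 else ord k + 1, ?_⟩
  intro k hk
  by_cases hki : k = i
  · subst hki
    simp only [if_true]
    refine ⟨h1, h2, fun j hj hne hm => ?_⟩
    exact absurd hm (h3 j ((mem_insert.1 hj).resolve_left hne))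
  · have hkI := (mem_insert.1 hk).resolve_left hki
    simp only [if_neg hki]
    refine ⟨(he k hkI).1, (he k hkI).2.1, fun j hj hne hm => ?_⟩
    by_cases hji : j = i
    · simp [hji]
    · have := (he k hkI).2.2 j ((mem_insert.1 hj).resolve_left hji) hne hm
      simp only [if_neg hji]
      omega

theorem exists_notMem {M F : Finset T} (h : F.card < M.card) : ∃ s ∈ M, s ∉ F := by
  by_contra hc
  push Not at hc
  exact absurd (card_le_card hc) (not_le.2 h)

theorem peel_pair {H : ι → Finset T} {B F : Finset T} {j k : ι} (hne : j ≠ k)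
    (h1 : F.card < sd (H j) (H k)) (h2 : F.card < sd (H j) B) (h3 : F.card < sd (H k) B) :
    Peel H B {j, k} F := by
  obtain ⟨s, hs, hsF⟩ := exists_notMem h1
  have : Nonempty T := ⟨s⟩
  obtain ⟨a, ha, haF⟩ := exists_notMem h2
  obtain ⟨b, hb, hbF⟩ := exists_notMem h3
  have pj : Peel H B {j} F :=
    peel_insert (peel_empty H B F) (notMem_empty j) ha haF (fun _ h => absurd h (notMem_empty _))
  have pk : Peel H B {k} F :=
    peel_insert (peel_empty H B F) (notMem_empty k) hb hbF (fun _ h => absurd h (notMem_empty _))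
  by_cases hc : s ∈ H j ∆ B
  · refine peel_insert pk (by simpa using hne) hc hsF fun x hx => ?_
    rw [mem_singleton.1 hx]
    simp only [mem_symmDiff] at hs hc ⊢
    tauto
  · rw [pair_comm]
    refine peel_insert pj (by simpa using hne.symm) ?_ hsF fun x hx => ?_
    · simp only [mem_symmDiff] at hs hc ⊢
      tauto
    · rw [mem_singleton.1 hx]; exact hc

theorem erase_three (i : Fin 3) : ∃ j k : Fin 3, j ≠ k ∧ univ.erase i = {j, k} := by
  revert i; decide

theorem peel_erase {H : Fin 3 → Finset T} {B F : Finset T} (i : Fin 3)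
    (h1 : ∀ j k, j ≠ k → F.card < sd (H j) (H k)) (h2 : ∀ j, F.card < sd (H j) B) :
    Peel H B (univ.erase i) F := by
  obtain ⟨j, k, hne, e⟩ := erase_three i
  rw [e]
  exact peel_pair hne (h1 j k hne) (h2 j) (h2 k)

theorem peel_univ {H : Fin 3 → Finset T} {B F : Finset T} {i : Fin 3} {s : T}
    (h1 : ∀ j k, j ≠ k → F.card < sd (H j) (H k)) (h2 : ∀ j, F.card < sd (H j) B)
    (h3 : s ∈ H i ∆ B) (h4 : s ∉ F) (h5 : ∀ j, j ≠ i → s ∉ H j ∆ B) : Peel H B univ F := by
  rw [← insert_erase (mem_univ i)]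
  exact peel_insert (peel_erase i h1 h2) (notMem_erase i _) h3 h4
    (fun j hj => h5 j (mem_erase.1 hj).1)

end Peeling

/-- the colouring separates some `h` from `a` and from all others except `c` -/
def Sep (a c : Fin 5) (χ : Fin 5 → Bool) : Prop :=
  ∃ h, h ≠ a ∧ h ≠ c ∧ χ h ≠ χ a ∧ ∀ j, j ≠ h → j ≠ c → χ j = χ a

/-- the colouring separates one index from the other four -/
def One (χ : Fin 5 → Bool) : Prop := ∃ h, ∀ j, j ≠ h → χ j ≠ χ h

instance (a c : Fin 5) (χ : Fin 5 → Bool) : Decidable (Sep a c χ) := by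
  unfold Sep; infer_instance

instance (χ : Fin 5 → Bool) : Decidable (One χ) := by
  unfold One; infer_instance

theorem one_sep : ∀ χ : Fin 5 → Bool, One χ →
    ∃ a c, a ≠ c ∧ χ a = χ c ∧ Sep a c χ ∧ Sep c a χ := by
  decide +kernel

theorem sep_or : ∀ χ : Fin 5 → Bool, ¬ One χ → ∀ a c, χ a ≠ χ c → Sep a c χ ∨ Sep c a χ := by
  decide +kernel

theorem two_sep : ∀ χ : Fin 5 → Bool, ¬ One χ → χ 0 ≠ χ 1 → ∃ w x, w ≠ x ∧
    ∀ χ' : Fin 5 → Bool, ¬ One χ' → χ' w ≠ χ' x → ∃ a c, a ≠ c ∧ Sep a c χ ∧ Sep c a χ' := by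
  decide +kernel

theorem rest : ∀ a c : Fin 5, a ≠ c → ∃ h : Fin 3 → Fin 5, (∀ i j, i ≠ j → h i ≠ h j) ∧
    (∀ i, h i ≠ a ∧ h i ≠ c) ∧ ∀ k, k ≠ a → k ≠ c → ∃ i, h i = k := by
  decide +kernel

theorem major : ∀ (χ : Fin 3 → Bool) (i j : Fin 3), i ≠ j →
    χ i = decide (2 ≤ (univ.filter (fun k => χ k = true)).card) ∨
      χ j = decide (2 ≤ (univ.filter (fun k => χ k = true)).card) := by
  decide +kernel

variable {T : Type} [Fintype T] [DecidableEq T]

omit [Fintype T] in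
theorem mem_iff {A B : Finset T} {s : T} : s ∈ A ∆ B ↔ decide (s ∈ A) ≠ decide (s ∈ B) := by
  simp only [mem_symmDiff, ne_eq, decide_eq_decide]
  tauto

/-- the choice of the two defects -/
theorem defects (A : Fin 5 → Finset T) (hd : ∀ i j, i ≠ j → 4 ≤ sd (A i) (A j)) :
    ∃ a c, a ≠ c ∧ (∃ s, Sep a c (fun k => decide (s ∈ A k))) ∧
      ∀ t ∈ A a ∆ A c, ∃ s, s ≠ t ∧ Sep c a (fun k => decide (s ∈ A k)) := by
  classical
  have hex : ∀ i j, i ≠ j → ∃ s, s ∈ A i ∆ A j := fun i j h =>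
    card_pos.1 (lt_of_lt_of_le (by norm_num) (hd i j h))
  by_cases h : ∃ s, One (fun k => decide (s ∈ A k))
  · obtain ⟨s, hs⟩ := h
    obtain ⟨a, c, h1, h2, h3, h4⟩ := one_sep _ hs
    refine ⟨a, c, h1, ⟨s, h3⟩, fun t ht => ⟨s, ?_, h4⟩⟩
    rintro rfl
    exact mem_iff.1 ht h2
  push Not at h
  obtain ⟨s, hs⟩ := hex 0 1 (by decide)
  obtain ⟨w, x, hwx, h1⟩ := two_sep _ (h s) (mem_iff.1 hs)
  obtain ⟨s', hs'⟩ := hex w x hwx
  obtain ⟨a, c, hac, h2, h3⟩ := h1 _ (h s') (mem_iff.1 hs')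
  have two : ∀ a c : Fin 5,
      2 ≤ ((A a ∆ A c).filter (fun s => Sep c a (fun k => decide (s ∈ A k)))).card →
      ∀ t, ∃ s, s ≠ t ∧ Sep c a (fun k => decide (s ∈ A k)) := by
    intro a c h2 t
    obtain ⟨s, hs, hst⟩ := exists_notMem (F := {t}) (lt_of_lt_of_le (by simp) h2)
    exact ⟨s, by simpa using hst, (mem_filter.1 hs).2⟩
  by_cases hc : 2 ≤ ((A a ∆ A c).filter (fun s => Sep c a (fun k => decide (s ∈ A k)))).card
  · exact ⟨a, c, hac, ⟨s, h2⟩, fun t _ => two a c hc t⟩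
  · refine ⟨c, a, hac.symm, ⟨s', h3⟩, fun t _ => two c a ?_ t⟩
    have h4 : A a ∆ A c ⊆ (A a ∆ A c).filter (fun s => Sep c a (fun k => decide (s ∈ A k))) ∪
        (A c ∆ A a).filter (fun s => Sep a c (fun k => decide (s ∈ A k))) := by
      intro t ht
      rcases sep_or _ (h t) a c (mem_iff.1 ht) with k | k
      · exact mem_union_right _ (mem_filter.2 ⟨symmDiff_comm (A a) (A c) ▸ ht, k⟩)
      · exact mem_union_left _ (mem_filter.2 ⟨ht, k⟩)
    have h5 := (card_le_card h4).trans (card_union_le _ _)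
    have h6 := hd a c hac
    rw [sd] at h6
    omega

/-- five sets at mutual distance at least four form a pattern -/
theorem pattern (ρ : ℕ) (A : Fin 5 → Finset T) (hc : ∀ i, (A i).card = ρ)
    (hd : ∀ i j, i ≠ j → 4 ≤ sd (A i) (A j)) :
    ∃ P : Pat T (Fin 3), P.ρ = ρ ∧ ∀ B, P.fam B ↔ ∃ k, B = A k := by
  classical
  obtain ⟨a, c, hac, ⟨s, hs⟩, h2⟩ := defects A hd
  obtain ⟨h, hinj, hne, hsurj⟩ := rest a c hac
  have hHH : ∀ i j, i ≠ j → 4 ≤ sd (A (h i)) (A (h j)) := fun i j k => hd _ _ (hinj i j k)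
  have pl : ∀ (a' c' : Fin 5), (∀ i, h i ≠ a' ∧ h i ≠ c') →
      (∀ k, k ≠ a' → k ≠ c' → ∃ i, h i = k) → ∀ (s : T) (F : Finset T), F.card ≤ 1 → s ∉ F →
      Sep a' c' (fun k => decide (s ∈ A k)) → Peel (fun i => A (h i)) (A a') univ F := by
    rintro a' c' g1 g2 s F hF hsF ⟨k, k1, k2, k3, k4⟩
    obtain ⟨i, rfl⟩ := g2 k k1 k2
    refine peel_univ (i := i) (s := s) (fun j k e => ?_) (fun j => ?_) (mem_iff.2 k3) hsF
      (fun j hj hm => mem_iff.1 hm (k4 _ (hinj j i hj) (g1 j).2))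
    · have := hHH j k e; omega
    · have := hd _ _ (g1 j).1; omega
  have p3 : ∀ t ∈ A a ∆ A c, Peel (fun i => A (h i)) (A c) univ {t} := fun t ht => by
    obtain ⟨s', e, hs'⟩ := h2 t ht
    exact pl c a (fun i => (hne i).symm) (fun k k1 k2 => hsurj k k2 k1) s' {t} (by simp)
      (by simpa using e) hs'
  refine ⟨
    { ρ := ρ
      H := fun i => A (h i)
      X1 := A a
      X2 := A c
      Z := univ.filter (fun t => 2 ≤ (univ.filter (fun k => decide (t ∈ A (h k)) = true)).card)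
      cH := fun i => hc _
      c1 := hc a
      c2 := hc c
      fHH := hHH
      fH1 := fun i => hd _ _ (hne i).1
      fH2 := fun i => hd _ _ (hne i).2
      f12 := hd _ _ hac
      disj := fun i j hij => disjoint_left.2 fun t h1 h2 => ?_
      ne := ⟨0⟩
      p1 := pl a c hne hsurj s ∅ (by simp) (notMem_empty s) hs
      p2 := ?_
      p3 := fun _ => p3
      p4 := fun B _ hB => ⟨0, peel_erase 0 (fun j k e => ?_) (fun j => ?_)⟩ }, rfl, fun B => ?_⟩
  · have e1 := mem_iff.1 h1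
    have e2 := mem_iff.1 h2
    simp only [mem_filter, mem_univ, true_and] at e1 e2
    exact (major (fun k => decide (t ∈ A (h k))) i j hij).elim e1 e2
  · obtain ⟨t, ht⟩ : (A a ∆ A c).Nonempty :=
      card_pos.1 (lt_of_lt_of_le (by norm_num) (hd a c hac))
    exact ⟨t, ht, p3 t ht⟩
  · have := hHH j k e
    rw [card_empty]; omega
  · rw [card_empty, pos_iff_ne_zero]
    exact fun e => hB j (sd_eq_zero.1 e).symm
  · constructor
    · rintro (⟨i, e⟩ | e | e)
      · exact ⟨_, e⟩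
      · exact ⟨_, e⟩
      · exact ⟨_, e⟩
    · rintro ⟨k, e⟩
      by_cases k1 : k = a
      · exact Or.inr (Or.inl (k1 ▸ e))
      by_cases k2 : k = c
      · exact Or.inr (Or.inr (k2 ▸ e))
      obtain ⟨i, rfl⟩ := hsurj k k1 k2
      exact Or.inl ⟨i, e⟩

/-- the blocks of new elements -/
def blk (T : Type) [DecidableEq T] (ρ : ℕ) (k : Fin 6) : Finset (T ⊕ Fin (6 * (ρ + 2))) :=
  univ.image (fun j : Fin (ρ + 2) => Sum.inr (finProdFinEquiv (k, j)))

/-- two new common elements -/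
def com (T : Type) [DecidableEq T] (ρ : ℕ) : Finset (T ⊕ Fin (6 * (ρ + 2))) :=
  {Sum.inr (finProdFinEquiv ((5 : Fin 6), (0 : Fin (ρ + 2)))),
    Sum.inr (finProdFinEquiv ((5 : Fin 6), (1 : Fin (ρ + 2))))}

/-- the padded set -/
def pad (ρ : ℕ) (B : Finset T) : Finset (T ⊕ Fin (6 * (ρ + 2))) := B.image Sum.inl ∪ com T ρ

omit [Fintype T] in
theorem card_blk (ρ : ℕ) (k : Fin 6) : (blk T ρ k).card = ρ + 2 := by
  rw [blk, card_image_of_injective, card_univ, Fintype.card_fin]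
  intro i j h
  simpa using h

omit [Fintype T] in
theorem card_com (ρ : ℕ) : (com T ρ).card = 2 := card_pair (by simp)

omit [Fintype T] in
theorem disj_com (ρ : ℕ) (B : Finset T) : Disjoint (B.image Sum.inl) (com T ρ) := by
  refine disjoint_left.2 fun t h1 h2 => ?_
  obtain ⟨b, -, rfl⟩ := mem_image.1 h1
  simp [com] at h2

omit [Fintype T] in
theorem card_pad (ρ : ℕ) (B : Finset T) : (pad ρ B).card = B.card + 2 := by
  rw [pad, card_union_of_disjoint (disj_com ρ B), card_com,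
    card_image_of_injective _ Sum.inl_injective]

omit [Fintype T] in
theorem sd_pad (ρ : ℕ) (B B' : Finset T) : sd (pad ρ B) (pad ρ B') = sd B B' := by
  have : pad ρ B ∆ pad ρ B' = (B ∆ B').image Sum.inl := by
    ext t
    rcases t with t | t
    · simp [pad, com, mem_symmDiff]
    · simp [pad, mem_symmDiff]
  rw [sd, this, card_image_of_injective _ Sum.inl_injective, sd]

omit [Fintype T] in
theorem sd_of_disjoint {β : Type} [DecidableEq β] {X Y : Finset β} (h : Disjoint X Y) :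
    sd X Y = X.card + Y.card := by
  rw [sd_eq, sdiff_eq_self_of_disjoint h, sdiff_eq_self_of_disjoint h.symm]

omit [Fintype T] in
theorem disj_blk (ρ : ℕ) {k l : Fin 6} (h : k ≠ l) : Disjoint (blk T ρ k) (blk T ρ l) := by
  refine disjoint_left.2 fun t h1 h2 => ?_
  obtain ⟨i, -, rfl⟩ := mem_image.1 h1
  obtain ⟨j, -, e⟩ := mem_image.1 h2
  simp only [Sum.inr.injEq, EmbeddingLike.apply_eq_iff_eq, Prod.mk.injEq] at e
  exact h e.1.symm

omit [Fintype T] in
theorem disj_pad (ρ : ℕ) (B : Finset T) {k : Fin 6} (h : k ≠ 5) :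
    Disjoint (pad ρ B) (blk T ρ k) := by
  refine disjoint_left.2 fun t h1 h2 => ?_
  obtain ⟨j, -, rfl⟩ := mem_image.1 h2
  simp [pad, com, h] at h1

end Five

open Five in
theorem five : FiveStmt := by
  classical
  intro T _ _ ρ 𝓗 hc hS h5
  let A : Fin 5 → Finset (T ⊕ Fin (6 * (ρ + 2))) := fun i =>
    if h : i.1 < 𝓗.card then pad ρ (𝓗.equivFin.symm ⟨i.1, h⟩).1 else blk T ρ i.castSucc
  have h5' : ∀ i : Fin 5, i.castSucc ≠ 5 := by decide
  have hA : ∀ i, (A i).card = ρ + 2 := fun i => by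
    simp only [A]
    split_ifs with h
    · rw [card_pad, hc _ (𝓗.equivFin.symm ⟨i.1, h⟩).2]
    · exact card_blk ρ _
  have hd : ∀ i j, i ≠ j → 4 ≤ sd (A i) (A j) := fun i j hij => by
    have hi := hA i
    have hj := hA j
    simp only [A] at hi hj ⊢
    split_ifs at hi hj ⊢ with h1 h2 h2
    · rw [sd_pad]
      have m1 := (𝓗.equivFin.symm ⟨i.1, h1⟩).2
      have m2 := (𝓗.equivFin.symm ⟨j.1, h2⟩).2
      rcases sd_cases ((hc _ m1).trans (hc _ m2).symm) with k | k | k
      · have := 𝓗.equivFin.symm.injective (Subtype.ext k)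
        exact absurd (Fin.ext (by simpa using this)) hij
      · exact absurd k (hS _ m1 _ m2)
      · exact k
    · rw [sd_of_disjoint (disj_pad ρ _ (h5' j)), hi, hj]; omega
    · rw [sd_of_disjoint (disj_pad ρ _ (h5' i)).symm, hi, hj]; omega
    · rw [sd_of_disjoint (disj_blk ρ (fun e => hij (Fin.castSucc_injective _ e))), hi, hj]; omega
  obtain ⟨P, hρ, hP⟩ := pattern (ρ + 2) A hA hd
  refine ⟨6 * (ρ + 2), P, ?_⟩
  rintro n r K ⟨σ, ⟨s1, s2, s3⟩, hσ⟩
  rw [hρ] at s3 hσ
  refine ⟨(σ.1 ∪ (com T ρ).image σ.2, fun t => σ.2 (Sum.inl t)), ⟨?_, ?_, ?_⟩, fun B hB => ?_⟩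
  · exact s1.comp Sum.inl_injective
  · intro t ht
    rcases mem_union.1 ht with k | k
    · exact s2 _ k
    · obtain ⟨u, hu, e⟩ := mem_image.1 k
      rw [s1 e] at hu
      simp [com] at hu
  · show (σ.1 ∪ (com T ρ).image σ.2).card + ρ = r
    rw [card_union_of_disjoint, card_image_of_injective _ s1, card_com]
    · omega
    · refine disjoint_right.2 fun x hx => ?_
      obtain ⟨u, -, rfl⟩ := mem_image.1 hx
      exact s2 u
  · have e : pt (σ.1 ∪ (com T ρ).image σ.2, fun t => σ.2 (Sum.inl t)) B = pt σ (pad ρ B) := by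
      simp only [pt, pad, image_union, image_image, Function.comp_def]
      rw [union_assoc, union_comm (image σ.2 (com T ρ))]
    rw [e, hσ _ (by rw [card_pad, hB]), hP]
    constructor
    · rintro ⟨k, hk⟩
      simp only [A] at hk
      split_ifs at hk with h
      · have := sd_pad ρ B (𝓗.equivFin.symm ⟨k.1, h⟩).1
        rw [← hk, sd_self] at this
        rw [sd_eq_zero.1 this.symm]
        exact (𝓗.equivFin.symm ⟨k.1, h⟩).2
      · have h1 := disj_pad ρ B (h5' k)
        rw [hk, disjoint_self, bot_eq_empty, ← card_eq_zero, card_blk] at h1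
        omega
    · intro hB'
      have hlt := (𝓗.equivFin ⟨B, hB'⟩).2
      refine ⟨⟨(𝓗.equivFin ⟨B, hB'⟩).1, by omega⟩, ?_⟩
      simp only [A, dif_pos hlt, Fin.eta, Equiv.symm_apply_apply]

end Pool.Agent.MP_c3fbfc_co.V
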