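import Mathlib.Topology.Sheaves.Presheaf
import Mathlib.Algebra.Order.Ring.Star
import Pool.Agent.MP_c3fbfc_co.VTools

/-! LINK: from the counting statements to matroids, labelled and unlabelled. -/

namespace Pool.Agent.MP_c3fbfc_co.V

open Finset Filter Topology
open scoped Classical Matroid

namespace Link

variable {n : ℕ}

/-- the rank -/
noncomputable def rr (M : LMat n) : ℕ := rk M.1 univ

/-- the non-bases -/
noncomputable def KK (M : LMat n) : Finset (Finset (Fin n)) :=
  (Vr (Fin n) (rr M)).filter (fun X : Finset (Fin n) => ¬ M.1.IsBase X)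

theorem card_base {M : LMat n} {X : Finset (Fin n)} (h : M.1.IsBase X) : X.card = rr M :=
  (mem_bases.1 ((isBase_iff_rk _ _).1 h)).1

theorem mem_KK {M : LMat n} {X : Finset (Fin n)} : X ∈ KK M ↔ X.card = rr M ∧ ¬ M.1.IsBase X := by
  rw [KK, mem_filter, mem_Vr]

theorem KK_mem (M : LMat n) : KK M ∈ MM (Fin n) (rr M) :=
  mem_MM_of_matroid M.1 fun _ => card_base

theorem ext' {M M' : LMat n} (h : rr M = rr M') (h' : KK M = KK M') : M = M' := by
  refine Subtype.ext (Matroid.ext_isBase (M.2.trans M'.2.symm) fun B _ => ?_)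
  lift B to Finset (Fin n) using Set.toFinite B
  have h1 : B ∈ KK M ↔ B ∈ KK M' := by rw [h']
  have h2 := card_base (M := M) (X := B)
  have h3 := card_base (M := M') (X := B)
  rw [mem_KK, mem_KK, h] at h1
  rw [h] at h2
  tauto

instance (n : ℕ) : Finite (LMat n) :=
  Finite.of_injective (fun M : LMat n => (M.1.IsBase : Set (Fin n) → Prop)) fun M M' h =>
    Subtype.ext (Matroid.ext_isBase (M.2.trans M'.2.symm) fun B _ => iff_of_eq (congrFun h B))

instance (n : ℕ) : Nonempty (LMat n) := ⟨⟨Matroid.freeOn Set.univ, rfl⟩⟩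

noncomputable instance (n : ℕ) : Fintype (LMat n) := Fintype.ofFinite _

theorem cnt (p : ℕ → Finset (Finset (Fin n)) → Prop) :
    (univ.filter fun M : LMat n => p (rr M) (KK M)).card =
      ∑ r ∈ range (n + 1), ((MM (Fin n) r).filter (p r)).card := by
  rw [← card_sigma]
  refine card_nbij (fun M => ⟨rr M, KK M⟩) (fun M hM => ?_) (fun M _ M' _ h => ?_) fun x hx => ?_
  · have := (rk_isRk M.1).le_card univ
    rw [card_univ, Fintype.card_fin] at this
    exact mem_coe.2 (mem_sigma.2 ⟨mem_range.2 (Nat.lt_succ_of_le this),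
      mem_filter.2 ⟨KK_mem M, (mem_filter.1 hM).2⟩⟩)
  · exact ext' (congrArg Sigma.fst h) (congrArg (fun x => x.2) h)
  · obtain ⟨r, K⟩ := x
    obtain ⟨h1, h2⟩ := mem_filter.1 (mem_sigma.1 hx).2
    obtain ⟨M, m1, m2⟩ := exists_matroid h1
    obtain ⟨B, hB⟩ := exists_basis h1
    have e1 : rr ⟨M, m1⟩ = r := (card_base ((m2 B).2 hB)).symm.trans hB.1
    have e2 : KK ⟨M, m1⟩ = K := by
      ext X
      have := card_of_MM h1 (X := X)
      rw [mem_KK, e1, m2]
      tauto
    exact ⟨⟨M, m1⟩, mem_coe.2 (mem_filter.2 ⟨mem_univ _, by rw [e1, e2]; exact h2⟩),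
      by simp only [e1, e2]⟩

theorem bound (hO : ∀ r, ¬ Win n r →
      ((MM (Fin n) r).card : ℝ) * Real.exp (3 * n ^ 2) ≤ (MM (Fin n) (n / 2)).card)
    (p : ℕ → Finset (Finset (Fin n)) → Prop) {η : ℝ} (hη : 0 ≤ η)
    (h : ∀ r, Win n r → (((MM (Fin n) r).filter (p r)).card : ℝ) ≤ η * (MM (Fin n) r).card) :
    ((univ.filter fun M : LMat n => p (rr M) (KK M)).card : ℝ) ≤
      (η + (n + 1) / Real.exp (3 * n ^ 2)) * Fintype.card (LMat n) := by
  have e : Fintype.card (LMat n) = ∑ r ∈ range (n + 1), (MM (Fin n) r).card := by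
    simpa using cnt (n := n) fun _ _ => True
  have h1 : ((MM (Fin n) (n / 2)).card : ℝ) ≤ Fintype.card (LMat n) := by
    rw [e]
    exact_mod_cast single_le_sum (f := fun r => (MM (Fin n) r).card) (fun _ _ => Nat.zero_le _)
      (mem_range.2 (by omega))
  rw [cnt, Nat.cast_sum]
  calc _ ≤ ∑ r ∈ range (n + 1), (η * (MM (Fin n) r).card +
        Fintype.card (LMat n) / Real.exp (3 * n ^ 2)) := sum_le_sum fun r _ => by
        by_cases hr : Win n r
        · exact (h r hr).trans (le_add_of_nonneg_right (by positivity))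
        · refine le_add_of_nonneg_of_le (by positivity) ?_
          rw [le_div_iff₀ (Real.exp_pos _)]
          refine le_trans ?_ ((hO r hr).trans h1)
          gcongr
          exact filter_subset _ _
    _ = _ := by
        rw [sum_add_distrib, ← mul_sum, ← Nat.cast_sum, ← e, sum_const, card_range, nsmul_eq_mul]
        push_cast
        ring

section act

variable {α : Type*} [Fintype α] [DecidableEq α]

omit [Fintype α] in
theorem mem_act {π : Equiv.Perm α} {K : Finset (Finset α)} {X : Finset α} :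
    X ∈ act π K ↔ X.image π.symm ∈ K := by
  rw [act, mem_image]
  refine ⟨?_, fun h => ⟨_, h, by simp [image_image]⟩⟩
  rintro ⟨Y, hY, rfl⟩
  simpa [image_image] using hY

omit [Fintype α] in
theorem occ_act {T : Type} [Fintype T] [DecidableEq T] {r ρ : ℕ} {𝓗 : Finset T → Prop}
    {π : Equiv.Perm α} {K : Finset (Finset α)} (h : Occ r ρ 𝓗 (act π K)) : Occ r ρ 𝓗 K := by
  obtain ⟨σ, ⟨h1, h2, h3⟩, h4⟩ := h
  refine ⟨(σ.1.image π.symm, π.symm ∘ σ.2), ⟨π.symm.injective.comp h1, fun t ht => h2 t ?_, ?_⟩,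
    fun B hB => ?_⟩
  · exact (π.symm.injective.mem_finset_image).1 ht
  · rw [card_image_of_injective _ π.symm.injective, h3]
  · rw [← h4 B hB, mem_act, pt, pt, image_union, image_image]

/-- families with a symmetry -/
def Sy (K : Finset (Finset α)) : Prop := ∃ π ≠ 1, act π K = K

end act

/-- relabelling -/
def ac (π : Equiv.Perm (Fin n)) (M : LMat n) : LMat n := ⟨M.1.mapEquiv π, by simp [M.2]⟩

theorem rr_ac (π : Equiv.Perm (Fin n)) (M : LMat n) : rr (ac π M) = rr M := by
  obtain ⟨B, hB⟩ := (ac π M).1.exists_isBase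
  lift B to Finset (Fin n) using Set.toFinite B
  rw [← card_base hB, ← card_image_of_injective B π.symm.injective]
  exact card_base (by rw [coe_image]; exact Matroid.mapEquiv_isBase_iff.1 hB)

theorem KK_ac (π : Equiv.Perm (Fin n)) (M : LMat n) : KK (ac π M) = act π (KK M) := by
  ext X
  rw [mem_act, mem_KK, mem_KK, rr_ac, card_image_of_injective _ π.symm.injective, coe_image]
  exact and_congr_right fun _ => Matroid.mapEquiv_isBase_iff.not

theorem isom_ac (π : Equiv.Perm (Fin n)) (M : LMat n) : Isom M.1 (ac π M).1 :=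
  ⟨π.subtypeEquiv fun a => by simp [M.2, (ac π M).2], fun I => by
    rw [ac, Matroid.mapEquiv_indep_iff, Set.image_image, Set.image_image]
    exact iff_of_eq (congrArg _ (Set.image_congr fun x _ => (π.symm_apply_apply x).symm))⟩

theorem exists_ac {M M' : LMat n} (h : Isom M.1 M'.1) : ∃ π, M' = ac π M := by
  obtain ⟨e, he⟩ := h
  have mem : ∀ x, x ∈ M.1.E := fun x => M.2.symm ▸ Set.mem_univ x
  let π : Equiv.Perm (Fin n) := Equiv.ofBijective (fun x => (e ⟨x, mem x⟩).1)
    (Finite.injective_iff_bijective.1 fun x y h => by simpa using Subtype.ext h)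
  refine ⟨π, Subtype.ext (Matroid.ext_indep (M'.2.trans (ac π M).2.symm) fun I _ => ?_)⟩
  have := he (Subtype.val ⁻¹' (π.symm '' I))
  rw [Subtype.image_preimage_coe, Set.inter_eq_right.2 (fun x _ => mem x)] at this
  rw [ac, Matroid.mapEquiv_indep_iff, this]
  apply Iff.of_eq
  congr 1
  ext y
  simp only [Set.mem_image, Set.mem_preimage]
  constructor
  · intro hy
    exact ⟨_, ⟨⟨π.symm y, mem _⟩, ⟨y, hy, rfl⟩, rfl⟩, π.apply_symm_apply y⟩
  · rintro ⟨_, ⟨x, ⟨z, hz, h⟩, rfl⟩, rfl⟩
    have : π x = z := by rw [← h, π.apply_symm_apply]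
    exact (show π x ∈ I from this ▸ hz)

/-- the class of a labelled matroid -/
def mk (M : LMat n) : UMat n := Quot.mk _ M

theorem isom_of_mk {M M' : LMat n} (h : mk M = mk M') : Isom M.1 M'.1 :=
  (Equivalence.eqvGen_iff (r := fun M M' : LMat n => Isom M.1 M'.1)
    ⟨fun _ => isom_refl _, isom_symm, isom_trans⟩).1 (Quot.eqvGen_exact h)

instance (n : ℕ) : Finite (UMat n) := Quot.finite _

instance (n : ℕ) : Nonempty (UMat n) := ⟨mk (Classical.arbitrary _)⟩

noncomputable instance (n : ℕ) : Fintype (UMat n) := Fintype.ofFinite _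

theorem card_LMat_le (n : ℕ) :
    (Fintype.card (LMat n) : ℝ) ≤ Fintype.card (UMat n) * n.factorial := by
  refine card_le_mul_of_rel (univ : Finset (LMat n)) (univ : Finset (UMat n))
    (fun M q => mk M = q) _ (fun M _ => ⟨_, mem_univ _, rfl⟩) fun q _ => ?_
  obtain ⟨M0, rfl⟩ := Quot.exists_rep q
  have := card_le_card_of_surjOn (s := univ) (t := univ.filter fun M => mk M = mk M0)
    (fun π => ac π M0) fun M hM => by
      obtain ⟨π, h⟩ := exists_ac (isom_of_mk (mem_filter.1 hM).2.symm)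
      exact ⟨π, mem_coe.2 (mem_univ _), h.symm⟩
  rw [card_univ, Fintype.card_perm, Fintype.card_fin] at this
  exact_mod_cast this

/-- classes with a bad member are symmetric or have `n!` bad members -/
theorem classes (p : ℕ → Finset (Finset (Fin n)) → Prop) (hp : ∀ r K π, p r K → p r (act π K))
    (Q : Finset (UMat n)) (hQ : ∀ q ∈ Q, ∃ M, mk M = q ∧ p (rr M) (KK M)) :
    (Q.card : ℝ) ≤ (univ.filter fun M : LMat n => p (rr M) (KK M)).card / n.factorial +
      (univ.filter fun M : LMat n => Sy (KK M)).card := by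
  rw [← card_filter_add_card_filter_not
    (fun q => ∀ M, mk M = q → ∀ π, act π (KK M) = KK M → π = 1), Nat.cast_add]
  refine add_le_add ?_ (Nat.cast_le.2 (card_le_card_of_surjOn mk fun q hq => ?_))
  · rw [le_div_iff₀ (by positivity)]
    refine mul_card_le_of_rel _ _ (fun q M => mk M = q) _ (fun q hq => ?_)
      fun _ _ _ _ _ _ h h' => h.symm.trans h'
    obtain ⟨h1, h2⟩ := mem_filter.1 hq
    obtain ⟨M, rfl, hM⟩ := hQ q h1
    have h3 : ∀ π, mk (ac π M) = mk M := fun π => Quot.sound (isom_symm (isom_ac π M))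
    have := card_le_card_of_injOn (s := univ) (t := (univ.filter fun M' : LMat n =>
        p (rr M') (KK M')).filter fun M' => mk M' = mk M) (fun π => ac π M)
      (fun π _ => mem_coe.2 (mem_filter.2 ⟨mem_filter.2 ⟨mem_univ _, by
        rw [rr_ac, KK_ac]; exact hp _ _ _ hM⟩, h3 π⟩)) fun π _ π' _ h => by
        have h4 : act π (KK M) = act π' (KK M) := by rw [← KK_ac, ← KK_ac, show ac π M = _ from h]
        refine inv_mul_eq_one.1 (h2 M rfl _ ?_)
        ext X
        have h5 := Finset.ext_iff.1 h4 (X.image π)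
        rw [mem_act, mem_act, image_image, image_image] at h5
        rw [mem_act]
        simpa [Equiv.Perm.mul_def, Equiv.Perm.inv_def] using h5.symm
    rw [card_univ, Fintype.card_perm, Fintype.card_fin] at this
    exact_mod_cast this
  · have := (mem_filter.1 hq).2
    push Not at this
    obtain ⟨M, h1, π, h2, h3⟩ := this
    exact ⟨M, mem_coe.2 (mem_filter.2 ⟨mem_univ _, π, h3, h2⟩), h1⟩

theorem ratio (a b c : ℕ → ℝ) (h1 : ∀ n, a n + b n = c n) (h2 : ∀ n, 0 < c n)
    (h3 : ∀ n, 0 ≤ b n) (h4 : ∀ η, 0 < η → ∀ᶠ n : ℕ in atTop, b n ≤ η * c n) :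
    Tendsto (fun n => a n / c n) atTop (𝓝 1) := by
  have e : ∀ n, a n / c n = 1 - b n / c n := fun n => by
    have := (h2 n).ne'
    field_simp
    linarith [h1 n]
  simp only [e]
  have t : Tendsto (fun n => b n / c n) atTop (𝓝 0) := by
    refine tendsto_order.2 ⟨fun x hx => Eventually.of_forall fun n =>
      hx.trans_le (div_nonneg (h3 n) (h2 n).le), fun x hx => ?_⟩
    filter_upwards [h4 (x / 2) (by positivity)] with n hn
    rw [← div_le_iff₀ (h2 n)] at hn
    linarith
  simpa using t.const_sub 1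

theorem small {η : ℝ} (hη : 0 < η) : ∀ᶠ n : ℕ in atTop,
    (n.factorial : ℝ) / Real.exp (2 * n ^ 2) * n.factorial ≤ η ∧
      (n + 1) / Real.exp (3 * n ^ 2) * n.factorial ≤ η := by
  have t := Real.tendsto_exp_neg_atTop_nhds_zero.comp tendsto_natCast_atTop_atTop
  filter_upwards [t.eventually_le_const hη, eventually_ge_atTop 1] with n hn n1
  have a0 : (1 : ℝ) ≤ n := by exact_mod_cast n1
  have a1 : (n.factorial : ℝ) ≤ Real.exp (n * (n - 1)) := by
    rw [Real.exp_nat_mul]
    refine le_trans (by exact_mod_cast n.factorial_le_pow) (pow_le_pow_left₀ n.cast_nonneg ?_ n)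
    linarith [Real.add_one_le_exp ((n : ℝ) - 1)]
  have a2 : (n : ℝ) + 1 ≤ Real.exp n := Real.add_one_le_exp _
  refine ⟨le_trans ?_ hn, le_trans ?_ hn⟩
  · calc _ ≤ Real.exp (n * (n - 1)) / Real.exp (2 * n ^ 2) * Real.exp (n * (n - 1)) := by gcongr
      _ ≤ Real.exp (-n) := by
        rw [← Real.exp_sub, ← Real.exp_add, Real.exp_le_exp]; nlinarith
  · calc _ ≤ Real.exp n / Real.exp (3 * n ^ 2) * Real.exp (n * (n - 1)) := by gcongr
      _ ≤ Real.exp (-n) := by
        rw [← Real.exp_sub, ← Real.exp_add, Real.exp_le_exp]; nlinarith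

/-- the passage for an invariant property that is rare in every rank of the window -/
theorem pass (hO : OutStmt) (hS : SymStmt) {β : Type*} (N : Matroid β)
    (p : ∀ n, ℕ → Finset (Finset (Fin n)) → Prop) (hp : ∀ n r K π, p n r K → p n r (act π K))
    (h1 : ∀ n, 1 ≤ n → ∀ M : LMat n, ¬ HasMinor M.1 N → p n (rr M) (KK M))
    (h2 : ∀ η : ℝ, 0 < η → ∀ᶠ n : ℕ in atTop, ∀ r, Win n r →
      (((MM (Fin n) r).filter (p n r)).card : ℝ) ≤ η * (MM (Fin n) r).card) :
    AlmostAllHaveMinor N := by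
  have key : ∀ η : ℝ, 0 < η → ∀ᶠ n : ℕ in atTop,
      ((univ.filter fun M : LMat n => p n (rr M) (KK M)).card : ℝ) ≤ η * Fintype.card (LMat n) :=
    fun η hη => by
      filter_upwards [hO, h2 (η / 2) (by positivity), small (half_pos hη)] with n a1 a2 a3
      refine (bound a1 _ (by positivity) a2).trans (mul_le_mul_of_nonneg_right ?_ (by positivity))
      have : (1 : ℝ) ≤ n.factorial := by exact_mod_cast n.factorial_pos
      have := le_mul_of_one_le_right (a := (n + 1) / Real.exp (3 * n ^ 2)) (by positivity) this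
      linarith [a3.2]
  constructor
  · refine ratio _ _ _ (fun n => card_add_compl _) (fun n => Nat.cast_pos.2 Nat.card_pos)
      (fun n => Nat.cast_nonneg _) fun η hη => ?_
    filter_upwards [key (η / 3) (by positivity), hO, hS, small (η := η / 3) (by positivity),
      eventually_ge_atTop 1] with n a1 a2 a3 a4 n1
    rw [Nat.card_eq_fintype_card, Nat.card_eq_fintype_card, Fintype.card_subtype]
    refine (classes (p n) (hp n) _ fun q hq => ?_).trans ?_
    · have := (mem_filter.1 hq).2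
      push Not at this
      obtain ⟨M, b1, b2⟩ := this
      exact ⟨M, b1, h1 n n1 M b2⟩
    have b1 := bound a2 (fun _ K => Sy K)
      (η := n.factorial / Real.exp (2 * n ^ 2)) (by positivity) fun r hr => by
        refine (card_le_mul_of_rel _ (univ.erase (1 : Equiv.Perm (Fin n)))
          (fun K π => act π K = K) ((MM (Fin n) r).card / Real.exp (2 * n ^ 2))
          (fun K hK => ?_) fun π hπ => ?_).trans ?_
        · obtain ⟨π, c1, c2⟩ := (mem_filter.1 hK).2
          exact ⟨π, mem_erase.2 ⟨c1, mem_univ _⟩, c2⟩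
        · rw [le_div_iff₀ (Real.exp_pos _)]
          refine le_trans ?_ (a3 r hr π (ne_of_mem_erase hπ))
          gcongr
          exact filter_subset _ _
        · have := card_le_univ (univ.erase (1 : Equiv.Perm (Fin n)))
          rw [Fintype.card_perm, Fintype.card_fin] at this
          rw [div_mul_comm, mul_comm]
          gcongr
    have b2 := card_LMat_le n
    have b3 : (0 : ℝ) < n.factorial := by positivity
    have b4 := a1.trans (mul_le_mul_of_nonneg_left b2 (by positivity))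
    rw [← mul_assoc, ← div_le_iff₀ b3] at b4
    have b5 := b1.trans (mul_le_mul_of_nonneg_left b2 (by positivity))
    have b6 := mul_le_mul_of_nonneg_right (add_le_add a4.1 a4.2)
      (Nat.cast_nonneg (α := ℝ) (Fintype.card (UMat n)))
    linarith
  · refine ratio _ _ _ (fun n => card_add_compl _) (fun n => Nat.cast_pos.2 Nat.card_pos)
      (fun n => Nat.cast_nonneg _) fun η hη => ?_
    filter_upwards [key η hη, eventually_ge_atTop 1] with n a1 n1
    rw [Nat.card_eq_fintype_card, Nat.card_eq_fintype_card, Fintype.card_subtype]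
    refine le_trans (Nat.cast_le.2 (card_le_card fun M hM => ?_)) a1
    exact mem_filter.2 ⟨mem_univ _, h1 n n1 M (mem_filter.1 hM).2⟩

theorem hm_of_occ {β : Type*} {N : Matroid β} (hE : N.E.Finite) (h : Paving N) {s : ℕ}
    (hs : N.eRank = s) {T : Type} [Fintype T] [DecidableEq T] (g : T ↪ β)
    (hg : N.E = Set.range g) (hn : 1 ≤ n) (M : LMat n) {𝓗 : Finset T → Prop}
    (h𝓗 : ∀ B : Finset T, B.card = s → (𝓗 B ↔ N.Dep (B.map g)))
    (ho : Occ (rr M) s 𝓗 (KK M)) : HM M.1 N := by
  obtain ⟨σ, ⟨h1, h2, h3⟩, h4⟩ := ho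
  have e : ∀ t, Function.extend g σ.2 (fun _ => ⟨0, hn⟩) (g t) = σ.2 t :=
    g.injective.extend_apply _ _
  refine hm_of M.1 M.2 hE h hs σ.1 (Function.extend g σ.2 fun _ => ⟨0, hn⟩) ?_ ?_ h3 ?_
  · rw [hg]
    rintro _ ⟨a, rfl⟩ _ ⟨b, rfl⟩ hab
    rw [e, e] at hab
    rw [h1 hab]
  · rw [hg]
    rintro _ ⟨a, rfl⟩
    rw [e]
    exact h2 a
  · intro A hA hc
    obtain ⟨B, rfl⟩ : ∃ B : Finset T, A = B.map g := ⟨univ.filter fun t => g t ∈ A, by
      ext x
      simp only [Finset.mem_map, mem_filter, mem_univ, true_and]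
      refine ⟨fun hx => ?_, fun ⟨_, h, h'⟩ => h' ▸ h⟩
      obtain ⟨t, rfl⟩ := hg ▸ hA hx
      exact ⟨t, hx, rfl⟩⟩
    rw [card_map] at hc
    have e1 : (B.map g).image (Function.extend g σ.2 fun _ => ⟨0, hn⟩) ∪ σ.1 = pt σ B := by
      rw [pt, union_comm, map_eq_image, image_image]
      congr 2
      exact funext e
    have e2 : (pt σ B).card = rr M := by
      rw [pt, card_union_of_disjoint, card_image_of_injective _ h1, hc, h3]
      refine disjoint_right.2 fun x hx => ?_
      obtain ⟨t, -, rfl⟩ := mem_image.1 hx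
      exact h2 t
    have e3 := (rk_isRk M.1).le_top (pt σ B)
    rw [← h𝓗 B hc, ← h4 B hc, mem_KK, isBase_iff_rk, mem_bases, e1, e2, rr]
    omega

end Link

open Link in
theorem link (hF : FinStmt) (hO : OutStmt) (hS : SymStmt) (h5 : FiveStmt) {β : Type*}
    (N : Matroid β) (hE : N.E.Finite) (h : Paving N) (h2 : Paving N✶)
    (hc : {A : Set β | N.Dep A ∧ A.encard = N.eRank}.encard ≤ 5) : AlmostAllHaveMinor N := by
  obtain ⟨s, hs⟩ := ENat.ne_top_iff_exists.1
    (ne_top_of_le_ne_top hE.encard_lt_top.ne N.eRank_le_encard_ground)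
  obtain ⟨k, g, g1, g2⟩ := hE.fin_param
  set 𝓗 : Finset (Finset (Fin k)) :=
    univ.filter fun B => B.card = s ∧ N.Dep (B.map ⟨g, g1⟩) with h𝓗
  have m𝓗 : ∀ B, B ∈ 𝓗 ↔ B.card = s ∧ N.Dep (B.map ⟨g, g1⟩) := fun B => by simp [h𝓗]
  obtain ⟨m, P, hP⟩ := h5 (Fin k) s 𝓗 (fun B hB => ((m𝓗 B).1 hB).1) (fun X hX Y hY e => by
    obtain ⟨x1, x2⟩ := (m𝓗 X).1 hX
    obtain ⟨y1, y2⟩ := (m𝓗 Y).1 hY
    have e1 := sd_of_card_eq (x1.trans y1.symm)
    have e2 := card_sdiff_add_card_inter X Y
    have e3 := map_injective _ (sparse_eq hE h h2 hs.symm x2 y2 (by rw [card_map, x1])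
      (by rw [card_map, y1]) (by rw [← map_inter, card_map]; omega))
    rw [sd_eq_zero.2 e3] at e
    omega) (by
    have := (Set.encard_le_encard_of_injOn (s := (𝓗 : Set (Finset (Fin k))))
      (f := fun B => ((B.map ⟨g, g1⟩ : Finset β) : Set β)) (fun B hB => by
        obtain ⟨x1, x2⟩ := (m𝓗 B).1 hB
        exact ⟨x2, by rw [Set.encard_coe_eq_coe_finsetCard, card_map, x1, hs]⟩)
      fun B _ B' _ e => map_injective _ (coe_injective e)).trans hc
    rw [Set.encard_coe_eq_coe_finsetCard] at this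
    exact_mod_cast this)
  refine pass hO hS N (fun n r K => ¬ Occ r P.ρ P.fam K) (fun n r K π a b => a (occ_act b))
    (fun n hn M a b => a (hm_of_occ hE h hs.symm ⟨g, g1⟩ g2.symm hn M
      (fun B hB => by simp only [m𝓗, hB, true_and]) (hP _ _ _ b)).hasMinor) fun η hη => ?_
  filter_upwards [hF _ _ P η hη] with n hn r hr
  convert hn r hr

end Pool.Agent.MP_c3fbfc_co.V
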