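import Mathlib.Tactic.IntervalCases
import Mathlib.Data.Int.Star
import Mathlib.Algebra.Order.Ring.Star
import Pool.Agent.MP_c3fbfc_co.VTools

/-! Vertices with exactly one neighbour among the non-bases are rare on average. -/

namespace Pool.Agent.MP_c3fbfc_co.V

open Finset
open scoped symmDiff

namespace Pb

variable {α : Type*} [Fintype α] [DecidableEq α] {r : ℕ} {K : Finset (Finset α)}

/-- ordered adjacent pairs -/
def E (P : Finset (Finset α)) : Finset (Finset α × Finset α) :=
  (P ×ˢ P).filter (fun p => sd p.1 p.2 = 2)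

omit [Fintype α] in
theorem mem_E {P : Finset (Finset α)} {p : Finset α × Finset α} :
    p ∈ E P ↔ p.1 ∈ P ∧ p.2 ∈ P ∧ sd p.1 p.2 = 2 := by
  simp [E, and_assoc]

theorem lower {P : Finset (Finset α)} (hP : P ⊆ Vr α r) (h1 : Fintype.card α ≤ 3 * r)
    (h2 : 3 * r ≤ 2 * Fintype.card α) :
    6 * (Fintype.card α * P.card) ≤ (E P).card + 84 * (Fintype.card α).choose r := by
  classical
  have key : ∀ Y : Finset α, 12 * (ln r Y ∩ P).card ≤
      ((E P).filter (fun p => p.1 ∈ ln r Y ∧ p.2 ∈ ln r Y)).card +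
        42 * (if Ctr r Y then 1 else 0) := by
    intro Y
    by_cases hY : Ctr r Y
    · have h3 : (ln r Y ∩ P).offDiag ⊆ (E P).filter (fun p => p.1 ∈ ln r Y ∧ p.2 ∈ ln r Y) := by
        intro p hp
        obtain ⟨a, b, c⟩ := mem_offDiag.1 hp
        rw [mem_inter] at a b
        exact mem_filter.2 ⟨mem_E.2 ⟨a.2, b.2, (ln_clique a.1 b.1).resolve_left c⟩, a.1, b.1⟩
      have h4 := card_le_card h3
      rw [offDiag_card] at h4
      rw [if_pos hY]
      generalize (ln r Y ∩ P).card = k at h4 ⊢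
      have h5 : 13 * k ≤ k * k + 42 := by
        rcases le_total k 6 with h | h
        · interval_cases k <;> omega
        · obtain ⟨j, rfl⟩ := Nat.exists_eq_add_of_le h
          nlinarith [Nat.le_mul_self j]
      omega
    · have : ln r Y ∩ P = ∅ := eq_empty_of_forall_notMem fun X hX =>
        hY (ctr_of_mem_ln (mem_inter.1 hX).1)
      simp [this]
  have h3 := sum_le_sum fun Y (_ : Y ∈ (univ : Finset (Finset α))) => key Y
  rw [← mul_sum, sum_card_inter_ln hP, sum_add_distrib, ← mul_sum, ← card_filter] at h3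
  have h4 := card_ctr_le h1 h2 (univ.filter (fun Y => Ctr r Y)) fun Y hY => (mem_filter.1 hY).2
  have h5 : ∑ Y : Finset α, ((E P).filter (fun p => p.1 ∈ ln r Y ∧ p.2 ∈ ln r Y)).card ≤
      (E P).card * 2 := by
    simp only [card_filter]
    rw [sum_comm, ← smul_eq_mul]
    refine sum_le_card_nsmul _ _ _ fun p hp => ?_
    rw [← card_filter]
    refine card_lines_pair (r := r) (A := p.1) (B := p.2) (fun e => ?_) _
      fun Y hY => (mem_filter.1 hY).2
    have := (mem_E.1 hp).2.2
    rw [e, sd_self] at this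
    omega
  omega

theorem owner (h : K ∈ MM α r) {V : Finset α} (hV : V ∈ PP r K) :
    ∃ A, cn K V = {A} ∧ A ∈ UU K ∧ A.card = r ∧ sd V A = 2 := by
  obtain ⟨c, h1, h2⟩ := mem_PP.1 hV
  obtain ⟨A, hA⟩ := card_eq_one.1 h2
  have h3 : A ∈ cn K V := hA ▸ mem_singleton_self A
  have h4 := mem_cn.1 h3
  have h5 := card_of_MM h h4.1
  exact ⟨A, hA, cn_subset_UU h hV h3, h5,
    ((sd_le_two (c.trans h5.symm)).1 h4.2).resolve_left fun e => h1 (e ▸ h4.1)⟩

/-- pairs with a common owner -/
theorem same (h : K ∈ MM α r) (S : Finset (Finset α × Finset α))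
    (hS : ∀ p ∈ S, p.2 ∈ PP r K ∧ p.1.card = r ∧ p.1 ∉ K ∧ sd p.1 p.2 = 2 ∧
      cn K p.2 ⊆ cn K p.1) : S.card ≤ Fintype.card α * (PP r K).card := by
  refine card_le_mul_card_image_of_maps_to (f := Prod.snd) (fun p hp => (hS p hp).1) _
    fun W hW => ?_
  obtain ⟨A, h1, -, h3, h4⟩ := owner h hW
  have cW := (mem_PP.1 hW).1
  rw [← card_image_of_injOn (f := Prod.fst) (fun p hp q hq e => Prod.ext e
    ((mem_filter.1 (mem_coe.1 hp)).2.trans (mem_filter.1 (mem_coe.1 hq)).2.symm))]
  refine card_common_adj cW h3 h4 _ fun V hV => ?_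
  obtain ⟨p, hp, rfl⟩ := mem_image.1 hV
  obtain ⟨hp1, rfl⟩ := mem_filter.1 hp
  obtain ⟨-, c1, c2, c3, c4⟩ := hS p hp1
  have c5 := mem_cn.1 (c4 (h1 ▸ mem_singleton_self A))
  refine ⟨mem_nb.2 ⟨c1, by rw [sd_comm]; exact c3⟩, ?_⟩
  rw [sd_comm]
  exact ((sd_le_two (c1.trans h3.symm)).1 c5.2).resolve_left fun e => c2 (e ▸ c5.1)

/-- the possible owners -/
def g (r : ℕ) (K : Finset (Finset α)) (W : Finset α) : ℕ :=
  (nb r W ∩ Fr r (K \ cn K W)).card

/-- pairs with different owners -/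
def D (r : ℕ) (K : Finset (Finset α)) : Finset (Finset α × Finset α) :=
  (E (PP r K)).filter (fun p => cn K p.1 ≠ cn K p.2 ∧ g r K p.2 ≤ g r K p.1)

theorem split (h : K ∈ MM α r) :
    (E (PP r K)).card ≤ Fintype.card α * (PP r K).card + 2 * (D r K).card := by
  have h1 : E (PP r K) ⊆ (E (PP r K)).filter (fun p => cn K p.1 = cn K p.2) ∪
      (D r K ∪ (D r K).image Prod.swap) := by
    intro p hp
    by_cases e : cn K p.1 = cn K p.2
    · exact mem_union_left _ (mem_filter.2 ⟨hp, e⟩)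
    refine mem_union_right _ ?_
    rcases le_total (g r K p.2) (g r K p.1) with t | t
    · exact mem_union_left _ (mem_filter.2 ⟨hp, e, t⟩)
    · obtain ⟨a, b, c⟩ := mem_E.1 hp
      exact mem_union_right _ (mem_image.2 ⟨p.swap, mem_filter.2
        ⟨mem_E.2 ⟨b, a, by rw [sd_comm]; exact c⟩, Ne.symm e, t⟩, rfl⟩)
  have h2 := same h ((E (PP r K)).filter (fun p => cn K p.1 = cn K p.2)) fun p hp => by
    obtain ⟨a, e⟩ := mem_filter.1 hp
    obtain ⟨a, b, c⟩ := mem_E.1 a
    exact ⟨b, (mem_PP.1 a).1, (mem_PP.1 a).2.1, c, e.ge⟩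
  have h3 := (card_le_card h1).trans (card_union_le _ _)
  have h4 := card_union_le (D r K) ((D r K).image Prod.swap)
  have h5 := card_image_le (s := D r K) (f := Prod.swap)
  omega

/-- vertices outside `K` with two non-adjacent neighbours in `K` -/
def T (r : ℕ) (K : Finset (Finset α)) : Finset (Finset α) :=
  (Vr α r).filter (fun V => V ∉ K ∧ ∃ A W, cn K V = {A, W} ∧ 4 ≤ sd A W)

/-- neighbours of `V` that see nothing else than `V` does -/
def H (r : ℕ) (K : Finset (Finset α)) (V : Finset α) : Finset (Finset α) :=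
  (nb r V).filter (fun A => cn K A ⊆ cn K V)

theorem switch (h0 : 0 < r) (h1 : r < Fintype.card α) (V W : Finset α) :
    ((MM α r).filter (fun K => (V, W) ∈ D r K)).card ≤
      ∑ K ∈ (MM α r).filter (fun K => V ∈ T r K ∧ W ∈ cn K V), (H r K V).card := by
  have key : ∀ K ∈ (MM α r).filter (fun K => (V, W) ∈ D r K),
      insert W (K \ cn K W) ∈ (MM α r).filter (fun K => V ∈ T r K ∧ W ∈ cn K V) ∧
      (nb r W ∩ Fr r ((insert W (K \ cn K W)).erase W)).card ≤
        (H r (insert W (K \ cn K W)) V).card ∧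
      ∃ B ∈ nb r W ∩ Fr r ((insert W (K \ cn K W)).erase W),
        insert B ((insert W (K \ cn K W)).erase W) = K := by
    intro K hK
    obtain ⟨hK, hD⟩ := mem_filter.1 hK
    obtain ⟨hE, hne, hg⟩ := mem_filter.1 hD
    obtain ⟨hV, hW, hVW⟩ := mem_E.1 hE
    dsimp only at hne hg hV hW hVW
    obtain ⟨A, a1, a2, a3, a4⟩ := owner hK hV
    obtain ⟨B, b1, b2, b3, b4⟩ := owner hK hW
    obtain ⟨cV, nV, -⟩ := mem_PP.1 hV
    obtain ⟨cW, nW, -⟩ := mem_PP.1 hW
    have hAB : A ≠ B := fun e => hne (by rw [a1, b1, e])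
    have hAK := UU_subset K a2
    have hBK := UU_subset K b2
    have clo : Clo K (cn K W) := clo_of_UU (cn_subset_UU hK hW)
    have hfree : W ∈ Fr r (K \ cn K W) := mem_Fr.2 ⟨cW, fun X hX => by
      rw [mem_sdiff, mem_cn] at hX
      by_contra hc
      exact hX.2 ⟨hX.1, by omega⟩⟩
    have her : (insert W (K \ cn K W)).erase W = K \ cn K W :=
      erase_insert fun t => nW (mem_sdiff.1 t).1
    have hcn : cn (insert W (K \ cn K W)) V = {A, W} := by
      ext X
      have t1 : X ∈ K ∧ sd V X ≤ 2 ↔ X = A := by rw [← mem_cn, a1, mem_singleton]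
      rw [mem_cn, mem_insert, mem_sdiff, b1, mem_singleton, mem_insert, mem_singleton]
      constructor
      · rintro ⟨rfl | t, t2⟩
        · exact Or.inr rfl
        · exact Or.inl (t1.1 ⟨t.1, t2⟩)
      · rintro (rfl | rfl)
        · exact ⟨Or.inr ⟨hAK, hAB⟩, a4.le⟩
        · exact ⟨Or.inl rfl, hVW.le⟩
    have hAW : 4 ≤ sd A W := by
      have t1 : A ∉ cn K W := by rw [b1, mem_singleton]; exact hAB
      rw [mem_cn, not_and] at t1
      have t2 := t1 hAK
      rcases sd_cases (a3.trans cW.symm) with e | e | e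
      · exact absurd (e ▸ hAK) nW
      · rw [sd_comm] at e; omega
      · exact e
    refine ⟨mem_filter.2 ⟨add_free (relax hK clo) h0 h1 hfree, mem_filter.2 ⟨mem_Vr.2 cV, ?_,
      A, W, hcn, hAW⟩, by rw [hcn]; simp⟩, ?_, B, ?_, ?_⟩
    · intro t
      rcases mem_insert.1 t with e | e
      · rw [e, sd_self] at hVW; omega
      · exact nV (mem_sdiff.1 e).1
    · rw [her]
      refine hg.trans (card_le_card fun X hX => ?_)
      obtain ⟨t1, t2⟩ := mem_inter.1 hX
      refine mem_filter.2 ⟨t1, fun Z hZ => ?_⟩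
      rw [hcn, mem_insert, mem_singleton]
      obtain ⟨t3, t4⟩ := mem_cn.1 hZ
      rcases mem_insert.1 t3 with e | e
      · exact Or.inr e
      · left
        by_contra hc
        have := (mem_Fr.1 t2).2 Z (mem_sdiff.2 ⟨(mem_sdiff.1 e).1, by
          rw [a1, mem_singleton]; exact hc⟩)
        omega
    · rw [her]
      exact mem_inter.2 ⟨mem_nb.2 ⟨b3, b4⟩, clo.subset_Fr hK (b1 ▸ mem_singleton_self B)⟩
    · rw [her, b1, sdiff_singleton_eq_erase, insert_erase hBK]
  rw [card_eq_sum_card_fiberwise (f := fun K => insert W (K \ cn K W)) fun K hK => (key K hK).1]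
  refine sum_le_sum fun K' _ => ?_
  rcases (((MM α r).filter (fun K => (V, W) ∈ D r K)).filter
    (fun K => insert W (K \ cn K W) = K')).eq_empty_or_nonempty with e | ⟨K0, hK0⟩
  · rw [e]; exact Nat.zero_le _
  obtain ⟨t1, t2⟩ := mem_filter.1 hK0
  have t3 := (key K0 t1).2.1
  rw [t2] at t3
  refine le_trans ?_ t3
  refine le_trans (card_le_card fun K hK => ?_)
    (card_image_le (f := fun B => insert B (K'.erase W)))
  obtain ⟨s1, s2⟩ := mem_filter.1 hK
  obtain ⟨B, s3, s4⟩ := (key K s1).2.2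
  rw [s2] at s3 s4
  exact mem_image.2 ⟨B, s3, s4⟩

theorem card_cn_T {V : Finset α} (hV : V ∈ T r K) : (cn K V).card ≤ 2 := by
  obtain ⟨-, -, A, W, e, -⟩ := mem_filter.1 hV
  rw [e]; exact card_le_two

theorem sum_D (h0 : 0 < r) (h1 : r < Fintype.card α) :
    ∑ K ∈ MM α r, (D r K).card ≤ 2 * ∑ K ∈ MM α r, ∑ V ∈ T r K, (H r K V).card := by
  have e1 : ∀ K : Finset (Finset α), (D r K).card =
      ∑ V : Finset α, ∑ W : Finset α, if (V, W) ∈ D r K then 1 else 0 := fun K => by
    rw [← Fintype.sum_prod_type' (fun V W => if (V, W) ∈ D r K then 1 else 0), ← card_filter,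
      filter_mem_eq_inter, univ_inter]
  calc ∑ K ∈ MM α r, (D r K).card
      = ∑ V : Finset α, ∑ W : Finset α, ((MM α r).filter (fun K => (V, W) ∈ D r K)).card := by
        simp only [e1, card_filter]
        rw [sum_comm]
        exact sum_congr rfl fun V _ => sum_comm
    _ ≤ ∑ V : Finset α, ∑ W : Finset α, ∑ K ∈ MM α r,
          if V ∈ T r K ∧ W ∈ cn K V then (H r K V).card else 0 :=
        sum_le_sum fun V _ => sum_le_sum fun W _ => by
          rw [← sum_filter]; exact switch h0 h1 V W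
    _ = ∑ K ∈ MM α r, ∑ V : Finset α, ∑ W : Finset α,
          if V ∈ T r K ∧ W ∈ cn K V then (H r K V).card else 0 := by
        rw [sum_comm (s := MM α r)]
        exact sum_congr rfl fun V _ => sum_comm
    _ ≤ _ := by
        rw [mul_sum]
        refine sum_le_sum fun K _ => ?_
        rw [mul_sum, ← univ_inter (T r K), ← filter_mem_eq_inter, sum_filter]
        refine sum_le_sum fun V _ => ?_
        by_cases hV : V ∈ T r K
        · rw [if_pos hV, ← sum_filter, sum_const, smul_eq_mul]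
          exact Nat.mul_le_mul_right _ ((card_le_card fun W hW => (mem_filter.1 hW).2.2).trans
            (card_cn_T hV))
        · simp [hV]

/-- free neighbours of a vertex with at most two neighbours in `K` -/
def F (r : ℕ) (K : Finset (Finset α)) (V : Finset α) : Finset (Finset α) :=
  (nb r V ∩ Fr r K).filter (fun _ => (cn K V).card ≤ 2)

theorem sum_F (h0 : 0 < r) (h1 : r < Fintype.card α) (V : Finset α) :
    ∑ K ∈ MM α r, (F r K V).card ≤ 3 * (MM α r).card := by
  rw [← card_sigma]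
  refine card_le_mul_card_image_of_maps_to (f := fun p => insert p.2 p.1) (fun p hp => ?_) _
    fun K' _ => ?_
  · obtain ⟨a, b⟩ := mem_sigma.1 hp
    exact add_free a h0 h1 (mem_inter.1 (mem_filter.1 b).1).2
  rcases (((MM α r).sigma (fun K => F r K V)).filter
    (fun p => insert p.2 p.1 = K')).eq_empty_or_nonempty with e | ⟨p0, hp0⟩
  · rw [e]; exact Nat.zero_le _
  have h3 : (cn K' V).card ≤ 3 := by
    obtain ⟨a, rfl⟩ := mem_filter.1 hp0
    have b := (mem_filter.1 (mem_sigma.1 a).2).2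
    have : cn (insert p0.2 p0.1) V ⊆ insert p0.2 (cn p0.1 V) := fun X hX => by
      obtain ⟨t1, t2⟩ := mem_cn.1 hX
      rcases mem_insert.1 t1 with e | e
      · exact mem_insert.2 (Or.inl e)
      · exact mem_insert_of_mem (mem_cn.2 ⟨e, t2⟩)
    exact (card_le_card this).trans ((card_insert_le _ _).trans (by omega))
  refine le_trans (card_le_card_of_injOn (fun p => p.2) (fun p hp => ?_) ?_) h3
  · obtain ⟨a, rfl⟩ := mem_filter.1 (mem_coe.1 hp)
    have b := (mem_inter.1 (mem_filter.1 (mem_sigma.1 a).2).1).1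
    exact mem_coe.2 (mem_cn.2 ⟨mem_insert_self _ _, (mem_nb.1 b).2.le⟩)
  · rintro ⟨K1, A1⟩ hp ⟨K2, A2⟩ hq e
    obtain ⟨a, a'⟩ := mem_filter.1 (mem_coe.1 hp)
    obtain ⟨b, b'⟩ := mem_filter.1 (mem_coe.1 hq)
    have n1 := notMem_of_mem_Fr (mem_inter.1 (mem_filter.1 (mem_sigma.1 a).2).1).2
    have n2 := notMem_of_mem_Fr (mem_inter.1 (mem_filter.1 (mem_sigma.1 b).2).1).2
    dsimp only at e a' b' n1 n2
    subst e
    have : K1 = K2 := by rw [← erase_insert n1, a', ← b', erase_insert n2]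
    subst this
    rfl

theorem card_H (h : K ∈ MM α r) {V : Finset α} (hV : V ∈ T r K) :
    (H r K V).card ≤ 6 + ((H r K V) ∩ PP r K).card + (F r K V).card := by
  have h2 := card_cn_T hV
  obtain ⟨cV, nV, A, W, e, hAW⟩ := mem_filter.1 hV
  have hA := mem_cn.1 (show A ∈ cn K V by rw [e]; simp)
  have hW := mem_cn.1 (show W ∈ cn K V by rw [e]; simp)
  have cA := card_of_MM h hA.1
  have cW := card_of_MM h hW.1
  have h3 : H r K V ⊆ (cn K V ∪ (nb r A).filter (fun Z => sd W Z ≤ 2)) ∪
      (H r K V ∩ PP r K) ∪ F r K V := by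
    intro X hX
    obtain ⟨x1, x2⟩ := mem_filter.1 hX
    obtain ⟨cX, x3⟩ := mem_nb.1 x1
    by_cases hK : X ∈ K
    · exact mem_union_left _ (mem_union_left _ (mem_union_left _ (mem_cn.2 ⟨hK, x3.le⟩)))
    by_cases c0 : cn K X = ∅
    · exact mem_union_right _ (mem_filter.2 ⟨mem_inter.2 ⟨x1,
        mem_filter.2 ⟨mem_Vr.2 cX, c0⟩⟩, h2⟩)
    by_cases c1 : (cn K X).card = 1
    · exact mem_union_left _ (mem_union_right _ (mem_inter.2 ⟨hX, mem_PP.2 ⟨cX, hK, c1⟩⟩))
    have c2 : cn K X = cn K V := eq_of_subset_of_card_le x2 (by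
      have := card_pos.2 (nonempty_iff_ne_empty.2 c0)
      omega)
    have xA := mem_cn.1 (show A ∈ cn K X by rw [c2, e]; simp)
    have xW := mem_cn.1 (show W ∈ cn K X by rw [c2, e]; simp)
    refine mem_union_left _ (mem_union_left _ (mem_union_right _ (mem_filter.2
      ⟨mem_nb.2 ⟨cX, ?_⟩, by rw [sd_comm]; exact xW.2⟩)))
    rw [sd_comm]
    exact ((sd_le_two (cX.trans cA.symm)).1 xA.2).resolve_left fun t => hK (t ▸ xA.1)
  have h4 := card_common_far cA cW hAW ((nb r A).filter (fun Z => sd W Z ≤ 2))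
    fun Z hZ => mem_filter.1 hZ
  have h5 := (card_le_card h3).trans ((card_union_le _ _).trans
    (Nat.add_le_add_right ((card_union_le _ _).trans
      (Nat.add_le_add_right (card_union_le _ _) _)) _))
  omega

theorem sum_H (h : K ∈ MM α r) :
    ∑ V ∈ T r K, (H r K V).card ≤ 6 * (Fintype.card α).choose r +
      Fintype.card α * (PP r K).card + ∑ V ∈ Vr α r, (F r K V).card := by
  have hT : T r K ⊆ Vr α r := filter_subset _ _
  refine (sum_le_sum fun V hV => card_H h hV).trans ?_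
  rw [sum_add_distrib, sum_add_distrib, sum_const, smul_eq_mul]
  refine Nat.add_le_add (Nat.add_le_add ?_ ?_) (sum_le_sum_of_subset hT)
  · rw [mul_comm, ← card_Vr]
    exact Nat.mul_le_mul_left _ (card_le_card hT)
  · have e : ∑ V ∈ T r K, (H r K V ∩ PP r K).card =
        ((T r K ×ˢ PP r K).filter (fun p => p.2 ∈ H r K p.1)).card := by
      rw [card_filter, sum_product]
      refine sum_congr rfl fun V _ => ?_
      dsimp only
      rw [← card_filter, filter_mem_eq_inter, inter_comm]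
    rw [e]
    refine same h _ fun p hp => ?_
    obtain ⟨a, b⟩ := mem_filter.1 hp
    obtain ⟨a1, a2⟩ := mem_product.1 a
    obtain ⟨b1, b2⟩ := mem_filter.1 b
    obtain ⟨c1, c2, -⟩ := mem_filter.1 a1
    exact ⟨a2, mem_Vr.1 c1, c2, (mem_nb.1 b1).2, b2⟩

theorem main (hn : 0 < Fintype.card α) (h1 : Fintype.card α ≤ 3 * r)
    (h2 : 3 * r ≤ 2 * Fintype.card α) :
    (∑ K ∈ MM α r, (PP r K).card) * Fintype.card α ≤
      120 * ((Fintype.card α).choose r * (MM α r).card) := by
  have r0 : 0 < r := by omega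
  have r1 : r < Fintype.card α := by omega
  have a1 := sum_le_sum fun K (_ : K ∈ MM α r) =>
    lower (P := PP r K) (filter_subset _ _) h1 h2
  have a2 := sum_le_sum fun K (hK : K ∈ MM α r) => split hK
  have a3 := sum_D (α := α) r0 r1
  have a4 := sum_le_sum fun K (hK : K ∈ MM α r) => sum_H hK
  have a5 : ∑ K ∈ MM α r, ∑ V ∈ Vr α r, (F r K V).card ≤
      3 * ((Fintype.card α).choose r * (MM α r).card) := by
    rw [sum_comm]
    refine (sum_le_card_nsmul _ _ _ fun V _ => sum_F r0 r1 V).trans ?_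
    rw [card_Vr, smul_eq_mul]
    exact le_of_eq (by ring)
  simp only [sum_add_distrib, ← mul_sum, sum_const, smul_eq_mul] at a1 a2 a4
  rw [mul_comm (MM α r).card] at a1 a4
  rw [mul_comm]
  omega

end Pb

theorem pb : PBStmt := by
  intro n r hn h1 h2
  have h := Pb.main (α := Fin n) (r := r) (by simp; omega) (by simpa using h1) (by simpa using h2)
  rw [Fintype.card_fin] at h
  have h' : (∑ K ∈ MM (Fin n) r, (PP r K).card) * n ≤
      200 * n.choose r * (MM (Fin n) r).card := by
    rw [mul_assoc]; omega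
  exact_mod_cast h'

end Pool.Agent.MP_c3fbfc_co.V
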