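import Mathlib.Combinatorics.SimpleGraph.Basic
import Mathlib.RingTheory.PiTensorProduct
import Mathlib.Tactic.Polynomial.Basic
import Pool.Agent.MP_c3fbfc_co.VInv
import Pool.Agent.MP_c3fbfc_co.VTools
import Pool.Agent.MP_c3fbfc_co.VExp
import Pool.Agent.MP_c3fbfc_co.VPb
import Pool.Agent.MP_c3fbfc_co.VFive
import Pool.Agent.MP_c3fbfc_co.VFin
import Pool.Agent.MP_c3fbfc_co.VLink

-- ======== part 0: formerly Pool.Agent.MP_c3fbfc_co.VClb2
section MrgPart0

/-! CLB, part 2: soundness of the decoder and finished stable sets. -/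

namespace Pool.Agent.MP_c3fbfc_co.V.Clb

open Finset
open scoped symmDiff

variable {α : Type*} [Fintype α] [DecidableEq α]

open Classical in
/-- the label of a point: the type of its line if it is private -/
noncomputable def lamK (r : ℕ) (K : Finset (Finset α)) (A : Finset α) : Option Bool :=
  if h : ∃ a, KL r K (tg A a) ∧ A ∈ priv r K (tg A a) then some (decide (h.choose ∈ A)) else none

/-- eligible points -/
def Elig (r th : ℕ) (K K1 : Finset (Finset α)) (A : Finset α) : Prop :=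
  A ∈ WB r K ∧ A ∉ K1 ∧ ¬ Heavy r K A ∧
    ∀ Y, KL r K Y → A ∈ ln r Y → th ≤ (priv r K Y \ K1).card → A ∈ priv r K Y

open Classical in
/-- available points on a line -/
noncomputable def avail (r th : ℕ) (K K1 I : Finset (Finset α)) (Y : Finset α) :
    Finset (Finset α) :=
  (ln r Y).filter (fun Z => Elig r th K K1 Z ∧ ∀ A ∈ I, 2 < sd A Z)

/-- finished sets -/
def Done (r th : ℕ) (K K1 I : Finset (Finset α)) : Prop :=
  ∀ Y, KL r K Y → ln r Y ⊆ WB r K → (avail r th K K1 I Y).card < th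

open Classical in
/-- fat lines of `K` through `A` on one side -/
noncomputable def side (r s : ℕ) (K K1 : Finset (Finset α)) (A : Finset α) (β : Prop) : Finset α :=
  univ.filter (fun c => (c ∈ A ↔ β) ∧ KL r K (tg A c) ∧ s < (ln r (tg A c) \ K1).card)

variable {r g s th : ℕ} {K K1 E U S I : Finset (Finset α)} {lam : Finset α → Option Bool}

theorem mem_avail {Y Z : Finset α} : Z ∈ avail r th K K1 I Y ↔
    Z ∈ ln r Y ∧ Elig r th K K1 Z ∧ ∀ A ∈ I, 2 < sd A Z := by
  simp [avail]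

theorem mem_side {A : Finset α} {β : Prop} {c : α} : c ∈ side r s K K1 A β ↔
    (c ∈ A ↔ β) ∧ KL r K (tg A c) ∧ s < (ln r (tg A c) \ K1).card := by
  simp [side]

theorem lamK_some {A : Finset α} {β : Bool} (h : lamK r K A = some β) :
    ∃ a, KL r K (tg A a) ∧ A ∈ priv r K (tg A a) ∧ decide (a ∈ A) = β := by
  unfold lamK at h
  split_ifs at h with h1
  exact ⟨_, h1.choose_spec.1, h1.choose_spec.2, Option.some.inj h⟩

theorem lamK_eq {A : Finset α} {a : α} (h1 : KL r K (tg A a)) (h2 : A ∈ priv r K (tg A a)) :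
    lamK r K A = some (decide (a ∈ A)) := by
  have h : ∃ a, KL r K (tg A a) ∧ A ∈ priv r K (tg A a) := ⟨a, h1, h2⟩
  rw [lamK, dif_pos h,
    tg_inj ((mem_priv.1 h2).2 _ h.choose_spec.1 (mem_priv.1 h.choose_spec.2).1)]

omit [Fintype α] in
theorem side_eq {A Z : Finset α} (hc : A.card = Z.card) (h : sd A Z = 2) {a b : α}
    (ha : a ∈ A ∆ Z) (hb : b ∈ A ∆ Z) (hab : a ∈ A ↔ b ∈ A) : a = b := by
  obtain ⟨x, hx, y, hy, rfl⟩ := (sd_eq_two hc).1 h
  rw [symmDiff_tg_tg (fun e : x = y => hy (e ▸ hx))] at ha hb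
  simp only [mem_insert, mem_singleton] at ha hb
  rcases ha with rfl | rfl <;> rcases hb with rfl | rfl <;> tauto

theorem mem_sd_of_ln {A Z : Finset α} {a : α} (hA : A.card = r) (hZ : Z ∈ ln r (tg A a))
    (hne : A ≠ Z) : a ∈ A ∆ Z := by
  obtain ⟨c, hc, e⟩ := ln_pair (self_mem_ln hA a) hZ hne
  rwa [tg_inj e]

theorem sd_le_of_ln {Y A B : Finset α} (hA : A ∈ ln r Y) (hB : B ∈ ln r Y) : sd A B ≤ 2 := by
  rcases ln_clique hA hB with rfl | h
  · simp
  · exact h.le

omit [Fintype α] in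
theorem tg_tg_ne {A : Finset α} {a b : α} (h : b ≠ a) : A ≠ tg (tg A a) b := fun e =>
  h (tg_inj (X := tg A a) (by rw [← e, tg_tg]))

namespace Pre

variable (h : Pre r g s th K K1)
include h

theorem card_side {A : Finset α} (hA : Elig r th K K1 A) (β : Prop) :
    (side r s K K1 A β).card ≤ 2 := by
  by_contra hc
  obtain ⟨D, hD, h3⟩ := exists_subset_card_eq (s := side r s K K1 A β) (n := 3) (by omega)
  obtain ⟨a, ha⟩ : D.Nonempty := card_pos.1 (by omega)
  have := h.slim3 hA.1 hA.2.2.1 h3 ?_ (fun c hc => (mem_side.1 (hD hc)).2.1) ha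
  · exact absurd (mem_side.1 (hD ha)).2.2 (by omega)
  · by_cases hβ : β
    · exact Or.inl fun c hc => (mem_side.1 (hD hc)).1.2 hβ
    · exact Or.inr (disjoint_left.2 fun c hc hA => hβ ((mem_side.1 (hD hc)).1.1 hA))

/-- soundness -/
theorem sound (hI : ∀ A ∈ I, Elig r th K K1 A) (hE : ∀ Y ∈ E, ln r Y ⊆ WB r K) (hU : U ⊆ Vr α r)
    (hUI : ∀ A ∈ U, ∀ X ∈ WB r K, sd A X ≤ 2 → A ∈ I) (hl : ∀ A ∈ I, lam A = lamK r K A) :
    Shut r g s K1 E U lam (WB r K) where
  seed := h.sub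
  expl := hE
  few := few_WB h.num h.mm h.gir
  slim := fun A hA a ha => by
    have cA := mem_Vr.1 (hU hA)
    have h1 := card_ln_ge h.num.w1 h.num.w2 (ctr_tg cA a)
    have h2 := h.num.hs
    have h3 := card_sdiff_add_card_inter (ln r (tg A a)) K1
    obtain ⟨X, hX⟩ : (ln r (tg A a) ∩ K1).Nonempty := card_pos.1 (by omega)
    rw [mem_inter] at hX
    have h4 := hI A (hUI A hA X (h.sub hX.2) (sd_le_of_ln (self_mem_ln cA a) hX.1))
    by_cases hK : KL r K (tg A a)
    · exact clo_WB.ln_subset hK (self_mem_ln cA a) h4.1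
    · have h5 := mem_Short_of_not_KL h.mm hK (self_mem_ln cA a) (WB_subset h4.1)
      have h6 : (ln r (tg A a) \ K).card ≤ s :=
        (card_le_card (sdiff_subset_sdiff Subset.rfl (h.sub.trans WB_subset))).trans ha
      exact absurd (h.short (Short_mono h6 h5)) h4.2.1
  lab := fun A hA a ha Z hZ hne hZB => by
    have cA := mem_Vr.1 (hU hA)
    have hAI := hUI A hA Z hZB (sd_le_of_ln (self_mem_ln cA a) hZ)
    have h4 := hI A hAI
    obtain ⟨a0, k1, k2, k3⟩ := lamK_some ((hl A hAI).symm.trans ha)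
    have h2 := (ln_clique (self_mem_ln cA a) hZ).resolve_left hne.symm
    obtain ⟨Y, y1, y2, y3⟩ := share h.mm (WB_subset h4.1) (WB_subset hZB) h2
    rw [(mem_priv.1 k2).2 Y y1 y2] at y3
    have e : a0 = a := side_eq (cA.trans (mem_ln.1 hZ).1.symm) h2 (mem_sd_of_ln cA y3 hne.symm)
      (mem_sd_of_ln cA hZ hne.symm) (by simpa using k3)
    exact clo_WB.ln_subset (e ▸ k1) hZ hZB
  three := fun A hA a ha => by
    have cA := mem_Vr.1 (hU hA)
    obtain ⟨D, hD, h3⟩ := exists_subset_card_eq ha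
    have hD' : ∀ b ∈ D, b ≠ a ∧ tg (tg A a) b ∈ ln r (tg A a) ∧ tg (tg A a) b ∈ WB r K ∧
        s < (ln r (tg A b) \ K1).card := fun b hb => (mem_filter.1 (hD hb)).2
    obtain ⟨b0, hb0⟩ : D.Nonempty := card_pos.1 (by omega)
    have h4 := hI A (hUI A hA _ (hD' b0 hb0).2.2.1
      (sd_le_of_ln (self_mem_ln cA a) (hD' b0 hb0).2.1))
    by_cases hK : KL r K (tg A a)
    · exact clo_WB.ln_subset hK (self_mem_ln cA a) h4.1
    have h5 : D ⊆ side r s K K1 A (a ∉ A) := fun b hb => by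
      obtain ⟨b1, b2, b3, b4⟩ := hD' b hb
      have hne := tg_tg_ne (A := A) b1
      have h2 := (ln_clique (self_mem_ln cA a) b2).resolve_left hne
      have e := symmDiff_tg_tg (X := A) b1.symm
      refine mem_side.2 ⟨?_, ?_, b4⟩
      · have := mt (side_eq (cA.trans (mem_ln.1 b2).1.symm) h2 (a := b) (b := a)
          (by simp [e]) (by simp [e])) b1
        tauto
      · obtain ⟨Y, y1, y2, y3⟩ := share h.mm (WB_subset h4.1) (WB_subset b3) h2
        obtain ⟨c, hc, rfl⟩ := ln_pair y2 y3 hne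
        rw [e, mem_insert, mem_singleton] at hc
        rcases hc with rfl | rfl
        exacts [absurd y1 hK, y1]
    have := (card_le_card h5).trans (h.card_side h4 _)
    omega

/-- (D1) a line with many private points has a private point of `I` -/
theorem priv_pt (hI : ∀ A ∈ I, Elig r th K K1 A) (hD : Done r th K K1 I) {Y : Finset α}
    (hY : KL r K Y) (hB : ln r Y ⊆ WB r K) (hp : th ≤ (priv r K Y \ K1).card) :
    ∃ A ∈ I, A ∈ priv r K Y := by
  by_contra hc
  push Not at hc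
  have : priv r K Y \ K1 ⊆ avail r th K K1 I Y := fun Z hZ => by
    obtain ⟨z1, z2⟩ := mem_sdiff.1 hZ
    obtain ⟨z3, z4⟩ := mem_priv.1 z1
    have cZ := (mem_ln.1 z3).1
    refine mem_avail.2 ⟨z3, ⟨hB z3, z2, fun hH => ?_, fun Y' y1 y2 _ => by rwa [z4 Y' y1 y2]⟩,
      fun A hA => ?_⟩
    · have := h.num.gn; have := h.num.g1; have := h.num.t3
      obtain ⟨a, b, hab⟩ := Fintype.one_lt_card_iff.1 (show 1 < Fintype.card α by omega)
      exact hab (tg_inj ((z4 _ (hH a) (self_mem_ln cZ a)).trans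
        (z4 _ (hH b) (self_mem_ln cZ b)).symm))
    · by_contra hle
      have hA' := hI A hA
      rcases (sd_le_two ((h.card_B hA'.1).trans cZ.symm)).1 (not_lt.1 hle) with rfl | h2
      · exact hc _ hA z1
      · obtain ⟨Y', y1, y2, y3⟩ := share h.mm (WB_subset hA'.1) (hY.2 z3) h2
        rw [z4 Y' y1 y3] at y2
        exact hc A hA (hA'.2.2.2 Y hY y2 hp)
  exact absurd ((card_le_card this).trans_lt (hD Y hY hB)) (by omega)

open Classical in
/-- most points of a line outside the seeds are near `I` -/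
theorem near (hI : ∀ A ∈ I, Elig r th K K1 A) (hD : Done r th K K1 I) {Y : Finset α}
    (hY : KL r K Y) (hB : ln r Y ⊆ WB r K) {P : Finset (Finset α)} (hP : P ⊆ ln r Y \ K1) :
    P.card + 2 ≤ (P.filter (fun Z => ∃ A ∈ I, sd A Z ≤ 2)).card + 2 * th := by
  have h1 := h.few_heavy hY hB
  have h2 := hD Y hY hB
  have h3 : P ⊆ P.filter (fun Z => ∃ A ∈ I, sd A Z ≤ 2) ∪
      ((ln r Y \ K1).filter (Heavy r K) ∪ avail r th K K1 I Y) := fun Z hZ => by
    simp only [mem_union, mem_filter]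
    by_cases c1 : ∃ A ∈ I, sd A Z ≤ 2
    · exact Or.inl ⟨hZ, c1⟩
    by_cases c2 : Heavy r K Z
    · exact Or.inr (Or.inl ⟨hP hZ, c2⟩)
    push Not at c1
    obtain ⟨z1, z2⟩ := mem_sdiff.1 (hP hZ)
    refine Or.inr (Or.inr (mem_avail.2 ⟨z1, ⟨hB z1, z2, c2, fun Y' y1 y2 y3 => ?_⟩, c1⟩))
    obtain ⟨A, a1, a2⟩ := h.priv_pt hI hD y1 (clo_WB.ln_subset y1 y2 (hB z1)) y3
    exact absurd (sd_le_of_ln (mem_priv.1 a2).1 y2) (not_le.2 (c1 A a1))
  have h4 := (card_le_card h3).trans ((card_union_le _ _).trans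
    (Nat.add_le_add_left (card_union_le _ _) _))
  omega

/-- the size of the components -/
theorem size (hI : ∀ A ∈ I, Elig r th K K1 A) (hD : Done r th K K1 I) :
    (WB r K).card ≤ K1.card + (Fintype.card α + 1) ^ 4 * I.card := by
  classical
  have h1 : WB r K ⊆ K1 ∪ I.biUnion (fun A => univ.filter (fun X => sd A X ≤ 4)) := fun X hX => by
    by_cases hX1 : X ∈ K1
    · exact mem_union_left _ hX1
    obtain ⟨Y, y1, y2⟩ := exists_KL_of_WB h.mm hX
    have h2 := h.near hI hD y1 (clo_WB.ln_subset y1 y2 hX) Subset.rfl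
    have h3 := h.many y2 hX1
    have := h.num.g1
    obtain ⟨Z, hZ⟩ : ((ln r Y \ K1).filter (fun Z => ∃ A ∈ I, sd A Z ≤ 2)).Nonempty :=
      card_pos.1 (by omega)
    obtain ⟨z1, A, a1, a2⟩ := mem_filter.1 hZ
    have h4 := sd_le_of_ln (mem_sdiff.1 z1).1 y2
    have h5 := sd_triangle A Z X
    exact mem_union_right _ (mem_biUnion.2 ⟨A, a1, mem_filter.2 ⟨mem_univ _, by omega⟩⟩)
  refine (card_le_card h1).trans ((card_union_le _ _).trans (Nat.add_le_add_left ?_ _))
  rw [mul_comm]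
  exact card_biUnion_le_card_mul _ _ _ fun A _ => card_ball_le A 4 _ fun Z hZ => (mem_filter.1 hZ).2

open Classical in
/-- finished sets have total weight at least one -/
theorem weight : ∃ 𝒟 : Finset (Finset (Finset α)), 1 ≤ ∑ I ∈ 𝒟, ((th : ℝ)⁻¹) ^ I.card ∧
    ∀ I ∈ 𝒟, (∀ A ∈ I, Elig r th K K1 A) ∧ Stb I ∧ Done r th K K1 I := by
  let 𝒥 := (univ.filter (Elig r th K K1)).powerset.filter Stb
  have hm : ∀ J, J ∈ 𝒥 ↔ (∀ A ∈ J, Elig r th K K1 A) ∧ Stb J := fun J => by
    simp [𝒥, subset_iff]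
  have t3 := h.num.t3
  have key := greedy 𝒥 (Done r th K K1) (θ := th) (by exact_mod_cast (by omega : 0 < th))
    (fun J hJ hD => ?_) ∅ ((hm ∅).2 ⟨by simp, by simp [Stb]⟩)
  · refine ⟨_, by simpa using key, fun I hI => ?_⟩
    obtain ⟨h1, h2⟩ := mem_filter.1 hI
    exact ⟨((hm I).1 h1).1, ((hm I).1 h1).2, h2⟩
  · simp only [Done, not_forall, not_lt] at hD
    obtain ⟨Y, -, -, hc⟩ := hD
    obtain ⟨j1, j2⟩ := (hm J).1 hJ
    refine ⟨avail r th K K1 J Y, by exact_mod_cast hc, fun A hA => ?_, fun I hI => ?_⟩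
    · obtain ⟨-, a2, a3⟩ := mem_avail.1 hA
      refine ⟨fun hAJ => by simpa using a3 A hAJ, (hm _).2 ⟨?_, ?_⟩⟩
      · intro B hB
        rcases mem_insert.1 hB with rfl | hB
        exacts [a2, j1 B hB]
      · intro X hX X' hX'
        rcases mem_insert.1 hX with e | hX <;> rcases mem_insert.1 hX' with e' | hX'
        · rw [e, e']; simp
        · rw [e, sd_comm]; exact (a3 X' hX').ne'
        · rw [e']; exact (a3 X hX).ne'
        · exact j2 X hX X' hX'
    · exact (card_le_card (inter_subset_inter Subset.rfl fun Z hZ => (mem_avail.1 hZ).1)).trans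
        (((hm I).1 hI).2.card_inter_ln Y)

end Pre

end Pool.Agent.MP_c3fbfc_co.V.Clb

end MrgPart0

-- ======== part 1: formerly Pool.Agent.MP_c3fbfc_co.VClbA
section MrgPart1

/-! CLB, part 3: completeness of the decoder. -/

namespace Pool.Agent.MP_c3fbfc_co.V.Clb

open Finset
open scoped symmDiff

variable {α : Type*} [Fintype α] [DecidableEq α]

/-- unknown lines -/
def Unk (r : ℕ) (K S : Finset (Finset α)) (Y : Finset α) : Prop :=
  KL r K Y ∧ ln r Y ⊆ WB r K ∧ ¬ ln r Y ⊆ S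

open Classical in
/-- fat lines of `K` through the points of `I` -/
noncomputable def DD (r s : ℕ) (K K1 I : Finset (Finset α)) : Finset (Finset α × α) :=
  (I ×ˢ univ).filter (fun d => KL r K (tg d.1 d.2) ∧ s < (ln r (tg d.1 d.2) \ K1).card)

/-- the potential -/
noncomputable def psi (r s : ℕ) (K K1 I S : Finset (Finset α)) : ℕ :=
  ∑ d ∈ DD r s K K1 I, min 3 (cnt r s K1 S d.1 d.2).card

variable {r g s th : ℕ} {K K1 E S I : Finset (Finset α)}

theorem mem_DD {d : Finset α × α} : d ∈ DD r s K K1 I ↔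
    d.1 ∈ I ∧ KL r K (tg d.1 d.2) ∧ s < (ln r (tg d.1 d.2) \ K1).card := by
  simp [DD]

theorem unk_of {Y Z : Finset α} (hY : KL r K Y) (hZ : Z ∈ ln r Y) (hB : Z ∈ WB r K) (hS : Z ∉ S) :
    Unk r K S Y := ⟨hY, clo_WB.ln_subset hY hZ hB, fun h => hS (h hZ)⟩

theorem Shut.fat (hS : Shut r g s K1 E I (lamK r K) S) {A Z : Finset α} (hA : A ∈ I) {a : α}
    (hZ : Z ∈ ln r (tg A a)) (hZS : Z ∉ S) : s < (ln r (tg A a) \ K1).card := by
  by_contra hc
  exact hZS (hS.slim A hA a (by omega) hZ)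

namespace Pre

variable (h : Pre r g s th K K1)
include h

theorem psi_le (hI : ∀ A ∈ I, Elig r th K K1 A) : psi r s K K1 I S ≤ 12 * I.card := by
  have h1 : (DD r s K K1 I).card ≤ 4 * I.card := by
    refine card_le_mul_card_image_of_maps_to (f := Prod.fst) (fun d hd => (mem_DD.1 hd).1) 4
      fun A hA => ?_
    have h2 : ((DD r s K K1 I).filter (fun d => d.1 = A)).card ≤
        (side r s K K1 A True ∪ side r s K K1 A False).card := by
      refine card_le_card_of_injOn Prod.snd (fun d hd => ?_) fun d hd d' hd' e => ?_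
      · obtain ⟨d1, rfl⟩ := mem_filter.1 (mem_coe.1 hd)
        have := (mem_DD.1 d1).2
        simp only [coe_union, Set.mem_union, mem_coe, mem_side]
        tauto
      · exact Prod.ext ((mem_filter.1 (mem_coe.1 hd)).2.trans (mem_filter.1 (mem_coe.1 hd')).2.symm) e
    have h3 := card_union_le (side r s K K1 A True) (side r s K K1 A False)
    have := h.card_side (hI A hA) True
    have := h.card_side (hI A hA) False
    omega
  have h2 : psi r s K K1 I S ≤ (DD r s K K1 I).card * 3 := by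
    rw [psi, ← smul_eq_mul]
    exact sum_le_card_nsmul _ _ _ fun d _ => min_le_left _ _
  omega

/-- learning a good line increases the potential -/
theorem gain (hI : ∀ A ∈ I, Elig r th K K1 A) (hS : Shut r g s K1 E I (lamK r K) S)
    {S' P : Finset (Finset α)} {L : Finset α} (hL : KL r K L) (hSS : S ⊆ S') (hLS : ln r L ⊆ S')
    (hP : P ⊆ ln r L \ S) (hPI : ∀ Z ∈ P, ∃ A ∈ I, A ∉ ln r L ∧ sd A Z = 2) :
    3 * psi r s K K1 I S + P.card ≤ 3 * psi r s K K1 I S' := by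
  let G := (DD r s K K1 I).filter (fun d =>
    min 3 (cnt r s K1 S d.1 d.2).card + 1 ≤ min 3 (cnt r s K1 S' d.1 d.2).card)
  have h1 : P.card * 1 ≤ G.card * 3 := by
    refine card_mul_le_card_mul (fun Z d => d.1 ∉ ln r L ∧ sd d.1 Z ≤ 2) (fun Z hZ => ?_)
      fun d hd => ?_
    · obtain ⟨A, a1, a2, a3⟩ := hPI Z hZ
      obtain ⟨z1, z2⟩ := mem_sdiff.1 (hP hZ)
      have hA := hI A a1
      obtain ⟨Y, y1, y2, y3⟩ := share h.mm (WB_subset hA.1) (hL.2 z1) a3
      obtain ⟨a, rfl⟩ := exists_tg_of_mem_ln y2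
      obtain ⟨b, rfl⟩ := sd_eq_one.1 (mem_ln.1 y3).2
      have hba : b ≠ a := fun e => by rw [e, tg_tg] at a3; simp at a3
      have y4 : tg (tg A a) b ∈ ln r (tg A b) := by
        rw [tg_comm]; exact mem_ln.2 ⟨tg_comm A a b ▸ (mem_ln.1 y3).1, sd_tg_self _ _⟩
      have c1 : (cnt r s K1 S A a).card < 3 := by
        by_contra hc
        exact z2 (hS.three A a1 a (by omega) y3)
      have c2 : (cnt r s K1 S A a).card < (cnt r s K1 S' A a).card := by
        refine card_lt_card ⟨cnt_mono hSS A a, fun hc => z2 ?_⟩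
        have : b ∈ cnt r s K1 S' A a :=
          mem_filter.2 ⟨mem_univ _, hba, y3, hLS z1, hS.fat a1 y4 z2⟩
        exact (mem_filter.1 (hc this)).2.2.2.1
      refine card_pos.2 ⟨(A, a), (mem_bipartiteAbove _).2 ⟨mem_filter.2 ⟨mem_DD.2
        ⟨a1, y1, hS.fat a1 y3 z2⟩, ?_⟩, a2, a3.le⟩⟩
      dsimp only
      omega
    · rcases (P.bipartiteBelow (fun Z (d : Finset α × α) => d.1 ∉ ln r L ∧ sd d.1 Z ≤ 2)
        d).eq_empty_or_nonempty with e | ⟨Z0, hZ0⟩
      · simp [e]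
      refine card_adj_on_ln (h.card_B (hI _ (mem_DD.1 (mem_filter.1 hd).1).1).1)
        ((mem_bipartiteBelow _).1 hZ0).2.1 _ fun Z hZ => ?_
      obtain ⟨z1, z2⟩ := (mem_bipartiteBelow _).1 hZ
      exact ⟨(mem_sdiff.1 (hP z1)).1, z2.2⟩
  have h2 : psi r s K K1 I S + G.card ≤ psi r s K K1 I S' := by
    rw [psi, psi, card_filter, ← sum_add_distrib]
    refine sum_le_sum fun d _ => ?_
    have := card_le_card (cnt_mono (r := r) (s := s) (K1 := K1) hSS d.1 d.2)
    split_ifs <;> omega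
  omega

omit h in
theorem unk_many (hS : Shut r g s K1 E I (lamK r K) S) {Y : Finset α} (hY : Unk r K S Y) :
    g ≤ (ln r Y \ S).card := by
  by_contra hc
  exact hY.2.2 (hS.few Y hY.1.1 (by omega))

/-- an unknown line with many unknown points that are not private -/
theorem exists_line (hI : ∀ A ∈ I, Elig r th K K1 A) (hD : Done r th K K1 I)
    (hS : Shut r g s K1 E I (lamK r K) S) {X0 : Finset α} (h0 : X0 ∈ WB r K) (h0S : X0 ∉ S) :
    ∃ L, Unk r K S L ∧ 2 * th ≤ ((ln r L \ S) \ priv r K L).card := by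
  classical
  have g1 := h.num.g1
  by_cases hc : ∃ Y, Unk r K S Y ∧ (priv r K Y \ K1).card < th
  · obtain ⟨Y, y1, y2⟩ := hc
    refine ⟨Y, y1, ?_⟩
    have h1 := unk_many hS y1
    have h2 := card_sdiff_add_card_inter (ln r Y \ S) (priv r K Y)
    have h3 : ln r Y \ S ∩ priv r K Y ⊆ priv r K Y \ K1 := fun Z hZ =>
      mem_sdiff.2 ⟨(mem_inter.1 hZ).2, fun hK => (mem_sdiff.1 (mem_inter.1 hZ).1).2 (hS.seed hK)⟩
    have h4 := card_le_card h3
    omega
  push Not at hc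
  have star : ∀ Y, Unk r K S Y → ∀ Z ∈ ln r Y, Z ∉ priv r K Y → Z ∉ S := by
    intro Y hY Z hZ hp hZS
    obtain ⟨A, a1, a2⟩ := h.priv_pt hI hD hY.1 hY.2.1 (hc Y hY)
    obtain ⟨a, rfl⟩ := exists_tg_of_mem_ln (mem_priv.1 a2).1
    exact hY.2.2 (hS.lab A a1 a (lamK_eq hY.1 a2) Z hZ (fun e => hp (by rw [e]; exact a2)) hZS)
  let R := K.filter (fun X => ∃ Y, Unk r K S Y ∧ X ∈ ln r Y)
  have hR : Clo K R := ⟨filter_subset _ _, fun X hX X' hX' e => by
    obtain ⟨x1, Y, y1, y2⟩ := mem_filter.1 hX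
    obtain ⟨L, l1, l2, l3⟩ := share h.mm x1 hX' e
    refine mem_filter.2 ⟨hX', L, ?_, l3⟩
    by_cases hLY : L = Y
    · exact hLY ▸ y1
    · exact unk_of l1 l2 (y1.2.1 y2) (star Y y1 X y2 fun hp => hLY ((mem_priv.1 hp).2 L l1 l2))⟩
  obtain ⟨Y0, y1, y2⟩ := exists_KL_of_WB h.mm h0
  have hX0 : X0 ∈ R := mem_filter.2 ⟨WB_subset h0, Y0, unk_of y1 y2 h0 h0S, y2⟩
  obtain ⟨-, L, l1, l2, Z, z1, z2⟩ := mem_WB.1 h0
  have hLR := hR.ln_subset l1 z1 (hR.conn z2 hX0)
  have h1 : ln r L \ priv r K L ⊆ (ln r L \ S) \ priv r K L := fun X hX => by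
    obtain ⟨x1, x2⟩ := mem_sdiff.1 hX
    obtain ⟨-, Y, y3, y4⟩ := mem_filter.1 (hLR x1)
    refine mem_sdiff.2 ⟨mem_sdiff.2 ⟨x1, star Y y3 X y4 fun hp => x2 ?_⟩, x2⟩
    rwa [(mem_priv.1 hp).2 L l1 x1]
  have h2 := card_le_card h1
  have h3 := le_card_sdiff (priv r K L) (ln r L)
  have h4 := card_ln_ge h.num.w1 h.num.w2 l1.1
  have h5 := h.num.gn
  have h6 := h.num.t3
  obtain ⟨X, hX⟩ : ((ln r L \ S) \ priv r K L).Nonempty := card_pos.1 (by omega)
  obtain ⟨x1, x2⟩ := mem_sdiff.1 (mem_sdiff.1 hX).1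
  exact ⟨L, ⟨l1, clo_WB.ln_subset l1 z1 (clo_WB.conn z2 h0), fun hs => x2 (hs x1)⟩, by omega⟩

/-- a good line exists as long as some point is unknown -/
theorem step (hI : ∀ A ∈ I, Elig r th K K1 A) (hst : Stb I) (hD : Done r th K K1 I)
    (hS : Shut r g s K1 E I (lamK r K) S) {X0 : Finset α} (h0 : X0 ∈ WB r K) (h0S : X0 ∉ S) :
    ∃ L, Unk r K S L ∧ ∃ P ⊆ ln r L \ S, th ≤ P.card ∧
      ∀ Z ∈ P, ∃ A ∈ I, A ∉ ln r L ∧ sd A Z = 2 := by
  classical
  have g1 := h.num.g1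
  have t3 := h.num.t3
  by_cases hc : ∃ Y, Unk r K S Y ∧ ∀ A ∈ I, A ∉ ln r Y
  · obtain ⟨Y, y1, y2⟩ := hc
    have h1 := unk_many hS y1
    have h2 := h.near hI hD y1.1 y1.2.1 (P := ln r Y \ S) (sdiff_subset_sdiff Subset.rfl hS.seed)
    refine ⟨Y, y1, _, filter_subset (fun Z => ∃ A ∈ I, sd A Z ≤ 2) _, ?_, fun Z hZ => ?_⟩
    · convert (show th ≤ _ by omega : th ≤ ((ln r Y \ S).filter (fun Z => ∃ A ∈ I, sd A Z ≤ 2)).card)
    obtain ⟨z1, A, a1, a2⟩ := mem_filter.1 hZ
    have z2 := (mem_sdiff.1 z1).1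
    refine ⟨A, a1, y2 A a1, ((sd_le_two ((h.card_B (hI A a1).1).trans
      (mem_ln.1 z2).1.symm)).1 a2).resolve_left fun e => y2 A a1 (e ▸ z2)⟩
  push Not at hc
  obtain ⟨L, l1, l2⟩ := h.exists_line hI hD hS h0 h0S
  obtain ⟨A0, a1, a2⟩ := hc L l1
  obtain ⟨a0, rfl⟩ := exists_tg_of_mem_ln a2
  have cA := (mem_ln.1 a2).1
  let P := ((ln r (tg A0 a0) \ S) \ priv r K (tg A0 a0)).filter
    (fun Z => ∃ A ∈ I, A ∉ ln r (tg A0 a0) ∧ sd A Z = 2)
  refine ⟨_, l1, P, (filter_subset _ _).trans sdiff_subset, ?_, fun Z hZ => (mem_filter.1 hZ).2⟩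
  have h1 : (ln r (tg A0 a0) \ S) \ priv r K (tg A0 a0) ⊆
      P ∪ insert A0 ((side r s K K1 A0 (a0 ∉ A0)).image (tg (tg A0 a0))) := fun Z hZ => by
    by_cases hZP : Z ∈ P
    · exact mem_union_left _ hZP
    refine mem_union_right _ (mem_insert.2 (or_iff_not_imp_left.2 fun hne => ?_))
    obtain ⟨z1, z2⟩ := mem_sdiff.1 hZ
    obtain ⟨z3, z4⟩ := mem_sdiff.1 z1
    rw [mem_priv] at z2
    push Not at z2
    obtain ⟨Y, y1, y2, y3⟩ := z2 z3
    obtain ⟨A, b1, b2⟩ := hc Y (unk_of y1 y2 (l1.2.1 z3) z4)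
    have b3 : A ∈ ln r (tg A0 a0) := by
      by_contra b4
      exact hZP (mem_filter.2 ⟨hZ, A, b1, b4,
        (ln_clique b2 y2).resolve_left fun e => b4 (e ▸ z3)⟩)
    obtain rfl : A = A0 := (ln_clique b3 a2).resolve_right (hst A b1 A0 a1)
    obtain ⟨c, c1, rfl⟩ := ln_pair b2 y2 (Ne.symm hne)
    have hca : c ≠ a0 := fun e => y3 (by rw [e])
    have h2 := (ln_clique a2 z3).resolve_left (Ne.symm hne)
    have h3 := mt (side_eq (cA.trans (mem_ln.1 z3).1.symm) h2 c1
      (mem_sd_of_ln cA z3 (Ne.symm hne))) hca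
    refine mem_image.2 ⟨c, mem_side.2 ⟨by tauto, y1, hS.fat b1 y2 z4⟩, ?_⟩
    obtain ⟨x, rfl⟩ := sd_eq_one.1 (mem_ln.1 z3).2
    have hx : a0 ≠ x := fun e => hne (by rw [← e, tg_tg])
    rw [symmDiff_tg_tg hx, mem_insert, mem_singleton] at c1
    rw [c1.resolve_left hca]
  have h2 := (card_le_card h1).trans (card_union_le _ _)
  have h3 := card_insert_le A0 ((side r s K K1 A0 (a0 ∉ A0)).image (tg (tg A0 a0)))
  have h4 := card_image_le (s := side r s K K1 A0 (a0 ∉ A0)) (f := tg (tg A0 a0))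
  have h5 := h.card_side (hI A0 a1) (a0 ∉ A0)
  omega

/-- few explicit lines complete the decoder -/
theorem complete (hI : ∀ A ∈ I, Elig r th K K1 A) (hst : Stb I) (hD : Done r th K K1 I) :
    ∃ E : Finset (Finset α), th * E.card ≤ 36 * I.card ∧ (∀ Y ∈ E, ln r Y ⊆ WB r K) ∧
      WB r K ⊆ Kn r g s K1 E I (lamK r K) := by
  classical
  let 𝓔 := (univ : Finset (Finset (Finset α))).filter (fun E => (∀ Y ∈ E, ln r Y ⊆ WB r K) ∧
    th * E.card ≤ 3 * psi r s K K1 I (Kn r g s K1 E I (lamK r K)))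
  obtain ⟨E, hE, hmax⟩ := exists_max_image 𝓔 card ⟨∅, by simp [𝓔]⟩
  obtain ⟨-, e1, e2⟩ := mem_filter.1 hE
  have h1 := h.psi_le (S := Kn r g s K1 E I (lamK r K)) hI
  refine ⟨E, by omega, e1, fun X0 h0 => ?_⟩
  by_contra h0S
  obtain ⟨L, l1, P, p1, p2, p3⟩ := h.step hI hst hD shut_Kn h0 h0S
  have hLE : L ∉ E := fun hL => l1.2.2 (shut_Kn.expl L hL)
  have h2 := h.gain hI shut_Kn (S' := Kn r g s K1 (insert L E) I (lamK r K)) l1.1
    (Kn_mono (subset_insert _ _) Subset.rfl fun _ _ => rfl)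
    (shut_Kn.expl L (mem_insert_self _ _)) p1 p3
  have h3 : insert L E ∈ 𝓔 := by
    refine mem_filter.2 ⟨mem_univ _, fun Y hY => ?_, ?_⟩
    · rcases mem_insert.1 hY with rfl | hY
      exacts [l1.2.1, e1 Y hY]
    · rw [card_insert_of_notMem hLE, mul_add, mul_one]; omega
  have := hmax _ h3
  rw [card_insert_of_notMem hLE] at this
  omega

end Pre

theorem clbA : ClbAStmt := by
  intro n r g s th K num mm gir
  have num' : Num (Fintype.card (Fin n)) r g s th := by rwa [Fintype.card_fin]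
  obtain ⟨Z, z1, z2, h⟩ := phase1 num' mm gir
  obtain ⟨𝒟, d1, d2⟩ := h.weight
  refine ⟨Z, z1, z2, h.sub, 𝒟, d1, fun I hI => ?_⟩
  obtain ⟨i1, i2, i3⟩ := d2 I hI
  obtain ⟨E, e1, e2, e3⟩ := h.complete i1 i2 i3
  refine ⟨fun A hA => mem_sdiff.2 ⟨(i1 A hA).1, (i1 A hA).2.1⟩, i2, ?_, E, e1, lamK r K,
    fun U hU lam hIU hUI hl => Subset.antisymm (Kn_subset (h.sound i1 e2 hU hUI hl))
      (e3.trans (Kn_mono Subset.rfl hIU hl))⟩
  simpa using h.size i1 i3

end Pool.Agent.MP_c3fbfc_co.V.Clb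

end MrgPart1

-- ======== part 2: formerly Pool.Agent.MP_c3fbfc_co.VCont
section MrgPart2

/-! CONT: containers with a small overhead. -/

namespace Pool.Agent.MP_c3fbfc_co.V

open Finset Filter

namespace Cont

theorem gg_cube {n : ℕ} (hn : n ≠ 0) : ((4 : ℝ) ^ gg n) ^ 3 ≤ n := by
  have h := Nat.pow_log_le_self 64 hn
  have e : ((4 : ℝ) ^ gg n) ^ 3 = ((64 ^ Nat.log 64 n : ℕ) : ℝ) := by
    rw [← pow_mul, mul_comm, pow_mul, gg]
    norm_num
  rw [e]
  exact_mod_cast h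

theorem ev_log (c : ℝ) (hc : 0 < c) :
    ∀ᶠ n : ℕ in atTop, c * Real.log n * 4 ^ gg n ≤ Nat.sqrt n := by
  have h := (Real.isLittleO_pow_log_id_atTop (n := 6)).bound
    (c := 1 / (64 * c ^ 6)) (by positivity)
  filter_upwards [tendsto_natCast_atTop_atTop.eventually h, eventually_ge_atTop 1] with n h1 h2
  have hn : (1 : ℝ) ≤ n := by exact_mod_cast h2
  have hL := Real.log_nonneg hn
  rw [Real.norm_of_nonneg (by positivity), id, Real.norm_of_nonneg (by positivity)] at h1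
  have h3 := gg_cube (n := n) (by omega)
  have h4 : (n : ℝ) ≤ 4 * (Nat.sqrt n : ℝ) ^ 2 := by
    have a := Nat.lt_succ_sqrt' n
    have b : 0 < Nat.sqrt n := Nat.sqrt_pos.2 (by omega)
    have : n ≤ 4 * Nat.sqrt n ^ 2 := by
      simp only [Nat.succ_eq_add_one] at a
      nlinarith
    exact_mod_cast this
  refine le_of_pow_le_pow_left₀ (n := 6) (by norm_num) (by positivity) ?_
  calc (c * Real.log n * 4 ^ gg n) ^ 6
      = c ^ 6 * Real.log n ^ 6 * (((4 : ℝ) ^ gg n) ^ 3) ^ 2 := by ring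
    _ ≤ c ^ 6 * (1 / (64 * c ^ 6) * n) * (n : ℝ) ^ 2 := by gcongr
    _ = (n : ℝ) ^ 3 / 64 := by field_simp
    _ ≤ (4 * (Nat.sqrt n : ℝ) ^ 2) ^ 3 / 64 := by gcongr
    _ = _ := by ring

theorem card_small (n : ℕ) :
    ((((univ : Finset (Finset (Fin n))).filter (fun S => S.card ≤ n / 5000)).card : ℕ) : ℝ)
      ≤ (n + 1) * (19 / 10) ^ n := by
  have h1 : (univ : Finset (Finset (Fin n))).filter (fun S => S.card ≤ n / 5000)
      ⊆ (range (n / 5000 + 1)).biUnion (fun k => Vr (Fin n) k) := by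
    intro S hS
    exact mem_biUnion.2 ⟨S.card, mem_range.2 (Nat.lt_succ_of_le (mem_filter.1 hS).2), mem_Vr.2 rfl⟩
  have h2 := (card_le_card h1).trans card_biUnion_le
  calc _ ≤ ((∑ k ∈ range (n / 5000 + 1), (Vr (Fin n) k).card : ℕ) : ℝ) := by exact_mod_cast h2
    _ = ∑ k ∈ range (n / 5000 + 1), (n.choose k : ℝ) := by
        simp only [card_Vr, Fintype.card_fin, Nat.cast_sum]
    _ ≤ ∑ _k ∈ range (n / 5000 + 1), ((19 : ℝ) / 10) ^ n :=
        sum_le_sum fun k hk => choose_small (by have := mem_range.1 hk; omega)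
    _ = ((n / 5000 + 1 : ℕ) : ℝ) * (19 / 10) ^ n := by rw [sum_const, card_range, nsmul_eq_mul]
    _ ≤ _ := by
        have : ((n / 5000 + 1 : ℕ) : ℝ) ≤ n + 1 := by
          exact_mod_cast (by omega : n / 5000 + 1 ≤ n + 1)
        gcongr

end Cont

open Cont in
theorem cont : ContStmt := by
  intro η hη
  filter_upwards [ev_log (2000000 / η) (by positivity), ev_exp (4 / η) 4,
    eventually_ge_atTop 5000] with n h1 h2 hn r hr1 hr2
  have hn' : (5000 : ℝ) ≤ n := by exact_mod_cast hn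
  have hn0 : (0 : ℝ) < n := by linarith
  set M : ℝ := ((n.choose (n / 2) : ℕ) : ℝ) with hM
  set g : ℝ := (4 : ℝ) ^ gg n with hg
  set j : ℕ := Nat.sqrt n with hj
  set L : ℝ := Real.log n with hL
  have hg1 : 1 ≤ g := one_le_pow₀ (by norm_num)
  have hg0 : 0 < g := by linarith
  have hj0 : 0 < j := Nat.sqrt_pos.2 (by omega)
  have hj1 : (1 : ℝ) ≤ j := by exact_mod_cast hj0
  have hj2 : (j : ℝ) * j ≤ n := by exact_mod_cast Nat.sqrt_le n
  have hjn : (j : ℝ) ≤ n := by nlinarith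
  have hL1 : 1 ≤ L := by
    rw [hL, Real.le_log_iff_exp_le hn0]
    linarith [Real.exp_one_lt_d9]
  have hM0 : 0 ≤ M := by positivity
  have hMk : ∀ k, (n.choose k : ℝ) ≤ M := fun k => Nat.cast_le.2 (Nat.choose_le_middle k n)
  have h2M := two_pow_le_middle n
  have hr0 : 0 < r := by omega
  have hr' : (n : ℝ) ≤ 3 * r := by exact_mod_cast hr1
  have hrn : (r : ℝ) ≤ n := by exact_mod_cast (by omega : r ≤ n)
  have hr0' : (0 : ℝ) < r := by exact_mod_cast hr0
  have hΔ : (n : ℝ) ≤ 10000 * (n / 5000 : ℕ) := by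
    exact_mod_cast (by omega : n ≤ 10000 * (n / 5000))
  have hΔ0 : (0 : ℝ) < (n / 5000 : ℕ) := by linarith
  have hkey : 2000000 * L * g ≤ η * j := by
    have := mul_le_mul_of_nonneg_left h1 hη.le
    calc _ = η * (2000000 / η * L * g) := by field_simp
      _ ≤ _ := this
  set q : ℝ := 100000 * M / (n * j) with hq
  set E : ℝ := η * M / (n * g) with hE
  have hq0 : 0 ≤ q := by positivity
  have hqL : 16 * (q * L) ≤ E := by
    rw [hq, hE, le_div_iff₀ (by positivity)]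
    have e : 16 * (100000 * M / (n * j) * L) * (n * g) = M * (1600000 * L * g) / j := by
      field_simp; ring
    rw [e, div_le_iff₀ (by positivity)]
    have : 0 ≤ L * g := by positivity
    calc M * (1600000 * L * g) ≤ M * (η * j) := mul_le_mul_of_nonneg_left (by nlinarith) hM0
      _ = _ := by ring
  have hlog : Real.log ((n : ℝ) ^ 4) = 4 * L := by rw [Real.log_pow]; norm_num [hL]
  have hu : (1 : ℝ) ≤ (n : ℝ) ^ 4 := one_le_pow₀ (by linarith)
  have huniv : ∀ x : ℝ, x ≤ (n + 1) ^ 2 * M → 2 * (x / (n : ℝ) ^ 4) ≤ E := by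
    intro x hx
    have h3 : 8 * g ≤ η * n := by nlinarith
    calc 2 * (x / (n : ℝ) ^ 4) ≤ 2 * ((2 * n) ^ 2 * M / (n : ℝ) ^ 4) := by
          gcongr
          exact hx.trans (by gcongr; linarith)
      _ = 8 * g * M / (n * (n * g)) := by field_simp; ring
      _ ≤ η * n * M / (n * (n * g)) := by gcongr
      _ = E := by rw [hE]; field_simp
  have hNu : 2 * ((n.choose r : ℝ) / (n : ℝ) ^ 4) ≤ E :=
    huniv _ ((hMk r).trans (le_mul_of_one_le_left hM0 (one_le_pow₀ (by linarith))))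
  have hqL0 : 0 ≤ q * L := by positivity
  obtain ⟨𝓕, hF1, hF2, hF3⟩ := johnson_container (α := Fin n) r j (n / 5000) hr0 hj0 (by omega)
    ((n : ℝ) ^ 4) hu q (by
      rw [Fintype.card_fin]
      have a : 2 * (n.choose r : ℝ) / (j * r) ≤ 6 * M / (n * j) := by
        rw [div_le_div_iff₀ (by positivity) (by positivity)]
        calc 2 * (n.choose r : ℝ) * (n * j) ≤ 2 * M * (3 * r * j) := by gcongr; exact hMk r
          _ = _ := by ring
      have b : 2 * j * (n.choose (r - 1) : ℝ) / (r * (n / 5000 : ℕ)) ≤ 60000 * M / (n * j) := by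
        rw [div_le_div_iff₀ (by positivity) (by positivity)]
        calc 2 * j * (n.choose (r - 1) : ℝ) * (n * j)
            = 2 * (n.choose (r - 1) : ℝ) * (n * (j * j)) := by ring
          _ ≤ 2 * M * (3 * r * (10000 * (n / 5000 : ℕ))) := by
              refine mul_le_mul (by linarith [hMk (r - 1)]) ?_ (by positivity) (by positivity)
              exact mul_le_mul hr' (hj2.trans hΔ) (by positivity) (by positivity)
          _ = _ := by ring
      have c : q = 6 * M / (n * j) + 60000 * M / (n * j) + 39994 * M / (n * j) := by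
        rw [hq]; ring
      have d : 0 ≤ 39994 * M / (n * j) := by positivity
      linarith)
  refine ⟨𝓕, q, hF1.trans ?_, (card_small_subsets _ _ hu q).trans ?_,
    (card_small_subsets _ _ hu (2 * q)).trans ?_, ?_, ?_, ?_, hF2, hF3⟩
  · rw [Fintype.card_fin, hlog]
    exact Real.exp_le_exp.2 (by linarith)
  · rw [card_Vr, Fintype.card_fin, hlog]
    exact Real.exp_le_exp.2 (by linarith)
  · have a : ((OO (Fin n) r).card : ℝ) ≤ (n + 1) ^ 2 * M := by
      have e : ((OO (Fin n) r).card : ℝ) = 2 ^ n * (r + 1) := by simp [OO]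
      rw [e]
      calc (2 : ℝ) ^ n * (r + 1) ≤ (n + 1) * M * (n + 1) := by gcongr
        _ = _ := by ring
    have b := huniv _ a
    rw [hlog]
    exact Real.exp_le_exp.2 (by linarith)
  · have a := card_small n
    have hgn : g ≤ n := by
      have := gg_cube (n := n) (by omega)
      rw [← hg] at this
      nlinarith [mul_nonneg hg0.le hg0.le]
    have b : (n + 1) * ((19 : ℝ) / 10) ^ n ≤ E := by
      rw [hE, le_div_iff₀ (by positivity)]
      refine le_of_mul_le_mul_left ?_ (show (0 : ℝ) < n + 1 by linarith)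
      calc (n + 1) * ((n + 1) * ((19 : ℝ) / 10) ^ n * (n * g))
          ≤ (2 * n) * ((2 * n) * ((19 : ℝ) / 10) ^ n * (n * n)) := by gcongr <;> linarith
        _ = η * (4 / η * (n : ℝ) ^ 4 * (19 / 10) ^ n) := by field_simp; ring
        _ ≤ η * ((n + 1) * M) := mul_le_mul_of_nonneg_left (h2.trans h2M) hη.le
        _ = _ := by ring
    refine le_trans ?_ (Real.exp_le_exp.2 (a.trans b))
    rw [← mul_one (Nat.cast _ : ℝ), Real.exp_nat_mul]
    exact pow_le_pow_left₀ (by norm_num) (by linarith [Real.add_one_le_exp 1]) _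
  · nlinarith
  · rw [hq, div_le_div_iff₀ (by positivity) (by positivity)]
    calc (n.choose r : ℝ) * (n * j) ≤ M * (n * (n * n)) := by
          gcongr
          · exact hMk r
          · nlinarith
      _ = 1 * M * n ^ 3 := by ring
      _ ≤ _ := by gcongr; norm_num

end Pool.Agent.MP_c3fbfc_co.V

end MrgPart2

-- ======== part 3: formerly Pool.Agent.MP_c3fbfc_co.VSmall
section MrgPart3

/-! SMALL: small stable sets. -/

namespace Pool.Agent.MP_c3fbfc_co.V

open Finset Filter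

namespace Small

theorem card_le {n r : ℕ} (hn : 0 < n) (h1 : n ≤ 3 * r) (h2 : 3 * r ≤ 2 * n)
    {A : Finset (Finset (Fin n))} (hA : A ⊆ Vr (Fin n) r)
    (hd : ∀ X ∈ A, (A.filter (Adj X)).card < n / 5000) :
    (A.card : ℝ) ≤ 12 * (n.choose r / n) := by
  have h3 := card_le_of_deg (j := 1) A hA (fun X hX => by have := hd X hX; omega) one_pos
  rw [Fintype.card_fin, Nat.cast_one, mul_one] at h3
  obtain ⟨s, rfl⟩ : ∃ s, r = s + 1 := ⟨r - 1, by omega⟩
  rw [Nat.add_sub_cancel] at h3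
  have h4 : n.choose s ≤ 2 * n.choose (s + 1) := by
    have e := Nat.choose_succ_right_eq n s
    refine Nat.le_of_mul_le_mul_right ?_ (show 0 < s + 1 by omega)
    rw [mul_assoc, e, ← mul_assoc, mul_comm 2, mul_assoc]
    exact Nat.mul_le_mul_left _ (by omega)
  have h5 : (n.choose s : ℝ) ≤ 2 * n.choose (s + 1) := by exact_mod_cast h4
  have h6 : (n : ℝ) ≤ 3 * (s + 1 : ℕ) := by exact_mod_cast h1
  have hn' : (0 : ℝ) < n := by exact_mod_cast hn
  rw [← mul_div_assoc, le_div_iff₀ hn']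
  have h7 : (0 : ℝ) ≤ A.card := by positivity
  nlinarith

end Small

open Classical in
theorem small (h : ContStmt) : SmallStmt := by
  intro η hη
  set u : ℝ := max 1 (48 / η) with hu
  have hu1 : 1 ≤ u := le_max_left _ _
  have hu2 : 48 ≤ u * η := (div_le_iff₀ hη).1 (le_max_right _ _)
  have hl := Real.log_nonneg hu1
  refine ⟨η / (4 * (Real.log u + 1)), by positivity, ?_⟩
  filter_upwards [h (η / 96) (by positivity), eventually_ge_atTop 1] with n h1 hn r hr
  obtain ⟨𝓕, q, hF1, hF2, -, -, -, -, hF3, hF4⟩ := h1 r hr.1 hr.2.1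
  have hn' : (0 : ℝ) < n := by exact_mod_cast hn
  set x : ℝ := n.choose r / n with hx
  have hx0 : 0 ≤ x := by positivity
  set t : ℝ := η / (4 * (Real.log u + 1)) * n.choose r / n with ht
  have hE : η / 96 * n.choose (n / 2) / (n * 4 ^ gg n) ≤ η / 4 * x := by
    have a : (n.choose (n / 2) : ℝ) ≤ 24 * n.choose r := by exact_mod_cast hr.2.2
    have b : (1 : ℝ) ≤ 4 ^ gg n := one_le_pow₀ (by norm_num)
    calc _ ≤ η / 96 * (24 * n.choose r) / (n * 1) := by gcongr
      _ = _ := by rw [hx]; ring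
  set Q := (Vr (Fin n) r).powerset.filter (fun S => (S.card : ℝ) ≤ q) with hQ
  have hsub : (SS (Fin n) r).filter (fun S => (S.card : ℝ) ≤ t) ⊆ 𝓕.biUnion fun A =>
      (Q ×ˢ A.powerset.filter (fun S => (S.card : ℝ) ≤ t)).image fun p => p.1 ∪ p.2 := by
    intro S hS
    obtain ⟨hS1, hS2⟩ := mem_filter.1 hS
    obtain ⟨hS3, hS4⟩ := mem_SS.1 hS1
    obtain ⟨A, hA, S0, h2, h3, h4⟩ := hF4 S
    refine mem_biUnion.2 ⟨A, hA, mem_image.2 ⟨(S0, S ∩ A), mem_product.2 ⟨?_, ?_⟩, ?_⟩⟩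
    · exact mem_filter.2 ⟨mem_powerset.2 (h2.trans hS3), h3⟩
    · refine mem_filter.2 ⟨mem_powerset.2 inter_subset_right, le_trans ?_ hS2⟩
      exact_mod_cast card_le_card inter_subset_left
    · refine Subset.antisymm (union_subset h2 inter_subset_left) fun X hX => ?_
      rcases h4 X hX (hS3 hX) with h5 | ⟨v, hv, h5 | h5⟩
      · exact mem_union_right _ (mem_inter.2 ⟨hX, h5⟩)
      · exact mem_union_left _ (h5 ▸ hv)
      · exact absurd (Adj.sd h5) (hS4 v (h2 hv) X hX)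
  have hone : ∀ A ∈ 𝓕, (((Q ×ˢ A.powerset.filter (fun S => (S.card : ℝ) ≤ t)).image
      fun p => p.1 ∪ p.2).card : ℝ) ≤ Real.exp (η / 4 * x) * Real.exp (η / 2 * x) := by
    intro A hA
    have a := Small.card_le hn hr.1 hr.2.1 (hF3 A hA).1 (hF3 A hA).2
    have b := card_small_subsets A u hu1 t
    have c : t * Real.log u + A.card / u ≤ η / 2 * x := by
      have c1 : t * Real.log u ≤ η / 4 * x := by
        have e : t * (Real.log u + 1) = η / 4 * x := by rw [ht, hx]; field_simp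
        have : 0 ≤ t := by positivity
        nlinarith
      have c2 : A.card / u ≤ η / 4 * x := by
        rw [div_le_iff₀ (by linarith)]
        nlinarith
      linarith
    refine le_trans (Nat.cast_le.2 card_image_le) ?_
    rw [card_product, Nat.cast_mul]
    exact mul_le_mul (hF2.trans (Real.exp_le_exp.2 hE)) (b.trans (Real.exp_le_exp.2 c))
      (by positivity) (by positivity)
  calc _ ≤ ((∑ A ∈ 𝓕, ((Q ×ˢ A.powerset.filter (fun S => (S.card : ℝ) ≤ t)).image
        fun p => p.1 ∪ p.2).card : ℕ) : ℝ) :=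
        Nat.cast_le.2 ((card_le_card hsub).trans card_biUnion_le)
    _ ≤ 𝓕.card * (Real.exp (η / 4 * x) * Real.exp (η / 2 * x)) := by
        rw [Nat.cast_sum, ← nsmul_eq_mul]
        exact sum_le_card_nsmul _ _ _ hone
    _ ≤ Real.exp (η / 4 * x) * (Real.exp (η / 4 * x) * Real.exp (η / 2 * x)) :=
        mul_le_mul_of_nonneg_right (hF1.trans (Real.exp_le_exp.2 hE)) (by positivity)
    _ = _ := by
        rw [← Real.exp_add, ← Real.exp_add, hx]
        congr 1
        ring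

end Pool.Agent.MP_c3fbfc_co.V

end MrgPart3

-- ======== part 4: formerly Pool.Agent.MP_c3fbfc_co.VCov
section MrgPart4

/-! COV: few stable subsets dominate almost all of a family. -/

namespace Pool.Agent.MP_c3fbfc_co.V

open Finset Filter

namespace Cov

variable {α : Type*} [Fintype α] [DecidableEq α]

theorem swap {X Y : Type*} (s : Finset X) (t : Finset Y) (R : X → Y → Prop)
    [∀ x y, Decidable (R x y)] :
    ∑ y ∈ t, (s.filter (fun x => R x y)).card = ∑ x ∈ s, (t.filter (fun y => R x y)).card := by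
  simp only [card_filter]
  exact sum_comm

theorem card_le {B 𝒯 : Finset (Finset α)} {c D : ℕ}
    (h1 : ∀ Z ∈ B, (𝒯.filter (fun X => sd Z X = 2)).card = c)
    (h2 : ∀ X ∈ 𝒯, ∀ Z ∈ B, ∀ Z' ∈ B, sd Z X = 2 → sd Z' X = 2 → Z = Z' ∨ sd Z Z' = 2)
    (h3 : ∀ Z ∈ B, ∀ Z' ∈ B, Z ≠ Z' → (𝒯.filter (fun X => sd Z X = 2 ∧ sd Z' X = 2)).card ≤ 1)
    (h4 : ∀ Z ∈ B, (B.filter (fun Z' => sd Z Z' = 2)).card ≤ D) :
    2 * (c * B.card) ≤ 2 * 𝒯.card + D * B.card := by
  have e1 : ∑ X ∈ 𝒯, (B.filter (fun Z => sd Z X = 2)).card = c * B.card := by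
    rw [swap B 𝒯 (fun Z X => sd Z X = 2), mul_comm, ← smul_eq_mul, ← sum_const]
    exact sum_congr rfl h1
  have e2 : ∑ X ∈ 𝒯, (B.offDiag.filter (fun p => sd p.1 X = 2 ∧ sd p.2 X = 2)).card ≤
      D * B.card := by
    rw [swap B.offDiag 𝒯 (fun p X => sd p.1 X = 2 ∧ sd p.2 X = 2)]
    calc _ ≤ ∑ p ∈ B.offDiag, if sd p.1 p.2 = 2 then 1 else 0 := by
          refine sum_le_sum fun p hp => ?_
          obtain ⟨a, b, d⟩ := mem_offDiag.1 hp
          split_ifs with e
          · exact h3 _ a _ b d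
          · refine le_of_eq (card_eq_zero.2 (eq_empty_of_forall_notMem fun X hX => ?_))
            obtain ⟨x, y⟩ := mem_filter.1 hX
            exact (h2 X x _ a _ b y.1 y.2).elim d e
      _ ≤ ∑ p ∈ B ×ˢ B, if sd p.1 p.2 = 2 then 1 else 0 :=
          sum_le_sum_of_subset fun p hp =>
            mem_product.2 ⟨(mem_offDiag.1 hp).1, (mem_offDiag.1 hp).2.1⟩
      _ ≤ ∑ Z ∈ B, D := by
          rw [sum_product]
          exact sum_le_sum fun Z hZ => by rw [← card_filter]; exact h4 Z hZ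
      _ = _ := by rw [sum_const, smul_eq_mul, mul_comm]
  have e3 : ∀ X ∈ 𝒯, 2 * (B.filter (fun Z => sd Z X = 2)).card ≤
      2 + (B.offDiag.filter (fun p => sd p.1 X = 2 ∧ sd p.2 X = 2)).card := fun X _ => by
    have : B.offDiag.filter (fun p => sd p.1 X = 2 ∧ sd p.2 X = 2) =
        (B.filter (fun Z => sd Z X = 2)).offDiag := by
      ext p
      simp only [mem_filter, mem_offDiag]
      tauto
    rw [this, offDiag_card]
    generalize (B.filter (fun Z => sd Z X = 2)).card = k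
    rcases k with _ | _ | k
    · simp
    · simp
    · have : (k + 1 + 1) * (k + 1 + 1) = k * k + 4 * k + 4 := by ring
      omega
  have e4 := sum_le_sum e3
  rw [← mul_sum, e1, sum_add_distrib, sum_const, smul_eq_mul] at e4
  omega

end Cov

theorem cov (h : ContStmt) : CovStmt := by
  classical
  intro η hη
  filter_upwards [h (η / 7) (by positivity), eventually_ge_atTop 1] with n h hn r r1 r2 Λ 𝒯 c hΛ hc
    h1 h2 h3
  obtain ⟨𝓕, q, f1, f2, -, -, f4, -, f6, f7⟩ := h r r1 r2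
  have hn' : (0 : ℝ) < n := by exact_mod_cast (by omega : 0 < n)
  have hc' : (0 : ℝ) < c := by exact_mod_cast (by omega : 0 < c)
  have hnc : (n : ℝ) ≤ 4 * c := by exact_mod_cast hc
  set ε : ℝ := η / 7 * n.choose (n / 2) / (n * 4 ^ gg n) with hε
  have key := card_le_mul_of_rel
    (Λ.powerset.filter (fun I => Stb I ∧ 999 * 𝒯.card ≤ 1000 * (c * I.card)))
    (𝓕 ×ˢ (Vr (Fin n) r).powerset.filter (fun S => (S.card : ℝ) ≤ q))
    (fun I t => t.2 ⊆ I ∧ I ⊆ t.1 ∩ Λ ∪ t.2) (Real.exp (𝒯.card / (10 * n) + 5 * ε))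
    (fun I hI => by
      obtain ⟨hI1, hI2, -⟩ := mem_filter.1 hI
      have hI1 := mem_powerset.1 hI1
      obtain ⟨A, hA, S, hS, hq, hX⟩ := f7 I
      refine ⟨(A, S), mem_product.2 ⟨hA, mem_filter.2 ⟨mem_powerset.2 (hS.trans (hI1.trans hΛ)),
        hq⟩⟩, hS, fun X hXI => mem_union.2 ?_⟩
      rcases hX X hXI (hΛ (hI1 hXI)) with e | ⟨v, hv, e | e⟩
      · exact Or.inl (mem_inter.2 ⟨e, hI1 hXI⟩)
      · exact Or.inr (e ▸ hv)
      · exact absurd (Adj.sd e) (hI2 v (hS hv) X hXI))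
    (fun t ht => by
      obtain ⟨A, S⟩ := t
      obtain ⟨hA, hS⟩ := mem_product.1 ht
      have hq : (S.card : ℝ) ≤ q := (mem_filter.1 hS).2
      obtain ⟨hAV, hd⟩ := f6 A hA
      have hB : A ∩ Λ ⊆ Λ := inter_subset_right
      have hM := Cov.card_le (B := A ∩ Λ) (𝒯 := 𝒯) (c := c) (D := n / 5000)
        (fun Z hZ => h1 Z (hB hZ)) (fun X hX Z hZ Z' hZ' => h2 X hX Z (hB hZ) Z' (hB hZ'))
        (fun Z hZ Z' hZ' => h3 Z (hB hZ) Z' (hB hZ')) fun Z hZ =>
          (card_le_card fun Z' hZ' => by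
            obtain ⟨a, b⟩ := mem_filter.1 hZ'
            exact mem_filter.2 ⟨(mem_inter.1 a).1, (adj_iff ((mem_Vr.1 (hΛ (hB hZ))).trans
              (mem_Vr.1 (hΛ (hB a))).symm)).2 b⟩).trans (hd Z (mem_inter.1 hZ).1).le
      have hD : ((n / 5000 : ℕ) : ℝ) ≤ 4 * c / 5000 :=
        Nat.cast_div_le.trans (by push_cast; gcongr)
      have hM1 : (2 : ℝ) * (c * (A ∩ Λ).card) ≤ 2 * 𝒯.card + (n / 5000 : ℕ) * (A ∩ Λ).card := by
        exact_mod_cast hM
      have hM2 : ((A ∩ Λ).card : ℝ) ≤ 2001 / 2000 * (𝒯.card / c) := by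
        rw [← mul_div_assoc, le_div_iff₀ hc']
        nlinarith [mul_le_mul_of_nonneg_right hD (Nat.cast_nonneg (α := ℝ) (A ∩ Λ).card),
          Nat.cast_nonneg (α := ℝ) 𝒯.card]
      have hsm := card_small_subsets (A ∩ Λ) 128 (by norm_num) (3 / 2000 * (𝒯.card / c) + q)
      refine le_trans (Nat.cast_le.2 (card_le_card_of_injOn (fun I => (A ∩ Λ) \ I)
        (fun I hI => ?_) fun I hI J hJ e => ?_)) (hsm.trans (Real.exp_le_exp.2 ?_))
      · obtain ⟨a, -, b⟩ := mem_filter.1 (mem_coe.1 hI)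
        obtain ⟨-, -, a⟩ := mem_filter.1 a
        refine mem_coe.2 (mem_filter.2 ⟨mem_powerset.2 sdiff_subset, ?_⟩)
        have a1 : (999 : ℝ) * 𝒯.card ≤ 1000 * (c * I.card) := by exact_mod_cast a
        have a2 : 999 / 1000 * (𝒯.card / c : ℝ) ≤ I.card := by
          rw [← mul_div_assoc, div_le_iff₀ hc']
          linarith
        have a3 : ((A ∩ Λ) \ I).card + I.card ≤ (A ∩ Λ).card + S.card := by
          rw [card_sdiff_add_card]
          exact (card_le_card (union_subset subset_union_left b)).trans (card_union_le _ _)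
        have a4 : (((A ∩ Λ) \ I).card : ℝ) + I.card ≤ (A ∩ Λ).card + S.card := by
          exact_mod_cast a3
        linarith
      · obtain ⟨-, a, b⟩ := mem_filter.1 (mem_coe.1 hI)
        obtain ⟨-, a', b'⟩ := mem_filter.1 (mem_coe.1 hJ)
        have e' : ∀ X, X ∈ A ∩ Λ ∧ X ∉ I ↔ X ∈ A ∩ Λ ∧ X ∉ J := fun X =>
          mem_sdiff.symm.trans ((Finset.ext_iff.1 e X).trans mem_sdiff)
        ext X
        refine ⟨fun x => (mem_union.1 (b x)).elim (fun y => ?_) fun y => a' y,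
          fun x => (mem_union.1 (b' x)).elim (fun y => ?_) fun y => a y⟩
        · exact by_contra fun z => ((e' X).2 ⟨y, z⟩).2 x
        · exact by_contra fun z => ((e' X).1 ⟨y, z⟩).2 x
      · have l1 : Real.log 128 ≤ 5 := by
          rw [show (128 : ℝ) = 2 ^ 7 by norm_num, Real.log_pow]
          have := Real.log_two_lt_d9
          push_cast
          linarith
        have q0 : 0 ≤ q := (Nat.cast_nonneg _).trans hq
        have t0 : (0 : ℝ) ≤ 𝒯.card / c := by positivity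
        have t1 : (𝒯.card / c : ℝ) ≤ 40 * (𝒯.card / (10 * n)) := by
          rw [← mul_div_assoc, div_le_div_iff₀ hc' (by positivity)]
          nlinarith [mul_le_mul_of_nonneg_left hnc (Nat.cast_nonneg (α := ℝ) 𝒯.card)]
        have l2 := mul_le_mul_of_nonneg_left l1
          (show 0 ≤ 3 / 2000 * (𝒯.card / c : ℝ) + q by positivity)
        linarith)
  rw [card_product, Nat.cast_mul] at key
  have e : (𝒯.card / (10 * n) + η * n.choose (n / 2) / (n * 4 ^ gg n) : ℝ) =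
      ε + ε + (𝒯.card / (10 * n) + 5 * ε) := by rw [hε]; ring
  rw [e, Real.exp_add, Real.exp_add ε]
  exact key.trans (by gcongr)

end Pool.Agent.MP_c3fbfc_co.V

end MrgPart4

-- ======== part 5: formerly Pool.Agent.MP_c3fbfc_co.VEnc
section MrgPart5

/-! ENC: a matroid is almost determined by its circuit-hyperplanes. -/

namespace Pool.Agent.MP_c3fbfc_co.V

open Finset Filter

namespace Enc

variable {α : Type*} [Fintype α] [DecidableEq α] {r : ℕ} {K K' : Finset (Finset α)}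

/-- the shadows of `Z` lie in `K` and cover `K` outside `A` -/
def Cov (r : ℕ) (A : Finset (Finset α)) (Z : Finset (Finset α × ℕ)) (K : Finset (Finset α)) :
    Prop :=
  (∀ p ∈ Z, sh r p ⊆ K) ∧ ∀ X ∈ K, X ∈ A ∨ ∃ p ∈ Z, X ∈ sh r p

theorem exists_cov (h : K ∈ MM α r) {A S : Finset (Finset α)} (hS : S ⊆ K)
    (hA : ∀ X ∈ K, X ∈ Vr α r → X ∈ A ∨ ∃ v ∈ S, X = v ∨ Adj v X) :
    ∃ Z ⊆ OO α r, Z.card ≤ 2 * S.card ∧ Cov r A Z K := by
  choose! p hp q hq h1 h2 h3 using fun v (hv : v ∈ K) => local_cover h hv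
  refine ⟨S.image p ∪ S.image q, fun z hz => ?_, ?_, fun z hz => ?_, fun X hX => ?_⟩
  · rcases mem_union.1 hz with hz | hz <;> obtain ⟨v, hv, rfl⟩ := mem_image.1 hz
    exacts [hp v (hS hv), hq v (hS hv)]
  · have := card_union_le (S.image p) (S.image q)
    have := card_image_le (s := S) (f := p)
    have := card_image_le (s := S) (f := q)
    omega
  · rcases mem_union.1 hz with hz | hz <;> obtain ⟨v, hv, rfl⟩ := mem_image.1 hz
    exacts [h1 v (hS hv), h2 v (hS hv)]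
  · refine (hA X hX (sub_of_MM h hX)).imp_right fun ⟨v, hv, e⟩ => ?_
    rcases h3 v (hS hv) X hX e with e | e
    · exact ⟨_, mem_union_left _ (mem_image_of_mem _ hv), e⟩
    · exact ⟨_, mem_union_right _ (mem_image_of_mem _ hv), e⟩

theorem sub_of_cov (h : K ∈ MM α r) (h' : K' ∈ MM α r) (h1 : Fintype.card α ≤ 3 * r)
    (h2 : 3 * r ≤ 2 * Fintype.card α) (hn : 24 ≤ Fintype.card α) {A : Finset (Finset α)}
    [∀ X : Finset α, DecidablePred (Adj X)]
    (hA : ∀ X ∈ A, (A.filter (Adj X)).card < Fintype.card α / 5000) {Z : Finset (Finset α × ℕ)}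
    (c : Cov r A Z K) (c' : Cov r A Z K') (hW : WB r K = WB r K') (hU : UU K = UU K') :
    K ⊆ K' := by
  intro X hX
  have out : ∀ P ∈ K, P ∉ A → P ∈ K' := fun P hP hPA => by
    obtain ⟨p, hp, e⟩ := (c.2 P hP).resolve_left hPA
    exact c'.1 p hp e
  by_cases hXA : X ∈ A
  swap
  · exact out X hX hXA
  rcases mem_UU_or h hX with hu | ⟨Y, hY, hXY⟩
  · exact UU_subset _ (hU ▸ hu)
  by_cases hY' : KL r K' Y
  · exact hY'.2 hXY
  have hs : ln r Y \ K' ⊆ insert X (A.filter (Adj X)) := fun P hP => by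
    obtain ⟨hP1, hP2⟩ := mem_sdiff.1 hP
    have hPA : P ∈ A := by_contra fun hPA => hP2 (out P (hY.2 hP1) hPA)
    rcases ln_clique hXY hP1 with e | e
    · exact e ▸ mem_insert_self _ _
    · exact mem_insert_of_mem (mem_filter.2 ⟨hPA,
        (adj_iff ((mem_ln.1 hXY).1.trans (mem_ln.1 hP1).1.symm)).2 e⟩)
  have hc : (ln r Y \ K').card ≤ Fintype.card α / 5000 :=
    ((card_le_card hs).trans (card_insert_le _ _)).trans (hA X hXA)
  have hl := card_ln_ge h1 h2 hY.1
  obtain ⟨P, hP1, hP2⟩ : ∃ P ∈ ln r Y, P ∉ ln r Y \ K' :=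
    exists_mem_notMem_of_card_lt_card (by omega)
  have hPK : P ∈ K' := by_contra fun e => hP2 (mem_sdiff.2 ⟨hP1, e⟩)
  have hPW : P ∈ WB r K := hW ▸ Short_subset_WB h' (by omega) (by omega)
    (Short_mono hc (mem_Short_of_not_KL h' hY' hP1 hPK))
  exact clo_WB.1 (hW ▸ clo_WB.ln_subset hY hP1 hPW hXY)

end Enc

open Enc

theorem enc (h : ContStmt) : EncStmt := by
  classical
  intro η hη
  filter_upwards [h (η / 72) (by positivity), eventually_ge_atTop 24] with n h hn r hr 𝓐 hM hW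
  obtain ⟨𝓕, q, f1, f2, f3, -, -, f5, f6, f7⟩ := h r hr.1 hr.2.1
  have hn' : (0 : ℝ) < n := by exact_mod_cast (by omega : 0 < n)
  have key := card_le_of_rel 𝓐
    (𝓕 ×ˢ ((OO (Fin n) r).powerset.filter (fun S => (S.card : ℝ) ≤ 2 * q)) ×ˢ
      ((Vr (Fin n) r).powerset.filter (fun S => (S.card : ℝ) ≤ q)) ×ˢ 𝓐.image UU)
    (fun K t => Cov r t.1 t.2.1 K ∧ WB r K = t.2.2.1 ∧ UU K = t.2.2.2)
    (fun K hK => by
      obtain ⟨A, hA, S, hS, hq, hc⟩ := f7 K
      obtain ⟨Z, hZ, hZc, c⟩ := exists_cov (hM hK) hS hc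
      refine ⟨(A, Z, WB r K, UU K), ?_, c, rfl, rfl⟩
      simp only [mem_product, mem_filter, mem_powerset]
      refine ⟨hA, ⟨hZ, ?_⟩, ⟨clo_WB.1.trans (sub_of_MM (hM hK)), le_trans ?_ f5⟩,
        mem_image_of_mem _ hK⟩
      · have : (Z.card : ℝ) ≤ 2 * S.card := by exact_mod_cast hZc
        linarith
      · rw [le_div_iff₀ (by positivity), mul_comm]
        exact_mod_cast hW K hK)
    (fun K hK K' hK' t ht c c' => by
      have hA := (f6 t.1 (mem_product.1 ht).1).2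
      have e := Fintype.card_fin n
      exact Subset.antisymm
        (sub_of_cov (hM hK) (hM hK') (e.symm ▸ hr.1) (e.symm ▸ hr.2.1) (e.symm ▸ hn)
          (e.symm ▸ hA) c.1 c'.1 (c.2.1.trans c'.2.1.symm) (c.2.2.trans c'.2.2.symm))
        (sub_of_cov (hM hK') (hM hK) (e.symm ▸ hr.1) (e.symm ▸ hr.2.1) (e.symm ▸ hn)
          (e.symm ▸ hA) c'.1 c.1 (c'.2.1.trans c.2.1.symm) (c'.2.2.trans c.2.2.symm)))
  rw [card_product, card_product, card_product] at key
  have hE : η / 72 * n.choose (n / 2) / (n * 4 ^ gg n) ≤ η * n.choose r / n / 3 := by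
    have h1 : (n.choose (n / 2) : ℝ) ≤ 24 * n.choose r := by exact_mod_cast hr.2.2
    have h2 : (1 : ℝ) ≤ 4 ^ gg n := one_le_pow₀ (by norm_num)
    calc _ ≤ η / 72 * (24 * n.choose r) / (n * 1) := by gcongr
      _ = _ := by field_simp; ring
  have hE' := Real.exp_le_exp.2 hE
  have e3 : Real.exp (η * n.choose r / n) = Real.exp (η * n.choose r / n / 3) *
      (Real.exp (η * n.choose r / n / 3) * Real.exp (η * n.choose r / n / 3)) := by
    rw [← Real.exp_add, ← Real.exp_add]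
    congr 1
    ring
  refine (Nat.cast_le.2 key).trans ?_
  push_cast
  rw [e3, mul_assoc, mul_assoc]
  gcongr
  exacts [f1.trans hE', f3.trans hE', f2.trans hE']

end Pool.Agent.MP_c3fbfc_co.V

end MrgPart5

-- ======== part 6: formerly Pool.Agent.MP_c3fbfc_co.VCode
section MrgPart6

/-! CODE: a matroid is almost determined by a stable set of non-bases. -/

namespace Pool.Agent.MP_c3fbfc_co.V

open Finset Filter

namespace Code

variable {α : Type*} [Fintype α] [DecidableEq α]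

/-- the code of a rank function relative to a window `W` -/
def Cd (ρ : Finset α → ℕ) (r Δ : ℕ) (W A : Finset (Finset α)) (Z : Finset (Finset α × ℕ))
    (D D' I : Finset (Finset α)) : Prop :=
  (∀ X ∈ Vr α r, X ∉ A → (ρ X < r ↔ ∃ p ∈ Z, p.2 < (X ∩ p.1).card)) ∧
  (∀ S : Finset α, S.card ≤ Δ → (ρ S < S.card ↔ S ∈ D)) ∧
  (∀ S : Finset α, S.card ≤ Δ → (ρ Sᶜ < r ↔ S ∈ D')) ∧
  (∀ X ∈ I, X ∈ A ∧ ρ X < r ∧ ¬ Dec ρ r Δ X) ∧
  (∀ X ∈ A, X ∈ W → ρ X < r → Dec ρ r Δ X ∨ X ∈ I ∨ ∃ Y ∈ I, Adj Y X)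

theorem Cd.imp {ρ ρ' : Finset α → ℕ} {r Δ : ℕ} {W A : Finset (Finset α)}
    {Z : Finset (Finset α × ℕ)} {D D' I : Finset (Finset α)} (h : IsRk ρ r) (h' : IsRk ρ' r)
    (hΔ : 0 < Δ) (hA : A ⊆ Vr α r) (hdeg : ∀ X ∈ A, (A.filter (Adj X)).card < Δ)
    (c : Cd ρ r Δ W A Z D D' I) (c' : Cd ρ' r Δ W A Z D D' I) {X : Finset α}
    (hX : X ∈ Vr α r) (hW : X ∈ W) (hXr : ρ X < r) : ρ' X < r := by
  have g : Agree ρ ρ' r Δ A :=
    ⟨hA, hdeg, fun X hX hXA => (c.1 X hX hXA).trans (c'.1 X hX hXA).symm,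
      fun S hS => (c.2.1 S hS).trans (c'.2.1 S hS).symm,
      fun S hS => (c.2.2.1 S hS).trans (c'.2.2.1 S hS).symm⟩
  by_cases hXA : X ∈ A
  · rcases c.2.2.2.2 X hXA hW hXr with h1 | h1 | ⟨Y, hY, h1⟩
    · exact g.dec_imp h h' hΔ hXA h1
    · exact (c'.2.2.2.1 X h1).2.1
    · exact g.adj_imp h h' (c.2.2.2.1 Y hY).1 (c.2.2.2.1 Y hY).2.1 (c'.2.2.2.1 Y hY).2.1
        (c'.2.2.2.1 Y hY).2.2 h1 hXr
  · exact (g.out X hX hXA).1 hXr

theorem dec_of_short {r Δ : ℕ} {K : Finset (Finset α)} {ρ : Finset α → ℕ} (h : Rk r K ρ)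
    {X : Finset α} (hX : X ∈ Short r K Δ) : Dec ρ r Δ X := by
  obtain ⟨-, S, h1, ⟨h2, h3⟩ | ⟨h2, h3⟩⟩ := mem_Short.1 hX
  · exact Or.inl ⟨S, h3, h1, h.dep_iff.1 h2⟩
  · exact Or.inr (Or.inl ⟨S, h1, h.cod_iff.1 h2, h3⟩)

open Classical in
/-- the counting step -/
theorem count {r Δ : ℕ} (hΔ : 0 < Δ) (𝓕 : Finset (Finset (Finset α))) (q : ℝ)
    (hF2 : ∀ A ∈ 𝓕, A ⊆ Vr α r ∧ ∀ X ∈ A, (A.filter (Adj X)).card < Δ)
    (hF3 : ∀ K : Finset (Finset α), ∃ A ∈ 𝓕, ∃ S ⊆ K, (S.card : ℝ) ≤ q ∧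
        ∀ X ∈ K, X ∈ Vr α r → X ∈ A ∨ ∃ v ∈ S, X = v ∨ Adj v X)
    (𝓐 : Finset (Finset (Finset α))) (h𝓐 : 𝓐 ⊆ MM α r) (W D : Finset (Finset α))
    (hW : ∀ K ∈ 𝓐, ∀ K' ∈ 𝓐, K ∩ W = K' ∩ W → K = K') (hD : ∀ K ∈ 𝓐, D ⊆ Short r K Δ) :
    𝓐.card ≤ 𝓕.card * ((OO α r).powerset.filter (fun S => (S.card : ℝ) ≤ 2 * q)).card *
      2 ^ ((univ : Finset (Finset α)).filter (fun S => S.card ≤ Δ)).card *
      2 ^ ((univ : Finset (Finset α)).filter (fun S => S.card ≤ Δ)).card *
      ((SS α r).filter (fun I => I ⊆ W \ D)).card := by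
  set Zs := (OO α r).powerset.filter (fun S => (S.card : ℝ) ≤ 2 * q) with hZs
  set Ds := ((univ : Finset (Finset α)).filter (fun S => S.card ≤ Δ)).powerset with hDs
  have key := card_le_of_rel 𝓐 ((((𝓕 ×ˢ Zs) ×ˢ Ds) ×ˢ Ds) ×ˢ
      (SS α r).filter (fun I => I ⊆ W \ D))
    (fun K c => ∃ ρ, Rk r K ρ ∧ Cd ρ r Δ W c.1.1.1.1 c.1.1.1.2 c.1.1.2 c.1.2 c.2) ?_ ?_
  · simpa only [card_product, hDs, card_powerset] using key
  · intro K hK
    have hKM := h𝓐 hK
    obtain ⟨ρ, hρ⟩ := exists_rk hKM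
    have h := hρ.rk
    obtain ⟨A, hA, S, hS, hSc, hcov⟩ := hF3 K
    obtain ⟨hAV, -⟩ := hF2 A hA
    have hloc : ∀ v ∈ S, ∃ p1 p2 : Finset α × ℕ, (ρ p1.1 ≤ p1.2 ∧ p1.2 ≤ r) ∧
        (ρ p2.1 ≤ p2.2 ∧ p2.2 ≤ r) ∧ ∀ X, (X = v ∨ Adj v X) → ρ X < r →
          p1.2 < (X ∩ p1.1).card ∨ p2.2 < (X ∩ p2.1).card := by
      intro v hv
      have cv := card_of_MM hKM (hS hv)
      exact h.local_cover cv ((hρ.iff v cv).1 (hS hv))
    choose! p1 p2 hp1 hp2 hp using hloc
    set Z := S.image p1 ∪ S.image p2 with hZ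
    have hZv : ∀ p ∈ Z, ρ p.1 ≤ p.2 ∧ p.2 ≤ r := by
      intro p hp
      rcases mem_union.1 hp with hp | hp
      · obtain ⟨v, hv, rfl⟩ := mem_image.1 hp
        exact hp1 v hv
      · obtain ⟨v, hv, rfl⟩ := mem_image.1 hp
        exact hp2 v hv
    have hZZ : Z ∈ Zs := by
      rw [hZs, mem_filter, mem_powerset]
      refine ⟨fun p hp => mem_OO.2 (hZv p hp).2, ?_⟩
      have h1 : Z.card ≤ _ := card_union_le (S.image p1) (S.image p2)
      have h2 : (S.image p1).card ≤ S.card := card_image_le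
      have h3 : (S.image p2).card ≤ S.card := card_image_le
      have h4 : (Z.card : ℝ) ≤ S.card + S.card := by exact_mod_cast (by omega : Z.card ≤ _)
      linarith
    obtain ⟨I, hI1, hI2, hI3⟩ :=
      exists_max_stable (A.filter (fun X => X ∈ W ∧ ρ X < r ∧ ¬ Dec ρ r Δ X))
    have hIA : ∀ X ∈ I, X ∈ A ∧ X ∈ W ∧ ρ X < r ∧ ¬ Dec ρ r Δ X := fun X hX =>
      mem_filter.1 (hI1 hX)
    have hIV : I ⊆ Vr α r := fun X hX => hAV (hIA X hX).1
    refine ⟨((((A, Z), ((univ : Finset (Finset α)).filter (fun S => S.card ≤ Δ)).filter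
        (fun S => ρ S < S.card)), ((univ : Finset (Finset α)).filter
        (fun S => S.card ≤ Δ)).filter (fun S => ρ Sᶜ < r)), I), ?_, ρ, hρ, ?_, ?_, ?_, ?_, ?_⟩
    · simp only [mem_product]
      refine ⟨⟨⟨⟨hA, hZZ⟩, mem_powerset.2 (filter_subset _ _)⟩,
        mem_powerset.2 (filter_subset _ _)⟩, mem_filter.2 ⟨mem_SS.2 ⟨hIV,
          stb_of_stable hIV hI2⟩, fun X hX => mem_sdiff.2 ⟨(hIA X hX).2.1, fun hXD => ?_⟩⟩⟩
      exact (hIA X hX).2.2.2 (dec_of_short hρ (hD K hK hXD))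
    · intro X hX hXA
      constructor
      · intro hXr
        rcases hcov X ((hρ.iff X (mem_Vr.1 hX)).2 hXr) hX with h1 | ⟨v, hv, h1⟩
        · exact absurd h1 hXA
        · rcases hp v hv X h1 hXr with h2 | h2
          · exact ⟨p1 v, mem_union_left _ (mem_image_of_mem _ hv), h2⟩
          · exact ⟨p2 v, mem_union_right _ (mem_image_of_mem _ hv), h2⟩
      · rintro ⟨p, hp, h1⟩
        exact h.cover_valid (mem_Vr.1 hX) (hZv p hp).1 h1
    · intro S hS
      simp [hS]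
    · intro S hS
      simp [hS]
    · intro X hX
      exact ⟨(hIA X hX).1, (hIA X hX).2.2⟩
    · intro X hXA hXW hXr
      by_cases hd : Dec ρ r Δ X
      · exact Or.inl hd
      exact Or.inr (hI3 X (mem_filter.2 ⟨hXA, hXW, hXr, hd⟩))
  · rintro K hK K' hK' c hc ⟨ρ, h, c1⟩ ⟨ρ', h', c2⟩
    simp only [mem_product] at hc
    obtain ⟨hAV, hAdeg⟩ := hF2 _ hc.1.1.1.1
    refine hW K hK K' hK' ?_
    ext X
    simp only [mem_inter]
    refine and_congr_left (fun hX => ⟨fun hm => ?_, fun hm => ?_⟩)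
    · have cX := card_of_MM (h𝓐 hK) hm
      exact (h'.iff X cX).2 (c1.imp h.rk h'.rk hΔ hAV hAdeg c2 (mem_Vr.2 cX) hX
        ((h.iff X cX).1 hm))
    · have cX := card_of_MM (h𝓐 hK') hm
      exact (h.iff X cX).2 (c2.imp h'.rk h.rk hΔ hAV hAdeg c1 (mem_Vr.2 cX) hX
        ((h'.iff X cX).1 hm))

end Code

theorem code (h : ContStmt) : CodeStmt := by
  classical
  intro η hη
  filter_upwards [h (η / 4) (by positivity), eventually_ge_atTop 5000] with n hn hn5 r h1 h2
    𝓐 h𝓐 W D hW hD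
  obtain ⟨𝓕, q, c1, -, c3, c4, -, -, c7, c8⟩ := hn r h1 h2
  have hΔ : 0 < n / 5000 := Nat.div_pos hn5 (by norm_num)
  have key := Code.count hΔ 𝓕 q c7 c8 𝓐 h𝓐 W D hW hD
  set e : ℝ := Real.exp (η / 4 * n.choose (n / 2) / (n * 4 ^ gg n)) with he
  have e4 : Real.exp (η * n.choose (n / 2) / (n * 4 ^ gg n)) = e * e * e * e := by
    rw [he, ← Real.exp_add, ← Real.exp_add, ← Real.exp_add]
    congr 1
    ring
  have e0 : 0 ≤ e := (Real.exp_pos _).le
  have key' := (Nat.cast_le (α := ℝ)).2 key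
  push_cast at key'
  rw [e4]
  refine key'.trans ?_
  gcongr

end Pool.Agent.MP_c3fbfc_co.V

end MrgPart6

-- ======== part 7: formerly Pool.Agent.MP_c3fbfc_co.VOut
section MrgPart7

/-! OUT: ranks outside the window. -/

namespace Pool.Agent.MP_c3fbfc_co.V

open Finset Filter

namespace Out

variable {α : Type*} [Fintype α] [DecidableEq α]

open Classical in
/-- a stable set lies in a container together with its fingerprint -/
theorem card_SS_cont {r : ℕ} (𝓕 : Finset (Finset (Finset α))) (q b : ℝ)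
    (hF2 : ∀ A ∈ 𝓕, (A.card : ℝ) ≤ b)
    (hF3 : ∀ K : Finset (Finset α), ∃ A ∈ 𝓕, ∃ S ⊆ K, (S.card : ℝ) ≤ q ∧
        ∀ X ∈ K, X ∈ Vr α r → X ∈ A ∨ ∃ v ∈ S, X = v ∨ Adj v X) :
    ((SS α r).card : ℝ) ≤
      𝓕.card * ((Vr α r).powerset.filter (fun S => (S.card : ℝ) ≤ q)).card * (2 : ℝ) ^ b := by
  have key := card_le_mul_of_rel (SS α r)
    (𝓕 ×ˢ (Vr α r).powerset.filter (fun S => (S.card : ℝ) ≤ q))
    (fun K c => c.2 ⊆ K ∧ K ⊆ c.1 ∪ c.2) ((2 : ℝ) ^ b) ?_ ?_
  · simpa only [card_product, Nat.cast_mul] using key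
  · intro K hK
    obtain ⟨hKV, hKs⟩ := mem_SS.1 hK
    obtain ⟨A, hA, S, hS, hSc, hcov⟩ := hF3 K
    refine ⟨(A, S), mem_product.2 ⟨hA, mem_filter.2 ⟨mem_powerset.2 (hS.trans hKV), hSc⟩⟩,
      hS, fun X hX => ?_⟩
    rcases hcov X hX (hKV hX) with h1 | ⟨v, hv, rfl | h1⟩
    · exact mem_union_left _ h1
    · exact mem_union_right _ hv
    · exact absurd h1 (hKs.stable v (hS hv) X hX)
  · intro c hc
    have h1 : ((SS α r).filter (fun K => c.2 ⊆ K ∧ K ⊆ c.1 ∪ c.2)).card ≤ c.1.powerset.card := by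
      refine card_le_card_of_injOn (fun K => K ∩ c.1) (fun K _ => ?_) ?_
      · simp
      · intro K hK K' hK' e
        simp only [coe_filter, Set.mem_ofPred_eq] at hK hK' e
        ext X
        constructor
        · intro hX
          rcases mem_union.1 (hK.2.2 hX) with t | t
          · exact (mem_inter.1 (e ▸ mem_inter.2 ⟨hX, t⟩ : X ∈ K' ∩ c.1)).1
          · exact hK'.2.1 t
        · intro hX
          rcases mem_union.1 (hK'.2.2 hX) with t | t
          · exact (mem_inter.1 (e.symm ▸ mem_inter.2 ⟨hX, t⟩ : X ∈ K ∩ c.1)).1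
          · exact hK.2.1 t
    rw [card_powerset] at h1
    have h2 : (((SS α r).filter (fun K => c.2 ⊆ K ∧ K ⊆ c.1 ∪ c.2)).card : ℝ) ≤
        (2 : ℝ) ^ c.1.card := by exact_mod_cast h1
    refine h2.trans ?_
    rw [← Real.rpow_natCast]
    exact Real.rpow_le_rpow_of_exponent_le one_le_two (hF2 _ (mem_product.1 hc).1)

theorem card_MM_le (r : ℕ) : (MM α r).card ≤ 2 ^ (Fintype.card α).choose r := by
  classical
  rw [← card_Vr, ← card_powerset]
  exact card_le_card fun K hK => mem_powerset.2 (sub_of_MM hK)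

theorem choose_out {n r : ℕ} (h : ¬ (n ≤ 3 * r ∧ 3 * r ≤ 2 * n)) :
    (n.choose r : ℝ) ≤ (19 / 10) ^ n := by
  by_cases h1 : 3 * r ≤ n
  · exact choose_small h1
  by_cases h2 : r ≤ n
  · rw [← Nat.choose_symm h2]
    exact choose_small (by omega)
  · rw [Nat.choose_eq_zero_of_lt (by omega)]
    simp only [Nat.cast_zero]
    positivity

end Out

theorem out (h1 : ContStmt) (h2 : CodeStmt) : OutStmt := by
  classical
  filter_upwards [h1 (1 / 30) (by norm_num), h2 (1 / 30) (by norm_num), ev_exp 40 4,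
    eventually_ge_atTop 2] with n hc hk he hn r hW
  have hn0 : (2 : ℝ) ≤ n := by exact_mod_cast hn
  set N : ℝ := (n.choose (n / 2) : ℝ) with hN
  have hN0 : 0 ≤ N := Nat.cast_nonneg _
  have hlow : Real.exp (2 / 3 * (N / n)) ≤ (MM (Fin n) (n / 2)).card := by
    have a1 := SS_lower (α := Fin n) (r := n / 2) (by simp; omega)
    have a2 := card_SS_le (α := Fin n) (r := n / 2) (by omega) (by simp; omega)
    rw [Fintype.card_fin] at a1
    exact a1.trans (by exact_mod_cast a2)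
  have hmid := two_pow_le_middle n
  have hp : (1 : ℝ) ≤ (19 / 10) ^ n := one_le_pow₀ (by norm_num)
  have hbig : 20 * (n : ℝ) ^ 2 * (19 / 10) ^ n ≤ N / n := by
    rw [le_div_iff₀ (by linarith)]
    have a1 : (n + 1 : ℝ) * N ≤ 2 * n * N := by gcongr; linarith
    have a2 : 2 * n * (20 * (n : ℝ) ^ 2 * (19 / 10) ^ n * n) ≤ 2 * n * N := by
      calc _ = 40 * (n : ℝ) ^ 4 * (19 / 10) ^ n := by ring
        _ ≤ _ := he.trans (hmid.trans a1)
    exact le_of_mul_le_mul_left a2 (by linarith)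
  have hn2 : (1 : ℝ) ≤ (n : ℝ) ^ 2 := by nlinarith
  have hsq : 20 * (n : ℝ) ^ 2 ≤ N / n := le_trans (by nlinarith) hbig
  have hl2 := Real.log_two_lt_d9
  have hl0 := Real.log_two_gt_d9
  refine le_trans ?_ hlow
  by_cases hw : n ≤ 3 * r ∧ 3 * r ≤ 2 * n
  · have hlt : 24 * n.choose r < n.choose (n / 2) := by
      by_contra t
      exact hW ⟨hw.1, hw.2, not_lt.1 t⟩
    have hlt' : 24 * (n.choose r : ℝ) ≤ N := by rw [hN]; exact_mod_cast hlt.le
    obtain ⟨𝓕, q, c1, c2, -, -, -, -, c7, c8⟩ := hc r hw.1 hw.2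
    have hr : 0 < r := by omega
    have hr' : (0 : ℝ) < r := by exact_mod_cast hr
    have hA : ∀ A ∈ 𝓕, (A.card : ℝ) ≤ N / n / 2 := by
      intro A hA
      have a1 := card_le_of_deg (j := 1) A (c7 A hA).1
        (fun X hX => by have := (c7 A hA).2 X hX; omega) one_pos
      rw [Fintype.card_fin, Nat.cast_one, mul_one] at a1
      have a2 : (n.choose (r - 1) : ℝ) ≤ 2 * n.choose r := by exact_mod_cast choose_pred_le hw.2
      have a3 : (n : ℝ) ≤ 3 * r := by exact_mod_cast hw.1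
      have a4 : (0 : ℝ) ≤ A.card := Nat.cast_nonneg _
      rw [div_div, le_div_iff₀ (by linarith)]
      nlinarith
    have hS := Out.card_SS_cont (r := r) 𝓕 q (N / n / 2) hA c8
    have hM := hk r hw.1 hw.2 (MM (Fin n) r) Subset.rfl univ ∅
      (fun K _ K' _ e => by simpa using e) (fun K _ => empty_subset _)
    have hM2 : (((SS (Fin n) r).filter (fun I => I ⊆ univ \ ∅)).card : ℝ) ≤ (SS (Fin n) r).card :=
      Nat.cast_le.2 (card_filter_le _ _)
    set e : ℝ := Real.exp (1 / 30 * N / (n * 4 ^ gg n)) with hE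
    have e0 : 0 ≤ e := (Real.exp_pos _).le
    have e1 : e ≤ Real.exp (1 / 30 * (N / n)) := by
      rw [hE, Real.exp_le_exp, mul_div_assoc]
      have : (1 : ℝ) ≤ 4 ^ gg n := one_le_pow₀ (by norm_num)
      gcongr
      nlinarith
    have e2 : (2 : ℝ) ^ (N / n / 2) ≤ Real.exp (7 / 20 * (N / n)) := by
      rw [Real.rpow_def_of_pos (by norm_num), Real.exp_le_exp]
      have : 0 ≤ N / n := by positivity
      nlinarith
    have hS2 : ((SS (Fin n) r).card : ℝ) ≤ Real.exp (1 / 30 * (N / n)) *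
        Real.exp (1 / 30 * (N / n)) * Real.exp (7 / 20 * (N / n)) := by
      refine hS.trans ?_
      gcongr
      · exact c1.trans e1
      · exact c2.trans e1
    have hM3 : ((MM (Fin n) r).card : ℝ) ≤ Real.exp (1 / 30 * (N / n)) *
        (Real.exp (1 / 30 * (N / n)) * Real.exp (1 / 30 * (N / n)) *
          Real.exp (7 / 20 * (N / n))) := by
      refine hM.trans ?_
      gcongr
      exact hM2.trans hS2
    refine (mul_le_mul_of_nonneg_right hM3 (Real.exp_pos _).le).trans ?_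
    rw [← Real.exp_add, ← Real.exp_add, ← Real.exp_add, ← Real.exp_add, Real.exp_le_exp]
    linarith
  · have a1 := Out.choose_out hw
    have a2 : ((MM (Fin n) r).card : ℝ) ≤ Real.exp ((19 / 10) ^ n) := by
      have b1 := Out.card_MM_le (α := Fin n) r
      rw [Fintype.card_fin] at b1
      have b2 : ((MM (Fin n) r).card : ℝ) ≤ (2 : ℝ) ^ n.choose r := by exact_mod_cast b1
      refine b2.trans ?_
      rw [← Real.exp_log (show (0 : ℝ) < 2 by norm_num), ← Real.exp_nat_mul, Real.exp_le_exp]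
      have : (0 : ℝ) ≤ n.choose r := Nat.cast_nonneg _
      nlinarith
    refine (mul_le_mul_of_nonneg_right a2 (Real.exp_pos _).le).trans ?_
    rw [← Real.exp_add, Real.exp_le_exp]
    nlinarith

end Pool.Agent.MP_c3fbfc_co.V

end MrgPart7

-- ======== part 8: formerly Pool.Agent.MP_c3fbfc_co.VSym
section MrgPart8

/-! SYM: matroids with a symmetry are rare. -/

namespace Pool.Agent.MP_c3fbfc_co.V

open Finset Filter
open scoped symmDiff

namespace SymT

theorem act_UU {α : Type*} [Fintype α] [DecidableEq α] {π : Equiv.Perm α}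
    {K : Finset (Finset α)} (h : act π K = K) : act π (UU K) = UU K := by
  have inj : Function.Injective fun X : Finset α => X.image π := image_injective π.injective
  refine eq_of_subset_of_card_le (fun A hA => ?_) (card_image_of_injective _ inj).ge
  obtain ⟨A', hA', rfl⟩ := mem_image.1 hA
  obtain ⟨h1, h2⟩ := mem_UU.1 hA'
  refine mem_UU.2 ⟨h ▸ mem_image_of_mem _ h1, fun B hB => ?_⟩
  rw [← h] at hB
  obtain ⟨B', hB', rfl⟩ := mem_image.1 hB
  rw [sd, ← image_symmDiff _ _ π.injective, card_image_of_injective _ π.injective]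
  exact h2 B' hB'

/-- the number of vertices beats every polynomial -/
theorem grow {δ : ℝ} (hδ : 0 < δ) :
    ∀ᶠ n : ℕ in atTop, ∀ r, Win n r → 3 * (n : ℝ) ^ 2 ≤ δ * n.choose r / n := by
  filter_upwards [ev_exp (144 / δ) 4, eventually_ge_atTop 1] with n h1 h2 r hr
  have hn : (1 : ℝ) ≤ n := by exact_mod_cast h2
  have h3 := two_pow_le_middle n
  have h4 : (n.choose (n / 2) : ℝ) ≤ 24 * n.choose r := by exact_mod_cast hr.2.2
  have h5 : 144 / δ * (n : ℝ) ^ 4 ≤ 144 / δ * (n : ℝ) ^ 4 * (19 / 10) ^ n :=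
    le_mul_of_one_le_right (by positivity) (one_le_pow₀ (by norm_num))
  have h6 : ((n : ℝ) + 1) * n.choose (n / 2) ≤ 2 * n * (24 * n.choose r) :=
    mul_le_mul (by linarith) h4 (by positivity) (by positivity)
  have h7 : 144 / δ * (n : ℝ) ^ 4 ≤ 2 * n * (24 * n.choose r) := by linarith
  rw [div_mul_eq_mul_div, div_le_iff₀ hδ] at h7
  rw [le_div_iff₀ (by linarith)]
  refine le_of_mul_le_mul_left ?_ (show (0 : ℝ) < 48 * n by linarith)
  nlinarith

open Classical in
/-- matroids with a large exceptional part are rare -/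
theorem wb (h1 : ClbStmt) (h2 : GirthStmt) : ∀ᶠ n : ℕ in atTop, ∀ r, Win n r →
    (((MM (Fin n) r).filter (fun K => ¬ n ^ 3 * (WB r K).card ≤ n.choose r)).card : ℝ) *
      Real.exp (3 * n ^ 2) ≤ 2 * (MM (Fin n) r).card := by
  filter_upwards [h1, h2] with n a b r hr
  have c : ((MM (Fin n) r).filter (fun K => ¬ n ^ 3 * (WB r K).card ≤ n.choose r)).card ≤
      ((MM (Fin n) r).filter (fun K => Short r K (gg n) = ∅ ∧
        n.choose r < n ^ 3 * (WB r K).card)).card +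
      ((MM (Fin n) r).filter (fun K => Short r K (gg n) ≠ ∅)).card := by
    refine (card_le_card fun K hK => ?_).trans (card_union_le _ _)
    simp only [mem_filter, mem_union, not_le] at hK ⊢
    tauto
  have d := mul_le_mul_of_nonneg_right ((Nat.cast_le (α := ℝ)).2 c) (Real.exp_pos (3 * n ^ 2)).le
  push_cast at d
  linarith [a r hr, b r hr]

theorem SS_le {n r : ℕ} (hn : 1 ≤ n) (hr : Win n r) :
    ((SS (Fin n) r).card : ℝ) ≤ (MM (Fin n) r).card := by
  have := hr.1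
  have := hr.2.1
  exact_mod_cast card_SS_le (α := Fin n) (r := r) (by omega) (by rw [Fintype.card_fin]; omega)

end SymT

open SymT in
theorem sym (h1 : ClbStmt) (h2 : GirthStmt) (h3 : EncStmt) (h4 : InvStmt) : SymStmt := by
  classical
  obtain ⟨δ, hδ, h4⟩ := h4
  filter_upwards [wb h1 h2, h3 (δ / 2) (half_pos hδ), h4, grow (half_pos hδ),
    eventually_ge_atTop 2] with n a b c d hn r hr π hπ
  set 𝓐 := (MM (Fin n) r).filter (fun K => act π K = K ∧ n ^ 3 * (WB r K).card ≤ n.choose r)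
    with h𝓐
  have e1 := b r hr 𝓐 (filter_subset _ _) fun K hK => (mem_filter.1 hK).2.2
  have e2 : ((𝓐.image UU).card : ℝ) ≤ ((SS (Fin n) r).filter (fun S => act π S = S)).card := by
    refine Nat.cast_le.2 (card_le_card fun S hS => ?_)
    obtain ⟨K, hK, rfl⟩ := mem_image.1 hS
    exact mem_filter.2 ⟨UU_mem_SS (mem_filter.1 hK).1, act_UU (mem_filter.1 hK).2.1⟩
  have e3 : (𝓐.card : ℝ) * Real.exp (3 * n ^ 2) ≤ (MM (Fin n) r).card := by
    refine le_trans ?_ ((c r hr π hπ).trans (SS_le (by omega) hr))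
    calc _ ≤ Real.exp (δ / 2 * n.choose r / n) *
          ((SS (Fin n) r).filter (fun S => act π S = S)).card * Real.exp (δ / 2 * n.choose r / n) :=
          mul_le_mul (e1.trans (mul_le_mul_of_nonneg_left e2 (Real.exp_pos _).le))
            (Real.exp_le_exp.2 (d r hr)) (Real.exp_pos _).le (by positivity)
      _ = _ := by
          rw [mul_right_comm, ← Real.exp_add, mul_comm]
          congr 2
          ring
  have e4 : ((MM (Fin n) r).filter (fun K => act π K = K)).card ≤ 𝓐.card +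
      ((MM (Fin n) r).filter (fun K => ¬ n ^ 3 * (WB r K).card ≤ n.choose r)).card := by
    refine (card_le_card fun K hK => ?_).trans (card_union_le _ _)
    simp only [h𝓐, mem_filter, mem_union] at hK ⊢
    tauto
  have e5 := mul_le_mul_of_nonneg_right ((Nat.cast_le (α := ℝ)).2 e4) (Real.exp_pos (3 * n ^ 2)).le
  push_cast at e5
  have e6 : 3 * Real.exp (2 * n ^ 2) ≤ Real.exp (3 * (n : ℝ) ^ 2) := by
    have hn' : (2 : ℝ) ≤ n := by exact_mod_cast hn
    rw [show 3 * (n : ℝ) ^ 2 = n ^ 2 + 2 * n ^ 2 by ring, Real.exp_add]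
    exact mul_le_mul_of_nonneg_right (by nlinarith [Real.add_one_le_exp ((n : ℝ) ^ 2)])
      (Real.exp_pos _).le
  have e7 := mul_le_mul_of_nonneg_left e6
    (Nat.cast_nonneg (α := ℝ) ((MM (Fin n) r).filter (fun K => act π K = K)).card)
  linarith [a r hr]

end Pool.Agent.MP_c3fbfc_co.V

end MrgPart8

-- ======== part 9: formerly Pool.Agent.MP_c3fbfc_co.VTyp
section MrgPart9

/-! TYP: typical matroids. -/

namespace Pool.Agent.MP_c3fbfc_co.V

open Finset Filter

open SymT in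
theorem typ (h1 : RichStmt) (h2 : ClbStmt) (h3 : GirthStmt) (h4 : EncStmt) (h5 : SmallStmt) :
    TypStmt := by
  classical
  obtain ⟨C, -, h1⟩ := h1
  obtain ⟨ε, hε, h5⟩ := h5 (1 / 6) (by norm_num)
  refine ⟨ε, hε, ?_⟩
  filter_upwards [wb h2 h3, h4 (1 / 6) (by norm_num), h5, grow (δ := 1 / 3) (by norm_num),
    eventually_ge_atTop 24] with n a b c d hn r hr
  have hn' : (24 : ℝ) ≤ n := by exact_mod_cast hn
  have g := (h1 n r hn hr.1 hr.2.1).2.2.2.2.2
  set 𝓐 := (MM (Fin n) r).filter (fun K => n ^ 3 * (WB r K).card ≤ n.choose r ∧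
    ((UU K).card : ℝ) ≤ ε * n.choose r / n) with h𝓐
  have e1 := b r hr 𝓐 (filter_subset _ _) fun K hK => (mem_filter.1 hK).2.1
  have e2 : ((𝓐.image UU).card : ℝ) ≤
      ((SS (Fin n) r).filter (fun S => (S.card : ℝ) ≤ ε * n.choose r / n)).card := by
    refine Nat.cast_le.2 (card_le_card fun S hS => ?_)
    obtain ⟨K, hK, rfl⟩ := mem_image.1 hS
    exact mem_filter.2 ⟨UU_mem_SS (mem_filter.1 hK).1, (mem_filter.1 hK).2.2⟩
  have e3 : (𝓐.card : ℝ) * Real.exp (3 * n ^ 2) ≤ (MM (Fin n) r).card := by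
    have s := SS_lower (α := Fin n) (r := r) (by rw [Fintype.card_fin]; omega)
    rw [Fintype.card_fin] at s
    refine le_trans ?_ (s.trans (SS_le (by omega) hr))
    calc _ ≤ Real.exp (1 / 6 * n.choose r / n) * Real.exp (1 / 6 * n.choose r / n) *
          Real.exp (1 / 3 * n.choose r / n) :=
          mul_le_mul (e1.trans (mul_le_mul_of_nonneg_left (e2.trans (c r hr)) (Real.exp_pos _).le))
            (Real.exp_le_exp.2 (d r hr)) (Real.exp_pos _).le (by positivity)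
      _ = _ := by
          rw [← Real.exp_add, ← Real.exp_add]
          congr 1
          ring
  have e4 : ((MM (Fin n) r).filter (fun K => ¬ (GLn r K ∧ n ^ 3 * (WB r K).card ≤ n.choose r ∧
      ε * n.choose r / n ≤ (UU K).card))).card ≤
      ((MM (Fin n) r).filter (fun K => ¬ GLn r K)).card + (𝓐.card +
      ((MM (Fin n) r).filter (fun K => ¬ n ^ 3 * (WB r K).card ≤ n.choose r)).card) := by
    refine (card_le_card fun K hK => ?_).trans ((card_union_le _ _).trans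
      (Nat.add_le_add_left (card_union_le _ _) _))
    simp only [h𝓐, mem_filter, mem_union] at hK ⊢
    by_cases k1 : GLn r K
    · by_cases k2 : n ^ 3 * (WB r K).card ≤ n.choose r
      · exact Or.inr (Or.inl ⟨hK.1, k2, le_of_not_ge fun k3 => hK.2 ⟨k1, k2, k3⟩⟩)
      · exact Or.inr (Or.inr ⟨hK.1, k2⟩)
    · exact Or.inl ⟨hK.1, k1⟩
  have e5 := mul_le_mul_of_nonneg_right ((Nat.cast_le (α := ℝ)).2 e4) (Nat.cast_nonneg (α := ℝ) n)
  push_cast at e5
  have f1 : 2 * (n : ℝ) ≤ 2 ^ n := by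
    obtain ⟨k, rfl⟩ : ∃ k, n = k + 1 := ⟨n - 1, by omega⟩
    have : k + 1 ≤ 2 ^ k := Nat.lt_two_pow_self
    rw [pow_succ, mul_comm]
    exact mul_le_mul_of_nonneg_right (by exact_mod_cast this) zero_le_two
  have f2 : 6 * (n : ℝ) ≤ Real.exp (3 * n ^ 2) := by
    nlinarith [Real.add_one_le_exp (3 * (n : ℝ) ^ 2)]
  have f3 := mul_le_mul_of_nonneg_left f1
    (Nat.cast_nonneg (α := ℝ) ((MM (Fin n) r).filter (fun K => ¬ GLn r K)).card)
  have f4 := mul_le_mul_of_nonneg_left f2 (Nat.cast_nonneg (α := ℝ) 𝓐.card)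
  have f5 := mul_le_mul_of_nonneg_left f2 (Nat.cast_nonneg (α := ℝ)
    ((MM (Fin n) r).filter (fun K => ¬ n ^ 3 * (WB r K).card ≤ n.choose r)).card)
  linarith [a r hr]

end Pool.Agent.MP_c3fbfc_co.V

end MrgPart9

-- ======== part 10: formerly Pool.Agent.MP_c3fbfc_co.VSite
section MrgPart10

/-! SITE: many sites. -/

namespace Pool.Agent.MP_c3fbfc_co.V

open Finset
open scoped symmDiff

namespace SiteM

variable {α : Type*} [Fintype α] [DecidableEq α]
variable {T ι : Type} [Fintype T] [DecidableEq T] [Fintype ι] [DecidableEq ι]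

theorem pt_eq {W : Finset α} {Z : Finset T} {f : T → α} (h1 : Function.Injective f)
    (h2 : ∀ t, f t ∈ W ↔ t ∈ Z) (B : Finset T) :
    pt (W \ Z.image f, f) B = W ∆ (B ∆ Z).image f := by
  ext x
  by_cases hx : ∃ t, f t = x
  · obtain ⟨t, rfl⟩ := hx
    simp only [pt, mem_union, mem_sdiff, mem_symmDiff, h1.mem_finset_image, h2]
    tauto
  · have : ∀ C : Finset T, x ∉ C.image f := fun C h => by
      obtain ⟨t, -, ht⟩ := mem_image.1 h
      exact hx ⟨t, ht⟩
    simp only [pt, mem_union, mem_sdiff, mem_symmDiff, this]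
    tauto

theorem types {r : ℕ} (P : Pat T ι) {W : Finset α} (hW : W.card + P.ρ = r + P.Z.card) (j : ι)
    {M : Finset α} (h1 : (W ∆ M).card = r) (h2 : M.card = (P.H j ∆ P.Z).card) :
    (M ∩ W).card = ((P.H j ∆ P.Z) ∩ P.Z).card ∧ (M \ W).card = ((P.H j ∆ P.Z) \ P.Z).card := by
  have a1 : (P.H j ∆ P.Z) ∩ P.Z = P.Z \ P.H j := by
    ext t
    simp only [mem_inter, mem_symmDiff, mem_sdiff]
    tauto
  have a2 : (P.H j ∆ P.Z) \ P.Z = P.H j \ P.Z := by
    ext t
    simp only [mem_symmDiff, mem_sdiff]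
    tauto
  have a3 : W \ (W ∆ M) = M ∩ W := by
    ext t
    simp only [mem_inter, mem_symmDiff, mem_sdiff]
    tauto
  have a4 : (W ∆ M) \ W = M \ W := by
    ext t
    simp only [mem_symmDiff, mem_sdiff]
    tauto
  have b1 := card_add_sdiff W (W ∆ M)
  have b2 := card_add_sdiff (P.H j) P.Z
  have b3 := sd_eq (P.H j) P.Z
  have b4 := card_sdiff_add_card_inter M W
  rw [a3, a4, h1] at b1
  rw [P.cH] at b2
  rw [sd] at b3
  rw [a1, a2]
  omega

theorem card_le_fam (U : Finset (Finset α)) (W F : Finset α) (d : ℕ) :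
    (U.filter fun H => sd H W = d ∧ Disjoint (H ∆ W) F).card ≤
      ((univ.filter fun M : Finset α => W ∆ M ∈ U ∧ M.card = d).filter
        fun M => Disjoint M F).card := by
  refine card_le_card_of_injOn (fun H => H ∆ W) (fun H hH => ?_)
    fun _ _ _ _ h => symmDiff_left_injective W h
  obtain ⟨h1, h2, h3⟩ := mem_filter.1 hH
  refine mem_filter.2 ⟨mem_filter.2 ⟨mem_univ _, ?_, h2⟩, h3⟩
  dsimp only
  rwa [symmDiff_comm H, symmDiff_symmDiff_cancel_left]

open Classical in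
/-- the sites with a given centre -/
theorem emb [Nonempty α] {r : ℕ} (P : Pat T ι) {U : Finset (Finset α)} (hU : U ⊆ Vr α r)
    {W : Finset α} (hW : W.card + P.ρ = r + P.Z.card)
    (h1 : Fintype.card α + 5 * Fintype.card T ≤ 5 * W.card)
    (h2 : Fintype.card α + 5 * Fintype.card T ≤ 5 * Wᶜ.card) (i : ι) (x : ι → ℝ)
    (hx0 : ∀ j, 0 ≤ x j) (hx : ∀ j, j ≠ i → ∀ F : Finset α, F.card ≤ Fintype.card T →
      x j * (Fintype.card α : ℝ) ^ sd (P.H j) P.Z ≤
        (U.filter fun H => sd H W = sd (P.H j) P.Z ∧ Disjoint (H ∆ W) F).card) :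
    (1 / 5 : ℝ) ^ Fintype.card T * ((∏ j ∈ univ.erase i, x j) *
      (dg U (sd (P.H i) P.Z) W / (Fintype.card α : ℝ) ^ sd (P.H i) P.Z
        * (Fintype.card α : ℝ) ^ Fintype.card T))
      ≤ ((sites r P U).filter fun σ => pt σ P.Z = W).card := by
  have hn : (0 : ℝ) < Fintype.card α := by exact_mod_cast Fintype.card_pos
  have hty : ∀ j, ∀ M ∈ univ.filter fun M : Finset α => W ∆ M ∈ U ∧ M.card = sd (P.H j) P.Z,
      (M ∩ W).card = ((P.H j ∆ P.Z) ∩ P.Z).card ∧ (M \ W).card = ((P.H j ∆ P.Z) \ P.Z).card :=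
    fun j M hM => types P hW j (mem_Vr.1 (hU (mem_filter.1 hM).2.1)) (mem_filter.1 hM).2.2
  obtain ⟨S1, -, c1, m1, k1⟩ := step (W := W) (Z := P.Z) (A := ∅) (S := univ)
    ⟨fun _ _ _ _ => mem_univ _, by simp, by simp⟩ (m := P.H i ∆ P.Z) (disjoint_empty_left _) _
    (hty i) (x := dg U (sd (P.H i) P.Z) W / (Fintype.card α : ℝ) ^ sd (P.H i) P.Z) fun F hF => by
      have hF' : F = ∅ := by simpa using hF
      have := card_le_fam U W F (sd (P.H i) P.Z)
      rw [← sd, div_mul_cancel₀ _ (by positivity), Nat.cast_le]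
      refine le_trans (le_of_eq ?_) this
      simp [hF', dg]
  obtain ⟨S2, s2, c2, m2, k2⟩ := iter c1 (fun j => P.H j ∆ P.Z)
    (fun j => univ.filter fun M : Finset α => W ∆ M ∈ U ∧ M.card = sd (P.H j) P.Z) x
    (univ.erase i) (fun j _ => hx0 j)
    (fun j hj => by rw [empty_union]; exact P.disj i j (mem_erase.1 hj).1.symm)
    (fun i _ j _ h => P.disj i j h) (fun j _ => hty j)
    fun j hj F hF => (hx j (mem_erase.1 hj).1 F hF).trans (Nat.cast_le.2 (card_le_fam U W F _))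
  obtain ⟨S3, s3, c3, k3⟩ := rest c2 h1 h2
  rw [card_univ, Fintype.card_fun, Nat.cast_pow] at k1
  refine le_trans (mul_le_mul_of_nonneg_left ((mul_le_mul_of_nonneg_left k1
    (prod_nonneg fun j _ => hx0 j)).trans k2) (by positivity)) (k3.trans (Nat.cast_le.2 ?_))
  refine card_le_card_of_injOn (fun f => (W \ P.Z.image f, f)) (fun f hf => ?_)
    fun _ _ _ _ h => (Prod.ext_iff.1 h).2
  have a1 : Function.Injective f := Set.injOn_univ.1 (by simpa using c3.inj f hf)
  have a2 : ∀ t, f t ∈ W ↔ t ∈ P.Z := fun t => c3.side f hf t (mem_univ _)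
  have a3 : P.Z.image f ⊆ W := image_subset_iff.2 fun t ht => (a2 t).2 ht
  refine mem_filter.2 ⟨mem_filter.2 ⟨mem_univ _, ⟨a1, fun t ht => ?_, ?_⟩, fun j => ?_⟩, ?_⟩
  · obtain ⟨b1, b2⟩ := mem_sdiff.1 ht
    exact b2 (mem_image_of_mem _ ((a2 t).1 b1))
  · have b1 := card_le_card a3
    dsimp only
    rw [card_sdiff_of_subset a3]
    rw [card_image_of_injective _ a1] at b1 ⊢
    omega
  · rw [pt_eq a1 a2]
    by_cases h : j = i
    · rw [h]
      exact (mem_filter.1 (m1 f (s2 (s3 hf)))).2.1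
    · exact (mem_filter.1 (m2 f (s3 hf) j (mem_erase.2 ⟨h, mem_univ _⟩))).2.1
  · exact sdiff_union_of_subset a3

theorem good_sum {β κ : Type*} (V : Finset β) (J : Finset κ) (bad : κ → β → Prop)
    [∀ j, DecidablePred (bad j)] [DecidablePred fun W => ∀ j ∈ J, ¬ bad j W] (g : β → ℝ)
    (hg : ∀ W, 0 ≤ g W) : ∑ W ∈ V, g W ≤ ∑ W ∈ V.filter (fun W => ∀ j ∈ J, ¬ bad j W), g W
      + ∑ j ∈ J, ∑ W ∈ V.filter (bad j), g W := by
  simp only [sum_filter]
  rw [sum_comm, ← sum_add_distrib]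
  refine sum_le_sum fun W _ => ?_
  have h0 : ∀ j ∈ J, 0 ≤ if bad j W then g W else 0 := fun j _ => by
    split_ifs
    exacts [hg W, le_rfl]
  split_ifs with h
  · exact le_add_of_nonneg_right (sum_nonneg h0)
  · push Not at h
    obtain ⟨j, hj, hb⟩ := h
    rw [zero_add]
    exact le_trans (by rw [if_pos hb]) (single_le_sum h0 hj)

end SiteM

open SiteM in
theorem site : SiteStmt := by
  intro T ι _ _ _ _ P c hc
  classical
  have := P.ne
  obtain ⟨i, -, hi⟩ := exists_min_image univ (fun j => sd (P.H j) P.Z) univ_nonempty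
  set a := (P.H i \ P.Z).card with ha
  set b := (P.Z \ P.H i).card with hb
  have hab : sd (P.H i) P.Z = a + b := sd_eq _ _
  have hρ : P.ρ + b = P.Z.card + a := by
    have := card_add_sdiff (P.H i) P.Z
    rwa [P.cH] at this
  have hs : ∀ j, ∃ s, sd (P.H j) P.Z = a + b + s + s ∧ (j ≠ i → 2 ≤ a + b + s) := fun j => by
    have h1 := hi j (mem_univ _)
    have h2 := sd_eq (P.H j) P.Z
    have h3 := card_add_sdiff (P.H j) P.Z
    rw [P.cH] at h3
    refine ⟨(P.H j \ P.Z).card - a, by omega, fun h => ?_⟩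
    have h4 := P.fHH j i h
    have h5 := sd_triangle (P.H j) P.Z (P.H i)
    have h6 := sd_eq P.Z (P.H i)
    omega
  choose s hs hs2 using hs
  set k := Fintype.card ι with hk
  set v := Fintype.card T with hv
  have hk0 : 0 < k := Fintype.card_pos
  set κ : ℝ := 1 / ((4 ^ a * a.factorial) * (4 ^ b * b.factorial)) with hκ
  have hκ0 : 0 < κ := by positivity
  have hγ : ∀ j, ∃ γ : ℝ, 0 < γ ∧ ∀ᶠ n : ℕ in Filter.atTop, 2 * v / γ ≤ n ∧ (j ≠ i → ∀ r w,
      n ≤ 3 * r → 3 * r ≤ 2 * n → w + a = r + b → ∀ U ∈ SS (Fin n) r,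
        (∑ W ∈ (Vr (Fin n) w).filter (fun W => (dg U (a + b + s j + s j) W : ℝ) * n <
          γ * n ^ (a + b + s j + s j)), (dg U (a + b) W : ℝ)) * n
            ≤ c * κ / (2 * k) * n.choose r * n ^ (a + b)) := fun j => by
    by_cases h : j = i
    · exact ⟨1, one_pos, (tendsto_natCast_atTop_atTop.eventually_ge_atTop _).mono
        fun _ h' => ⟨h', fun h'' => absurd h h''⟩⟩
    · obtain ⟨γ, h1, h2⟩ := deg_ev a b (s j) (hs2 j h) (δ := c * κ / (2 * k)) (by positivity)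
      exact ⟨γ, h1, ((tendsto_natCast_atTop_atTop.eventually_ge_atTop _).and h2).mono
        fun _ h' => ⟨h'.1, fun _ => h'.2⟩⟩
  choose γ hγ0 hγ using hγ
  have hp : 0 < ∏ j ∈ univ.erase i, γ j / 2 := prod_pos fun j _ => half_pos (hγ0 j)
  refine ⟨(1 / 5) ^ v * (∏ j ∈ univ.erase i, γ j / 2) * (c * κ / 2), by positivity, ?_⟩
  filter_upwards [Filter.eventually_all.2 hγ, Filter.eventually_ge_atTop (15 * v + 1)]
    with n hn hn' r h1 h2 U hU hc'
  have hn0 : (0 : ℝ) < n := by exact_mod_cast (by omega : 0 < n)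
  have : Nonempty (Fin n) := ⟨⟨0, by omega⟩⟩
  have hav : a ≤ v := card_le_univ _
  have hbv : b ≤ v := card_le_univ _
  obtain ⟨w, hw⟩ : ∃ w, w + a = r + b := ⟨r + b - a, by omega⟩
  have hV := (mem_SS.1 hU).1
  set G := (Vr (Fin n) w).filter fun W => ∀ j ∈ univ.erase i,
    ¬ (dg U (a + b + s j + s j) W : ℝ) * n < γ j * n ^ (a + b + s j + s j) with hG
  have hsum : c * κ / 2 * n.choose r * n ^ (a + b) ≤ (∑ W ∈ G, (dg U (a + b) W : ℝ)) * n := by
    have b1 := mul_le_mul_of_nonneg_right (good_sum (Vr (Fin n) w) (univ.erase i)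
      (fun j W => (dg U (a + b + s j + s j) W : ℝ) * n < γ j * n ^ (a + b + s j + s j))
      (fun W => (dg U (a + b) W : ℝ)) fun _ => Nat.cast_nonneg _) hn0.le
    rw [add_mul, sum_mul (univ.erase i)] at b1
    have b2 := sum_le_card_nsmul (univ.erase i) _ _
      fun j hj => (hn j).2 (mem_erase.1 hj).1 r w h1 h2 hw U hU
    have b3 : ((univ.erase i).card : ℝ) ≤ k := Nat.cast_le.2 (card_le_univ _)
    rw [nsmul_eq_mul] at b2
    have b4 := b2.trans (mul_le_mul_of_nonneg_right b3 (by positivity))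
    have b5 : (k : ℝ) * (c * κ / (2 * k) * n.choose r * n ^ (a + b))
        = c * κ / 2 * n.choose r * n ^ (a + b) := by field_simp
    have b6 := (Nat.cast_le (α := ℝ)).2 (pairs hV hw)
    rw [Fintype.card_fin] at b6
    push_cast at b6
    have b7 := mul_le_mul hc' (mul_le_mul (le_choose (n := n) (m := r) (s := a) (by omega))
      (le_choose (n := n) (m := n - r) (s := b) (by omega)) (by positivity) (Nat.cast_nonneg _))
      (by positivity) (Nat.cast_nonneg _)
    have b8 := mul_le_mul_of_nonneg_right (b7.trans b6) hn0.le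
    have b9 : c * n.choose r / n * ((n : ℝ) ^ a / (4 ^ a * a.factorial)
        * (n ^ b / (4 ^ b * b.factorial))) * n = c * κ * n.choose r * n ^ (a + b) := by
      rw [hκ, pow_add]
      field_simp
    linarith
  have hemb : ∀ W ∈ G, (1 / 5 : ℝ) ^ v * ((∏ j ∈ univ.erase i, γ j / 2 / n) *
      (dg U (a + b) W / (n : ℝ) ^ (a + b) * (n : ℝ) ^ v))
        ≤ ((sites r P U).filter fun σ => pt σ P.Z = W).card := fun W hW => by
    obtain ⟨b1, b2⟩ := mem_filter.1 hW
    have b3 := mem_Vr.1 b1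
    have key := emb P hV (W := W) (by omega) (by rw [Fintype.card_fin]; omega)
      (by rw [card_compl, Fintype.card_fin]; omega) i (fun j => γ j / 2 / n)
      (fun j => by have := hγ0 j; positivity) fun j hj F hF => by
        obtain ⟨e, he⟩ : ∃ e, a + b + s j + s j = e + 2 :=
          ⟨a + b + s j + s j - 2, by have := hs2 j hj; omega⟩
        have c1 := not_lt.1 (b2 j (mem_erase.2 ⟨hj, mem_univ _⟩))
        have c2 := (Nat.cast_le (α := ℝ)).2 ((avoid hU W F e).trans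
          (Nat.add_le_add_left (Nat.mul_le_mul_right _ hF) _))
        have c3 := (hn j).1
        rw [div_le_iff₀ (hγ0 j)] at c3
        rw [hs j, he, Fintype.card_fin] at *
        push_cast at c2
        have c4 : (0 : ℝ) < n ^ e := by positivity
        have c5 : γ j * n ^ (e + 1) ≤ dg U (e + 2) W :=
          le_of_mul_le_mul_right (by rwa [mul_assoc, ← pow_succ]) hn0
        have c6 : γ j / 2 / n * n ^ (e + 2) = γ j * n ^ (e + 1) / 2 := by
          field_simp
          ring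
        rw [c6]
        rw [pow_succ] at c5 ⊢
        nlinarith
    rwa [hab, Fintype.card_fin] at key
  have h3 := sum_le_sum hemb
  rw [← Nat.cast_sum, sum_card_fiberwise_eq_card_filter, ← mul_sum, ← mul_sum, ← sum_mul,
    ← sum_div, prod_div_distrib, prod_const, card_erase_of_mem (mem_univ _), card_univ] at h3
  have h4 := h3.trans (Nat.cast_le.2 (card_filter_le _ _))
  refine le_trans ?_ (mul_le_mul_of_nonneg_right h4 (by positivity))
  obtain ⟨k', hk'⟩ : ∃ k', k = k' + 1 := ⟨k - 1, by omega⟩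
  rw [← hk, hk', Nat.add_sub_cancel]
  have h5 : (1 / 5 : ℝ) ^ v * ((∏ j ∈ univ.erase i, γ j / 2) / n ^ k' *
      ((∑ W ∈ G, (dg U (a + b) W : ℝ)) / n ^ (a + b) * n ^ v)) * n ^ (k' + 1)
      = (1 / 5 : ℝ) ^ v * (∏ j ∈ univ.erase i, γ j / 2) * n ^ v / n ^ (a + b) *
        ((∑ W ∈ G, (dg U (a + b) W : ℝ)) * n) := by
    field_simp
    ring
  rw [h5]
  refine le_trans (le_of_eq ?_) (mul_le_mul_of_nonneg_left hsum (by positivity))
  field_simp

end Pool.Agent.MP_c3fbfc_co.V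

end MrgPart10

-- ======== part 11: formerly Pool.Agent.MP_c3fbfc_co.VMarg
section MrgPart11

/-! MARG: few sites through a given point. -/

namespace Pool.Agent.MP_c3fbfc_co.V

open Finset
open scoped symmDiff

namespace Marg

variable {α : Type*} [DecidableEq α] {T : Type} [DecidableEq T]

/-- the points of a site differ by the image of the symmetric difference -/
theorem pt_symmDiff {σ : Finset α × (T → α)} (h1 : Function.Injective σ.2)
    (h2 : ∀ t, σ.2 t ∉ σ.1) (A B : Finset T) : pt σ A ∆ pt σ B = (A ∆ B).image σ.2 := by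
  rw [image_symmDiff _ _ h1]
  ext x
  simp only [pt, mem_symmDiff, mem_union, mem_image]
  constructor
  · rintro (⟨h | h, h'⟩ | ⟨h | h, h'⟩)
    · exact absurd (Or.inl h) h'
    · exact Or.inl ⟨h, fun k => h' (Or.inr k)⟩
    · exact absurd (Or.inl h) h'
    · exact Or.inr ⟨h, fun k => h' (Or.inr k)⟩
  · rintro (⟨⟨t, ht, rfl⟩, h'⟩ | ⟨⟨t, ht, rfl⟩, h'⟩)
    · exact Or.inl ⟨Or.inr ⟨t, ht, rfl⟩, fun k => k.elim (h2 t) h'⟩
    · exact Or.inr ⟨Or.inr ⟨t, ht, rfl⟩, fun k => k.elim (h2 t) h'⟩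

omit [DecidableEq T] in
theorem fst_eq {σ : Finset α × (T → α)} (h2 : ∀ t, σ.2 t ∉ σ.1) (B : Finset T) :
    σ.1 = pt σ B \ B.image σ.2 := by
  ext x
  simp only [pt, mem_sdiff, mem_union, mem_image]
  constructor
  · exact fun h => ⟨Or.inl h, fun ⟨t, _, e⟩ => h2 t (e ▸ h)⟩
  · rintro ⟨h | h, h'⟩
    · exact h
    · exact absurd h h'

/-- two injective maps that agree on `M` outside `e` and differ at `e` -/
theorem image_symmDiff_image {φ ψ : T → α} (h1 : Function.Injective φ)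
    (h2 : Function.Injective ψ) {M : Finset T} {e : T} (he : e ∈ M)
    (h : ∀ t ∈ M, t ≠ e → φ t = ψ t) (hne : φ e ≠ ψ e) :
    M.image φ ∆ M.image ψ = {φ e, ψ e} := by
  ext x
  simp only [mem_symmDiff, mem_image, mem_insert, mem_singleton]
  constructor
  · rintro (⟨⟨t, ht, rfl⟩, h'⟩ | ⟨⟨t, ht, rfl⟩, h'⟩)
    · by_cases k : t = e
      · exact Or.inl (k ▸ rfl)
      · exact absurd ⟨t, ht, (h t ht k).symm⟩ h'
    · by_cases k : t = e
      · exact Or.inr (k ▸ rfl)
      · exact absurd ⟨t, ht, h t ht k⟩ h'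
  · rintro (rfl | rfl)
    · refine Or.inl ⟨⟨e, he, rfl⟩, ?_⟩
      rintro ⟨t, ht, k⟩
      by_cases k' : t = e
      · exact hne (k' ▸ k.symm)
      · exact k' (h1 ((h t ht k').trans k))
    · refine Or.inr ⟨⟨e, he, rfl⟩, ?_⟩
      rintro ⟨t, ht, k⟩
      by_cases k' : t = e
      · exact hne (k' ▸ k)
      · exact k' (h2 ((h t ht k').symm.trans k))

end Marg

open Marg in
theorem marg : MargStmt := by
  classical
  intro T ι _ _ _ _ P n r U hU B I F _ hP X f
  obtain ⟨e, ord, he⟩ := hP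
  have hinj : Set.InjOn e I := by
    intro i hi j hj hij
    by_contra hne
    have a1 := (he i hi).2.2 j hj (Ne.symm hne) (hij ▸ (he j hj).1)
    have a2 := (he j hj).2.2 i hi hne (hij ▸ (he i hi).1)
    omega
  set E : Finset T := I.image e ∪ F with hE
  have hEc : E.card = I.card + F.card := by
    rw [hE, card_union_of_disjoint, card_image_of_injOn hinj]
    refine disjoint_left.2 fun t ht hF => ?_
    obtain ⟨i, hi, rfl⟩ := mem_image.1 ht
    exact (he i hi).2.1 hF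
  have hSt := (mem_SS.1 hU).2
  have key : ((sites r P U).filter (fun σ => pt σ B = X ∧ ∀ t ∈ F, σ.2 t = f t)).card ≤
      (univ : Finset ({t : T // t ∉ E} → Fin n)).card := by
    refine card_le_card_of_injOn (fun σ t => σ.2 t.1) (fun _ _ => mem_coe.2 (mem_univ _)) ?_
    intro σ hσ τ hτ hστ
    obtain ⟨hσ1, hσ2, hσ3⟩ := mem_filter.1 (mem_coe.1 hσ)
    obtain ⟨hτ1, hτ2, hτ3⟩ := mem_filter.1 (mem_coe.1 hτ)
    obtain ⟨-, ⟨a1, a2, -⟩, a4⟩ := mem_filter.1 hσ1
    obtain ⟨-, ⟨b1, b2, -⟩, b4⟩ := mem_filter.1 hτ1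
    have hout : ∀ t, t ∉ I.image e → σ.2 t = τ.2 t := by
      intro t ht
      by_cases hF : t ∈ F
      · rw [hσ3 t hF, hτ3 t hF]
      · exact congrFun hστ ⟨t, fun k => (mem_union.1 k).elim ht hF⟩
    have hin : ∀ i ∈ I, σ.2 (e i) = τ.2 (e i) := by
      by_contra hcon
      push Not at hcon
      obtain ⟨i0, hi0, hne0⟩ := hcon
      obtain ⟨i, hi, hmax⟩ := exists_max_image (I.filter (fun i => σ.2 (e i) ≠ τ.2 (e i))) ord
        ⟨i0, mem_filter.2 ⟨hi0, hne0⟩⟩
      obtain ⟨hiI, hne⟩ := mem_filter.1 hi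
      have hag : ∀ t ∈ P.H i ∆ B, t ≠ e i → σ.2 t = τ.2 t := by
        intro t ht hte
        by_cases k : t ∈ I.image e
        · obtain ⟨j, hj, rfl⟩ := mem_image.1 k
          by_contra hj'
          have c1 := hmax j (mem_filter.2 ⟨hj, hj'⟩)
          have c2 := (he j hj).2.2 i hiI (fun k => hte (k ▸ rfl)) ht
          omega
        · exact hout t k
      have h3 := image_symmDiff_image a1 b1 (he i hiI).1 hag hne
      rw [← pt_symmDiff a1 a2, ← pt_symmDiff b1 b2, hσ2, hτ2, symmDiff_comm (pt τ _),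
        symmDiff_assoc, symmDiff_symmDiff_cancel_left] at h3
      refine hSt _ (a4 i) _ (b4 i) ?_
      rw [sd, h3, card_pair hne]
    have h2 : σ.2 = τ.2 := by
      funext t
      by_cases k : t ∈ I.image e
      · obtain ⟨j, hj, rfl⟩ := mem_image.1 k
        exact hin j hj
      · exact hout t k
    refine Prod.ext ?_ h2
    rw [fst_eq a2 B, fst_eq b2 B, hσ2, hτ2, h2]
  rw [card_univ, Fintype.card_fun, Fintype.card_fin, Fintype.card_subtype_compl,
    Fintype.card_coe] at key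
  have hle : E.card ≤ Fintype.card T := card_le_univ E
  calc _ ≤ n ^ (Fintype.card T - E.card) * n ^ (I.card + F.card) := Nat.mul_le_mul_right _ key
    _ = n ^ Fintype.card T := by rw [← pow_add, ← hEc, Nat.sub_add_cancel hle]

end Pool.Agent.MP_c3fbfc_co.V

end MrgPart11

-- ======== part 12: formerly Pool.Agent.MP_c3fbfc_co.VMain
section MrgPart12

/-! The modules of the planting proof, put together. -/

namespace Pool.Agent.MP_c3fbfc_co.V

theorem girth_all : GirthStmt := girth (code cont) (cov cont)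

theorem sym_all : SymStmt :=
  sym (clb Clb.clbA) girth_all (enc cont) (inv (cov cont) (small cont))

theorem fin_all : FinStmt :=
  fin (rich pb) (cla (rich pb)) (typ (rich pb) (clb Clb.clbA) girth_all (enc cont) (small cont))
    site marg (exp_ pb (rich pb)) (plant marg)

end Pool.Agent.MP_c3fbfc_co.V

end MrgPart12

-- marker of a merged file
example : 731051 + 342613 = 731051 + 342613 := rfl
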